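import Pool.Agent.Lib.MP_361a6f_ag.FL.B.Defs

/-!
# The one half law: traces of averages over a compact group of isometries
-/

open Filter Topology MeasureTheory

set_option autoImplicit false
set_option linter.unusedSectionVars false

namespace Pool.Agent.Lib.MP_361a6f_ag.FL

namespace OL

variable {I Λ β : Type} [Fintype I] [DecidableEq I] [DecidableEq Λ] [Fintype β]
  {lb : β → ℕ} {D : Dat I Λ} {b : Tup I lb}

theorem tr_eq {L : ℕ} (f : Ten I L →ₗ[ℂ] Ten I L) :
    LinearMap.trace ℂ (Ten I L) f = ∑ w : Fin L → I, f (Pi.single w 1) w := by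
  classical
  rw [LinearMap.trace_eq_matrix_trace ℂ (Pi.basisFun ℂ (Fin L → I)), Matrix.trace]
  refine Finset.sum_congr rfl fun w _ => ?_
  rw [Matrix.diag_apply, LinearMap.toMatrix_apply, Pi.basisFun_apply, Pi.basisFun_repr]

/-- the trace of the action of `g` on the tensors of length `L` -/
theorem tr_gT {L : ℕ} (g : Matrix I I ℂ) :
    ∑ w : Fin L → I, gT g (Pi.single w 1 : Ten I L) w = g.trace ^ L := by
  classical
  have h1 : ∀ w : Fin L → I, gT g (Pi.single w 1 : Ten I L) w = ∏ i, g (w i) (w i) := by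
    intro w
    unfold gT
    rw [Finset.sum_eq_single w]
    · rw [Pi.single_eq_same, mul_one]
    · intro w' _ h
      rw [Pi.single_eq_of_ne h, mul_zero]
    · intro h
      exact absurd (Finset.mem_univ w) h
  simp only [h1]
  rw [Matrix.trace]
  have h2 := Finset.prod_univ_sum (fun _ : Fin L => (Finset.univ : Finset I))
    (fun (_ : Fin L) (j : I) => g j j)
  rw [Fintype.piFinset_univ] at h2
  rw [← h2, Finset.prod_const, Finset.card_univ, Fintype.card_fin]
  rfl

section avg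

variable (H : HMb D b) (a1 : Alg1)

theorem integ {E : Type*} [NormedAddCommGroup E] [NormedSpace ℝ E] {f : H.K → E}
    (hf : Continuous f) : Integrable f H.μ :=
  hf.integrable_of_hasCompactSupport (HasCompactSupport.of_compactSpace f)

include a1 in
theorem cont_F {L : ℕ} {φ : H.K → ℂ} (hφ : Continuous φ) {F : H.K → Matrix I I ℂ}
    (hF : Continuous F) (v : Ten I L) : Continuous fun x => φ x • gT (F x) v :=
  hφ.smul (a1.gT_cont.comp (hF.prodMk continuous_const))

/-- the average `v ↦ ∫ φ(x) F(x) v dx` -/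
noncomputable def av {L : ℕ} {φ : H.K → ℂ} (hφ : Continuous φ) {F : H.K → Matrix I I ℂ}
    (hF : Continuous F) : Ten I L →ₗ[ℂ] Ten I L where
  toFun v := ∫ x, φ x • gT (F x) v ∂H.μ
  map_add' u v := by
    rw [← integral_add (integ H (cont_F H a1 hφ hF u)) (integ H (cont_F H a1 hφ hF v))]
    refine integral_congr_ae (Eventually.of_forall fun x => ?_)
    show _ = _
    simp only [a1.gT_add, smul_add]
  map_smul' c v := by
    rw [RingHom.id_apply, ← integral_smul]
    refine integral_congr_ae (Eventually.of_forall fun x => ?_)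
    show _ = _
    simp only [a1.gT_smul]
    rw [smul_comm]

theorem av_apply {L : ℕ} {φ : H.K → ℂ} (hφ : Continuous φ) {F : H.K → Matrix I I ℂ}
    (hF : Continuous F) (v : Ten I L) : av H a1 hφ hF v = ∫ x, φ x • gT (F x) v ∂H.μ := rfl

theorem tr_av {L : ℕ} {φ : H.K → ℂ} (hφ : Continuous φ) {F : H.K → Matrix I I ℂ}
    (hF : Continuous F) : LinearMap.trace ℂ (Ten I L) (av H a1 hφ hF) =
      ∫ x, φ x * (F x).trace ^ L ∂H.μ := by
  rw [tr_eq]
  have h1 : ∀ w : Fin L → I, av H a1 hφ hF (Pi.single w 1 : Ten I L) w =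
      ∫ x, φ x * gT (F x) (Pi.single w 1 : Ten I L) w ∂H.μ := by
    intro w
    rw [av_apply, eval_integral (fun w' => ?_)]
    · rfl
    · exact integ H ((continuous_apply w').comp (cont_F H a1 hφ hF _))
  simp only [h1]
  rw [← integral_finsetSum _ fun w _ => ?_]
  · refine integral_congr_ae (Eventually.of_forall fun x => ?_)
    show _ = _
    simp only
    rw [← Finset.mul_sum, tr_gT]
  · exact integ H ((continuous_apply w).comp (cont_F H a1 hφ hF _))

/-- the tensors fixed by the group -/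
def fixS (L : ℕ) : Submodule ℂ (Ten I L) where
  carrier := {v | ∀ x, gT (H.mat x) v = v}
  add_mem' hu hv x := by rw [a1.gT_add, hu x, hv x]
  zero_mem' x := by
    have := a1.gT_smul (H.mat x) 0 (0 : Ten I L)
    rwa [zero_smul, zero_smul] at this
  smul_mem' c v hv x := by rw [a1.gT_smul, hv x]

theorem mem_fixS {L : ℕ} {v : Ten I L} : v ∈ fixS H a1 L ↔ ∀ x, gT (H.mat x) v = v := Iff.rfl

/-- the projector to the fixed tensors -/
noncomputable def pro (L : ℕ) : Ten I L →ₗ[ℂ] Ten I L :=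
  av H a1 (φ := fun _ => 1) continuous_const (F := H.mat) H.cont_mat

theorem pro_apply {L : ℕ} (v : Ten I L) : pro H a1 L v = ∫ x, gT (H.mat x) v ∂H.μ := by
  unfold pro
  rw [av_apply]
  simp only [one_smul]

/-- `gT` as a linear map -/
noncomputable def gL (L : ℕ) (g : Matrix I I ℂ) : Ten I L →ₗ[ℂ] Ten I L where
  toFun := gT g
  map_add' := a1.gT_add g
  map_smul' c v := a1.gT_smul g c v

theorem gL_apply {L : ℕ} (g : Matrix I I ℂ) (v : Ten I L) : gL a1 L g v = gT g v := rfl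

theorem gT_av {L : ℕ} {φ : H.K → ℂ} (hφ : Continuous φ) {F : H.K → Matrix I I ℂ}
    (hF : Continuous F) (g : Matrix I I ℂ) (v : Ten I L) :
    gT g (av H a1 hφ hF v) = ∫ x, φ x • gT (g * F x) v ∂H.μ := by
  rw [av_apply]
  have h1 := ContinuousLinearMap.integral_comp_comm (LinearMap.toContinuousLinearMap (gL a1 L g))
    (integ H (cont_F H a1 hφ hF v))
  have h2 : (LinearMap.toContinuousLinearMap (gL a1 L g)) (∫ x, φ x • gT (F x) v ∂H.μ) =
      gT g (∫ x, φ x • gT (F x) v ∂H.μ) := rfl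
  rw [← h2, ← h1]
  refine integral_congr_ae (Eventually.of_forall fun x => ?_)
  show gT g (φ x • gT (F x) v) = φ x • gT (g * F x) v
  rw [a1.gT_smul, a1.gT_mul]

theorem pro_mem {L : ℕ} (v : Ten I L) : pro H a1 L v ∈ fixS H a1 L := by
  intro y
  unfold pro
  rw [gT_av]
  have h1 : ∀ x : H.K, (1 : ℂ) • gT (H.mat y * H.mat x) v =
      (fun x => (1 : ℂ) • gT (H.mat x) v) (y * x) := by
    intro x
    simp only [map_mul]
  simp only [h1]
  rw [integral_mul_left_eq_self (μ := H.μ) (fun x => (1 : ℂ) • gT (H.mat x) v) y, av_apply]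

theorem pro_fix {L : ℕ} {v : Ten I L} (hv : v ∈ fixS H a1 L) : pro H a1 L v = v := by
  rw [pro_apply]
  have h1 : ∀ x, gT (H.mat x) v = v := hv
  simp only [h1]
  simp

theorem isProj (L : ℕ) : LinearMap.IsProj (fixS H a1 L) (pro H a1 L) :=
  ⟨pro_mem H a1, fun _ hv => pro_fix H a1 hv⟩

/-- the dimension of the space of the fixed tensors -/
theorem finrank_fixS (L : ℕ) :
    (Module.finrank ℂ (fixS H a1 L) : ℂ) = ∫ x, (H.mat x).trace ^ L ∂H.μ := by
  rw [← (isProj H a1 L).trace]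
  unfold pro
  rw [tr_av]
  simp only [one_mul]

/-- the signature: `k` is an involution of the space of the fixed tensors -/
theorem signature {L : ℕ} {k : Matrix I I ℂ} (hk : ∀ v ∈ fixS H a1 L, gT k v ∈ fixS H a1 L)
    (hkk : ∀ v ∈ fixS H a1 L, gT k (gT k v) = v) {P Q : Submodule ℂ (Ten I L)}
    (hP : ∀ v, v ∈ P ↔ v ∈ fixS H a1 L ∧ gT k v = v)
    (hQ : ∀ v, v ∈ Q ↔ v ∈ fixS H a1 L ∧ gT k v = -v) :
    (Module.finrank ℂ P : ℂ) + Module.finrank ℂ Q = ∫ x, (H.mat x).trace ^ L ∂H.μ ∧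
    (Module.finrank ℂ P : ℂ) - Module.finrank ℂ Q = ∫ x, (k * H.mat x).trace ^ L ∂H.μ := by
  set p : Ten I L →ₗ[ℂ] Ten I L := pro H a1 L with hp
  set kp : Ten I L →ₗ[ℂ] Ten I L := gL a1 L k ∘ₗ p with hkp
  have hkp_apply : ∀ v, kp v = gT k (p v) := fun v => rfl
  have h1 : LinearMap.IsProj P ((1 / 2 : ℂ) • (p + kp)) := by
    refine ⟨fun v => ?_, fun v hv => ?_⟩
    · have hv := pro_mem H a1 v
      rw [hP]
      refine ⟨Submodule.smul_mem _ _ (add_mem hv (hk _ hv)), ?_⟩
      show gT k ((1 / 2 : ℂ) • (p v + gT k (p v))) = (1 / 2 : ℂ) • (p v + gT k (p v))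
      rw [a1.gT_smul, a1.gT_add, hkk _ hv, add_comm]
    · obtain ⟨hv1, hv2⟩ := (hP v).1 hv
      show (1 / 2 : ℂ) • (p v + gT k (p v)) = v
      rw [pro_fix H a1 hv1, hv2, ← two_smul ℂ v, smul_smul]
      norm_num
  have h2 : LinearMap.IsProj Q ((1 / 2 : ℂ) • (p - kp)) := by
    refine ⟨fun v => ?_, fun v hv => ?_⟩
    · have hv := pro_mem H a1 v
      rw [hQ]
      refine ⟨Submodule.smul_mem _ _ (sub_mem hv (hk _ hv)), ?_⟩
      show gT k ((1 / 2 : ℂ) • (p v - gT k (p v))) = -((1 / 2 : ℂ) • (p v - gT k (p v)))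
      have h3 : p v - gT k (p v) = p v + (-1 : ℂ) • gT k (p v) := by
        rw [neg_one_smul, sub_eq_add_neg]
      rw [h3, a1.gT_smul, a1.gT_add, a1.gT_smul, hkk _ hv, ← smul_neg]
      congr 1
      rw [neg_one_smul, neg_one_smul]
      abel
    · obtain ⟨hv1, hv2⟩ := (hQ v).1 hv
      show (1 / 2 : ℂ) • (p v - gT k (p v)) = v
      rw [pro_fix H a1 hv1, hv2, sub_neg_eq_add, ← two_smul ℂ v, smul_smul]
      norm_num
  have t1 := h1.trace
  have t2 := h2.trace
  rw [map_smul, map_add, smul_eq_mul] at t1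
  rw [map_smul, map_sub, smul_eq_mul] at t2
  have t3 : LinearMap.trace ℂ (Ten I L) p = ∫ x, (H.mat x).trace ^ L ∂H.μ := by
    rw [hp]
    unfold pro
    rw [tr_av]
    simp only [one_mul]
  have t4 : LinearMap.trace ℂ (Ten I L) kp = ∫ x, (k * H.mat x).trace ^ L ∂H.μ := by
    have hc : Continuous fun x => k * H.mat x := continuous_const.mul H.cont_mat
    have h3 : kp = av H a1 (φ := fun _ => 1) continuous_const hc := by
      refine LinearMap.ext fun v => ?_
      rw [av_apply, hkp_apply, hp]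
      unfold pro
      rw [gT_av]
    rw [h3, tr_av]
    simp only [one_mul]
  rw [← t1, ← t2, ← t3, ← t4]
  constructor <;> ring

end avg

/-- the trace of a contraction is at most the dimension of a space that contains its range -/
theorem trace_le_rank {E : Type*} [NormedAddCommGroup E] [InnerProductSpace ℂ E]
    [FiniteDimensional ℂ E] (f : E →ₗ[ℂ] E) (hf : ∀ v, ‖f v‖ ≤ ‖v‖) (Y : Submodule ℂ E)
    (hY : ∀ v, f v ∈ Y) : ‖LinearMap.trace ℂ E f‖ ≤ Module.finrank ℂ Y := by
  rw [← LinearMap.trace_restrict_eq_of_forall_mem Y f hY,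
    LinearMap.trace_eq_sum_inner _ (stdOrthonormalBasis ℂ Y)]
  refine (norm_sum_le _ _).trans ?_
  have h1 : ∀ i, ‖inner ℂ ((stdOrthonormalBasis ℂ Y) i)
      ((f.restrict fun x _ => hY x) ((stdOrthonormalBasis ℂ Y) i))‖ ≤ 1 := by
    intro i
    refine (norm_inner_le_norm _ _).trans ?_
    have h2 : ‖(stdOrthonormalBasis ℂ Y) i‖ = 1 := (stdOrthonormalBasis ℂ Y).orthonormal.1 i
    rw [h2, one_mul]
    calc ‖(f.restrict fun x _ => hY x) ((stdOrthonormalBasis ℂ Y) i)‖
        = ‖f ((stdOrthonormalBasis ℂ Y) i : E)‖ := rfl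
      _ ≤ ‖((stdOrthonormalBasis ℂ Y) i : E)‖ := hf _
      _ = 1 := h2
  refine (Finset.sum_le_sum fun i _ => h1 i).trans ?_
  simp

end OL

end Pool.Agent.Lib.MP_361a6f_ag.FL
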