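import Pool.Agent.Lib.MP_361a6f_ag.FL.Qps
import Pool.Agent.Lib.MP_361a6f_ag.FL.O.Tra

/-!
# The zero-one laws: statements of the abstract rows
-/

open Filter Topology MeasureTheory

set_option autoImplicit false

namespace Pool.Agent.Lib.MP_361a6f_ag.FL

namespace OL

section defs

variable {I Λ β : Type} [Fintype I] [DecidableEq I] [DecidableEq Λ] [Fintype β] {lb : β → ℕ}

/-- the real span of the members of length `c` -/
noncomputable def RA (At : (L : ℕ) → Ten I L → Prop) (c : ℕ) : Submodule ℝ (Ten I c) :=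
  Submodule.span ℝ {u | At c u}

/-- the complex span of the members of length `c` -/
noncomputable def CA (At : (L : ℕ) → Ten I L → Prop) (c : ℕ) : Submodule ℂ (Ten I c) :=
  Submodule.span ℂ {u | At c u}

/-- the numerically trivial elements of the real span -/
noncomputable def numA (D : Dat I Λ) (At : (L : ℕ) → Ten I L → Prop) (c : ℕ) : Submodule ℝ (Ten I c) where
  carrier := {u | u ∈ RA At c ∧ ∀ w ∈ RA At c, psiT D u w = 0}
  add_mem' := by
    rintro a b ⟨ha, ha'⟩ ⟨hb, hb'⟩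
    refine ⟨add_mem ha hb, fun w hw => ?_⟩
    rw [← Qps.psiL_apply, map_add, LinearMap.add_apply, Qps.psiL_apply, Qps.psiL_apply, ha' w hw,
      hb' w hw, add_zero]
  zero_mem' := ⟨zero_mem _, fun w _ => by rw [← Qps.psiL_apply, map_zero, LinearMap.zero_apply]⟩
  smul_mem' := by
    rintro r a ⟨ha, ha'⟩
    refine ⟨Submodule.smul_mem _ r ha, fun w hw => ?_⟩
    rw [Qps.real_smul, ← Qps.psiL_apply, map_smul, LinearMap.smul_apply, Qps.psiL_apply, ha' w hw,
      smul_zero]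

/-- the rank of `ψ` on the real span -/
noncomputable def rkA (D : Dat I Λ) (At : (L : ℕ) → Ten I L → Prop) (c : ℕ) : ℕ :=
  Module.finrank ℝ (RA At c) - Module.finrank ℝ (numA D At c)

/-- `ψ` is positive definite on `U` -/
def PosU (D : Dat I Λ) {c : ℕ} (U : Submodule ℝ (Ten I c)) : Prop :=
  ∀ u ∈ U, u ≠ 0 → 0 < (psiT D u u).re

/-- `ψ` is negative definite on `U` -/
def NegU (D : Dat I Λ) {c : ℕ} (U : Submodule ℝ (Ten I c)) : Prop :=
  ∀ u ∈ U, u ≠ 0 → (psiT D u u).re < 0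

end defs

/-- Row GRO (85): growth of the space of the fixed tensors, uniformly in the group and in all data
of the dimension `d`. -/
def GroU : Prop :=
  ∀ (a1 : Alg1) (d : ℕ) (q : ℝ) (_ : 0 ≤ q) (_ : q < d), ∃ C : ℝ, 0 < C ∧
    ∀ {I Λ β : Type} [Fintype I] [DecidableEq I] [DecidableEq Λ] [Fintype β] (D : Dat I Λ)
      (_ : Fintype.card I = d) {lb : β → ℕ} {b : Tup I lb} (H : HMb D b)
      (v : Ten I 1) (_ : v ≠ 0) (_ : v ∈ fixS H a1 1) (n : ℕ),
      C * q ^ n ≤ Module.finrank ℂ (fixS H a1 n)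

/-- Row TRQ (81). -/
def TrqU : Prop :=
  ∀ (a1 : Alg1) (d l : ℕ), ∃ n₀ : ℕ,
    ∀ {I Λ β : Type} [Fintype I] [DecidableEq I] [DecidableEq Λ] [Fintype β] (D : Dat I Λ)
      (_ : Fintype.card I = d) {lb : β → ℕ} {b : Tup I lb} (H : HMb D b)
      (v : Ten I 1) (_ : v ≠ 0) (_ : v ∈ fixS H a1 1) (c : Ten I l) (_ : hT c c = 1) (n : ℕ)
      (_ : n₀ ≤ n), (Module.finrank ℂ (fixS H a1 n) : ℝ) ≤
        2 * ‖∫ x, hT c (gT (H.mat x) c) * (H.mat x).trace ^ n ∂H.μ‖

/-- **T1, abstract form**: if `ψ` is negative somewhere in length `r`, then in every large length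
`n` every definite subspace of the real span has dimension less than `(1 / 2 + δ)` times the rank.
-/
def T1U : Prop :=
  ∀ (d r : ℕ) (δ : ℝ) (_ : 0 < δ), ∃ n₀ : ℕ,
    ∀ {I Λ : Type} [Fintype I] [DecidableEq I] [DecidableEq Λ] {D : Dat I Λ}
      {At : (L : ℕ) → Ten I L → Prop} (_ : Fintype.card I = d) (_ : ASys D At)
      (_ : ∃ u ∈ RA At 1, 0 < (psiT D u u).re) (_ : ∃ u ∈ RA At r, (psiT D u u).re < 0)
      (n : ℕ) (_ : n₀ ≤ n) (U : Submodule ℝ (Ten I n)) (_ : U ≤ RA At n)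
      (_ : PosU D U ∨ NegU D U),
      (Module.finrank ℝ U : ℝ) < (1 / 2 + δ) * rkA D At n

/-- **T2, abstract form**: if there is a numerically trivial element of length `r`, then in every
large length `n` the rank of `ψ` is at most the dimension of the complex span divided by `J`. -/
def T2U : Prop :=
  ∀ (d r J : ℕ), ∃ n₀ : ℕ,
    ∀ {I Λ : Type} [Fintype I] [DecidableEq I] [DecidableEq Λ] {D : Dat I Λ}
      {At : (L : ℕ) → Ten I L → Prop} (_ : Fintype.card I = d) (_ : ASys D At)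
      (_ : ∃ u ∈ RA At 1, 0 < (psiT D u u).re) (_ : ∃ z ∈ numA D At r, z ≠ 0)
      (n : ℕ) (_ : n₀ ≤ n), J * rkA D At n ≤ Module.finrank ℂ (CA At n)

/-- **T1, strict form.** -/
def T1SU : Prop :=
  ∀ (d r : ℕ) (δ : ℝ) (_ : 0 < δ), ∃ n₀ : ℕ,
    ∀ {I Λ : Type} [Fintype I] [DecidableEq I] [DecidableEq Λ] {D : Dat I Λ}
      {At : (L : ℕ) → Ten I L → Prop} (_ : Fintype.card I = d) (_ : ASys D At)
      (_ : ∃ u ∈ RA At 1, 0 < (psiT D u u).re)
      (n : ℕ) (_ : n₀ ≤ n) (U : Submodule ℝ (Ten I n)) (_ : U ≤ RA At n) (_ : PosU D U)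
      (_ : (1 / 2 + δ) * Module.finrank ℂ (CA At n) ≤ Module.finrank ℝ U)
      (u : Ten I r) (_ : u ∈ RA At r) (_ : u ≠ 0), 0 < (psiT D u u).re

end OL

end Pool.Agent.Lib.MP_361a6f_ag.FL
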