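import Pool.Agent.Lib.MP_361a6f_ag.FL.AlgDefs

/-!
# The one per cent law: the layers

`z` is a tensor with `g_i z = e_i c_i`, `c_i → c₀`, `e_i → 0`. The tensors
`(e_i^j)⁻¹ g_i cont(z^{⊗ j}, φ)` converge to `cont(c₀^{⊗ j}, φ₀)` if `g_i φ → φ₀`, and limits for
different `j` come from linearly independent tensors.
-/

open Filter Topology Module

set_option autoImplicit false
set_option linter.unusedSectionVars false

namespace Pool.Agent.Lib.MP_361a6f_ag.FL

namespace Ind

/-! ### Linear independence of the layers -/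

section ind

variable {E : Type*} [NormedAddCommGroup E] [NormedSpace ℂ E] [FiniteDimensional ℂ E]

/-- the dimensions of the layers add up -/
theorem ind (A : Submodule ℂ E) (g : ℕ → E →ₗ[ℂ] E) (e : ℕ → ℂ) (he0 : ∀ i, e i ≠ 0)
    (he : Tendsto e atTop (𝓝 0)) (J : ℕ) (Y : Fin J → Submodule ℂ E)
    (hY : ∀ j, ∀ w ∈ Y j, ∃ y ∈ A,
      Tendsto (fun i => (e i ^ (j : ℕ))⁻¹ • g i y) atTop (𝓝 w)) :
    ∑ j, finrank ℂ (Y j) ≤ finrank ℂ A := by
  classical
  let b : ∀ j, Basis (Fin (finrank ℂ (Y j))) ℂ (Y j) := fun j => finBasis ℂ (Y j)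
  have hch : ∀ p : Σ j, Fin (finrank ℂ (Y j)), ∃ y : A,
      Tendsto (fun i => (e i ^ (p.1 : ℕ))⁻¹ • g i (y : E)) atTop (𝓝 (b p.1 p.2 : E)) := by
    intro p
    obtain ⟨y, hy, h⟩ := hY p.1 (b p.1 p.2) (b p.1 p.2).2
    exact ⟨⟨y, hy⟩, h⟩
  choose y hy using hch
  have hli : LinearIndependent ℂ y := by
    rw [Fintype.linearIndependent_iff]
    intro c hc
    have hc' : ∑ p, c p • (y p : E) = 0 := by
      have h := congrArg (fun x : A => (x : E)) hc
      simpa using h
    have key : ∀ n : ℕ, ∀ p : Σ j, Fin (finrank ℂ (Y j)), (p.1 : ℕ) = n → c p = 0 := by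
      intro n
      induction n using Nat.strong_induction_on with
      | _ n ih =>
        have hlim : Tendsto (fun i => ∑ p : Σ j, Fin (finrank ℂ (Y j)),
            c p • ((e i ^ n)⁻¹ • g i (y p : E))) atTop
            (𝓝 (∑ p : Σ j, Fin (finrank ℂ (Y j)),
              if (p.1 : ℕ) = n then c p • (b p.1 p.2 : E) else 0)) := by
          refine tendsto_finsetSum _ fun p _ => ?_
          rcases lt_trichotomy (p.1 : ℕ) n with hp | hp | hp
          · rw [ih _ hp p rfl, if_neg hp.ne]
            simp only [zero_smul]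
            exact tendsto_const_nhds
          · rw [if_pos hp]
            have h := (hy p).const_smul (c p)
            rw [hp] at h
            exact h
          · rw [if_neg hp.ne']
            have h1 : Tendsto (fun i => e i ^ ((p.1 : ℕ) - n)) atTop (𝓝 0) := by
              have h2 := he.pow ((p.1 : ℕ) - n)
              rwa [zero_pow (by omega)] at h2
            have h3 := (h1.smul (hy p)).const_smul (c p)
            rw [zero_smul, smul_zero] at h3
            refine h3.congr fun i => ?_
            rw [smul_smul (e i ^ ((p.1 : ℕ) - n))]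
            congr 2
            have h4 : e i ^ (p.1 : ℕ) = e i ^ ((p.1 : ℕ) - n) * e i ^ n := by
              rw [← pow_add]; congr 1; omega
            rw [h4, mul_inv, ← mul_assoc, mul_inv_cancel₀ (pow_ne_zero _ (he0 i)), one_mul]
        have hzero : ∀ i, ∑ p : Σ j, Fin (finrank ℂ (Y j)),
            c p • ((e i ^ n)⁻¹ • g i (y p : E)) = 0 := by
          intro i
          have h1 : (e i ^ n)⁻¹ • g i (∑ p, c p • (y p : E)) = 0 := by
            rw [hc', map_zero, smul_zero]
          rw [map_sum, Finset.smul_sum] at h1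
          rw [← h1]
          refine Finset.sum_congr rfl fun p _ => ?_
          rw [map_smul, smul_comm]
        have hlim0 := tendsto_nhds_unique (hlim.congr hzero) tendsto_const_nhds
        intro p hp
        rw [Fintype.sum_sigma] at hlim0
        rw [Finset.sum_eq_single p.1] at hlim0
        · simp only [hp, if_true] at hlim0
          have h2 : ∑ l, c ⟨p.1, l⟩ • b p.1 l = 0 := by
            apply Subtype.ext
            rw [Submodule.coe_sum]
            exact hlim0
          have h3 := Fintype.linearIndependent_iff.1 (b p.1).linearIndependent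
            (fun l => c ⟨p.1, l⟩) h2 p.2
          exact h3
        · intro j _ hj
          refine Finset.sum_eq_zero fun l _ => if_neg fun h => hj ?_
          exact Fin.ext (h.trans hp.symm)
        · intro h
          exact absurd (Finset.mem_univ _) h
    intro p
    exact key p.1 p rfl
  have hcard := hli.fintype_card_le_finrank
  rwa [Fintype.card_sigma, Finset.sum_congr rfl fun j _ => Fintype.card_fin _] at hcard

end ind

/-! ### Powers of a tensor -/

section pow

variable {I Λ : Type} [Fintype I] [DecidableEq I] [DecidableEq Λ]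

/-- the tensor power of a tensor -/
noncomputable def pw {r : ℕ} (z : Ten I r) : (j : ℕ) → Ten I (r * j)
  | 0 => fun _ => 1
  | j + 1 => outer (pw z j) z

theorem outer_smul_left {p q : ℕ} (c : ℂ) (u : Ten I p) (v : Ten I q) :
    outer (c • u) v = c • outer u v := by
  funext w
  simp only [outer, Pi.smul_apply, smul_eq_mul]
  ring

theorem outer_smul_right {p q : ℕ} (c : ℂ) (u : Ten I p) (v : Ten I q) :
    outer u (c • v) = c • outer u v := by
  funext w
  simp only [outer, Pi.smul_apply, smul_eq_mul]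
  ring

theorem pw_smul {r : ℕ} (c : ℂ) (z : Ten I r) (j : ℕ) : pw (c • z) j = c ^ j • pw z j := by
  induction j with
  | zero => rw [pow_zero, one_smul]; rfl
  | succ j ih =>
    change outer (pw (c • z) j) (c • z) = c ^ (j + 1) • outer (pw z j) z
    rw [ih, outer_smul_left, outer_smul_right, smul_smul, pow_succ]

theorem gT_unit (g : Matrix I I ℂ) : gT g (fun _ : Fin 0 → I => (1 : ℂ)) = fun _ => 1 := by
  funext w
  simp [gT]

theorem gT_pw (a2 : Alg2) (g : Matrix I I ℂ) {r : ℕ} (z : Ten I r) (j : ℕ) :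
    gT g (pw z j) = pw (gT g z) j := by
  induction j with
  | zero => exact gT_unit g
  | succ j ih =>
    change gT g (outer (pw z j) z) = outer (pw (gT g z) j) (gT g z)
    rw [a2.outer_gT, ih]

theorem outer_cont {p q : ℕ} : Continuous fun x : Ten I p × Ten I q => outer x.1 x.2 := by
  refine continuous_pi fun w => ?_
  exact ((continuous_apply _).comp continuous_fst).mul ((continuous_apply _).comp continuous_snd)

theorem pw_cont {r : ℕ} (j : ℕ) : Continuous fun z : Ten I r => pw z j := by
  induction j with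
  | zero => exact continuous_const
  | succ j ih => exact outer_cont.comp (ih.prodMk continuous_id)

theorem hT_outer {p q : ℕ} (u u' : Ten I p) (v v' : Ten I q) :
    hT (outer u v) (outer u' v') = hT u u' * hT v v' := by
  simp only [hT, outer]
  rw [Finset.sum_mul_sum, ← Finset.sum_product', ← Fintype.sum_equiv (Fin.appendEquiv p q)
    (fun x : (Fin p → I) × (Fin q → I) =>
      (u x.1 * (starRingEnd ℂ) (u' x.1)) * (v x.2 * (starRingEnd ℂ) (v' x.2))) _ ?_]
  · rfl
  · rintro ⟨x, y⟩
    simp only [Fin.appendEquiv, Equiv.coe_fn_mk, Fin.append_left, Fin.append_right, map_mul]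
    ring

theorem hT_pw {r : ℕ} (u v : Ten I r) (j : ℕ) : hT (pw u j) (pw v j) = hT u v ^ j := by
  induction j with
  | zero =>
    rw [pow_zero]
    simp [hT, pw]
  | succ j ih =>
    change hT (outer (pw u j) u) (outer (pw v j) v) = hT u v ^ (j + 1)
    rw [hT_outer, ih, pow_succ]

end pow

/-! ### Contractions -/

section cont

variable {I Λ : Type} [Fintype I] [DecidableEq I] [DecidableEq Λ] (D : Dat I Λ)

/-- contraction with `u` as a linear map -/
noncomputable def contL {p : ℕ} (u : Ten I p) (c : ℕ) : Ten I (p + c) →ₗ[ℂ] Ten I c where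
  toFun m := cont D u m
  map_add' m m' := by
    funext w
    simp only [cont, Pi.add_apply]
    rw [← Finset.sum_add_distrib]
    exact Finset.sum_congr rfl fun w' _ => by ring
  map_smul' a m := by
    funext w
    simp only [cont, Pi.smul_apply, smul_eq_mul, RingHom.id_apply]
    rw [Finset.mul_sum]
    exact Finset.sum_congr rfl fun w' _ => by ring

theorem contL_apply {p c : ℕ} (u : Ten I p) (m : Ten I (p + c)) :
    contL D u c m = cont D u m := rfl

theorem cont_smul_left {p c : ℕ} (a : ℂ) (u : Ten I p) (m : Ten I (p + c)) :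
    cont D (a • u) m = a • cont D u m := by
  funext w
  simp only [cont, Pi.smul_apply, smul_eq_mul]
  rw [Finset.mul_sum]
  exact Finset.sum_congr rfl fun w' _ => by ring

theorem cont_cont {p c : ℕ} :
    Continuous fun x : Ten I p × Ten I (p + c) => cont D x.1 x.2 := by
  refine continuous_pi fun w => continuous_finsetSum _ fun w' _ => continuous_const.mul ?_
  exact ((continuous_apply _).comp continuous_fst).mul ((continuous_apply _).comp continuous_snd)

/-- the limit of the layers -/
theorem lim (a2 : Alg2) {g : ℕ → Matrix I I ℂ} (hg : ∀ i, IsG D (g i)) {r : ℕ} {z c₀ : Ten I r}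
    {e : ℕ → ℂ} (hz : Tendsto (fun i => (e i)⁻¹ • gT (g i) z) atTop (𝓝 c₀)) (j n : ℕ)
    {φ φ₀ : Ten I (r * j + n)} (hφ : Tendsto (fun i => gT (g i) φ) atTop (𝓝 φ₀)) :
    Tendsto (fun i => (e i ^ j)⁻¹ • gT (g i) (cont D (pw z j) φ)) atTop
      (𝓝 (cont D (pw c₀ j) φ₀)) := by
  have h1 := ((cont_cont D (p := r * j) (c := n)).tendsto (pw c₀ j, φ₀)).comp
    ((((pw_cont j).tendsto c₀).comp hz).prodMk_nhds hφ)
  refine h1.congr fun i => ?_
  simp only [Function.comp_apply]
  rw [a2.cont_gT D (g i) _ _ (hg i), gT_pw a2, pw_smul, cont_smul_left, inv_pow]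

/-- closure of a system of subspaces under powers -/
theorem pw_mem {A : (L : ℕ) → Submodule ℂ (Ten I L)} (h1 : (fun _ => 1) ∈ A 0)
    (ho : ∀ p q, ∀ u ∈ A p, ∀ v ∈ A q, outer u v ∈ A (p + q)) {r : ℕ} {z : Ten I r}
    (hz : z ∈ A r) (j : ℕ) : pw z j ∈ A (r * j) := by
  induction j with
  | zero => exact h1
  | succ j ih => exact ho _ _ _ ih _ hz

/-- the dimensions of the layers: `A` is closed under outer products and contractions, all elements
of `M L` are limits of `g_i φ`, `φ ∈ A L`, and `(e_i)⁻¹ g_i z → c₀` with `e_i → 0` -/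
theorem layers (a1 : Alg1) (a2 : Alg2) {A M : (L : ℕ) → Submodule ℂ (Ten I L)}
    (h1 : (fun _ => 1) ∈ A 0) (ho : ∀ p q, ∀ u ∈ A p, ∀ v ∈ A q, outer u v ∈ A (p + q))
    (hc : ∀ p c, ∀ u ∈ A p, ∀ v ∈ A (p + c), cont D u v ∈ A c) {g : ℕ → Matrix I I ℂ}
    (hg : ∀ i, IsG D (g i)) {r : ℕ} {z c₀ : Ten I r} (hzA : z ∈ A r) {e : ℕ → ℂ}
    (he0 : ∀ i, e i ≠ 0) (he : Tendsto e atTop (𝓝 0))
    (hz : Tendsto (fun i => (e i)⁻¹ • gT (g i) z) atTop (𝓝 c₀)) (J n : ℕ)
    (hM : ∀ j < J, ∀ φ₀ ∈ M (r * j + n), ∃ φ ∈ A (r * j + n),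
      Tendsto (fun i => gT (g i) φ) atTop (𝓝 φ₀)) :
    ∑ j : Fin J, finrank ℂ ((M (r * j + n)).map (contL D (pw c₀ j) n)) ≤ finrank ℂ (A n) := by
  let gl : ℕ → Ten I n →ₗ[ℂ] Ten I n := fun i =>
    { toFun := gT (g i), map_add' := a1.gT_add (g i), map_smul' := a1.gT_smul (g i) }
  refine ind (A n) gl e he0 he J (fun j => (M (r * j + n)).map (contL D (pw c₀ j) n)) ?_
  rintro j w ⟨φ₀, hφ₀, rfl⟩
  obtain ⟨φ, hφA, hφ⟩ := hM j j.2 φ₀ hφ₀
  exact ⟨cont D (pw z j) φ, hc _ _ _ (pw_mem h1 ho hzA j) _ hφA,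
    lim D a2 hg hz j n hφ⟩

end cont

end Ind

end Pool.Agent.Lib.MP_361a6f_ag.FL
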