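import Mathlib

/-!
# Layers of different orders of magnitude, and the rank of a contraction
-/

open Filter Topology Module

set_option autoImplicit false

namespace Pool.Agent.Lib.MP_361a6f_ag.FL

namespace OLay

/-- **Layers.** If the vectors of `Y j` are limits of `e_i ^ (-j) • g_i y` with `y ∈ A`, and
`e_i → 0`, then the sum of the dimensions of the `Y j` is at most the dimension of `A`. -/
theorem layers {E E' : Type*} [AddCommGroup E] [Module ℂ E] [NormedAddCommGroup E']
    [NormedSpace ℂ E'] [FiniteDimensional ℂ E'] (g : ℕ → E →ₗ[ℂ] E') (e : ℕ → ℝ)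
    (he : ∀ i, 0 < e i) (he0 : Tendsto e atTop (𝓝 0)) (A : Submodule ℂ E)
    [FiniteDimensional ℂ A] (J : ℕ) (Y : Fin J → Submodule ℂ E')
    (hY : ∀ j, ∀ y' ∈ Y j, ∃ y ∈ A,
      Tendsto (fun i => ((((e i) ^ (j : ℕ))⁻¹ : ℝ) : ℂ) • g i y) atTop (𝓝 y')) :
    ∑ j, finrank ℂ (Y j) ≤ finrank ℂ A := by
  classical
  let b : ∀ j, Basis (Fin (finrank ℂ (Y j))) ℂ (Y j) := fun j => finBasis ℂ (Y j)
  have hl : ∀ (j : Fin J) (a : Fin (finrank ℂ (Y j))), ∃ y ∈ A,
      Tendsto (fun i => ((((e i) ^ (j : ℕ))⁻¹ : ℝ) : ℂ) • g i y) atTop (𝓝 (b j a : E')) :=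
    fun j a => hY j _ (b j a).2
  choose y hyA hy using hl
  let v : (Σ j : Fin J, Fin (finrank ℂ (Y j))) → A := fun p => ⟨y p.1 p.2, hyA p.1 p.2⟩
  have hv : LinearIndependent ℂ v := by
    rw [Fintype.linearIndependent_iff]
    intro c hc
    have hc' : ∑ p, c p • y p.1 p.2 = 0 := by
      have := congrArg Subtype.val hc
      simpa [v] using this
    have key : ∀ (N : ℕ) (j : Fin J), (j : ℕ) = N → ∀ a, c ⟨j, a⟩ = 0 := by
      intro N
      induction N using Nat.strong_induction_on with
      | _ N ih =>
        intro j hj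
        -- the limit of each term
        have hterm : ∀ p : (Σ j : Fin J, Fin (finrank ℂ (Y j))),
            Tendsto (fun i => c p • (((((e i) ^ (j : ℕ))⁻¹ : ℝ) : ℂ) • g i (y p.1 p.2))) atTop
              (𝓝 (if p.1 = j then c p • (b p.1 p.2 : E') else 0)) := by
          intro p
          rcases lt_trichotomy (p.1 : ℕ) (j : ℕ) with h | h | h
          · have h0 : c p = 0 := ih _ (hj ▸ h) p.1 rfl p.2
            have h1 : p.1 ≠ j := fun h' => by rw [h'] at h; exact lt_irrefl _ h
            rw [if_neg h1]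
            simp [h0]
          · have h1 : p.1 = j := Fin.ext h
            rw [if_pos h1]
            have h2 := (hy p.1 p.2).const_smul (c p)
            rw [h] at h2
            exact h2
          · have h1 : p.1 ≠ j := fun h' => by rw [h'] at h; exact lt_irrefl _ h
            rw [if_neg h1]
            have h2 : Tendsto (fun i => (((e i) ^ ((p.1 : ℕ) - (j : ℕ)) : ℝ) : ℂ)) atTop (𝓝 0) := by
              have h3 : Tendsto (fun i => (e i) ^ ((p.1 : ℕ) - (j : ℕ))) atTop (𝓝 0) := by
                have h4 := he0.pow ((p.1 : ℕ) - (j : ℕ))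
                rwa [zero_pow (by omega)] at h4
              have h5 := (Complex.continuous_ofReal.tendsto 0).comp h3
              rw [Complex.ofReal_zero] at h5
              exact h5
            have h6 := (h2.smul (hy p.1 p.2)).const_smul (c p)
            rw [zero_smul, smul_zero] at h6
            refine h6.congr fun i => ?_
            congr 1
            rw [smul_smul]
            congr 1
            have hne : e i ≠ 0 := (he i).ne'
            rw [← Complex.ofReal_mul]
            congr 1
            have h7 : (e i) ^ (p.1 : ℕ) = (e i) ^ ((p.1 : ℕ) - (j : ℕ)) * (e i) ^ (j : ℕ) := by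
              rw [← pow_add, Nat.sub_add_cancel h.le]
            rw [h7]
            field_simp
        have hsum := tendsto_finsetSum (Finset.univ) (fun p _ => hterm p)
        have hz : (fun i => ∑ p : (Σ j : Fin J, Fin (finrank ℂ (Y j))),
            c p • (((((e i) ^ (j : ℕ))⁻¹ : ℝ) : ℂ) • g i (y p.1 p.2))) = fun _ => 0 := by
          funext i
          have h1 := congrArg (fun z => ((((e i) ^ (j : ℕ))⁻¹ : ℝ) : ℂ) • g i z) hc'
          simp only [map_sum, map_smul, map_zero, smul_zero, Finset.smul_sum] at h1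
          rw [← h1]
          exact Finset.sum_congr rfl fun p _ => smul_comm _ _ _
        rw [hz] at hsum
        have h0 := tendsto_nhds_unique hsum tendsto_const_nhds
        rw [Fintype.sum_sigma] at h0
        have h1 : ∑ a, c ⟨j, a⟩ • (b j a : E') = 0 := by
          rw [← h0]
          rw [Finset.sum_eq_single j]
          · exact Finset.sum_congr rfl fun a _ => by rw [if_pos rfl]
          · intro j' _ hne
            exact Finset.sum_eq_zero fun a _ => by rw [if_neg hne]
          · intro h; exact absurd (Finset.mem_univ _) h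
        have h2 : ∑ a, c ⟨j, a⟩ • b j a = 0 := by
          refine Subtype.ext ?_
          simpa using h1
        exact Fintype.linearIndependent_iff.1 (b j).linearIndependent _ h2
    exact fun p => key _ p.1 rfl p.2
  have h := hv.fintype_card_le_finrank
  rwa [Fintype.card_sigma, Finset.sum_congr rfl fun j _ => Fintype.card_fin _] at h

/-- the rank of a contraction is at least the absolute value of its trace -/
theorem norm_trace_le {V : Type*} [NormedAddCommGroup V] [InnerProductSpace ℂ V]
    [FiniteDimensional ℂ V] (Q : V →ₗ[ℂ] V) (hQ : ∀ v, ‖Q v‖ ≤ ‖v‖) :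
    ‖LinearMap.trace ℂ V Q‖ ≤ finrank ℂ (LinearMap.range Q) := by
  let R := LinearMap.range Q
  let Q' : V →ₗ[ℂ] R := Q.rangeRestrict
  have h1 : Q = R.subtype ∘ₗ Q' := by ext v; rfl
  have h2 : LinearMap.trace ℂ V Q = LinearMap.trace ℂ R (Q' ∘ₗ R.subtype) := by
    conv_lhs => rw [h1]
    exact LinearMap.trace_comp_comm' _ _
  rw [h2]
  let o := stdOrthonormalBasis ℂ R
  rw [LinearMap.trace_eq_sum_inner _ o]
  refine (norm_sum_le _ _).trans ?_
  have h3 : ∀ i, ‖inner ℂ (o i) ((Q' ∘ₗ R.subtype) (o i))‖ ≤ 1 := by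
    intro i
    refine (norm_inner_le_norm _ _).trans ?_
    have h4 : ‖(Q' ∘ₗ R.subtype) (o i)‖ ≤ 1 := by
      have h5 : ‖(Q' ∘ₗ R.subtype) (o i)‖ = ‖Q (o i : V)‖ := rfl
      rw [h5]
      refine (hQ _).trans ?_
      have h6 : ‖(o i : V)‖ = ‖o i‖ := rfl
      rw [h6, o.norm_eq_one]
    rw [o.norm_eq_one, one_mul]
    exact h4
  refine (Finset.sum_le_sum fun i _ => h3 i).trans ?_
  simp [R]

end OLay

end Pool.Agent.Lib.MP_361a6f_ag.FL
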