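import Pool.Agent.Lib.MP_361a6f_ag.FL.B.Avb
import Pool.Agent.Lib.MP_361a6f_ag.FL.O.Lay

/-!
# The contractions of the fixed tensors with a fixed tensor: a lower bound for the dimension
-/

open Filter Topology Module MeasureTheory

set_option autoImplicit false
set_option linter.unusedSectionVars false

namespace Pool.Agent.Lib.MP_361a6f_ag.FL

namespace ORng

variable {I Λ β : Type} [Fintype I] [DecidableEq I] [DecidableEq Λ] [Fintype β] {lb : β → ℕ}
  {D : Dat I Λ} {b : Tup I lb}

theorem cont_outer {p n : ℕ} (u a : Ten I p) (v : Ten I n) :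
    cont D u (outer a v) = psiT D u a • v := by
  funext w
  simp only [cont, outer, Pi.smul_apply, smul_eq_mul, psiT, Fin.append_left, Fin.append_right]
  rw [Finset.sum_mul]
  exact Finset.sum_congr rfl fun w' _ => by ring

/-- the coefficient of the operator `x` -/
theorem coef (a1 : Alg1) {p : ℕ} (c : Ten I p) {g : Matrix I I ℂ} (hg : IsK D g) :
    psiT D c (gT g (jT D c)) = hT c (gT g c) := by
  rw [← a1.jT_gT D g c hg, a1.psiT_jT]

/-- the sum of the diagonal entries of the operator `g` on the tensors of length `n` -/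
theorem trace_gT (g : Matrix I I ℂ) (n : ℕ) :
    ∑ w : Fin n → I, gT g (Pi.single w 1 : Ten I n) w = (Matrix.trace g) ^ n := by
  have h1 : ∀ w : Fin n → I, gT g (Pi.single w 1 : Ten I n) w = ∏ i, g (w i) (w i) := by
    intro w
    unfold gT
    rw [Finset.sum_eq_single w]
    · rw [Pi.single_eq_same, mul_one]
    · intro w' _ hne
      rw [Pi.single_eq_of_ne hne, mul_zero]
    · intro h; exact absurd (Finset.mem_univ _) h
  rw [Finset.sum_congr rfl fun w _ => h1 w]
  have h2 : (Matrix.trace g) ^ n = ∏ _i : Fin n, ∑ a : I, g a a := by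
    rw [Finset.prod_const, Finset.card_univ, Fintype.card_fin]
    rfl
  rw [h2, Finset.prod_univ_sum, Fintype.piFinset_univ]

/-- the tensors as a euclidean space -/
noncomputable def toE (I : Type) [Fintype I] (n : ℕ) :
    Ten I n ≃ₗ[ℂ] EuclideanSpace ℂ (Fin n → I) := (WithLp.linearEquiv 2 ℂ (Ten I n)).symm

theorem toE_apply {n : ℕ} (v : Ten I n) (w : Fin n → I) : toE I n v w = v w := rfl

theorem hT_E {n : ℕ} (u v : Ten I n) : hT u v = inner ℂ (toE I n v) (toE I n u) := by
  unfold hT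
  rw [EuclideanSpace.inner_eq_star_dotProduct]
  rfl

theorem norm_toE (a1 : Alg1) {n : ℕ} {g : Matrix I I ℂ} (hg : IsK D g) (v : Ten I n) :
    ‖toE I n (gT g v)‖ = ‖toE I n v‖ := by
  have h1 : hT (gT g v) (gT g v) = hT v v := by
    rw [a1.hT_gT, ← a1.gT_mul, hg.2, a1.gT_one]
  rw [hT_E, hT_E, inner_self_eq_norm_sq_to_K, inner_self_eq_norm_sq_to_K] at h1
  have h2 : ‖toE I n (gT g v)‖ ^ 2 = ‖toE I n v‖ ^ 2 := by exact_mod_cast h1
  exact (sq_eq_sq₀ (norm_nonneg _) (norm_nonneg _)).1 h2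

variable (a1 : Alg1) (a2 : Alg2) (H : HMb D b) {p n : ℕ} (c : Ten I p)

/-- the function `⟨c, x c⟩` -/
noncomputable def cf (x : H.K) : ℂ := hT c (gT (H.mat x) c)

include a1 in
theorem cf_cont : Continuous (cf H c) := by
  have h1 : Continuous fun x : H.K => gT (H.mat x) c := AvbRow.cont_gT_k a1 H c
  unfold cf hT
  refine continuous_finsetSum _ fun w _ => continuous_const.mul ?_
  exact Complex.continuous_conj.comp ((continuous_apply w).comp h1)

include a1 in
theorem cf_le (hc : hT c c = 1) (x : H.K) : ‖cf H c x‖ ≤ 1 := by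
  unfold cf
  rw [hT_E]
  refine (norm_inner_le_norm _ _).trans ?_
  rw [norm_toE a1 (H.mem x).1]
  have h1 := hc
  rw [hT_E, inner_self_eq_norm_sq_to_K] at h1
  have h2 : ‖toE I p c‖ ^ 2 = 1 := by
    have h3 : (((‖toE I p c‖ ^ 2 : ℝ)) : ℂ) = ((1 : ℝ) : ℂ) := by
      rw [Complex.ofReal_pow, Complex.ofReal_one]
      exact h1
    exact Complex.ofReal_injective h3
  nlinarith [norm_nonneg (toE I p c)]

include a1 in
theorem f_cont (v : Ten I n) : Continuous fun x : H.K => cf H c x • gT (H.mat x) v :=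
  (cf_cont a1 H c).smul (AvbRow.cont_gT_k a1 H v)

/-- the operator `∫ ⟨c, x c⟩ x dx` -/
noncomputable def Qop (n : ℕ) : Ten I n →ₗ[ℂ] Ten I n where
  toFun v := ∫ x, cf H c x • gT (H.mat x) v ∂H.μ
  map_add' u v := by
    rw [← integral_add (AvbRow.integrable H (f_cont a1 H c u))
      (AvbRow.integrable H (f_cont a1 H c v))]
    refine integral_congr_ae (Eventually.of_forall fun x => ?_)
    simp only [a1.gT_add, smul_add]
  map_smul' r v := by
    rw [RingHom.id_apply, ← integral_smul]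
    refine integral_congr_ae (Eventually.of_forall fun x => ?_)
    simp only [a1.gT_smul]
    exact smul_comm _ _ _

theorem Qop_apply (v : Ten I n) :
    Qop a1 H c n v = ∫ x, cf H c x • gT (H.mat x) v ∂H.μ := rfl

include a2 in
theorem Qop_eq (v : Ten I n) :
    Qop a1 H c n v = cont D c (AvbRow.avT H (outer (jT D c) v)) := by
  rw [← AvgRow.cL_apply, AvbRow.avT, ← ContinuousLinearMap.integral_comp_comm _
    (AvbRow.integrable H (AvbRow.cont_gT_k a1 H _)), Qop_apply]
  refine integral_congr_ae (Eventually.of_forall fun x => ?_)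
  simp only [AvgRow.cL_apply]
  rw [a2.outer_gT, cont_outer, coef a1 c (H.mem x).1]
  rfl

theorem Qop_norm (hc : hT c c = 1) (v : Ten I n) :
    ‖toE I n (Qop a1 H c n v)‖ ≤ ‖toE I n v‖ := by
  let e : Ten I n ≃L[ℂ] EuclideanSpace ℂ (Fin n → I) := (toE I n).toContinuousLinearEquiv
  have h1 : toE I n (Qop a1 H c n v) = ∫ x, e (cf H c x • gT (H.mat x) v) ∂H.μ := by
    have := (ContinuousLinearMap.integral_comp_comm (e : Ten I n →L[ℂ] EuclideanSpace ℂ (Fin n → I))
      (AvbRow.integrable H (f_cont a1 H c v)))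
    exact this.symm
  rw [h1]
  have h2 : ∀ x, ‖e (cf H c x • gT (H.mat x) v)‖ ≤ ‖toE I n v‖ := by
    intro x
    rw [map_smul, norm_smul]
    have h3 : ‖e (gT (H.mat x) v)‖ = ‖toE I n v‖ := norm_toE a1 (H.mem x).1 v
    rw [h3]
    have h4 := cf_le a1 H c hc x
    nlinarith [norm_nonneg (toE I n v)]
  have h5 := norm_integral_le_of_norm_le_const (μ := H.μ) (Eventually.of_forall h2)
  simpa using h5

theorem Qop_trace : LinearMap.trace ℂ _ (Qop a1 H c n)
    = ∫ x, cf H c x * (Matrix.trace (H.mat x)) ^ n ∂H.μ := by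
  rw [LinearMap.trace_eq_matrix_trace ℂ (Pi.basisFun ℂ (Fin n → I)), Matrix.trace]
  have h1 : ∀ w : Fin n → I, (LinearMap.toMatrix (Pi.basisFun ℂ (Fin n → I))
      (Pi.basisFun ℂ (Fin n → I)) (Qop a1 H c n)).diag w
      = ∫ x, cf H c x * gT (H.mat x) (Pi.single w 1 : Ten I n) w ∂H.μ := by
    intro w
    rw [Matrix.diag_apply, LinearMap.toMatrix_apply, Pi.basisFun_apply, Pi.basisFun_repr,
      Qop_apply]
    exact MeasureTheory.eval_integral (f := fun x => cf H c x • gT (H.mat x) (Pi.single w 1))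
      (fun i => AvbRow.integrable H ((continuous_apply i).comp (f_cont a1 H c (Pi.single w 1)))) w
  rw [Finset.sum_congr rfl fun w _ => h1 w, ← integral_finsetSum]
  · refine integral_congr_ae (Eventually.of_forall fun x => ?_)
    simp only
    rw [← Finset.mul_sum, trace_gT]
  · intro w _
    refine AvbRow.integrable H ((cf_cont a1 H c).mul ?_)
    exact (continuous_apply w).comp (AvbRow.cont_gT_k a1 H (Pi.single w 1))

include a1 a2 in
/-- **Row RNG.** -/
theorem rng (hc : hT c c = 1) (Y : Submodule ℂ (Ten I n))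
    (hY : ∀ φ : Ten I (p + n), (∀ x, gT (H.mat x) φ = φ) → cont D c φ ∈ Y) :
    ‖∫ x, hT c (gT (H.mat x) c) * (Matrix.trace (H.mat x)) ^ n ∂H.μ‖ ≤ finrank ℂ Y := by
  have h1 : LinearMap.range (Qop a1 H c n) ≤ Y := by
    rintro _ ⟨v, rfl⟩
    rw [Qop_eq a1 a2]
    exact hY _ fun x => AvbRow.avT_inv a1 H _ _ (H.mem x)
  have h2 := Submodule.finrank_mono h1
  let Q' := (toE I n).conj (Qop a1 H c n)
  have h3 : LinearMap.trace ℂ _ Q' = LinearMap.trace ℂ _ (Qop a1 H c n) :=
    LinearMap.trace_conj' _ _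
  have h4 : ∀ v, ‖Q' v‖ ≤ ‖v‖ := by
    intro v
    have := Qop_norm a1 H c (n := n) hc ((toE I n).symm v)
    rw [LinearEquiv.apply_symm_apply] at this
    exact this
  have h5 := OLay.norm_trace_le Q' h4
  have h6 : finrank ℂ (LinearMap.range Q') ≤ finrank ℂ (LinearMap.range (Qop a1 H c n)) := by
    have e : LinearMap.range Q' = (LinearMap.range (Qop a1 H c n)).map (toE I n).toLinearMap := by
      ext y
      constructor
      · rintro ⟨v, rfl⟩
        exact ⟨_, ⟨(toE I n).symm v, rfl⟩, rfl⟩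
      · rintro ⟨_, ⟨v, rfl⟩, rfl⟩
        refine ⟨toE I n v, ?_⟩
        change toE I n (Qop a1 H c n ((toE I n).symm (toE I n v))) = _
        rw [LinearEquiv.symm_apply_apply]
        rfl
    rw [e]
    exact Submodule.finrank_map_le _ _
  rw [h3, Qop_trace] at h5
  refine h5.trans ?_
  exact_mod_cast h6.trans h2

end ORng

end Pool.Agent.Lib.MP_361a6f_ag.FL
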