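import Pool.Agent.Lib.MP_361a6f_ag.FL.O.Lev
import Pool.Agent.Lib.MP_361a6f_ag.FL.O.Defs
import Pool.Agent.Lib.MP_361a6f_ag.FL.O.Ind
import Pool.Agent.Lib.MP_361a6f_ag.FL.O.Rng

/-!
# The one per cent law, abstract form: assembly

If a nonzero member of the system is numerically trivial then the rank of `ψ` divided by the
dimension of the complex span of the members of length `n` tends to `0`.
-/

open Filter Topology MeasureTheory Module

set_option autoImplicit false
set_option linter.unusedSectionVars false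
set_option linter.unusedVariables false
set_option maxHeartbeats 400000

namespace Pool.Agent.Lib.MP_361a6f_ag.FL

namespace T2A

variable {I Λ β : Type} [Fintype I] [DecidableEq I] [DecidableEq Λ] [Fintype β] {lb : β → ℕ}
  {D : Dat I Λ} {At : (L : ℕ) → Ten I L → Prop}

open Qps OL

/-! ### Real values -/

theorem psi_im (S : ASys D At) {L : ℕ} {u v : Ten I L} (hu : u ∈ RA At L) (hv : v ∈ RA At L) :
    (psiT D u v).im = 0 := by
  unfold RA at hu hv
  induction hu using Submodule.span_induction with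
  | mem u hu =>
    induction hv using Submodule.span_induction with
    | mem v hv =>
      obtain ⟨q, hq⟩ := psi_rat S hu hv
      rw [hq]
      exact_mod_cast Complex.ofReal_im (q : ℝ)
    | zero => rw [← psiL_apply, map_zero, Complex.zero_im]
    | add a b _ _ ha hb => rw [← psiL_apply, map_add, Complex.add_im, psiL_apply, psiL_apply, ha, hb,
        add_zero]
    | smul r a _ ha =>
      rw [real_smul, ← psiL_apply, map_smul, smul_eq_mul, Complex.im_ofReal_mul, psiL_apply, ha,
        mul_zero]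
  | zero => rw [← psiL_apply, map_zero, LinearMap.zero_apply, Complex.zero_im]
  | add a b _ _ ha hb => rw [← psiL_apply, map_add, LinearMap.add_apply, Complex.add_im, psiL_apply,
      psiL_apply, ha, hb, add_zero]
  | smul r a _ ha =>
    rw [real_smul, ← psiL_apply, map_smul, LinearMap.smul_apply, smul_eq_mul, Complex.im_ofReal_mul,
      psiL_apply, ha, mul_zero]

theorem lim_sum {κ : Type*} (a1 : Alg1) {g : ℕ → Matrix I I ℂ} {L : ℕ} (T : Finset κ)
    (c : κ → ℂ) {u v : κ → Ten I L}
    (h : ∀ i, Tendsto (fun j => gT (g j) (u i)) atTop (𝓝 (v i))) :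
    Tendsto (fun j => gT (g j) (∑ i ∈ T, c i • u i)) atTop (𝓝 (∑ i ∈ T, c i • v i)) := by
  classical
  induction T using Finset.induction_on with
  | empty =>
    rw [Finset.sum_empty, Finset.sum_empty]
    exact LevO.lim_zero a1
  | insert i T hi ih =>
    rw [Finset.sum_insert hi, Finset.sum_insert hi]
    exact ZAbs.lim_add a1 (ZAbs.lim_smul a1 (c i) (h i)) ih

/-! ### The rank -/

variable {b : Tup I lb} {H : HMb D b} {m : ℕ} {g : ℕ → Matrix I I ℂ} {k : Matrix I I ℂ}

/-- a real subspace of the real span without numerically trivial elements: its dimension is at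
most that of the space of the fixed tensors -/
theorem li_le (a1 : Alg1) (S : ASys D At) (L : LevData D At m H g k) {n : ℕ} (hn : n ≤ m)
    {ι : Type} [Fintype ι] (e : ι → Ten I n) (he : ∀ i, e i ∈ RA At n)
    (hind : ∀ c : ι → ℝ, (∀ w ∈ RA At n, psiT D (∑ i, (c i : ℂ) • e i) w = 0) → ∀ i, c i = 0) :
    Fintype.card ι ≤ finrank ℂ (fixS H a1 n) := by
  classical
  have hlim : ∀ i, ∃ v, Tendsto (fun j => gT (g j) (e i)) atTop (𝓝 v) ∧
      ∀ x, gT (H.mat x) v = v := fun i =>
    L.lim n hn _ (Submodule.span_subset_span ℝ ℂ _ (he i))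
  choose v hv hvfix using hlim
  have hmem : ∀ c : ι → ℝ, (∑ i, (c i : ℂ) • e i) ∈ RA At n := by
    intro c
    refine Submodule.sum_mem _ fun i _ => ?_
    rw [← real_smul]
    exact Submodule.smul_mem _ _ (he i)
  have hli : LinearIndependent ℂ (fun i => (⟨v i, hvfix i⟩ : fixS H a1 n)) := by
    rw [Fintype.linearIndependent_iff]
    intro c hc
    have hc' : ∑ i, c i • v i = 0 := by
      have h := congrArg (fixS H a1 n).subtype hc
      rw [map_sum, map_zero] at h
      exact h
    have hpsi : ∀ w ∈ RA At n, psiT D (∑ i, ((c i).re : ℂ) • e i) w = 0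
        ∧ psiT D (∑ i, ((c i).im : ℂ) • e i) w = 0 := by
      intro w hw
      obtain ⟨w', hw', -⟩ := L.lim n hn w (Submodule.span_subset_span ℝ ℂ _ hw)
      have h2 : (∑ i, ((c i).re : ℂ) • e i) + Complex.I • (∑ i, ((c i).im : ℂ) • e i)
          = ∑ i, c i • e i := by
        rw [Finset.smul_sum, ← Finset.sum_add_distrib]
        refine Finset.sum_congr rfl fun i _ => ?_
        rw [smul_smul, ← add_smul, mul_comm Complex.I]
        rw [Complex.re_add_im (c i)]
      have h1 : psiT D ((∑ i, ((c i).re : ℂ) • e i)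
          + Complex.I • (∑ i, ((c i).im : ℂ) • e i)) w = 0 := by
        rw [h2]
        have h3 := lim_sum a1 (Finset.univ) c hv
        rw [hc'] at h3
        have h4 := L.psi n _ _ _ _ h3 hw'
        rw [← h4, ← psiL_apply, map_zero, LinearMap.zero_apply]
      have hx := psi_im S (hmem fun i => (c i).re) hw
      have hy := psi_im S (hmem fun i => (c i).im) hw
      rw [← psiL_apply, map_add, map_smul, LinearMap.add_apply, LinearMap.smul_apply, psiL_apply,
        psiL_apply, smul_eq_mul] at h1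
      have hre := congrArg Complex.re h1
      have him := congrArg Complex.im h1
      rw [Complex.add_re, Complex.mul_re, Complex.I_re, Complex.I_im, zero_mul, one_mul, hy,
        sub_zero, add_zero, Complex.zero_re] at hre
      rw [Complex.add_im, Complex.mul_im, Complex.I_re, Complex.I_im, zero_mul, one_mul, hx,
        zero_add, zero_add, Complex.zero_im] at him
      exact ⟨Complex.ext hre hx, Complex.ext him hy⟩
    have hre := hind (fun i => (c i).re) fun w hw => (hpsi w hw).1
    have him := hind (fun i => (c i).im) fun w hw => (hpsi w hw).2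
    exact fun i => Complex.ext (hre i) (him i)
  exact hli.fintype_card_le_finrank

/-- the rank of `ψ` is at most the dimension of the space of the fixed tensors -/
theorem rk_le (a1 : Alg1) (S : ASys D At) (L : LevData D At m H g k) {n : ℕ} (hn : n ≤ m) :
    rkA D At n ≤ finrank ℂ (fixS H a1 n) := by
  classical
  have hle : numA D At n ≤ RA At n := fun u hu => hu.1
  obtain ⟨C, hC⟩ := Submodule.exists_isCompl (numA D At n)
  have hsup : numA D At n ⊔ (C ⊓ RA At n) = RA At n := by
    rw [← sup_inf_assoc_of_le C hle, hC.sup_eq_top, top_inf_eq]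
  have hinf : numA D At n ⊓ (C ⊓ RA At n) = ⊥ := by
    rw [← inf_assoc, hC.inf_eq_bot, bot_inf_eq]
  have hrk : rkA D At n = finrank ℝ (C ⊓ RA At n : Submodule ℝ (Ten I n)) := by
    have h1 := Submodule.finrank_sup_add_finrank_inf_eq (numA D At n) (C ⊓ RA At n)
    rw [hsup, hinf, finrank_bot] at h1
    unfold rkA
    omega
  rw [hrk]
  generalize hU : (C ⊓ RA At n : Submodule ℝ (Ten I n)) = U
  let bU := Module.finBasis ℝ U
  have h := li_le a1 S L hn (fun i => (bU i : Ten I n))
    (fun i => by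
      have h1 : (bU i : Ten I n) ∈ (C ⊓ RA At n : Submodule ℝ (Ten I n)) := by
        rw [hU]
        exact (bU i).2
      exact h1.2)
    (fun c hc => by
      let x : U := ∑ i, c i • bU i
      have hx : (x : Ten I n) = ∑ i, (c i : ℂ) • (bU i : Ten I n) := by
        have h1 : (x : Ten I n) = U.subtype x := rfl
        rw [h1]
        simp only [x]
        rw [map_sum]
        refine Finset.sum_congr rfl fun i _ => ?_
        rw [map_smul, real_smul]
        rfl
      have hx2 : (x : Ten I n) ∈ (C ⊓ RA At n : Submodule ℝ (Ten I n)) := by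
        rw [hU]
        exact x.2
      have hx3 : (x : Ten I n) ∈ numA D At n := by
        refine ⟨hx2.2, fun w hw => ?_⟩
        rw [hx]
        exact hc w hw
      have hx4 : (x : Ten I n) = 0 := by
        have h1 : (x : Ten I n) ∈ numA D At n ⊓ (C ⊓ RA At n) := ⟨hx3, hx2⟩
        rw [hinf] at h1
        exact (Submodule.mem_bot ℝ).1 h1
      have hx5 : x = 0 := Subtype.ext hx4
      exact Fintype.linearIndependent_iff.1 bU.linearIndependent c hx5)
  rwa [Fintype.card_fin] at h

/-! ### The rescaled limit -/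

/-- the limits of numerically trivial elements vanish -/
theorem num_lim (a1 : Alg1) (S : ASys D At) (L : LevData D At m H g k) {r : ℕ} (hr : r ≤ m)
    {z : Ten I r} (hz : z ∈ numA D At r) : Tendsto (fun j => gT (g j) z) atTop (𝓝 0) := by
  obtain ⟨v, hv, -⟩ := L.lim r hr z (Submodule.span_subset_span ℝ ℂ _ hz.1)
  obtain ⟨h1, -, u', hu', h2⟩ := L.real r hr z hz.1 v hv
  have h3 : psiT D v (jT D v) = 0 := by
    rw [h1, L.psi r _ _ _ _ hv h2]
    exact hz.2 u' hu'
  rw [a1.psiT_jT, ORng.hT_E, inner_self_eq_norm_sq_to_K] at h3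
  have h4 : ((‖ORng.toE I r v‖ : ℝ) : ℂ) = 0 := pow_eq_zero_iff two_ne_zero |>.1 h3
  have h5 : ORng.toE I r v = 0 := norm_eq_zero.1 (Complex.ofReal_eq_zero.1 h4)
  have h6 : v = 0 := by
    have := congrArg (ORng.toE I r).symm h5
    rwa [LinearEquiv.symm_apply_apply, map_zero] at this
  rwa [h6] at hv

/-- a rescaled limit of norm one -/
theorem exists_scaled (a1 : Alg1) (hg : ∀ j, IsG D (g j)) {r : ℕ} {z : Ten I r} (hz0 : z ≠ 0)
    (hz : Tendsto (fun j => gT (g j) z) atTop (𝓝 0)) :
    ∃ (φ : ℕ → ℕ) (e : ℕ → ℂ) (c : Ten I r), StrictMono φ ∧ (∀ i, e i ≠ 0) ∧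
      Tendsto e atTop (𝓝 0) ∧ hT c c = 1 ∧
      Tendsto (fun i => (e i)⁻¹ • gT (g (φ i)) z) atTop (𝓝 c) := by
  let E := ORng.toE I r
  let Ec : Ten I r ≃L[ℂ] EuclideanSpace ℂ (Fin r → I) := E.toContinuousLinearEquiv
  have hne : ∀ j, E (gT (g j) z) ≠ 0 := by
    intro j h
    have h1 : gT (g j) z = 0 := by
      have := congrArg E.symm h
      rwa [LinearEquiv.symm_apply_apply, map_zero] at this
    apply hz0
    have h2 : gT (g j)⁻¹ (gT (g j) z) = 0 := by
      rw [h1]
      exact YPi.gT_zero a1 _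
    rwa [← a1.gT_mul, (a1.G_inv D _ (hg j)).2.2, a1.gT_one] at h2
  let x : ℕ → EuclideanSpace ℂ (Fin r → I) := fun j =>
    ((‖E (gT (g j) z)‖ : ℂ))⁻¹ • E (gT (g j) z)
  have hx : ∀ j, x j ∈ Metric.sphere (0 : EuclideanSpace ℂ (Fin r → I)) 1 := by
    intro j
    rw [mem_sphere_zero_iff_norm, norm_smul, norm_inv, Complex.norm_real, norm_norm]
    exact inv_mul_cancel₀ (norm_ne_zero_iff.2 (hne j))
  obtain ⟨c', hc', φ, hφ, hlim⟩ := (isCompact_sphere (0 : EuclideanSpace ℂ (Fin r → I))
    1).tendsto_subseq hx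
  refine ⟨φ, fun i => (‖E (gT (g (φ i)) z)‖ : ℂ), E.symm c', hφ, fun i => ?_, ?_, ?_, ?_⟩
  · exact Complex.ofReal_ne_zero.2 (norm_ne_zero_iff.2 (hne _))
  · have h1 : Tendsto (fun j => ‖E (gT (g j) z)‖) atTop (𝓝 0) := by
      have h2 := (Ec.continuous.tendsto 0).comp hz
      have h3 := h2.norm
      rw [map_zero, norm_zero] at h3
      exact h3
    have h2 := (Complex.continuous_ofReal.tendsto 0).comp (h1.comp hφ.tendsto_atTop)
    rw [Complex.ofReal_zero] at h2
    exact h2
  · rw [ORng.hT_E]
    have h1 : ORng.toE I r (E.symm c') = c' := LinearEquiv.apply_symm_apply _ _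
    rw [h1, inner_self_eq_norm_sq_to_K, mem_sphere_zero_iff_norm.1 hc']
    norm_num
  · have h1 := (Ec.symm.continuous.tendsto c').comp hlim
    refine h1.congr fun i => ?_
    change Ec.symm (((‖E (gT (g (φ i)) z)‖ : ℂ))⁻¹ • E (gT (g (φ i)) z)) = _
    rw [map_smul]
    exact congrArg _ (Ec.symm_apply_apply _)

/-! ### Closure of the complex span -/

theorem outer_mem (S : ASys D At) (p q : ℕ) (u : Ten I p) (hu : u ∈ CA At p) (v : Ten I q)
    (hv : v ∈ CA At q) : outer u v ∈ CA At (p + q) := by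
  unfold CA at hu hv ⊢
  induction hu using Submodule.span_induction with
  | mem u hu =>
    induction hv using Submodule.span_induction with
    | mem v hv => exact Submodule.subset_span (S.outer _ _ _ _ hu hv)
    | zero =>
      have : outer u (0 : Ten I q) = 0 := by funext w; simp [outer]
      rw [this]; exact zero_mem _
    | add a b _ _ ha hb =>
      have : outer u (a + b) = outer u a + outer u b := by
        funext w; simp [outer, mul_add]
      rw [this]; exact add_mem ha hb
    | smul c a _ ha =>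
      rw [Ind.outer_smul_right]; exact Submodule.smul_mem _ _ ha
  | zero =>
    have : outer (0 : Ten I p) v = 0 := by funext w; simp [outer]
    rw [this]; exact zero_mem _
  | add a b _ _ ha hb =>
    have : outer (a + b) v = outer a v + outer b v := by
      funext w; simp [outer, add_mul]
    rw [this]; exact add_mem ha hb
  | smul c a _ ha =>
    rw [Ind.outer_smul_left]; exact Submodule.smul_mem _ _ ha

theorem cont_mem (S : ASys D At) (p c : ℕ) (u : Ten I p) (hu : u ∈ CA At p) (v : Ten I (p + c))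
    (hv : v ∈ CA At (p + c)) : cont D u v ∈ CA At c := by
  unfold CA at hu hv ⊢
  induction hu using Submodule.span_induction with
  | mem u hu =>
    induction hv using Submodule.span_induction with
    | mem v hv => exact Submodule.subset_span (S.cont _ _ _ _ hu hv)
    | zero =>
      rw [← Ind.contL_apply, map_zero]; exact zero_mem _
    | add a b _ _ ha hb =>
      rw [← Ind.contL_apply, map_add]; exact add_mem ha hb
    | smul c a _ ha =>
      rw [← Ind.contL_apply, map_smul]; exact Submodule.smul_mem _ _ ha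
  | zero =>
    have : cont D (0 : Ten I p) v = 0 := by funext w; simp [cont]
    rw [this]; exact zero_mem _
  | add a b _ _ ha hb =>
    have : cont D (a + b) v = cont D a v + cont D b v := by
      funext w
      simp only [cont, Pi.add_apply]
      rw [← Finset.sum_add_distrib]
      exact Finset.sum_congr rfl fun w' _ => by ring
    rw [this]; exact add_mem ha hb
  | smul c a _ ha =>
    rw [Ind.cont_smul_left]; exact Submodule.smul_mem _ _ ha

/-! ### The core -/

/-- the trace bound with the constant `K` for the length `n` and a tensor of length `l`, uniformly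
in the group -/
def TrqAt (a1 : Alg1) (D : Dat I Λ) (K : ℝ) (l n : ℕ) : Prop :=
  ∀ (β : Type) (_ : Fintype β) (lb : β → ℕ) (b : Tup I lb) (H : HMb D b)
    (v : Ten I 1) (_ : v ≠ 0) (_ : v ∈ fixS H a1 1) (c : Ten I l) (_ : hT c c = 1),
    (Module.finrank ℂ (fixS H a1 n) : ℝ) ≤
      K * ‖∫ x, hT c (gT (H.mat x) c) * (H.mat x).trace ^ n ∂H.μ‖

/-- **Core of the one per cent law**, for one length `n` and a constant `K`: if the trace bound
holds with `K` for the lengths `r j`, `j < M`, then `M` times the rank is at most `K` times the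
dimension of the complex span. -/
theorem core (a1 : Alg1) (a2 : Alg2) (ab : AlgB) (cpt : CptbStatement) (mn : MinbStatement)
    (l1 : L1bStatement) (l2 : L2bStatement) (S : ASys D At)
    (hu : ∃ u ∈ RA At 1, ∃ w ∈ RA At 1, psiT D u w ≠ 0) {r : ℕ} {z : Ten I r}
    (hz : z ∈ numA D At r) (hz0 : z ≠ 0) {K : ℝ} (hK : 0 ≤ K) (M n : ℕ)
    (htr : ∀ j < M, TrqAt a1 D K (r * j) n) :
    (M : ℝ) * rkA D At n ≤ K * finrank ℂ (CA At n) := by
  obtain ⟨β, _, lb, b, H, g, k, L⟩ := LevO.lev a1 a2 ab cpt mn l1 l2 S (n + r * M + r + 1)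
  -- a fixed vector
  obtain ⟨u, hu1, w, hw1, hu2⟩ := hu
  obtain ⟨v, hv, hvfix⟩ := L.lim 1 (by omega) u (Submodule.span_subset_span ℝ ℂ _ hu1)
  obtain ⟨v', hv', -⟩ := L.lim 1 (by omega) w (Submodule.span_subset_span ℝ ℂ _ hw1)
  have hv0 : v ≠ 0 := by
    rintro rfl
    have h1 := L.psi 1 u w 0 v' hv hv'
    rw [← psiL_apply, map_zero, LinearMap.zero_apply] at h1
    exact hu2 h1.symm
  -- the rescaled limit
  obtain ⟨φ, e, c, hφ, he0, he, hc, hlim⟩ := exists_scaled a1 L.G hz0
    (num_lim a1 S L (by omega) hz)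
  have h1 : (fun _ => (1 : ℂ)) ∈ CA At 0 := Submodule.subset_span S.one
  have hzC : z ∈ CA At r := Submodule.span_subset_span ℝ ℂ _ hz.1
  have hlay := Ind.layers (D := D) a1 a2 (A := fun L => CA At L) (M := fun L => fixS H a1 L) h1
    (fun p q u hu v hv => outer_mem S p q u hu v hv)
    (fun p c u hu v hv => cont_mem S p c u hu v hv) (g := fun i => g (φ i))
    (fun i => L.G (φ i)) hzC he0 he hlim M n (fun j hj φ₀ hφ₀ => by
      have hle : r * j + n ≤ n + r * M + r + 1 := by
        have := Nat.mul_le_mul_left r hj.le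
        omega
      obtain ⟨y, hy, hy'⟩ := L.surj (r * j + n) hle φ₀ hφ₀
      exact ⟨y, hy, hy'.comp hφ.tendsto_atTop⟩)
  have hterm : ∀ j : Fin M, (finrank ℂ (fixS H a1 n) : ℝ)
      ≤ K * (finrank ℂ ((fixS H a1 (r * j + n)).map (Ind.contL D (Ind.pw c j) n)) : ℝ) := by
    intro j
    have hcj : hT (Ind.pw c j) (Ind.pw c (j : ℕ)) = 1 := by
      rw [Ind.hT_pw, hc, one_pow]
    have h2 := htr j j.2 β inferInstance lb b H v hv0 hvfix (Ind.pw c j) hcj
    have h3 := ORng.rng a1 a2 H (Ind.pw c (j : ℕ)) hcj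
      ((fixS H a1 (r * j + n)).map (Ind.contL D (Ind.pw c j) n))
      (fun φ₀ hφ₀ => ⟨φ₀, hφ₀, rfl⟩)
    exact h2.trans (mul_le_mul_of_nonneg_left h3 hK)
  have hsum : (M : ℝ) * (finrank ℂ (fixS H a1 n) : ℝ) ≤ K * (finrank ℂ (CA At n) : ℝ) := by
    have h2 := Finset.sum_le_sum fun j (_ : j ∈ (Finset.univ : Finset (Fin M))) => hterm j
    rw [Finset.sum_const, Finset.card_univ, Fintype.card_fin, nsmul_eq_mul, ← Finset.mul_sum] at h2
    have h3 : (∑ j : Fin M, (finrank ℂ ((fixS H a1 (r * j + n)).map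
        (Ind.contL D (Ind.pw c j) n)) : ℝ)) ≤ (finrank ℂ (CA At n) : ℝ) := by
      exact_mod_cast hlay
    exact h2.trans (mul_le_mul_of_nonneg_left h3 hK)
  have hrk := rk_le a1 S L (n := n) (by omega)
  have h5 : (rkA D At n : ℝ) ≤ (finrank ℂ (fixS H a1 n) : ℝ) := by exact_mod_cast hrk
  exact (mul_le_mul_of_nonneg_left h5 (Nat.cast_nonneg M)).trans hsum

/-- **T2, abstract form**, with a pair of elements of length one instead of a positive square. -/
def T2V : Prop :=
  ∀ (d r J : ℕ), ∃ n₀ : ℕ,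
    ∀ {I Λ : Type} [Fintype I] [DecidableEq I] [DecidableEq Λ] {D : Dat I Λ}
      {At : (L : ℕ) → Ten I L → Prop} (_ : Fintype.card I = d) (_ : ASys D At)
      (_ : ∃ u ∈ RA At 1, ∃ w ∈ RA At 1, psiT D u w ≠ 0) (_ : ∃ z ∈ numA D At r, z ≠ 0)
      (n : ℕ) (_ : n₀ ≤ n), J * rkA D At n ≤ Module.finrank ℂ (CA At n)

/-- **The one per cent law**, abstract form, uniform in the dimension. -/
theorem t2v (a1 : Alg1) (a2 : Alg2) (ab : AlgB) (cpt : CptbStatement) (mn : MinbStatement)
    (l1 : L1bStatement) (l2 : L2bStatement) (trq : TrqU) : T2V := by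
  intro d r J
  choose n₀ hn₀ using fun l => trq a1 d l
  refine ⟨(Finset.range (2 * J)).sup fun j => n₀ (r * j), ?_⟩
  intro I Λ _ _ _ D At hd S hu hz n hn
  obtain ⟨z, hz, hz0⟩ := hz
  have h := core a1 a2 ab cpt mn l1 l2 S hu hz hz0 (K := 2) (by norm_num) (2 * J) n
    fun j hj => by
      intro β _ lb b H v hv hvf c hc
      exact hn₀ (r * j) D hd H v hv hvf c hc n
        (le_trans (Finset.le_sup (f := fun j => n₀ (r * j)) (Finset.mem_range.2 hj)) hn)
  push_cast at h
  have h' : (J : ℝ) * rkA D At n ≤ finrank ℂ (CA At n) := by linarith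
  exact_mod_cast h'

/-- **The one per cent law**, abstract form (29's statement `OL.T2U`). -/
theorem t2u (a1 : Alg1) (a2 : Alg2) (ab : AlgB) (cpt : CptbStatement) (mn : MinbStatement)
    (l1 : L1bStatement) (l2 : L2bStatement) (trq : TrqU) : T2U := by
  intro d r J
  obtain ⟨n₀, hn₀⟩ := t2v a1 a2 ab cpt mn l1 l2 trq d r J
  refine ⟨n₀, ?_⟩
  intro I Λ _ _ _ D At hd S hu hz n hn
  obtain ⟨u, hu1, hu2⟩ := hu
  refine hn₀ hd S ⟨u, hu1, u, hu1, fun h => ?_⟩ hz n hn
  rw [h, Complex.zero_re] at hu2
  exact lt_irrefl _ hu2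

end T2A

end Pool.Agent.Lib.MP_361a6f_ag.FL
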