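import Pool.Agent.Lib.MP_361a6f_ag.FL.Defs

/-!
# Unitary matrices whose tensor powers have the eigenvalue `-1`

For a unitary matrix `y` and a tensor `v` of length `L`, `|y v - v| ≤ L |y - 1| |v|`. So if
`y v = -v` for a nonzero `v`, then `|y - 1| ≥ 2 / L`, and the real part of the trace of `y` is at
most `d - 2 / L ^ 2`.
-/

open Matrix

set_option autoImplicit false
set_option linter.unusedSectionVars false

namespace Pool.Agent.Lib.MP_361a6f_ag.FL

namespace Exp18

variable {I : Type} [Fintype I] [DecidableEq I] {L : ℕ}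

/-- the norm of a tensor -/
noncomputable def nn {L : ℕ} (u : Ten I L) : ℝ :=
  ‖(WithLp.toLp 2 u : EuclideanSpace ℂ (Fin L → I))‖

theorem nn_nonneg (u : Ten I L) : 0 ≤ nn u := norm_nonneg _

theorem nn_sq (u : Ten I L) : nn u ^ 2 = ∑ w, ‖u w‖ ^ 2 := by
  rw [nn, EuclideanSpace.norm_sq_eq]

theorem nn_add (u v : Ten I L) : nn (u + v) ≤ nn u + nn v := by
  unfold nn
  exact norm_add_le (WithLp.toLp 2 u : EuclideanSpace ℂ (Fin L → I)) (WithLp.toLp 2 v)

theorem nn_smul (c : ℂ) (u : Ten I L) : nn (c • u) = ‖c‖ * nn u := by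
  unfold nn
  exact norm_smul c (WithLp.toLp 2 u : EuclideanSpace ℂ (Fin L → I))

theorem nn_pos {u : Ten I L} (hu : u ≠ 0) : 0 < nn u := by
  refine norm_pos_iff.2 fun h => hu ?_
  have := congrArg (WithLp.ofLp) h
  exact this

theorem sum_cons {M : Type*} [AddCommMonoid M] (f : (Fin (L + 1) → I) → M) :
    ∑ w, f w = ∑ i, ∑ w : Fin L → I, f (Fin.cons i w) := by
  rw [← Fintype.sum_prod_type' (f := fun i w => f (Fin.cons i w))]
  exact ((Fin.consEquiv (fun _ => I)).sum_comp f).symm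

/-- the slices of a tensor -/
def sl (u : Ten I (L + 1)) (i : I) : Ten I L := fun w => u (Fin.cons i w)

theorem nn_sl (u : Ten I (L + 1)) : nn u ^ 2 = ∑ i, nn (sl u i) ^ 2 := by
  rw [nn_sq, sum_cons]
  exact Finset.sum_congr rfl fun i _ => (nn_sq _).symm

theorem gT_cons (y : Matrix I I ℂ) (u : Ten I (L + 1)) (i : I) (w : Fin L → I) :
    gT y u (Fin.cons i w) = ∑ j, y i j * gT y (sl u j) w := by
  unfold gT
  rw [sum_cons]
  refine Finset.sum_congr rfl fun j _ => ?_
  rw [Finset.mul_sum]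
  refine Finset.sum_congr rfl fun w' _ => ?_
  rw [Fin.prod_univ_succ]
  simp only [Fin.cons_zero, Fin.cons_succ, sl]
  ring

/-- a matrix with `y^H y = 1` preserves the norm of vectors -/
theorem unit_sum {y : Matrix I I ℂ} (hy : y.conjTranspose * y = 1) (x : I → ℂ) :
    ∑ i, ‖∑ j, y i j * x j‖ ^ 2 = ∑ j, ‖x j‖ ^ 2 := by
  have h1 : star (y *ᵥ x) ⬝ᵥ (y *ᵥ x) = star x ⬝ᵥ x := by
    rw [star_mulVec, ← dotProduct_mulVec, mulVec_mulVec, hy, one_mulVec]
  have h2 : ∀ z : I → ℂ, star z ⬝ᵥ z = ((∑ i, ‖z i‖ ^ 2 : ℝ) : ℂ) := by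
    intro z
    rw [dotProduct]
    push_cast
    refine Finset.sum_congr rfl fun i _ => ?_
    rw [Pi.star_apply, Complex.star_def, Complex.conj_mul']
  rw [h2, h2] at h1
  exact_mod_cast h1

/-- the distance of `y` to `1` -/
noncomputable def hs (y : Matrix I I ℂ) : ℝ := Real.sqrt (∑ i, ∑ j, ‖(y - 1) i j‖ ^ 2)

theorem hs_nonneg (y : Matrix I I ℂ) : 0 ≤ hs y := Real.sqrt_nonneg _

theorem hs_sq (y : Matrix I I ℂ) : hs y ^ 2 = ∑ i, ∑ j, ‖(y - 1) i j‖ ^ 2 :=
  Real.sq_sqrt (by positivity)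

/-- **The telescope.** -/
theorem tele {y : Matrix I I ℂ} (hy : y.conjTranspose * y = 1) :
    ∀ (L : ℕ) (u : Ten I L), nn (gT y u - u) ≤ L * hs y * nn u := by
  intro L
  induction L with
  | zero =>
    intro u
    have h1 : gT y u = u := by
      funext w
      unfold gT
      rw [Fintype.sum_unique]
      have : (default : Fin 0 → I) = w := Subsingleton.elim _ _
      rw [this]
      simp
    rw [h1, sub_self]
    have : nn (0 : Ten I 0) = 0 := norm_zero
    rw [this]
    simp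
  | succ L ih =>
    intro u
    -- the two parts
    set P : Ten I (L + 1) := fun w => ∑ j, y (w 0) j * (gT y (sl u j) - sl u j) (Fin.tail w)
      with hP
    set Q : Ten I (L + 1) := fun w => ∑ j, (y - 1) (w 0) j * sl u j (Fin.tail w) with hQ
    have h0 : gT y u - u = P + Q := by
      funext w
      obtain ⟨i, w', rfl⟩ : ∃ i w', w = Fin.cons i w' := ⟨w 0, Fin.tail w, by simp⟩
      rw [Pi.sub_apply, gT_cons, Pi.add_apply, hP, hQ]
      simp only [Fin.cons_zero, Fin.tail_cons, Pi.sub_apply, Matrix.sub_apply, sub_mul, mul_sub,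
        Finset.sum_sub_distrib, Matrix.one_apply, ite_mul, one_mul, zero_mul,
        Finset.sum_ite_eq, Finset.mem_univ, if_true]
      have : sl u i w' = u (Fin.cons i w') := rfl
      rw [this]
      ring
    have hPn : nn P ≤ L * hs y * nn u := by
      refine (pow_le_pow_iff_left₀ (nn_nonneg _)
        (by have := hs_nonneg y; have := nn_nonneg u; positivity) two_ne_zero).1 ?_
      rw [nn_sq, sum_cons, Finset.sum_comm]
      have h1 : ∀ w : Fin L → I, ∑ i, ‖P (Fin.cons i w)‖ ^ 2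
          = ∑ j, ‖(gT y (sl u j) - sl u j) w‖ ^ 2 := by
        intro w
        rw [← unit_sum hy fun j => (gT y (sl u j) - sl u j) w]
        rfl
      rw [Finset.sum_congr rfl fun w _ => h1 w, Finset.sum_comm]
      have h2 : ∀ j, ∑ w, ‖(gT y (sl u j) - sl u j) w‖ ^ 2 ≤ (L * hs y) ^ 2 * nn (sl u j) ^ 2 := by
        intro j
        rw [← nn_sq, ← mul_pow]
        exact pow_le_pow_left₀ (nn_nonneg _) (ih _) 2
      refine (Finset.sum_le_sum fun j _ => h2 j).trans ?_
      rw [← Finset.mul_sum, ← nn_sl, mul_pow _ (nn u)]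
    have hQn : nn Q ≤ hs y * nn u := by
      refine (pow_le_pow_iff_left₀ (nn_nonneg _)
        (by have := hs_nonneg y; have := nn_nonneg u; positivity) two_ne_zero).1 ?_
      rw [nn_sq, sum_cons, mul_pow, hs_sq, nn_sq, sum_cons, Finset.sum_mul]
      refine Finset.sum_le_sum fun i _ => ?_
      rw [Finset.sum_comm (f := fun j (w : Fin L → I) => ‖u (Fin.cons j w)‖ ^ 2), Finset.mul_sum]
      refine Finset.sum_le_sum fun w _ => ?_
      show ‖∑ j, (y - 1) i j * u (Fin.cons j w)‖ ^ 2 ≤ _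
      have h1 : ‖∑ j, (y - 1) i j * u (Fin.cons j w)‖
          ≤ ∑ j, ‖(y - 1) i j‖ * ‖u (Fin.cons j w)‖ :=
        (norm_sum_le _ _).trans_eq (Finset.sum_congr rfl fun j _ => norm_mul _ _)
      refine (pow_le_pow_left₀ (norm_nonneg _) h1 2).trans ?_
      exact Finset.sum_mul_sq_le_sq_mul_sq _ _ _
    rw [h0]
    refine (nn_add P Q).trans ((add_le_add hPn hQn).trans_eq ?_)
    push_cast
    ring

theorem hs_trace {y : Matrix I I ℂ} (hy : y.conjTranspose * y = 1) :
    hs y ^ 2 = 2 * Fintype.card I - 2 * y.trace.re := by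
  have h1 : ((y - 1).conjTranspose * (y - 1)).trace
      = ((∑ i, ∑ j, ‖(y - 1) i j‖ ^ 2 : ℝ) : ℂ) := by
    rw [Matrix.trace, Finset.sum_comm]
    push_cast
    refine Finset.sum_congr rfl fun j _ => ?_
    rw [Matrix.diag_apply, Matrix.mul_apply]
    refine Finset.sum_congr rfl fun i _ => ?_
    rw [Matrix.conjTranspose_apply, Complex.star_def, Complex.conj_mul']
  have h2 : ((y - 1).conjTranspose * (y - 1)).trace
      = 2 * (Fintype.card I : ℂ) - (y.trace + starRingEnd ℂ y.trace) := by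
    have h3 : (y.conjTranspose).trace = starRingEnd ℂ y.trace := Matrix.trace_conjTranspose y
    rw [Matrix.conjTranspose_sub, Matrix.conjTranspose_one, sub_mul, mul_sub, mul_one, one_mul, hy,
      Matrix.trace_sub, Matrix.trace_sub, Matrix.trace_sub, Matrix.trace_one, h3]
    ring
  rw [hs_sq]
  rw [h1, Complex.add_conj] at h2
  have h3 := congrArg Complex.re h2
  rw [Complex.ofReal_re] at h3
  rw [h3]
  simp [Complex.mul_re]

/-- **A tensor power with the eigenvalue `-1`.** -/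
theorem trace_le {y : Matrix I I ℂ} (hy : y.conjTranspose * y = 1) (hL : 0 < L) {v : Ten I L}
    (hv : v ≠ 0) (h : gT y v = -v) : y.trace.re ≤ Fintype.card I - 2 / (L : ℝ) ^ 2 := by
  have hL' : (0 : ℝ) < L := by exact_mod_cast hL
  have h1 := tele hy L v
  have h2 : gT y v - v = (-2 : ℂ) • v := by
    rw [h]
    module
  rw [h2, nn_smul] at h1
  have h3 : ‖(-2 : ℂ)‖ = 2 := by simp
  rw [h3] at h1
  have h4 : (2 : ℝ) ≤ L * hs y := le_of_mul_le_mul_right h1 (nn_pos hv)
  have h5 : (4 : ℝ) ≤ (L : ℝ) ^ 2 * hs y ^ 2 := by nlinarith [h4]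
  rw [hs_trace hy] at h5
  have h6 : 4 / (L : ℝ) ^ 2 ≤ 2 * Fintype.card I - 2 * y.trace.re := by
    rw [div_le_iff₀ (by positivity)]
    linarith
  have h7 : 4 / (L : ℝ) ^ 2 = 2 * (2 / (L : ℝ) ^ 2) := by ring
  rw [h7] at h6
  linarith

/-- a unitary matrix with the eigenvalue `1` -/
theorem le_trace {y : Matrix I I ℂ} (hy : y.conjTranspose * y = 1) {v : Ten I 1}
    (hv : v ≠ 0) (h : gT y v = v) : 2 - (Fintype.card I : ℝ) ≤ y.trace.re := by
  have hy' : (-y).conjTranspose * (-y) = 1 := by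
    rw [Matrix.conjTranspose_neg, neg_mul_neg, hy]
  have h1 : gT (-y) v = -v := by
    funext w
    have h2 := congrFun h w
    rw [Pi.neg_apply, ← h2]
    unfold gT
    simp
  have h2 := trace_le hy' one_pos hv h1
  rw [Matrix.trace_neg, Complex.neg_re] at h2
  norm_num at h2
  linarith

end Exp18

end Pool.Agent.Lib.MP_361a6f_ag.FL
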