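import Pool.Agent.Lib.MP_361a6f_ag.FL.B.Defs
import Pool.Agent.Lib.MP_361a6f_ag.FL.Cpt
import Pool.Agent.Lib.MP_361a6f_ag.FL.Al1b

/-!
# The one half law: traces of unitary matrices, and the measure of a neighbourhood of `1`
-/

open Filter Topology MeasureTheory

set_option autoImplicit false
set_option linter.unusedSectionVars false

namespace Pool.Agent.Lib.MP_361a6f_ag.FL

namespace OL

variable {I Λ : Type} [Fintype I] [DecidableEq I] [DecidableEq Λ]

/-- the square of the Hilbert-Schmidt norm -/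
noncomputable def hs (x : Matrix I I ℂ) : ℝ := ∑ i, ∑ j, ‖x i j‖ ^ 2

theorem hs_add (x : Matrix I I ℂ) (hx : x.conjTranspose * x = 1) (c : ℝ) :
    hs (x + (c : ℂ) • (1 : Matrix I I ℂ)) =
      Fintype.card I + c ^ 2 * Fintype.card I + 2 * c * (x.trace).re := by
  have h1 : ∑ i, ∑ j, ‖x i j‖ ^ 2 = (Fintype.card I : ℝ) := by
    have h2 : (x.conjTranspose * x).trace = (1 : Matrix I I ℂ).trace := by rw [hx]
    rw [Matrix.trace_one] at h2
    have h3 : (x.conjTranspose * x).trace = ((∑ i, ∑ j, ‖x i j‖ ^ 2 : ℝ) : ℂ) := by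
      simp only [Matrix.trace, Matrix.diag_apply, Matrix.mul_apply, Matrix.conjTranspose_apply]
      rw [Finset.sum_comm]
      push_cast
      refine Finset.sum_congr rfl fun i _ => Finset.sum_congr rfl fun j _ => ?_
      rw [← Complex.mul_conj', mul_comm]
      rfl
    rw [h3] at h2
    exact_mod_cast h2
  have h2 : ∀ i j, ‖(x + (c : ℂ) • (1 : Matrix I I ℂ)) i j‖ ^ 2 =
      ‖x i j‖ ^ 2 + (if i = j then c ^ 2 + 2 * c * (x i i).re else 0) := by
    intro i j
    by_cases h : i = j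
    · subst h
      rw [if_pos rfl, Matrix.add_apply, Matrix.smul_apply, Matrix.one_apply_eq, smul_eq_mul,
        mul_one, Complex.sq_norm, Complex.sq_norm, Complex.normSq_apply, Complex.normSq_apply]
      simp
      ring
    · rw [if_neg h, Matrix.add_apply, Matrix.smul_apply, Matrix.one_apply_ne h, smul_zero,
        add_zero, add_zero]
  unfold hs
  simp only [h2, Finset.sum_add_distrib, h1, Finset.sum_ite_eq, Finset.mem_univ, if_true]
  rw [Matrix.trace, Complex.re_sum, Finset.mul_sum]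
  simp only [Matrix.diag_apply, Finset.sum_const, Finset.card_univ, nsmul_eq_mul]
  ring

theorem hs_nonneg (x : Matrix I I ℂ) : 0 ≤ hs x :=
  Finset.sum_nonneg fun _ _ => Finset.sum_nonneg fun _ _ => by positivity

theorem hs_eq_zero {x : Matrix I I ℂ} (h : hs x = 0) : x = 0 := by
  ext i j
  have h1 := (Finset.sum_eq_zero_iff_of_nonneg (fun i _ =>
    Finset.sum_nonneg fun j _ => by positivity)).1 h i (Finset.mem_univ i)
  have h2 := (Finset.sum_eq_zero_iff_of_nonneg (fun j _ => by positivity)).1 h1 j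
    (Finset.mem_univ j)
  exact norm_eq_zero.1 (pow_eq_zero_iff two_ne_zero |>.1 h2)

theorem hs_cont : Continuous (hs : Matrix I I ℂ → ℝ) := by
  unfold hs
  exact continuous_finsetSum _ fun i _ => continuous_finsetSum _ fun j _ =>
    ((continuous_apply_apply i j).norm.pow 2)

/-- the trace of a unitary isometry of `ψ` is real -/
theorem trace_im {D : Dat I Λ} {x : Matrix I I ℂ} (hx : IsK D x) : (x.trace).im = 0 := by
  have h1 : (Psi D).transpose * x.transpose * Psi D * x = 1 := by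
    rw [mul_assoc, mul_assoc, ← mul_assoc x.transpose, hx.1.2, AL1B.psi_transpose_mul]
  have h2 : (Psi D).transpose * x.transpose * Psi D = x.conjTranspose := by
    have h3 : x * x.conjTranspose = 1 := mul_eq_one_comm.1 hx.2
    calc (Psi D).transpose * x.transpose * Psi D
        = (Psi D).transpose * x.transpose * Psi D * (x * x.conjTranspose) := by rw [h3, mul_one]
      _ = (Psi D).transpose * x.transpose * Psi D * x * x.conjTranspose := by
          rw [mul_assoc ((Psi D).transpose * x.transpose * Psi D)]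
      _ = x.conjTranspose := by rw [h1, one_mul]
  have h4 : x.trace = (starRingEnd ℂ) x.trace := by
    have h5 : (x.conjTranspose).trace = (starRingEnd ℂ) x.trace := Matrix.trace_conjTranspose x
    rw [← h5, ← h2, mul_assoc, Matrix.trace_mul_comm, mul_assoc, AL1B.psi_mul_transpose, mul_one,
      Matrix.trace_transpose]
  have h6 := congrArg Complex.im h4
  rw [Complex.conj_im] at h6
  linarith

theorem trace_eq_re {D : Dat I Λ} {x : Matrix I I ℂ} (hx : IsK D x) :
    x.trace = ((x.trace).re : ℂ) :=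
  Complex.ext rfl (by rw [trace_im hx, Complex.ofReal_im])

theorem hs_sub_one {D : Dat I Λ} {x : Matrix I I ℂ} (hx : IsK D x) :
    hs (x - 1) = 2 * Fintype.card I - 2 * (x.trace).re := by
  have h1 := hs_add x hx.2 (-1)
  have h2 : x + ((-1 : ℝ) : ℂ) • (1 : Matrix I I ℂ) = x - 1 := by
    push_cast
    rw [neg_one_smul, sub_eq_add_neg]
  rw [h2] at h1
  rw [h1]
  ring

theorem hs_add_one {D : Dat I Λ} {x : Matrix I I ℂ} (hx : IsK D x) :
    hs (x + 1) = 2 * Fintype.card I + 2 * (x.trace).re := by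
  have h1 := hs_add x hx.2 1
  have h2 : x + ((1 : ℝ) : ℂ) • (1 : Matrix I I ℂ) = x + 1 := by
    push_cast
    rw [one_smul]
  rw [h2] at h1
  rw [h1]
  ring

theorem trace_le {D : Dat I Λ} {x : Matrix I I ℂ} (hx : IsK D x) :
    (x.trace).re ≤ Fintype.card I := by
  have h1 := hs_sub_one hx
  have h2 := hs_nonneg (x - 1)
  linarith

theorem le_trace {D : Dat I Λ} {x : Matrix I I ℂ} (hx : IsK D x) :
    -(Fintype.card I : ℝ) ≤ (x.trace).re := by
  have h1 := hs_add_one hx
  have h2 := hs_nonneg (x + 1)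
  linarith

/-- a unitary isometry with a fixed vector -/
theorem le_trace_of_fix {D : Dat I Λ} {x : Matrix I I ℂ} (hx : IsK D x) {v : I → ℂ} (hv : v ≠ 0)
    (hfix : ∀ i, ∑ j, x i j * v j = v i) : 2 - (Fintype.card I : ℝ) ≤ (x.trace).re := by
  have h1 := hs_add_one hx
  -- Cauchy-Schwarz
  have h2 : ∀ i, ‖2 * v i‖ ^ 2 ≤ (∑ j, ‖(x + 1) i j‖ ^ 2) * ∑ j, ‖v j‖ ^ 2 := by
    intro i
    have h3 : 2 * v i = ∑ j, (x + 1) i j * v j := by
      have h4 : ∑ j, (x + 1) i j * v j = ∑ j, x i j * v j + ∑ j, (1 : Matrix I I ℂ) i j * v j := by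
        rw [← Finset.sum_add_distrib]
        refine Finset.sum_congr rfl fun j _ => ?_
        rw [Matrix.add_apply]
        ring
      rw [h4, hfix]
      simp [Matrix.one_apply]
      ring
    rw [h3]
    calc ‖∑ j, (x + 1) i j * v j‖ ^ 2 ≤ (∑ j, ‖(x + 1) i j‖ * ‖v j‖) ^ 2 := by
          gcongr
          refine (norm_sum_le _ _).trans_eq ?_
          exact Finset.sum_congr rfl fun j _ => norm_mul _ _
      _ ≤ _ := Finset.sum_mul_sq_le_sq_mul_sq _ _ _
  have h3 : (∑ i, ‖2 * v i‖ ^ 2) ≤ hs (x + 1) * ∑ j, ‖v j‖ ^ 2 := by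
    unfold hs
    rw [Finset.sum_mul]
    exact Finset.sum_le_sum fun i _ => h2 i
  have h4 : (∑ i, ‖2 * v i‖ ^ 2) = 4 * ∑ i, ‖v i‖ ^ 2 := by
    rw [Finset.mul_sum]
    refine Finset.sum_congr rfl fun i _ => ?_
    rw [norm_mul, mul_pow]
    norm_num
  have h5 : 0 < ∑ j, ‖v j‖ ^ 2 := by
    obtain ⟨j, hj⟩ := Function.ne_iff.1 hv
    have hj' : 0 < ‖v j‖ ^ 2 := by
      have : 0 < ‖v j‖ := norm_pos_iff.2 hj
      positivity
    exact lt_of_lt_of_le hj' (Finset.single_le_sum (f := fun j => ‖v j‖ ^ 2)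
      (fun j _ => by positivity) (Finset.mem_univ j))
  rw [h4] at h3
  have h6 : 4 ≤ hs (x + 1) := le_of_mul_le_mul_right h3 h5
  linarith

/-- **Uniform lower bound** for the measure of a neighbourhood of `1` in the closed subgroups. -/
theorem uni (D : Dat I Λ) (U : Set (Matrix I I ℂ)) (hU : U ∈ 𝓝 (1 : Matrix I I ℂ)) :
    ∃ c : ℝ, 0 < c ∧ ∀ (β : Type) (_ : Fintype β) (lb : β → ℕ) (b : Tup I lb) (H : HMb D b),
      c ≤ (H.μ {y | H.mat y ∈ U}).toReal := by
  classical
  have hc : IsCompact {g : Matrix I I ℂ | IsK D g} := CptAux.isCompact_K D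
  have hcont : Continuous fun p : Matrix I I ℂ × Matrix I I ℂ => p.1.conjTranspose * p.2 := by
    fun_prop
  have h1 : ∀ x ∈ {g : Matrix I I ℂ | IsK D g}, ∃ V : Set (Matrix I I ℂ), IsOpen V ∧ x ∈ V ∧
      ∀ y ∈ V, ∀ z ∈ V, y.conjTranspose * z ∈ U := by
    intro x hx
    have h2 : (fun p : Matrix I I ℂ × Matrix I I ℂ => p.1.conjTranspose * p.2) ⁻¹' U
        ∈ 𝓝 (x, x) := by
      refine hcont.continuousAt.preimage_mem_nhds ?_
      have : x.conjTranspose * x = 1 := hx.2
      simpa [this] using hU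
    obtain ⟨u, v, hu, hxu, hv, hxv, huv⟩ := mem_nhds_prod_iff'.1 h2
    exact ⟨u ∩ v, hu.inter hv, ⟨hxu, hxv⟩, fun y hy z hz => huv (Set.mk_mem_prod hy.1 hz.2)⟩
  choose! V hVo hxV hVU using h1
  obtain ⟨T, hT⟩ := hc.elim_finite_subcover (fun x : {g : Matrix I I ℂ | IsK D g} => V x)
    (fun x => hVo _ x.2) (fun x hx => Set.mem_iUnion.2 ⟨⟨x, hx⟩, hxV x hx⟩)
  refine ⟨1 / ((T.card : ℝ) + 1), by positivity, ?_⟩
  intro β _ lb b H
  have hmeas : ∀ x : {g : Matrix I I ℂ | IsK D g}, MeasurableSet {y : H.K | H.mat y ∈ V x} :=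
    fun x => ((hVo _ x.2).preimage H.cont_mat).measurableSet
  -- one of the sets is large
  have h2 : ∃ x ∈ T, 1 / ((T.card : ℝ) + 1) ≤ (H.μ {y | H.mat y ∈ V x}).toReal := by
    by_contra hcon
    push Not at hcon
    have h3 : (1 : ℝ) ≤ ∑ x ∈ T, (H.μ {y | H.mat y ∈ V x}).toReal := by
      have h4 : (Set.univ : Set H.K) ⊆ ⋃ x ∈ T, {y | H.mat y ∈ V x} := by
        intro y _
        have h5 := hT (H.mem y).1
        simp only [Set.mem_iUnion] at h5 ⊢
        exact h5
      have h5 : (1 : ENNReal) ≤ ∑ x ∈ T, H.μ {y | H.mat y ∈ V x} := by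
        rw [← measure_univ (μ := H.μ)]
        exact (measure_mono h4).trans (measure_biUnion_finset_le T _)
      have h6 := ENNReal.toReal_mono (by
        exact ENNReal.sum_ne_top.2 fun x _ => measure_ne_top _ _) h5
      rw [ENNReal.toReal_sum (fun x _ => measure_ne_top _ _)] at h6
      simpa using h6
    have h4 : ∑ x ∈ T, (H.μ {y | H.mat y ∈ V x}).toReal ≤ ∑ _x ∈ T, 1 / ((T.card : ℝ) + 1) :=
      Finset.sum_le_sum fun x hx => (hcon x hx).le
    rw [Finset.sum_const, nsmul_eq_mul] at h4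
    have h5 : (T.card : ℝ) * (1 / ((T.card : ℝ) + 1)) < 1 := by
      rw [mul_one_div, div_lt_one (by positivity)]
      linarith
    linarith
  obtain ⟨x, _, hx⟩ := h2
  refine hx.trans ?_
  have hne : ∃ y₀ : H.K, H.mat y₀ ∈ V x := by
    by_contra hcon
    push Not at hcon
    have h3 : {y : H.K | H.mat y ∈ V x} = ∅ := by
      ext y
      simp [hcon y]
    rw [h3, measure_empty, ENNReal.toReal_zero] at hx
    have : (0 : ℝ) < 1 / ((T.card : ℝ) + 1) := by positivity
    linarith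
  obtain ⟨y₀, hy₀⟩ := hne
  have h3 : H.μ {y | H.mat y ∈ V x} ≤ H.μ {y | H.mat y ∈ U} := by
    have h4 : {y | H.mat y ∈ V x} ⊆ (fun y => y₀⁻¹ * y) ⁻¹' {y | H.mat y ∈ U} := by
      intro y hy
      have h5 : H.mat (y₀⁻¹ * y) = (H.mat y₀).conjTranspose * H.mat y := by
        rw [map_mul]
        congr 1
        have h6 : H.mat y₀⁻¹ * H.mat y₀ = 1 := by rw [← map_mul, inv_mul_cancel, map_one]
        have h7 : (H.mat y₀).conjTranspose * H.mat y₀ = 1 := (H.mem y₀).1.2
        have h8 : H.mat y₀ * H.mat y₀⁻¹ = 1 := by rw [← map_mul, mul_inv_cancel, map_one]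
        calc H.mat y₀⁻¹ = ((H.mat y₀).conjTranspose * H.mat y₀) * H.mat y₀⁻¹ := by
              rw [h7, one_mul]
          _ = _ := by rw [mul_assoc, h8, mul_one]
      show H.mat (y₀⁻¹ * y) ∈ U
      rw [h5]
      exact hVU _ x.2 _ hy₀ _ hy
    refine (measure_mono h4).trans_eq ?_
    exact measure_preimage_mul H.μ y₀⁻¹ _
  exact ENNReal.toReal_mono (measure_ne_top _ _) h3

end OL

end Pool.Agent.Lib.MP_361a6f_ag.FL
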