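import Pool.Agent.Lib.MP_361a6f_ag.FL.O.Lev
import Pool.Agent.Lib.MP_361a6f_ag.FL.O.Exp18
import Pool.Agent.Lib.MP_361a6f_ag.FL.O.Uni
import Pool.Agent.Lib.MP_361a6f_ag.FL.O.Defs

/-!
# The zero-one laws: linear algebra of a level
-/

open Filter Topology MeasureTheory

set_option autoImplicit false
set_option linter.unusedSectionVars false

namespace Pool.Agent.Lib.MP_361a6f_ag.FL

namespace OL

/-! ### Real forms -/

section cplx

variable {E : Type*} [AddCommGroup E] [Module ℂ E] [FiniteDimensional ℂ E]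

/-- a real form of a complex space -/
theorem finrank_real_form [Module ℝ E] [IsScalarTower ℝ ℂ E] (F : Submodule ℂ E)
    (R : Submodule ℝ E) (hRF : ∀ v ∈ R, v ∈ F)
    (hspan : ∀ v ∈ F, ∃ a ∈ R, ∃ b ∈ R, v = a + Complex.I • b)
    (hind : ∀ a ∈ R, ∀ b ∈ R, a + Complex.I • b = 0 → a = 0 ∧ b = 0) :
    Module.finrank ℂ F = Module.finrank ℝ R := by
  have hcomm : ∀ (r : ℝ) (x : E), r • Complex.I • x = Complex.I • r • x := by
    intro r x
    rw [← IsScalarTower.algebraMap_smul ℂ r x, ← IsScalarTower.algebraMap_smul ℂ r (Complex.I • x),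
      smul_smul, smul_smul, mul_comm]
  let F' : Submodule ℝ E := F.restrictScalars ℝ
  let f : (R × R) →ₗ[ℝ] F' :=
    { toFun := fun p => ⟨(p.1 : E) + Complex.I • (p.2 : E),
        F.add_mem (hRF _ p.1.2) (F.smul_mem _ (hRF _ p.2.2))⟩
      map_add' := by
        intro p q
        apply Subtype.ext
        show ((p + q).1 : E) + Complex.I • ((p + q).2 : E) =
          ((p.1 : E) + Complex.I • (p.2 : E)) + ((q.1 : E) + Complex.I • (q.2 : E))
        rw [Prod.fst_add, Prod.snd_add, Submodule.coe_add, Submodule.coe_add, smul_add]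
        abel
      map_smul' := by
        intro r p
        apply Subtype.ext
        show ((r • p).1 : E) + Complex.I • ((r • p).2 : E) =
          r • ((p.1 : E) + Complex.I • (p.2 : E))
        rw [Prod.smul_fst, Prod.smul_snd, Submodule.coe_smul, Submodule.coe_smul, smul_add,
          hcomm] }
  have hf : Function.Bijective f := by
    constructor
    · rw [← LinearMap.ker_eq_bot, LinearMap.ker_eq_bot']
      rintro ⟨a, b⟩ h
      have h1 : (a : E) + Complex.I • (b : E) = 0 := congrArg (fun x : F' => (x : E)) h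
      obtain ⟨h2, h3⟩ := hind _ a.2 _ b.2 h1
      exact Prod.ext (Subtype.ext h2) (Subtype.ext h3)
    · rintro ⟨v, hv⟩
      obtain ⟨a, ha, b, hb, rfl⟩ := hspan v hv
      exact ⟨(⟨a, ha⟩, ⟨b, hb⟩), rfl⟩
  have h1 := (LinearEquiv.ofBijective f hf).finrank_eq
  have : Module.Finite ℝ E := Module.Finite.trans ℂ E
  have h2 : Module.finrank ℝ (R × R) = Module.finrank ℝ R + Module.finrank ℝ R :=
    Module.finrank_prod
  have h3 : Module.finrank ℝ F' = 2 * Module.finrank ℂ F := by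
    rw [← Module.finrank_mul_finrank ℝ ℂ F', Complex.finrank_real_complex,
      (Submodule.restrictScalarsEquiv ℝ ℂ E F).finrank_eq]
  omega

end cplx

/-! ### The level -/

section lev

variable {I Λ β : Type} [Fintype I] [DecidableEq I] [DecidableEq Λ] [Fintype β] {lb : β → ℕ}
  {D : Dat I Λ} {At : (L : ℕ) → Ten I L → Prop} {m : ℕ} {b : Tup I lb} {H : HMb D b}
  {g : ℕ → Matrix I I ℂ} {k : Matrix I I ℂ}

instance {c : ℕ} : FiniteDimensional ℝ (Ten I c) := by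
  unfold Ten
  infer_instance

theorem RA_le_CA {c : ℕ} {u : Ten I c} (hu : u ∈ RA At c) : u ∈ CA At c := by
  unfold RA at hu
  unfold CA
  induction hu using Submodule.span_induction with
  | mem x hx => exact Submodule.subset_span hx
  | zero => exact zero_mem _
  | add x y _ _ hx hy => exact add_mem hx hy
  | smul r x _ hx =>
    rw [Qps.real_smul]
    exact Submodule.smul_mem _ _ hx

theorem numA_le {c : ℕ} : numA D At c ≤ RA At c := fun _ hu => hu.1

theorem finrank_numA_le {c : ℕ} :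
    Module.finrank ℝ (numA D At c) ≤ Module.finrank ℝ (RA At c) :=
  Submodule.finrank_mono numA_le

theorem jT_ten0 {c : ℕ} (a1 : Alg1) (v : Ten I c) (z : ℂ) :
    jT D (z • v) = (starRingEnd ℂ) z • jT D v := a1.jT_smul D z v

/-- the limits of the elements of the real span -/
noncomputable def lm (L : LevData D At m H g k) (a1 : Alg1) {c : ℕ} (hc : c ≤ m) :
    RA At c →ₗ[ℝ] Ten I c where
  toFun u := Classical.choose (L.lim c hc u (RA_le_CA u.2))
  map_add' u v := by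
    refine tendsto_nhds_unique (Classical.choose_spec (L.lim c hc _ (RA_le_CA (u + v).2))).1 ?_
    exact ZAbs.lim_add a1 (Classical.choose_spec (L.lim c hc _ (RA_le_CA u.2))).1
      (Classical.choose_spec (L.lim c hc _ (RA_le_CA v.2))).1
  map_smul' r u := by
    refine tendsto_nhds_unique (Classical.choose_spec (L.lim c hc _ (RA_le_CA (r • u).2))).1 ?_
    rw [RingHom.id_apply, Qps.real_smul, Submodule.coe_smul, Qps.real_smul]
    exact ZAbs.lim_smul a1 _ (Classical.choose_spec (L.lim c hc _ (RA_le_CA u.2))).1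

theorem lm_lim (L : LevData D At m H g k) (a1 : Alg1) {c : ℕ} (hc : c ≤ m) (u : RA At c) :
    Tendsto (fun j => gT (g j) (u : Ten I c)) atTop (𝓝 (lm L a1 hc u)) :=
  (Classical.choose_spec (L.lim c hc u (RA_le_CA u.2))).1

theorem lm_fix (L : LevData D At m H g k) (a1 : Alg1) {c : ℕ} (hc : c ≤ m) (u : RA At c) :
    lm L a1 hc u ∈ fixS H a1 c :=
  (Classical.choose_spec (L.lim c hc u (RA_le_CA u.2))).2

theorem lm_j (L : LevData D At m H g k) (a1 : Alg1) {c : ℕ} (hc : c ≤ m) (u : RA At c) :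
    jT D (lm L a1 hc u) = gT k (lm L a1 hc u) :=
  (L.real c hc u u.2 _ (lm_lim L a1 hc u)).1

theorem lm_kk (L : LevData D At m H g k) (a1 : Alg1) {c : ℕ} (hc : c ≤ m) (u : RA At c) :
    gT k (gT k (lm L a1 hc u)) = lm L a1 hc u :=
  (L.real c hc u u.2 _ (lm_lim L a1 hc u)).2.1

theorem lm_k (L : LevData D At m H g k) (a1 : Alg1) {c : ℕ} (hc : c ≤ m) (u : RA At c) :
    ∃ u' : RA At c, lm L a1 hc u' = gT k (lm L a1 hc u) := by
  obtain ⟨u', hu', h⟩ := (L.real c hc u u.2 _ (lm_lim L a1 hc u)).2.2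
  exact ⟨⟨u', hu'⟩, tendsto_nhds_unique (lm_lim L a1 hc ⟨u', hu'⟩) h⟩

theorem lm_psi (L : LevData D At m H g k) (a1 : Alg1) {c : ℕ} (hc : c ≤ m) (u u' : RA At c) :
    psiT D (lm L a1 hc u) (lm L a1 hc u') = psiT D (u : Ten I c) u' :=
  L.psi c _ _ _ _ (lm_lim L a1 hc u) (lm_lim L a1 hc u')

theorem hT_pos (a1 : Alg1) {c : ℕ} {v : Ten I c} (hv : v ≠ 0) : 0 < (hT v v).re := by
  rw [a1.hT_self, Complex.ofReal_re]
  obtain ⟨w, hw⟩ := Function.ne_iff.1 hv
  refine Finset.sum_pos' (fun _ _ => by positivity) ⟨w, Finset.mem_univ _, ?_⟩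
  have : 0 < ‖v w‖ := norm_pos_iff.2 hw
  positivity

/-- if the limit of `u` is anti-invariant, then `ψ(u, u) < 0` or the limit is `0` -/
theorem psi_neg (L : LevData D At m H g k) (a1 : Alg1) {c : ℕ} (hc : c ≤ m) (u : RA At c)
    (h : gT k (lm L a1 hc u) = -lm L a1 hc u) (h0 : lm L a1 hc u ≠ 0) :
    (psiT D (u : Ten I c) u).re < 0 := by
  have h1 : psiT D (u : Ten I c) u = -hT (lm L a1 hc u) (lm L a1 hc u) := by
    rw [← lm_psi L a1 hc, ← a1.psiT_jT D, lm_j, h, ← Qps.psiL_apply, ← Qps.psiL_apply, map_neg,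
      neg_neg]
  rw [h1, Complex.neg_re]
  have := hT_pos a1 h0
  linarith

/-- if the limit of `u` is invariant, then `ψ(u, u) > 0` or the limit is `0` -/
theorem psi_pos (L : LevData D At m H g k) (a1 : Alg1) {c : ℕ} (hc : c ≤ m) (u : RA At c)
    (h : gT k (lm L a1 hc u) = lm L a1 hc u) (h0 : lm L a1 hc u ≠ 0) :
    0 < (psiT D (u : Ten I c) u).re := by
  have h1 : psiT D (u : Ten I c) u = hT (lm L a1 hc u) (lm L a1 hc u) := by
    rw [← lm_psi L a1 hc, ← a1.psiT_jT D, lm_j, h]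
  rw [h1]
  exact hT_pos a1 h0

theorem lm_zero_of_num (L : LevData D At m H g k) (a1 : Alg1) {c : ℕ} (hc : c ≤ m) (u : RA At c)
    (h : ∀ w : RA At c, psiT D (u : Ten I c) w = 0) : lm L a1 hc u = 0 := by
  by_contra h0
  obtain ⟨u', hu'⟩ := lm_k L a1 hc u
  have h1 := h u'
  rw [← lm_psi L a1 hc, hu', ← lm_j, a1.psiT_jT] at h1
  have h2 := hT_pos a1 h0
  rw [h1] at h2
  exact lt_irrefl _ h2

theorem num_of_lm_zero (L : LevData D At m H g k) (a1 : Alg1) {c : ℕ} (hc : c ≤ m) (u : RA At c)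
    (h : lm L a1 hc u = 0) (w : RA At c) : psiT D (u : Ten I c) w = 0 := by
  rw [← lm_psi L a1 hc, h, ← Qps.psiL_apply, map_zero, LinearMap.zero_apply]

/-- the rank of `ψ` is the dimension of the space of the limits -/
theorem rk_eq (L : LevData D At m H g k) (a1 : Alg1) {c : ℕ} (hc : c ≤ m) :
    rkA D At c = Module.finrank ℝ (LinearMap.range (lm L a1 hc)) := by
  have h1 := LinearMap.finrank_range_add_finrank_ker (lm L a1 hc)
  have h2 : LinearMap.ker (lm L a1 hc) = (numA D At c).comap (RA At c).subtype := by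
    ext u
    rw [LinearMap.mem_ker, Submodule.mem_comap]
    constructor
    · intro h
      exact ⟨u.2, fun w hw => num_of_lm_zero L a1 hc u h ⟨w, hw⟩⟩
    · intro h
      exact lm_zero_of_num L a1 hc u fun w => h.2 w w.2
  have h3 : Module.finrank ℝ (LinearMap.ker (lm L a1 hc)) = Module.finrank ℝ (numA D At c) := by
    rw [h2]
    exact (Submodule.comapSubtypeEquivOfLe (numA_le (D := D) (At := At) (c := c))).finrank_eq
  unfold rkA
  omega

/-- the real structure of the space of the limits -/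
theorem lim_span (L : LevData D At m H g k) (a1 : Alg1) {c : ℕ} (hc : c ≤ m) {v : Ten I c}
    (hv : v ∈ fixS H a1 c) : ∃ u u' : RA At c, v = lm L a1 hc u + Complex.I • lm L a1 hc u' := by
  obtain ⟨z, hz, hzl⟩ := L.surj c hc v hv
  obtain ⟨x, hx, y, hy, rfl⟩ := Qps.re_im _ hz
  refine ⟨⟨x, hx⟩, ⟨y, hy⟩, tendsto_nhds_unique hzl ?_⟩
  exact ZAbs.lim_add a1 (lm_lim L a1 hc ⟨x, hx⟩) (ZAbs.lim_smul a1 _ (lm_lim L a1 hc ⟨y, hy⟩))

theorem lim_ind (L : LevData D At m H g k) (a1 : Alg1) {c : ℕ} (hc : c ≤ m) {u u' : RA At c}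
    (h : lm L a1 hc u + Complex.I • lm L a1 hc u' = 0) : lm L a1 hc u = 0 ∧ lm L a1 hc u' = 0 := by
  set v := lm L a1 hc u with hv
  set v' := lm L a1 hc u' with hv'
  have h1 : v = -(Complex.I • v') := eq_neg_of_add_eq_zero_left h
  have h2 : jT D v = gT k v := lm_j L a1 hc u
  have h3 : jT D v' = gT k v' := lm_j L a1 hc u'
  have e1 : -(Complex.I • v') = (-Complex.I) • v' := by rw [neg_smul]
  rw [h1, e1, a1.jT_smul, a1.gT_smul, h3, map_neg, Complex.conj_I, neg_neg] at h2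
  have h4 : Complex.I • gT k v' = 0 := by
    have e2 : (-Complex.I) • gT k v' = -(Complex.I • gT k v') := by rw [neg_smul]
    rw [e2] at h2
    have h5 : (2 : ℂ) • (Complex.I • gT k v') = 0 := by
      rw [two_smul]
      nth_rewrite 1 [h2]
      exact neg_add_cancel _
    exact (smul_eq_zero.1 h5).resolve_left two_ne_zero
  have h5 : gT k v' = 0 := (smul_eq_zero.1 h4).resolve_left Complex.I_ne_zero
  have h6 : v' = 0 := by
    rw [hv', ← lm_kk L a1 hc u', ← hv', h5]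
    exact YPi.gT_zero a1 _
  refine ⟨?_, h6⟩
  rw [h1, h6, smul_zero, neg_zero]

/-! ### Eigenspaces of `k` -/

theorem fixS_k (L : LevData D At m H g k) (a1 : Alg1) {c : ℕ} (hc : c ≤ m) {v : Ten I c}
    (hv : v ∈ fixS H a1 c) : gT k v ∈ fixS H a1 c ∧ gT k (gT k v) = v := by
  obtain ⟨u, u', rfl⟩ := lim_span L a1 hc hv
  obtain ⟨w, hw⟩ := lm_k L a1 hc u
  obtain ⟨w', hw'⟩ := lm_k L a1 hc u'
  constructor
  · rw [a1.gT_add, a1.gT_smul, ← hw, ← hw']
    exact add_mem (lm_fix L a1 hc w) (Submodule.smul_mem _ _ (lm_fix L a1 hc w'))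
  · rw [a1.gT_add, a1.gT_smul, a1.gT_add, a1.gT_smul, lm_kk, lm_kk]

/-- the eigenspace of `k` in the space of the fixed tensors -/
noncomputable def eigS (H : HMb D b) (a1 : Alg1) (k : Matrix I I ℂ) (c : ℕ) (s : ℂ) :
    Submodule ℂ (Ten I c) where
  carrier := {v | v ∈ fixS H a1 c ∧ gT k v = s • v}
  add_mem' := by
    rintro u v ⟨h1, h2⟩ ⟨h3, h4⟩
    exact ⟨add_mem h1 h3, by rw [a1.gT_add, h2, h4, smul_add]⟩
  zero_mem' := ⟨zero_mem _, by
    have := a1.gT_smul k 0 (0 : Ten I c)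
    rw [zero_smul, zero_smul] at this
    rw [this, smul_zero]⟩
  smul_mem' := by
    rintro z v ⟨h1, h2⟩
    exact ⟨Submodule.smul_mem _ _ h1, by rw [a1.gT_smul, h2, smul_comm]⟩

/-- the eigenspace of `k` in the space of the limits -/
noncomputable def eigR (L : LevData D At m H g k) (a1 : Alg1) {c : ℕ} (hc : c ≤ m) (s : ℝ) :
    Submodule ℝ (Ten I c) where
  carrier := {v | v ∈ LinearMap.range (lm L a1 hc) ∧ gT k v = (s : ℂ) • v}
  add_mem' := by
    rintro u v ⟨h1, h2⟩ ⟨h3, h4⟩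
    exact ⟨add_mem h1 h3, by rw [a1.gT_add, h2, h4, smul_add]⟩
  zero_mem' := ⟨zero_mem _, by
    have := a1.gT_smul k 0 (0 : Ten I c)
    rw [zero_smul, zero_smul] at this
    rw [this, smul_zero]⟩
  smul_mem' := by
    rintro z v ⟨h1, h2⟩
    exact ⟨Submodule.smul_mem _ _ h1, by
      rw [Qps.real_smul, a1.gT_smul, h2, smul_comm]⟩

theorem finrank_eig (L : LevData D At m H g k) (a1 : Alg1) {c : ℕ} (hc : c ≤ m) (s : ℝ) :
    Module.finrank ℂ (eigS H a1 k c (s : ℂ)) = Module.finrank ℝ (eigR L a1 hc s) := by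
  refine finrank_real_form _ _ ?_ ?_ ?_
  · rintro v ⟨⟨u, rfl⟩, h⟩
    exact ⟨lm_fix L a1 hc u, h⟩
  · rintro v ⟨h1, h2⟩
    obtain ⟨u, u', rfl⟩ := lim_span L a1 hc h1
    obtain ⟨w, hw⟩ := lm_k L a1 hc u
    obtain ⟨w', hw'⟩ := lm_k L a1 hc u'
    have h3 : lm L a1 hc (w - s • u) + Complex.I • lm L a1 hc (w' - s • u') = 0 := by
      rw [map_sub, map_sub, map_smul, map_smul, hw, hw', Qps.real_smul, Qps.real_smul]
      rw [a1.gT_add, a1.gT_smul] at h2
      rw [← sub_eq_zero] at h2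
      rw [← h2]
      module
    obtain ⟨h4, h5⟩ := lim_ind L a1 hc h3
    rw [map_sub, map_smul, sub_eq_zero, hw, Qps.real_smul] at h4
    rw [map_sub, map_smul, sub_eq_zero, hw', Qps.real_smul] at h5
    exact ⟨_, ⟨⟨u, rfl⟩, h4⟩, _, ⟨⟨u', rfl⟩, h5⟩, rfl⟩
  · rintro a ⟨⟨u, rfl⟩, _⟩ b ⟨⟨u', rfl⟩, _⟩ h
    exact lim_ind L a1 hc h

theorem finrank_lim (L : LevData D At m H g k) (a1 : Alg1) {c : ℕ} (hc : c ≤ m) :
    Module.finrank ℂ (fixS H a1 c) = rkA D At c := by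
  rw [rk_eq L a1 hc]
  refine finrank_real_form _ _ ?_ ?_ ?_
  · rintro v ⟨u, rfl⟩
    exact lm_fix L a1 hc u
  · intro v hv
    obtain ⟨u, u', rfl⟩ := lim_span L a1 hc hv
    exact ⟨_, ⟨u, rfl⟩, _, ⟨u', rfl⟩, rfl⟩
  · rintro a ⟨u, rfl⟩ b ⟨u', rfl⟩ h
    exact lim_ind L a1 hc h

/-- the sum of the limit and its image under `s k` -/
noncomputable def sy (L : LevData D At m H g k) (a1 : Alg1) {c : ℕ} (hc : c ≤ m) (s : ℝ) :
    RA At c →ₗ[ℝ] Ten I c where
  toFun u := lm L a1 hc u + (s : ℂ) • gT k (lm L a1 hc u)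
  map_add' u v := by
    rw [map_add, a1.gT_add]
    module
  map_smul' r u := by
    rw [map_smul, RingHom.id_apply, Qps.real_smul, a1.gT_smul, Qps.real_smul]
    module

theorem sy_mem (L : LevData D At m H g k) (a1 : Alg1) {c : ℕ} (hc : c ≤ m) {s : ℝ}
    (hs : s * s = 1) (u : RA At c) : sy L a1 hc s u ∈ eigR L a1 hc s := by
  obtain ⟨w, hw⟩ := lm_k L a1 hc u
  constructor
  · refine ⟨u + s • w, ?_⟩
    rw [map_add, map_smul, hw, Qps.real_smul]
    rfl
  · show gT k (lm L a1 hc u + (s : ℂ) • gT k (lm L a1 hc u)) =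
      (s : ℂ) • (lm L a1 hc u + (s : ℂ) • gT k (lm L a1 hc u))
    have hs' : (s : ℂ) * s = 1 := by exact_mod_cast hs
    rw [a1.gT_add, a1.gT_smul, lm_kk, smul_add, smul_smul, hs', one_smul, add_comm]

theorem le_eigR (L : LevData D At m H g k) (a1 : Alg1) {c : ℕ} (hc : c ≤ m) {s : ℝ}
    (hs : s * s = 1) (U : Submodule ℝ (Ten I c)) (hU : U ≤ RA At c)
    (h : ∀ u : RA At c, (u : Ten I c) ∈ U → sy L a1 hc s u = 0 → (u : Ten I c) = 0) :
    Module.finrank ℝ U ≤ Module.finrank ℝ (eigR L a1 hc s) := by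
  have := LinearMap.finrank_le_finrank_of_injective (f :=
    ((sy L a1 hc s).comp (Submodule.inclusion hU)).codRestrict (eigR L a1 hc s)
      fun u => sy_mem L a1 hc hs _) (by
        rw [← LinearMap.ker_eq_bot, LinearMap.ker_eq_bot']
        rintro ⟨u, hu⟩ h1
        have h2 := congrArg Subtype.val h1
        exact Subtype.ext (h ⟨u, hU hu⟩ hu h2))
  exact this

theorem pos_le (L : LevData D At m H g k) (a1 : Alg1) {c : ℕ} (hc : c ≤ m)
    (U : Submodule ℝ (Ten I c)) (hU : U ≤ RA At c) (h : PosU D U) :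
    Module.finrank ℝ U ≤ Module.finrank ℝ (eigR L a1 hc 1) := by
  refine le_eigR L a1 hc (by norm_num) U hU fun u hu h1 => ?_
  by_contra h0
  have h2 : gT k (lm L a1 hc u) = -lm L a1 hc u := by
    have h3 : lm L a1 hc u + ((1 : ℝ) : ℂ) • gT k (lm L a1 hc u) = 0 := h1
    rw [Complex.ofReal_one, one_smul, add_comm] at h3
    exact eq_neg_of_add_eq_zero_left h3
  have h4 := h u hu h0
  by_cases h5 : lm L a1 hc u = 0
  · rw [num_of_lm_zero L a1 hc u h5 u] at h4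
    exact lt_irrefl _ h4
  · exact absurd (psi_neg L a1 hc u h2 h5) (not_lt.2 h4.le)

theorem neg_le (L : LevData D At m H g k) (a1 : Alg1) {c : ℕ} (hc : c ≤ m)
    (U : Submodule ℝ (Ten I c)) (hU : U ≤ RA At c) (h : NegU D U) :
    Module.finrank ℝ U ≤ Module.finrank ℝ (eigR L a1 hc (-1)) := by
  refine le_eigR L a1 hc (by norm_num) U hU fun u hu h1 => ?_
  by_contra h0
  have h2 : gT k (lm L a1 hc u) = lm L a1 hc u := by
    have h3 : lm L a1 hc u + ((-1 : ℝ) : ℂ) • gT k (lm L a1 hc u) = 0 := h1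
    rw [Complex.ofReal_neg, Complex.ofReal_one, neg_one_smul, ← sub_eq_add_neg, sub_eq_zero] at h3
    exact h3.symm
  have h4 := h u hu h0
  by_cases h5 : lm L a1 hc u = 0
  · rw [num_of_lm_zero L a1 hc u h5 u] at h4
    exact lt_irrefl _ h4
  · exact absurd (psi_pos L a1 hc u h2 h5) (not_lt.2 h4.le)

/-- an invariant limit -/
theorem exists_pos (L : LevData D At m H g k) (a1 : Alg1) {c : ℕ} (hc : c ≤ m)
    (h : ∃ u ∈ RA At c, 0 < (psiT D u u).re) :
    ∃ v : Ten I c, v ≠ 0 ∧ v ∈ fixS H a1 c ∧ gT k v = v := by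
  obtain ⟨u, hu, hp⟩ := h
  have h1 := sy_mem L a1 hc (s := 1) (by norm_num) ⟨u, hu⟩
  refine ⟨sy L a1 hc 1 ⟨u, hu⟩, ?_, ?_, ?_⟩
  · intro h0
    have h2 : gT k (lm L a1 hc ⟨u, hu⟩) = -lm L a1 hc ⟨u, hu⟩ := by
      have h3 : lm L a1 hc ⟨u, hu⟩ + ((1 : ℝ) : ℂ) • gT k (lm L a1 hc ⟨u, hu⟩) = 0 := h0
      rw [Complex.ofReal_one, one_smul, add_comm] at h3
      exact eq_neg_of_add_eq_zero_left h3
    by_cases h5 : lm L a1 hc ⟨u, hu⟩ = 0
    · have h6 := num_of_lm_zero L a1 hc ⟨u, hu⟩ h5 ⟨u, hu⟩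
      simp only at h6
      rw [h6] at hp
      exact lt_irrefl _ hp
    · exact absurd (psi_neg L a1 hc ⟨u, hu⟩ h2 h5) (not_lt.2 hp.le)
  · obtain ⟨⟨w, hw⟩, _⟩ := h1
    rw [← hw]
    exact lm_fix L a1 hc w
  · have h2 := h1.2
    rwa [Complex.ofReal_one, one_smul] at h2

/-- an anti-invariant limit -/
theorem exists_neg (L : LevData D At m H g k) (a1 : Alg1) {c : ℕ} (hc : c ≤ m)
    (h : ∃ u ∈ RA At c, (psiT D u u).re < 0) :
    ∃ v : Ten I c, v ≠ 0 ∧ v ∈ fixS H a1 c ∧ gT k v = -v := by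
  obtain ⟨u, hu, hp⟩ := h
  have h1 := sy_mem L a1 hc (s := -1) (by norm_num) ⟨u, hu⟩
  refine ⟨sy L a1 hc (-1) ⟨u, hu⟩, ?_, ?_, ?_⟩
  · intro h0
    have h2 : gT k (lm L a1 hc ⟨u, hu⟩) = lm L a1 hc ⟨u, hu⟩ := by
      have h3 : lm L a1 hc ⟨u, hu⟩ + ((-1 : ℝ) : ℂ) • gT k (lm L a1 hc ⟨u, hu⟩) = 0 := h0
      rw [Complex.ofReal_neg, Complex.ofReal_one, neg_one_smul, ← sub_eq_add_neg,
        sub_eq_zero] at h3
      exact h3.symm
    by_cases h5 : lm L a1 hc ⟨u, hu⟩ = 0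
    · have h6 := num_of_lm_zero L a1 hc ⟨u, hu⟩ h5 ⟨u, hu⟩
      simp only at h6
      rw [h6] at hp
      exact lt_irrefl _ hp
    · exact absurd (psi_pos L a1 hc ⟨u, hu⟩ h2 h5) (not_lt.2 hp.le)
  · obtain ⟨⟨w, hw⟩, _⟩ := h1
    rw [← hw]
    exact lm_fix L a1 hc w
  · have h2 := h1.2
    rwa [Complex.ofReal_neg, Complex.ofReal_one, neg_one_smul] at h2

/-- the dimensions of the eigenspaces of `k` -/
theorem eig_int (L : LevData D At m H g k) (a1 : Alg1) {c : ℕ} (hc : c ≤ m) :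
    Module.finrank ℝ (eigR L a1 hc 1) + Module.finrank ℝ (eigR L a1 hc (-1)) = rkA D At c ∧
    (Module.finrank ℝ (eigR L a1 hc 1) : ℂ) - Module.finrank ℝ (eigR L a1 hc (-1)) =
      ∫ x, (k * H.mat x).trace ^ c ∂H.μ := by
  have h1 := signature H a1 (L := c) (k := k) (fun v hv => (fixS_k L a1 hc hv).1)
    (fun v hv => (fixS_k L a1 hc hv).2) (P := eigS H a1 k c ((1 : ℝ) : ℂ))
    (Q := eigS H a1 k c ((-1 : ℝ) : ℂ)) (by
      intro v
      show _ ∧ gT k v = ((1 : ℝ) : ℂ) • v ↔ _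
      rw [Complex.ofReal_one, one_smul]) (by
      intro v
      show _ ∧ gT k v = ((-1 : ℝ) : ℂ) • v ↔ _
      rw [Complex.ofReal_neg, Complex.ofReal_one, neg_one_smul])
  rw [finrank_eig L a1 hc, finrank_eig L a1 hc, ← finrank_fixS H a1] at h1
  refine ⟨?_, h1.2⟩
  have h2 := h1.1
  rw [finrank_lim L a1 hc] at h2
  exact_mod_cast h2

theorem gT_ten0 (k : Matrix I I ℂ) (v : Ten I 0) : gT k v = v := by
  funext w
  unfold gT
  rw [Fintype.sum_unique]
  have : (default : Fin 0 → I) = w := Subsingleton.elim _ _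
  rw [this]
  simp

theorem isK_mul {x y : Matrix I I ℂ} (hx : IsK D x) (hy : IsK D y) : IsK D (x * y) := by
  refine ⟨AL1B.G_mul _ _ _ hx.1 hy.1, ?_⟩
  rw [Matrix.conjTranspose_mul, Matrix.mul_assoc, ← Matrix.mul_assoc x.conjTranspose, hx.2,
    Matrix.one_mul, hy.2]

/-- **The bound for the signature.** -/
theorem sig_bound (L : LevData D At m H g k) (a1 : Alg1) {c r : ℕ} (hc : c ≤ m) (hr : r ≤ m)
    (h1 : 1 ≤ m) (hpos : ∃ u ∈ RA At 1, 0 < (psiT D u u).re)
    (hneg : ∃ u ∈ RA At r, (psiT D u u).re < 0) : 0 < r ∧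
    0 ≤ (Fintype.card I : ℝ) - 2 / (r : ℝ) ^ 2 ∧
    |(Module.finrank ℝ (eigR L a1 hc 1) : ℝ) - Module.finrank ℝ (eigR L a1 hc (-1))| ≤
      ((Fintype.card I : ℝ) - 2 / (r : ℝ) ^ 2) ^ c := by
  obtain ⟨e, he, hef, hek⟩ := exists_pos L a1 h1 hpos
  obtain ⟨v, hv, hvf, hvk⟩ := exists_neg L a1 hr hneg
  have hr0 : 0 < r := by
    rcases Nat.eq_zero_or_pos r with rfl | h
    · exfalso
      rw [gT_ten0] at hvk
      exact hv (self_eq_neg.1 hvk)
    · exact h
  have hr1 : (1 : ℝ) ≤ r := by exact_mod_cast hr0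
  have hr2 : 2 / (r : ℝ) ^ 2 ≤ 2 := by
    rw [div_le_iff₀ (by positivity)]
    nlinarith
  have hb : ∀ x : H.K, ‖(k * H.mat x).trace‖ ≤ (Fintype.card I : ℝ) - 2 / (r : ℝ) ^ 2 := by
    intro x
    have hy : IsK D (k * H.mat x) := isK_mul L.K (H.mem x).1
    have h2 := Exp18.trace_le hy.2 hr0 hv (by rw [a1.gT_mul, hvf x, hvk])
    have h3 := Exp18.le_trace hy.2 he (by rw [a1.gT_mul, hef x, hek])
    rw [trace_eq_re hy, Complex.norm_real, Real.norm_eq_abs, abs_le]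
    exact ⟨by linarith, h2⟩
  have hd : 0 ≤ (Fintype.card I : ℝ) - 2 / (r : ℝ) ^ 2 := (norm_nonneg _).trans (hb 1)
  refine ⟨hr0, hd, ?_⟩
  have h2 := (eig_int L a1 hc).2
  have h3 : ((|(Module.finrank ℝ (eigR L a1 hc 1) : ℝ) -
      Module.finrank ℝ (eigR L a1 hc (-1))| : ℝ)) = ‖∫ x, (k * H.mat x).trace ^ c ∂H.μ‖ := by
    rw [← h2]
    have : ((Module.finrank ℝ (eigR L a1 hc 1) : ℂ) - Module.finrank ℝ (eigR L a1 hc (-1))) =
      (((Module.finrank ℝ (eigR L a1 hc 1) : ℝ) - Module.finrank ℝ (eigR L a1 hc (-1)) : ℝ) : ℂ) := by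
      push_cast
      rfl
    rw [this, Complex.norm_real, Real.norm_eq_abs]
  rw [h3]
  refine (norm_integral_le_of_norm_le_const (C := ((Fintype.card I : ℝ) - 2 / (r : ℝ) ^ 2) ^ c)
    (Eventually.of_forall fun x => ?_)).trans ?_
  · rw [norm_pow]
    exact pow_le_pow_left₀ (norm_nonneg _) (hb x) _
  · simp

end lev

end OL

end Pool.Agent.Lib.MP_361a6f_ag.FL
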