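import Pool.Agent.Lib.MP_361a6f_ag.FL.O.Root52
import Pool.Agent.Lib.MP_361a6f_ag.FL.O.LevA

/-!
# The growth of the rank with explicit constants, abstract form
-/

open Filter Topology MeasureTheory Module

set_option autoImplicit false

namespace Pool.Agent.Lib.MP_361a6f_ag.FL

namespace O52

open OL T2A OTrq O54

section one

variable {I Λ β : Type} [Fintype I] [DecidableEq I] [DecidableEq Λ] [Fintype β] {lb : β → ℕ}
  {D : Dat I Λ} {b : Tup I lb}

/-- even lengths -/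
theorem grow_even (H : HMb D b) (a1 : Alg1) (d : ℕ) (hd : 0 < d) (hI : Fintype.card I = d)
    (n : ℕ) (hn : 0 < n) (he : Even n) :
    (d : ℝ) ^ n ≤ 2 * (289 * (d : ℝ) ^ 3 * n) ^ (d ^ 2) * finrank ℂ (fixS H a1 n) := by
  have hd1 : (1 : ℝ) ≤ d := by exact_mod_cast hd
  have hn1 : (1 : ℝ) ≤ n := by exact_mod_cast hn
  have hnR : (0 : ℝ) < n := by linarith
  have hd0 : (0 : ℝ) < d := by linarith
  have hu : ∀ x, (H.mat x).conjTranspose * H.mat x = 1 := fun x => (H.mem x).1.2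
  have hball := ball_le d hd hI H.mat hu H.μ n hn
  have hcf : Continuous fun x : H.K => fro (H.mat x - 1) :=
    continuous_fro (fun x => H.mat x) H.cont_mat
  have hS : MeasurableSet {x : H.K | (n : ℝ) * fro (H.mat x - 1) ≤ 1} :=
    (isClosed_le (continuous_const.mul hcf) continuous_const).measurableSet
  have hint : Integrable (fun x => (H.mat x).trace.re ^ n) H.μ :=
    integ H ((cont_trace_re H).pow n)
  have h1 : ∫ x in {x : H.K | (n : ℝ) * fro (H.mat x - 1) ≤ 1}, (H.mat x).trace.re ^ n ∂H.μ ≤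
      ∫ x, (H.mat x).trace.re ^ n ∂H.μ :=
    setIntegral_le_integral hint (Eventually.of_forall fun x => he.pow_nonneg _)
  have h2 : ∫ _x in {x : H.K | (n : ℝ) * fro (H.mat x - 1) ≤ 1}, (d : ℝ) ^ n / 2 ∂H.μ =
      (H.μ {x : H.K | (n : ℝ) * fro (H.mat x - 1) ≤ 1}).toReal * ((d : ℝ) ^ n / 2) := by
    rw [setIntegral_const, smul_eq_mul]
    rfl
  have h3 : ∫ _x in {x : H.K | (n : ℝ) * fro (H.mat x - 1) ≤ 1}, (d : ℝ) ^ n / 2 ∂H.μ ≤
      ∫ x in {x : H.K | (n : ℝ) * fro (H.mat x - 1) ≤ 1}, (H.mat x).trace.re ^ n ∂H.μ := by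
    refine setIntegral_mono_on (integrableOn_const) hint.integrableOn hS fun x hx => ?_
    have h4 : fro (H.mat x - 1) = 2 * d - 2 * (H.mat x).trace.re := by
      have := fro_sub_one (H.mat x) (hu x)
      rw [hI] at this
      exact this
    have h5 : (n : ℝ) * fro (H.mat x - 1) ≤ 1 := hx
    have h6 : fro (H.mat x - 1) ≤ 1 / n := by rw [le_div_iff₀ hnR, mul_comm]; exact h5
    have h7 : (d : ℝ) * (1 + -(1 / (2 * d * n))) ≤ (H.mat x).trace.re := by
      have : (d : ℝ) * (1 + -(1 / (2 * d * n))) = d - (1 / n) / 2 := by field_simp; ring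
      rw [this]; linarith
    have h8 : 1 / (2 * (d : ℝ) * n) ≤ 1 := by
      rw [div_le_one (by positivity)]; nlinarith
    have h9 : 1 + (n : ℝ) * (-(1 / (2 * d * n))) ≤ (1 + -(1 / (2 * (d : ℝ) * n))) ^ n := by
      apply one_add_mul_le_pow
      linarith
    have h10 : 1 + (n : ℝ) * (-(1 / (2 * d * n))) = 1 - 1 / (2 * d) := by
      field_simp
      ring
    have h11 : 1 / (2 * (d : ℝ)) ≤ 1 / 2 := by
      apply div_le_div_of_nonneg_left (by norm_num) (by norm_num); linarith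
    have h12 : (1 : ℝ) / 2 ≤ (1 + -(1 / (2 * (d : ℝ) * n))) ^ n := by
      rw [h10] at h9; linarith
    have h13 : (0 : ℝ) ≤ 1 + -(1 / (2 * (d : ℝ) * n)) := by linarith
    calc (d : ℝ) ^ n / 2 = (d : ℝ) ^ n * (1 / 2) := by ring
      _ ≤ (d : ℝ) ^ n * (1 + -(1 / (2 * (d : ℝ) * n))) ^ n :=
          mul_le_mul_of_nonneg_left h12 (by positivity)
      _ = ((d : ℝ) * (1 + -(1 / (2 * (d : ℝ) * n)))) ^ n := by rw [mul_pow]
      _ ≤ (H.mat x).trace.re ^ n := pow_le_pow_left₀ (by positivity) h7 n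
  have h4 : (H.μ {x : H.K | (n : ℝ) * fro (H.mat x - 1) ≤ 1}).toReal * ((d : ℝ) ^ n / 2) ≤
      (finrank ℂ (fixS H a1 n) : ℝ) := by
    rw [finrank_fixS_re H a1 n, ← h2]
    exact h3.trans h1
  set m : ℝ := (H.μ {x : H.K | (n : ℝ) * fro (H.mat x - 1) ≤ 1}).toReal with hm
  set C : ℝ := (289 * (d : ℝ) ^ 3 * n) ^ (d ^ 2) with hC
  have hC0 : 0 ≤ C := by rw [hC]; positivity
  have hdn : (0 : ℝ) ≤ (d : ℝ) ^ n := by positivity
  calc (d : ℝ) ^ n = 1 * (d : ℝ) ^ n := by rw [one_mul]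
    _ ≤ (C * m) * (d : ℝ) ^ n := mul_le_mul_of_nonneg_right hball hdn
    _ = 2 * C * (m * ((d : ℝ) ^ n / 2)) := by ring
    _ ≤ 2 * C * finrank ℂ (fixS H a1 n) := mul_le_mul_of_nonneg_left h4 (by positivity)

/-- **The growth of the dimension of the space of the fixed tensors.** -/
theorem grow_fix (H : HMb D b) (a1 : Alg1) (d : ℕ) (hd : 0 < d) (hI : Fintype.card I = d)
    {v : Ten I 1} (hv : v ≠ 0) (hf : v ∈ fixS H a1 1) (n : ℕ) (hn : 0 < n) :
    (d : ℝ) ^ n ≤ (600 * (d : ℝ) ^ 3 * n) ^ (d ^ 2) * finrank ℂ (fixS H a1 n) := by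
  have hd1 : (1 : ℝ) ≤ d := by exact_mod_cast hd
  have hn1 : (1 : ℝ) ≤ n := by exact_mod_cast hn
  have hd0 : (0 : ℝ) < d := by linarith
  have hd3 : (1 : ℝ) ≤ (d : ℝ) ^ 3 := one_le_pow₀ hd1
  have hF0 : (0 : ℝ) ≤ (finrank ℂ (fixS H a1 n) : ℝ) := Nat.cast_nonneg _
  have hF1 : (1 : ℝ) ≤ (finrank ℂ (fixS H a1 n) : ℝ) := by
    exact_mod_cast finrank_pos' H a1 (fun g u v => AL2.outer_gT g u v) hv hf n
  have key : (d : ℝ) ^ n ≤
      2 * d * (289 * (d : ℝ) ^ 3 * n) ^ (d ^ 2) * finrank ℂ (fixS H a1 n) := by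
    have hC1 : (1 : ℝ) ≤ (289 * (d : ℝ) ^ 3 * n) ^ (d ^ 2) := by
      refine one_le_pow₀ ?_
      nlinarith
    rcases Nat.even_or_odd n with he | ho
    · refine (grow_even H a1 d hd hI n hn he).trans ?_
      refine mul_le_mul_of_nonneg_right ?_ hF0
      refine mul_le_mul_of_nonneg_right (by linarith) (by positivity)
    · obtain ⟨m, rfl⟩ := ho
      rcases Nat.eq_zero_or_pos m with rfl | hm
      · have h1 := one_le_mul_of_one_le_of_one_le hC1 hF1
        have e : (d : ℝ) ^ (2 * 0 + 1) = d := by norm_num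
        rw [e]
        have h2 := mul_le_mul_of_nonneg_left h1 hd0.le
        linarith
      · have h1 := grow_even H a1 d hd hI (2 * m) (by omega) (even_two_mul m)
        have h2 : (finrank ℂ (fixS H a1 (2 * m)) : ℝ) ≤ finrank ℂ (fixS H a1 (2 * m + 1)) := by
          exact_mod_cast finrank_fixS_le H a1 (fun g u v => AL2.outer_gT g u v) hv hf (2 * m)
        have h3 : (289 * (d : ℝ) ^ 3 * ((2 * m : ℕ) : ℝ)) ^ (d ^ 2) ≤
            (289 * (d : ℝ) ^ 3 * ((2 * m + 1 : ℕ) : ℝ)) ^ (d ^ 2) := by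
          refine pow_le_pow_left₀ (by positivity) ?_ _
          refine mul_le_mul_of_nonneg_left ?_ (by positivity)
          push_cast
          linarith
        calc (d : ℝ) ^ (2 * m + 1) = d * (d : ℝ) ^ (2 * m) := by rw [pow_succ]; ring
          _ ≤ d * (2 * (289 * (d : ℝ) ^ 3 * ((2 * m : ℕ) : ℝ)) ^ (d ^ 2) *
              finrank ℂ (fixS H a1 (2 * m))) := mul_le_mul_of_nonneg_left h1 hd0.le
          _ ≤ d * (2 * (289 * (d : ℝ) ^ 3 * ((2 * m + 1 : ℕ) : ℝ)) ^ (d ^ 2) *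
              finrank ℂ (fixS H a1 (2 * m + 1))) := by
            refine mul_le_mul_of_nonneg_left ?_ hd0.le
            refine mul_le_mul (by linarith) h2 (Nat.cast_nonneg _) (by positivity)
          _ = _ := by ring
  have h2d : 2 * (d : ℝ) ≤ 2 ^ (d ^ 2) := by
    have h1 : 2 * d ≤ 2 ^ d := by
      obtain ⟨e, rfl⟩ : ∃ e, d = e + 1 := ⟨d - 1, by omega⟩
      have := Nat.lt_two_pow_self (n := e)
      rw [pow_succ]
      omega
    have h2 : 2 ^ d ≤ 2 ^ (d ^ 2) := Nat.pow_le_pow_right (by norm_num) (by nlinarith)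
    exact_mod_cast h1.trans h2
  refine key.trans (mul_le_mul_of_nonneg_right ?_ hF0)
  calc 2 * (d : ℝ) * (289 * (d : ℝ) ^ 3 * n) ^ (d ^ 2)
      ≤ 2 ^ (d ^ 2) * (289 * (d : ℝ) ^ 3 * n) ^ (d ^ 2) :=
        mul_le_mul_of_nonneg_right h2d (by positivity)
    _ = (2 * (289 * (d : ℝ) ^ 3 * n)) ^ (d ^ 2) := by rw [← mul_pow]
    _ ≤ (600 * (d : ℝ) ^ 3 * n) ^ (d ^ 2) := by
        refine pow_le_pow_left₀ (by positivity) ?_ _
        have : (0 : ℝ) ≤ (d : ℝ) ^ 3 * n := by positivity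
        nlinarith

end one

/-- **The growth of the rank** with explicit constants. -/
theorem grow_c (a1 : Alg1) (a2 : Alg2) (ab : AlgB) (cpt : CptbStatement) (mn : MinbStatement)
    (l1 : L1bStatement) (l2 : L2bStatement) {I Λ : Type} [Fintype I] [DecidableEq I]
    [DecidableEq Λ] {D : Dat I Λ} {At : (L : ℕ) → Ten I L → Prop} (S : ASys D At)
    (hu : ∃ u ∈ RA At 1, ∃ w ∈ RA At 1, psiT D u w ≠ 0) (n : ℕ) (hn : 0 < n) :
    (Fintype.card I : ℝ) ^ n ≤
      (600 * (Fintype.card I : ℝ) ^ 3 * n) ^ (Fintype.card I ^ 2) * (rkA D At n : ℝ) := by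
  rcases Nat.eq_zero_or_pos (Fintype.card I) with h0 | hd
  · exfalso
    obtain ⟨u, -, w, -, huw⟩ := hu
    have : IsEmpty I := Fintype.card_eq_zero_iff.1 h0
    apply huw
    unfold psiT
    exact Finset.sum_eq_zero fun w' _ => (this.false (w' 0)).elim
  obtain ⟨β, _, lb, b, H, g, k, L⟩ := LevO.lev a1 a2 ab cpt mn l1 l2 S (n + 1)
  obtain ⟨u, hu1, w, hw1, hu2⟩ := hu
  obtain ⟨v, hv, hvfix⟩ := L.lim 1 (by omega) u (Submodule.span_subset_span ℝ ℂ _ hu1)
  obtain ⟨v', hv', -⟩ := L.lim 1 (by omega) w (Submodule.span_subset_span ℝ ℂ _ hw1)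
  have hv0 : v ≠ 0 := by
    rintro rfl
    have h1 := L.psi 1 u w 0 v' hv hv'
    rw [← Qps.psiL_apply, map_zero, LinearMap.zero_apply] at h1
    exact hu2 h1.symm
  have hrk : (Module.finrank ℂ (fixS H a1 n) : ℝ) = (rkA D At n : ℝ) := by
    exact_mod_cast finrank_lim L a1 (show n ≤ n + 1 by omega)
  rw [← hrk]
  exact grow_fix H a1 _ hd rfl hv0 hvfix n hn

end O52

end Pool.Agent.Lib.MP_361a6f_ag.FL
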