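import Mathlib

/-!
# The integrality law: the dichotomy for the limit
-/

open Filter Topology

set_option autoImplicit false

namespace Pool.Agent.Lib.MP_361a6f_ag.FL

namespace Int52

/-- `ρ` tends to infinity or to an integer -/
theorem dichotomy {ι : Type*} [Nonempty ι] (s : ι → ℕ) (ρ : ι → ℝ) (hρ : ∀ P, 0 ≤ ρ P)
    (A B : ℝ) (hA : 0 ≤ A) (hB : 0 ≤ B) (n₀ : ℕ) (hn₀ : 0 < n₀) (hs : ∀ n, ∃ P, n ≤ s P)
    (Φ : ι → ℕ → Prop) (hup : ∀ R m m', m ≤ m' → Φ R m → Φ R m')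
    (hΦ : ∀ R m, n₀ ≤ s R → Φ R m → ρ R ≤ m * (1 + A / √(s R)))
    (h : ∀ R P, n₀ ≤ s P → ∃ m : ℕ, Φ R m ∧ m * (1 - B * s R / √(s P)) ≤ ρ P) :
    Tendsto ρ (comap s atTop) atTop ∨
    ∃ (m : ℕ) (C : ℝ), 0 ≤ C ∧ (∀ R, Φ R m) ∧ ∀ P, n₀ ≤ s P → |ρ P - m| ≤ C / √(s P) := by
  classical
  obtain ⟨P₀, hP₀⟩ := hs n₀
  have hex : ∀ R, ∃ m, Φ R m := fun R => by
    obtain ⟨m, hm, -⟩ := h R P₀ hP₀
    exact ⟨m, hm⟩
  let q : ι → ℕ := fun R => Nat.find (hex R)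
  have hq : ∀ R, Φ R (q R) := fun R => Nat.find_spec (hex R)
  have hqle : ∀ R m, Φ R m → q R ≤ m := fun R m hm => Nat.find_min' (hex R) hm
  have hpos : ∀ P, n₀ ≤ s P → 0 < √(s P : ℝ) := fun P hP =>
    Real.sqrt_pos.2 (by exact_mod_cast lt_of_lt_of_le hn₀ hP)
  -- the lower bound
  have hlow : ∀ R P, n₀ ≤ s P → q R * (1 - B * s R / √(s P)) ≤ ρ P := by
    intro R P hP
    rcases le_or_gt 0 (1 - B * s R / √(s P : ℝ)) with h1 | h1
    · obtain ⟨m, hm, hm'⟩ := h R P hP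
      have h2 : (q R : ℝ) ≤ m := by exact_mod_cast hqle R m hm
      exact (mul_le_mul_of_nonneg_right h2 h1).trans hm'
    · exact (mul_nonpos_of_nonneg_of_nonpos (Nat.cast_nonneg _) h1.le).trans (hρ P)
  by_cases hbd : ∃ K, ∀ R, q R ≤ K
  · right
    obtain ⟨K, hK⟩ := hbd
    have hne : (Set.range q).Nonempty := Set.range_nonempty q
    have hbdd : BddAbove (Set.range q) := ⟨K, by
      rintro _ ⟨R, rfl⟩
      exact hK R⟩
    obtain ⟨R₁, hR₁⟩ := Nat.sSup_mem hne hbdd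
    have hmax : ∀ R, q R ≤ q R₁ := fun R => by
      rw [hR₁]
      exact le_csSup hbdd ⟨R, rfl⟩
    refine ⟨q R₁, q R₁ * A + q R₁ * (B * s R₁), by positivity, fun R =>
      hup R _ _ (hmax R) (hq R), fun P hP => ?_⟩
    have h0 := hpos P hP
    have h1 := hlow R₁ P hP
    have h2 := hΦ P _ hP (hup P _ _ (hmax P) (hq P))
    have e1 : (q R₁ : ℝ) * (1 - B * s R₁ / √(s P)) = q R₁ - q R₁ * (B * s R₁) / √(s P) := by
      ring
    have e2 : (q R₁ : ℝ) * (1 + A / √(s P)) = q R₁ + q R₁ * A / √(s P) := by ring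
    rw [e1] at h1
    rw [e2] at h2
    have h3 : 0 ≤ (q R₁ : ℝ) * A / √(s P) := by positivity
    have h4 : 0 ≤ (q R₁ : ℝ) * (B * s R₁) / √(s P) := by positivity
    rw [abs_le, add_div]
    constructor
    · linarith
    · linarith
  · left
    push Not at hbd
    rw [tendsto_atTop]
    intro b
    obtain ⟨K, hK⟩ := exists_nat_ge (2 * b)
    obtain ⟨R, hR⟩ := hbd K
    obtain ⟨N, hN⟩ := exists_nat_ge ((2 * (B * s R)) ^ 2)
    have h1 : ∀ᶠ P in comap s atTop, max N n₀ ≤ s P :=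
      (eventually_ge_atTop (max N n₀)).comap s
    filter_upwards [h1] with P hP
    have hP0 : n₀ ≤ s P := (le_max_right _ _).trans hP
    have hPN : N ≤ s P := (le_max_left _ _).trans hP
    have h0 := hpos P hP0
    have h2 : 2 * (B * s R) ≤ √(s P) := by
      apply Real.le_sqrt_of_sq_le
      exact hN.trans (by exact_mod_cast hPN)
    have h3 : B * s R / √(s P) ≤ 1 / 2 := by
      rw [div_le_iff₀ h0]
      linarith
    have h4 := hlow R P hP0
    have h5 : (q R : ℝ) * (1 / 2) ≤ q R * (1 - B * s R / √(s P)) :=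
      mul_le_mul_of_nonneg_left (by linarith) (Nat.cast_nonneg _)
    have h6 : (K : ℝ) ≤ q R := by exact_mod_cast hR.le
    linarith

end Int52

end Pool.Agent.Lib.MP_361a6f_ag.FL
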