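import Pool.Agent.Lib.MP_361a6f_ag.FL.O.Frob52

/-!
# Semisimplicity of the Frobenius
-/

open CategoryTheory AlgebraicGeometry MonoidalCategory CartesianMonoidalCategory

universe u v w

set_option autoImplicit false
set_option linter.unusedSectionVars false
set_option linter.unusedVariables false
set_option maxHeartbeats 400000

namespace Pool.Agent.Lib.MP_361a6f_ag.FL

open Pool.Agent.Lib.MP_361a6f_ag.H3 Pool.Agent.Lib.MP_361a6f_ag.SQ
  Pool.Agent.Lib.MP_361a6f_ag.PP

namespace Diag52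

section lin

variable {V : Type*} [AddCommGroup V] [Module ℂ V]

/-- the generalised eigenspaces of an isometry are orthogonal unless the product of the eigenvalues
is `1` -/
theorem orth (B : V →ₗ[ℂ] V →ₗ[ℂ] ℂ) (f : V →ₗ[ℂ] V) (hf : ∀ x y, B (f x) (f y) = B x y)
    {μ ν : ℂ} (h : μ * ν ≠ 1) : ∀ (n M N : ℕ) (x y : V), M + N = n →
    ((f - μ • 1) ^ M) x = 0 → ((f - ν • 1) ^ N) y = 0 → B x y = 0
  | 0, M, N, x, y, hn, hx, _ => by
    have hM : M = 0 := by omega
    subst hM
    have h1 : x = 0 := hx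
    rw [h1, map_zero, LinearMap.zero_apply]
  | n + 1, M, N, x, y, hn, hx, hy => by
    rcases Nat.eq_zero_or_pos M with rfl | hM
    · have h1 : x = 0 := hx
      rw [h1, map_zero, LinearMap.zero_apply]
    rcases Nat.eq_zero_or_pos N with rfl | hN
    · have h1 : y = 0 := hy
      rw [h1, map_zero]
    obtain ⟨M, rfl⟩ : ∃ M', M = M' + 1 := ⟨M - 1, by omega⟩
    obtain ⟨N, rfl⟩ : ∃ N', N = N' + 1 := ⟨N - 1, by omega⟩
    set p : V →ₗ[ℂ] V := f - μ • 1 with hp
    set q : V →ₗ[ℂ] V := f - ν • 1 with hq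
    have e1 : B (p x) y = 0 := orth B f hf h n M (N + 1) (p x) y (by omega)
      (by rw [← hx, pow_succ]; rfl) hy
    have e2 : B x (q y) = 0 := orth B f hf h n (M + 1) N x (q y) (by omega) hx
      (by rw [← hy, pow_succ]; rfl)
    have e3 : B (p x) (q y) = 0 := by
      rcases Nat.eq_zero_or_pos n with rfl | hn'
      · have hM0 : M = 0 := by omega
        subst hM0
        have h1 : p x = 0 := by rw [← hx]; rfl
        rw [h1, map_zero, LinearMap.zero_apply]
      obtain ⟨n, rfl⟩ : ∃ n', n = n' + 1 := ⟨n - 1, by omega⟩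
      exact orth B f hf h n M N (p x) (q y) (by omega) (by rw [← hx, pow_succ]; rfl)
        (by rw [← hy, pow_succ]; rfl)
    have e4 : f x = p x + μ • x := by
      rw [hp, LinearMap.sub_apply, LinearMap.smul_apply, Module.End.one_apply]
      abel
    have e5 : f y = q y + ν • y := by
      rw [hq, LinearMap.sub_apply, LinearMap.smul_apply, Module.End.one_apply]
      abel
    have e6 := hf x y
    rw [e4, e5] at e6
    simp only [map_add, LinearMap.add_apply, map_smul, LinearMap.smul_apply, smul_eq_mul, e1, e2,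
      e3] at e6
    have e7 : (μ * ν - 1) * B x y = 0 := by linear_combination e6
    rcases mul_eq_zero.1 e7 with h' | h'
    · exact absurd (sub_eq_zero.1 h') h
    · exact h'

/-- products of generalised eigenvectors -/
theorem mul_gen {A : Type*} [Ring A] [Algebra ℂ A] (f : A →ₐ[ℂ] A) {μ ν : ℂ} (hμ : μ * ν = 1) :
    ∀ (n M N : ℕ) (a b : A), M + N = n → ((f.toLinearMap - μ • 1) ^ M) a = 0 →
    ((f.toLinearMap - ν • 1) ^ N) b = 0 → ((f.toLinearMap - 1) ^ n) (a * b) = 0
  | 0, M, N, a, b, h, ha, _ => by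
    have hM : M = 0 := by omega
    subst hM
    have h1 : a = 0 := ha
    rw [h1, zero_mul, map_zero]
  | n + 1, M, N, a, b, h, ha, hb => by
    rcases Nat.eq_zero_or_pos M with rfl | hM
    · have h1 : a = 0 := ha
      rw [h1, zero_mul, map_zero]
    rcases Nat.eq_zero_or_pos N with rfl | hN
    · have h1 : b = 0 := hb
      rw [h1, mul_zero, map_zero]
    obtain ⟨M, rfl⟩ : ∃ M', M = M' + 1 := ⟨M - 1, by omega⟩
    obtain ⟨N, rfl⟩ : ∃ N', N = N' + 1 := ⟨N - 1, by omega⟩
    set g : A →ₗ[ℂ] A := f.toLinearMap - 1 with hg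
    set p : A →ₗ[ℂ] A := f.toLinearMap - μ • 1 with hp
    set q : A →ₗ[ℂ] A := f.toLinearMap - ν • 1 with hq
    have h2 : (g ^ (n + 1)) (a * b) = (g ^ n) (g (a * b)) := by
      rw [pow_succ]; rfl
    have h3 : g (a * b) = p a * f b + μ • (a * q b) := by
      simp only [hg, hp, hq, LinearMap.sub_apply, AlgHom.toLinearMap_apply, map_mul,
        Module.End.one_apply, LinearMap.smul_apply]
      rw [sub_mul, mul_sub, smul_sub, smul_mul_assoc, mul_smul_comm, smul_smul, hμ, one_smul]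
      abel
    have hcom : ∀ K : ℕ, ∀ x : A, (q ^ K) (f x) = f ((q ^ K) x) := by
      intro K x
      have h5 : Commute (q ^ K) f.toLinearMap :=
        ((Commute.refl f.toLinearMap).sub_left ((Commute.one_left _).smul_left ν)).pow_left K
      have h6 : (q ^ K) * f.toLinearMap = f.toLinearMap * (q ^ K) := h5
      exact LinearMap.congr_fun h6 x
    rw [h2, h3, map_add, map_smul]
    have e1 : (g ^ n) (p a * f b) = 0 := by
      refine mul_gen f hμ n M (N + 1) (p a) (f b) (by omega) ?_ ?_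
      · rw [← ha, pow_succ]; rfl
      · rw [hcom, hb, map_zero]
    have e2 : (g ^ n) (a * q b) = 0 := by
      refine mul_gen f hμ n (M + 1) N a (q b) (by omega) ha ?_
      rw [← hb, pow_succ]; rfl
    rw [e1, e2, smul_zero, add_zero]

end lin

section geo

variable {k : Type u} [Field k] {W : CohomologyData.{u, 0, w} k ℂ} {𝒱 : VarietyClass k}
  (hW : IsWeilCohomology W 𝒱)
include hW

/-- the parts of a generalised eigenvector -/
theorem parts {Y : Sch k} {d : ℕ} (hY : 𝒱.mem Y d) (F : W.coh Y →ₐ[ℂ] W.coh Y)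
    (hdeg : ∀ i, ∀ x ∈ W.gr Y i, F x ∈ W.gr Y i) {μ : ℂ} {x : W.coh Y} {N : ℕ}
    (hN : ((F.toLinearMap - μ • 1) ^ N) x = 0) :
    ∃ e o, e ∈ par W Y 0 ∧ o ∈ par W Y 1 ∧ ((F.toLinearMap - μ • 1) ^ N) e = 0 ∧
      ((F.toLinearMap - μ • 1) ^ N) o = 0 ∧ e + o = x := by
  have hpar : ∀ b, ∀ z ∈ par W Y b, F z ∈ par W Y b := by
    intro b z hz
    refine Par.ind hz (P := fun z => F z ∈ par W Y b) ?_ ?_ ?_
    · intro i hi z hz
      exact Par.mem_of hi (hdeg i z hz)
    · rw [map_zero]; exact zero_mem _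
    · intro z z' h h'
      rw [map_add]; exact add_mem h h'
  have hyy : x ∈ par W Y 0 ⊔ par W Y 1 := by
    rw [Par.sup hW hY]
    trivial
  obtain ⟨e, he, o, ho, rfl⟩ := Submodule.mem_sup.1 hyy
  have hpow : ∀ (K : ℕ) (b : ℕ), ∀ z ∈ par W Y b,
      ((F.toLinearMap - μ • 1) ^ K) z ∈ par W Y b := by
    intro K
    induction K with
    | zero => intro b z hz; exact hz
    | succ K ih =>
      intro b z hz
      rw [pow_succ]
      exact ih b _ (sub_mem (hpar b z hz) (Submodule.smul_mem _ _ hz))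
  have h1 : ((F.toLinearMap - μ • 1) ^ N) e = 0 := by
    have h2 : ((F.toLinearMap - μ • 1) ^ N) e = -((F.toLinearMap - μ • 1) ^ N) o := by
      rw [map_add] at hN
      exact eq_neg_of_add_eq_zero_left hN
    refine Par.nondeg hW hY 0 (hpow N 0 e he) fun z hz => ?_
    rw [h2, neg_mul, map_neg, neg_eq_zero]
    exact Par.tr hW hY (b := 1 + 0) (by decide) (Par.mul hW hY (hpow N 1 o ho) hz)
  refine ⟨e, o, he, ho, h1, ?_, rfl⟩
  rw [map_add, h1, zero_add] at hN
  exact hN

/-- a partner of a class -/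
theorem partner {Y : Sch k} {d : ℕ} (hY : 𝒱.mem Y d) (F : W.coh Y →ₐ[ℂ] W.coh Y)
    (hdeg : ∀ i, ∀ x ∈ W.gr Y i, F x ∈ W.gr Y i) {b : ℕ} (hb : b = 0 ∨ b = 1) {x : W.coh Y}
    (hx : x ∈ par W Y b) (hx0 : x ≠ 0) :
    ∃ (ν : ℂ) (y : W.coh Y) (N : ℕ), y ∈ par W Y b ∧ ((F.toLinearMap - ν • 1) ^ N) y = 0 ∧
      W.tr Y (x * y) ≠ 0 := by
  have := hW.finite hY
  by_contra hne
  push Not at hne
  refine hx0 (hW.duality hY x fun y => ?_)
  have hy : y ∈ ⨆ ν : ℂ, Module.End.maxGenEigenspace F.toLinearMap ν := by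
    rw [Module.End.iSup_maxGenEigenspace_eq_top]
    trivial
  refine Submodule.iSup_induction _ (motive := fun y => W.tr Y (x * y) = 0) hy ?_ ?_ ?_
  · intro ν y hy
    obtain ⟨N, hN⟩ := (Module.End.mem_maxGenEigenspace F.toLinearMap ν y).1 hy
    obtain ⟨e, o, he, ho, he', ho', rfl⟩ := parts hW hY F hdeg hN
    rw [mul_add, map_add]
    rcases hb with rfl | rfl
    · rw [hne ν e N he he', zero_add]
      exact Par.tr hW hY (b := 0 + 1) (by decide) (Par.mul hW hY hx ho)
    · rw [hne ν o N ho ho', add_zero]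
      exact Par.tr hW hY (b := 1 + 0) (by decide) (Par.mul hW hY hx he)
  · rw [mul_zero, map_zero]
  · intro y z h h'
    rw [mul_add, map_add, h, h', add_zero]

/-- the form is nondegenerate on the other side -/
theorem dual' {Y : Sch k} {d : ℕ} (hY : 𝒱.mem Y d) {b : ℕ} (hb : b = 0 ∨ b = 1) {x : W.coh Y}
    (hx : x ∈ par W Y b) (h : ∀ s, W.tr Y (s * x) = 0) : x = 0 := by
  refine Par.nondeg hW hY b hx fun y hy => ?_
  rw [Par.comm hW hY hx hy, map_smul, h, smul_zero]

section two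

variable {A : Sch k} {a : ℕ} (hA : 𝒱.mem A a) {f : W.coh A →ₐ[ℂ] W.coh A}
  {G : W.coh (A ⊗ A) →ₐ[ℂ] W.coh (A ⊗ A)}
  (hG₁ : ∀ x, G (W.pull (fst A A) x) = W.pull (fst A A) (f x))
  (hG₂ : ∀ y, G (W.pull (snd A A) y) = W.pull (snd A A) (f y))

omit hW in
include hG₁ in
theorem pow_pull₁ (μ : ℂ) (K : ℕ) : ∀ x : W.coh A,
    ((G.toLinearMap - μ • 1) ^ K) (W.pull (fst A A) x)
      = W.pull (fst A A) (((f.toLinearMap - μ • 1) ^ K) x) := by
  induction K with
  | zero => intro x; rfl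
  | succ K ih =>
    intro x
    rw [pow_succ, pow_succ, Module.End.mul_apply, Module.End.mul_apply, ← ih]
    congr 1
    rw [LinearMap.sub_apply, LinearMap.sub_apply, map_sub, AlgHom.toLinearMap_apply,
      AlgHom.toLinearMap_apply, hG₁, LinearMap.smul_apply, LinearMap.smul_apply, map_smul,
      Module.End.one_apply, Module.End.one_apply]

omit hW in
include hG₂ in
theorem pow_pull₂ (μ : ℂ) (K : ℕ) : ∀ y : W.coh A,
    ((G.toLinearMap - μ • 1) ^ K) (W.pull (snd A A) y)
      = W.pull (snd A A) (((f.toLinearMap - μ • 1) ^ K) y) := by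
  induction K with
  | zero => intro x; rfl
  | succ K ih =>
    intro x
    rw [pow_succ, pow_succ, Module.End.mul_apply, Module.End.mul_apply, ← ih]
    congr 1
    rw [LinearMap.sub_apply, LinearMap.sub_apply, map_sub, AlgHom.toLinearMap_apply,
      AlgHom.toLinearMap_apply, hG₂, LinearMap.smul_apply, LinearMap.smul_apply, map_smul,
      Module.End.one_apply, Module.End.one_apply]

include hA hG₁ hG₂ in
/-- the generalised eigenvectors of pure parity are eigenvectors -/
theorem pure_eig (hf : ∀ x, W.tr A (f x) = W.tr A x) (hdeg : ∀ i, ∀ x ∈ W.gr A i, f x ∈ W.gr A i)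
    (hfix : ∀ z ∈ tateF W (A ⊗ A) G, G z = z) {b : ℕ} (hb : b = 0 ∨ b = 1) {μ : ℂ} {x : W.coh A}
    (hx : x ∈ par W A b) {M : ℕ} (hM : ((f.toLinearMap - μ • 1) ^ M) x = 0) : f x = μ • x := by
  have hAA := 𝒱.prod hA hA
  by_cases hx0 : x = 0
  · rw [hx0, map_zero, smul_zero]
  obtain ⟨ν, y, N, hy, hN, hxy⟩ := partner hW hA f hdeg hb hx hx0
  have hμν : μ * ν = 1 := by
    by_contra hne
    exact hxy (orth ((LinearMap.mul ℂ (W.coh A)).compr₂ (W.tr A)) f.toLinearMap (fun x y => by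
      change W.tr A (f x * f y) = W.tr A (x * y)
      rw [← map_mul, hf]) hne (M + N) M N x y rfl hM hN)
  -- the product is fixed
  have h1 : W.pull (fst A A) x * W.pull (snd A A) y ∈ tateF W (A ⊗ A) G := by
    have h0 : W.pull (fst A A) x * W.pull (snd A A) y ∈ par W (A ⊗ A) (b + b) :=
      Par.mul hW hAA (Par.pull hW hAA hA _ hx) (Par.pull hW hAA hA _ hy)
    have h0' : W.pull (fst A A) x * W.pull (snd A A) y ∈ par W (A ⊗ A) 0 := by
      rw [Par.congr (W := W) (A ⊗ A) (show 0 % 2 = (b + b) % 2 by omega)]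
      exact h0
    refine Frob52.mem_tateF.2 ⟨⟨M + N, ?_⟩, h0'⟩
    refine mul_gen G hμν (M + N) M N _ _ rfl ?_ ?_
    · rw [pow_pull₁ hG₁, hM, map_zero]
    · rw [pow_pull₂ hG₂, hN, map_zero]
  have h2 := hfix _ h1
  rw [map_mul, hG₁, hG₂] at h2
  have h3 : ∀ s, W.tr A (s * f x) • f y = W.tr A (s * x) • y := by
    intro s
    rw [← cor_ext hW hA hA, ← cor_ext hW hA hA, h2]
  have hy0 : y ≠ 0 := by
    rintro rfl
    exact hxy (by rw [mul_zero, map_zero])
  obtain ⟨s₀, hs₀⟩ : ∃ s, W.tr A (s * x) ≠ 0 := by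
    by_contra hne
    push Not at hne
    exact hx0 (dual' hW hA hb hx hne)
  have hc0 : W.tr A (s₀ * f x) ≠ 0 := by
    intro h
    have h4 := h3 s₀
    rw [h, zero_smul] at h4
    exact (smul_ne_zero hs₀ hy0) h4.symm
  set c : ℂ := (W.tr A (s₀ * f x))⁻¹ * W.tr A (s₀ * x) with hc
  have hfy : f y = c • y := by
    rw [hc, mul_smul, ← h3 s₀, smul_smul, inv_mul_cancel₀ hc0, one_smul]
  have hc1 : c ≠ 0 := mul_ne_zero (inv_ne_zero hc0) hs₀
  have hfx : f x = c⁻¹ • x := by
    have hpar : f x - c⁻¹ • x ∈ par W A b := by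
      refine sub_mem ?_ (Submodule.smul_mem _ _ hx)
      refine Par.ind hx (P := fun z => f z ∈ par W A b) ?_ ?_ ?_
      · intro i hi z hz
        exact Par.mem_of hi (hdeg i z hz)
      · rw [map_zero]; exact zero_mem _
      · intro z z' h h'
        rw [map_add]; exact add_mem h h'
    rw [← sub_eq_zero]
    refine dual' hW hA hb hpar fun s => ?_
    have h4 := h3 s
    rw [hfy, smul_smul, ← sub_eq_zero, ← sub_smul] at h4
    rcases smul_eq_zero.1 h4 with h5 | h5
    · rw [mul_sub, map_sub, mul_smul_comm, map_smul, smul_eq_mul, sub_eq_zero]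
      rw [sub_eq_zero] at h5
      rw [← h5]
      field_simp
    · exact absurd h5 hy0
  have h5 : c⁻¹ = μ := by
    by_contra hne
    have h6 : ∀ K : ℕ, ((f.toLinearMap - μ • 1) ^ K) x = (c⁻¹ - μ) ^ K • x := by
      intro K
      induction K with
      | zero => rw [pow_zero, pow_zero, one_smul]; rfl
      | succ K ih =>
        rw [pow_succ', Module.End.mul_apply, ih, map_smul, LinearMap.sub_apply,
          AlgHom.toLinearMap_apply, hfx, LinearMap.smul_apply, Module.End.one_apply, ← sub_smul,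
          smul_smul, pow_succ]
    rw [h6 M] at hM
    rcases smul_eq_zero.1 hM with h7 | h7
    · exact (pow_ne_zero M (sub_ne_zero.2 hne)) h7
    · exact hx0 h7
  rw [hfx, h5]

include hA hG₁ hG₂ in
/-- **Semisimplicity.** -/
theorem diag (hf : ∀ x, W.tr A (f x) = W.tr A x) (hdeg : ∀ i, ∀ x ∈ W.gr A i, f x ∈ W.gr A i)
    (hfix : ∀ z ∈ tateF W (A ⊗ A) G, G z = z) : Diagonalisable W f := by
  have := hW.finite hA
  unfold Diagonalisable
  rw [eq_top_iff, ← Module.End.iSup_maxGenEigenspace_eq_top f.toLinearMap]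
  refine iSup_mono fun μ x hx => ?_
  obtain ⟨M, hM⟩ := (Module.End.mem_maxGenEigenspace f.toLinearMap μ x).1 hx
  obtain ⟨e, o, he, ho, he', ho', rfl⟩ := parts hW hA f hdeg hM
  refine add_mem ?_ ?_
  · exact Module.End.mem_eigenspace_iff.2
      (pure_eig hW hA hG₁ hG₂ hf hdeg hfix (Or.inl rfl) he he')
  · exact Module.End.mem_eigenspace_iff.2
      (pure_eig hW hA hG₁ hG₂ hf hdeg hfix (Or.inr rfl) ho ho')

end two

end geo

end Diag52

end Pool.Agent.Lib.MP_361a6f_ag.FL
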