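import Pool.Agent.Lib.MP_361a6f_ag.FL.O.StatF52
import Pool.Agent.Lib.MP_361a6f_ag.FL.P.Par
import Pool.Agent.Lib.MP_361a6f_ag.PP.StarAlg

/-!
# The generalised eigenspaces of the Frobenius form a system of Tate classes
-/

open CategoryTheory AlgebraicGeometry MonoidalCategory CartesianMonoidalCategory

universe u v w

set_option autoImplicit false
set_option linter.unusedSectionVars false
set_option linter.unusedVariables false
set_option maxHeartbeats 400000

namespace Pool.Agent.Lib.MP_361a6f_ag.FL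

open Pool.Agent.Lib.MP_361a6f_ag.H3 Pool.Agent.Lib.MP_361a6f_ag.SQ
  Pool.Agent.Lib.MP_361a6f_ag.PP

namespace Frob52

/-! ### Isometries -/

section lin

variable {V : Type*} [AddCommGroup V] [Module ℂ V] [FiniteDimensional ℂ V]

/-- an isometry of a nondegenerate form is bijective -/
theorem bij (B : V →ₗ[ℂ] V →ₗ[ℂ] ℂ) (hB : ∀ x, (∀ y, B x y = 0) → x = 0) (f : V →ₗ[ℂ] V)
    (hf : ∀ x y, B (f x) (f y) = B x y) : Function.Bijective f := by
  have hinj : Function.Injective f := by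
    rw [injective_iff_map_eq_zero]
    intro x hx
    refine hB x fun y => ?_
    rw [← hf, hx, map_zero, LinearMap.zero_apply]
  exact ⟨hinj, LinearMap.injective_iff_surjective.1 hinj⟩

/-- the form on the generalised eigenspace of an isometry -/
theorem shift (B : V →ₗ[ℂ] V →ₗ[ℂ] ℂ) (f : V →ₗ[ℂ] V)
    (hf : ∀ x y, B (f x) (f y) = B x y) : ∀ (N : ℕ) (x y : V),
    B (((f - 1) ^ N) x) ((f ^ N) y) = B x (((1 - f) ^ N) y)
  | 0, x, y => rfl
  | N + 1, x, y => by
    have h1 : ∀ x y : V, B ((f - 1) x) (f y) = B x ((1 - f) y) := by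
      intro x y
      rw [LinearMap.sub_apply, LinearMap.sub_apply, map_sub, LinearMap.sub_apply, hf, map_sub]
      rfl
    have h2 : ((f - 1) ^ (N + 1)) x = ((f - 1) ^ N) ((f - 1) x) := by
      rw [pow_succ]; rfl
    have h3 : (f ^ (N + 1)) y = (f ^ N) (f y) := by
      rw [pow_succ]; rfl
    rw [h2, h3, shift B f hf N ((f - 1) x) (f y)]
    have h4 : ((1 - f) ^ N) (f y) = f (((1 - f) ^ N) y) := by
      have h5 : Commute ((1 - f) ^ N) f :=
        ((Commute.one_left f).sub_left (Commute.refl f)).pow_left N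
      have h6 : ((1 - f) ^ N) * f = f * ((1 - f) ^ N) := h5
      exact LinearMap.congr_fun h6 y
    rw [h4, h1, pow_succ']
    rfl

/-- the form is nondegenerate on the generalised eigenspace -/
theorem nd (B : V →ₗ[ℂ] V →ₗ[ℂ] ℂ) (hB : ∀ x, (∀ y, B x y = 0) → x = 0) (f : V →ₗ[ℂ] V)
    (hf : ∀ x y, B (f x) (f y) = B x y) {x : V}
    (hx : x ∈ Module.End.maxGenEigenspace f 1)
    (h : ∀ y ∈ Module.End.maxGenEigenspace f 1, B x y = 0) : x = 0 := by
  obtain ⟨N, hN⟩ := (Module.End.mem_maxGenEigenspace f 1 x).1 hx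
  rw [one_smul] at hN
  refine hB x fun y => ?_
  -- decomposition of `y`
  obtain ⟨M, hM⟩ := Filter.eventually_atTop.1 (LinearMap.eventually_isCompl_ker_pow_range_pow (f - 1))
  let K := max M N
  have hc := hM K (le_max_left _ _)
  have hy : y ∈ LinearMap.ker ((f - 1) ^ K) ⊔ LinearMap.range ((f - 1) ^ K) := by
    rw [hc.sup_eq_top]
    trivial
  obtain ⟨y₁, hy₁, y₂, ⟨y₃, rfl⟩, rfl⟩ := Submodule.mem_sup.1 hy
  rw [map_add]
  have e1 : B x y₁ = 0 := by
    refine h y₁ ((Module.End.mem_maxGenEigenspace f 1 y₁).2 ⟨K, ?_⟩)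
    rw [one_smul]
    exact hy₁
  have e2 : ((f - 1) ^ K) x = 0 := by
    have h1 : K = (K - N) + N := (Nat.sub_add_cancel (le_max_right _ _)).symm
    rw [h1, pow_add]
    change ((f - 1) ^ (K - N)) (((f - 1) ^ N) x) = 0
    rw [hN, map_zero]
  have e3 := shift B f hf K x y₃
  rw [e2, map_zero, LinearMap.zero_apply] at e3
  have e4 : B x (((f - 1) ^ K) y₃) = 0 := by
    have h1 : (f - 1) ^ K = (-1 : Module.End ℂ V) ^ K * (1 - f) ^ K := by
      rw [← (Commute.neg_one_left (1 - f)).mul_pow]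
      congr 1
      rw [neg_one_mul, neg_sub]
    have h2 : ((-1 : Module.End ℂ V) ^ K) = ((-1 : ℂ) ^ K) • (1 : Module.End ℂ V) := by
      rcases neg_one_pow_eq_or ℂ K with h | h <;>
      rcases Nat.even_or_odd K with h' | h' <;>
      simp [h'.neg_one_pow]
    rw [h1, h2, smul_mul_assoc, one_mul, LinearMap.smul_apply, map_smul, ← e3, smul_zero]
  rw [e1, e4, add_zero]

/-- products of generalised eigenvectors -/
theorem mul_gen {A : Type*} [Ring A] [Algebra ℂ A] (f : A →ₐ[ℂ] A) : ∀ (n M N : ℕ) (a b : A),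
    M + N = n → ((f.toLinearMap - 1) ^ M) a = 0 → ((f.toLinearMap - 1) ^ N) b = 0 →
    ((f.toLinearMap - 1) ^ n) (a * b) = 0
  | 0, M, N, a, b, h, ha, _ => by
    have hM : M = 0 := by omega
    subst hM
    have h1 : a = 0 := ha
    rw [h1, zero_mul, map_zero]
  | n + 1, M, N, a, b, h, ha, hb => by
    rcases Nat.eq_zero_or_pos M with rfl | hM
    · have h1 : a = 0 := ha
      rw [h1, zero_mul, map_zero]
    rcases Nat.eq_zero_or_pos N with rfl | hN
    · have h1 : b = 0 := hb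
      rw [h1, mul_zero, map_zero]
    obtain ⟨M, rfl⟩ : ∃ M', M = M' + 1 := ⟨M - 1, by omega⟩
    obtain ⟨N, rfl⟩ : ∃ N', N = N' + 1 := ⟨N - 1, by omega⟩
    set g : A →ₗ[ℂ] A := f.toLinearMap - 1 with hg
    have h2 : (g ^ (n + 1)) (a * b) = (g ^ n) (g (a * b)) := by
      rw [pow_succ]; rfl
    have h3 : g (a * b) = g a * f b + a * g b := by
      simp only [hg, LinearMap.sub_apply, AlgHom.toLinearMap_apply, map_mul, Module.End.one_apply]
      rw [sub_mul, mul_sub]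
      abel
    have hcom : ∀ K : ℕ, ∀ x : A, (g ^ K) (f x) = f ((g ^ K) x) := by
      intro K x
      have h5 : Commute (g ^ K) f.toLinearMap :=
        ((Commute.refl f.toLinearMap).sub_left (Commute.one_left _)).pow_left K
      have h6 : (g ^ K) * f.toLinearMap = f.toLinearMap * (g ^ K) := h5
      exact LinearMap.congr_fun h6 x
    rw [h2, h3, map_add]
    have e1 : (g ^ n) (g a * f b) = 0 := by
      refine mul_gen f n M (N + 1) (g a) (f b) (by omega) ?_ ?_
      · rw [← ha, pow_succ]; rfl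
      · rw [hcom, hb, map_zero]
    have e2 : (g ^ n) (a * g b) = 0 := by
      refine mul_gen f n (M + 1) N a (g b) (by omega) ha ?_
      rw [← hb, pow_succ]; rfl
    rw [e1, e2, add_zero]

end lin

/-! ### Geometry -/

section geo

variable {k : Type u} [Field k] {W : CohomologyData.{u, 0, w} k ℂ} {𝒱 : VarietyClass k}

/-- the even part -/
theorem even_eq (Y : Sch k) : (⨆ i : ℕ, W.gr Y (2 * i)) = par W Y 0 := rfl

theorem mem_tateF {Y : Sch k} {F : W.coh Y →ₐ[ℂ] W.coh Y} {x : W.coh Y} :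
    x ∈ tateF W Y F ↔ (∃ N : ℕ, ((F.toLinearMap - 1) ^ N) x = 0) ∧ x ∈ par W Y 0 := by
  unfold tateF
  rw [even_eq, Submodule.mem_inf, Module.End.mem_maxGenEigenspace, one_smul]

variable (hW : IsWeilCohomology W 𝒱)
include hW

/-- the push-forward of an even class is even -/
theorem push_even {X Y : Sch k} {n d : ℕ} (hX : 𝒱.mem X n) (hY : 𝒱.mem Y d) (f : X ⟶ Y)
    {z : W.coh X} (hz : z ∈ par W X 0) : W.push f z ∈ par W Y 0 := by
  have h1 : W.push f z ∈ par W Y 0 ⊔ par W Y 1 := by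
    rw [Par.sup hW hY]
    trivial
  obtain ⟨e, he, o, ho, heo⟩ := Submodule.mem_sup.1 h1
  have h2 : o = 0 := by
    refine Par.nondeg hW hY 1 ho fun y hy => ?_
    have h3 : W.tr Y (W.push f z * y) = 0 := by
      rw [hW.push_adj hX hY]
      exact Par.tr hW hX (b := 0 + 1) (by decide) (Par.mul hW hX hz (Par.pull hW hX hY f hy))
    have h4 : W.tr Y (e * y) = 0 :=
      Par.tr hW hY (b := 0 + 1) (by decide) (Par.mul hW hY he hy)
    rw [← heo, add_mul, map_add, h4, zero_add] at h3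
    exact h3
  rw [← heo, h2, add_zero]
  exact he

/-- an isometric algebra map is surjective -/
theorem surj {Y : Sch k} {d : ℕ} (hY : 𝒱.mem Y d) (F : W.coh Y →ₐ[ℂ] W.coh Y)
    (hF : ∀ x, W.tr Y (F x) = W.tr Y x) : Function.Surjective F := by
  have := hW.finite hY
  have h := bij (V := W.coh Y) ((LinearMap.mul ℂ (W.coh Y)).compr₂ (W.tr Y))
    (fun x hx => hW.duality hY x hx) F.toLinearMap (fun x y => by
      change W.tr Y (F x * F y) = W.tr Y (x * y)
      rw [← map_mul, hF])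
  exact h.2

/-- the form is nondegenerate on the spaces `tateF` -/
theorem tateF_nd {Y : Sch k} {d : ℕ} (hY : 𝒱.mem Y d) (F : W.coh Y →ₐ[ℂ] W.coh Y)
    (hF : ∀ x, W.tr Y (F x) = W.tr Y x) (hdeg : ∀ i, ∀ x ∈ W.gr Y i, F x ∈ W.gr Y i)
    {x : W.coh Y} (hx : x ∈ tateF W Y F) (h : ∀ y ∈ tateF W Y F, W.tr Y (x * y) = 0) :
    x = 0 := by
  have := hW.finite hY
  have hx1 : x ∈ Module.End.maxGenEigenspace F.toLinearMap 1 :=
    (Module.End.mem_maxGenEigenspace F.toLinearMap 1 x).2 (by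
      rw [one_smul]
      exact (mem_tateF.1 hx).1)
  have hx2 : x ∈ par W Y 0 := (mem_tateF.1 hx).2
  refine nd (V := W.coh Y) ((LinearMap.mul ℂ (W.coh Y)).compr₂ (W.tr Y))
    (fun x hx => hW.duality hY x hx) F.toLinearMap (fun x y => by
      change W.tr Y (F x * F y) = W.tr Y (x * y)
      rw [← map_mul, hF]) hx1 fun y hy => ?_
  change W.tr Y (x * y) = 0
  -- the parts of `y`
  have hpar : ∀ b, ∀ z ∈ par W Y b, F z ∈ par W Y b := by
    intro b z hz
    refine Par.ind hz (P := fun z => F z ∈ par W Y b) ?_ ?_ ?_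
    · intro i hi z hz
      exact Par.mem_of hi (hdeg i z hz)
    · rw [map_zero]; exact zero_mem _
    · intro z z' h h'
      rw [map_add]; exact add_mem h h'
  obtain ⟨N, hN⟩ := (Module.End.mem_maxGenEigenspace F.toLinearMap 1 y).1 hy
  rw [one_smul] at hN
  have hyy : y ∈ par W Y 0 ⊔ par W Y 1 := by
    rw [Par.sup hW hY]
    trivial
  obtain ⟨e, he, o, ho, rfl⟩ := Submodule.mem_sup.1 hyy
  have hpow : ∀ (K : ℕ) (b : ℕ), ∀ z ∈ par W Y b, ((F.toLinearMap - 1) ^ K) z ∈ par W Y b := by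
    intro K
    induction K with
    | zero => intro b z hz; exact hz
    | succ K ih =>
      intro b z hz
      rw [pow_succ]
      exact ih b _ (sub_mem (hpar b z hz) hz)
  have h1 : ((F.toLinearMap - 1) ^ N) e = 0 := by
    have h2 : ((F.toLinearMap - 1) ^ N) e = -((F.toLinearMap - 1) ^ N) o := by
      rw [map_add] at hN
      exact eq_neg_of_add_eq_zero_left hN
    refine Par.nondeg hW hY 0 (hpow N 0 e he) fun z hz => ?_
    rw [h2, neg_mul, map_neg, neg_eq_zero]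
    exact Par.tr hW hY (b := 1 + 0) (by decide) (Par.mul hW hY (hpow N 1 o ho) hz)
  have h2 : e ∈ tateF W Y F := mem_tateF.2 ⟨⟨N, h1⟩, he⟩
  rw [mul_add, map_add, h e h2, zero_add]
  exact Par.tr hW hY (b := 0 + 1) (by decide) (Par.mul hW hY hx2 ho)

section two

variable {A B : Sch k} {a b : ℕ} (hA : 𝒱.mem A a) (hB : 𝒱.mem B b)
  {FA : W.coh A →ₐ[ℂ] W.coh A} {FB : W.coh B →ₐ[ℂ] W.coh B}
  {G : W.coh (A ⊗ B) →ₐ[ℂ] W.coh (A ⊗ B)}
  (hG₁ : ∀ x, G (W.pull (fst A B) x) = W.pull (fst A B) (FA x))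
  (hG₂ : ∀ y, G (W.pull (snd A B) y) = W.pull (snd A B) (FB y))

omit hW in
include hG₁ in
theorem pow_pull₁ (K : ℕ) : ∀ x : W.coh A, ((G.toLinearMap - 1) ^ K) (W.pull (fst A B) x)
    = W.pull (fst A B) (((FA.toLinearMap - 1) ^ K) x) := by
  induction K with
  | zero => intro x; rfl
  | succ K ih =>
    intro x
    rw [pow_succ, pow_succ, Module.End.mul_apply, Module.End.mul_apply, ← ih]
    congr 1
    rw [LinearMap.sub_apply, LinearMap.sub_apply, map_sub, AlgHom.toLinearMap_apply,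
      AlgHom.toLinearMap_apply, hG₁, Module.End.one_apply, Module.End.one_apply]

omit hW in
include hG₂ in
theorem pow_pull₂ (K : ℕ) : ∀ y : W.coh B, ((G.toLinearMap - 1) ^ K) (W.pull (snd A B) y)
    = W.pull (snd A B) (((FB.toLinearMap - 1) ^ K) y) := by
  induction K with
  | zero => intro x; rfl
  | succ K ih =>
    intro x
    rw [pow_succ, pow_succ, Module.End.mul_apply, Module.End.mul_apply, ← ih]
    congr 1
    rw [LinearMap.sub_apply, LinearMap.sub_apply, map_sub, AlgHom.toLinearMap_apply,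
      AlgHom.toLinearMap_apply, hG₂, Module.End.one_apply, Module.End.one_apply]

include hA hB hG₁ hG₂ in
theorem ext_mem {s : W.coh A} (hs : s ∈ tateF W A FA) {t : W.coh B} (ht : t ∈ tateF W B FB) :
    W.pull (fst A B) s * W.pull (snd A B) t ∈ tateF W (A ⊗ B) G := by
  have hAB := 𝒱.prod hA hB
  obtain ⟨⟨M, hM⟩, hs2⟩ := mem_tateF.1 hs
  obtain ⟨⟨N, hN⟩, ht2⟩ := mem_tateF.1 ht
  have h0 : W.pull (fst A B) s * W.pull (snd A B) t ∈ par W (A ⊗ B) (0 + 0) :=
    Par.mul hW hAB (Par.pull hW hAB hA _ hs2) (Par.pull hW hAB hB _ ht2)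
  refine mem_tateF.2 ⟨⟨M + N, ?_⟩, h0⟩
  refine mul_gen G (M + N) M N _ _ rfl ?_ ?_
  · rw [pow_pull₁ hG₁, hM, map_zero]
  · rw [pow_pull₂ hG₂, hN, map_zero]

include hA hB hG₁ hG₂ in
theorem cor_comm (hG : ∀ z, W.tr (A ⊗ B) (G z) = W.tr (A ⊗ B) z)
    (hFB : ∀ y, W.tr B (FB y) = W.tr B y) {z : W.coh (A ⊗ B)} (hz : z ∈ tot W (A ⊗ B))
    (hGz : G z = z) (x : W.coh A) : FB (cor W z x) = cor W z (FA x) := by
  rw [← sub_eq_zero]
  refine hW.duality hB _ fun y => ?_
  obtain ⟨y, rfl⟩ := surj hW hB FB hFB y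
  rw [sub_mul, map_sub, ← map_mul, hFB, cor_tr hW hA hB hz, cor_tr hW hA hB hz, bilC, bilC,
    ← hG₁, ← hG₂, sub_eq_zero]
  conv_rhs => rw [← hGz, ← map_mul, ← map_mul, hG]

include hA hB hG₁ hG₂ in
theorem cor_mem (hG : ∀ z, W.tr (A ⊗ B) (G z) = W.tr (A ⊗ B) z)
    (hFB : ∀ y, W.tr B (FB y) = W.tr B y) {z : W.coh (A ⊗ B)} (hz : z ∈ tot W (A ⊗ B))
    (hGz : G z = z) {t : W.coh A} (ht : t ∈ tateF W A FA) : cor W z t ∈ tateF W B FB := by
  have hAB := 𝒱.prod hA hB
  obtain ⟨⟨N, hN⟩, ht2⟩ := mem_tateF.1 ht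
  have h0 : W.pull (fst A B) t * z ∈ par W (A ⊗ B) (0 + 0) :=
    Par.mul hW hAB (Par.pull hW hAB hA _ ht2) (Par.tot_le hW hAB hz)
  have h1 : cor W z t ∈ par W B 0 := push_even hW hAB hB (snd A B) h0
  have h2 : ∀ (K : ℕ) (x : W.coh A), ((FB.toLinearMap - 1) ^ K) (cor W z x)
      = cor W z (((FA.toLinearMap - 1) ^ K) x) := by
    intro K
    induction K with
    | zero => intro x; rfl
    | succ K ih =>
      intro x
      rw [pow_succ, pow_succ, Module.End.mul_apply, Module.End.mul_apply, ← ih]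
      congr 1
      rw [LinearMap.sub_apply, LinearMap.sub_apply, map_sub, AlgHom.toLinearMap_apply,
        AlgHom.toLinearMap_apply, cor_comm hW hA hB hG₁ hG₂ hG hFB hz hGz, Module.End.one_apply,
        Module.End.one_apply]
  refine mem_tateF.2 ⟨⟨N, ?_⟩, h1⟩
  rw [h2, hN, map_zero]

end two

/-- compatibility with the first projection -/
theorem pr1 {X : Fin 1 → Sch k} {e : ℕ} (hX : ∀ a, 𝒱.mem (X a) e)
    {F : ∀ P : Prd 1, W.coh (P.obj X) →ₐ[ℂ] W.coh (P.obj X)} (hF : FrobeniusSystem W X F)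
    (P Q : Prd 1) (x : W.coh (P.obj X)) :
    F (.prod P Q) (W.pull (fst (P.obj X) (Q.obj X)) x)
      = W.pull (fst (P.obj X) (Q.obj X)) (F P x) := by
  have h1 : F (.prod P Q) (W.pull (fst (P.obj X) (Q.obj X)) x
      * W.pull (snd (P.obj X) (Q.obj X)) 1) = W.pull (fst (P.obj X) (Q.obj X)) (F P x)
      * W.pull (snd (P.obj X) (Q.obj X)) (F Q 1) := hF.ext P Q x 1
  rwa [map_one, map_one, map_one, mul_one, mul_one] at h1

/-- compatibility with the second projection -/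
theorem pr2 {X : Fin 1 → Sch k} {e : ℕ} (hX : ∀ a, 𝒱.mem (X a) e)
    {F : ∀ P : Prd 1, W.coh (P.obj X) →ₐ[ℂ] W.coh (P.obj X)} (hF : FrobeniusSystem W X F)
    (P Q : Prd 1) (y : W.coh (Q.obj X)) :
    F (.prod P Q) (W.pull (snd (P.obj X) (Q.obj X)) y)
      = W.pull (snd (P.obj X) (Q.obj X)) (F Q y) := by
  have h1 : F (.prod P Q) (W.pull (fst (P.obj X) (Q.obj X)) 1
      * W.pull (snd (P.obj X) (Q.obj X)) y) = W.pull (fst (P.obj X) (Q.obj X)) (F P 1)
      * W.pull (snd (P.obj X) (Q.obj X)) (F Q y) := hF.ext P Q 1 y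
  rwa [map_one, map_one, map_one, one_mul, one_mul] at h1

/-- **The generalised eigenspaces form a closed family.** -/
theorem closed {X : Fin 1 → Sch k} {e : ℕ} (hX : ∀ a, 𝒱.mem (X a) e)
    {F : ∀ P : Prd 1, W.coh (P.obj X) →ₐ[ℂ] W.coh (P.obj X)} (hF : FrobeniusSystem W X F) :
    ClosedFamily W X (fun P => tateF W (P.obj X) (F P)) ∧
      ExtClosed W X (fun P => tateF W (P.obj X) (F P)) := by
  have hP : ∀ P : Prd 1, 𝒱.mem (P.obj X) (P.dim fun _ => e) := fun P =>
    memP (X := X) (n := fun _ => e) hX P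
  have hc : ∀ (P Q : Prd 1) (l : ℕ) (a : W.coh (P.obj X ⊗ Q.obj X))
      (_ : a ∈ W.alg (P.obj X ⊗ Q.obj X) l) (t : W.coh (P.obj X))
      (_ : t ∈ tateF W (P.obj X) (F P)), cor W a t ∈ tateF W (Q.obj X) (F Q) :=
    fun P Q l a ha t ht =>
      cor_mem hW (hP P) (hP Q) (G := F (.prod P Q)) (pr1 hW hX hF P Q) (pr2 hW hX hF P Q)
        (hF.tr (.prod P Q)) (hF.tr Q) (alg_le_tot hW _ l ha) (hF.alg (.prod P Q) l a ha) ht
  refine ⟨⟨fun P => Submodule.span_le.2 ?_, fun P Q a ha t ht => ?_⟩, fun P Q s hs t ht => ?_⟩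
  · rintro z ⟨l, hz⟩
    refine mem_tateF.2 ⟨⟨1, ?_⟩, ?_⟩
    · rw [pow_one, LinearMap.sub_apply, AlgHom.toLinearMap_apply, Module.End.one_apply,
        hF.alg P l z hz, sub_self]
    · exact Par.tot_le hW (hP P) (alg_le_tot hW _ l hz)
  · change cor W (X := P.obj X) (Y := Q.obj X) a t ∈ tateF W (Q.obj X) (F Q)
    unfold algC at ha
    induction ha using Submodule.span_induction with
    | mem a ha =>
      obtain ⟨l, hl⟩ := ha
      exact hc P Q l a hl t ht
    | zero =>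
      rw [cor_zero, LinearMap.zero_apply]
      exact zero_mem _
    | add a b _ _ ha hb =>
      rw [cor_add, LinearMap.add_apply]
      exact add_mem ha hb
    | smul c a _ ha =>
      rw [cor_smul, LinearMap.smul_apply]
      exact Submodule.smul_mem _ c ha
  · exact ext_mem hW (hP P) (hP Q) (G := F (.prod P Q)) (pr1 hW hX hF P Q) (pr2 hW hX hF P Q) hs ht

end geo

end Frob52

end Pool.Agent.Lib.MP_361a6f_ag.FL
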