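import Pool.Agent.Lib.MP_361a6f_ag.FL.O.StatK52
import Pool.Agent.Lib.MP_361a6f_ag.FL.O.Frob52
import Pool.Agent.Lib.MP_361a6f_ag.FL.O.Diag52

/-!
# The eigenspaces of the Frobenius
-/

open CategoryTheory AlgebraicGeometry MonoidalCategory CartesianMonoidalCategory

universe u v w

set_option autoImplicit false
set_option linter.unusedSectionVars false
set_option linter.unusedVariables false
set_option maxHeartbeats 200000

namespace Pool.Agent.Lib.MP_361a6f_ag.FL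

open Pool.Agent.Lib.MP_361a6f_ag.H3 Pool.Agent.Lib.MP_361a6f_ag.SQ
  Pool.Agent.Lib.MP_361a6f_ag.PP

namespace FrobE

variable {k : Type u} [Field k] {W : CohomologyData.{u, 0, w} k ℂ} {𝒱 : VarietyClass k}

theorem mem_tateE {Y : Sch k} {F : W.coh Y →ₐ[ℂ] W.coh Y} {x : W.coh Y} :
    x ∈ tateE W Y F ↔ F x = x ∧ x ∈ par W Y 0 := by
  unfold tateE
  rw [Frob52.even_eq, Submodule.mem_inf, Module.End.mem_eigenspace_iff, one_smul]
  rfl

theorem le_tateF {Y : Sch k} {F : W.coh Y →ₐ[ℂ] W.coh Y} : tateE W Y F ≤ tateF W Y F := by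
  intro x hx
  obtain ⟨h1, h2⟩ := mem_tateE.1 hx
  refine Frob52.mem_tateF.2 ⟨⟨1, ?_⟩, h2⟩
  rw [pow_one, LinearMap.sub_apply, AlgHom.toLinearMap_apply, Module.End.one_apply, h1, sub_self]

/-- exterior products -/
theorem ext_mem (hW : IsWeilCohomology W 𝒱) {A B : Sch k} {a b : ℕ} (hA : 𝒱.mem A a)
    (hB : 𝒱.mem B b) {FA : W.coh A →ₐ[ℂ] W.coh A} {FB : W.coh B →ₐ[ℂ] W.coh B}
    {G : W.coh (A ⊗ B) →ₐ[ℂ] W.coh (A ⊗ B)}
    (hG : ∀ x y, G (W.pull (fst A B) x * W.pull (snd A B) y) =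
      W.pull (fst A B) (FA x) * W.pull (snd A B) (FB y))
    {s : W.coh A} (hs : s ∈ tateE W A FA) {t : W.coh B} (ht : t ∈ tateE W B FB) :
    W.pull (fst A B) s * W.pull (snd A B) t ∈ tateE W (A ⊗ B) G := by
  have hAB := 𝒱.prod hA hB
  obtain ⟨h1, hs2⟩ := mem_tateE.1 hs
  obtain ⟨h3, ht2⟩ := mem_tateE.1 ht
  have h0 : W.pull (fst A B) s * W.pull (snd A B) t ∈ par W (A ⊗ B) (0 + 0) :=
    Par.mul hW hAB (Par.pull hW hAB hA _ hs2) (Par.pull hW hAB hB _ ht2)
  refine mem_tateE.2 ⟨?_, h0⟩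
  rw [hG, h1, h3]

/-- **The eigenspaces form a closed family.** -/
theorem closed (hW : IsWeilCohomology W 𝒱) {X : Fin 1 → Sch k} {e : ℕ} (hX : ∀ a, 𝒱.mem (X a) e)
    {F : ∀ P : Prd 1, W.coh (P.obj X) →ₐ[ℂ] W.coh (P.obj X)} (hF : FrobeniusSystem W X F) :
    ClosedFamily W X (fun P => tateE W (P.obj X) (F P)) ∧
      ExtClosed W X (fun P => tateE W (P.obj X) (F P)) := by
  have hP : ∀ P : Prd 1, 𝒱.mem (P.obj X) (P.dim fun _ => e) := fun P =>
    memP (X := X) (n := fun _ => e) hX P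
  have hc : ∀ (P Q : Prd 1) (l : ℕ) (a : W.coh (P.obj X ⊗ Q.obj X))
      (_ : a ∈ W.alg (P.obj X ⊗ Q.obj X) l) (t : W.coh (P.obj X))
      (_ : t ∈ tateE W (P.obj X) (F P)), cor W a t ∈ tateE W (Q.obj X) (F Q) := by
    intro P Q l a ha t ht
    obtain ⟨h1, h2⟩ := mem_tateE.1 ht
    have hAB := 𝒱.prod (hP P) (hP Q)
    have ha' := alg_le_tot hW (P.obj X ⊗ Q.obj X) l ha
    have h0 : W.pull (fst (P.obj X) (Q.obj X)) t * a ∈ par W (P.obj X ⊗ Q.obj X) (0 + 0) :=
      Par.mul hW hAB (Par.pull hW hAB (hP P) _ h2) (Par.tot_le hW hAB ha')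
    refine mem_tateE.2 ⟨?_, Frob52.push_even hW hAB (hP Q) (snd (P.obj X) (Q.obj X)) h0⟩
    rw [Frob52.cor_comm hW (hP P) (hP Q) (G := F (.prod P Q)) (Frob52.pr1 hW hX hF P Q)
      (Frob52.pr2 hW hX hF P Q) (hF.tr (.prod P Q)) (hF.tr Q) ha' (hF.alg (.prod P Q) l a ha), h1]
  refine ⟨⟨fun P => Submodule.span_le.2 ?_, fun P Q a ha t ht => ?_⟩, fun P Q s hs t ht => ?_⟩
  · rintro z ⟨l, hz⟩
    exact mem_tateE.2 ⟨hF.alg P l z hz, Par.tot_le hW (hP P) (alg_le_tot hW _ l hz)⟩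
  · change cor W (X := P.obj X) (Y := Q.obj X) a t ∈ tateE W (Q.obj X) (F Q)
    unfold algC at ha
    induction ha using Submodule.span_induction with
    | mem a ha =>
      obtain ⟨l, hl⟩ := ha
      exact hc P Q l a hl t ht
    | zero =>
      rw [cor_zero, LinearMap.zero_apply]
      exact zero_mem _
    | add a b _ _ ha hb =>
      rw [cor_add, LinearMap.add_apply]
      exact add_mem ha hb
    | smul c a _ ha =>
      rw [cor_smul, LinearMap.smul_apply]
      exact Submodule.smul_mem _ c ha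
  · exact ext_mem hW (hP P) (hP Q) (G := F (.prod P Q)) (hF.ext P Q) hs ht

/-- if the form is nondegenerate on the eigenspace then there is no nilpotent part -/
theorem no_nilpotent {Y : Sch k} {F : W.coh Y →ₐ[ℂ] W.coh Y}
    (htr : ∀ x, W.tr Y (F x) = W.tr Y x) (hdeg : ∀ b, ∀ z ∈ par W Y b, F z ∈ par W Y b)
    (hnd : ∀ x ∈ tateE W Y F, (∀ y ∈ tateE W Y F, W.tr Y (x * y) = 0) → x = 0)
    {z : W.coh Y} (hz : z ∈ tateF W Y F) : F z = z := by
  obtain ⟨⟨N, hN⟩, hz2⟩ := Frob52.mem_tateF.1 hz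
  have hsub : ∀ x, (F.toLinearMap - 1) x = F x - x := fun x => rfl
  -- two steps
  have h2 : ∀ x ∈ par W Y 0, (F.toLinearMap - 1) ((F.toLinearMap - 1) x) = 0 →
      (F.toLinearMap - 1) x = 0 := by
    intro x hx h
    refine hnd _ (mem_tateE.2 ⟨?_, ?_⟩) fun y hy => ?_
    · have h3 : F ((F.toLinearMap - 1) x) - (F.toLinearMap - 1) x = 0 := h
      exact sub_eq_zero.1 h3
    · rw [hsub]
      exact sub_mem (hdeg 0 x hx) hx
    · obtain ⟨hy1, -⟩ := mem_tateE.1 hy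
      rw [hsub, sub_mul, map_sub]
      have h3 : W.tr Y (F x * y) = W.tr Y (x * y) := by
        conv_lhs => rw [← hy1, ← map_mul, htr]
      rw [h3, sub_self]
  have hpow : ∀ (K : ℕ), ((F.toLinearMap - 1) ^ K) z ∈ par W Y 0 := by
    intro K
    induction K with
    | zero => exact hz2
    | succ K ih =>
      rw [pow_succ']
      change (F.toLinearMap - 1) (((F.toLinearMap - 1) ^ K) z) ∈ par W Y 0
      rw [hsub]
      exact sub_mem (hdeg 0 _ ih) ih
  have key : ∀ K : ℕ, ((F.toLinearMap - 1) ^ (K + 1)) z = 0 →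
      (F.toLinearMap - 1) z = 0 := by
    intro K
    induction K with
    | zero => exact fun h => h
    | succ K ih =>
      intro h
      apply ih
      have h3 : (F.toLinearMap - 1) ((F.toLinearMap - 1) (((F.toLinearMap - 1) ^ K) z)) = 0 := by
        rw [pow_succ', pow_succ'] at h
        exact h
      have h4 := h2 _ (hpow K) h3
      rw [pow_succ']
      exact h4
  have h4 : (F.toLinearMap - 1) z = 0 := by
    rcases N with _ | N
    · have h5 : z = 0 := hN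
      rw [h5, map_zero]
    · exact key N hN
  have h5 : F z - z = 0 := h4
  exact sub_eq_zero.1 h5

/-- the Frobenius is diagonalisable if the form is nondegenerate on the eigenspace of the square -/
theorem diag (hW : IsWeilCohomology W 𝒱) {X : Fin 1 → Sch k} {e : ℕ} (hX : 𝒱.mem (X 0) e)
    {F : ∀ P : Prd 1, W.coh (P.obj X) →ₐ[ℂ] W.coh (P.obj X)} (hF : FrobeniusSystem W X F)
    (h : NondegOn W (tateE W ((Prd.prod (.leaf 0) (.leaf 0) : Prd 1).obj X)
      (F (.prod (.leaf 0) (.leaf 0))))) : Diagonalisable W (F (.leaf 0)) := by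
  have hX' : ∀ a, 𝒱.mem (X a) e := fun a => by
    rw [Subsingleton.elim a 0]
    exact hX
  have hpar : ∀ b, ∀ z ∈ par W ((Prd.prod (.leaf 0) (.leaf 0) : Prd 1).obj X) b,
      F (.prod (.leaf 0) (.leaf 0)) z ∈
        par W ((Prd.prod (.leaf 0) (.leaf 0) : Prd 1).obj X) b := by
    intro b z hz
    refine Par.ind hz (P := fun z => F (.prod (.leaf 0) (.leaf 0)) z ∈
      par W ((Prd.prod (.leaf 0) (.leaf 0) : Prd 1).obj X) b) ?_ ?_ ?_
    · intro i hi z hz
      exact Par.mem_of hi (hF.deg (.prod (.leaf 0) (.leaf 0)) i z hz)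
    · rw [map_zero]; exact zero_mem _
    · intro z z' h h'
      rw [map_add]; exact add_mem h h'
  have key : ∀ z : W.coh ((Prd.prod (.leaf 0) (.leaf 0) : Prd 1).obj X),
      z ∈ tateF W ((Prd.prod (.leaf 0) (.leaf 0) : Prd 1).obj X) (F (.prod (.leaf 0) (.leaf 0))) →
      F (.prod (.leaf 0) (.leaf 0)) z = z := fun z hz =>
    no_nilpotent (hF.tr (.prod (.leaf 0) (.leaf 0))) hpar h hz
  exact Diag52.diag hW hX (G := F (.prod (.leaf 0) (.leaf 0)))
    (Frob52.pr1 hW hX' hF (.leaf 0) (.leaf 0)) (Frob52.pr2 hW hX' hF (.leaf 0) (.leaf 0))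
    (hF.tr (.leaf 0)) (fun i x hx => hF.deg (.leaf 0) i x hx) fun z hz => key z hz

end FrobE

end Pool.Agent.Lib.MP_361a6f_ag.FL
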