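import Pool.Agent.Lib.MP_361a6f_ag.FL.O.Defs
import Pool.Agent.Lib.MP_361a6f_ag.FL.O.Uni
import Pool.Agent.Lib.MP_361a6f_ag.FL.O.Exp18

/-!
# The zero-one laws, row TRQ

`|∫ ⟨c, x c⟩ (tr x) ^ n dx| ≥ 1/2 ∫ (tr x) ^ n dx` for every unit tensor `c` of length `l` and
every `n ≥ n₀(d, l)`, uniformly in the group, if the group has a nonzero fixed vector.
-/

open Filter Topology MeasureTheory

set_option autoImplicit false
set_option linter.unusedSectionVars false

namespace Pool.Agent.Lib.MP_361a6f_ag.FL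

namespace OTrq

open Exp18

variable {I Λ β : Type} [Fintype I] [DecidableEq I] [DecidableEq Λ] [Fintype β] {lb : β → ℕ}
  {D : Dat I Λ} {b : Tup I lb}

/-- the hermitian form as an inner product -/
theorem hT_inner {L : ℕ} (u v : Ten I L) :
    hT u v = inner ℂ (WithLp.toLp 2 v : EuclideanSpace ℂ (Fin L → I)) (WithLp.toLp 2 u) := by
  unfold hT
  rw [EuclideanSpace.inner_eq_star_dotProduct]
  rfl

theorem norm_hT_le {L : ℕ} (u v : Ten I L) : ‖hT u v‖ ≤ nn u * nn v := by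
  rw [hT_inner, mul_comm]
  exact norm_inner_le_norm _ _

theorem nn_one {L : ℕ} {c : Ten I L} (hc : hT c c = 1) : nn c = 1 := by
  have h1 := hc
  rw [hT_inner, inner_self_eq_norm_sq_to_K] at h1
  have h2 : nn c ^ 2 = 1 := by
    have h3 : (((nn c ^ 2 : ℝ)) : ℂ) = ((1 : ℝ) : ℂ) := by
      rw [Complex.ofReal_pow, Complex.ofReal_one]
      exact h1
    exact Complex.ofReal_injective h3
  nlinarith [nn_nonneg c]

/-- `|⟨c, y c⟩ - 1| ≤ l |y - 1|` -/
theorem coef_sub (a1 : Alg1) {l : ℕ} {c : Ten I l} (hc : hT c c = 1) {y : Matrix I I ℂ}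
    (hy : y.conjTranspose * y = 1) : ‖hT c (gT y c) - 1‖ ≤ l * hs y := by
  have h1 : hT c (gT y c) - 1 = hT c (gT y c - c) := by
    rw [← hc]
    unfold hT
    rw [← Finset.sum_sub_distrib]
    refine Finset.sum_congr rfl fun w _ => ?_
    rw [Pi.sub_apply, map_sub]
    ring
  rw [h1]
  refine (norm_hT_le _ _).trans ?_
  have h2 := tele hy l c
  rw [nn_one hc, mul_one] at h2
  rw [nn_one hc, one_mul]
  exact h2

/-- `|⟨c, y c⟩ - 1| ≤ 2` -/
theorem coef_two (a1 : Alg1) {l : ℕ} {c : Ten I l} (hc : hT c c = 1) {y : Matrix I I ℂ}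
    (hy : y.conjTranspose * y = 1) : ‖hT c (gT y c) - 1‖ ≤ 2 := by
  have h1 : hT (gT y c) (gT y c) = 1 := by
    rw [a1.hT_gT, ← a1.gT_mul, hy, a1.gT_one, hc]
  have h2 := norm_hT_le c (gT y c)
  rw [nn_one hc, nn_one h1] at h2
  have h3 := norm_sub_le (hT c (gT y c)) 1
  rw [norm_one] at h3
  linarith

/-- the pointwise estimate -/
theorem point (a1 : Alg1) {l : ℕ} {c : Ten I l} (hc : hT c c = 1) {y : Matrix I I ℂ}
    (hy : y.conjTranspose * y = 1) {v : Ten I 1} (hv : v ≠ 0) (hf : gT y v = v)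
    {η : ℝ} (hη : 0 < η) (hη1 : η ≤ 1 / 4) (hlη : l * η ≤ 1 / 4)
    (hd : (1 : ℝ) ≤ Fintype.card I) (n : ℕ) :
    ‖hT c (gT y c) - 1‖ * |y.trace.re| ^ n ≤
      1 / 4 * y.trace.re ^ n + 9 / 4 * ((Fintype.card I : ℝ) - η ^ 2 / 2) ^ n := by
  set χ : ℝ := y.trace.re with hχ
  set ρ : ℝ := (Fintype.card I : ℝ) - η ^ 2 / 2 with hρ
  have hη2 : η ^ 2 ≤ 1 / 16 := by nlinarith
  have hρ0 : 0 ≤ ρ := by rw [hρ]; linarith
  have h1 := hs_trace hy
  have h0 := hs_nonneg y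
  by_cases hB : hs y < η
  · have h2 : hs y ^ 2 ≤ 1 / 16 := by nlinarith
    have h3 : 0 ≤ χ := by rw [hχ]; linarith
    have h4 : ‖hT c (gT y c) - 1‖ ≤ 1 / 4 := by
      refine (coef_sub a1 hc hy).trans (le_trans ?_ hlη)
      exact mul_le_mul_of_nonneg_left hB.le (Nat.cast_nonneg l)
    rw [abs_of_nonneg h3]
    have h5 : ‖hT c (gT y c) - 1‖ * χ ^ n ≤ 1 / 4 * χ ^ n :=
      mul_le_mul_of_nonneg_right h4 (pow_nonneg h3 n)
    have h6 : 0 ≤ ρ ^ n := pow_nonneg hρ0 n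
    linarith
  · push Not at hB
    have h2 : η ^ 2 ≤ hs y ^ 2 := pow_le_pow_left₀ hη.le hB 2
    have h3 : χ ≤ ρ := by rw [hρ]; linarith
    have h4 := le_trace hy hv hf
    have h5 : -ρ ≤ χ := by rw [hρ]; linarith
    have h6 : |χ| ≤ ρ := abs_le.2 ⟨h5, h3⟩
    have h7 : |χ| ^ n ≤ ρ ^ n := pow_le_pow_left₀ (abs_nonneg _) h6 n
    have h8 : -(ρ ^ n) ≤ χ ^ n := by
      have h9 := neg_abs_le (χ ^ n)
      rw [abs_pow] at h9
      linarith
    have h9 : ‖hT c (gT y c) - 1‖ * |χ| ^ n ≤ 2 * ρ ^ n :=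
      mul_le_mul (coef_two a1 hc hy) h7 (pow_nonneg (abs_nonneg _) n) (by norm_num)
    linarith

/-- the integrated estimate -/
theorem integ_le (a1 : Alg1) (H : HMb D b) {l : ℕ} {c : Ten I l} (hc : hT c c = 1)
    {v : Ten I 1} (hv : v ≠ 0) (hf : v ∈ OL.fixS H a1 1)
    {η : ℝ} (hη : 0 < η) (hη1 : η ≤ 1 / 4) (hlη : l * η ≤ 1 / 4)
    (hd : (1 : ℝ) ≤ Fintype.card I) (n : ℕ) :
    3 / 4 * (Module.finrank ℂ (OL.fixS H a1 n) : ℝ) ≤
      ‖∫ x, hT c (gT (H.mat x) c) * (H.mat x).trace ^ n ∂H.μ‖ +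
        9 / 4 * ((Fintype.card I : ℝ) - η ^ 2 / 2) ^ n := by
  set ρ : ℝ := (Fintype.card I : ℝ) - η ^ 2 / 2 with hρ
  have htr : ∀ x : H.K, (H.mat x).trace = ((H.mat x).trace.re : ℂ) := fun x =>
    OL.trace_eq_re (H.mem x).1
  have hcχ : Continuous fun x : H.K => (H.mat x).trace.re :=
    Complex.continuous_re.comp (H.cont_mat.matrix_trace)
  have hct : Continuous fun x : H.K => (H.mat x).trace := H.cont_mat.matrix_trace
  have hcw : Continuous fun x : H.K => hT c (gT (H.mat x) c) := by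
    have h1 : Continuous fun x : H.K => gT (H.mat x) c :=
      a1.gT_cont.comp (H.cont_mat.prodMk continuous_const)
    unfold hT
    refine continuous_finsetSum _ fun w _ => continuous_const.mul ?_
    exact Complex.continuous_conj.comp ((continuous_apply w).comp h1)
  have hN := OL.finrank_fixS H a1 n
  have hNre : ∫ x, (H.mat x).trace.re ^ n ∂H.μ = (Module.finrank ℂ (OL.fixS H a1 n) : ℝ) := by
    have h1 : ∫ x, (H.mat x).trace ^ n ∂H.μ =
        ((∫ x, (H.mat x).trace.re ^ n ∂H.μ : ℝ) : ℂ) := by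
      rw [← integral_complex_ofReal]
      refine integral_congr_ae (Eventually.of_forall fun x => ?_)
      show (H.mat x).trace ^ n = (((H.mat x).trace.re ^ n : ℝ) : ℂ)
      rw [Complex.ofReal_pow, ← htr]
    rw [h1] at hN
    exact_mod_cast hN.symm
  have h1 : ∫ x, hT c (gT (H.mat x) c) * (H.mat x).trace ^ n ∂H.μ
      - (Module.finrank ℂ (OL.fixS H a1 n) : ℂ) =
      ∫ x, (hT c (gT (H.mat x) c) - 1) * (H.mat x).trace ^ n ∂H.μ := by
    have i1 : Integrable (fun x => hT c (gT (H.mat x) c) * (H.mat x).trace ^ n) H.μ :=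
      OL.integ H (hcw.mul (hct.pow n))
    have i2 : Integrable (fun x => (H.mat x).trace ^ n) H.μ := OL.integ H (hct.pow n)
    rw [hN, ← integral_sub i1 i2]
    refine integral_congr_ae (Eventually.of_forall fun x => ?_)
    show _ = _
    simp only
    ring
  have h2 : ‖∫ x, (hT c (gT (H.mat x) c) - 1) * (H.mat x).trace ^ n ∂H.μ‖ ≤
      ∫ x, (1 / 4 * (H.mat x).trace.re ^ n + 9 / 4 * ρ ^ n) ∂H.μ := by
    refine (norm_integral_le_integral_norm _).trans ?_
    refine integral_mono ?_ ?_ fun x => ?_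
    · exact (OL.integ H ((hcw.sub continuous_const).mul (hct.pow n))).norm
    · exact OL.integ H ((continuous_const.mul (hcχ.pow n)).add continuous_const)
    · have h3 := point a1 hc (H.mem x).1.2 hv (hf x) hη hη1 hlη hd n
      show ‖(hT c (gT (H.mat x) c) - 1) * (H.mat x).trace ^ n‖ ≤ _
      rw [norm_mul, norm_pow, htr x, Complex.norm_real, Real.norm_eq_abs, Complex.ofReal_re]
      exact h3
  have h3 : ∫ x, (1 / 4 * (H.mat x).trace.re ^ n + 9 / 4 * ρ ^ n) ∂H.μ =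
      1 / 4 * (Module.finrank ℂ (OL.fixS H a1 n) : ℝ) + 9 / 4 * ρ ^ n := by
    have i1 : Integrable (fun x => 1 / 4 * (H.mat x).trace.re ^ n) H.μ :=
      OL.integ H (continuous_const.mul (hcχ.pow n))
    rw [integral_add i1 (integrable_const _), integral_const_mul, hNre]
    simp
  rw [h3, ← h1] at h2
  have h4 := norm_sub_norm_le (Module.finrank ℂ (OL.fixS H a1 n) : ℂ)
    (∫ x, hT c (gT (H.mat x) c) * (H.mat x).trace ^ n ∂H.μ)
  rw [norm_sub_rev, Complex.norm_natCast] at h4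
  linarith

/-- **Row TRQ**, uniform in all data of the dimension `d`. -/
theorem trqU (gro : OL.GroU) : OL.TrqU := by
  intro a1 d l
  rcases Nat.eq_zero_or_pos d with rfl | hd
  · refine ⟨0, ?_⟩
    intro I Λ β _ _ _ _ D hI lb b H v hv
    exfalso
    have : IsEmpty I := Fintype.card_eq_zero_iff.1 hI
    exact hv (funext fun w => (this.false (w 0)).elim)
  have hd1 : (1 : ℝ) ≤ d := by exact_mod_cast hd
  set η : ℝ := 1 / (4 * ((l : ℝ) + 1)) with hη
  have hl0 : (0 : ℝ) ≤ l := Nat.cast_nonneg l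
  have hη0 : 0 < η := by rw [hη]; positivity
  have hη1 : η ≤ 1 / 4 := by
    rw [hη]
    exact one_div_le_one_div_of_le (by norm_num) (by linarith)
  have hlη : l * η ≤ 1 / 4 := by
    rw [hη, mul_one_div, div_le_div_iff₀ (by positivity) (by norm_num)]
    linarith
  have hη2 : 0 < η ^ 2 := by positivity
  have hη3 : η ^ 2 ≤ 1 / 16 := by nlinarith
  obtain ⟨C, hC, gr⟩ := gro a1 d ((d : ℝ) - η ^ 2 / 4) (by linarith) (by linarith)
  set ρ : ℝ := (d : ℝ) - η ^ 2 / 2 with hρ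
  set q : ℝ := (d : ℝ) - η ^ 2 / 4 with hq
  have hρ0 : 0 < ρ := by rw [hρ]; linarith
  have hq0 : 0 < q := by rw [hq]; linarith
  have hρq : ρ / q < 1 := by
    rw [div_lt_one hq0, hρ, hq]
    linarith
  obtain ⟨n₀, hn₀⟩ := eventually_atTop.1
    ((tendsto_pow_atTop_nhds_zero_of_lt_one (by positivity) hρq).eventually
      (gt_mem_nhds (show 0 < C / 9 by positivity)))
  refine ⟨n₀, ?_⟩
  intro I Λ β _ _ _ _ D hI lb b H v hv hf c hc n hn
  have h1 := integ_le a1 H hc hv hf hη0 hη1 hlη (by rw [hI]; exact hd1) n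
  have h2 := gr D hI H v hv hf n
  have h3 := hn₀ n hn
  rw [hI] at h1
  have h4 : ρ ^ n ≤ (Module.finrank ℂ (OL.fixS H a1 n) : ℝ) / 9 := by
    have h5 : ρ ^ n = (ρ / q) ^ n * q ^ n := by
      rw [div_pow]
      field_simp
    have h6 : (ρ / q) ^ n * q ^ n ≤ C / 9 * q ^ n :=
      mul_le_mul_of_nonneg_right h3.le (pow_nonneg hq0.le n)
    rw [h5]
    linarith
  linarith

end OTrq

end Pool.Agent.Lib.MP_361a6f_ag.FL
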