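import Pool.Agent.Lib.MP_361a6f_ag.FL.O.Uni
import Pool.Agent.Lib.MP_361a6f_ag.FL.O.Tra

/-!
# The growth of the dimension of the space of the fixed tensors, uniformly in the group
-/

open Filter Topology MeasureTheory

set_option autoImplicit false
set_option linter.unusedSectionVars false

namespace Pool.Agent.Lib.MP_361a6f_ag.FL

namespace OL

variable {I Λ : Type} [Fintype I] [DecidableEq I] [DecidableEq Λ]

section one

variable {β : Type} [Fintype β] {lb : β → ℕ} {D : Dat I Λ} {b : Tup I lb} (H : HMb D b)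
  (a1 : Alg1)

theorem cont_trace_re : Continuous fun x : H.K => (H.mat x).trace.re :=
  Complex.continuous_re.comp (H.cont_mat.matrix_trace)

theorem integral_trace_pow (L : ℕ) :
    ∫ x, (H.mat x).trace ^ L ∂H.μ = ((∫ x, (H.mat x).trace.re ^ L ∂H.μ : ℝ) : ℂ) := by
  rw [← integral_complex_ofReal]
  refine integral_congr_ae (Eventually.of_forall fun x => ?_)
  show (H.mat x).trace ^ L = (((H.mat x).trace.re ^ L : ℝ) : ℂ)
  rw [Complex.ofReal_pow, ← trace_eq_re (H.mem x).1]

/-- the dimension of the space of the fixed tensors is the integral of a power of the trace -/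
theorem finrank_fixS_re (L : ℕ) :
    (Module.finrank ℂ (fixS H a1 L) : ℝ) = ∫ x, (H.mat x).trace.re ^ L ∂H.μ := by
  have h1 := finrank_fixS H a1 L
  rw [integral_trace_pow] at h1
  exact_mod_cast h1

include a1 in
theorem integral_re_nonneg (L : ℕ) : 0 ≤ ∫ x, (H.mat x).trace.re ^ L ∂H.μ := by
  rw [← finrank_fixS_re H a1]
  exact Nat.cast_nonneg _

/-- the product with a fixed vector is injective -/
theorem finrank_fixS_le (a2 : ∀ {p q : ℕ} (g : Matrix I I ℂ) (u : Ten I p) (v : Ten I q),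
    gT g (outer u v) = outer (gT g u) (gT g v)) {v : Ten I 1} (hv : v ≠ 0)
    (hfix : v ∈ fixS H a1 1) (L : ℕ) :
    Module.finrank ℂ (fixS H a1 L) ≤ Module.finrank ℂ (fixS H a1 (L + 1)) := by
  let f : fixS H a1 L →ₗ[ℂ] fixS H a1 (L + 1) :=
    { toFun := fun u => ⟨outer u.1 v, fun x => by rw [a2, u.2 x, hfix x]⟩
      map_add' := fun u u' => Subtype.ext (by
        funext w
        show (u.1 + u'.1) _ * v _ = u.1 _ * v _ + u'.1 _ * v _
        rw [Pi.add_apply, add_mul])
      map_smul' := fun c u => Subtype.ext (by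
        funext w
        show (c • u.1) _ * v _ = c * (u.1 _ * v _)
        rw [Pi.smul_apply, smul_eq_mul, mul_assoc]) }
  refine LinearMap.finrank_le_finrank_of_injective (f := f) fun u u' h => Subtype.ext ?_
  obtain ⟨w0, hw0⟩ := Function.ne_iff.1 hv
  funext w
  have h1 : outer u.1 v = outer u'.1 v := congrArg Subtype.val h
  have h2 := congrFun h1 (Fin.append w w0)
  simp only [outer, Fin.append_left, Fin.append_right] at h2
  exact mul_right_cancel₀ hw0 h2

theorem finrank_pos' (a2 : ∀ {p q : ℕ} (g : Matrix I I ℂ) (u : Ten I p) (v : Ten I q),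
    gT g (outer u v) = outer (gT g u) (gT g v)) {v : Ten I 1} (hv : v ≠ 0)
    (hfix : v ∈ fixS H a1 1) (L : ℕ) : 1 ≤ Module.finrank ℂ (fixS H a1 L) := by
  induction L with
  | zero =>
    have h1 := finrank_fixS_re H a1 0
    simp only [pow_zero] at h1
    have h2 : ∫ _x : H.K, (1 : ℝ) ∂H.μ = 1 := by simp
    rw [h2] at h1
    have h3 : Module.finrank ℂ (fixS H a1 0) = 1 := by exact_mod_cast h1
    exact h3.ge
  | succ L ih => exact ih.trans (finrank_fixS_le H a1 a2 hv hfix L)

/-- the even powers -/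
theorem even_le {t : ℝ} (ht : 0 ≤ t) {n : ℕ} (hn : Even n) :
    (H.μ {x | t < (H.mat x).trace.re}).toReal * t ^ n ≤ ∫ x, (H.mat x).trace.re ^ n ∂H.μ := by
  have hS : MeasurableSet {x : H.K | t < (H.mat x).trace.re} :=
    (isOpen_lt continuous_const (cont_trace_re H)).measurableSet
  have hint : Integrable (fun x => (H.mat x).trace.re ^ n) H.μ :=
    integ H ((cont_trace_re H).pow n)
  have h1 : ∫ x in {x : H.K | t < (H.mat x).trace.re}, (H.mat x).trace.re ^ n ∂H.μ ≤
      ∫ x, (H.mat x).trace.re ^ n ∂H.μ :=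
    setIntegral_le_integral hint (Eventually.of_forall fun x => hn.pow_nonneg _)
  refine le_trans ?_ h1
  have h2 : ∫ _x in {x : H.K | t < (H.mat x).trace.re}, t ^ n ∂H.μ =
      (H.μ {x | t < (H.mat x).trace.re}).toReal * t ^ n := by
    rw [setIntegral_const, smul_eq_mul]
    rfl
  rw [← h2]
  refine setIntegral_mono_on (integrableOn_const) hint.integrableOn hS fun x hx => ?_
  exact pow_le_pow_left₀ ht (le_of_lt hx) n

end one

/-- the measure of the set where the trace is large -/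
theorem uni_trace (D : Dat I Λ) {η : ℝ} (hη : 0 < η) :
    ∃ c : ℝ, 0 < c ∧ ∀ (β : Type) (_ : Fintype β) (lb : β → ℕ) (b : Tup I lb) (H : HMb D b),
      c ≤ (H.μ {x | (Fintype.card I : ℝ) - η < (H.mat x).trace.re}).toReal := by
  refine uni D {g | (Fintype.card I : ℝ) - η < g.trace.re} ?_
  refine (isOpen_lt continuous_const
    (Complex.continuous_re.comp (continuous_id.matrix_trace))).mem_nhds ?_
  show (Fintype.card I : ℝ) - η < ((1 : Matrix I I ℂ).trace).re
  rw [Matrix.trace_one, Complex.natCast_re]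
  linarith

/-- **Growth**, uniformly in the group: the number of the fixed tensors of length `n` is at least
`C (d - η) ^ n`. -/
theorem growth (a1 : Alg1) (a2 : ∀ {p q : ℕ} (g : Matrix I I ℂ) (u : Ten I p) (v : Ten I q),
    gT g (outer u v) = outer (gT g u) (gT g v)) (D : Dat I Λ) {η : ℝ} (hη : 0 < η)
    (hη' : η ≤ Fintype.card I) :
    ∃ C : ℝ, 0 < C ∧ ∀ (β : Type) (_ : Fintype β) (lb : β → ℕ) (b : Tup I lb) (H : HMb D b)
      (v : Ten I 1), v ≠ 0 → v ∈ fixS H a1 1 → ∀ n : ℕ,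
      C * ((Fintype.card I : ℝ) - η) ^ n ≤ Module.finrank ℂ (fixS H a1 n) ∧
      C * ((Fintype.card I : ℝ) - η) ^ n ≤ ∫ x, (H.mat x).trace.re ^ n ∂H.μ := by
  obtain ⟨c, hc, hcc⟩ := uni_trace D hη
  have hd : (0 : ℝ) ≤ Fintype.card I := Nat.cast_nonneg _
  have ht : 0 ≤ (Fintype.card I : ℝ) - η := by linarith
  refine ⟨c / ((Fintype.card I : ℝ) + 1), by positivity, ?_⟩
  intro β _ lb b H v hv hfix n
  have key : c / ((Fintype.card I : ℝ) + 1) * ((Fintype.card I : ℝ) - η) ^ n ≤
      Module.finrank ℂ (fixS H a1 n) := by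
    have h1 := hcc β inferInstance lb b H
    have heven : ∀ m : ℕ, Even m → c * ((Fintype.card I : ℝ) - η) ^ m ≤
        Module.finrank ℂ (fixS H a1 m) := by
      intro m hm
      rw [finrank_fixS_re H a1]
      exact (mul_le_mul_of_nonneg_right h1 (by positivity)).trans (even_le H ht hm)
    rcases Nat.even_or_odd n with hn | hn
    · refine le_trans ?_ (heven n hn)
      refine mul_le_mul_of_nonneg_right ?_ (by positivity)
      exact div_le_self hc.le (by linarith)
    · obtain ⟨m, rfl⟩ := hn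
      have h2 := heven (2 * m) (even_two_mul m)
      have h3 : (Module.finrank ℂ (fixS H a1 (2 * m)) : ℝ) ≤
          Module.finrank ℂ (fixS H a1 (2 * m + 1)) := by
        exact_mod_cast finrank_fixS_le H a1 a2 hv hfix (2 * m)
      refine le_trans ?_ (h2.trans h3)
      rw [pow_succ, div_mul_eq_mul_div, div_le_iff₀ (by positivity), mul_assoc]
      refine mul_le_mul_of_nonneg_left ?_ hc.le
      refine mul_le_mul_of_nonneg_left ?_ (by positivity)
      linarith
  refine ⟨key, ?_⟩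
  rw [← finrank_fixS_re H a1]
  exact key

/-- Every `ρ ^ n` with `ρ < d` is exponentially smaller than the number of the fixed tensors of
length `n`, uniformly in the group. -/
theorem growth_exp (a1 : Alg1) (a2 : ∀ {p q : ℕ} (g : Matrix I I ℂ) (u : Ten I p) (v : Ten I q),
    gT g (outer u v) = outer (gT g u) (gT g v)) (D : Dat I Λ) {ρ : ℝ} (hρ : 0 ≤ ρ)
    (hρ' : ρ < Fintype.card I) :
    ∃ C σ : ℝ, 0 < C ∧ 0 ≤ σ ∧ σ < 1 ∧ ∀ (β : Type) (_ : Fintype β) (lb : β → ℕ) (b : Tup I lb)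
      (H : HMb D b) (v : Ten I 1), v ≠ 0 → v ∈ fixS H a1 1 → ∀ n : ℕ,
      ρ ^ n ≤ C * σ ^ n * Module.finrank ℂ (fixS H a1 n) := by
  obtain ⟨c, hc, hcc⟩ := growth a1 a2 D (η := ((Fintype.card I : ℝ) - ρ) / 2) (by linarith)
    (by linarith)
  have ht : (Fintype.card I : ℝ) - ((Fintype.card I : ℝ) - ρ) / 2 =
    ((Fintype.card I : ℝ) + ρ) / 2 := by ring
  rw [ht] at hcc
  have hpos : 0 < ((Fintype.card I : ℝ) + ρ) / 2 := by linarith
  refine ⟨1 / c, ρ / (((Fintype.card I : ℝ) + ρ) / 2), by positivity, by positivity, ?_, ?_⟩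
  · rw [div_lt_one hpos]
    linarith
  · intro β _ lb b H v hv hfix n
    have h1 := (hcc β inferInstance lb b H v hv hfix n).1
    calc ρ ^ n = 1 / c * (ρ / (((Fintype.card I : ℝ) + ρ) / 2)) ^ n *
          (c * (((Fintype.card I : ℝ) + ρ) / 2) ^ n) := by
          rw [div_pow]
          field_simp
      _ ≤ _ := mul_le_mul_of_nonneg_left h1 (by positivity)

/-- The same with an arbitrary small constant, for all large `n`. -/
theorem growth_small (a1 : Alg1)
    (a2 : ∀ {p q : ℕ} (g : Matrix I I ℂ) (u : Ten I p) (v : Ten I q),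
    gT g (outer u v) = outer (gT g u) (gT g v)) (D : Dat I Λ) {ρ ε : ℝ} (hρ : 0 ≤ ρ)
    (hρ' : ρ < Fintype.card I) (hε : 0 < ε) :
    ∃ n₀ : ℕ, ∀ (β : Type) (_ : Fintype β) (lb : β → ℕ) (b : Tup I lb)
      (H : HMb D b) (v : Ten I 1), v ≠ 0 → v ∈ fixS H a1 1 → ∀ n : ℕ, n₀ ≤ n →
      ρ ^ n ≤ ε * Module.finrank ℂ (fixS H a1 n) ∧
      ρ ^ n < 2 * ε * Module.finrank ℂ (fixS H a1 n) := by
  obtain ⟨C, σ, hC, hσ, hσ1, h⟩ := growth_exp a1 a2 D hρ hρ'
  have h1 : Tendsto (fun n : ℕ => C * σ ^ n) atTop (𝓝 0) := by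
    have := (tendsto_pow_atTop_nhds_zero_of_lt_one hσ hσ1).const_mul C
    rwa [mul_zero] at this
  obtain ⟨n₀, hn₀⟩ := eventually_atTop.1 (h1.eventually (gt_mem_nhds hε))
  refine ⟨n₀, fun β _ lb b H v hv hfix n hn => ?_⟩
  have h2 := h β inferInstance lb b H v hv hfix n
  have h3 : (1 : ℝ) ≤ Module.finrank ℂ (fixS H a1 n) := by
    exact_mod_cast finrank_pos' H a1 a2 hv hfix n
  have h4 : ρ ^ n ≤ ε * Module.finrank ℂ (fixS H a1 n) :=
    h2.trans (mul_le_mul_of_nonneg_right (hn₀ n hn).le (by linarith))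
  refine ⟨h4, h4.trans_lt ?_⟩
  rw [mul_assoc, two_mul]
  have h5 : 0 < ε * (Module.finrank ℂ (fixS H a1 n) : ℝ) := mul_pos hε (by linarith)
  linarith

end OL

end Pool.Agent.Lib.MP_361a6f_ag.FL
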