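import Pool.Agent.Lib.MP_361a6f_ag.RR.Vol

/-!
# Uniform lower bounds for the moments of the trace of a compact group of unitary matrices

`K` is a group with a left invariant probability measure and a homomorphism to the unitary matrices
of size `d`.  The set of the `k` with `Re tr k > d - r² / 2` has measure at least
`(r / (2 (√d + 1))) ^ (2 d²)`, so the moments of `tr k` are bounded below independently of the
group.
-/

open MeasureTheory Set Metric

set_option autoImplicit false
set_option linter.unusedSectionVars false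

namespace Pool.Agent.Lib.MP_361a6f_ag.FL.T

section ball

variable {F : Type*} [NormedAddCommGroup F] [NormedSpace ℝ F] [FiniteDimensional ℝ F]

open Pool.Agent.RR in
/-- **Volume of small balls**, with an explicit constant. -/
theorem vol_ball' {K : Type*} [Group K] [MeasurableSpace K] [MeasurableMul K] (μ : Measure K)
    [IsProbabilityMeasure μ] [μ.IsMulLeftInvariant] (i : K → F) {R : ℝ} (hb : ∀ k, ‖i k‖ ≤ R)
    (hinv : ∀ g k k', ‖i (g * k) - i (g * k')‖ = ‖i k - i k'‖) {r : ℝ} (hr : 0 < r) (hr1 : r ≤ 1) :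
    (r / (2 * (R + 1))) ^ Module.finrank ℝ F ≤ μ.real {k | ‖i k - i 1‖ < r} := by
  classical
  have hR : 0 ≤ R := (norm_nonneg _).trans (hb 1)
  obtain ⟨S, hS, hcov⟩ := net i hR hb hr hr1
  set B : Set K := {k | ‖i k - i 1‖ < r} with hB
  have h1 : (univ : Set K) ⊆ ⋃ k' ∈ S, (fun h => k'⁻¹ * h) ⁻¹' B := by
    intro k _
    obtain ⟨k', hk', hlt⟩ := hcov k
    refine mem_biUnion hk' ?_
    have := hinv k'⁻¹ k k'
    rw [inv_mul_cancel] at this
    change ‖i (k'⁻¹ * k) - i 1‖ < r
    rw [this]
    exact hlt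
  have h2 : (1 : ENNReal) ≤ ∑ k' ∈ S, μ ((fun h => k'⁻¹ * h) ⁻¹' B) := by
    calc (1 : ENNReal) = μ univ := measure_univ.symm
      _ ≤ μ (⋃ k' ∈ S, (fun h => k'⁻¹ * h) ⁻¹' B) := measure_mono h1
      _ ≤ _ := measure_biUnion_finset_le _ _
  simp only [measure_preimage_mul] at h2
  rw [Finset.sum_const, nsmul_eq_mul] at h2
  have h3 : (1 : ℝ) ≤ (S.card : ℝ) * μ.real B := by
    have h4 : ENNReal.toReal 1 ≤ ((S.card : ENNReal) * μ B).toReal :=
      ENNReal.toReal_mono (ENNReal.mul_ne_top (by simp) (measure_ne_top μ B)) h2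
    rw [ENNReal.toReal_mul] at h4
    simpa [Measure.real] using h4
  have h5 : 0 ≤ μ.real B := measureReal_nonneg
  have h6 : 0 < (2 * (R + 1)) ^ Module.finrank ℝ F := by positivity
  rw [div_pow, div_le_iff₀ h6]
  calc r ^ Module.finrank ℝ F = r ^ Module.finrank ℝ F * 1 := by ring
    _ ≤ r ^ Module.finrank ℝ F * ((S.card : ℝ) * μ.real B) := by gcongr
    _ = ((S.card : ℝ) * r ^ Module.finrank ℝ F) * μ.real B := by ring
    _ ≤ (2 * (R + 1)) ^ Module.finrank ℝ F * μ.real B := by gcongr
    _ = μ.real B * (2 * (R + 1)) ^ Module.finrank ℝ F := by ring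

end ball

section frob

variable {I : Type*} [Fintype I] [DecidableEq I]

/-- the square of the Frobenius norm -/
noncomputable def fn (A : Matrix I I ℂ) : ℝ := ∑ i, ∑ j, ‖A i j‖ ^ 2

theorem fn_eq (A : Matrix I I ℂ) : (fn A : ℂ) = (A.conjTranspose * A).trace := by
  rw [fn, Matrix.trace]
  push_cast
  rw [Finset.sum_comm]
  refine Finset.sum_congr rfl fun j _ => ?_
  rw [Matrix.diag_apply, Matrix.mul_apply]
  refine Finset.sum_congr rfl fun i _ => ?_
  rw [Matrix.conjTranspose_apply, ← Complex.conj_mul']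
  rfl

theorem fn_mul {U A : Matrix I I ℂ} (hU : U.conjTranspose * U = 1) : fn (U * A) = fn A := by
  have h : (fn (U * A) : ℂ) = fn A := by
    rw [fn_eq, fn_eq, Matrix.conjTranspose_mul]
    congr 1
    calc A.conjTranspose * U.conjTranspose * (U * A)
        = A.conjTranspose * (U.conjTranspose * U) * A := by simp only [Matrix.mul_assoc]
      _ = A.conjTranspose * A := by rw [hU, Matrix.mul_one]
  exact_mod_cast h

theorem fn_unitary {U : Matrix I I ℂ} (hU : U.conjTranspose * U = 1) :
    fn U = Fintype.card I := by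
  have h : (fn U : ℂ) = (Fintype.card I : ℂ) := by
    rw [fn_eq, hU, Matrix.trace_one]
  exact_mod_cast h

theorem fn_sub_one {U : Matrix I I ℂ} (hU : U.conjTranspose * U = 1) :
    fn (U - 1) = 2 * Fintype.card I - 2 * U.trace.re := by
  have h : (fn (U - 1) : ℂ) = 2 * (Fintype.card I : ℂ) - (U.trace + (starRingEnd ℂ) U.trace) := by
    rw [fn_eq, Matrix.conjTranspose_sub, Matrix.conjTranspose_one]
    have : (U.conjTranspose - 1) * (U - 1) = U.conjTranspose * U - U.conjTranspose - U + 1 := by
      rw [sub_mul, mul_sub, mul_one, one_mul]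
      abel
    rw [this, hU, Matrix.trace_add, Matrix.trace_sub, Matrix.trace_sub, Matrix.trace_one,
      Matrix.trace_conjTranspose]
    simp only [Complex.star_def]
    ring
  have h2 := congrArg Complex.re h
  rw [Complex.ofReal_re, Complex.sub_re, Complex.add_re, Complex.conj_re] at h2
  have h3 : (2 * (Fintype.card I : ℂ)).re = 2 * Fintype.card I := by simp
  rw [h3] at h2
  rw [h2]
  ring

theorem fn_add_one {U : Matrix I I ℂ} (hU : U.conjTranspose * U = 1) :
    fn (U + 1) = 2 * Fintype.card I + 2 * U.trace.re := by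
  have h1 : (-U).conjTranspose * (-U) = 1 := by
    rw [Matrix.conjTranspose_neg, neg_mul_neg, hU]
  have h2 := fn_sub_one h1
  have h3 : fn (-U - 1) = fn (U + 1) := by
    have : -U - 1 = -(U + 1) := by abel
    rw [this, fn, fn]
    simp only [Matrix.neg_apply, norm_neg]
  rw [h3, Matrix.trace_neg, Complex.neg_re] at h2
  rw [h2]
  ring

theorem fn_nonneg (A : Matrix I I ℂ) : 0 ≤ fn A :=
  Finset.sum_nonneg fun _ _ => Finset.sum_nonneg fun _ _ => by positivity

theorem trace_le {U : Matrix I I ℂ} (hU : U.conjTranspose * U = 1) :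
    U.trace.re ≤ Fintype.card I := by
  have := fn_nonneg (U - 1)
  rw [fn_sub_one hU] at this
  linarith

theorem le_trace {U : Matrix I I ℂ} (hU : U.conjTranspose * U = 1) :
    -(Fintype.card I : ℝ) ≤ U.trace.re := by
  have := fn_nonneg (U + 1)
  rw [fn_add_one hU] at this
  linarith

/-- the matrix as a vector -/
noncomputable def vec (A : Matrix I I ℂ) : EuclideanSpace ℂ (I × I) :=
  WithLp.toLp 2 fun p => A p.1 p.2

theorem vec_sub (A B : Matrix I I ℂ) : vec (A - B) = vec A - vec B := rfl

theorem norm_vec (A : Matrix I I ℂ) : ‖vec A‖ = Real.sqrt (fn A) := by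
  rw [EuclideanSpace.norm_eq, fn, Fintype.sum_prod_type]
  rfl

end frob

section moments

variable {I : Type*} [Fintype I] [DecidableEq I] {K : Type*} [Group K] [MeasurableSpace K]
  [MeasurableMul K] (μ : Measure K) [IsProbabilityMeasure μ] [μ.IsMulLeftInvariant]
  (mat : K →* Matrix I I ℂ) (hu : ∀ k, (mat k).conjTranspose * mat k = 1)

include hu in
/-- Row UNI: the set of the `k` with trace near `d` is not small. -/
theorem uni {r : ℝ} (hr : 0 < r) (hr1 : r ≤ 1) :
    (r / (2 * (Real.sqrt (Fintype.card I) + 1))) ^ (2 * Fintype.card I ^ 2) ≤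
      μ.real {k | (Fintype.card I : ℝ) - r ^ 2 / 2 < (mat k).trace.re} := by
  have h1 := vol_ball' μ (F := EuclideanSpace ℂ (I × I)) (fun k => vec (mat k))
    (R := Real.sqrt (Fintype.card I)) (fun k => by rw [norm_vec, fn_unitary (hu k)])
    (fun g k k' => by
      rw [← vec_sub, ← vec_sub, map_mul, map_mul, ← mul_sub, norm_vec, norm_vec, fn_mul (hu g)])
    hr hr1
  have h2 : Module.finrank ℝ (EuclideanSpace ℂ (I × I)) = 2 * Fintype.card I ^ 2 := by
    rw [finrank_real_of_complex, finrank_euclideanSpace, Fintype.card_prod, pow_two]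
  rw [h2] at h1
  refine h1.trans (le_of_eq ?_)
  congr 1
  ext k
  rw [Set.mem_ofPred_eq, Set.mem_ofPred_eq, ← vec_sub, map_one, norm_vec, Real.sqrt_lt' hr,
    fn_sub_one (hu k)]
  constructor <;> intro h <;> linarith

end moments

end Pool.Agent.Lib.MP_361a6f_ag.FL.T
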