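import Pool.Agent.Lib.MP_361a6f_ag.FL.O.Defs
import Pool.Agent.Lib.MP_361a6f_ag.FL.O.Grw85
import Pool.Agent.Lib.MP_361a6f_ag.FL.O.UniX
import Pool.Agent.Lib.MP_361a6f_ag.FL.Al2

/-!
# The growth of the space of the fixed tensors, uniformly in all data of the dimension `d`
-/

open Filter Topology MeasureTheory

set_option autoImplicit false
set_option linter.unusedSectionVars false

namespace Pool.Agent.Lib.MP_361a6f_ag.FL

namespace OL

/-- the measure of the set where the trace is large -/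
theorem uni_trace' (d : ℕ) {q : ℝ} (hq : q < d) :
    ∃ c : ℝ, 0 < c ∧ ∀ {I Λ β : Type} [Fintype I] [DecidableEq I] [DecidableEq Λ] [Fintype β]
      (D : Dat I Λ) (_ : Fintype.card I = d) {lb : β → ℕ} {b : Tup I lb} (H : HMb D b),
      c ≤ (H.μ {x | q < (H.mat x).trace.re}).toReal := by
  set r : ℝ := min 1 ((d : ℝ) - q) with hr
  have hr0 : 0 < r := lt_min one_pos (by linarith)
  have hr1 : r ≤ 1 := min_le_left _ _
  refine ⟨(r / (2 * (Real.sqrt (d : ℝ) + 1))) ^ (2 * d ^ 2), by positivity, ?_⟩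
  intro I Λ β _ _ _ _ D hd lb b H
  subst hd
  have h1 := T.uni H.μ H.mat (fun k => (H.mem k).1.2) hr0 hr1
  refine h1.trans ?_
  refine ENNReal.toReal_mono (measure_ne_top _ _) (measure_mono fun x hx => ?_)
  have h2 : (Fintype.card I : ℝ) - r ^ 2 / 2 < (H.mat x).trace.re := hx
  show q < (H.mat x).trace.re
  have h3 : r ≤ (Fintype.card I : ℝ) - q := min_le_right _ _
  nlinarith

/-- Row GRO. -/
theorem gro : GroU := by
  intro a1 d q hq hq'
  obtain ⟨c, hc, hcc⟩ := uni_trace' d hq'
  refine ⟨c / ((d : ℝ) + 1), by positivity, ?_⟩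
  intro I Λ β _ _ _ _ D hd lb b H v hv hfix n
  have a2 : ∀ {p q : ℕ} (g : Matrix I I ℂ) (u : Ten I p) (v : Ten I q),
    gT g (outer u v) = outer (gT g u) (gT g v) := fun g u v => AL2.outer_gT g u v
  have h1 := hcc D hd H
  have heven : ∀ m : ℕ, Even m → c * q ^ m ≤ Module.finrank ℂ (fixS H a1 m) := by
    intro m hm
    rw [finrank_fixS_re H a1]
    exact (mul_le_mul_of_nonneg_right h1 (by positivity)).trans (even_le H hq hm)
  rcases Nat.even_or_odd n with hn | hn
  · refine le_trans ?_ (heven n hn)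
    refine mul_le_mul_of_nonneg_right ?_ (by positivity)
    exact div_le_self hc.le (by linarith [(Nat.cast_nonneg d : (0 : ℝ) ≤ d)])
  · obtain ⟨m, rfl⟩ := hn
    have h2 := heven (2 * m) (even_two_mul m)
    have h3 : (Module.finrank ℂ (fixS H a1 (2 * m)) : ℝ) ≤
        Module.finrank ℂ (fixS H a1 (2 * m + 1)) := by
      exact_mod_cast finrank_fixS_le H a1 a2 hv hfix (2 * m)
    refine le_trans ?_ (h2.trans h3)
    rw [pow_succ, div_mul_eq_mul_div, div_le_iff₀ (by positivity), mul_assoc]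
    refine mul_le_mul_of_nonneg_left ?_ hc.le
    refine mul_le_mul_of_nonneg_left ?_ (by positivity)
    linarith

end OL

end Pool.Agent.Lib.MP_361a6f_ag.FL
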