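import Pool.Agent.Lib.MP_361a6f_ag.FL.B.MainL
import Pool.Agent.Lib.MP_361a6f_ag.FL.O.T2
import Pool.Agent.Lib.MP_361a6f_ag.FL.O.Trq
import Pool.Agent.Lib.MP_361a6f_ag.FL.O.Gro85

/-!
# The one per cent law, abstract form: all rows put together
-/

namespace Pool.Agent.Lib.MP_361a6f_ag.FL

namespace T2A

/-- the first separation lemma -/
theorem hl1 : L1bStatement :=
  l1b alg1 (volb alg1) (phab alg1 (tanb alg1)) (avgb mainFfb alg1 alg2)

/-- the second separation lemma -/
theorem hl2 : L2bStatement :=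
  l2b alg1 (volb alg1) (phab alg1 (tanb alg1)) (avgb mainFfb alg1 alg2)

/-- **The one per cent law**, abstract form, with a pair of elements of length one. -/
theorem mainV : T2V :=
  t2v alg1 alg2 (algB alg1 alg2) cptbH (minb alg1) hl1 hl2 (OTrq.trqU OL.gro)

/-- **The one per cent law**, abstract form. -/
theorem mainU : OL.T2U :=
  t2u alg1 alg2 (algB alg1 alg2) cptbH (minb alg1) hl1 hl2 (OTrq.trqU OL.gro)

end T2A

end Pool.Agent.Lib.MP_361a6f_ag.FL
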