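import Mathlib

/-!
# The rank of a real form on a real span and on the complex span
-/

set_option autoImplicit false

namespace Pool.Agent.Lib.MP_361a6f_ag.FL

namespace ORk

variable {T : Type*} [AddCommGroup T] [Module ℂ T] [Module ℝ T] [IsScalarTower ℝ ℂ T]
  [Module.Finite ℂ T] (B : T →ₗ[ℂ] T →ₗ[ℂ] ℂ) (S : Set T)

theorem real_smul (r : ℝ) (t : T) : r • t = (r : ℂ) • t := by
  rw [← smul_one_smul ℂ r t]
  simp

/-- the radical of the form on the real span -/
def radR : Submodule ℝ T where
  carrier := {u | u ∈ Submodule.span ℝ S ∧ ∀ w ∈ Submodule.span ℝ S, B u w = 0}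
  add_mem' := by
    rintro a b ⟨ha, ha'⟩ ⟨hb, hb'⟩
    refine ⟨add_mem ha hb, fun w hw => ?_⟩
    rw [map_add, LinearMap.add_apply, ha' w hw, hb' w hw, add_zero]
  zero_mem' := ⟨zero_mem _, fun w _ => by rw [map_zero, LinearMap.zero_apply]⟩
  smul_mem' := by
    rintro r a ⟨ha, ha'⟩
    refine ⟨Submodule.smul_mem _ r ha, fun w hw => ?_⟩
    rw [real_smul, map_smul, LinearMap.smul_apply, ha' w hw, smul_zero]

/-- the radical of the form on the complex span -/
def radC : Submodule ℂ T where
  carrier := {u | u ∈ Submodule.span ℂ S ∧ ∀ w ∈ S, B u w = 0}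
  add_mem' := by
    rintro a b ⟨ha, ha'⟩ ⟨hb, hb'⟩
    refine ⟨add_mem ha hb, fun w hw => ?_⟩
    rw [map_add, LinearMap.add_apply, ha' w hw, hb' w hw, add_zero]
  zero_mem' := ⟨zero_mem _, fun w _ => by rw [map_zero, LinearMap.zero_apply]⟩
  smul_mem' := by
    rintro r a ⟨ha, ha'⟩
    refine ⟨Submodule.smul_mem _ r ha, fun w hw => ?_⟩
    rw [map_smul, LinearMap.smul_apply, ha' w hw, smul_zero]

variable {B S}

theorem orth_span {u : T} (h : ∀ w ∈ S, B u w = 0) {w : T} (hw : w ∈ Submodule.span ℂ S) :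
    B u w = 0 := by
  induction hw using Submodule.span_induction with
  | mem w hw => exact h w hw
  | zero => rw [map_zero]
  | add a b _ _ ha hb => rw [map_add, ha, hb, add_zero]
  | smul c a _ ha => rw [map_smul, ha, smul_zero]

theorem span_le {w : T} (hw : w ∈ Submodule.span ℝ S) : w ∈ Submodule.span ℂ S := by
  induction hw using Submodule.span_induction with
  | mem w hw => exact Submodule.subset_span hw
  | zero => exact zero_mem _
  | add a b _ _ ha hb => exact add_mem ha hb
  | smul c a _ ha => rw [real_smul]; exact Submodule.smul_mem _ _ ha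

theorem mem_radR {u : T} (hu : u ∈ Submodule.span ℝ S) (h : ∀ w ∈ S, B u w = 0) :
    u ∈ radR B S := ⟨hu, fun _ hw => orth_span h (span_le hw)⟩

theorem radR_le {u : T} (hu : u ∈ radR B S) : u ∈ radC B S :=
  ⟨span_le hu.1, fun w hw => hu.2 w (Submodule.subset_span hw)⟩

theorem real_val (hS : ∀ u ∈ S, ∀ v ∈ S, (B u v).im = 0) {u : T} (hu : u ∈ Submodule.span ℝ S)
    {v : T} (hv : v ∈ S) : (B u v).im = 0 := by
  induction hu using Submodule.span_induction with
  | mem w hw => exact hS w hw v hv
  | zero => rw [map_zero]; rfl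
  | add a b _ _ ha hb => rw [map_add, LinearMap.add_apply, Complex.add_im, ha, hb, add_zero]
  | smul c a _ ha =>
    rw [real_smul, map_smul, LinearMap.smul_apply, smul_eq_mul, Complex.im_ofReal_mul, ha, mul_zero]

/-- elements of the complex span -/
theorem re_im {z : T} (hz : z ∈ Submodule.span ℂ S) : ∃ x ∈ Submodule.span ℝ S,
    ∃ y ∈ Submodule.span ℝ S, z = x + Complex.I • y := by
  induction hz using Submodule.span_induction with
  | mem w hw => exact ⟨w, Submodule.subset_span hw, 0, zero_mem _, by rw [smul_zero, add_zero]⟩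
  | zero => exact ⟨0, zero_mem _, 0, zero_mem _, by rw [smul_zero, add_zero]⟩
  | add a b _ _ ha hb =>
    obtain ⟨x, hx, y, hy, rfl⟩ := ha
    obtain ⟨x', hx', y', hy', rfl⟩ := hb
    refine ⟨x + x', add_mem hx hx', y + y', add_mem hy hy', ?_⟩
    rw [smul_add]
    abel
  | smul c a _ ha =>
    obtain ⟨x, hx, y, hy, rfl⟩ := ha
    refine ⟨c.re • x - c.im • y, sub_mem (Submodule.smul_mem _ _ hx) (Submodule.smul_mem _ _ hy),
      c.im • x + c.re • y, add_mem (Submodule.smul_mem _ _ hx) (Submodule.smul_mem _ _ hy), ?_⟩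
    simp only [real_smul]
    rw [smul_add, smul_add, smul_smul, smul_smul, smul_smul]
    have h1 : c • x = (c.re : ℂ) • x + (Complex.I * c.im) • x := by
      rw [← add_smul]
      congr 1
      rw [mul_comm]
      exact (Complex.re_add_im c).symm
    have h2 : (c * Complex.I) • y = (Complex.I * c.re) • y - (c.im : ℂ) • y := by
      rw [← sub_smul]
      congr 1
      conv_lhs => rw [← Complex.re_add_im c]
      rw [add_mul, mul_assoc, Complex.I_mul_I]
      ring
    rw [h1, h2]
    abel

/-- a complex combination orthogonal to `S` has its real and imaginary parts in the radical -/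
theorem split (hS : ∀ u ∈ S, ∀ v ∈ S, (B u v).im = 0) {x y : T}
    (hx : x ∈ Submodule.span ℝ S) (hy : y ∈ Submodule.span ℝ S)
    (h : ∀ w ∈ S, B (x + Complex.I • y) w = 0) : x ∈ radR B S ∧ y ∈ radR B S := by
  have h1 : ∀ w ∈ S, B x w = 0 ∧ B y w = 0 := by
    intro w hw
    have e := h w hw
    rw [map_add, LinearMap.add_apply, map_smul, LinearMap.smul_apply, smul_eq_mul] at e
    have ex := real_val hS hx hw
    have ey := real_val hS hy hw
    have e1 := congrArg Complex.re e
    have e2 := congrArg Complex.im e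
    rw [Complex.add_re, Complex.I_mul_re, ey, neg_zero, add_zero] at e1
    rw [Complex.add_im, Complex.I_mul_im, ex, zero_add] at e2
    exact ⟨Complex.ext e1 ex, Complex.ext e2 ey⟩
  exact ⟨mem_radR hx fun w hw => (h1 w hw).1, mem_radR hy fun w hw => (h1 w hw).2⟩

/-- the radical of the complex span is zero if the radical of the real span is zero -/
theorem radC_eq_bot (hS : ∀ u ∈ S, ∀ v ∈ S, (B u v).im = 0) (h : radR B S = ⊥) :
    radC B S = ⊥ := by
  rw [eq_bot_iff]
  rintro z ⟨hz, hz'⟩
  obtain ⟨x, hx, y, hy, rfl⟩ := re_im hz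
  obtain ⟨h1, h2⟩ := split hS hx hy hz'
  rw [h, Submodule.mem_bot] at h1 h2
  rw [h1, h2, smul_zero, add_zero]
  exact zero_mem _

variable [Module.Finite ℝ T]

/-- **The rank of the form on the real span and on the complex span agree.** -/
theorem rank_eq (hS : ∀ u ∈ S, ∀ v ∈ S, (B u v).im = 0) :
    Module.finrank ℝ (Submodule.span ℝ S) - Module.finrank ℝ (radR B S)
      = Module.finrank ℂ (Submodule.span ℂ S) - Module.finrank ℂ (radC B S) := by
  classical
  have hR : radR B S ≤ Submodule.span ℝ S := fun u hu => hu.1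
  have hC : radC B S ≤ Submodule.span ℂ S := fun u hu => hu.1
  let NR : Submodule ℝ (Submodule.span ℝ S) := (radR B S).submoduleOf (Submodule.span ℝ S)
  let NC : Submodule ℂ (Submodule.span ℂ S) := (radC B S).submoduleOf (Submodule.span ℂ S)
  have e1 : Module.finrank ℝ NR = Module.finrank ℝ (radR B S) :=
    (Submodule.submoduleOfEquivOfLe hR).finrank_eq
  have e2 : Module.finrank ℂ NC = Module.finrank ℂ (radC B S) :=
    (Submodule.submoduleOfEquivOfLe hC).finrank_eq
  have e3 := NR.finrank_quotient_add_finrank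
  have e4 := NC.finrank_quotient_add_finrank
  suffices h : Module.finrank ℝ (Submodule.span ℝ S ⧸ NR)
      = Module.finrank ℂ (Submodule.span ℂ S ⧸ NC) by
    rw [← e1, ← e2, ← e3, ← e4, h]
    omega
  -- a basis
  let b := Module.finBasis ℝ (Submodule.span ℝ S ⧸ NR)
  choose a ha using fun i => Submodule.Quotient.mk_surjective NR (b i)
  let c : Fin (Module.finrank ℝ (Submodule.span ℝ S ⧸ NR)) → Submodule.span ℂ S := fun i =>
    ⟨(a i : T), span_le (a i).2⟩
  have hind : ∀ r : Fin (Module.finrank ℝ (Submodule.span ℝ S ⧸ NR)) → ℝ,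
      ∑ i, r i • (a i : T) ∈ radR B S → ∀ i, r i = 0 := by
    intro r hr
    have h1 : ∑ i, r i • b i = 0 := by
      have h2 : ∑ i, r i • b i = Submodule.Quotient.mk (p := NR) (∑ i, r i • a i) := by
        rw [← Submodule.mkQ_apply, map_sum]
        refine Finset.sum_congr rfl fun i _ => ?_
        rw [map_smul, Submodule.mkQ_apply, ha]
      rw [h2, Submodule.Quotient.mk_eq_zero]
      change ((∑ i, r i • a i : Submodule.span ℝ S) : T) ∈ radR B S
      rw [AddSubmonoidClass.coe_finsetSum]
      exact hr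
    exact fun i => Fintype.linearIndependent_iff.1 b.linearIndependent r h1 i
  have hli : LinearIndependent ℂ (fun i => (Submodule.Quotient.mk (c i) :
      Submodule.span ℂ S ⧸ NC)) := by
    rw [Fintype.linearIndependent_iff]
    intro g hg i
    have h1 : (∑ i, g i • c i : Submodule.span ℂ S) ∈ NC := by
      rw [← Submodule.Quotient.mk_eq_zero, ← Submodule.mkQ_apply, map_sum, ← hg]
      refine Finset.sum_congr rfl fun i _ => ?_
      rw [map_smul, Submodule.mkQ_apply]
    have h2 : (∑ i, g i • (a i : T)) ∈ radC B S := by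
      have h3 : ((∑ i, g i • c i : Submodule.span ℂ S) : T) ∈ radC B S := h1
      rw [AddSubmonoidClass.coe_finsetSum] at h3
      exact h3
    have h3 : ∑ i, g i • (a i : T) = (∑ i, (g i).re • (a i : T))
        + Complex.I • ∑ i, (g i).im • (a i : T) := by
      rw [Finset.smul_sum, ← Finset.sum_add_distrib]
      refine Finset.sum_congr rfl fun i _ => ?_
      rw [real_smul, real_smul, smul_smul, ← add_smul]
      congr 1
      rw [mul_comm]
      exact (Complex.re_add_im (g i)).symm
    have hm : ∀ r : Fin (Module.finrank ℝ (Submodule.span ℝ S ⧸ NR)) → ℝ,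
        ∑ i, r i • (a i : T) ∈ Submodule.span ℝ S := fun r =>
      Submodule.sum_mem _ fun i _ => Submodule.smul_mem _ _ (a i).2
    rw [h3] at h2
    obtain ⟨h4, h5⟩ := split hS (hm _) (hm _) h2.2
    exact Complex.ext (hind _ h4 i) (hind _ h5 i)
  have hsp : ⊤ ≤ Submodule.span ℂ (Set.range fun i => (Submodule.Quotient.mk (c i) :
      Submodule.span ℂ S ⧸ NC)) := by
    have hreal : ∀ x (hx : x ∈ Submodule.span ℝ S), (Submodule.Quotient.mk
        (⟨x, span_le hx⟩ : Submodule.span ℂ S) : Submodule.span ℂ S ⧸ NC) ∈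
        Submodule.span ℂ (Set.range fun i => (Submodule.Quotient.mk (c i) :
          Submodule.span ℂ S ⧸ NC)) := by
      intro x hx
      obtain ⟨r, hr⟩ : ∃ r : Fin (Module.finrank ℝ (Submodule.span ℝ S ⧸ NR)) → ℝ,
          Submodule.Quotient.mk (p := NR) (⟨x, hx⟩ : Submodule.span ℝ S) = ∑ i, r i • b i :=
        ⟨fun i => b.repr (Submodule.Quotient.mk (p := NR) ⟨x, hx⟩) i, (b.sum_repr _).symm⟩
      have h1 : x - ∑ i, r i • (a i : T) ∈ radR B S := by
        have h2 : ((⟨x, hx⟩ : Submodule.span ℝ S) - ∑ i, r i • a i) ∈ NR := by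
          rw [← Submodule.Quotient.mk_eq_zero, ← Submodule.mkQ_apply, map_sub, map_sum,
            Submodule.mkQ_apply, hr, sub_eq_zero]
          refine Finset.sum_congr rfl fun i _ => ?_
          rw [map_smul, Submodule.mkQ_apply, ha]
        have h3 : (((⟨x, hx⟩ : Submodule.span ℝ S) - ∑ i, r i • a i : Submodule.span ℝ S) : T)
            ∈ radR B S := h2
        rw [AddSubgroupClass.coe_sub, AddSubmonoidClass.coe_finsetSum] at h3
        exact h3
      have h4 : (Submodule.Quotient.mk (⟨x, span_le hx⟩ : Submodule.span ℂ S) :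
          Submodule.span ℂ S ⧸ NC) = ∑ i, (r i : ℂ) • Submodule.Quotient.mk (c i) := by
        have h5 : ((⟨x, span_le hx⟩ : Submodule.span ℂ S) - ∑ i, (r i : ℂ) • c i) ∈ NC := by
          change (((⟨x, span_le hx⟩ : Submodule.span ℂ S) - ∑ i, (r i : ℂ) • c i :
            Submodule.span ℂ S) : T) ∈ radC B S
          rw [AddSubgroupClass.coe_sub, AddSubmonoidClass.coe_finsetSum]
          have h6 : x - ∑ i, (((r i : ℂ) • c i : Submodule.span ℂ S) : T)
              = x - ∑ i, r i • (a i : T) := by
            congr 1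
            exact Finset.sum_congr rfl fun i _ => (real_smul (r i) (a i : T)).symm
          rw [h6]
          exact radR_le h1
        rw [← Submodule.Quotient.mk_eq_zero, ← Submodule.mkQ_apply, map_sub, map_sum,
          sub_eq_zero] at h5
        rw [← Submodule.mkQ_apply, h5]
        exact Finset.sum_congr rfl fun i _ => by rw [map_smul, Submodule.mkQ_apply]
      rw [h4]
      exact Submodule.sum_mem _ fun i _ => Submodule.smul_mem _ _
        (Submodule.subset_span ⟨i, rfl⟩)
    rintro z -
    obtain ⟨⟨z, hz⟩, rfl⟩ := Submodule.Quotient.mk_surjective NC z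
    obtain ⟨x, hx, y, hy, rfl⟩ := re_im hz
    have h1 : (Submodule.Quotient.mk (⟨x + Complex.I • y, hz⟩ : Submodule.span ℂ S) :
        Submodule.span ℂ S ⧸ NC) = Submodule.Quotient.mk ⟨x, span_le hx⟩
          + Complex.I • Submodule.Quotient.mk ⟨y, span_le hy⟩ := rfl
    rw [h1]
    exact add_mem (hreal x hx) (Submodule.smul_mem _ _ (hreal y hy))
  have hb := Module.finrank_eq_card_basis (Module.Basis.mk hli hsp)
  rw [hb, Fintype.card_fin]

end ORk

end Pool.Agent.Lib.MP_361a6f_ag.FL
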