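import Pool.Agent.Lib.MP_361a6f_ag.FL.O.IntT52
import Pool.Agent.Lib.MP_361a6f_ag.FL.O.IntU52
import Pool.Agent.Lib.MP_361a6f_ag.FL.P.MainR52
import Pool.Agent.Lib.MP_361a6f_ag.FL.P.ProjP

/-!
# The root law for degenerate families: assembly
-/

open CategoryTheory AlgebraicGeometry MonoidalCategory CartesianMonoidalCategory

universe u v w

set_option autoImplicit false
set_option linter.unusedSectionVars false
set_option linter.unusedVariables false

namespace Pool.Agent.Lib.MP_361a6f_ag.FL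

open Pool.Agent.Lib.MP_361a6f_ag.H3 Pool.Agent.Lib.MP_361a6f_ag.SQ
  Pool.Agent.Lib.MP_361a6f_ag.PP

namespace IntW

open OL PRK PGC

section zero

variable {k : Type u} [Field k] {W : CohomologyData.{u, 0, w} k ℂ}

/-- the cohomology of the products vanishes -/
theorem coh_zero {X : Fin 1 → Sch k} (h0 : (1 : W.coh (X 0)) = 0) (R : Prd 1)
    (x : W.coh (R.obj X)) : x = 0 := by
  obtain ⟨X, rfl⟩ : ∃ Y : Sch k, X = fun _ => Y :=
    ⟨X 0, funext fun a => by rw [Subsingleton.elim a 0]⟩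
  have h2 : (1 : W.coh (R.obj fun _ => X)) = 0 := by
    rw [← map_one (W.pull (PMain.toX X R)), h0, map_zero]
  rw [← mul_one x, h2, mul_zero]

theorem finrank_zero {X : Fin 1 → Sch k} (h0 : (1 : W.coh (X 0)) = 0) (R : Prd 1)
    (M : Submodule ℂ (W.coh (R.obj X))) : Module.finrank ℂ M = 0 := by
  have h1 : Subsingleton (W.coh (R.obj X)) :=
    ⟨fun a b => by rw [coh_zero h0 R a, coh_zero h0 R b]⟩
  exact Module.finrank_zero_of_subsingleton

theorem rankN_zero {X : Fin 1 → Sch k} (h0 : (1 : W.coh (X 0)) = 0) (R : Prd 1) :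
    rankN W (R.obj X) = 0 := by
  unfold rankN
  rw [finrank_zero h0 R (algC W (R.obj X)), Nat.zero_sub]

end zero

/-- abelian varieties have an algebraic even projector -/
theorem even {k : Type u} [Field k] {W : CohomologyData.{u, 0, w} k ℂ} {𝒱 : VarietyClass k}
    (hW : IsWeilCohomology W 𝒱) {X : Sch k} {e : ℕ} (hX : 𝒱.mem X e) (h : AbelianOrEven W X e) :
    EvenProjector W X e := by
  rcases h with h | ⟨h1, h2, y, hy⟩
  · exact h
  · exact (projector W 𝒱 hW hX).2 h1 h2 y hy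

/-- a form of the root bound -/
theorem rootC_le {k : Type u} [Field k] {W : CohomologyData.{u, 0, w} k ℂ} {X : Sch k}
    {r : ℕ} {P : Prd 1} {a b : ℝ}
    (h : √P.size * a ≤ 160 * r * (Module.finrank ℂ (W.coh X) : ℝ) ^ 3 * b) :
    a ≤ rootC W X 160 r P.size * b := by
  have hs : (0 : ℝ) < √P.size := Real.sqrt_pos.2 (by exact_mod_cast P.size_posC)
  unfold rootC
  rw [div_mul_eq_mul_div, le_div_iff₀ hs, mul_comm a]
  push_cast
  exact h

/-- **The inverse square root law.** -/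
theorem inverse_square_root : InverseSquareRootStatement.{u, w} := by
  intro k _ W 𝒱 hW X e hX hE' R
  have hE := even hW hX hE'
  by_cases h0 : (1 : W.coh (X 0)) = 0
  · refine ⟨fun T _ _ _ P => ?_, fun _ P => ?_⟩
    · rw [rankN_zero h0 P, finrank_zero h0 P (T P)]
      simp
    · rw [rankN_zero h0 P, finrank_zero h0 P (algC W (P.obj X))]
      simp
  refine ⟨fun T hT hTe hnd P => rootC_le ?_, fun hD P => rootC_le ?_⟩
  · exact (transfer_root hW hX hE h0 R P).1 T hT hTe hnd
  · refine (transfer_root hW hX hE h0 R P).2 fun hnum => hD fun l z hz hzn => ?_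
    have h3 : z ∈ numC W (R.obj X) := ⟨Submodule.subset_span ⟨l, hz⟩, hzn⟩
    rw [hnum] at h3
    exact (Submodule.mem_bot ℂ).1 h3

/-- **The root law for the Frobenius.** -/
theorem frobenius_root {k : Type u} [Field k] (W : CohomologyData.{u, 0, w} k ℂ)
    (𝒱 : VarietyClass k) (hW : IsWeilCohomology W 𝒱) (X : Fin 1 → Sch k) {e : ℕ}
    (hX : 𝒱.mem (X 0) e) (hE : AbelianOrEven W (X 0) e)
    (F : ∀ P : Prd 1, W.coh (P.obj X) →ₐ[ℂ] W.coh (P.obj X)) (hF : FrobeniusSystem W X F)
    (hd : ¬ Diagonalisable W (F (.leaf 0))) (P : Prd 1) : (rankN W (P.obj X) : ℝ) ≤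
      rootC W (X 0) 160 2 P.size * Module.finrank ℂ (tateE W (P.obj X) (F P)) := by
  have hX' : ∀ a, 𝒱.mem (X a) e := fun a => by
    rw [Subsingleton.elim a 0]
    exact hX
  obtain ⟨hT, hTe⟩ := FrobE.closed hW hX' hF
  exact (inverse_square_root W 𝒱 hW X hX hE (.prod (.leaf 0) (.leaf 0))).1
    (fun P => tateE W (P.obj X) (F P)) hT hTe (fun hnd => hd (FrobE.diag hW hX hF hnd)) P

end IntW

end Pool.Agent.Lib.MP_361a6f_ag.FL
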