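import Pool.Agent.Lib.MP_361a6f_ag.FL.O.TateW52
import Pool.Agent.Lib.MP_361a6f_ag.FL.O.Diag52

/-!
# Half or all of the Tate classes, for the Frobenius
-/

open CategoryTheory AlgebraicGeometry MonoidalCategory CartesianMonoidalCategory

universe u v w

set_option autoImplicit false
set_option linter.unusedVariables false

namespace Pool.Agent.Lib.MP_361a6f_ag.FL

open Pool.Agent.Lib.MP_361a6f_ag.H3 Pool.Agent.Lib.MP_361a6f_ag.SQ
  Pool.Agent.Lib.MP_361a6f_ag.PP

namespace TateW

/-- **Half or all, for the Frobenius.** -/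
theorem frobenius_half_or_all : FrobeniusHalfOrAllStatement.{u, w} := by
  intro k _ W 𝒱 hW X e hX hE F hF r
  have hX' : ∀ a, 𝒱.mem (X a) e := fun a => by
    rw [Subsingleton.elim a 0]
    exact hX
  obtain ⟨hT, hTe⟩ := Frob52.closed hW hX' hF
  rcases half_or_all W 𝒱 hW X hX hE (fun P => tateF W (P.obj X) (F P)) hT hTe r with key | key
  · refine Or.inl ⟨key, fun hr => ?_⟩
    have h2 := (key (.prod (.leaf 0) (.leaf 0)) hr).1
    refine Diag52.diag hW hX (G := F (.prod (.leaf 0) (.leaf 0)))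
      (Frob52.pr1 hW hX' hF (.leaf 0) (.leaf 0)) (Frob52.pr2 hW hX' hF (.leaf 0) (.leaf 0))
      (hF.tr (.leaf 0)) (fun i x hx => hF.deg (.leaf 0) i x hx) ?_
    intro z hz
    have h3 : z ∈ algC W ((Prd.prod (.leaf 0) (.leaf 0) : Prd 1).obj X) := by
      rw [← h2]
      exact hz
    have h4 : algC W ((Prd.prod (.leaf 0) (.leaf 0) : Prd 1).obj X)
        ≤ LinearMap.ker ((F (.prod (.leaf 0) (.leaf 0))).toLinearMap - 1) := by
      refine Submodule.span_le.2 ?_
      rintro y ⟨l, hl⟩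
      rw [SetLike.mem_coe, LinearMap.mem_ker, LinearMap.sub_apply, sub_eq_zero]
      exact hF.alg (.prod (.leaf 0) (.leaf 0)) l y hl
    have h5 := h4 h3
    rw [LinearMap.mem_ker, LinearMap.sub_apply, sub_eq_zero] at h5
    exact h5
  · refine Or.inr fun P => key P ?_
    have hP : 𝒱.mem (P.obj X) (P.dim fun _ => e) := memP (X := X) (n := fun _ => e) hX' P
    exact fun s hs hst => Frob52.tateF_nd hW hP (F P) (hF.tr P) (fun i x hx => hF.deg P i x hx)
      hs hst

end TateW

end Pool.Agent.Lib.MP_361a6f_ag.FL
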