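import Pool.Agent.Lib.MP_361a6f_ag.FL.O.IntF52
import Pool.Agent.Lib.MP_361a6f_ag.FL.O.IntG52
import Pool.Agent.Lib.MP_361a6f_ag.FL.O.IntV52
import Pool.Agent.Lib.MP_361a6f_ag.FL.O.TateM52

/-!
# The integrality law: assembly
-/

open CategoryTheory AlgebraicGeometry MonoidalCategory CartesianMonoidalCategory Filter Topology

universe u v w

set_option autoImplicit false
set_option linter.unusedSectionVars false
set_option linter.unusedVariables false

namespace Pool.Agent.Lib.MP_361a6f_ag.FL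

open Pool.Agent.Lib.MP_361a6f_ag.H3 Pool.Agent.Lib.MP_361a6f_ag.SQ
  Pool.Agent.Lib.MP_361a6f_ag.PP

namespace IntW

open OL PRK PGC

section nonzero

variable {k : Type u} [Field k] {W : CohomologyData.{u, 0, w} k ℂ} {𝒱 : VarietyClass k}

/-- the rank is positive -/
theorem rankN_pos (hW : IsWeilCohomology W 𝒱) {X : Fin 1 → Sch k} {e : ℕ}
    (hX : 𝒱.mem (X 0) e) (hE : EvenProjector W (X 0) e) (h0 : (1 : W.coh (X 0)) ≠ 0)
    (P : Prd 1) : 0 < rankN W (P.obj X) := by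
  obtain ⟨X, rfl⟩ : ∃ Y : Sch k, X = fun _ => Y :=
    ⟨X 0, funext fun a => by rw [Subsingleton.elim a 0]⟩
  have h1 := PMainR.explicit_growth W 𝒱 hW hX hE P
  have hfd : Module.Finite ℂ (W.coh X) := hW.finite hX
  have hd : 0 < Module.finrank ℂ (W.coh X) :=
    Module.finrank_pos_iff_exists_ne_zero.2 ⟨1, h0⟩
  have h2 : (0 : ℝ) < (Module.finrank ℂ (W.coh X) : ℝ) ^ P.size := by
    have : (0 : ℝ) < Module.finrank ℂ (W.coh X) := by exact_mod_cast hd
    positivity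
  by_contra h3
  have h4 : rankN W (P.obj fun _ => X) = 0 := by omega
  rw [h4, Nat.cast_zero, mul_zero] at h1
  linarith

theorem rankN_le (Y : Sch k) : rankN W Y ≤ Module.finrank ℂ (algC W Y) := Nat.sub_le _ _

/-- the conditions on the integer -/
def Phi (W : CohomologyData.{u, 0, w} k ℂ) (X : Fin 1 → Sch k) (d : ℕ)
    (T : ∀ P : Prd 1, Submodule ℂ (W.coh (P.obj X))) (R : Prd 1) (m : ℕ) : Prop :=
  ((20 * d ^ 3) ^ 2 ≤ R.size → (Module.finrank ℂ (T R) : ℝ) ≤
        m * ((1 + 80 * (d : ℝ) ^ 3 / Real.sqrt R.size) * (rankN W (R.obj X) : ℝ))) ∧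
      (Even R.size → Module.finrank ℂ (T R) ≤ m * rankN W (R.obj X)) ∧
      (algC W (R.obj X) ≤ T R → m ≤ 1 → Module.finrank ℂ (T R) ≤ rankN W (R.obj X))

theorem phi_up {X : Fin 1 → Sch k} {d : ℕ} {T : ∀ P : Prd 1, Submodule ℂ (W.coh (P.obj X))}
    (R : Prd 1) (m m' : ℕ) (h : m ≤ m') (hm : Phi W X d T R m) : Phi W X d T R m' := by
  refine ⟨fun h1 => (hm.1 h1).trans ?_, fun h1 => (hm.2.1 h1).trans ?_, fun h1 h2 =>
    hm.2.2 h1 (h.trans h2)⟩
  · refine mul_le_mul_of_nonneg_right (by exact_mod_cast h) ?_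
    positivity
  · exact Nat.mul_le_mul_right _ h

/-- the main theorem for nonzero cohomology -/
theorem main (hW : IsWeilCohomology W 𝒱) {X : Fin 1 → Sch k} {e : ℕ}
    (hX : 𝒱.mem (X 0) e) (hE : EvenProjector W (X 0) e) (h0 : (1 : W.coh (X 0)) ≠ 0)
    {T : ∀ P : Prd 1, Submodule ℂ (W.coh (P.obj X))} (hT : CorrStable W X T) :
    Tendsto (fun P => (Module.finrank ℂ (T P) : ℝ) / rankN W (P.obj X)) powers atTop ∨
    ∃ m : ℕ, Multiple W X T m ∧
      (∀ P : Prd 1, Even P.size → Module.finrank ℂ (T P) ≤ m * rankN W (P.obj X)) ∧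
      ((∀ P, algC W (P.obj X) ≤ T P) → (∀ P : Prd 1, ConjectureD W (P.obj X)) ∧
        (ExtClosed W X T → ∀ P : Prd 1, NondegOn W (T P)) ∧
        (m = 1 ↔ ∀ P, T P = algC W (P.obj X))) := by
  have hfd : Module.Finite ℂ (W.coh (X 0)) := hW.finite hX
  obtain ⟨d, hd⟩ : ∃ d, Module.finrank ℂ (W.coh (X 0)) = d := ⟨_, rfl⟩
  have hd0 : 0 < d := by
    rw [← hd]
    exact Module.finrank_pos_iff_exists_ne_zero.2 ⟨1, h0⟩
  have hX' : ∀ a, 𝒱.mem (X a) e := fun a => by
    rw [Subsingleton.elim a 0]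
    exact hX
  have hfP : ∀ P : Prd 1, Module.Finite ℂ (W.coh (P.obj X)) := fun P =>
    hW.finite (memP (X := X) (n := fun _ => e) hX' P)
  have key := fun R P => transfer hW hX hE h0 hT R P
  rw [hd] at key
  have hN : ∀ P : Prd 1, (0 : ℝ) < rankN W (P.obj X) := fun P => by
    exact_mod_cast rankN_pos hW hX hE h0 P
  have hs : ∀ n, ∃ P : Prd 1, n ≤ P.size := fun n => by
    obtain ⟨P, hP⟩ := TateW.exists_prd (n + 1) (Nat.succ_pos n)
    exact ⟨P, by omega⟩
  have hne : Nonempty (Prd 1) := ⟨.leaf 0⟩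
  have hn₀ : 0 < (20 * d ^ 3) ^ 2 := by positivity
  rcases Int52.dichotomy (ι := Prd 1) Prd.size
    (fun P => (Module.finrank ℂ (T P) : ℝ) / rankN W (P.obj X))
    (fun P => by positivity) (80 * (d : ℝ) ^ 3) (40 * (d : ℝ) ^ 3) (by positivity)
    (by positivity) ((20 * d ^ 3) ^ 2) hn₀ hs (Phi W X d T) phi_up (fun R m hR hm => by
      have h1 := hm.1 hR
      rw [div_le_iff₀ (hN R)]
      linarith) (fun R P hP => by
      obtain ⟨⟨m, h1, h2, h3, h4⟩, -⟩ := key R P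
      refine ⟨m, ⟨h1, h3, h4⟩, ?_⟩
      rw [le_div_iff₀ (hN P)]
      have h5 := h2 hP
      have h6 : (m : ℝ) * (1 - 40 * (d : ℝ) ^ 3 * R.size / √P.size) * rankN W (P.obj X) =
        m * ((1 - 40 * R.size * (d : ℝ) ^ 3 / Real.sqrt P.size) * (rankN W (P.obj X) : ℝ)) := by
        ring
      rw [h6]
      exact h5) with hinf | ⟨m, C, hC, hΦ, hbd⟩
  · exact Or.inl hinf
  right
  have hsq : ∀ P : Prd 1, (0 : ℝ) < √P.size := fun P =>
    Real.sqrt_pos.2 (by exact_mod_cast P.size_posC)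
  -- the constant
  let C' : ℝ := C + ((d : ℝ) ^ ((20 * d ^ 3) ^ 2) + m) * √(((20 * d ^ 3) ^ 2 : ℕ) : ℝ)
  have hmult : ∀ P : Prd 1, |(Module.finrank ℂ (T P) : ℝ) - m * rankN W (P.obj X)| ≤
      C' / √P.size * rankN W (P.obj X) := by
    intro P
    rcases le_or_gt ((20 * d ^ 3) ^ 2) P.size with hP | hP
    · have h1 := hbd P hP
      have h2 : (Module.finrank ℂ (T P) : ℝ) - m * rankN W (P.obj X) =
          ((Module.finrank ℂ (T P) : ℝ) / rankN W (P.obj X) - m) * rankN W (P.obj X) := by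
        rw [sub_mul, div_mul_cancel₀ _ (hN P).ne']
      rw [h2, abs_mul, abs_of_pos (hN P)]
      refine mul_le_mul_of_nonneg_right (h1.trans ?_) (hN P).le
      refine div_le_div_of_nonneg_right ?_ (hsq P).le
      have : 0 ≤ ((d : ℝ) ^ ((20 * d ^ 3) ^ 2) + m) * √(((20 * d ^ 3) ^ 2 : ℕ) : ℝ) := by
        positivity
      linarith
    · have hdR : (1 : ℝ) ≤ d := by exact_mod_cast hd0
      have h1 : (Module.finrank ℂ (T P) : ℝ) ≤ (d : ℝ) ^ ((20 * d ^ 3) ^ 2) := by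
        have h2 : (Module.finrank ℂ (T P) : ℝ) ≤ (d : ℝ) ^ P.size := by
          exact_mod_cast (key P P).2.1
        exact h2.trans (pow_le_pow_right₀ hdR hP.le)
      have hN1 : (1 : ℝ) ≤ rankN W (P.obj X) := by exact_mod_cast rankN_pos hW hX hE h0 P
      have h3 : (1 : ℝ) ≤ √(((20 * d ^ 3) ^ 2 : ℕ) : ℝ) / √P.size := by
        rw [le_div_iff₀ (hsq P), one_mul]
        exact Real.sqrt_le_sqrt (by exact_mod_cast hP.le)
      have h4 : 0 ≤ (d : ℝ) ^ ((20 * d ^ 3) ^ 2) := by positivity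
      have hm0 : (0 : ℝ) ≤ m := Nat.cast_nonneg m
      have h5 : |(Module.finrank ℂ (T P) : ℝ) - m * rankN W (P.obj X)| ≤
          ((d : ℝ) ^ ((20 * d ^ 3) ^ 2) + m) * rankN W (P.obj X) := by
        have h6 : (0 : ℝ) ≤ Module.finrank ℂ (T P) := Nat.cast_nonneg _
        have h7 : 0 ≤ (m : ℝ) * rankN W (P.obj X) := by positivity
        have h8 : (d : ℝ) ^ ((20 * d ^ 3) ^ 2) ≤
          (d : ℝ) ^ ((20 * d ^ 3) ^ 2) * rankN W (P.obj X) := by
          nlinarith
        rw [abs_le, add_mul]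
        constructor <;> linarith
      refine h5.trans (mul_le_mul_of_nonneg_right ?_ (hN P).le)
      have h6 : C' / √P.size = C / √P.size + ((d : ℝ) ^ ((20 * d ^ 3) ^ 2) + m) *
          (√(((20 * d ^ 3) ^ 2 : ℕ) : ℝ) / √P.size) := by
        change (C + ((d : ℝ) ^ ((20 * d ^ 3) ^ 2) + m) * √(((20 * d ^ 3) ^ 2 : ℕ) : ℝ)) /
          √P.size = _
        ring
      rw [h6]
      have h7 : 0 ≤ C / √P.size := by positivity
      have h8 : ((d : ℝ) ^ ((20 * d ^ 3) ^ 2) + m) ≤ ((d : ℝ) ^ ((20 * d ^ 3) ^ 2) + m) *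
          (√(((20 * d ^ 3) ^ 2 : ℕ) : ℝ) / √P.size) := by
        have : 0 ≤ ((d : ℝ) ^ ((20 * d ^ 3) ^ 2) + m) := by positivity
        nlinarith
      linarith
  have hC' : 0 ≤ C' := by positivity
  refine ⟨m, ⟨C', hmult⟩, fun P hP => (hΦ P).2.1 hP, fun hA => ?_⟩
  -- no inverse square root law
  have hno : ∀ (R : Prd 1), (∀ P : Prd 1, √P.size * rankN W (P.obj X) ≤
      160 * (R.size : ℝ) * (d : ℝ) ^ 3 * Module.finrank ℂ (T P)) → False := by
    intro R hlaw
    obtain ⟨N, hN'⟩ := exists_nat_ge ((160 * (R.size : ℝ) * (d : ℝ) ^ 3 * (m + C')) ^ 2)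
    obtain ⟨P, hP⟩ := hs (N + 1)
    have h1 := hlaw P
    have h3 := (abs_le.1 (hmult P)).2
    have h4 : C' / √P.size ≤ C' := by
      apply div_le_self hC'
      rw [Real.one_le_sqrt]
      exact_mod_cast P.size_posC
    have h5 : (Module.finrank ℂ (T P) : ℝ) ≤ (m + C') * rankN W (P.obj X) := by
      have h6 := mul_le_mul_of_nonneg_right h4 (hN P).le
      rw [add_mul]
      linarith
    have h6 : √P.size * rankN W (P.obj X) ≤
        (160 * (R.size : ℝ) * (d : ℝ) ^ 3 * (m + C')) * rankN W (P.obj X) := by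
      refine h1.trans ?_
      have h7 : 0 ≤ 160 * (R.size : ℝ) * (d : ℝ) ^ 3 := by positivity
      calc 160 * (R.size : ℝ) * (d : ℝ) ^ 3 * Module.finrank ℂ (T P) ≤
          160 * (R.size : ℝ) * (d : ℝ) ^ 3 * ((m + C') * rankN W (P.obj X)) :=
            mul_le_mul_of_nonneg_left h5 h7
        _ = (160 * (R.size : ℝ) * (d : ℝ) ^ 3 * (m + C')) * rankN W (P.obj X) := by ring
    have h7 := le_of_mul_le_mul_right h6 (hN P)
    have h8 : (P.size : ℝ) ≤ (160 * (R.size : ℝ) * (d : ℝ) ^ 3 * (m + C')) ^ 2 := by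
      have h9 := pow_le_pow_left₀ (hsq P).le h7 2
      rwa [Real.sq_sqrt (Nat.cast_nonneg _)] at h9
    have h9 : ((N + 1 : ℕ) : ℝ) ≤ P.size := by exact_mod_cast hP
    push_cast at h9
    linarith
  -- no numerically trivial classes
  have hnum : ∀ R : Prd 1, numC W (R.obj X) = ⊥ := by
    intro R
    by_contra hne
    refine hno R fun P => ?_
    have h1 := (transfer_root hW hX hE h0 R P).2 hne
    rw [hd] at h1
    have h2 : (Module.finrank ℂ (algC W (P.obj X)) : ℝ) ≤ Module.finrank ℂ (T P) := by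
      exact_mod_cast Submodule.finrank_mono (hA P)
    exact h1.trans (mul_le_mul_of_nonneg_left h2 (by positivity))
  have hrank : ∀ R : Prd 1, rankN W (R.obj X) = Module.finrank ℂ (algC W (R.obj X)) := by
    intro R
    unfold rankN
    rw [hnum R, finrank_bot, Nat.sub_zero]
  refine ⟨fun R l z hz hzn => ?_, fun hTe R => ?_, fun hm R => ?_, fun hTA => ?_⟩
  · have h3 : z ∈ numC W (R.obj X) := ⟨Submodule.subset_span ⟨l, hz⟩, hzn⟩
    rw [hnum R] at h3
    exact (Submodule.mem_bot ℂ).1 h3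
  · by_contra hnd
    refine hno R fun P => ?_
    have h1 := (transfer_root hW hX hE h0 R P).1 T ⟨hA, hT⟩ hTe hnd
    rwa [hd] at h1
  · have h1 := (hΦ R).2.2 (hA R) hm.le
    rw [hrank R] at h1
    exact (Submodule.eq_of_le_of_finrank_le (hA R) h1).symm
  · -- the integer is `1`
    obtain ⟨N, hN'⟩ := exists_nat_gt ((C') ^ 2)
    obtain ⟨P, hP⟩ := hs N
    have h1 := hmult P
    rw [hTA P, ← hrank P] at h1
    have h2 : |1 - (m : ℝ)| ≤ C' / √P.size := by
      have h3 : (rankN W (P.obj X) : ℝ) - m * rankN W (P.obj X) =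
        (1 - (m : ℝ)) * rankN W (P.obj X) := by ring
      rw [h3, abs_mul, abs_of_pos (hN P)] at h1
      exact le_of_mul_le_mul_right h1 (hN P)
    have h3 : C' / √P.size < 1 := by
      rw [div_lt_one (hsq P)]
      apply Real.lt_sqrt_of_sq_lt
      exact hN'.trans_le (by exact_mod_cast hP)
    have h4 := abs_lt.1 (h2.trans_lt h3)
    have h5 : (m : ℝ) < 2 := by linarith [h4.1]
    have h6 : (0 : ℝ) < m := by linarith [h4.2]
    have h7 : m < 2 := by exact_mod_cast h5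
    have h8 : 0 < m := by exact_mod_cast h6
    omega

end nonzero

end IntW

end Pool.Agent.Lib.MP_361a6f_ag.FL
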