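import Pool.Agent.Lib.MP_361a6f_ag.FL.O.HullI35
import Pool.Agent.Lib.MP_361a6f_ag.FL.B.Defs

/-!
# The convex hull law for a set of odd letters
-/

open Matrix Polynomial MeasureTheory

set_option autoImplicit false
set_option linter.unusedSectionVars false

namespace Pool.Agent.Lib.MP_361a6f_ag.FL

namespace Hull35

variable {I Λ : Type} [Fintype I] [DecidableEq I] [DecidableEq Λ] {D : Dat I Λ}

theorem isG_mul {g h : Matrix I I ℂ} (hg : IsG D g) (hh : IsG D h) : IsG D (g * h) := by
  refine ⟨fun i j hij => ?_, ?_⟩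
  · rw [Matrix.mul_apply]
    refine Finset.sum_eq_zero fun l _ => ?_
    by_cases h1 : D.typ i = D.typ l
    · rw [hh.1 l j (fun h2 => hij (h1.trans h2)), mul_zero]
    · rw [hg.1 i l h1, zero_mul]
  · rw [Matrix.transpose_mul]
    calc h.transpose * g.transpose * Psi D * (g * h)
        = h.transpose * (g.transpose * Psi D * g) * h := by simp only [Matrix.mul_assoc]
      _ = Psi D := by rw [hg.2, hh.2]

theorem isK_mul {g h : Matrix I I ℂ} (hg : IsK D g) (hh : IsK D h) : IsK D (g * h) := by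
  refine ⟨isG_mul hg.1 hh.1, ?_⟩
  rw [Matrix.conjTranspose_mul]
  calc h.conjTranspose * g.conjTranspose * (g * h)
      = h.conjTranspose * (g.conjTranspose * g) * h := by simp only [Matrix.mul_assoc]
    _ = 1 := by rw [hg.2, Matrix.mul_one, hh.2]

variable (S : I → Prop) [DecidablePred S] (hS : ∀ i j, D.typ i = D.typ j → (S i ↔ S j))

/-- the letters in `S` -/
def subDat : Dat {i // S i} Λ where
  typ i := D.typ i.1
  odd := D.odd
  τ i := ⟨D.τ i.1, (hS _ _ (D.typ_τ i.1)).2 i.2⟩
  s i := D.s i.1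
  τ_τ i := Subtype.ext (D.τ_τ i.1)
  typ_τ i := D.typ_τ i.1
  s_val i := D.s_val i.1
  even_τ i h := ⟨Subtype.ext (D.even_τ i.1 h).1, (D.even_τ i.1 h).2⟩
  odd_τ i h := ⟨fun h' => (D.odd_τ i.1 h).1 (congrArg Subtype.val h'), (D.odd_τ i.1 h).2⟩

/-- a sum over all letters of a function supported on `S` -/
theorem sum_sub (f : I → ℂ) (hf : ∀ i, ¬ S i → f i = 0) :
    ∑ i, f i = ∑ i : {i // S i}, f i.1 := by
  classical
  rw [← Finset.sum_subtype (Finset.univ.filter S) (fun i => by simp) f]
  rw [Finset.sum_filter_of_ne]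
  intro i _ hi
  by_contra h
  exact hi (hf i h)

theorem psi_sub (i j : {i // S i}) : Psi D i.1 j.1 = Psi (subDat S hS) i j := by
  show (if j.1 = D.τ i.1 then D.s i.1 else 0) =
    if j = (subDat S hS).τ i then (subDat S hS).s i else 0
  by_cases h : j.1 = D.τ i.1
  · have h' : j = (subDat S hS).τ i := Subtype.ext h
    rw [if_pos h, if_pos h']
    rfl
  · have h' : ¬ j = (subDat S hS).τ i := fun h' => h (congrArg Subtype.val h')
    rw [if_neg h, if_neg h']

include hS in
theorem isK_sub {g : Matrix I I ℂ} (hg : IsK D g) : IsK (subDat S hS)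
    (g.submatrix (Subtype.val : {i // S i} → I) (Subtype.val : {i // S i} → I)) := by
  have hz : ∀ i j, S i → ¬ S j → g i j = 0 := fun i j hi hj =>
    hg.1.1 i j fun h => hj ((hS i j h).1 hi)
  have hz' : ∀ i j, ¬ S i → S j → g i j = 0 := fun i j hi hj =>
    hg.1.1 i j fun h => hi ((hS i j h).2 hj)
  refine ⟨⟨fun i j h => hg.1.1 i.1 j.1 h, ?_⟩, ?_⟩
  · ext i j
    have h1 := congrFun (congrFun hg.1.2 i.1) j.1
    have h2 : Psi D i.1 j.1 = Psi (subDat S hS) i j := psi_sub S hS i j
    rw [← h2, ← h1, Matrix.mul_apply, Matrix.mul_apply, sum_sub S]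
    · refine Finset.sum_congr rfl fun l _ => ?_
      rw [Matrix.submatrix_apply]
      congr 1
      rw [Matrix.mul_apply, Matrix.mul_apply, sum_sub S]
      · refine Finset.sum_congr rfl fun m _ => ?_
        rw [Matrix.transpose_apply, Matrix.transpose_apply, Matrix.submatrix_apply]
        congr 1
        exact (psi_sub S hS m l).symm
      · intro m hm
        rw [Matrix.transpose_apply, hz' m i.1 hm i.2, zero_mul]
    · intro l hl
      rw [hz' l j.1 hl j.2, mul_zero]
  · ext i j
    have h1 := congrFun (congrFun hg.2 i.1) j.1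
    have h2 : (1 : Matrix I I ℂ) i.1 j.1 = (1 : Matrix {i // S i} {i // S i} ℂ) i j := by
      rw [Matrix.one_apply, Matrix.one_apply]
      by_cases h : i = j
      · rw [if_pos h, if_pos (congrArg Subtype.val h)]
      · rw [if_neg h, if_neg fun h' => h (Subtype.ext h')]
    rw [← h2, ← h1, Matrix.mul_apply, Matrix.mul_apply, sum_sub S]
    · refine Finset.sum_congr rfl fun l _ => ?_
      rw [Matrix.conjTranspose_apply, Matrix.conjTranspose_apply, Matrix.submatrix_apply,
        Matrix.submatrix_apply]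
    · intro l hl
      rw [hz' l j.1 hl j.2, mul_zero]

include hS in
/-- **The convex hull law for a set of odd letters.** -/
theorem hull_core {β : Type} [Fintype β] {lb : β → ℕ} {b : Tup I lb} (H : HMb D b)
    {k : Matrix I I ℂ} (hk : IsK D k) (ho : ∀ i, S i → D.odd (D.typ i)) {n : ℕ}
    (hn : Fintype.card {i // S i} = 2 * n) :
    ∃ w : ℕ → ℝ, (∀ j, 0 ≤ w j) ∧ ∑ j ∈ Finset.range (n + 1), w j = 1 ∧
      ∀ t : ℂ, ∫ x, (1 + t • (k * H.mat x).submatrix (Subtype.val : {i // S i} → I)
        (Subtype.val : {i // S i} → I)).det ∂H.μ = ∑ j ∈ Finset.range (n + 1),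
          (w j : ℂ) * ((1 + t) ^ (2 * j) * (1 - t) ^ (2 * (n - j))) := by
  refine int_conv (D := subDat S hS) (fun i => ho i.1 i.2) hn H.μ
    (f := fun x => (k * H.mat x).submatrix (Subtype.val : {i // S i} → I)
      (Subtype.val : {i // S i} → I)) ?_ fun x => isK_sub S hS (isK_mul hk (H.mem x).1)
  exact (continuous_const.mul H.cont_mat).matrix_submatrix _ _

end Hull35

end Pool.Agent.Lib.MP_361a6f_ag.FL
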