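import Mathlib

/-!
# Zero-one laws, row SIG: the signature of a real form through its limit map

`V` is a real vector space with a symmetric bilinear form `B`, `s : V → M` a real linear map to a
complex vector space (the map to the limits), `k` an involution of the complex span of `s(V)`
with `k s(V) = s(V)`. If `s(V) ∩ i s(V) = 0`, the kernel of `s` is in the radical of `B` and `B`
is positive (negative) definite on the vectors `u` with `k s(u) = s(u)` (`k s(u) = -s(u)`) modulo
the kernel, then the largest dimension of a positive definite subspace is the dimension of the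
space of the vectors of the complex span with `k v = v`, the same for negative definite subspaces,
and the rank of `B` is the dimension of the complex span.
-/

open Module

set_option autoImplicit false
set_option linter.unusedSectionVars false

namespace Pool.Agent.Lib.MP_361a6f_ag.FL.OSig

/-! ### A totally real subspace -/

section real

variable {M : Type*} [AddCommGroup M] [Module ℂ M] [Module ℝ M] [IsScalarTower ℝ ℂ M]

theorem smul_split (c : ℂ) (v : M) : c • v = c.re • v + Complex.I • (c.im • v) := by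
  conv_lhs => rw [← Complex.re_add_im c]
  rw [add_smul, mul_comm, mul_smul]
  congr 1
  · rw [← Complex.coe_algebraMap, algebraMap_smul]
  · congr 1
    rw [← Complex.coe_algebraMap, algebraMap_smul]

/-- the complex dimension of the complex span of a totally real subspace -/
theorem finrank_span_of_real (T : Submodule ℝ M) [FiniteDimensional ℝ T]
    (h : ∀ a ∈ T, ∀ b ∈ T, a = Complex.I • b → a = 0) :
    finrank ℂ (Submodule.span ℂ (T : Set M)) = finrank ℝ T := by
  classical
  set e := finBasis ℝ T with he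
  set v : Fin (finrank ℝ T) → M := fun i => (e i : M) with hv
  have hlr : LinearIndependent ℝ v := by
    have h1 := e.linearIndependent.map' T.subtype (Submodule.ker_subtype T)
    exact h1
  have hl : LinearIndependent ℂ v := by
    rw [Fintype.linearIndependent_iff]
    intro g hg
    have hmem : ∀ f : Fin (finrank ℝ T) → ℝ, ∑ i, f i • v i ∈ T := fun f =>
      Submodule.sum_mem _ fun i _ => Submodule.smul_mem _ _ (e i).2
    have h1 : ∑ i, (g i).re • v i = Complex.I • ∑ i, (-(g i).im) • v i := by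
      have h2 : ∑ i, g i • v i = ∑ i, (g i).re • v i + Complex.I • ∑ i, (g i).im • v i := by
        rw [Finset.smul_sum, ← Finset.sum_add_distrib]
        exact Finset.sum_congr rfl fun i _ => smul_split _ _
      rw [hg] at h2
      have h3 : ∑ i, (-(g i).im) • v i = -∑ i, (g i).im • v i := by
        rw [← Finset.sum_neg_distrib]
        exact Finset.sum_congr rfl fun i _ => neg_smul _ _
      rw [h3, smul_neg]
      exact eq_neg_of_add_eq_zero_left h2.symm
    have h4 := h _ (hmem _) _ (hmem _) h1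
    rw [h4] at h1
    have h5 : ∑ i, (-(g i).im) • v i = 0 := by
      have := congrArg (fun x => (-Complex.I) • x) h1
      simp only [smul_zero, smul_smul] at this
      rw [neg_mul, Complex.I_mul_I, neg_neg, one_smul] at this
      exact this.symm
    intro i
    have h6 := Fintype.linearIndependent_iff.1 hlr _ h4 i
    have h7 := Fintype.linearIndependent_iff.1 hlr _ h5 i
    exact Complex.ext h6 (neg_eq_zero.1 h7)
  have hsp : Submodule.span ℂ (T : Set M) = Submodule.span ℂ (Set.range v) := by
    apply le_antisymm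
    · rw [Submodule.span_le]
      intro x hx
      have h1 : x = ∑ i, e.repr ⟨x, hx⟩ i • v i := by
        have := congrArg (fun y : T => (y : M)) (e.sum_repr ⟨x, hx⟩)
        simp only [Submodule.coe_sum, Submodule.coe_smul] at this
        exact this.symm
      rw [h1]
      refine Submodule.sum_mem _ fun i _ => ?_
      rw [← algebraMap_smul ℂ]
      exact Submodule.smul_mem _ _ (Submodule.subset_span ⟨i, rfl⟩)
    · rw [Submodule.span_le]
      rintro _ ⟨i, rfl⟩
      exact Submodule.subset_span (e i).2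
  rw [hsp, finrank_span_eq_card hl, Fintype.card_fin]

/-- every vector of the complex span is `a + i b` -/
theorem exists_of_mem_span (T : Submodule ℝ M) {x : M}
    (hx : x ∈ Submodule.span ℂ (T : Set M)) : ∃ a ∈ T, ∃ b ∈ T, x = a + Complex.I • b := by
  induction hx using Submodule.span_induction with
  | mem x hx => exact ⟨x, hx, 0, T.zero_mem, by rw [smul_zero, add_zero]⟩
  | zero => exact ⟨0, T.zero_mem, 0, T.zero_mem, by rw [smul_zero, add_zero]⟩
  | add x y _ _ hx hy =>
    obtain ⟨a, ha, b, hb, rfl⟩ := hx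
    obtain ⟨c, hc, d, hd, rfl⟩ := hy
    refine ⟨a + c, add_mem ha hc, b + d, add_mem hb hd, ?_⟩
    rw [smul_add]
    abel
  | smul c x _ hx =>
    obtain ⟨a, ha, b, hb, rfl⟩ := hx
    refine ⟨c.re • a - c.im • b, sub_mem (T.smul_mem _ ha) (T.smul_mem _ hb),
      c.im • a + c.re • b, add_mem (T.smul_mem _ ha) (T.smul_mem _ hb), ?_⟩
    have h1 : c • (Complex.I • b) = Complex.I • (c.re • b) - c.im • b := by
      rw [smul_comm, smul_split c b, smul_add, smul_smul, Complex.I_mul_I, neg_smul, one_smul,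
        sub_eq_add_neg]
    rw [smul_add, h1, smul_split c a, smul_add]
    abel

end real

/-! ### The signature -/

variable {V M : Type*} [AddCommGroup V] [Module ℝ V] [AddCommGroup M] [Module ℂ M] [Module ℝ M]
  [IsScalarTower ℝ ℂ M]

/-- the data of the row -/
structure Data (B : V →ₗ[ℝ] V →ₗ[ℝ] ℝ) (s : V →ₗ[ℝ] M) (k : M →ₗ[ℂ] M) : Prop where
  sym : ∀ u u', B u u' = B u' u
  stab : ∀ u, ∃ u', s u' = k (s u)
  inv : ∀ u, k (k (s u)) = s u
  tot : ∀ u u', s u = Complex.I • s u' → s u = 0
  ker : ∀ u, s u = 0 → ∀ u', B u u' = 0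
  pos : ∀ u, k (s u) = s u → s u ≠ 0 → 0 < B u u
  neg : ∀ u, k (s u) = -s u → s u ≠ 0 → B u u < 0

namespace Data

variable {B : V →ₗ[ℝ] V →ₗ[ℝ] ℝ} {s : V →ₗ[ℝ] M} {k : M →ₗ[ℂ] M}

theorem k_real (k : M →ₗ[ℂ] M) (r : ℝ) (v : M) : k (r • v) = r • k v := by
  rw [← algebraMap_smul ℂ r v, map_smul, algebraMap_smul]

/-- the vectors of `s(V)` with `k v = ε v` -/
def eig (s : V →ₗ[ℝ] M) (k : M →ₗ[ℂ] M) (ε : ℝ) : Submodule ℝ M where
  carrier := {v | v ∈ LinearMap.range s ∧ k v = ε • v}
  add_mem' := by
    rintro a b ⟨ha, ha'⟩ ⟨hb, hb'⟩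
    exact ⟨add_mem ha hb, by rw [map_add, ha', hb', smul_add]⟩
  zero_mem' := ⟨zero_mem _, by rw [map_zero, smul_zero]⟩
  smul_mem' := by
    rintro c a ⟨ha, ha'⟩
    exact ⟨Submodule.smul_mem _ _ ha, by rw [k_real, ha', smul_comm]⟩

theorem mem_eig {ε : ℝ} {v : M} : v ∈ eig s k ε ↔ v ∈ LinearMap.range s ∧ k v = ε • v := Iff.rfl

/-- the vectors of the complex span of `s(V)` with `k v = ε v` -/
def eigC (s : V →ₗ[ℝ] M) (k : M →ₗ[ℂ] M) (ε : ℝ) : Submodule ℂ M where
  carrier := {v | v ∈ Submodule.span ℂ (LinearMap.range s : Set M) ∧ k v = ε • v}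
  add_mem' := by
    rintro a b ⟨ha, ha'⟩ ⟨hb, hb'⟩
    exact ⟨add_mem ha hb, by rw [map_add, ha', hb', smul_add]⟩
  zero_mem' := ⟨zero_mem _, by rw [map_zero, smul_zero]⟩
  smul_mem' := by
    rintro c a ⟨ha, ha'⟩
    refine ⟨Submodule.smul_mem _ _ ha, ?_⟩
    rw [map_smul, ha', ← algebraMap_smul ℂ ε a, ← algebraMap_smul ℂ ε (c • a), smul_comm]

theorem mem_eigC {ε : ℝ} {v : M} :
    v ∈ eigC s k ε ↔ v ∈ Submodule.span ℂ (LinearMap.range s : Set M) ∧ k v = ε • v := Iff.rfl

/-- the projection to an eigenspace, times two -/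
theorem add_mem_eig (h : Data B s k) {ε : ℝ} (hε : ε * ε = 1) {v : M}
    (hv : v ∈ LinearMap.range s) : v + ε • k v ∈ eig s k ε := by
  obtain ⟨u, rfl⟩ := hv
  obtain ⟨u', hu'⟩ := h.stab u
  refine ⟨add_mem ⟨u, rfl⟩ (Submodule.smul_mem _ _ ⟨u', hu'⟩), ?_⟩
  rw [map_add, k_real, h.inv, smul_add, smul_smul, hε, one_smul, add_comm]

variable [FiniteDimensional ℝ V]

theorem eigC_eq (h : Data B s k) {ε : ℝ} (hε : ε * ε = 1) :
    eigC s k ε = Submodule.span ℂ (eig s k ε : Set M) := by
  apply le_antisymm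
  · rintro x ⟨hx, hk⟩
    obtain ⟨a, ha, b, hb, hab⟩ := exists_of_mem_span _ hx
    have h2 : ε • k x = x := by rw [hk, smul_smul, hε, one_smul]
    have h1 : (2 : ℂ) • x = (a + ε • k a) + Complex.I • (b + ε • k b) := by
      have h3 : (2 : ℂ) • x = x + ε • k x := by rw [h2, two_smul]
      rw [h3, hab, map_add, map_smul, smul_add, smul_add, smul_comm ε Complex.I (k b)]
      abel
    have h4 : x = (2 : ℂ)⁻¹ • ((a + ε • k a) + Complex.I • (b + ε • k b)) := by
      rw [← h1, smul_smul, inv_mul_cancel₀ two_ne_zero, one_smul]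
    rw [h4]
    exact Submodule.smul_mem _ _ (add_mem (Submodule.subset_span (h.add_mem_eig hε ha))
      (Submodule.smul_mem _ _ (Submodule.subset_span (h.add_mem_eig hε hb))))
  · rw [Submodule.span_le]
    rintro x ⟨hx, hk⟩
    exact ⟨Submodule.subset_span hx, hk⟩

theorem tot' (h : Data B s k) : ∀ a ∈ LinearMap.range s, ∀ b ∈ LinearMap.range s,
    a = Complex.I • b → a = 0 := by
  rintro _ ⟨u, rfl⟩ _ ⟨u', rfl⟩ hab
  exact h.tot u u' hab

instance : FiniteDimensional ℝ (LinearMap.range s) := inferInstance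

instance (ε : ℝ) : FiniteDimensional ℝ (eig s k ε) :=
  Submodule.finiteDimensional_of_le (S₂ := LinearMap.range s) fun _ hx => hx.1

/-- the complex dimension of the complex span -/
theorem finrank_span (h : Data B s k) :
    finrank ℂ (Submodule.span ℂ (LinearMap.range s : Set M)) = finrank ℝ (LinearMap.range s) :=
  finrank_span_of_real _ h.tot'

theorem finrank_eigC (h : Data B s k) {ε : ℝ} (hε : ε * ε = 1) :
    finrank ℂ (eigC s k ε) = finrank ℝ (eig s k ε) := by
  rw [h.eigC_eq hε]
  exact finrank_span_of_real _ fun a ha b hb hab => h.tot' a ha.1 b hb.1 hab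

/-- the map `u ↦ s(u) + ε k s(u)` to an eigenspace -/
noncomputable def toEig (h : Data B s k) {ε : ℝ} (hε : ε * ε = 1) : V →ₗ[ℝ] eig s k ε where
  toFun u := ⟨s u + ε • k (s u), h.add_mem_eig hε ⟨u, rfl⟩⟩
  map_add' u v := by
    apply Subtype.ext
    show s (u + v) + ε • k (s (u + v)) = (s u + ε • k (s u)) + (s v + ε • k (s v))
    rw [map_add, map_add, smul_add]
    abel
  map_smul' c u := by
    apply Subtype.ext
    show s (c • u) + ε • k (s (c • u)) = c • (s u + ε • k (s u))
    rw [map_smul, k_real, smul_add, smul_comm ε c]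

theorem toEig_apply (h : Data B s k) {ε : ℝ} (hε : ε * ε = 1) (u : V) :
    (h.toEig hε u : M) = s u + ε • k (s u) := rfl

/-- a subspace on which `B` does not vanish with the wrong sign has dimension at most the
dimension of the eigenspace -/
theorem finrank_le (h : Data B s k) {ε : ℝ} (hε : ε * ε = 1) (W : Submodule ℝ V)
    (hW : ∀ w ∈ W, s w + ε • k (s w) = 0 → w = 0) : finrank ℝ W ≤ finrank ℝ (eig s k ε) := by
  refine LinearMap.finrank_le_finrank_of_injective (f := (h.toEig hε) ∘ₗ W.subtype) ?_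
  rw [← LinearMap.ker_eq_bot, LinearMap.ker_eq_bot']
  intro w hw
  have h1 := congrArg (fun x : eig s k ε => (x : M)) hw
  exact Subtype.ext (hW w w.2 h1)

/-- a lift of the eigenspace -/
theorem exists_lift (ε : ℝ) : ∃ W : Submodule ℝ V, (∀ w ∈ W, s w ∈ eig s k ε) ∧
    (∀ w ∈ W, s w = 0 → w = 0) ∧ finrank ℝ W = finrank ℝ (eig s k ε) := by
  obtain ⟨g, hg⟩ := s.rangeRestrict.exists_rightInverse_of_surjective s.range_rangeRestrict
  have hg' : ∀ x : LinearMap.range s, s (g x) = x := fun x => by
    have := congrArg (fun f : LinearMap.range s →ₗ[ℝ] LinearMap.range s => ((f x : _) : M)) hg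
    exact this
  have hle : eig s k ε ≤ LinearMap.range s := fun _ hx => hx.1
  set f : eig s k ε →ₗ[ℝ] V := g ∘ₗ Submodule.inclusion hle with hf
  have hsf : ∀ x, s (f x) = x := fun x => hg' _
  have hinj : Function.Injective f := fun x y hxy => Subtype.ext (by rw [← hsf, ← hsf, hxy])
  refine ⟨LinearMap.range f, ?_, ?_, LinearMap.finrank_range_of_inj hinj⟩
  · rintro _ ⟨x, rfl⟩
    rw [hsf]
    exact x.2
  · rintro _ ⟨x, rfl⟩ h0
    rw [hsf] at h0
    rw [Subtype.ext (a2 := (0 : eig s k ε)) h0, map_zero]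

/-- positive definite subspaces: the upper bound -/
theorem pos_le (h : Data B s k) (W : Submodule ℝ V) (hW : ∀ w ∈ W, w ≠ 0 → 0 < B w w) :
    finrank ℝ W ≤ finrank ℂ (eigC s k 1) := by
  rw [h.finrank_eigC (one_mul 1)]
  refine h.finrank_le (one_mul 1) W fun w hw h0 => ?_
  by_contra hne
  have h1 := hW w hw hne
  by_cases hs : s w = 0
  · rw [h.ker w hs w] at h1
    exact lt_irrefl _ h1
  · refine absurd h1 (not_lt.2 (h.neg w ?_ hs).le)
    rw [one_smul] at h0
    exact eq_neg_of_add_eq_zero_right h0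

/-- positive definite subspaces: the largest dimension is attained -/
theorem exists_pos (h : Data B s k) : ∃ W : Submodule ℝ V, (∀ w ∈ W, w ≠ 0 → 0 < B w w) ∧
    finrank ℝ W = finrank ℂ (eigC s k 1) := by
  obtain ⟨W, h1, h2, h3⟩ := exists_lift (s := s) (k := k) 1
  refine ⟨W, fun w hw hne => h.pos w ?_ fun h0 => hne (h2 w hw h0), ?_⟩
  · have := (h1 w hw).2
    rwa [one_smul] at this
  · rw [h.finrank_eigC (one_mul 1), h3]

theorem neg_one_mul_self : (-1 : ℝ) * -1 = 1 := by norm_num

/-- negative definite subspaces: the upper bound -/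
theorem neg_le (h : Data B s k) (W : Submodule ℝ V) (hW : ∀ w ∈ W, w ≠ 0 → B w w < 0) :
    finrank ℝ W ≤ finrank ℂ (eigC s k (-1)) := by
  rw [h.finrank_eigC neg_one_mul_self]
  refine h.finrank_le neg_one_mul_self W fun w hw h0 => ?_
  by_contra hne
  have h1 := hW w hw hne
  by_cases hs : s w = 0
  · rw [h.ker w hs w] at h1
    exact lt_irrefl _ h1
  · refine absurd h1 (not_lt.2 (h.pos w ?_ hs).le)
    rw [neg_one_smul, ← sub_eq_add_neg] at h0
    exact (sub_eq_zero.1 h0).symm

/-- negative definite subspaces: the largest dimension is attained -/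
theorem exists_neg (h : Data B s k) : ∃ W : Submodule ℝ V, (∀ w ∈ W, w ≠ 0 → B w w < 0) ∧
    finrank ℝ W = finrank ℂ (eigC s k (-1)) := by
  obtain ⟨W, h1, h2, h3⟩ := exists_lift (s := s) (k := k) (-1)
  refine ⟨W, fun w hw hne => h.neg w ?_ fun h0 => hne (h2 w hw h0), ?_⟩
  · have := (h1 w hw).2
    rwa [neg_one_smul] at this
  · rw [h.finrank_eigC neg_one_mul_self, h3]

/-- the kernel of `s` is the radical of `B` -/
theorem ker_iff (h : Data B s k) (u : V) : s u = 0 ↔ ∀ u', B u u' = 0 := by
  refine ⟨h.ker u, fun h0 => ?_⟩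
  obtain ⟨u', hu'⟩ := h.stab u
  -- `u = a + b`, `u' = a - b` modulo the kernel
  have hb : k (s u') = s u := by rw [hu', h.inv]
  have hp : k (s (u + u')) = s (u + u') := by rw [map_add, map_add, hb, ← hu', add_comm]
  have hn : k (s (u - u')) = -s (u - u') := by
    rw [map_sub, map_sub, hb, ← hu', neg_sub]
  have e1 : B (u + u') (u + u') = B u' u' := by
    simp only [map_add, LinearMap.add_apply, h0, h.sym u' u, zero_add]
  have e2 : B (u - u') (u - u') = B u' u' := by
    simp only [map_sub, LinearMap.sub_apply, h0, h.sym u' u, sub_zero, zero_sub, neg_neg]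
  by_cases hs1 : s (u + u') = 0
  · by_cases hs2 : s (u - u') = 0
    · have h5 : (2 : ℝ) • s u = s (u + u') + s (u - u') := by
        rw [← map_add, ← map_smul]
        congr 1
        rw [two_smul]
        abel
      rw [hs1, hs2, add_zero] at h5
      exact (smul_eq_zero.1 h5).resolve_left two_ne_zero
    · have h3 := h.neg _ hn hs2
      have h4 := h.ker _ hs1 (u + u')
      rw [e1] at h4
      rw [e2, h4] at h3
      exact absurd h3 (lt_irrefl _)
  · have h3 := h.pos _ hp hs1
    rw [e1] at h3
    by_cases hs2 : s (u - u') = 0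
    · have h4 := h.ker _ hs2 (u - u')
      rw [e2] at h4
      rw [h4] at h3
      exact absurd h3 (lt_irrefl _)
    · have h4 := h.neg _ hn hs2
      rw [e2] at h4
      exact absurd h3 (not_lt.2 h4.le)

/-- the rank of `B` is the dimension of the complex span -/
theorem finrank_ker_add (h : Data B s k) : finrank ℝ (LinearMap.ker B) +
    finrank ℂ (Submodule.span ℂ (LinearMap.range s : Set M)) = finrank ℝ V := by
  have h1 : LinearMap.ker B = LinearMap.ker s := by
    ext u
    rw [LinearMap.mem_ker, LinearMap.mem_ker, h.ker_iff]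
    exact ⟨fun h2 u' => by rw [h2, LinearMap.zero_apply], fun h2 => LinearMap.ext h2⟩
  rw [h1, h.finrank_span, add_comm]
  exact s.finrank_range_add_finrank_ker

/-- the complex span is the sum of the two eigenspaces -/
theorem finrank_add (h : Data B s k) : finrank ℂ (eigC s k 1) + finrank ℂ (eigC s k (-1)) =
    finrank ℂ (Submodule.span ℂ (LinearMap.range s : Set M)) := by
  rw [h.finrank_span, h.finrank_eigC (one_mul 1), h.finrank_eigC neg_one_mul_self]
  have hinf : eig s k 1 ⊓ eig s k (-1) = ⊥ := by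
    rw [eq_bot_iff]
    rintro x ⟨h1, h2⟩
    have h3 : (1 : ℝ) • x = (-1 : ℝ) • x := h1.2.symm.trans h2.2
    rw [one_smul, neg_one_smul] at h3
    have h4 : (2 : ℝ) • x = 0 := by
      rw [two_smul]
      nth_rewrite 2 [h3]
      rw [add_neg_cancel]
    exact (Submodule.mem_bot ℝ).2 ((smul_eq_zero.1 h4).resolve_left two_ne_zero)
  have hsup : eig s k 1 ⊔ eig s k (-1) = LinearMap.range s := by
    apply le_antisymm
    · exact sup_le (fun _ hx => hx.1) fun _ hx => hx.1
    · intro x hx
      have h1 := Submodule.add_mem_sup (h.add_mem_eig (one_mul 1) hx)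
        (h.add_mem_eig neg_one_mul_self hx)
      have h2 : x + (1 : ℝ) • k x + (x + (-1 : ℝ) • k x) = (2 : ℝ) • x := by
        rw [one_smul, neg_one_smul, two_smul]
        abel
      rw [h2] at h1
      have h3 := Submodule.smul_mem _ (2 : ℝ)⁻¹ h1
      rwa [smul_smul, inv_mul_cancel₀ two_ne_zero, one_smul] at h3
  have := Submodule.finrank_sup_add_finrank_inf_eq (eig s k 1) (eig s k (-1))
  rw [hinf, hsup, finrank_bot, add_zero] at this
  exact this.symm

end Data

end Pool.Agent.Lib.MP_361a6f_ag.FL.OSig
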