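import Pool.Agent.Lib.MP_361a6f_ag.FL.O.LevA
import Pool.Agent.Lib.MP_361a6f_ag.FL.O.Sig

/-!
# Theorem H, row R4: the signature on the range of a projector

`p` is an idempotent operator on the tensors of length `c` that commutes with the group and
preserves the real span of the members. The signature of `ψ` on the members `u` with `p u = u`
is the integral of the trace of `k x p`.
-/

open Filter Topology MeasureTheory Module

set_option autoImplicit false
set_option linter.unusedSectionVars false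

namespace Pool.Agent.Lib.MP_361a6f_ag.FL

namespace OSig

open OL

variable {I Λ β : Type} [Fintype I] [DecidableEq I] [DecidableEq Λ] [Fintype β] {lb : β → ℕ}
  {D : Dat I Λ} {At : (L : ℕ) → Ten I L → Prop} {m : ℕ} {b : Tup I lb} {H : HMb D b}
  {g : ℕ → Matrix I I ℂ} {k : Matrix I I ℂ}

/-- `p` is idempotent, commutes with the group and preserves the real span of the members -/
structure Prj (D : Dat I Λ) (At : (L : ℕ) → Ten I L → Prop) {c : ℕ}
    (p : Ten I c →ₗ[ℂ] Ten I c) : Prop where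
  idem : ∀ v, p (p v) = p v
  comm : ∀ x, IsG D x → ∀ v, p (gT x v) = gT x (p v)
  mem : ∀ u ∈ RA At c, p u ∈ RA At c

theorem p_real {c : ℕ} (p : Ten I c →ₗ[ℂ] Ten I c) (r : ℝ) (v : Ten I c) :
    p (r • v) = r • p v := by
  rw [Qps.real_smul, map_smul, Qps.real_smul]

/-- the elements of the real span in the range of `p` -/
def RP (At : (L : ℕ) → Ten I L → Prop) {c : ℕ} (p : Ten I c →ₗ[ℂ] Ten I c) :
    Submodule ℝ (Ten I c) where
  carrier := {u | u ∈ RA At c ∧ p u = u}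
  add_mem' := by
    rintro a b ⟨ha, ha'⟩ ⟨hb, hb'⟩
    exact ⟨add_mem ha hb, by rw [map_add, ha', hb']⟩
  zero_mem' := ⟨zero_mem _, map_zero p⟩
  smul_mem' := by
    rintro r a ⟨ha, ha'⟩
    exact ⟨Submodule.smul_mem _ r ha, by rw [p_real, ha']⟩

theorem mem_RP {c : ℕ} {p : Ten I c →ₗ[ℂ] Ten I c} {u : Ten I c} :
    u ∈ RP At p ↔ u ∈ RA At c ∧ p u = u := Iff.rfl

theorem RP_le {c : ℕ} {p : Ten I c →ₗ[ℂ] Ten I c} : RP At p ≤ RA At c := fun _ hu => hu.1

/-- the signature numbers of `ψ` on the members in the range of `p`: `P` (`Q`) is the largest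
dimension of a subspace on which `ψ` is positive (negative) definite -/
structure IsSigP (D : Dat I Λ) (At : (L : ℕ) → Ten I L → Prop) {c : ℕ}
    (p : Ten I c →ₗ[ℂ] Ten I c) (P Q : ℕ) : Prop where
  pos : ∃ U : Submodule ℝ (Ten I c), U ≤ RP At p ∧ PosU D U ∧ finrank ℝ U = P
  pos_le : ∀ U : Submodule ℝ (Ten I c), U ≤ RP At p → PosU D U → finrank ℝ U ≤ P
  neg : ∃ U : Submodule ℝ (Ten I c), U ≤ RP At p ∧ NegU D U ∧ finrank ℝ U = Q
  neg_le : ∀ U : Submodule ℝ (Ten I c), U ≤ RP At p → NegU D U → finrank ℝ U ≤ Q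

theorem IsSigP.unique {c : ℕ} {p : Ten I c →ₗ[ℂ] Ten I c} {P Q P' Q' : ℕ}
    (h : IsSigP D At p P Q) (h' : IsSigP D At p P' Q') : P = P' ∧ Q = Q' := by
  obtain ⟨U, h1, h2, h3⟩ := h.pos
  obtain ⟨U', h4, h5, h6⟩ := h'.pos
  obtain ⟨W, h7, h8, h9⟩ := h.neg
  obtain ⟨W', h10, h11, h12⟩ := h'.neg
  constructor
  · refine le_antisymm ?_ ?_
    · rw [← h3]; exact h'.pos_le U h1 h2
    · rw [← h6]; exact h.pos_le U' h4 h5
  · refine le_antisymm ?_ ?_
    · rw [← h9]; exact h'.neg_le W h7 h8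
    · rw [← h12]; exact h.neg_le W' h10 h11

/-- the real part of `ψ` on a real space of tensors -/
noncomputable def bilU (D : Dat I Λ) {c : ℕ} (R : Submodule ℝ (Ten I c)) : R →ₗ[ℝ] R →ₗ[ℝ] ℝ :=
  LinearMap.mk₂ ℝ (fun u u' => (psiT D (u : Ten I c) (u' : Ten I c)).re)
    (fun u v w => by
      show (psiT D ((u : Ten I c) + (v : Ten I c)) w).re =
        (psiT D (u : Ten I c) w).re + (psiT D (v : Ten I c) w).re
      rw [← Qps.psiL_apply, map_add, LinearMap.add_apply, Qps.psiL_apply, Qps.psiL_apply,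
        Complex.add_re])
    (fun r u w => by
      show (psiT D (r • (u : Ten I c)) w).re = r • (psiT D (u : Ten I c) w).re
      rw [Qps.real_smul, ← Qps.psiL_apply, map_smul, LinearMap.smul_apply, Qps.psiL_apply,
        smul_eq_mul, smul_eq_mul, Complex.re_ofReal_mul])
    (fun u v w => by
      show (psiT D (u : Ten I c) ((v : Ten I c) + (w : Ten I c))).re =
        (psiT D (u : Ten I c) v).re + (psiT D (u : Ten I c) w).re
      rw [← Qps.psiL_apply, map_add, Qps.psiL_apply, Qps.psiL_apply, Complex.add_re])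
    (fun r u w => by
      show (psiT D (u : Ten I c) (r • (w : Ten I c))).re = r • (psiT D (u : Ten I c) w).re
      rw [Qps.real_smul, ← Qps.psiL_apply, map_smul, Qps.psiL_apply,
        smul_eq_mul, smul_eq_mul, Complex.re_ofReal_mul])

theorem bilU_apply {c : ℕ} (R : Submodule ℝ (Ten I c)) (u u' : R) :
    bilU D R u u' = (psiT D (u : Ten I c) (u' : Ten I c)).re := rfl

section lev

variable (L : LevData D At m H g k) (a1 : Alg1) {c : ℕ} (hc : c ≤ m)
  {p : Ten I c →ₗ[ℂ] Ten I c} (hp : Prj D At p)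

include hp in
/-- the limit of `p u` -/
theorem lm_p (u : RA At c) :
    lm L a1 hc ⟨p u, hp.mem u u.2⟩ = p (lm L a1 hc u) := by
  refine tendsto_nhds_unique (lm_lim L a1 hc ⟨p u, hp.mem u u.2⟩) ?_
  have h1 : (fun j => gT (g j) (p (u : Ten I c))) = fun j => p (gT (g j) (u : Ten I c)) := by
    funext j
    rw [hp.comm _ (L.G j)]
  have h2 : Continuous p := LinearMap.continuous_of_finiteDimensional p
  show Tendsto (fun j => gT (g j) (p (u : Ten I c))) atTop (𝓝 (p (lm L a1 hc u)))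
  rw [h1]
  exact (h2.tendsto _).comp (lm_lim L a1 hc u)

/-- the limits of the members in the range of `p` -/
noncomputable def sP : RP At p →ₗ[ℝ] Ten I c :=
  lm L a1 hc ∘ₗ Submodule.inclusion RP_le

theorem sP_apply (u : RP At p) : sP L a1 hc u = lm L a1 hc ⟨u, u.2.1⟩ := rfl

include hp in
theorem p_sP (u : RP At p) : p (sP L a1 hc u) = sP L a1 hc u := by
  rw [sP_apply, ← lm_p L a1 hc hp ⟨u, u.2.1⟩]
  congr 1
  exact Subtype.ext u.2.2

include L a1 hc in
theorem psi_comm' (u u' : RA At c) :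
    psiT D (u : Ten I c) (u' : Ten I c) = psiT D (u' : Ten I c) (u : Ten I c) := by
  have hjj : ∀ w : RA At c, jT D (jT D (lm L a1 hc w)) = lm L a1 hc w := by
    intro w
    rw [lm_j, a1.jT_gT D k _ L.K, lm_j, lm_kk]
  have h1 : ∀ w w' : RA At c, psiT D (w : Ten I c) (w' : Ten I c) =
      hT (lm L a1 hc w) (jT D (lm L a1 hc w')) := by
    intro w w'
    rw [← lm_psi L a1 hc, ← a1.psiT_jT D, hjj]
  rw [h1, h1, ← a1.hT_jT_jT D (jT D (lm L a1 hc u)) (lm L a1 hc u'), hjj]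

include hp in
theorem dataP : Data (bilU D (RP At p)) (sP L a1 hc) (gL a1 c k) := by
  refine ⟨?_, ?_, ?_, ?_, ?_, ?_, ?_⟩
  · intro u u'
    rw [bilU_apply, bilU_apply, psi_comm' L a1 hc ⟨u, u.2.1⟩ ⟨u', u'.2.1⟩]
  · intro u
    obtain ⟨u', hu'⟩ := lm_k L a1 hc ⟨u, u.2.1⟩
    refine ⟨⟨p u', hp.mem u' u'.2, hp.idem _⟩, ?_⟩
    rw [sP_apply, gL_apply, sP_apply]
    have h1 := lm_p L a1 hc hp u'
    rw [hu', hp.comm _ L.K.1] at h1
    have h2 := p_sP L a1 hc hp u
    rw [sP_apply] at h2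
    rw [h2] at h1
    exact h1
  · intro u
    exact lm_kk L a1 hc _
  · intro u u' h
    rw [sP_apply, sP_apply] at h
    have h1 : lm L a1 hc ⟨u, u.2.1⟩ + Complex.I • lm L a1 hc (-⟨u', u'.2.1⟩) = 0 := by
      rw [h, map_neg, smul_neg, add_neg_cancel]
    exact (lim_ind L a1 hc h1).1
  · intro u hu u'
    rw [bilU_apply, num_of_lm_zero L a1 hc ⟨u, u.2.1⟩ hu ⟨u', u'.2.1⟩, Complex.zero_re]
  · intro u hu h0
    exact psi_pos L a1 hc ⟨u, u.2.1⟩ hu h0
  · intro u hu h0
    exact psi_neg L a1 hc ⟨u, u.2.1⟩ hu h0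

include hp in
theorem span_sP (v : Ten I c) : v ∈ Submodule.span ℂ (LinearMap.range (sP L a1 hc (p := p)) :
    Set (Ten I c)) ↔ v ∈ fixS H a1 c ∧ p v = v := by
  constructor
  · intro hv
    induction hv using Submodule.span_induction with
    | mem x hx =>
      obtain ⟨u, rfl⟩ := hx
      exact ⟨lm_fix L a1 hc _, p_sP L a1 hc hp u⟩
    | zero => exact ⟨zero_mem _, map_zero p⟩
    | add x y _ _ hx hy => exact ⟨add_mem hx.1 hy.1, by rw [map_add, hx.2, hy.2]⟩
    | smul z x _ hx => exact ⟨Submodule.smul_mem _ _ hx.1, by rw [map_smul, hx.2]⟩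
  · rintro ⟨hv, hpv⟩
    obtain ⟨u, u', rfl⟩ := lim_span L a1 hc hv
    rw [← hpv, map_add, map_smul, ← lm_p L a1 hc hp u, ← lm_p L a1 hc hp u']
    exact add_mem (Submodule.subset_span ⟨⟨p u, hp.mem u u.2, hp.idem _⟩, rfl⟩)
      (Submodule.smul_mem _ _ (Submodule.subset_span ⟨⟨p u', hp.mem u' u'.2, hp.idem _⟩, rfl⟩))

/-! ### Traces -/

/-- the trace of an average composed with an operator -/
theorem tr_av_comp (p : Ten I c →ₗ[ℂ] Ten I c) {F : H.K → Matrix I I ℂ} (hF : Continuous F) :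
    LinearMap.trace ℂ (Ten I c) (av H a1 (φ := fun _ => 1) continuous_const hF ∘ₗ p) =
      ∫ x, LinearMap.trace ℂ (Ten I c) (gL a1 c (F x) ∘ₗ p) ∂H.μ := by
  simp only [tr_eq, LinearMap.comp_apply, gL_apply]
  have h1 : ∀ w : Fin c → I, av H a1 (φ := fun _ => 1) continuous_const hF
      (p (Pi.single w 1 : Ten I c)) w = ∫ x, gT (F x) (p (Pi.single w 1 : Ten I c)) w ∂H.μ := by
    intro w
    rw [av_apply, eval_integral (fun w' => ?_)]
    · refine integral_congr_ae (Eventually.of_forall fun x => ?_)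
      show ((1 : ℂ) • gT (F x) (p (Pi.single w 1 : Ten I c))) w =
        gT (F x) (p (Pi.single w 1 : Ten I c)) w
      rw [one_smul]
    · exact integ H ((continuous_apply w').comp (cont_F H a1 continuous_const hF _))
  simp only [h1]
  rw [← integral_finsetSum _ fun w _ => ?_]
  exact integ H ((continuous_apply w).comp (a1.gT_cont.comp (hF.prodMk continuous_const)))

/-- the fixed tensors `v` with `p v = v` and `k v = ε v` -/
noncomputable def eigP (H : HMb D b) (a1 : Alg1) (k : Matrix I I ℂ) {c : ℕ}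
    (p : Ten I c →ₗ[ℂ] Ten I c) (ε : ℂ) : Submodule ℂ (Ten I c) where
  carrier := {v | v ∈ fixS H a1 c ∧ p v = v ∧ gT k v = ε • v}
  add_mem' := by
    rintro u v ⟨h1, h2, h3⟩ ⟨h4, h5, h6⟩
    exact ⟨add_mem h1 h4, by rw [map_add, h2, h5], by rw [a1.gT_add, h3, h6, smul_add]⟩
  zero_mem' := ⟨zero_mem _, map_zero p, by
    have := a1.gT_smul k 0 (0 : Ten I c)
    rw [zero_smul, zero_smul] at this
    rw [this, smul_zero]⟩
  smul_mem' := by
    rintro z v ⟨h1, h2, h3⟩
    exact ⟨Submodule.smul_mem _ _ h1, by rw [map_smul, h2], by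
      rw [a1.gT_smul, h3, smul_comm]⟩

include L hp hc in
/-- the dimensions of the eigenspaces as integrals -/
theorem eigP_int :
    (finrank ℂ (eigP H a1 k p 1) : ℂ) + finrank ℂ (eigP H a1 k p (-1)) =
      ∫ x, LinearMap.trace ℂ (Ten I c) (gL a1 c (H.mat x) ∘ₗ p) ∂H.μ ∧
    (finrank ℂ (eigP H a1 k p 1) : ℂ) - finrank ℂ (eigP H a1 k p (-1)) =
      ∫ x, LinearMap.trace ℂ (Ten I c) (gL a1 c (k * H.mat x) ∘ₗ p) ∂H.μ := by
  set r : Ten I c →ₗ[ℂ] Ten I c := pro H a1 c ∘ₗ p with hr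
  set kr : Ten I c →ₗ[ℂ] Ten I c := gL a1 c k ∘ₗ r with hkr
  have hkG : IsG D k := L.K.1
  -- the range of `r`
  have hr_mem : ∀ v, r v ∈ fixS H a1 c := fun v => pro_mem H a1 (p v)
  have hr_p : ∀ v, p (r v) = r v := by
    intro v
    have h1 : r v = ∫ x, gT (H.mat x) (p v) ∂H.μ := by
      rw [hr, LinearMap.comp_apply, pro_apply]
    have h2 := ContinuousLinearMap.integral_comp_comm (LinearMap.toContinuousLinearMap p)
      (integ H (a1.gT_cont.comp (H.cont_mat.prodMk (continuous_const (y := p v)))))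
    rw [h1]
    have h3 : p (∫ x, gT (H.mat x) (p v) ∂H.μ) =
        ∫ x, p (gT (H.mat x) (p v)) ∂H.μ := h2.symm
    rw [h3]
    refine integral_congr_ae (Eventually.of_forall fun x => ?_)
    show p (gT (H.mat x) (p v)) = gT (H.mat x) (p v)
    rw [hp.comm _ (H.mem x).1.1, hp.idem]
  have hr_fix : ∀ v, v ∈ fixS H a1 c → p v = v → r v = v := fun v h1 h2 => by
    rw [hr, LinearMap.comp_apply, h2, pro_fix H a1 h1]
  have hk1 : ∀ v ∈ fixS H a1 c, gT k v ∈ fixS H a1 c := fun v hv => (fixS_k L a1 hc hv).1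
  have hk2 : ∀ v ∈ fixS H a1 c, gT k (gT k v) = v := fun v hv => (fixS_k L a1 hc hv).2
  have h1 : LinearMap.IsProj (eigP H a1 k p 1) ((1 / 2 : ℂ) • (r + kr)) := by
    refine ⟨fun v => ?_, fun v hv => ?_⟩
    · refine Submodule.smul_mem _ _ ⟨add_mem (hr_mem v) (hk1 _ (hr_mem v)), ?_, ?_⟩
      · show p (r v + gT k (r v)) = r v + gT k (r v)
        rw [map_add, hp.comm _ hkG, hr_p]
      · show gT k (r v + gT k (r v)) = (1 : ℂ) • (r v + gT k (r v))
        rw [a1.gT_add, hk2 _ (hr_mem v), one_smul, add_comm]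
    · obtain ⟨hv1, hv2, hv3⟩ := hv
      show (1 / 2 : ℂ) • (r v + gT k (r v)) = v
      rw [hr_fix v hv1 hv2, hv3, one_smul, ← two_smul ℂ v, smul_smul]
      norm_num
  have h2 : LinearMap.IsProj (eigP H a1 k p (-1)) ((1 / 2 : ℂ) • (r - kr)) := by
    refine ⟨fun v => ?_, fun v hv => ?_⟩
    · refine Submodule.smul_mem _ _ ⟨sub_mem (hr_mem v) (hk1 _ (hr_mem v)), ?_, ?_⟩
      · show p (r v - gT k (r v)) = r v - gT k (r v)
        rw [map_sub, hp.comm _ hkG, hr_p]
      · show gT k (r v - gT k (r v)) = (-1 : ℂ) • (r v - gT k (r v))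
        have h3 : r v - gT k (r v) = r v + (-1 : ℂ) • gT k (r v) := by
          rw [neg_one_smul, sub_eq_add_neg]
        rw [h3, a1.gT_add, a1.gT_smul, hk2 _ (hr_mem v)]
        module
    · obtain ⟨hv1, hv2, hv3⟩ := hv
      show (1 / 2 : ℂ) • (r v - gT k (r v)) = v
      rw [hr_fix v hv1 hv2, hv3]
      module
  have t1 := h1.trace
  have t2 := h2.trace
  rw [map_smul, map_add, smul_eq_mul] at t1
  rw [map_smul, map_sub, smul_eq_mul] at t2
  have t3 : LinearMap.trace ℂ (Ten I c) r =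
      ∫ x, LinearMap.trace ℂ (Ten I c) (gL a1 c (H.mat x) ∘ₗ p) ∂H.μ := by
    rw [hr]
    unfold pro
    rw [tr_av_comp]
  have t4 : LinearMap.trace ℂ (Ten I c) kr =
      ∫ x, LinearMap.trace ℂ (Ten I c) (gL a1 c (k * H.mat x) ∘ₗ p) ∂H.μ := by
    have hcF : Continuous fun x => k * H.mat x := continuous_const.mul H.cont_mat
    have h3 : kr = av H a1 (φ := fun _ => 1) continuous_const hcF ∘ₗ p := by
      refine LinearMap.ext fun v => ?_
      show gT k (pro H a1 c (p v)) = av H a1 (φ := fun _ => 1) continuous_const hcF (p v)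
      unfold pro
      rw [gT_av, av_apply]
    rw [h3, tr_av_comp]
  rw [← t1, ← t2, ← t3, ← t4]
  constructor <;> ring

include L hp hc in
/-- **Row R4.** -/
theorem exists_isSigP : ∃ P Q : ℕ, IsSigP D At p P Q ∧
    (P : ℂ) + Q = ∫ x, LinearMap.trace ℂ (Ten I c) (gL a1 c (H.mat x) ∘ₗ p) ∂H.μ ∧
    (P : ℂ) - Q = ∫ x, LinearMap.trace ℂ (Ten I c) (gL a1 c (k * H.mat x) ∘ₗ p) ∂H.μ := by
  have hd := dataP L a1 hc hp
  have e1 : Data.eigC (sP L a1 hc (p := p)) (gL a1 c k) 1 = eigP H a1 k p 1 := by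
    ext v
    rw [Data.mem_eigC, span_sP L a1 hc hp, one_smul, gL_apply]
    show _ ↔ v ∈ fixS H a1 c ∧ p v = v ∧ gT k v = (1 : ℂ) • v
    rw [one_smul, and_assoc]
  have e2 : Data.eigC (sP L a1 hc (p := p)) (gL a1 c k) (-1) = eigP H a1 k p (-1) := by
    ext v
    rw [Data.mem_eigC, span_sP L a1 hc hp, neg_one_smul, gL_apply]
    show _ ↔ v ∈ fixS H a1 c ∧ p v = v ∧ gT k v = (-1 : ℂ) • v
    rw [neg_one_smul, and_assoc]
  refine ⟨_, _, ⟨?_, ?_, ?_, ?_⟩, eigP_int L a1 hc hp⟩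
  · obtain ⟨W, hW, hW'⟩ := hd.exists_pos
    rw [e1] at hW'
    refine ⟨W.map (RP At p).subtype, ?_, ?_, ?_⟩
    · rintro _ ⟨u, _, rfl⟩
      exact u.2
    · rintro _ ⟨u, hu, rfl⟩ hne
      exact hW u hu fun h0 => hne (by rw [h0, map_zero])
    · rw [← hW']
      exact Submodule.finrank_map_subtype_eq _ _
  · intro U hU hpos
    rw [← e1]
    have h1 := hd.pos_le (U.comap (RP At p).subtype) fun w hw hne =>
      hpos w hw fun h0 => hne (Subtype.ext h0)
    rwa [(Submodule.comapSubtypeEquivOfLe hU).finrank_eq] at h1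
  · obtain ⟨W, hW, hW'⟩ := hd.exists_neg
    rw [e2] at hW'
    refine ⟨W.map (RP At p).subtype, ?_, ?_, ?_⟩
    · rintro _ ⟨u, _, rfl⟩
      exact u.2
    · rintro _ ⟨u, hu, rfl⟩ hne
      exact hW u hu fun h0 => hne (by rw [h0, map_zero])
    · rw [← hW']
      exact Submodule.finrank_map_subtype_eq _ _
  · intro U hU hneg
    rw [← e2]
    have h1 := hd.neg_le (U.comap (RP At p).subtype) fun w hw hne =>
      hneg w hw fun h0 => hne (Subtype.ext h0)
    rwa [(Submodule.comapSubtypeEquivOfLe hU).finrank_eq] at h1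

end lev

end OSig

end Pool.Agent.Lib.MP_361a6f_ag.FL
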