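import Pool.Agent.Lib.MP_361a6f_ag.FL.O.Str
import Pool.Agent.Lib.MP_361a6f_ag.SQ.LefProj

/-!
# Zero-one laws, host side: the Lefschetz decomposition of the real algebraic classes (helper88)

The real span of all algebraic classes is the direct sum of the `L^r (Pr j)`, `2 j ≤ e`,
`r ≤ e - 2 j`, where `Pr j` is the space of the primitive classes in the real span of the algebraic
classes of codimension `j`; on this decomposition `ψ` is the orthogonal sum of positive multiples of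
Grothendieck's forms `(-1)^j Tr(L^(e-2j) x y)`.
-/

open CategoryTheory AlgebraicGeometry MonoidalCategory CartesianMonoidalCategory

universe u v w

set_option autoImplicit false
set_option linter.unusedSectionVars false

namespace Pool.Agent.Lib.MP_361a6f_ag.FL

open Pool.Agent.Lib.MP_361a6f_ag.H3 Pool.Agent.Lib.MP_361a6f_ag.SQ
  Pool.Agent.Lib.MP_361a6f_ag.IP2 Pool.Agent.Lib.MP_361a6f_ag.PP

namespace OStr

open PSI

/-! ### Abstract strings -/

section abs

variable {M : Type w} [AddCommGroup M] [Module ℂ M] {gr : ℕ → Submodule ℂ M} {n : ℕ}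
  {L Λ : Module.End ℂ M}

/-- the primitive vectors of degree `i` -/
def PrimS (gr : ℕ → Submodule ℂ M) (Λ : Module.End ℂ M) (i : ℕ) : Submodule ℂ M :=
  gr i ⊓ LinearMap.ker Λ

/-- the coordinates of the Lefschetz decomposition -/
theorem coord (hS : Sl2Statement.{w}) (S : Slm gr n L Λ) {i r : ℕ} (hi : i ≤ n) (hr : r ≤ n - i) :
    ∃ q : M →ₗ[ℂ] M, ∀ i' r' x, i' ≤ n → r' ≤ n - i' → x ∈ PrimS gr Λ i' →
      q ((L ^ r') x) = if i = i' ∧ r = r' then x else 0 := by
  classical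
  have hL : ∀ i, ∀ x ∈ PrimS gr Λ i, i ≤ n → (L ^ (n - i + 1)) x = 0 := fun i x hx hi =>
    (hS S).2.2.2.1 i x hi hx.1 hx.2
  have hΛ : ∀ i r, ∀ x ∈ PrimS gr Λ i, i ≤ n → r ≤ n - i →
      Λ ((L ^ r) x) = ((r * (n - i - r + 1) : ℕ) : ℂ) • (L ^ (r - 1)) x := by
    intro i r x hx hi hr
    rcases Nat.eq_zero_or_pos r with h | h
    · subst h
      rw [pow_zero, Module.End.one_apply, hx.2, zero_mul, Nat.cast_zero, zero_smul]
    · obtain ⟨s, rfl⟩ : ∃ s, r = s + 1 := ⟨r - 1, by omega⟩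
      rw [(hS S).2.2.1 i x s hx.1 hx.2, Nat.add_sub_cancel]
      congr 1
      have h2 : (n : ℂ) = (i : ℂ) + s + ((n - i - (s + 1) : ℕ) : ℂ) + 1 := by
        have : n = i + s + (n - i - (s + 1)) + 1 := by omega
        exact_mod_cast this
      rw [Nat.cast_mul, Nat.cast_add, Nat.cast_add, Nat.cast_one]
      linear_combination ((s : ℂ) + 1) * h2
  have hC : LPr.Closed (K := ℂ) (V := M) (fun _ => True) :=
    { zero := trivial
      add := fun _ _ => trivial
      smul := fun _ _ _ => trivial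
      comp := fun _ _ => trivial
      id := trivial }
  set D : M →ₗ[ℂ] M := Λ ∘ₗ L + ((((n + 1) ^ 2 : ℕ) : ℚ) : ℂ) • (L ∘ₗ Λ) with hD
  set I : Finset (ℕ × ℕ) := (Finset.range (n + 1) ×ˢ Finset.range (n + 1)).filter
    (fun q => q.1 ≤ n ∧ q.2 ≤ n - q.1) with hI
  obtain ⟨u, -, h1, h2⟩ := LPr.lagr hC (D := D) trivial (LPr.ev n i r)
    ((I.image (fun q => LPr.ev n q.1 q.2)).erase (LPr.ev n i r)) (by simp)
  obtain ⟨t, -, h3⟩ := LPr.lower (L := L) (P := PrimS gr Λ) hC (Λ := Λ) trivial hΛ hi r hr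
  refine ⟨t ∘ₗ u, fun i' r' x hi' hr' hx => ?_⟩
  rw [LinearMap.comp_apply]
  by_cases he : i = i' ∧ r = r'
  · obtain ⟨rfl, rfl⟩ := he
    rw [h1 _ (LPr.D_apply hL hΛ hx hi' hr'), h3 x hx, if_pos ⟨rfl, rfl⟩]
  · rw [if_neg he, h2 (LPr.ev n i' r') ?_ _ (LPr.D_apply hL hΛ hx hi' hr'), map_zero]
    rw [Finset.mem_erase]
    refine ⟨fun h => he ?_, ?_⟩
    · obtain ⟨h4, h5⟩ := LPr.ev_inj hi' hr' hi hr h
      exact ⟨h4.symm, h5.symm⟩
    · rw [Finset.mem_image]
      refine ⟨(i', r'), ?_, rfl⟩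
      rw [hI, Finset.mem_filter, Finset.mem_product, Finset.mem_range, Finset.mem_range]
      exact ⟨⟨by omega, by simp only; omega⟩, hi', hr'⟩

/-- the star operator on the strings, with uniform constants -/
theorem star_unif (hS : Sl2Statement.{w}) (hT : StaStatement.{w}) (S : Slm gr n L Λ) (i s : ℕ) :
    ∃ q : ℚ, 0 < q ∧ (2 * i ≤ n → s ≤ n - 2 * i → ∀ v ∈ gr (2 * i), Λ v = 0 →
      star S.internal L Λ ((L ^ s) v)
        = ((-1 : ℂ) ^ i * (q : ℂ)) • (L ^ (n - 2 * i - s)) v) := by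
  by_cases hc : 2 * i ≤ n ∧ s ≤ n - 2 * i
  swap
  · exact ⟨1, one_pos, fun h1 h2 => absurd ⟨h1, h2⟩ hc⟩
  obtain ⟨hi, hs⟩ := hc
  have hlam : ∀ s, s ≤ n - 2 * i → ∃ q : ℚ, 0 < q ∧ ∀ v ∈ gr (2 * i), Λ v = 0 →
      (Λ ^ s) ((L ^ (n - 2 * i)) v) = (q : ℂ) • (L ^ (n - 2 * i - s)) v := by
    intro s hs
    induction s with
    | zero => exact ⟨1, one_pos, fun v _ _ => by simp⟩
    | succ s ih =>
      obtain ⟨q, hq, h1⟩ := ih (by omega)
      obtain ⟨r, hr⟩ : ∃ r, n - 2 * i - s = r + 1 := ⟨n - 2 * i - s - 1, by omega⟩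
      refine ⟨q * (((r : ℚ) + 1) * ((s : ℚ) + 1)), by positivity, fun v hv hΛ => ?_⟩
      rw [pow_succ', Module.End.mul_apply, h1 v hv hΛ, map_smul, hr,
        (hS S).2.2.1 (2 * i) v r hv hΛ, smul_smul, show n - 2 * i - (s + 1) = r by omega]
      congr 1
      have h2 : (n : ℂ) = ((2 * i : ℕ) : ℂ) + s + (r + 1) := by
        have : n = 2 * i + s + (r + 1) := by omega
        exact_mod_cast this
      rw [h2]
      push_cast
      ring
  obtain ⟨q, hq, h1⟩ := hlam s hs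
  refine ⟨((n - 2 * i).factorial : ℚ)⁻¹ * q, by positivity, fun _ _ v hv hΛ => ?_⟩
  rw [star_pow hT S, (hT S).2.2.2.2.1 i v hi hv hΛ, map_smul, h1 v hv hΛ, smul_smul]
  congr 1
  push_cast
  ring

end abs

/-! ### The classes of a variety -/

noncomputable section

variable {k : Type u} [Field k] {W : CohomologyData.{u, 0, w} k ℂ} {𝒱 : VarietyClass k}

/-- the primitive classes in the real span of the algebraic classes of codimension `j` -/
def PrR (W : CohomologyData.{u, 0, w} k ℂ) (Z : Sch k) (e : ℕ) (η : W.coh Z) (j : ℕ) :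
    Submodule ℝ (W.coh Z) :=
  Submodule.span ℝ (W.alg Z j : Set (W.coh Z)) ⊓
    LinearMap.ker (LinearMap.mulLeft ℝ (η ^ (e - 2 * j + 1)))

theorem mem_PrR {Z : Sch k} {e : ℕ} {η : W.coh Z} {j : ℕ} {x : W.coh Z} :
    x ∈ PrR W Z e η j ↔ x ∈ Submodule.span ℝ (W.alg Z j : Set (W.coh Z)) ∧
      η ^ (e - 2 * j + 1) * x = 0 := Iff.rfl

/-- the places of the Lefschetz decomposition -/
abbrev Idx (e : ℕ) : Type := Σ j : Fin (e / 2 + 1), Fin (e - 2 * (j : ℕ) + 1)

theorem Idx.le1 {e : ℕ} (b : Idx e) : 2 * (b.1 : ℕ) ≤ e := by have := b.1.2; omega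

theorem Idx.le2 {e : ℕ} (b : Idx e) : (b.2 : ℕ) ≤ e - 2 * (b.1 : ℕ) := by have := b.2.2; omega

theorem Idx.ext' {e : ℕ} {b c : Idx e} (h1 : (b.1 : ℕ) = c.1) (h2 : (b.2 : ℕ) = c.2) : b = c := by
  obtain ⟨j, r⟩ := b
  obtain ⟨j', r'⟩ := c
  have h5 : j = j' := Fin.ext h1
  subst h5
  have h6 : r = r' := Fin.ext h2
  rw [h6]

/-- the sum of the strings at the places `b i` -/
def Phi (W : CohomologyData.{u, 0, w} k ℂ) (Z : Sch k) (e : ℕ) (η : W.coh Z) {ι : Type}
    [Fintype ι] (b : ι → Idx e) : (∀ i, PrR W Z e η (b i).1) →ₗ[ℝ] W.coh Z :=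
  ∑ i, (LinearMap.mulLeft ℝ (η ^ ((b i).2 : ℕ))) ∘ₗ (PrR W Z e η (b i).1).subtype ∘ₗ
    LinearMap.proj i

theorem Phi_apply {Z : Sch k} {e : ℕ} {η : W.coh Z} {ι : Type} [Fintype ι] (b : ι → Idx e)
    (f : ∀ i, PrR W Z e η (b i).1) :
    Phi W Z e η b f = ∑ i, η ^ ((b i).2 : ℕ) * (f i : W.coh Z) := by
  simp only [Phi, LinearMap.sum_apply, LinearMap.comp_apply, LinearMap.mulLeft_apply,
    LinearMap.proj_apply, Submodule.subtype_apply]

/-- Grothendieck's form -/
def Gf (W : CohomologyData.{u, 0, w} k ℂ) (Z : Sch k) (e : ℕ) (η : W.coh Z) (j : ℕ)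
    (x y : W.coh Z) : ℂ :=
  (-1 : ℂ) ^ j * W.tr Z (η ^ (e - 2 * j) * (x * y))

variable (hW : IsWeilCohomology W 𝒱) {Z : Sch k} {e : ℕ} (hZ : 𝒱.mem Z e)
  {η : W.coh Z} (hη : η ∈ W.alg Z 1) {Lam : Module.End ℂ (W.coh Z)}
  (D : LamData W Z e η Lam) (hS : Sl2Statement.{w}) (hT : StaStatement.{w})

include hW hZ hη D hS in
theorem PrR_prim {j : ℕ} (hj : 2 * j ≤ e) {x : W.coh Z} (hx : x ∈ PrR W Z e η j) :
    x ∈ PrimS (W.gr Z) Lam (2 * j) := by
  rw [mem_PrR] at hx
  have hg := span_gr hW hZ hx.1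
  exact ⟨hg, (hS D.slm).2.2.2.2.2.1 (2 * j) x (by omega) hg (by
    rw [Lop_pow hW hZ]; exact hx.2)⟩

include hW hZ hη D hS in
/-- the strings are independent -/
theorem Phi_inj {ι : Type} [Fintype ι] [DecidableEq ι] (b : ι → Idx e)
    (hb : Function.Injective b) : Function.Injective (Phi W Z e η b) := by
  rw [← LinearMap.ker_eq_bot, LinearMap.ker_eq_bot']
  intro f hf
  funext i
  obtain ⟨q, hq⟩ := coord hS D.slm (i := 2 * ((b i).1 : ℕ)) (r := ((b i).2 : ℕ))
    (b i).le1 (b i).le2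
  have h1 : ∀ i', q (η ^ ((b i').2 : ℕ) * (f i' : W.coh Z)) = if i' = i then (f i' : W.coh Z)
      else 0 := by
    intro i'
    have h2 := hq (2 * ((b i').1 : ℕ)) ((b i').2 : ℕ) (f i' : W.coh Z) (b i').le1 (b i').le2
      (PrR_prim hW hZ hη D hS (b i').le1 (f i').2)
    rw [Lop_pow hW hZ] at h2
    rw [h2]
    by_cases h : i' = i
    · subst h
      rw [if_pos ⟨rfl, rfl⟩, if_pos rfl]
    · rw [if_neg h, if_neg]
      rintro ⟨h3, h4⟩
      exact h (hb (Idx.ext' (by omega) h4.symm))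
  have h2 : q (Phi W Z e η b f) = (f i : W.coh Z) := by
    rw [Phi_apply, map_sum, Finset.sum_congr rfl fun i' _ => h1 i', Finset.sum_ite_eq' ,
      if_pos (Finset.mem_univ i)]
  rw [hf, map_zero] at h2
  exact Subtype.ext h2.symm

theorem mem_range {ι : Type} [Fintype ι] [DecidableEq ι] (b : ι → Idx e) (i : ι) {j r : ℕ}
    (h1 : ((b i).1 : ℕ) = j) (h2 : ((b i).2 : ℕ) = r) {x : W.coh Z} (hx : x ∈ PrR W Z e η j) :
    η ^ r * x ∈ LinearMap.range (Phi W Z e η b) := by
  subst h1 h2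
  refine ⟨Pi.single i ⟨x, hx⟩, ?_⟩
  rw [Phi_apply, Finset.sum_eq_single i]
  · rw [Pi.single_eq_same]
  · intro i' _ h
    rw [Pi.single_eq_of_ne h, ZeroMemClass.coe_zero, mul_zero]
  · intro h
    exact absurd (Finset.mem_univ i) h

include hW hZ hη D hS hT in
/-- uniform constants: `ψ` on the strings -/
theorem psi_unif : ∃ q : ℕ → ℕ → ℚ, (∀ j r, 0 < q j r) ∧ ∀ j r x y, 2 * j ≤ e → r ≤ e - 2 * j →
    x ∈ PrR W Z e η j → y ∈ PrR W Z e η j →
    psi W Z η Lam D.slm.internal (η ^ r * x) (η ^ r * y) = (q j r : ℂ) * Gf W Z e η j x y := by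
  have h := fun j r => star_unif hS hT D.slm j r
  choose q hq h1 using h
  refine ⟨q, hq, fun j r x y hj hr hx hy => ?_⟩
  have hp := PrR_prim hW hZ hη D hS hj hy
  have h2 := h1 j r hj hr y hp.1 hp.2
  rw [Lop_pow hW hZ, Lop_pow hW hZ] at h2
  have hcomm : ∀ (t : ℕ) (z : W.coh Z), z * η ^ t = η ^ t * z := fun t z => by
    induction t with
    | zero => rw [pow_zero, one_mul, mul_one]
    | succ t ih => rw [pow_succ, ← mul_assoc, ih, mul_assoc, mul_assoc, hW.alg_comm hZ hη z]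
  have h3 : η ^ r * x * (η ^ (e - 2 * j - r) * y) = η ^ (e - 2 * j) * (x * y) := by
    rw [mul_assoc, ← mul_assoc x, hcomm, mul_assoc, ← mul_assoc, ← pow_add,
      show r + (e - 2 * j - r) = e - 2 * j by omega]
  rw [psi, h2, mul_smul_comm, h3, map_smul, smul_eq_mul, Gf]
  ring

include hW hZ hη D hS hT in
/-- `ψ` is the orthogonal sum of positive multiples of Grothendieck's forms -/
theorem psi_Phi : ∃ q : ℕ → ℕ → ℚ, (∀ j r, 0 < q j r) ∧ ∀ {ι : Type} [Fintype ι]
    (b : ι → Idx e), Function.Injective b → ∀ f g : (∀ i, PrR W Z e η (b i).1),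
    psi W Z η Lam D.slm.internal (Phi W Z e η b f) (Phi W Z e η b g)
      = ∑ i, (q (b i).1 (b i).2 : ℂ) * Gf W Z e η (b i).1 (f i : W.coh Z) (g i : W.coh Z) := by
  classical
  obtain ⟨q, hq, h1⟩ := psi_unif hW hZ hη D hS hT
  refine ⟨q, hq, fun b hb f g => ?_⟩
  have h2 : psi W Z η Lam D.slm.internal (Phi W Z e η b f) (Phi W Z e η b g)
      = ∑ i, ∑ i', psi W Z η Lam D.slm.internal (η ^ ((b i).2 : ℕ) * (f i : W.coh Z))
        (η ^ ((b i').2 : ℕ) * (g i' : W.coh Z)) := by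
    rw [Phi_apply, Phi_apply]
    simp only [psi, map_sum, Finset.sum_mul, Finset.mul_sum]
    exact Finset.sum_comm
  rw [h2]
  refine Finset.sum_congr rfl fun i _ => ?_
  rw [Finset.sum_eq_single i]
  · exact h1 _ _ _ _ (b i).le1 (b i).le2 (f i).2 (g i).2
  · intro i' _ hi'
    refine psi_str_ne hW hZ hη D hS hT (b i).le1 (b i').le1 (f i).2.1 (f i).2.2 (g i').2.1
      (g i').2.2 _ _ (b i').le2 ?_
    rintro ⟨h3, h4⟩
    exact hi' (hb (Idx.ext' h3.symm h4.symm))
  · intro h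
    exact absurd (Finset.mem_univ i) h

include hW hZ hη D hS in
/-- the Lefschetz decomposition of an algebraic class in low degrees -/
theorem dec_low {j : ℕ} (hj : 2 * j ≤ e) {z : W.coh Z} (hz : z ∈ W.alg Z j) :
    ∃ f : ℕ → W.coh Z, (∀ r, r ≤ j → f r ∈ W.alg Z (j - r)) ∧
      (∀ r, r ≤ j → f r ∈ PrR W Z e η (j - r)) ∧
      z = ∑ r ∈ Finset.range (j + 1), η ^ r * f r := by
  obtain ⟨f, hfC, hfg, hf0, hfΛ, hsum⟩ := (hS D.slm).2.2.2.2.2.2 (tot W Z)
    (fun x hx => (AlgOp.mulLeft hW hZ (alg_le_tot hW Z 1 hη)).apply hW hZ hx)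
    (fun x hx => D.alg.apply hW hZ hx) (fun q x hx => tot_smul hW hZ q hx) (2 * j) z hj
    (hW.alg_gr hZ hz) (alg_le_tot hW Z j hz)
  have hfg' : ∀ r, r ≤ j → f r ∈ W.gr Z (2 * (j - r)) := fun r hr => by
    have := hfg r (by omega)
    rwa [show 2 * j - 2 * r = 2 * (j - r) by omega] at this
  have hfa : ∀ r, r ≤ j → f r ∈ W.alg Z (j - r) := fun r hr =>
    tot_alg hW hZ (hfC r) (hfg' r hr)
  refine ⟨f, hfa, fun r hr => ⟨Submodule.subset_span (hfa r hr), ?_⟩, ?_⟩
  · have := (hS D.slm).2.2.2.1 (2 * (j - r)) (f r) (by omega) (hfg' r hr) (hfΛ r)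
    rwa [Lop_pow hW hZ] at this
  · rw [hsum]
    simp only [Lop_pow hW hZ]
    refine (Finset.sum_subset (Finset.range_mono (by omega)) fun r _ hr => ?_).symm
    rw [Finset.mem_range] at hr
    rw [hf0 r (by omega), mul_zero]

include hW hZ hη D hS hT in
/-- the strings exhaust the real span of the algebraic classes -/
theorem range_Phi : LinearMap.range (Phi W Z e η (id : Idx e → Idx e))
    = Submodule.span ℝ (tot W Z : Set (W.coh Z)) := by
  classical
  apply le_antisymm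
  · rintro _ ⟨f, rfl⟩
    rw [Phi_apply]
    refine Submodule.sum_mem _ fun b _ => ?_
    have h1 := (f b).2.1
    generalize (f b : W.coh Z) = y at h1
    induction h1 using Submodule.span_induction with
    | mem x hx =>
      refine Submodule.subset_span ?_
      have h2 : ∀ t : ℕ, η ^ t * x ∈ tot W Z := fun t => by
        induction t with
        | zero => rw [pow_zero, one_mul]; exact alg_le_tot hW Z _ hx
        | succ t ih =>
          rw [pow_succ', mul_assoc]
          exact (AlgOp.mulLeft hW hZ (alg_le_tot hW Z 1 hη)).apply hW hZ ih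
      exact h2 _
    | zero => rw [mul_zero]; exact zero_mem _
    | add a b _ _ ha hb => rw [mul_add]; exact add_mem ha hb
    | smul c a _ ha => rw [mul_smul_comm]; exact Submodule.smul_mem _ c ha
  · rw [Submodule.span_le]
    intro z hz
    refine tot_induction hW (P := fun z => z ∈ LinearMap.range (Phi W Z e η (id : Idx e → Idx e)))
      hz ?_ (fun x y hx hy => add_mem hx hy)
    intro j z hz
    by_cases hj : 2 * j ≤ e
    · obtain ⟨f, -, hf, hsum⟩ := dec_low hW hZ hη D hS hj hz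
      rw [hsum]
      refine Submodule.sum_mem _ fun r hr => ?_
      rw [Finset.mem_range] at hr
      exact mem_range (id : Idx e → Idx e) ⟨⟨j - r, by omega⟩, ⟨r, by
        change r < e - 2 * (j - r) + 1; omega⟩⟩ rfl rfl (hf r (by omega))
    by_cases hje : j ≤ e
    swap
    · rw [hW.top_gr hZ (hW.alg_gr hZ hz) (by omega)]
      exact zero_mem _
    set y := star D.slm.internal (Lop W Z η) Lam z with hy
    have hzz : star D.slm.internal (Lop W Z η) Lam y = z := (hT D.slm).2.1 z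
    have hyg : y ∈ W.gr Z (2 * (e - j)) := by
      have := (hT D.slm).1 (2 * j) z (by omega) (hW.alg_gr hZ hz)
      rwa [show 2 * e - 2 * j = 2 * (e - j) by omega] at this
    have hya : y ∈ W.alg Z (e - j) :=
      tot_alg hW hZ (star_tot hW hZ hη D (alg_le_tot hW Z j hz) (hW.alg_gr hZ hz)) hyg
    obtain ⟨f, -, hf, hsum⟩ := dec_low hW hZ hη D hS (j := e - j) (by omega) hya
    rw [← hzz, hsum, map_sum]
    refine Submodule.sum_mem _ fun r hr => ?_
    rw [Finset.mem_range] at hr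
    have hf' := hf r (by omega)
    obtain ⟨q, hq, h1⟩ := star_str hW hZ hη D hS hT (j := e - j - r) (by omega) hf'.1 hf'.2 r
      (by omega)
    rw [h1]
    have h2 : ((-1 : ℂ) ^ (e - j - r) * (q : ℂ)) • (η ^ (e - 2 * (e - j - r) - r) * f r)
        = ((-1 : ℝ) ^ (e - j - r) * (q : ℝ)) • (η ^ (e - 2 * (e - j - r) - r) * f r) := by
      rw [← Complex.coe_smul]
      push_cast
      rfl
    rw [h2]
    refine Submodule.smul_mem _ _ ?_
    exact mem_range (id : Idx e → Idx e) ⟨⟨e - j - r, by omega⟩, ⟨e - 2 * (e - j - r) - r, by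
      change e - 2 * (e - j - r) - r < e - 2 * (e - j - r) + 1; omega⟩⟩ rfl rfl hf'

include hW hZ hη D hS hT in
/-- `Q1` from the positivity of `ψ` -/
theorem hodge_of_re {j : ℕ} (hj : 2 * j ≤ e) {x : W.coh Z} (hx : x ∈ W.alg Z j)
    (hp : η ^ (e - 2 * j + 1) * x = 0) (h : 0 < (psi W Z η Lam D.slm.internal x x).re) :
    RatPos ((-1) ^ j * W.tr Z (η ^ (e - 2 * j) * (x * x))) := by
  obtain ⟨q, hq, h1⟩ := psi_unif hW hZ hη D hS hT
  have hx' : x ∈ PrR W Z e η j := ⟨Submodule.subset_span hx, hp⟩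
  have h2 := h1 j 0 x x hj (Nat.zero_le _) hx' hx'
  rw [pow_zero, one_mul, Gf] at h2
  have h3 : ∀ t : ℕ, η ^ t * (x * x) ∈ W.alg Z (2 * j + t) := fun t => by
    induction t with
    | zero =>
      rw [pow_zero, one_mul]
      have := hW.mul_alg hZ hx hx
      rwa [show j + j = 2 * j + 0 by omega] at this
    | succ t ih =>
      rw [pow_succ', mul_assoc]
      have := hW.mul_alg hZ hη ih
      rwa [show 1 + (2 * j + t) = 2 * j + (t + 1) by omega] at this
  have h4 := h3 (e - 2 * j)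
  rw [show 2 * j + (e - 2 * j) = e by omega] at h4
  obtain ⟨c, hc⟩ := hW.tr_alg hZ h4
  rw [hc] at h2 ⊢
  rw [h2] at h
  have h5 : ((q j 0 : ℂ) * ((-1 : ℂ) ^ j * (c : ℂ))) = (((q j 0 : ℝ) * ((-1) ^ j * (c : ℝ)) : ℝ) : ℂ) := by
    push_cast
    ring
  rw [h5, Complex.ofReal_re] at h
  have hq' : (0 : ℝ) < (q j 0 : ℝ) := by exact_mod_cast hq j 0
  have h6 : (0 : ℝ) < (-1) ^ j * (c : ℝ) := (mul_pos_iff_of_pos_left hq').1 h
  refine ⟨(-1) ^ j * c, by exact_mod_cast h6, ?_⟩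
  push_cast
  ring

/-- the places in the middle codimension -/
def midIdx (e : ℕ) (j : Fin (e / 2 + 1)) : Idx e :=
  ⟨j, ⟨e / 2 - j, by have := j.2; omega⟩⟩

theorem midIdx_inj (e : ℕ) : Function.Injective (midIdx e) := fun _ _ h => congrArg Sigma.fst h

include hW hZ hη D hS in
/-- the strings meet the middle codimension in all real algebraic classes -/
theorem range_mid : LinearMap.range (Phi W Z e η (midIdx e))
    = Submodule.span ℝ (W.alg Z (e / 2) : Set (W.coh Z)) := by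
  classical
  apply le_antisymm
  · rintro _ ⟨f, rfl⟩
    rw [Phi_apply]
    refine Submodule.sum_mem _ fun j _ => ?_
    have h1 := (f j).2.1
    generalize (f j : W.coh Z) = y at h1
    induction h1 using Submodule.span_induction with
    | mem x hx =>
      refine Submodule.subset_span ?_
      have h2 : ∀ t : ℕ, η ^ t * x ∈ W.alg Z ((j : ℕ) + t) := fun t => by
        induction t with
        | zero => rw [pow_zero, one_mul]; exact hx
        | succ t ih =>
          rw [pow_succ', mul_assoc]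
          have := hW.mul_alg hZ hη ih
          rwa [show 1 + ((j : ℕ) + t) = (j : ℕ) + (t + 1) by omega] at this
      have h3 := h2 (e / 2 - j)
      rw [show (j : ℕ) + (e / 2 - j) = e / 2 by have := j.2; omega] at h3
      exact h3
    | zero => rw [mul_zero]; exact zero_mem _
    | add a b _ _ ha hb => rw [mul_add]; exact add_mem ha hb
    | smul c a _ ha => rw [mul_smul_comm]; exact Submodule.smul_mem _ c ha
  · rw [Submodule.span_le]
    intro z hz
    obtain ⟨f, -, hf, hsum⟩ := dec_low hW hZ hη D hS (j := e / 2) (by omega) hz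
    rw [hsum]
    refine Submodule.sum_mem _ fun r hr => ?_
    rw [Finset.mem_range] at hr
    exact mem_range (midIdx e) ⟨e / 2 - r, by omega⟩ rfl
      (by change e / 2 - (e / 2 - r) = r; omega) (hf r (by omega))

end

end OStr

end Pool.Agent.Lib.MP_361a6f_ag.FL
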