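import Pool.Agent.Lib.MP_361a6f_ag.FL.Z.Abs

/-!
# Zero-one laws, row LEV: the level `m`

A rational system of tensors. For each level `m` there are elements `g j` of the group, a unitary
element `k` and a compact group `K_m` (the stabiliser of the limits), such that in the lengths
`c ≤ m` the limits of the complex combinations of members are exactly the tensors fixed by `K_m`,
and `J₀ v = k v` for the limits `v` of the real combinations.
-/

open Filter Topology MeasureTheory

set_option autoImplicit false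
set_option linter.unusedSectionVars false
set_option linter.unusedVariables false

namespace Pool.Agent.Lib.MP_361a6f_ag.FL

variable {I Λ : Type} [Fintype I] [DecidableEq I] [DecidableEq Λ]

/-- The data of the level `m`. -/
structure LevData (D : Dat I Λ) (At : (L : ℕ) → Ten I L → Prop) (m : ℕ) {β : Type} [Fintype β]
    {lb : β → ℕ} {b : Tup I lb} (H : HMb D b) (g : ℕ → Matrix I I ℂ) (k : Matrix I I ℂ) :
    Prop where
  G : ∀ j, IsG D (g j)
  K : IsK D k
  /-- the limit of a complex combination of members exists and is fixed by the compact group -/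
  lim : ∀ c ≤ m, ∀ u ∈ Submodule.span ℂ {x : Ten I c | At c x}, ∃ v,
    Tendsto (fun j => gT (g j) u) atTop (𝓝 v) ∧ ∀ x, gT (H.mat x) v = v
  /-- every fixed tensor is such a limit -/
  surj : ∀ c ≤ m, ∀ v : Ten I c, (∀ x, gT (H.mat x) v = v) →
    ∃ u ∈ Submodule.span ℂ {x : Ten I c | At c x}, Tendsto (fun j => gT (g j) u) atTop (𝓝 v)
  /-- the real combinations of members -/
  real : ∀ c ≤ m, ∀ u ∈ Submodule.span ℝ {x : Ten I c | At c x}, ∀ v,
    Tendsto (fun j => gT (g j) u) atTop (𝓝 v) → jT D v = gT k v ∧ gT k (gT k v) = v ∧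
      ∃ u' ∈ Submodule.span ℝ {x : Ten I c | At c x},
        Tendsto (fun j => gT (g j) u') atTop (𝓝 (gT k v))
  /-- `ψ` of the limits -/
  psi : ∀ c (u u' v v' : Ten I c), Tendsto (fun j => gT (g j) u) atTop (𝓝 v) →
    Tendsto (fun j => gT (g j) u') atTop (𝓝 v') → psiT D v v' = psiT D u u'

namespace LevO

variable {D : Dat I Λ}

open Qps ZAbs

/-- the base tuple that consists of the unit -/
def ub : Tup I (fun _ : Unit => 0) := fun _ _ => 1

theorem ub_base : IsBase D (ub (I := I)) := by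
  refine ⟨?_, (), rfl, fun _ => rfl⟩
  funext i
  exact ZAbs.jT_one

theorem lim_zero (a1 : Alg1) {g : ℕ → Matrix I I ℂ} {L : ℕ} :
    Tendsto (fun j => gT (g j) (0 : Ten I L)) atTop (𝓝 0) := by
  have : (fun j => gT (g j) (0 : Ten I L)) = fun _ => 0 := by
    funext j
    exact YPi.gT_zero a1 _
  rw [this]
  exact tendsto_const_nhds

/-- **Row LEV.** -/
theorem lev (a1 : Alg1) (a2 : Alg2) (ab : AlgB) (cpt : CptbStatement) (mn : MinbStatement)
    (l1 : L1bStatement) (l2 : L2bStatement) {At : (L : ℕ) → Ten I L → Prop} (S : ASys D At)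
    (m : ℕ) :
    ∃ (β : Type) (_ : Fintype β) (lb : β → ℕ) (b : Tup I lb) (H : HMb D b)
      (g : ℕ → Matrix I I ℂ) (k : Matrix I I ℂ), LevData D At m H g k := by
  classical
  let b : Tup I (fun _ : Unit => 0) := ub
  have hbAt : ∀ i, At ((fun _ : Unit => 0) i) (b i) := fun i => S.one
  -- finite sets that span
  have hB : ∀ L : ℕ, ∃ B : Set (Ten I L), B.Finite ∧ (∀ x ∈ B, At L x) ∧
      ∀ u, At L u → u ∈ Submodule.span ℂ B := by
    intro L
    obtain ⟨B, hB1, hB2, hB3⟩ := exists_linearIndependent ℂ {u : Ten I L | At L u}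
    exact ⟨B, hB3.setFinite, fun x hx => hB1 hx, fun u hu => by
      rw [hB2]; exact Submodule.subset_span hu⟩
  choose B hBf hBA hBs using hB
  have : ∀ L, Fintype (B L) := fun L => (hBf L).fintype
  let ι : Type := Option (Σ L : Fin (m + 1), B L)
  let len : ι → ℕ := fun i => i.elim 0 (fun x => x.1)
  let t : Tup I len := fun i => match i with
    | none => fun _ => 1
    | some x => x.2.1
  have htAt : ∀ i, At (len i) (t i) := by
    intro i
    match i with
    | none => exact S.one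
    | some x => exact hBA _ _ x.2.2
  have hcAt : ∀ i, At ((Sum.elim (fun _ : Unit => 0) len) i) (cmb b t i) := by
    intro i
    match i with
    | .inl i => exact hbAt i
    | .inr i => exact htAt i
  -- the minimal point
  obtain ⟨s, g, hg, hlim, hmin⟩ := mn D b t
  obtain ⟨H⟩ := cpt D b
  obtain ⟨hsM, k, hkc, hk⟩ := zTup a1 a2 ab l1 l2 S hbAt ub_base H htAt (none : ι) rfl
    (fun _ => rfl) hg hlim hmin
  have hs : hS s s ≠ 0 := XY.hS_ne a1 (none : ι) rfl (fun _ => rfl) g hlim
  have hgG : ∀ j, IsG D (g j) := fun j => (hg j).1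
  -- the stabiliser
  obtain ⟨H'⟩ := cpt D (cmb b s)
  have hfixM : ∀ (c : ℕ) (v : Ten I c), v ∈ MT D (cmb b s) c → ∀ x, gT (H'.mat x) v = v :=
    fun c v hv x => YPi.MT_fix a1 a2 hv (H'.mem x).1.1 (H'.mem x).2
  have hMfix : ∀ (c : ℕ) (v : Ten I c), (∀ x, gT (H'.mat x) v = v) → v ∈ MT D (cmb b s) c := by
    intro c v hv
    refine l2 ub_base H s hmin hs c v fun x hx => ?_
    obtain ⟨y, hy⟩ := H'.surj (H.mat x) ⟨(H.mem x).1, REB.gS_cmb_of ab (H.mem x).2 hx⟩
    rw [← hy]
    exact hv y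
  -- the limits
  have hlimS : ∀ c ≤ m, ∀ x ∈ Submodule.span ℂ (B c), ∃ y ∈ MT D (cmb b s) c,
      Tendsto (fun j => gT (g j) x) atTop (𝓝 y) := by
    intro c hc x hx
    induction hx using Submodule.span_induction with
    | mem x hx =>
      let i₀ : ι := some ⟨⟨c, Nat.lt_succ_of_le hc⟩, ⟨x, hx⟩⟩
      exact ⟨s i₀, hsM i₀, (tendsto_pi_nhds.mp hlim) i₀⟩
    | zero => exact ⟨0, zero_mem _, lim_zero a1⟩
    | add x y _ _ hx hy =>
      obtain ⟨x', h1, h2⟩ := hx
      obtain ⟨y', h3, h4⟩ := hy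
      exact ⟨x' + y', add_mem h1 h3, lim_add a1 h2 h4⟩
    | smul c x _ hx =>
      obtain ⟨x', h1, h2⟩ := hx
      exact ⟨c • x', Submodule.smul_mem _ c h1, lim_smul a1 c h2⟩
  have hspan : ∀ c, ∀ u ∈ Submodule.span ℂ {x : Ten I c | At c x}, u ∈ Submodule.span ℂ (B c) :=
    fun c u hu => (Submodule.span_le.2 fun x hx => hBs c x hx) hu
  refine ⟨Unit ⊕ ι, inferInstance, Sum.elim (fun _ : Unit => 0) len, cmb b s, H', g, H.mat k,
    hgG, (H.mem k).1, ?_, ?_, ?_, fun c u u' v v' h1 h2 => psi_lim a1 hgG h1 h2⟩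
  · intro c hc u hu
    obtain ⟨v, hv, h⟩ := hlimS c hc u (hspan c u hu)
    exact ⟨v, h, hfixM c v hv⟩
  · intro c hc v hv
    have h1 : v ∈ MT D (cmb b s) c := hMfix c v hv
    unfold MT at h1
    induction h1 using Submodule.span_induction with
    | mem x hx =>
      obtain ⟨l, n, hn, rfl⟩ := hx
      exact ⟨_, Submodule.subset_span (dm_mem S hcAt c l hn), dm_lim a2 ab hg hlim c l n hn⟩
    | zero => exact ⟨0, zero_mem _, lim_zero a1⟩
    | add x y hx' hy' hx hy =>
      obtain ⟨x', h1, h2⟩ := hx (hfixM c x hx')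
      obtain ⟨y', h3, h4⟩ := hy (hfixM c y hy')
      exact ⟨x' + y', add_mem h1 h3, lim_add a1 h2 h4⟩
    | smul a x hx' hx =>
      obtain ⟨x', h1, h2⟩ := hx (hfixM c x hx')
      exact ⟨a • x', Submodule.smul_mem _ a h1, lim_smul a1 a h2⟩
  · intro c hc u hu
    -- reduction to members
    have key : ∃ v, Tendsto (fun j => gT (g j) u) atTop (𝓝 v) ∧ jT D v = gT (H.mat k) v ∧
        gT (H.mat k) (gT (H.mat k) v) = v ∧
        ∃ u' ∈ Submodule.span ℝ {x : Ten I c | At c x},
          Tendsto (fun j => gT (g j) u') atTop (𝓝 (gT (H.mat k) v)) := by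
      induction hu using Submodule.span_induction with
      | mem x hx =>
        obtain ⟨v, hv, h⟩ := hlimS c hc x (hBs c x hx)
        exact ⟨v, h, hk c x v hx hv h⟩
      | zero =>
        refine ⟨0, lim_zero a1, ?_, ?_, 0, zero_mem _, ?_⟩
        · rw [YPi.gT_zero a1]
          have h3 := a1.jT_smul D 0 (0 : Ten I c)
          rwa [zero_smul, map_zero, zero_smul] at h3
        · rw [YPi.gT_zero a1, YPi.gT_zero a1]
        · rw [YPi.gT_zero a1]
          exact lim_zero a1
      | add x y _ _ hx hy =>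
        obtain ⟨v, h1, h2, h3, x', h4, h5⟩ := hx
        obtain ⟨w, h6, h7, h8, y', h9, h10⟩ := hy
        refine ⟨v + w, lim_add a1 h1 h6, ?_, ?_, x' + y', add_mem h4 h9, ?_⟩
        · rw [a1.jT_add, a1.gT_add, h2, h7]
        · rw [a1.gT_add, a1.gT_add, h3, h8]
        · rw [a1.gT_add]
          exact lim_add a1 h5 h10
      | smul r x _ hx =>
        obtain ⟨v, h1, h2, h3, x', h4, h5⟩ := hx
        refine ⟨(r : ℂ) • v, ?_, ?_, ?_, r • x', Submodule.smul_mem _ r h4, ?_⟩
        · rw [real_smul]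
          exact lim_smul a1 _ h1
        · rw [a1.jT_smul, a1.gT_smul, h2, Complex.conj_ofReal]
        · rw [a1.gT_smul, a1.gT_smul, h3]
        · rw [a1.gT_smul, real_smul]
          exact lim_smul a1 _ h5
    intro v hv
    obtain ⟨v', h1, h2⟩ := key
    rw [tendsto_nhds_unique hv h1]
    exact h2

end LevO

end Pool.Agent.Lib.MP_361a6f_ag.FL
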