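import Mathlib

/-!
# Zero-one laws: additivity of the signature

The signature numbers `sigPos`, `sigNeg` of Mathlib of an orthogonal sum of real quadratic forms
with positive weights are the sums of the signature numbers of the summands.
-/

open Module

set_option autoImplicit false
set_option linter.unusedSectionVars false

namespace Pool.Agent.Lib.MP_361a6f_ag.FL.OSig

section

variable {M : Type*} [AddCommGroup M] [Module ℝ M] [FiniteDimensional ℝ M]

/-- a negative semidefinite subspace of complementary dimension -/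
theorem exists_nonpos (Q : QuadraticForm ℝ M) : ∃ N : Submodule ℝ M, (∀ x ∈ N, Q x ≤ 0) ∧
    sigPos Q + finrank ℝ N = finrank ℝ M := by
  obtain ⟨N, hN, hneg⟩ := exists_finrank_eq_sigNeg_and_negDef Q
  refine ⟨N ⊔ Q.radical, ?_, ?_⟩
  · intro x hx
    obtain ⟨n, hn, r, hr, rfl⟩ := Submodule.mem_sup.1 hx
    rw [add_comm, (QuadraticMap.mem_radical_iff'.1 hr).2 n]
    by_cases h0 : n = 0
    · rw [h0, QuadraticMap.map_zero]
    · have h1 := hneg ⟨n, hn⟩ fun h => h0 (congrArg Subtype.val h)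
      have h2 : ((-Q).restrict N) ⟨n, hn⟩ = -Q n := rfl
      rw [h2] at h1
      linarith
  · have hinf : N ⊓ Q.radical = ⊥ := by
      rw [eq_bot_iff]
      rintro x ⟨hx, hr⟩
      rw [Submodule.mem_bot]
      by_contra h0
      have h1 := hneg ⟨x, hx⟩ fun h => h0 (congrArg Subtype.val h)
      have h2 : ((-Q).restrict N) ⟨x, hx⟩ = -Q x := rfl
      rw [h2, (QuadraticMap.mem_radical_iff'.1 hr).1, neg_zero] at h1
      exact lt_irrefl _ h1
    have h3 := Submodule.finrank_sup_add_finrank_inf_eq N Q.radical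
    rw [hinf, finrank_bot, add_zero, hN] at h3
    have h4 := QuadraticForm.sigPos_add_sigNeg_add_radical (Q := Q)
    omega

end

variable {ι : Type*} [Fintype ι] {V : ι → Type*} [∀ i, AddCommGroup (V i)] [∀ i, Module ℝ (V i)]
  [∀ i, FiniteDimensional ℝ (V i)] {M : Type*} [AddCommGroup M] [Module ℝ M]
  [FiniteDimensional ℝ M]

/-- the sum of subspaces of the summands -/
noncomputable def sumMap (Φ : (∀ i, V i) ≃ₗ[ℝ] M) (W : ∀ i, Submodule ℝ (V i)) :
    (∀ i, W i) →ₗ[ℝ] M :=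
  Φ.toLinearMap ∘ₗ LinearMap.pi fun i => (W i).subtype ∘ₗ LinearMap.proj i

theorem sumMap_apply (Φ : (∀ i, V i) ≃ₗ[ℝ] M) (W : ∀ i, Submodule ℝ (V i)) (f : ∀ i, W i) :
    sumMap Φ W f = Φ fun i => (f i : V i) := rfl

theorem sumMap_inj (Φ : (∀ i, V i) ≃ₗ[ℝ] M) (W : ∀ i, Submodule ℝ (V i)) :
    Function.Injective (sumMap Φ W) := by
  intro f g hfg
  rw [sumMap_apply, sumMap_apply] at hfg
  funext i
  exact Subtype.ext (congrFun (Φ.injective hfg) i)

theorem finrank_sumMap (Φ : (∀ i, V i) ≃ₗ[ℝ] M) (W : ∀ i, Submodule ℝ (V i)) :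
    finrank ℝ (LinearMap.range (sumMap Φ W)) = ∑ i, finrank ℝ (W i) := by
  rw [LinearMap.finrank_range_of_inj (sumMap_inj Φ W), finrank_pi_fintype]

/-- **Additivity of the positive signature number.** -/
theorem sigPos_sum (Φ : (∀ i, V i) ≃ₗ[ℝ] M) (Q : QuadraticForm ℝ M)
    (q : ∀ i, QuadraticForm ℝ (V i)) (c : ι → ℝ) (hc : ∀ i, 0 < c i)
    (h : ∀ f, Q (Φ f) = ∑ i, c i * q i (f i)) : sigPos Q = ∑ i, sigPos (q i) := by
  apply le_antisymm
  · choose N hN hd using fun i => exists_nonpos (q i)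
    have h1 : ∀ x ∈ LinearMap.range (sumMap Φ N), Q x ≤ 0 := by
      rintro _ ⟨f, rfl⟩
      rw [sumMap_apply, h]
      exact Finset.sum_nonpos fun i _ =>
        mul_nonpos_of_nonneg_of_nonpos (hc i).le (hN i _ (f i).2)
    have h2 := QuadraticForm.sigPos_add_finrank_le_of_nonpos h1
    have h3 : finrank ℝ M = ∑ i, finrank ℝ (V i) := by
      rw [← Φ.finrank_eq, finrank_pi_fintype]
    have h4 : ∑ i, finrank ℝ (V i) = ∑ i, sigPos (q i) + ∑ i, finrank ℝ (N i) := by
      rw [← Finset.sum_add_distrib]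
      exact Finset.sum_congr rfl fun i _ => (hd i).symm
    rw [finrank_sumMap] at h2
    omega
  · choose W hW hp using fun i => exists_finrank_eq_sigPos_and_posDef (q i)
    have h1 : (Q.restrict (LinearMap.range (sumMap Φ W))).PosDef := by
      rintro ⟨_, f, rfl⟩ hne
      have hf : f ≠ 0 := fun h0 => hne (Subtype.ext
        (show sumMap Φ W f = 0 from (congrArg (sumMap Φ W) h0).trans (map_zero _)))
      obtain ⟨i, hi⟩ := Function.ne_iff.1 hf
      show 0 < Q (sumMap Φ W f)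
      rw [sumMap_apply, h]
      have hnn : ∀ i, 0 ≤ c i * q i (f i) := fun i => by
        refine mul_nonneg (hc i).le ?_
        by_cases h0 : f i = 0
        · rw [h0, ZeroMemClass.coe_zero, QuadraticMap.map_zero]
        · exact (hp i (f i) h0).le
      exact Finset.sum_pos' (fun i _ => hnn i) ⟨i, Finset.mem_univ i, mul_pos (hc i) (hp i (f i) hi)⟩
    have h2 := le_sigPos_of_posDef Q h1
    rw [finrank_sumMap] at h2
    rwa [Finset.sum_congr rfl fun i _ => (hW i)] at h2

/-- **Additivity of the negative signature number.** -/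
theorem sigNeg_sum (Φ : (∀ i, V i) ≃ₗ[ℝ] M) (Q : QuadraticForm ℝ M)
    (q : ∀ i, QuadraticForm ℝ (V i)) (c : ι → ℝ) (hc : ∀ i, 0 < c i)
    (h : ∀ f, Q (Φ f) = ∑ i, c i * q i (f i)) : sigNeg Q = ∑ i, sigNeg (q i) := by
  have h1 := sigPos_sum Φ (-Q) (fun i => -q i) c hc fun f => by
    show -Q (Φ f) = ∑ i, c i * (-(q i (f i)))
    rw [h, ← Finset.sum_neg_distrib]
    exact Finset.sum_congr rfl fun i _ => by rw [mul_neg]
  simpa only [sigPos_neg] using h1

/-! ### Bilinear forms -/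

/-- the quadratic form of a bilinear form -/
def qf (B : M →ₗ[ℝ] M →ₗ[ℝ] ℝ) : QuadraticForm ℝ M := LinearMap.BilinMap.toQuadraticMap B

theorem qf_apply (B : M →ₗ[ℝ] M →ₗ[ℝ] ℝ) (x : M) : qf B x = B x x := rfl

theorem posDef_iff (B : M →ₗ[ℝ] M →ₗ[ℝ] ℝ) (W : Submodule ℝ M) :
    ((qf B).restrict W).PosDef ↔ ∀ w ∈ W, w ≠ 0 → 0 < B w w :=
  ⟨fun h w hw hne => h ⟨w, hw⟩ fun h0 => hne (congrArg Subtype.val h0),
    fun h w hne => h w w.2 fun h0 => hne (Subtype.ext h0)⟩

theorem negDef_iff (B : M →ₗ[ℝ] M →ₗ[ℝ] ℝ) (W : Submodule ℝ M) :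
    ((-qf B).restrict W).PosDef ↔ ∀ w ∈ W, w ≠ 0 → B w w < 0 :=
  ⟨fun h w hw hne => neg_pos.1 (h ⟨w, hw⟩ fun h0 => hne (congrArg Subtype.val h0)),
    fun h w hne => neg_pos.2 (h w w.2 fun h0 => hne (Subtype.ext h0))⟩

/-- the radical of the quadratic form of a symmetric bilinear form -/
theorem radical_qf (B : M →ₗ[ℝ] M →ₗ[ℝ] ℝ) (hB : ∀ x y, B x y = B y x) :
    (qf B).radical = LinearMap.ker B := by
  ext x
  rw [QuadraticMap.mem_radical_iff', LinearMap.mem_ker, qf_apply]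
  constructor
  · rintro ⟨h0, h1⟩
    refine LinearMap.ext fun y => ?_
    have h2 := h1 y
    rw [qf_apply, qf_apply] at h2
    simp only [map_add, LinearMap.add_apply, hB y x, h0] at h2
    show B x y = 0
    linarith
  · intro h
    refine ⟨by rw [h, LinearMap.zero_apply], fun y => ?_⟩
    rw [qf_apply, qf_apply]
    simp only [map_add, hB y x, h, LinearMap.zero_apply, zero_add]

/-- the two signature numbers and the radical -/
theorem sigPos_add_sigNeg (B : M →ₗ[ℝ] M →ₗ[ℝ] ℝ) (hB : ∀ x y, B x y = B y x) :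
    sigPos (qf B) + sigNeg (qf B) + finrank ℝ (LinearMap.ker B) = finrank ℝ M := by
  rw [← radical_qf B hB]
  exact QuadraticForm.sigPos_add_sigNeg_add_radical

end Pool.Agent.Lib.MP_361a6f_ag.FL.OSig
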