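import Pool.Agent.Lib.MP_361a6f_ag.FL.B.HopF

/-!
# Row V: abelian varieties
-/

open CategoryTheory AlgebraicGeometry MonoidalCategory CartesianMonoidalCategory

universe u v w

set_option autoImplicit false

namespace Pool.Agent.Lib.MP_361a6f_ag.FL

open Pool.Agent.Lib.MP_361a6f_ag.H3 Pool.Agent.Lib.MP_361a6f_ag.SQ
  Pool.Agent.Lib.MP_361a6f_ag.PP

/-- **Abelian varieties.** If `X` has a unital law `X × X → X` and `H^0(X) = ℂ` then hard Lefschetz
holds and `Λ` is algebraic, for every divisor class `ξ` of positive degree. -/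
def UnitalStatement : Prop :=
  ∀ {k : Type u} [Field k] (W : CohomologyData.{u, 0, w} k ℂ) (𝒱 : VarietyClass k)
    (_ : IsWeilCohomology W 𝒱) {X : Sch k} {e : ℕ} (_ : 𝒱.mem X e)
    (_ : ∀ x, W.Deg X 0 x → ∃ c : ℂ, x = W.scal c 1) (_ : UnitalLaw X) {ξ : W.coh X}
    (_ : PositiveDivisor W X e ξ), HardLefschetz W X e ξ ∧ AlgebraicLambda W X e ξ

theorem mainV : UnitalStatement.{u, w} := by
  intro k _ W 𝒱 hW X e hX h0 hU ξ hξ
  have h := unital hW hX h0 hU hξ
  exact ⟨h.1, h.2.1⟩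

end Pool.Agent.Lib.MP_361a6f_ag.FL
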