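import Pool.Agent.Lib.MP_361a6f_ag.FL.B.Defs
import Pool.Agent.Lib.MP_361a6f_ag.FL.Alg1
import Pool.Agent.Lib.MP_361a6f_ag.FL.Al2

/-!
# Row CHI: traces on the fixed tensors of a compact group

`H : HMb D b` is a model of a compact group `K` of unitary matrices with its Haar measure, and
`Fx H c` is the space of the tensors of length `c` fixed by `K`.

* `trace_wav`: the trace of `g ∘ ∫ w(x) x` on the tensors of length `c` is
  `∫ w(x) (trace (g x)) ^ c`;
* `finrank_Fx`: the dimension of `Fx H c` is `∫ (trace x) ^ c`;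
* `trace_Fx`: if `g` maps `Fx H c` into itself, its trace there is `∫ (trace (g x)) ^ c`;
* `norm_trace_le`: the rank of a contraction is at least the absolute value of its trace;
* `cont_rank`: the contractions of a unit tensor `u` with the elements of `Fx H (p + n)` span a
  space of dimension at least `|∫ h(u, x u) (trace x) ^ n|`.
-/

set_option linter.unusedSectionVars false

open Filter Topology MeasureTheory

namespace Pool.Agent.Lib.MP_361a6f_ag.FL.O

noncomputable section

variable {I Λ β : Type} [Fintype I] [DecidableEq I] [DecidableEq Λ] [Fintype β] {lb : β → ℕ}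
  {D : Dat I Λ} {b : Tup I lb}

/-! ### The action as a linear map, and its trace -/

/-- the tensor power of a matrix -/
def tp (g : Matrix I I ℂ) (c : ℕ) : Matrix (Fin c → I) (Fin c → I) ℂ :=
  Matrix.of fun w w' => ∏ i, g (w i) (w' i)

/-- the action of a matrix on tensors as a linear map -/
def gLin (g : Matrix I I ℂ) (c : ℕ) : Ten I c →ₗ[ℂ] Ten I c := Matrix.toLin' (tp g c)

theorem gLin_apply (g : Matrix I I ℂ) {c : ℕ} (u : Ten I c) : gLin g c u = gT g u := by
  funext w
  rfl

theorem tp_mul (g h : Matrix I I ℂ) (c : ℕ) : tp g c * tp h c = tp (g * h) c := by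
  ext w w'
  simp only [Matrix.mul_apply, tp, Matrix.of_apply]
  rw [Finset.prod_univ_sum]
  simp only [← Finset.prod_mul_distrib]
  rw [Fintype.piFinset_univ]

theorem tp_one (c : ℕ) : tp (1 : Matrix I I ℂ) c = 1 := by
  ext w w'
  simp only [tp, Matrix.of_apply, Matrix.one_apply]
  by_cases h : w = w'
  · subst h
    simp
  · rw [if_neg h]
    obtain ⟨i, hi⟩ := Function.ne_iff.1 h
    exact Finset.prod_eq_zero (Finset.mem_univ i) (if_neg hi)

theorem trace_tp (g : Matrix I I ℂ) (c : ℕ) : (tp g c).trace = g.trace ^ c := by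
  simp only [Matrix.trace, Matrix.diag_apply, tp, Matrix.of_apply]
  rw [Fintype.sum_pow]

theorem trace_gLin (g : Matrix I I ℂ) (c : ℕ) :
    LinearMap.trace ℂ (Ten I c) (gLin g c) = g.trace ^ c := by
  rw [gLin, Matrix.trace_toLin'_eq, trace_tp]

/-! ### Averages -/

variable (H : HMb D b)

theorem integrable {E : Type} [NormedAddCommGroup E] {f : H.K → E} (hf : Continuous f) :
    Integrable f H.μ :=
  hf.integrable_of_hasCompactSupport (HasCompactSupport.of_compactSpace f)

theorem cont_entry (i j : I) : Continuous fun x => H.mat x i j :=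
  (continuous_apply_apply i j).comp H.cont_mat

theorem cont_tp (c : ℕ) (a a' : Fin c → I) : Continuous fun x => tp (H.mat x) c a a' := by
  simp only [tp, Matrix.of_apply]
  exact continuous_finsetProd _ fun i _ => cont_entry H (a i) (a' i)

theorem cont_gT {c : ℕ} (v : Ten I c) : Continuous fun x => gT (H.mat x) v :=
  alg1.gT_cont.comp (H.cont_mat.prodMk continuous_const)

theorem cont_trace (g : Matrix I I ℂ) : Continuous fun x => (g * H.mat x).trace := by
  simp only [Matrix.trace, Matrix.diag_apply, Matrix.mul_apply]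
  exact continuous_finsetSum _ fun i _ => continuous_finsetSum _ fun j _ =>
    continuous_const.mul (cont_entry H j i)

/-- the average with a weight -/
def wav (w : H.K → ℂ) (c : ℕ) : Ten I c →ₗ[ℂ] Ten I c :=
  Matrix.toLin' (Matrix.of fun a a' => ∫ x, w x * tp (H.mat x) c a a' ∂H.μ)

theorem wav_coord {w : H.K → ℂ} (hw : Continuous w) {c : ℕ} (v : Ten I c) (a : Fin c → I) :
    wav H w c v a = ∫ x, w x * gT (H.mat x) v a ∂H.μ := by
  have h : ∀ x, w x * gT (H.mat x) v a = ∑ a', (w x * tp (H.mat x) c a a') * v a' := by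
    intro x
    simp only [gT, tp, Matrix.of_apply, Finset.mul_sum]
    exact Finset.sum_congr rfl fun a' _ => by ring
  have hi : ∀ a' ∈ Finset.univ,
      Integrable (fun x => (w x * tp (H.mat x) c a a') * v a') H.μ := fun a' _ =>
    integrable H ((hw.mul (cont_tp H c a a')).mul continuous_const)
  simp only [h]
  rw [integral_finsetSum Finset.univ hi]
  simp only [integral_mul_const]
  rfl

theorem wav_apply {w : H.K → ℂ} (hw : Continuous w) {c : ℕ} (v : Ten I c) :
    wav H w c v = ∫ x, w x • gT (H.mat x) v ∂H.μ := by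
  funext a
  rw [wav_coord H hw]
  have h := ContinuousLinearMap.integral_comp_comm
    (ContinuousLinearMap.proj (R := ℂ) (φ := fun _ : Fin c → I => ℂ) a)
    (integrable H (hw.smul (cont_gT H v)))
  exact h

/-- the trace of `g` times a weighted average -/
theorem trace_wav {w : H.K → ℂ} (hw : Continuous w) (g : Matrix I I ℂ) (c : ℕ) :
    LinearMap.trace ℂ (Ten I c) (gLin g c ∘ₗ wav H w c) =
      ∫ x, w x * (g * H.mat x).trace ^ c ∂H.μ := by
  have h : ∀ x, w x * (g * H.mat x).trace ^ c =
      ∑ a, ∑ a', tp g c a a' * (w x * tp (H.mat x) c a' a) := by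
    intro x
    rw [← trace_tp, ← tp_mul]
    simp only [Matrix.trace, Matrix.diag_apply, Matrix.mul_apply, Finset.mul_sum]
    exact Finset.sum_congr rfl fun a _ => Finset.sum_congr rfl fun a' _ => by ring
  have hc : ∀ a a', Continuous fun x => tp g c a a' * (w x * tp (H.mat x) c a' a) :=
    fun a a' => continuous_const.mul (hw.mul (cont_tp H c a' a))
  have hi : ∀ a a', Integrable (fun x => tp g c a a' * (w x * tp (H.mat x) c a' a)) H.μ :=
    fun a a' => integrable H (hc a a')
  have hi2 : ∀ a ∈ Finset.univ,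
      Integrable (fun x => ∑ a', tp g c a a' * (w x * tp (H.mat x) c a' a)) H.μ :=
    fun a _ => integrable H (continuous_finsetSum _ fun a' _ => hc a a')
  simp only [h]
  rw [gLin, wav, ← Matrix.toLin'_mul, Matrix.trace_toLin'_eq,
    integral_finsetSum Finset.univ hi2]
  simp only [Matrix.trace, Matrix.diag_apply, Matrix.mul_apply, Matrix.of_apply]
  refine Finset.sum_congr rfl fun a _ => ?_
  rw [integral_finsetSum Finset.univ fun a' _ => hi a a']
  refine Finset.sum_congr rfl fun a' _ => ?_
  rw [integral_const_mul]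

theorem trace_wav_one {w : H.K → ℂ} (hw : Continuous w) (c : ℕ) :
    LinearMap.trace ℂ (Ten I c) (wav H w c) = ∫ x, w x * (H.mat x).trace ^ c ∂H.μ := by
  have h := trace_wav H hw 1 c
  rw [gLin, tp_one, Matrix.toLin'_one, LinearMap.id_comp] at h
  rw [h]
  simp only [one_mul]

/-! ### The fixed tensors -/

/-- the tensors of length `c` fixed by the group -/
def Fx (c : ℕ) : Submodule ℂ (Ten I c) where
  carrier := {v | ∀ k : H.K, gT (H.mat k) v = v}
  add_mem' := fun {u v} hu hv k => by rw [alg1.gT_add, hu k, hv k]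
  zero_mem' := fun k => by
    have h := alg1.gT_smul (H.mat k) 0 (0 : Ten I c)
    simpa using h
  smul_mem' := fun a v hv k => by rw [alg1.gT_smul, hv k]

theorem mem_Fx {c : ℕ} {v : Ten I c} : v ∈ Fx H c ↔ ∀ k : H.K, gT (H.mat k) v = v := Iff.rfl

/-- the average over the group -/
def Pr (c : ℕ) : Ten I c →ₗ[ℂ] Ten I c := wav H (fun _ => 1) c

theorem Pr_apply {c : ℕ} (v : Ten I c) : Pr H c v = ∫ x, gT (H.mat x) v ∂H.μ := by
  rw [Pr, wav_apply H continuous_const]
  simp only [one_smul]

theorem Pr_mem {c : ℕ} (v : Ten I c) : Pr H c v ∈ Fx H c := by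
  intro k
  rw [← gLin_apply, Pr_apply]
  have h := ContinuousLinearMap.integral_comp_comm
    (LinearMap.toContinuousLinearMap (gLin (H.mat k) c)) (integrable H (cont_gT H v))
  refine Eq.trans h.symm ?_
  have h2 : ∀ x, (LinearMap.toContinuousLinearMap (gLin (H.mat k) c)) (gT (H.mat x) v) =
      gT (H.mat (k * x)) v := by
    intro x
    rw [LinearMap.coe_toContinuousLinearMap', gLin_apply, map_mul, alg1.gT_mul]
  simp only [h2]
  exact integral_mul_left_eq_self (μ := H.μ) (fun x => gT (H.mat x) v) k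

theorem Pr_fix {c : ℕ} {v : Ten I c} (hv : v ∈ Fx H c) : Pr H c v = v := by
  rw [Pr_apply]
  simp only [(mem_Fx H).1 hv]
  simp

theorem Pr_isProj (c : ℕ) : LinearMap.IsProj (Fx H c) (Pr H c) :=
  ⟨fun v => Pr_mem H v, fun _ hv => Pr_fix H hv⟩

/-- the dimension of the fixed tensors -/
theorem finrank_Fx (c : ℕ) :
    (Module.finrank ℂ (Fx H c) : ℂ) = ∫ x, (H.mat x).trace ^ c ∂H.μ := by
  rw [← LinearMap.IsProj.trace (Pr_isProj H c), Pr, trace_wav_one H continuous_const]
  simp only [one_mul]

/-- the trace of `g` on the fixed tensors -/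
theorem trace_Fx (g : Matrix I I ℂ) (c : ℕ) (hg : ∀ v ∈ Fx H c, gLin g c v ∈ Fx H c) :
    LinearMap.trace ℂ (Fx H c) ((gLin g c).restrict hg) =
      ∫ x, (g * H.mat x).trace ^ c ∂H.μ := by
  have h1 : ∀ v, (gLin g c ∘ₗ Pr H c) v ∈ Fx H c := fun v => hg _ (Pr_mem H v)
  have h2 := LinearMap.trace_restrict_eq_of_forall_mem (Fx H c) (gLin g c ∘ₗ Pr H c) h1
  have h3 : (gLin g c ∘ₗ Pr H c).restrict (fun x _ => h1 x) = (gLin g c).restrict hg := by
    refine LinearMap.ext fun v => Subtype.ext ?_
    change gLin g c (Pr H c v.1) = gLin g c v.1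
    rw [Pr_fix H v.2]
  rw [h3] at h2
  rw [h2, Pr, trace_wav H continuous_const]
  simp only [one_mul]

/-! ### Contractions -/

/-- the tensor as a vector of the Hilbert space -/
def eT {c : ℕ} (u : Ten I c) : EuclideanSpace ℂ (Fin c → I) := WithLp.toLp 2 u

theorem hT_eq {c : ℕ} (u v : Ten I c) : hT u v = inner ℂ (eT v) (eT u) := by
  rw [PiLp.inner_apply]
  exact Finset.sum_congr rfl fun w _ => (RCLike.inner_apply _ _).symm

theorem norm_hT_le {c : ℕ} (u v : Ten I c) : ‖hT u v‖ ≤ ‖eT u‖ * ‖eT v‖ := by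
  rw [hT_eq, mul_comm]
  exact norm_inner_le_norm _ _

theorem hT_self_eq {c : ℕ} (u : Ten I c) : hT u u = ((‖eT u‖ ^ 2 : ℝ) : ℂ) := by
  rw [hT_eq, inner_self_eq_norm_sq_to_K]
  norm_cast

theorem norm_gT {g : Matrix I I ℂ} (hg : g.conjTranspose * g = 1) {c : ℕ} (u : Ten I c) :
    ‖eT (gT g u)‖ = ‖eT u‖ := by
  have h1 : hT (gT g u) (gT g u) = hT u u := by
    rw [alg1.hT_gT, ← alg1.gT_mul, hg, alg1.gT_one]
  rw [hT_self_eq, hT_self_eq] at h1
  have h2 : ‖eT (gT g u)‖ ^ 2 = ‖eT u‖ ^ 2 := by exact_mod_cast h1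
  exact (pow_left_inj₀ (norm_nonneg _) (norm_nonneg _) two_ne_zero).1 h2

theorem norm_mat {c : ℕ} (x : H.K) (u : Ten I c) : ‖eT (gT (H.mat x) u)‖ = ‖eT u‖ :=
  norm_gT (H.mem x).1.2 u

theorem hT_wav {w : H.K → ℂ} (hw : Continuous w) {c : ℕ} (u v : Ten I c) :
    hT (wav H w c u) v = ∫ x, w x * hT (gT (H.mat x) u) v ∂H.μ := by
  have h : ∀ x, w x * hT (gT (H.mat x) u) v =
      ∑ a, (w x * gT (H.mat x) u a) * (starRingEnd ℂ) (v a) := by
    intro x
    simp only [hT, Finset.mul_sum]
    exact Finset.sum_congr rfl fun a _ => by ring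
  have hi : ∀ a ∈ Finset.univ,
      Integrable (fun x => (w x * gT (H.mat x) u a) * (starRingEnd ℂ) (v a)) H.μ := fun a _ =>
    integrable H ((hw.mul ((continuous_apply a).comp (cont_gT H u))).mul continuous_const)
  simp only [h]
  rw [integral_finsetSum Finset.univ hi]
  simp only [integral_mul_const, hT, wav_coord H hw]

/-- a weighted average with weight of absolute value at most `1` is a contraction -/
theorem norm_wav_le {w : H.K → ℂ} (hw : Continuous w) (hw1 : ∀ x, ‖w x‖ ≤ 1) {c : ℕ}
    (u : Ten I c) : ‖eT (wav H w c u)‖ ≤ ‖eT u‖ := by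
  have h1 : ‖hT (wav H w c u) (wav H w c u)‖ ≤ ‖eT u‖ * ‖eT (wav H w c u)‖ := by
    rw [hT_wav H hw]
    have h2 : ∀ x, ‖w x * hT (gT (H.mat x) u) (wav H w c u)‖ ≤ ‖eT u‖ * ‖eT (wav H w c u)‖ := by
      intro x
      rw [norm_mul]
      calc ‖w x‖ * ‖hT (gT (H.mat x) u) (wav H w c u)‖
          ≤ 1 * (‖eT (gT (H.mat x) u)‖ * ‖eT (wav H w c u)‖) :=
            mul_le_mul (hw1 x) (norm_hT_le _ _) (norm_nonneg _) zero_le_one
        _ = ‖eT u‖ * ‖eT (wav H w c u)‖ := by rw [norm_mat, one_mul]
    have h3 := norm_integral_le_of_norm_le_const (μ := H.μ)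
      (Eventually.of_forall h2)
    simpa using h3
  rw [hT_self_eq, Complex.norm_real, Real.norm_of_nonneg (sq_nonneg _)] at h1
  rcases eq_or_lt_of_le (norm_nonneg (eT (wav H w c u))) with h | h
  · rw [← h]
    exact norm_nonneg _
  · nlinarith

/-- the rank of a contraction is at least the absolute value of its trace -/
theorem norm_trace_le {c : ℕ} (T : Ten I c →ₗ[ℂ] Ten I c) (hT : ∀ u, ‖eT (T u)‖ ≤ ‖eT u‖) :
    ‖LinearMap.trace ℂ (Ten I c) T‖ ≤ Module.finrank ℂ (LinearMap.range T) := by
  let e : Ten I c ≃ₗ[ℂ] EuclideanSpace ℂ (Fin c → I) := (WithLp.linearEquiv 2 ℂ (Ten I c)).symm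
  have he : ∀ u, e u = eT u := fun u => rfl
  let T' : EuclideanSpace ℂ (Fin c → I) →ₗ[ℂ] EuclideanSpace ℂ (Fin c → I) := e.conj T
  have hT' : ∀ x, ‖T' x‖ ≤ ‖x‖ := by
    intro x
    have h := hT (e.symm x)
    rw [← he, ← he, e.apply_symm_apply] at h
    exact h
  have ht : LinearMap.trace ℂ (Ten I c) T = LinearMap.trace ℂ _ T' :=
    (LinearMap.trace_conj' T e).symm
  have hr : Module.finrank ℂ (LinearMap.range T) = Module.finrank ℂ (LinearMap.range T') := by
    have h : LinearMap.range T' = (LinearMap.range T).map (e : Ten I c →ₗ[ℂ] _) := by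
      ext x
      constructor
      · rintro ⟨y, rfl⟩
        exact ⟨T (e.symm y), ⟨_, rfl⟩, rfl⟩
      · rintro ⟨_, ⟨y, rfl⟩, rfl⟩
        refine ⟨e y, ?_⟩
        change e (T (e.symm (e y))) = e (T y)
        rw [e.symm_apply_apply]
    rw [h]
    exact (LinearEquiv.finrank_map_eq e (LinearMap.range T)).symm
  have h1 : ∀ x, T' x ∈ LinearMap.range T' := fun x => ⟨x, rfl⟩
  have h2 := LinearMap.trace_restrict_eq_of_forall_mem (LinearMap.range T') T' h1
  let B := stdOrthonormalBasis ℂ (LinearMap.range T')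
  rw [LinearMap.trace_eq_sum_inner _ B] at h2
  rw [ht, hr, ← h2]
  refine (norm_sum_le _ _).trans ?_
  refine (Finset.sum_le_sum (g := fun _ => (1 : ℝ)) fun i _ => ?_).trans (by simp)
  refine (norm_inner_le_norm (𝕜 := ℂ) (E := LinearMap.range T') _ _).trans ?_
  have h4 : ‖((T'.restrict fun x _ => h1 x) (B i))‖ ≤ ‖B i‖ := hT' (B i).1
  rw [B.norm_eq_one] at h4 ⊢
  rw [one_mul]
  exact h4

/-- the rank of a weighted average -/
theorem norm_integral_le_finrank {w : H.K → ℂ} (hw : Continuous w) (hw1 : ∀ x, ‖w x‖ ≤ 1)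
    (c : ℕ) : ‖∫ x, w x * (H.mat x).trace ^ c ∂H.μ‖ ≤
      Module.finrank ℂ (LinearMap.range (wav H w c)) := by
  rw [← trace_wav_one H hw]
  exact norm_trace_le _ fun u => norm_wav_le H hw hw1 u

/-! ### Contractions of a tensor with the fixed tensors -/

/-- the contraction as a linear map -/
def cLin (D : Dat I Λ) {p c : ℕ} (u : Ten I p) : Ten I (p + c) →ₗ[ℂ] Ten I c where
  toFun := cont D u
  map_add' := fun m m' => by
    funext w
    simp only [cont, Pi.add_apply, mul_add, Finset.sum_add_distrib]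
  map_smul' := fun a m => by
    funext w
    simp only [cont, Pi.smul_apply, smul_eq_mul, RingHom.id_apply, Finset.mul_sum]
    exact Finset.sum_congr rfl fun w' _ => by ring

theorem cLin_apply {p c : ℕ} (u : Ten I p) (m : Ten I (p + c)) :
    cLin D u m = cont D u m := rfl

theorem cont_outer {p c : ℕ} (u a : Ten I p) (v : Ten I c) :
    cont D u (outer a v) = psiT D u a • v := by
  funext w
  simp only [cont, outer, psiT, Pi.smul_apply, smul_eq_mul, Finset.sum_mul, Fin.append_left,
    Fin.append_right]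
  exact Finset.sum_congr rfl fun w' _ => by ring

theorem cont_gT_outer {p c : ℕ} (u : Ten I p) (v : Ten I c) (x : H.K) :
    cont D u (gT (H.mat x) (outer (jT D u) v)) = hT u (gT (H.mat x) u) • gT (H.mat x) v := by
  rw [alg2.outer_gT, cont_outer, ← alg1.jT_gT D (H.mat x) u (H.mem x).1, alg1.psiT_jT]

/-- the weighted average with the weight `h(u, x u)` is a contraction of `u` with a fixed
tensor -/
theorem wav_eq_cont {p c : ℕ} (u : Ten I p) (v : Ten I c) :
    wav H (fun x => hT u (gT (H.mat x) u)) c v =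
      cont D u (Pr H (p + c) (outer (jT D u) v)) := by
  have hw : Continuous fun x => hT u (gT (H.mat x) u) := by
    simp only [hT]
    exact continuous_finsetSum _ fun a _ => continuous_const.mul
      (Complex.continuous_conj.comp ((continuous_apply a).comp (cont_gT H u)))
  rw [wav_apply H hw, Pr_apply, ← cLin_apply]
  have h := ContinuousLinearMap.integral_comp_comm
    (LinearMap.toContinuousLinearMap (cLin D (c := c) u))
    (integrable H (cont_gT H (outer (jT D u) v)))
  refine Eq.trans ?_ h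
  refine integral_congr_ae (Eventually.of_forall fun x => ?_)
  exact (cont_gT_outer H u v x).symm

theorem cont_weight {p : ℕ} (u : Ten I p) : Continuous fun x => hT u (gT (H.mat x) u) := by
  simp only [hT]
  exact continuous_finsetSum _ fun a _ => continuous_const.mul
    (Complex.continuous_conj.comp ((continuous_apply a).comp (cont_gT H u)))

/-- the contractions of a unit tensor with the fixed tensors of length `p + n` -/
theorem cont_rank {p : ℕ} (u : Ten I p) (hu : ‖eT u‖ ≤ 1) (n : ℕ) :
    ‖∫ x, hT u (gT (H.mat x) u) * (H.mat x).trace ^ n ∂H.μ‖ ≤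
      Module.finrank ℂ ((Fx H (p + n)).map (cLin D u)) := by
  have hw1 : ∀ x, ‖hT u (gT (H.mat x) u)‖ ≤ 1 := by
    intro x
    refine (norm_hT_le _ _).trans ?_
    rw [norm_mat]
    exact mul_le_one₀ hu (norm_nonneg _) hu
  refine (norm_integral_le_finrank H (cont_weight H u) hw1 n).trans ?_
  have h : LinearMap.range (wav H (fun x => hT u (gT (H.mat x) u)) n) ≤
      (Fx H (p + n)).map (cLin D u) := by
    rintro _ ⟨v, rfl⟩
    rw [wav_eq_cont]
    exact ⟨_, Pr_mem H _, rfl⟩
  exact_mod_cast Submodule.finrank_mono h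

/-! ### The trace is real -/

theorem psi_det (D : Dat I Λ) : Psi D * (Psi D).transpose = 1 := by
  ext i j
  simp only [Matrix.mul_apply, Matrix.transpose_apply, Psi, Matrix.of_apply, Matrix.one_apply]
  rw [Finset.sum_eq_single (D.τ i)]
  · rw [if_pos rfl]
    by_cases h : i = j
    · subst h
      rw [if_pos rfl, if_pos rfl]
      rcases D.s_val i with h1 | h1 <;> rw [h1] <;> norm_num
    · rw [if_neg h, if_neg, mul_zero]
      intro h1
      apply h
      rw [← D.τ_τ i, h1, D.τ_τ]
  · intro k _ hk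
    rw [if_neg hk, zero_mul]
  · intro h
    exact absurd (Finset.mem_univ _) h

/-- the trace of an element of the compact group is real -/
theorem trace_real {g : Matrix I I ℂ} (hg : IsK D g) :
    (starRingEnd ℂ) g.trace = g.trace := by
  have h1 := hg.1.2
  have h2 : g * g.conjTranspose = 1 := mul_eq_one_comm.1 hg.2
  have h3 : g.transpose * Psi D = Psi D * g.conjTranspose := by
    calc g.transpose * Psi D = g.transpose * Psi D * (g * g.conjTranspose) := by
          rw [h2, mul_one]
      _ = (g.transpose * Psi D * g) * g.conjTranspose := by simp only [mul_assoc]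
      _ = Psi D * g.conjTranspose := by rw [h1]
  have h4 : g.transpose = Psi D * g.conjTranspose * (Psi D).transpose := by
    calc g.transpose = g.transpose * (Psi D * (Psi D).transpose) := by rw [psi_det, mul_one]
      _ = g.transpose * Psi D * (Psi D).transpose := by rw [mul_assoc]
      _ = _ := by rw [h3]
  have h5 : (Psi D).transpose * Psi D = 1 := mul_eq_one_comm.1 (psi_det D)
  have h6 : g.trace = g.conjTranspose.trace := by
    rw [← Matrix.trace_transpose g, h4, Matrix.trace_mul_comm, ← mul_assoc, h5, one_mul]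
  rw [Matrix.trace_conjTranspose] at h6
  exact h6.symm

end

end Pool.Agent.Lib.MP_361a6f_ag.FL.O
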