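import Pool.Agent.Lib.MP_361a6f_ag.FL.O.Host2
import Pool.Agent.Lib.MP_361a6f_ag.FL.O.Defs
import Pool.Agent.Lib.MP_361a6f_ag.FL.O.Rk
import Pool.Agent.Lib.MP_361a6f_ag.FL.GT
import Pool.Agent.Lib.MP_361a6f_ag.PP.SPN

/-!
# Row HOST: the real span of the algebraic classes on a power of one variety
-/

open CategoryTheory AlgebraicGeometry MonoidalCategory CartesianMonoidalCategory

universe u v w

set_option autoImplicit false
set_option linter.unusedSectionVars false

namespace Pool.Agent.Lib.MP_361a6f_ag.FL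

open Pool.Agent.Lib.MP_361a6f_ag.H3 Pool.Agent.Lib.MP_361a6f_ag.SQ
  Pool.Agent.Lib.MP_361a6f_ag.PP

namespace HostR

open OL

noncomputable section

/-- the real span of the algebraic classes of all codimensions -/
def totR {k : Type u} [Field k] (W : CohomologyData.{u, 0, w} k ℂ) (Y : Sch k) :
    Submodule ℝ (W.coh Y) :=
  Submodule.span ℝ {z | z ∈ tot W Y}

variable {k : Type u} [Field k] {W : CohomologyData.{u, 0, w} k ℂ} {𝒱 : VarietyClass k}
  (H : Host W 𝒱 1)

/-- the coordinates as a real linear map -/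
def tcR (P : Prd 1) : W.coh (P.obj H.X) →ₗ[ℝ] Ten H.I P.size := (H.tc P).restrictScalars ℝ

theorem tcR_apply (P : Prd 1) (z : W.coh (P.obj H.X)) : tcR H P z = H.tc P z := rfl

/-- the system of the host -/
abbrev AtP (L : ℕ) (u : Ten H.I L) : Prop := u ∈ H.At L

theorem real_smul' {Y : Sch k} (r : ℝ) (z : W.coh Y) : r • z = ((r : ℂ) • z : W.coh Y) := rfl

/-- (r1) -/
theorem map_RA (gr : H.RelFacts) (ge : H.GeFacts) (P : Prd 1) :
    (totR W (P.obj H.X)).map (tcR H P) = RA (AtP H) P.size := by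
  rw [totR, Submodule.map_span]
  unfold RA
  congr 1
  ext u
  exact ((HOST2.mem_At H gr ge P u).trans ⟨fun ⟨z, h, e⟩ => ⟨z, h, e⟩,
    fun ⟨z, h, e⟩ => ⟨z, h, e⟩⟩).symm

theorem mem_RA (gr : H.RelFacts) (ge : H.GeFacts) (P : Prd 1) (u : Ten H.I P.size) :
    u ∈ RA (AtP H) P.size ↔ ∃ z ∈ totR W (P.obj H.X), H.tc P z = u := by
  rw [← map_RA H gr ge P]
  exact Iff.rfl

theorem tc_mem (gr : H.RelFacts) (ge : H.GeFacts) (P : Prd 1) (z : W.coh (P.obj H.X)) :
    H.tc P z ∈ RA (AtP H) P.size ↔ z ∈ totR W (P.obj H.X) := by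
  rw [mem_RA H gr ge P]
  constructor
  · rintro ⟨y, hy, h⟩
    rwa [← ge.inj P h]
  · exact fun h => ⟨z, h, rfl⟩

theorem tcR_inj (ge : H.GeFacts) (P : Prd 1) : Function.Injective (tcR H P) := ge.inj P

/-- dimensions of images -/
theorem finrank_map (ge : H.GeFacts) (P : Prd 1) (T : Submodule ℝ (W.coh (P.obj H.X))) :
    Module.finrank ℝ (T.map (tcR H P)) = Module.finrank ℝ T :=
  (Submodule.equivMapOfInjective (tcR H P) (tcR_inj H ge P) T).finrank_eq.symm

theorem finrank_RA (gr : H.RelFacts) (ge : H.GeFacts) (P : Prd 1) :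
    Module.finrank ℝ (RA (AtP H) P.size) = Module.finrank ℝ (totR W (P.obj H.X)) := by
  rw [← map_RA H gr ge P, finrank_map H ge P]

/-- (r6) -/
theorem map_CA (gr : H.RelFacts) (ge : H.GeFacts) (P : Prd 1) :
    (algC W (P.obj H.X)).map (H.tc P) = CA (AtP H) P.size :=
  HOST2.map_algC H gr ge P

theorem finrank_CA (gr : H.RelFacts) (ge : H.GeFacts) (P : Prd 1) :
    Module.finrank ℂ (CA (AtP H) P.size) = Module.finrank ℂ (algC W (P.obj H.X)) :=
  (HOST2.finrank_algC H gr ge P).symm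

/-- `ψ` is rational on the algebraic classes -/
theorem psi_rat (P : Prd 1) {x y : W.coh (P.obj H.X)} (hx : x ∈ tot W (P.obj H.X))
    (hy : y ∈ tot W (P.obj H.X)) : ∃ q : ℚ, H.psiP P x y = (q : ℂ) :=
  SPN.psi_rat H.hW (H.memP P) (H.lamP P).2 (H.lamP P).1 hx hy

/-- `ψ` is real on the real span -/
theorem psi_real (P : Prd 1) {x y : W.coh (P.obj H.X)} (hx : x ∈ totR W (P.obj H.X))
    (hy : y ∈ totR W (P.obj H.X)) : (H.psiP P x y).im = 0 := by
  have hadd : ∀ a b c : W.coh (P.obj H.X), H.psiP P (a + b) c = H.psiP P a c + H.psiP P b c := by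
    intro a b c
    show W.tr _ ((a + b) * _) = W.tr _ (a * _) + W.tr _ (b * _)
    rw [add_mul, map_add]
  have hadd' : ∀ a b c : W.coh (P.obj H.X), H.psiP P a (b + c) = H.psiP P a b + H.psiP P a c := by
    intro a b c
    show W.tr _ (a * star _ _ _ (b + c)) = W.tr _ (a * star _ _ _ b) + W.tr _ (a * star _ _ _ c)
    rw [map_add, mul_add, map_add]
  have hsm : ∀ (r : ℝ) (a b : W.coh (P.obj H.X)), H.psiP P (r • a) b = (r : ℂ) * H.psiP P a b := by
    intro r a b
    show W.tr _ (((r : ℂ) • a) * _) = (r : ℂ) * W.tr _ (a * _)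
    rw [smul_mul_assoc, map_smul, smul_eq_mul]
  have hsm' : ∀ (r : ℝ) (a b : W.coh (P.obj H.X)), H.psiP P a (r • b) = (r : ℂ) * H.psiP P a b := by
    intro r a b
    show W.tr _ (a * star _ _ _ ((r : ℂ) • b)) = (r : ℂ) * W.tr _ (a * star _ _ _ b)
    rw [map_smul, mul_smul_comm, map_smul, smul_eq_mul]
  have h1 : ∀ x ∈ tot W (P.obj H.X), (H.psiP P x y).im = 0 := by
    intro x hx
    unfold totR at hy
    induction hy using Submodule.span_induction with
    | mem y hy =>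
      obtain ⟨q, hq⟩ := psi_rat H P hx hy
      rw [hq]
      exact Complex.ratCast_im q
    | zero =>
      have h0 := hadd' x 0 0
      rw [add_zero] at h0
      rw [left_eq_add.1 h0]
      rfl
    | add a b _ _ ha hb => rw [hadd', Complex.add_im, ha, hb, add_zero]
    | smul r a _ ha => rw [hsm', Complex.im_ofReal_mul, ha, mul_zero]
  unfold totR at hx
  induction hx using Submodule.span_induction with
  | mem x hx => exact h1 x hx
  | zero => exact h1 0 (zero_mem _)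
  | add a b _ _ ha hb => rw [hadd, Complex.add_im, ha, hb, add_zero]
  | smul r a _ ha => rw [hsm, Complex.im_ofReal_mul, ha, mul_zero]

/-- (r3) -/
theorem posU_map (ge : H.GeFacts) (P : Prd 1) (T : Submodule ℝ (W.coh (P.obj H.X))) :
    PosU H.D (T.map (tcR H P)) ↔ ∀ z ∈ T, z ≠ 0 → 0 < (H.psiP P z z).re := by
  constructor
  · intro h z hz h0
    have h1 := h (tcR H P z) ⟨z, hz, rfl⟩ fun h2 => h0 (ge.inj P (by
      rw [map_zero]
      exact h2))
    rwa [tcR_apply, ge.psi_tc] at h1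
  · rintro h _ ⟨z, hz, rfl⟩ h0
    rw [tcR_apply, ge.psi_tc]
    exact h z hz fun h2 => h0 (by rw [h2, map_zero])

theorem negU_map (ge : H.GeFacts) (P : Prd 1) (T : Submodule ℝ (W.coh (P.obj H.X))) :
    NegU H.D (T.map (tcR H P)) ↔ ∀ z ∈ T, z ≠ 0 → (H.psiP P z z).re < 0 := by
  constructor
  · intro h z hz h0
    have h1 := h (tcR H P z) ⟨z, hz, rfl⟩ fun h2 => h0 (ge.inj P (by
      rw [map_zero]
      exact h2))
    rwa [tcR_apply, ge.psi_tc] at h1
  · rintro h _ ⟨z, hz, rfl⟩ h0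
    rw [tcR_apply, ge.psi_tc]
    exact h z hz fun h2 => h0 (by rw [h2, map_zero])

/-- `T ≤ span_R tot` has its image in `RA` -/
theorem map_le (gr : H.RelFacts) (ge : H.GeFacts) (P : Prd 1)
    {T : Submodule ℝ (W.coh (P.obj H.X))} (hT : T ≤ totR W (P.obj H.X)) :
    T.map (tcR H P) ≤ RA (AtP H) P.size := by
  rw [← map_RA H gr ge P]
  exact Submodule.map_mono hT

/-- subspaces of `RA` come from subspaces of `span_R tot` -/
theorem exists_map (gr : H.RelFacts) (ge : H.GeFacts) (P : Prd 1)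
    {U : Submodule ℝ (Ten H.I P.size)} (hU : U ≤ RA (AtP H) P.size) :
    ∃ T ≤ totR W (P.obj H.X), T.map (tcR H P) = U := by
  refine ⟨U.comap (tcR H P) ⊓ totR W (P.obj H.X), inf_le_right, le_antisymm ?_ ?_⟩
  · rintro _ ⟨z, hz, rfl⟩
    exact hz.1
  · intro u hu
    obtain ⟨z, hz, rfl⟩ := (mem_RA H gr ge P u).1 (hU hu)
    exact ⟨z, ⟨hu, hz⟩, rfl⟩

/-! ### Numerically trivial classes -/

theorem at_im (ge : H.GeFacts) (gr : H.RelFacts) (P : Prd 1) :
    ∀ u ∈ {u : Ten H.I P.size | u ∈ H.At P.size}, ∀ v ∈ {u : Ten H.I P.size | u ∈ H.At P.size},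
      (Qps.psiL H.D P.size u v).im = 0 := by
  intro u hu v hv
  obtain ⟨x, hx, rfl⟩ := (HOST2.mem_At H gr ge P u).1 hu
  obtain ⟨y, hy, rfl⟩ := (HOST2.mem_At H gr ge P v).1 hv
  rw [Qps.psiL_apply, ge.psi_tc]
  obtain ⟨q, hq⟩ := psi_rat H P hx hy
  rw [hq]
  exact Complex.ratCast_im q

theorem numA_eq (P : Prd 1) : numA H.D (AtP H) P.size
    = ORk.radR (Qps.psiL H.D P.size) {u | u ∈ H.At P.size} := rfl

theorem radT_eq (P : Prd 1) : HOST2.radT H P.size
    = ORk.radC (Qps.psiL H.D P.size) {u | u ∈ H.At P.size} := rfl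

/-- **The rank of `ψ` in terms of the complex span.** -/
theorem rkA_eq (hsta : StaStatement.{w}) (gr : H.RelFacts) (ge : H.GeFacts) (P : Prd 1) :
    rkA H.D (AtP H) P.size = Module.finrank ℂ (algC W (P.obj H.X))
      - Module.finrank ℂ (numC W (P.obj H.X)) := by
  rw [HOST2.finrank_algC H gr ge P, HOST2.finrank_numC H hsta gr ge P, radT_eq,
    ← ORk.rank_eq (B := Qps.psiL H.D P.size) (at_im H ge gr P), ← numA_eq]
  rfl

/-- (r7) -/
theorem numC_bot (hsta : StaStatement.{w}) (gr : H.RelFacts) (ge : H.GeFacts) (P : Prd 1)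
    (h : numA H.D (AtP H) P.size = ⊥) : numC W (P.obj H.X) = ⊥ := by
  refine HOST2.numC_eq_bot H hsta gr ge P ?_
  rw [radT_eq]
  exact ORk.radC_eq_bot (at_im H ge gr P) (by rw [← numA_eq, h])

theorem exists_numA (hsta : StaStatement.{w}) (gr : H.RelFacts) (ge : H.GeFacts) (P : Prd 1)
    (h : numC W (P.obj H.X) ≠ ⊥) : ∃ u ∈ numA H.D (AtP H) P.size, u ≠ 0 := by
  by_contra hc
  push Not at hc
  refine h (numC_bot H hsta gr ge P ?_)
  rw [eq_bot_iff]
  exact fun u hu => hc u hu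

/-- the numerically trivial classes of the real span -/
def numTot (W : CohomologyData.{u, 0, w} k ℂ) (Y : Sch k) : Submodule ℝ (W.coh Y) where
  carrier := {z | z ∈ totR W Y ∧ ∀ l y, W.IsAlg Y l y → W.Tr (W.cup z y) = 0}
  add_mem' := fun {a b} ha hb => ⟨add_mem ha.1 hb.1, fun l y hy => by
    have h : W.cup (a + b) y = W.cup a y + W.cup b y := add_mul a b y
    have h' : W.Tr (W.cup a y + W.cup b y) = W.Tr (W.cup a y) + W.Tr (W.cup b y) :=
      map_add (W.tr Y) _ _
    rw [h, h', ha.2 l y hy, hb.2 l y hy, add_zero]⟩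
  zero_mem' := ⟨zero_mem _, fun l y _ => by
    have h : W.cup 0 y = 0 := zero_mul y
    have h' : W.Tr (0 : W.coh Y) = 0 := map_zero (W.tr Y)
    rw [h, h']⟩
  smul_mem' := fun c a ha => ⟨Submodule.smul_mem _ c ha.1, fun l y hy => by
    have h : W.cup (c • a) y = (c : ℂ) • W.cup a y := smul_mul_assoc (c : ℂ) a y
    have h' : W.Tr ((c : ℂ) • W.cup a y) = (c : ℂ) • W.Tr (W.cup a y) := map_smul (W.tr Y) (c : ℂ) _
    rw [h, h', ha.2 l y hy, smul_zero]⟩

/-- (r2) -/
theorem map_numA (hsta : StaStatement.{w}) (gr : H.RelFacts) (ge : H.GeFacts) (P : Prd 1) :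
    (numTot W (P.obj H.X)).map (tcR H P) = numA H.D (AtP H) P.size := by
  rw [numA_eq]
  ext u
  constructor
  · rintro ⟨z, hz, rfl⟩
    refine ORk.mem_radR (S := {u : Ten H.I P.size | u ∈ H.At P.size}) ?_ fun v hv => ?_
    · exact (mem_RA H gr ge P _).2 ⟨z, hz.1, rfl⟩
    · obtain ⟨y, hy, rfl⟩ := (HOST2.mem_At H gr ge P v).1 hv
      rw [Qps.psiL_apply, tcR_apply, ge.psi_tc]
      exact (HOST2.orth_iff H hsta P z).1 hz.2 y hy
  · rintro ⟨hu, hv⟩
    obtain ⟨z, hz, rfl⟩ := (mem_RA H gr ge P u).1 hu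
    refine ⟨z, ⟨hz, (HOST2.orth_iff H hsta P z).2 fun y hy => ?_⟩, rfl⟩
    rw [← ge.psi_tc, ← Qps.psiL_apply]
    exact hv _ (Submodule.subset_span ((HOST2.mem_At H gr ge P _).2 ⟨y, hy, rfl⟩))

theorem finrank_numA (hsta : StaStatement.{w}) (gr : H.RelFacts) (ge : H.GeFacts) (P : Prd 1) :
    Module.finrank ℝ (numA H.D (AtP H) P.size) = Module.finrank ℝ (numTot W (P.obj H.X)) := by
  rw [← map_numA H hsta gr ge P, finrank_map H ge P]

theorem rkA_real (hsta : StaStatement.{w}) (gr : H.RelFacts) (ge : H.GeFacts) (P : Prd 1) :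
    rkA H.D (AtP H) P.size = Module.finrank ℝ (totR W (P.obj H.X))
      - Module.finrank ℝ (numTot W (P.obj H.X)) := by
  rw [rkA, finrank_RA H gr ge P, finrank_numA H hsta gr ge P]

/-! ### The dimension -/

/-- the coordinates give all tensors -/
theorem tc_surj (ge : H.GeFacts) (P : Prd 1) : Function.Surjective (H.tc P) := fun u =>
  ⟨_, ge.tc_sum P u fun w hw => absurd hw (HOST2.not_off H P w)⟩

/-- (r9) the number of letters is the dimension of the cohomology of the variety -/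
theorem card_I (ge : H.GeFacts) : Fintype.card H.I = Module.finrank ℂ (W.coh (H.X 0)) := by
  have e : W.coh ((Prd.leaf 0 : Prd 1).obj H.X) ≃ₗ[ℂ] Ten H.I (Prd.leaf 0 : Prd 1).size :=
    LinearEquiv.ofBijective (H.tc (.leaf 0)) ⟨ge.inj _, tc_surj H ge _⟩
  have h1 := e.finrank_eq
  have h2 : Module.finrank ℂ (Ten H.I (Prd.leaf 0 : Prd 1).size)
      = Fintype.card (Fin 1 → H.I) := Module.finrank_fintype_fun_eq_card ℂ
  have h3 : Fintype.card (Fin 1 → H.I) = Fintype.card H.I := by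
    rw [Fintype.card_fun, Fintype.card_fin, pow_one]
  rw [← h3, ← h2, ← h1]
  rfl

/-- the dimension of the cohomology of a product of `n` copies -/
theorem finrank_coh (ge : H.GeFacts) (P : Prd 1) :
    Module.finrank ℂ (W.coh (P.obj H.X)) = Module.finrank ℂ (W.coh (H.X 0)) ^ P.size := by
  have e : W.coh (P.obj H.X) ≃ₗ[ℂ] Ten H.I P.size :=
    LinearEquiv.ofBijective (H.tc P) ⟨ge.inj _, tc_surj H ge _⟩
  rw [e.finrank_eq, Module.finrank_fintype_fun_eq_card, Fintype.card_fun, Fintype.card_fin,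
    card_I H ge]

end

end HostR

end Pool.Agent.Lib.MP_361a6f_ag.FL
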