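import Pool.Agent.Lib.MP_361a6f_ag.FL.Main

/-!
# Zero-one laws, host side: all polarisations of a product (helper88)

If `Q1` holds for the products of exactly `N ≥ 2` factors and the sum of the classes `ξ a`, then it
holds for the products of at most `N` factors and all classes `∑ c_i pr_i^* ξ (a_i)`.
-/

open CategoryTheory AlgebraicGeometry MonoidalCategory CartesianMonoidalCategory

universe u v w

set_option autoImplicit false

namespace Pool.Agent.Lib.MP_361a6f_ag.FL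

open Pool.Agent.Lib.MP_361a6f_ag.H3 Pool.Agent.Lib.MP_361a6f_ag.SQ
  Pool.Agent.Lib.MP_361a6f_ag.PP

namespace OStr

theorem isPol {k : Type u} [Field k] (W : CohomologyData.{u, 0, w} k ℂ) (𝒱 : VarietyClass k)
    (hW : IsWeilCohomology W 𝒱) {m : ℕ} {X : Fin m → Sch k} {n : Fin m → ℕ}
    (hX : ∀ a, 𝒱.mem (X a) (n a)) {ξ : ∀ a, W.coh (X a)}
    (hξ : ∀ a, PositiveDivisor W (X a) (n a) (ξ a))
    (hL : ∀ a, HardLefschetz W (X a) (n a) (ξ a)) (hΛ : ∀ a, AlgebraicLambda W (X a) (n a) (ξ a))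
    (N : ℕ) (hN : 2 ≤ N)
    (hQ : ∀ P : Prd m, P.size = N → HodgeType W (P.obj X) (P.dim n) (P.pol W ξ))
    (P : Prd m) (hP : P.size ≤ N) (η : W.coh (P.obj X)) (hη : IsPol W ξ P η) :
    HodgeType W (P.obj X) (P.dim n) η := by
  intro j hj x hx hp hx0
  exact mainR (RingHom.id ℂ) W 𝒱 hW hX hξ hL hΛ N hN hQ P η hη j hj x hx
    (Submodule.subset_span (Gen.alg P j x hP hx)) hp hx0

end OStr

end Pool.Agent.Lib.MP_361a6f_ag.FL
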