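import Pool.Agent.Lib.MP_361a6f_ag.FL.O.Dec
import Pool.Agent.Lib.MP_361a6f_ag.FL.O.Pol
import Pool.Agent.Lib.MP_361a6f_ag.FL.O.Defs

/-!
# Zero-one laws, host side: positive tensors from primitive classes, and back (helper88)
-/

open CategoryTheory AlgebraicGeometry MonoidalCategory CartesianMonoidalCategory

universe u v w

set_option autoImplicit false
set_option linter.unusedSectionVars false

namespace Pool.Agent.Lib.MP_361a6f_ag.FL

open Pool.Agent.Lib.MP_361a6f_ag.H3 Pool.Agent.Lib.MP_361a6f_ag.SQ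
  Pool.Agent.Lib.MP_361a6f_ag.IP2 Pool.Agent.Lib.MP_361a6f_ag.PP

namespace OStr

variable {k : Type u} [Field k] {m : ℕ} {W : CohomologyData.{u, 0, w} k ℂ} {𝒱 : VarietyClass k}
  (H : Host W 𝒱 m)

/-- the predicate of the algebraic tensors -/
abbrev AtP (L : ℕ) (u : Ten H.I L) : Prop := u ∈ H.At L

theorem tc_At (P : Prd m) {z : W.coh (P.obj H.X)} (hz : z ∈ tot W (P.obj H.X)) :
    H.tc P z ∈ H.At P.size :=
  AddSubgroup.subset_closure (Or.inr ⟨P, rfl, z, hz, rfl⟩)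

theorem tc_RA (P : Prd m) {z : W.coh (P.obj H.X)}
    (hz : z ∈ Submodule.span ℝ (tot W (P.obj H.X) : Set (W.coh (P.obj H.X)))) :
    H.tc P z ∈ OL.RA (AtP H) P.size := by
  induction hz using Submodule.span_induction with
  | mem z hz => exact Submodule.subset_span (tc_At H P hz)
  | zero => rw [map_zero]; exact zero_mem _
  | add a b _ _ ha hb => rw [map_add]; exact add_mem ha hb
  | smul c a _ ha =>
    have h1 : H.tc P (c • a) = c • H.tc P a := by
      have := (H.tc P).map_smul (c : ℂ) a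
      exact this
    rw [h1]
    exact Submodule.smul_mem _ c ha

/-- (W1) Real spaces of primitive classes on which Grothendieck's form is positive definite give
a space of real algebraic tensors on which `ψ` is positive definite. -/
theorem posU (ge : H.GeFacts) (hS : Sl2Statement.{w}) (hT : StaStatement.{w}) (P : Prd m)
    (S : ℕ → Submodule ℝ (W.coh (P.obj H.X)))
    (hSa : ∀ j, ∀ x ∈ S j, x ∈ Submodule.span ℝ (W.alg (P.obj H.X) j : Set (W.coh (P.obj H.X))))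
    (hSp : ∀ j, 2 * j ≤ P.dim H.n → ∀ x ∈ S j,
      P.pol W H.ξ ^ (P.dim H.n - 2 * j + 1) * x = 0)
    (hpos : ∀ j, 2 * j ≤ P.dim H.n → ∀ x ∈ S j, x ≠ 0 → ∃ r : ℝ, 0 < r ∧
      (-1) ^ j * W.tr (P.obj H.X) (P.pol W H.ξ ^ (P.dim H.n - 2 * j) * (x * x)) = (r : ℂ)) :
    ∃ U : Submodule ℝ (Ten H.I P.size), U ≤ OL.RA (AtP H) P.size ∧ OL.PosU H.D U ∧
      Module.finrank ℝ U = ∑ j ∈ Finset.range (P.dim H.n / 2 + 1), (P.dim H.n - 2 * j + 1)
        * Module.finrank ℝ (S j) := by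
  obtain ⟨T, hT1, hT2, hT3⟩ := strings H.hW (H.memP P) (H.lamP P).2 (H.lamP P).1 hS hT S hSa hSp
    hpos
  let t : W.coh (P.obj H.X) →ₗ[ℝ] Ten H.I P.size := (H.tc P).restrictScalars ℝ
  have ht : Function.Injective t := ge.inj P
  refine ⟨T.map t, ?_, ?_, ?_⟩
  · rintro _ ⟨z, hz, rfl⟩
    exact tc_RA H P (hT1 hz)
  · rintro _ ⟨z, hz, rfl⟩ h0
    have hz0 : z ≠ 0 := fun h => h0 (by rw [h, map_zero])
    obtain ⟨r, hr, h1⟩ := hT2 z hz hz0
    have h2 : psiT H.D (t z) (t z) = (r : ℂ) := by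
      rw [← h1]
      exact ge.psi_tc P z z
    rw [h2, Complex.ofReal_re]
    exact hr
  · rw [← hT3]
    exact (Submodule.equivMapOfInjective t ht T).finrank_eq.symm

/-- (W2) `Q1` for a product if `ψ` is positive on the algebraic tensors of this length. -/
theorem hodge_of_pos (ge : H.GeFacts) (hS : Sl2Statement.{w}) (hT : StaStatement.{w}) (P : Prd m)
    (h : ∀ u ∈ OL.RA (AtP H) P.size, u ≠ 0 → 0 < (psiT H.D u u).re) :
    HodgeType W (P.obj H.X) (P.dim H.n) (P.pol W H.ξ) := by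
  intro j hj x hx hp hx0
  refine hodge_of_re H.hW (H.memP P) (H.lamP P).2 (H.lamP P).1 hS hT hj hx hp ?_
  have h1 := h (H.tc P x) (Submodule.subset_span (tc_At H P (alg_le_tot H.hW _ j hx)))
    (fun h0 => hx0 (ge.inj P (by rw [h0, map_zero])))
  rw [ge.psi_tc P x x] at h1
  exact h1

/-- (W3) the unit class -/
theorem unit_pos (ge : H.GeFacts) (a : Fin m)
    (hpos : PositiveDivisor W (H.X a) (H.n a) (H.ξ a)) :
    ∃ u ∈ OL.RA (AtP H) 1, 0 < (psiT H.D u u).re := by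
  refine ⟨H.tc (.leaf a) 1, Submodule.subset_span (tc_At H (.leaf a)
    (one_tot H.hW (H.mem a))), ?_⟩
  obtain ⟨q, hq, h1⟩ := GPOS.psi_one H a hpos
  have h2 : psiT H.D (H.tc (.leaf a) 1) (H.tc (.leaf a) 1) = (q : ℂ) := by
    rw [ge.psi_tc (.leaf a) 1 1, h1]
  have h3 : ((psiT H.D (H.tc (.leaf a) 1) (H.tc (.leaf a) 1)).re) = (q : ℝ) := by
    rw [h2, Complex.ratCast_re q]
  exact h3 ▸ (by exact_mod_cast hq : (0 : ℝ) < (q : ℝ))

end OStr

end Pool.Agent.Lib.MP_361a6f_ag.FL
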