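import Pool.Agent.Lib.MP_361a6f_ag.FL.AlgC

/-!
# The 51 per cent law: the definitions used in the statement
-/

open CategoryTheory AlgebraicGeometry MonoidalCategory CartesianMonoidalCategory

universe u v w

namespace Pool.Agent.Lib.MP_361a6f_ag.FL

open Pool.Agent.Lib.MP_361a6f_ag.H3 Pool.Agent.Lib.MP_361a6f_ag.SQ
  Pool.Agent.Lib.MP_361a6f_ag.PP

noncomputable section

variable {k : Type u} [Field k]

/-- Real vector spaces `U j`, `2 j ≤ n`, of real linear combinations of algebraic classes of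
codimension `j` on `Y` which are primitive for `ξ`, such that the form
`(-1)^j Tr(ξ^(n - 2 j) x^2)` of `Q1` is positive definite on `U j`. -/
structure PosFamily (W : CohomologyData.{u, 0, w} k ℂ) (Y : Sch k) (n : ℕ) (ξ : W.coh Y)
    (U : ℕ → Submodule ℝ (W.coh Y)) : Prop where
  real : ∀ j, 2 * j ≤ n → ∀ x ∈ U j, x ∈ Submodule.span ℝ {z | W.IsAlg Y j z}
  prim : ∀ j, 2 * j ≤ n → ∀ x ∈ U j, W.cup (ξ ^ (n - 2 * j + 1)) x = 0
  pos : ∀ j, 2 * j ≤ n → ∀ x ∈ U j, x ≠ 0 →
    ∃ t : ℝ, 0 < t ∧ (-1) ^ j * W.Tr (W.cup (ξ ^ (n - 2 * j)) (W.cup x x)) = (t : ℂ)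

/-- The sum of the dimensions of the spaces `ξ^i U j`, `2 j ≤ n`, `0 ≤ i ≤ n - 2 j`. -/
def weight {V : Type w} [AddCommGroup V] [Module ℝ V] (n : ℕ) (U : ℕ → Submodule ℝ V) : ℕ :=
  ∑ j ∈ Finset.range (n / 2 + 1), (n - 2 * j + 1) * Module.finrank ℝ (U j)

end

/-- **The 51 per cent law.** For all `d`, `r` and `δ > 0` there is `n₀` such that for all varieties
`X` with `dim H^*(X) = d`, with a divisor class `ξ` of positive degree, hard Lefschetz and an
algebraic operator `Λ`: if for the product of ONE number `n ≥ n₀` of copies of `X` Grothendieck's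
form is positive definite on `1/2 + δ` of the algebraic classes, then `Q1` holds for the products of
at most `r` copies of `X`, for all polarisations `∑ c_i pr_i^* ξ` with rational `c_i > 0`. -/
def FiftyOneStatement : Prop :=
  ∀ (d r : ℕ) (δ : ℝ), 0 < δ → ∃ n₀ : ℕ, ∀ {k : Type u} [Field k]
    (W : CohomologyData.{u, 0, w} k ℂ) (𝒱 : VarietyClass k) (_ : IsWeilCohomology W 𝒱)
    {X : Sch k} {e : ℕ} (_ : 𝒱.mem X e) {ξ : W.coh X} (_ : PositiveDivisor W X e ξ)
    (_ : HardLefschetz W X e ξ) (_ : AlgebraicLambda W X e ξ)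
    (_ : Module.finrank ℂ (W.coh X) = d)
    (P : Prd 1) (_ : n₀ ≤ P.size) (U : ℕ → Submodule ℝ (W.coh (P.obj fun _ => X)))
    (_ : PosFamily W (P.obj fun _ => X) (P.dim fun _ => e) (P.pol W fun _ => ξ) U)
    (_ : (1 / 2 + δ) * Module.finrank ℂ (algC W (P.obj fun _ => X)) ≤
      weight (P.dim fun _ => e) U)
    (R : Prd 1) (_ : R.size ≤ r) (η : W.coh (R.obj fun _ => X)) (_ : IsPol W (fun _ => ξ) R η),
    HodgeType W (R.obj fun _ => X) (R.dim fun _ => e) η

/-- **One power decides all powers.** For every `X` and `δ > 0` there is `n₀` such that the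
hypothesis of the 51 per cent law for ONE number `n ≥ n₀` implies `Q1` for the products of any
number of copies of `X`. -/
def OnePowerStatement : Prop :=
  ∀ {k : Type u} [Field k] (W : CohomologyData.{u, 0, w} k ℂ) (𝒱 : VarietyClass k)
    (_ : IsWeilCohomology W 𝒱) {X : Sch k} {e : ℕ} (_ : 𝒱.mem X e) (δ : ℝ), 0 < δ →
    ∃ n₀ : ℕ, ∀ {ξ : W.coh X} (_ : PositiveDivisor W X e ξ) (_ : HardLefschetz W X e ξ)
    (_ : AlgebraicLambda W X e ξ)
    (P : Prd 1) (_ : n₀ ≤ P.size) (U : ℕ → Submodule ℝ (W.coh (P.obj fun _ => X)))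
    (_ : PosFamily W (P.obj fun _ => X) (P.dim fun _ => e) (P.pol W fun _ => ξ) U)
    (_ : (1 / 2 + δ) * Module.finrank ℂ (algC W (P.obj fun _ => X)) ≤
      weight (P.dim fun _ => e) U)
    (R : Prd 1) (η : W.coh (R.obj fun _ => X)) (_ : IsPol W (fun _ => ξ) R η),
    HodgeType W (R.obj fun _ => X) (R.dim fun _ => e) η

/-- **The gap.** If on the product of `r` copies of `X` the form `(-1)^j Tr(ξ^(n - 2 j) x^2)` is
negative for one primitive algebraic class `x`, then on the product of any number `n` of copies it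
is positive definite on at most half of `N + (d - 2 / r^2) ^ n`, where `N` is the number of the
algebraic classes modulo numerical equivalence and `d = dim H^*(X)`. -/
def GapStatement : Prop :=
  ∀ {k : Type u} [Field k] (W : CohomologyData.{u, 0, w} k ℂ) (𝒱 : VarietyClass k)
    (_ : IsWeilCohomology W 𝒱) {X : Sch k} {e : ℕ} (_ : 𝒱.mem X e) {ξ : W.coh X}
    (_ : PositiveDivisor W X e ξ) (_ : HardLefschetz W X e ξ) (_ : AlgebraicLambda W X e ξ)
    (R : Prd 1) (j : ℕ) (_ : 2 * j ≤ R.dim fun _ => e) (x : W.coh (R.obj fun _ => X))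
    (_ : W.IsAlg (R.obj fun _ => X) j x)
    (_ : W.cup (R.pol W (fun _ => ξ) ^ ((R.dim fun _ => e) - 2 * j + 1)) x = 0)
    (_ : ((-1) ^ j * W.Tr (W.cup (R.pol W (fun _ => ξ) ^ ((R.dim fun _ => e) - 2 * j))
      (W.cup x x))).re < 0)
    (P : Prd 1) (U : ℕ → Submodule ℝ (W.coh (P.obj fun _ => X)))
    (_ : PosFamily W (P.obj fun _ => X) (P.dim fun _ => e) (P.pol W fun _ => ξ) U),
    (2 * weight (P.dim fun _ => e) U : ℝ) ≤ rankN W (P.obj fun _ => X) +
      ((Module.finrank ℂ (W.coh X) : ℝ) - 2 / (R.size : ℝ) ^ 2) ^ P.size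

/-- **Half is always true.** On the product of an even number of copies of `X` Grothendieck's form
is positive definite on at least half of the algebraic classes modulo numerical equivalence. -/
def HalfStatement : Prop :=
  ∀ {k : Type u} [Field k] (W : CohomologyData.{u, 0, w} k ℂ) (𝒱 : VarietyClass k)
    (_ : IsWeilCohomology W 𝒱) {X : Sch k} {e : ℕ} (_ : 𝒱.mem X e) {ξ : W.coh X}
    (_ : PositiveDivisor W X e ξ) (_ : HardLefschetz W X e ξ) (_ : AlgebraicLambda W X e ξ)
    (P : Prd 1) (_ : Even P.size), ∃ U : ℕ → Submodule ℝ (W.coh (P.obj fun _ => X)),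
    PosFamily W (P.obj fun _ => X) (P.dim fun _ => e) (P.pol W fun _ => ξ) U ∧
      rankN W (P.obj fun _ => X) ≤ 2 * weight (P.dim fun _ => e) U

end Pool.Agent.Lib.MP_361a6f_ag.FL
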