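import Pool.Agent.Lib.MP_361a6f_ag.FL.O.Sq
import Pool.Agent.Lib.MP_361a6f_ag.FL.O.SigAdd
import Pool.Agent.Lib.MP_361a6f_ag.FL.O.HostR
import Pool.Agent.Lib.MP_361a6f_ag.FL.O.HostS
import Pool.Agent.Lib.MP_361a6f_ag.FL.O.StatO
import Pool.Agent.Lib.MP_361a6f_ag.FL.B.MainL

/-!
# Half of the numerical classes of an even power is positive
-/

open CategoryTheory AlgebraicGeometry MonoidalCategory CartesianMonoidalCategory

universe u v w

set_option autoImplicit false
set_option linter.unusedSectionVars false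

namespace Pool.Agent.Lib.MP_361a6f_ag.FL

open Pool.Agent.Lib.MP_361a6f_ag.H3 Pool.Agent.Lib.MP_361a6f_ag.SQ
  Pool.Agent.Lib.MP_361a6f_ag.IP2 Pool.Agent.Lib.MP_361a6f_ag.PP

namespace OHalf

open PSI OStr Module

noncomputable section

variable {k : Type u} [Field k] {W : CohomologyData.{u, 0, w} k ℂ} {𝒱 : VarietyClass k}

/-- the real part of `psi` as a real bilinear form -/
def reP {Z : Sch k} {e : ℕ} {η : W.coh Z} {Lam : Module.End ℂ (W.coh Z)}
    (D : LamData W Z e η Lam) (T : Submodule ℝ (W.coh Z)) : T →ₗ[ℝ] T →ₗ[ℝ] ℝ :=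
  LinearMap.mk₂ ℝ (fun x y => (psi W Z η Lam D.slm.internal (x : W.coh Z) (y : W.coh Z)).re)
    (fun x x' y => by
      simp only [psi, Submodule.coe_add, add_mul, map_add, Complex.add_re])
    (fun c x y => by
      have h : ((c • x : T) : W.coh Z) = (c : ℂ) • (x : W.coh Z) := rfl
      simp only [psi, h, smul_mul_assoc, map_smul, smul_eq_mul, Complex.re_ofReal_mul])
    (fun x y y' => by
      simp only [psi, Submodule.coe_add, mul_add, map_add, Complex.add_re])
    (fun c x y => by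
      have h : ((c • y : T) : W.coh Z) = (c : ℂ) • (y : W.coh Z) := rfl
      simp only [psi, h, mul_smul_comm, map_smul, smul_eq_mul, Complex.re_ofReal_mul])

theorem reP_apply {Z : Sch k} {e : ℕ} {η : W.coh Z} {Lam : Module.End ℂ (W.coh Z)}
    (D : LamData W Z e η Lam) (T : Submodule ℝ (W.coh Z)) (x y : T) :
    reP D T x y = (psi W Z η Lam D.slm.internal (x : W.coh Z) (y : W.coh Z)).re := rfl

/-- the real part of Grothendieck's form as a real bilinear form -/
def reG (W : CohomologyData.{u, 0, w} k ℂ) (Z : Sch k) (e : ℕ) (η : W.coh Z) (j : ℕ)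
    (T : Submodule ℝ (W.coh Z)) : T →ₗ[ℝ] T →ₗ[ℝ] ℝ :=
  LinearMap.mk₂ ℝ (fun x y => (Gf W Z e η j (x : W.coh Z) (y : W.coh Z)).re)
    (fun x x' y => by
      simp only [Gf, Submodule.coe_add, add_mul, mul_add, map_add, Complex.add_re])
    (fun c x y => by
      have h : ((c • x : T) : W.coh Z) = (c : ℂ) • (x : W.coh Z) := rfl
      have h2 : Gf W Z e η j ((c • x : T) : W.coh Z) (y : W.coh Z)
          = (c : ℂ) * Gf W Z e η j (x : W.coh Z) (y : W.coh Z) := by
        simp only [Gf, h, smul_mul_assoc, mul_smul_comm, map_smul, smul_eq_mul]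
        ring
      rw [h2, Complex.re_ofReal_mul, smul_eq_mul])
    (fun x y y' => by
      simp only [Gf, Submodule.coe_add, mul_add, map_add, Complex.add_re])
    (fun c x y => by
      have h : ((c • y : T) : W.coh Z) = (c : ℂ) • (y : W.coh Z) := rfl
      have h2 : Gf W Z e η j (x : W.coh Z) ((c • y : T) : W.coh Z)
          = (c : ℂ) * Gf W Z e η j (x : W.coh Z) (y : W.coh Z) := by
        simp only [Gf, h, smul_mul_assoc, mul_smul_comm, map_smul, smul_eq_mul]
        ring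
      rw [h2, Complex.re_ofReal_mul, smul_eq_mul])

theorem reG_apply {Z : Sch k} {e : ℕ} {η : W.coh Z} (j : ℕ) (T : Submodule ℝ (W.coh Z))
    (x y : T) : reG W Z e η j T x y = (Gf W Z e η j (x : W.coh Z) (y : W.coh Z)).re := rfl

variable (hW : IsWeilCohomology W 𝒱) {Z : Sch k} {e : ℕ} (hZ : 𝒱.mem Z e)
  {η : W.coh Z} (hη : η ∈ W.alg Z 1) {Lam : Module.End ℂ (W.coh Z)}
  (D : LamData W Z e η Lam) (hS : Sl2Statement.{w}) (hT : StaStatement.{w})

include hW hZ hη hS hT in
/-- A space of real algebraic classes on which `psi` is positive definite gives real spaces of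
primitive classes on which Grothendieck's forms are positive definite. -/
theorem exists_fam (T : Submodule ℝ (W.coh Z))
    (hTt : T ≤ Submodule.span ℝ (tot W Z : Set (W.coh Z)))
    (hpos : ∀ x ∈ T, x ≠ 0 → 0 < (psi W Z η Lam D.slm.internal x x).re) :
    ∃ U : ℕ → Submodule ℝ (W.coh Z), (∀ j, U j ≤ PrR W Z e η j) ∧
      (∀ j, ∀ x ∈ U j, x ≠ 0 → 0 < (Gf W Z e η j x x).re) ∧
      finrank ℝ T ≤ ∑ j ∈ Finset.range (e / 2 + 1), (e - 2 * j + 1) * finrank ℝ (U j) := by
  classical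
  have hfin : Module.Finite ℂ (W.coh Z) := hW.graded.finite hZ
  have hfinR : Module.Finite ℝ (W.coh Z) := Module.Finite.trans ℂ (W.coh Z)
  set R : Submodule ℝ (W.coh Z) := Submodule.span ℝ (tot W Z : Set (W.coh Z)) with hR
  -- the decomposition
  have hinj : Function.Injective (Phi W Z e η (id : Idx e → Idx e)) :=
    Phi_inj hW hZ hη D hS id Function.injective_id
  have hrange := range_Phi hW hZ hη D hS hT
  let Φ : (∀ b : Idx e, PrR W Z e η (id b : Idx e).1) ≃ₗ[ℝ] R :=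
    (LinearEquiv.ofInjective _ hinj).trans (LinearEquiv.ofEq _ _ hrange)
  have hΦ : ∀ f, ((Φ f : R) : W.coh Z) = Phi W Z e η (id : Idx e → Idx e) f := fun f => rfl
  obtain ⟨q, hq, hpsi⟩ := psi_Phi hW hZ hη D hS hT
  have hsum := OSig.sigPos_sum Φ (OSig.qf (reP D R))
    (fun b : Idx e => OSig.qf (reG W Z e η b.1 (PrR W Z e η b.1)))
    (fun b => (q b.1 b.2 : ℝ)) (fun b => by exact_mod_cast hq b.1 b.2) (by
      intro f
      rw [OSig.qf_apply, reP_apply, hΦ, hpsi id Function.injective_id f f, Complex.re_sum]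
      refine Finset.sum_congr rfl fun b _ => ?_
      rw [OSig.qf_apply, reG_apply]
      have h1 : ((q (id b : Idx e).1 (id b : Idx e).2 : ℚ) : ℂ)
          = ((q b.1 b.2 : ℝ) : ℂ) := by
        push_cast
        rfl
      rw [h1, Complex.re_ofReal_mul]
      rfl)
  -- the positive spaces
  choose U hU hUp using fun j : ℕ =>
    exists_finrank_eq_sigPos_and_posDef (OSig.qf (reG W Z e η j (PrR W Z e η j)))
  refine ⟨fun j => (U j).map (PrR W Z e η j).subtype, ?_, ?_, ?_⟩
  · rintro j _ ⟨x, _, rfl⟩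
    exact x.2
  · rintro j _ ⟨x, hx, rfl⟩ h0
    have h1 := hUp j ⟨x, hx⟩ fun h => h0 (by
      have h2 : x = 0 := congrArg Subtype.val h
      rw [h2, map_zero])
    exact h1
  · have h1 : finrank ℝ T ≤ sigPos (OSig.qf (reP D R)) := by
      have h2 : ((OSig.qf (reP D R)).restrict (T.submoduleOf R)).PosDef := by
        rw [OSig.posDef_iff]
        intro w hw hw0
        rw [reP_apply]
        exact hpos w hw fun h => hw0 (Subtype.ext h)
      have h3 := le_sigPos_of_posDef _ h2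
      rwa [(Submodule.submoduleOfEquivOfLe hTt).finrank_eq] at h3
    have h2 : ∀ j, finrank ℝ ((U j).map (PrR W Z e η j).subtype) = finrank ℝ (U j) := fun j =>
      (Submodule.equivMapOfInjective _ (Submodule.injective_subtype _) (U j)).finrank_eq.symm
    rw [hsum, Fintype.sum_sigma] at h1
    refine h1.trans (le_of_eq ?_)
    rw [Finset.sum_range]
    refine Finset.sum_congr rfl fun j _ => ?_
    rw [h2, hU]
    have h3 : ∀ y : Fin (e - 2 * (j : ℕ) + 1),
        sigPos (OSig.qf (reG W Z e η ((⟨j, y⟩ : Idx e).1 : ℕ)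
          (PrR W Z e η ((⟨j, y⟩ : Idx e).1 : ℕ))))
        = sigPos (OSig.qf (reG W Z e η (j : ℕ) (PrR W Z e η (j : ℕ)))) := fun y => rfl
    rw [Finset.sum_congr rfl fun y _ => h3 y, Finset.sum_const, Finset.card_univ,
      Fintype.card_fin, smul_eq_mul]

end

end OHalf

open OL

/-- an even length: a positive definite space of at least half of the rank -/
theorem half_even (a1 : Alg1) (a2 : Alg2) (ab : AlgB) (cpt : CptbStatement) (mn : MinbStatement)
    (l1 : L1bStatement) (l2 : L2bStatement) {I Λ : Type} [Fintype I] [DecidableEq I]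
    [DecidableEq Λ] {D : Dat I Λ} {At : (L : ℕ) → Ten I L → Prop} (S : ASys D At) {c : ℕ}
    (hc : Even c) : ∃ U : Submodule ℝ (Ten I c), U ≤ RA At c ∧ PosU D U ∧
      rkA D At c ≤ 2 * Module.finrank ℝ U := by
  obtain ⟨n, rfl⟩ := hc
  rw [← two_mul]
  exact half_pos a1 a2 ab cpt mn l1 l2 S n

/-- one label -/
theorem half1 {k : Type u} [Field k] (W : CohomologyData.{u, 0, w} k ℂ) (𝒱 : VarietyClass k)
    (hW : IsWeilCohomology W 𝒱) {X : Fin 1 → Sch k} {e : Fin 1 → ℕ} (hX : ∀ a, 𝒱.mem (X a) (e a))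
    {ξ : ∀ a, W.coh (X a)} (hξ : ∀ a, W.IsAlg (X a) 1 (ξ a))
    (hL : ∀ a, HardLefschetz W (X a) (e a) (ξ a)) (hΛ : ∀ a, AlgebraicLambda W (X a) (e a) (ξ a))
    (P : Prd 1) (hP : Even P.size) :
    ∃ U : ℕ → Submodule ℝ (W.coh (P.obj X)), PosFamily W (P.obj X) (P.dim e) (P.pol W ξ) U ∧
      rankN W (P.obj X) ≤ 2 * weight (P.dim e) U := by
  obtain ⟨H, hHX, hHn, hHξ⟩ := gb26 hW hX hξ hL hΛ
  subst hHX hHn
  obtain rfl := eq_of_heq hHξ
  have hge : H.GeFacts := ge H
  have hgr : H.RelFacts := gr ge H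
  have hS : ASys H.D (HostR.AtP H) := aSys_at (at_ H)
  obtain ⟨U₀, hU1, hU2, hU3⟩ := half_even alg1 alg2 (algB alg1 alg2) cptbH (minb alg1)
    (l1b alg1 (volb alg1) (phab alg1 (tanb alg1)) (avgb mainFfb alg1 alg2))
    (l2b alg1 (volb alg1) (phab alg1 (tanb alg1)) (avgb mainFfb alg1 alg2)) hS hP
  obtain ⟨T, hT1, rfl⟩ := HostR.exists_map H hgr hge P hU1
  rw [HostR.finrank_map H hge P] at hU3
  obtain ⟨U, hUP, hUG, hUd⟩ := OHalf.exists_fam H.hW (H.memP P) (H.lamP P).2 (H.lamP P).1 sl2 staB T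
    hT1 ((HostR.posU_map H hge P T).1 hU2)
  obtain ⟨q, hq, hpsi⟩ := OStr.psi_unif H.hW (H.memP P) (H.lamP P).2 (H.lamP P).1 sl2 staB
  refine ⟨U, ⟨fun j _ x hx => (hUP j hx).1, fun j _ x hx => (hUP j hx).2, ?_⟩, ?_⟩
  · intro j hj x hx h0
    refine ⟨(OStr.Gf W (P.obj H.X) (P.dim H.n) (P.pol W H.ξ) j x x).re, hUG j x hx h0, ?_⟩
    have h1 := hpsi j 0 x x hj (Nat.zero_le _) (hUP j hx) (hUP j hx)
    rw [pow_zero, one_mul] at h1
    have hxt : x ∈ HostR.totR W (P.obj H.X) := by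
      have h2 := (hUP j hx).1
      exact Submodule.span_mono (fun z hz => alg_le_tot H.hW _ j hz) h2
    have h3 : (H.psiP P x x).im = 0 := HostR.psi_real H P hxt hxt
    have h4 : (((q j 0 : ℝ) : ℂ) * OStr.Gf W (P.obj H.X) (P.dim H.n) (P.pol W H.ξ) j x x).im = 0 := by
      rw [← h3]
      have h5 : H.psiP P x x = (q j 0 : ℂ)
          * OStr.Gf W (P.obj H.X) (P.dim H.n) (P.pol W H.ξ) j x x := h1
      rw [h5, Complex.ofReal_ratCast]
    rw [Complex.im_ofReal_mul] at h4
    have hq' : (0 : ℝ) < (q j 0 : ℝ) := by exact_mod_cast hq j 0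
    have h6 : (OStr.Gf W (P.obj H.X) (P.dim H.n) (P.pol W H.ξ) j x x).im = 0 :=
      (mul_eq_zero.1 h4).resolve_left hq'.ne'
    show OStr.Gf W (P.obj H.X) (P.dim H.n) (P.pol W H.ξ) j x x = _
    exact Complex.ext (by rw [Complex.ofReal_re]) (by rw [Complex.ofReal_im]; exact h6)
  · have h1 : rankN W (P.obj H.X) = rkA H.D (HostR.AtP H) P.size :=
      (HostR.rkA_eq H staB hgr hge P).symm
    rw [h1]
    exact hU3.trans (Nat.mul_le_mul_left 2 hUd)

/-- **Half is always true.** -/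
theorem mainHalf : HalfStatement.{u, w} := by
  intro k _ W 𝒱 hW X e hX ξ hξ hL hΛ P hP
  exact half1 W 𝒱 hW (X := fun _ => X) (e := fun _ => e) (fun _ => hX) (ξ := fun _ => ξ)
    (fun _ => hξ.1) (fun _ => hL) (fun _ => hΛ) P hP

end Pool.Agent.Lib.MP_361a6f_ag.FL
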