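import Pool.Agent.Lib.MP_361a6f_ag.FL.B.PosL
import Pool.Agent.Lib.MP_361a6f_ag.FL.GJ
import Pool.Agent.Lib.MP_361a6f_ag.FL.AlgC

/-!
# One variety: the tensors of algebraic classes are the algebraic classes on the powers
-/

open CategoryTheory AlgebraicGeometry MonoidalCategory CartesianMonoidalCategory

universe u v w

set_option autoImplicit false
set_option linter.unusedSectionVars false

namespace Pool.Agent.Lib.MP_361a6f_ag.FL

open Pool.Agent.Lib.MP_361a6f_ag.H3 Pool.Agent.Lib.MP_361a6f_ag.SQ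
  Pool.Agent.Lib.MP_361a6f_ag.PP

namespace HOST2

variable {k : Type u} [Field k] {W : CohomologyData.{u, 0, w} k ℂ} {𝒱 : VarietyClass k}
  (H : Host W 𝒱 1)

theorem not_off (P : Prd 1) (w : Fin P.size → H.I) : ¬ H.Off P w := by
  rintro ⟨i, hi⟩
  exact hi (Subsingleton.elim _ _)

/-- (h1) -/
theorem mem_At (gr : H.RelFacts) (ge : H.GeFacts) (P : Prd 1) (u : Ten H.I P.size) :
    u ∈ H.At P.size ↔ ∃ z ∈ tot W (P.obj H.X), H.tc P z = u := by
  constructor
  · intro hu
    obtain ⟨z, hz, h⟩ := PosL.at_fit H gr ge P hu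
    refine ⟨z, hz, funext fun w => ?_⟩
    rw [h w, if_neg (not_off H P w)]
  · rintro ⟨z, hz, rfl⟩
    exact AddSubgroup.subset_closure (Or.inr ⟨P, rfl, z, hz, rfl⟩)

theorem algC_eq {Y : Sch k} : algC W Y = Submodule.span ℂ {z | z ∈ tot W Y} := by
  refine le_antisymm (Submodule.span_mono ?_) (Submodule.span_le.2 ?_)
  · rintro z ⟨l, hz⟩
    exact le_iSup (fun j => W.alg Y j) l hz
  · intro z hz
    have h1 : tot W Y ≤ (algC W Y).toAddSubgroup :=
      iSup_le fun l x hx => Submodule.subset_span ⟨l, hx⟩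
    exact h1 hz

/-- (h2) -/
theorem map_algC (gr : H.RelFacts) (ge : H.GeFacts) (P : Prd 1) :
    (algC W (P.obj H.X)).map (H.tc P) = Submodule.span ℂ {u | u ∈ H.At P.size} := by
  rw [algC_eq, Submodule.map_span]
  congr 1
  ext u
  exact ((mem_At H gr ge P u).trans ⟨fun ⟨z, h, e⟩ => ⟨z, h, e⟩, fun ⟨z, h, e⟩ => ⟨z, h, e⟩⟩).symm

theorem finrank_algC (gr : H.RelFacts) (ge : H.GeFacts) (P : Prd 1) :
    Module.finrank ℂ (algC W (P.obj H.X))
      = Module.finrank ℂ (Submodule.span ℂ {u | u ∈ H.At P.size}) := by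
  rw [← map_algC H gr ge P]
  exact (Submodule.equivMapOfInjective (H.tc P) (ge.inj P) _).finrank_eq

/-- orthogonality to the algebraic classes in terms of `psi` -/
theorem orth_iff (hsta : StaStatement.{w}) (P : Prd 1) (z : W.coh (P.obj H.X)) :
    (∀ l y, W.IsAlg (P.obj H.X) l y → W.Tr (W.cup z y) = 0) ↔
      ∀ y ∈ tot W (P.obj H.X), H.psiP P z y = 0 := by
  have hSS : ∀ v, star (H.lamP P).1.slm.internal (Lop W (P.obj H.X) (P.pol W H.ξ))
      (H.LamP P) (star (H.lamP P).1.slm.internal (Lop W (P.obj H.X) (P.pol W H.ξ))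
      (H.LamP P) v) = v := (hsta (H.lamP P).1.slm).2.1
  have hst : ∀ v ∈ tot W (P.obj H.X), star (H.lamP P).1.slm.internal
      (Lop W (P.obj H.X) (P.pol W H.ξ)) (H.LamP P) v ∈ tot W (P.obj H.X) := fun v hv =>
    AlgOp.apply H.hW (H.memP P) (algOp_star H.hW (H.memP P) (H.lamP P).2 (H.lamP P).1) hv
  constructor
  · intro h y hy
    have ht : ∀ y ∈ tot W (P.obj H.X), W.tr (P.obj H.X) (z * y) = 0 := by
      intro y hy
      refine tot_induction H.hW (P := fun y => W.tr (P.obj H.X) (z * y) = 0) hy ?_ ?_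
      · intro l y hy
        exact h l y hy
      · intro a b ha hb
        rw [mul_add, map_add, ha, hb, add_zero]
    exact ht _ (hst y hy)
  · intro h l y hy
    have h1 := h _ (hst y (alg_le_tot H.hW _ l hy))
    rw [Host.psiP, psi, hSS] at h1
    exact h1

/-- the radical of `psi` on the complex span of the tensors of algebraic classes -/
noncomputable def radT (n : ℕ) : Submodule ℂ (Ten H.I n) where
  carrier := {u | u ∈ Submodule.span ℂ {u | u ∈ H.At n} ∧ ∀ v ∈ H.At n, psiT H.D u v = 0}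
  add_mem' := fun {a b} ha hb => ⟨add_mem ha.1 hb.1, fun v hv => by
    rw [← Qps.psiL_apply, map_add, LinearMap.add_apply, Qps.psiL_apply, Qps.psiL_apply,
      ha.2 v hv, hb.2 v hv, add_zero]⟩
  zero_mem' := ⟨zero_mem _, fun v _ => by
    rw [← Qps.psiL_apply, map_zero, LinearMap.zero_apply]⟩
  smul_mem' := fun c a ha => ⟨Submodule.smul_mem _ c ha.1, fun v hv => by
    rw [← Qps.psiL_apply, map_smul, LinearMap.smul_apply, Qps.psiL_apply, ha.2 v hv, smul_zero]⟩

/-- (h3) -/
theorem map_numC (hsta : StaStatement.{w}) (gr : H.RelFacts) (ge : H.GeFacts) (P : Prd 1) :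
    (numC W (P.obj H.X)).map (H.tc P) = radT H P.size := by
  ext u
  constructor
  · rintro ⟨z, hz, rfl⟩
    refine ⟨?_, fun v hv => ?_⟩
    · rw [← map_algC H gr ge P]
      exact ⟨z, hz.1, rfl⟩
    · obtain ⟨y, hy, rfl⟩ := (mem_At H gr ge P v).1 hv
      rw [ge.psi_tc]
      exact (orth_iff H hsta P z).1 hz.2 y hy
  · rintro ⟨hu, hv⟩
    rw [← map_algC H gr ge P] at hu
    obtain ⟨z, hz, rfl⟩ := hu
    refine ⟨z, ⟨hz, (orth_iff H hsta P z).2 fun y hy => ?_⟩, rfl⟩
    rw [← ge.psi_tc]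
    exact hv _ ((mem_At H gr ge P _).2 ⟨y, hy, rfl⟩)

theorem finrank_numC (hsta : StaStatement.{w}) (gr : H.RelFacts) (ge : H.GeFacts) (P : Prd 1) :
    Module.finrank ℂ (numC W (P.obj H.X)) = Module.finrank ℂ (radT H P.size) := by
  rw [← map_numC H hsta gr ge P]
  exact (Submodule.equivMapOfInjective (H.tc P) (ge.inj P) _).finrank_eq

theorem numC_eq_bot (hsta : StaStatement.{w}) (gr : H.RelFacts) (ge : H.GeFacts) (P : Prd 1)
    (h : radT H P.size = ⊥) : numC W (P.obj H.X) = ⊥ := by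
  rw [← map_numC H hsta gr ge P] at h
  exact Submodule.map_injective_of_injective (f := H.tc P) (ge.inj P)
    (h.trans (Submodule.map_bot _).symm)

end HOST2

end Pool.Agent.Lib.MP_361a6f_ag.FL
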