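import Mathlib
import Pool.Agent.Lib.MP_361a6f_ag.FL.Defs

/-!
# The convex hull law, pointwise part

For a unitary element `g` of a symplectic group of rank `n` the polynomial `det (1 + t g)` is a
product of `n` factors `c (1 + t) ^ 2 + (1 - c) (1 - t) ^ 2` with `0 ≤ c ≤ 1`; hence it is a convex
combination of the polynomials `(1 + t) ^ (2 k) (1 - t) ^ (2 (n - k))`.
-/

open Matrix Polynomial
open scoped ComplexOrder

set_option autoImplicit false
set_option linter.unusedSectionVars false
set_option linter.unusedSimpArgs false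

namespace Pool.Agent.Lib.MP_361a6f_ag.FL

namespace Hull35

variable {I Λ : Type} [Fintype I] [DecidableEq I] [DecidableEq Λ] {D : Dat I Λ}

section symp

variable (ho : ∀ i, D.odd (D.typ i))

include ho in
theorem s_tau (i : I) : D.s (D.τ i) = -D.s i := (D.odd_τ i (ho i)).2

theorem one_ne : (1 : ℂ) ≠ -1 := by
  intro h
  have := congrArg Complex.re h
  norm_num at this

/-- the two halves of the index set -/
noncomputable def half : {i : I // D.s i = -1} ⊕ {i : I // D.s i = -1} ≃ I where
  toFun := Sum.elim (fun i => i.1) (fun i => D.τ i.1)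
  invFun j := by
    classical
    exact if h : D.s j = -1 then Sum.inl ⟨j, h⟩ else Sum.inr ⟨D.τ j, by
      rw [s_tau ho, (D.s_val j).resolve_right h]⟩
  left_inv := by
    rintro (⟨i, hi⟩ | ⟨i, hi⟩)
    · simp [hi]
    · have h : ¬ D.s (D.τ i) = -1 := by
        rw [s_tau ho, hi, neg_neg]
        exact one_ne
      simp [h, D.τ_τ]
  right_inv := by
    intro j
    by_cases h : D.s j = -1
    · simp [h]
    · simp [h, D.τ_τ]

include ho in
theorem card_even : ∃ n, Fintype.card I = 2 * n := by
  classical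
  refine ⟨Fintype.card {i : I // D.s i = -1}, ?_⟩
  rw [← Fintype.card_congr (half ho), Fintype.card_sum, two_mul]

include ho in
theorem psi_half : (Psi D).submatrix (half ho) (half ho) =
    Matrix.J {i : I // D.s i = -1} ℂ := by
  classical
  ext a b
  rcases a with ⟨i, hi⟩ | ⟨i, hi⟩ <;> rcases b with ⟨j, hj⟩ | ⟨j, hj⟩
  · have : j ≠ D.τ i := by
      intro h
      rw [h, s_tau ho, hi, neg_neg] at hj
      exact one_ne hj
    simp [Psi, half, Matrix.J, this]
  · by_cases h : i = j
    · subst h
      simp [Psi, half, Matrix.J, hi]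
    · have : D.τ j ≠ D.τ i := fun h' => h (by
        rw [← D.τ_τ i, ← D.τ_τ j, h'])
      simp [Psi, half, Matrix.J, this, h]
  · by_cases h : i = j
    · subst h
      simp [Psi, half, Matrix.J, hi, D.τ_τ, s_tau ho]
    · have : ¬ j = i := fun h' => h h'.symm
      simp [Psi, half, Matrix.J, this, h, D.τ_τ]
  · have : D.τ j ≠ i := by
      intro h
      rw [← h, s_tau ho, hj, neg_neg] at hi
      exact one_ne hi
    simp [Psi, half, Matrix.J, D.τ_τ, this]

include ho in
/-- symplectic matrices have determinant `1` -/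
theorem det_one {g : Matrix I I ℂ} (hg : IsG D g) : g.det = 1 := by
  classical
  have h1 := congrArg (fun M : Matrix I I ℂ => M.submatrix (half ho) (half ho)) hg.2
  rw [← Matrix.submatrix_mul_equiv _ _ (half ho) (half ho) (half ho),
    ← Matrix.submatrix_mul_equiv _ _ (half ho) (half ho) (half ho), psi_half ho] at h1
  have h2 : (g.submatrix (half ho) (half ho))ᵀ ∈
      Matrix.symplecticGroup {i : I // D.s i = -1} ℂ := by
    rw [SymplecticGroup.mem_iff, Matrix.transpose_transpose, Matrix.transpose_submatrix]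
    exact h1
  have h3 := SymplecticGroup.det_eq_one h2
  rwa [Matrix.det_transpose, Matrix.det_submatrix_equiv_self] at h3

include ho in
theorem psi_sq : Psi D * Psi D = -1 := by
  ext i k
  rw [Matrix.mul_apply, Finset.sum_eq_single (D.τ i)]
  · by_cases h : i = k
    · subst h
      have h1 : D.s i * D.s i = 1 := by
        rcases D.s_val i with h | h <;> rw [h] <;> ring
      simp only [Psi, Matrix.of_apply, D.τ_τ, if_true, Matrix.neg_apply, Matrix.one_apply_eq]
      rw [s_tau ho, mul_neg, h1]
    · have h' : ¬ k = i := fun h' => h h'.symm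
      simp [Psi, D.τ_τ, h, h', Matrix.one_apply]
  · intro j _ hj
    simp [Psi, hj]
  · intro h
    exact absurd (Finset.mem_univ _) h

include ho in
theorem det_psi_ne : (Psi D).det ≠ 0 := by
  intro h
  have h1 := congrArg Matrix.det (psi_sq ho)
  rw [Matrix.det_mul, h, zero_mul] at h1
  have h2 : (-1 : Matrix I I ℂ).det ≠ 0 := by
    rw [Matrix.det_neg, Matrix.det_one, mul_one]
    exact pow_ne_zero _ (by norm_num)
  exact h2 h1.symm

end symp

/-- `(1 + g) / 2 + z (1 - g) / 2` -/
noncomputable def M (g : Matrix I I ℂ) (z : ℂ) : Matrix I I ℂ :=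
  (1 / 2 : ℂ) • (1 + g) + (z / 2) • (1 - g)

theorem M_one (g : Matrix I I ℂ) : M g 1 = 1 := by
  unfold M
  rw [← smul_add, add_add_sub_cancel, ← two_smul ℂ (1 : Matrix I I ℂ), smul_smul]
  norm_num

section even

variable (ho : ∀ i, D.odd (D.typ i)) {g : Matrix I I ℂ}

include ho in
theorem det_even (hg : IsG D g) (z : ℂ) : (M g (-z)).det = (M g z).det := by
  have h1 : (M g z)ᵀ * Psi D * g = Psi D * M g (-z) := by
    have h2 : (M g z)ᵀ = (1 / 2 : ℂ) • (1 + gᵀ) + (z / 2) • (1 - gᵀ) := by
      unfold M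
      simp [Matrix.transpose_add, Matrix.transpose_sub, Matrix.transpose_smul]
    rw [h2]
    unfold M
    simp only [Matrix.add_mul, Matrix.mul_add, Matrix.sub_mul, Matrix.mul_sub, Matrix.smul_mul,
      Matrix.mul_smul, one_mul, mul_one, hg.2]
    ext i j
    simp only [Matrix.add_apply, Matrix.sub_apply, Matrix.smul_apply, smul_eq_mul]
    ring
  have h3 := congrArg Matrix.det h1
  rw [Matrix.det_mul, Matrix.det_mul, Matrix.det_mul, Matrix.det_transpose, det_one ho hg,
    mul_one, mul_comm] at h3
  exact (mul_left_cancel₀ (det_psi_ne ho) h3).symm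

theorem root_re (hu : g.conjTranspose * g = 1) {z : ℂ} (hz : (M g z).det = 0) : z.re = 0 := by
  obtain ⟨v, hv, hv0⟩ := Matrix.exists_mulVec_eq_zero_iff.2 hz
  set a : I → ℂ := v + g *ᵥ v with ha
  set b : I → ℂ := v - g *ᵥ v with hb
  have h1 : a + z • b = 0 := by
    have h2 : M g z *ᵥ v = (1 / 2 : ℂ) • (a + z • b) := by
      unfold M
      rw [Matrix.add_mulVec, Matrix.smul_mulVec, Matrix.smul_mulVec, Matrix.add_mulVec,
        Matrix.sub_mulVec, Matrix.one_mulVec, ← ha, ← hb]
      ext i
      simp only [Pi.add_apply, Pi.smul_apply, smul_eq_mul]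
      ring
    rw [hv0] at h2
    have h3 := congrArg (fun w => (2 : ℂ) • w) h2.symm
    simp only [smul_smul, smul_zero] at h3
    norm_num at h3
    exact h3
  have hn : star (g *ᵥ v) ⬝ᵥ (g *ᵥ v) = star v ⬝ᵥ v := by
    rw [Matrix.star_mulVec, ← Matrix.dotProduct_mulVec, Matrix.mulVec_mulVec, hu,
      Matrix.one_mulVec]
  have h4 : (star b ⬝ᵥ a).re = 0 := by
    have h5 : star b ⬝ᵥ a = star v ⬝ᵥ (g *ᵥ v) - star (g *ᵥ v) ⬝ᵥ v := by
      rw [ha, hb, star_sub, sub_dotProduct, dotProduct_add, dotProduct_add, hn]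
      ring
    have h6 : star (g *ᵥ v) ⬝ᵥ v = star (star v ⬝ᵥ (g *ᵥ v)) := by
      rw [Matrix.star_dotProduct]
    rw [h5, h6, Complex.sub_re, Complex.star_def, Complex.conj_re, sub_self]
  have h7 : star b ⬝ᵥ a = -(z * (star b ⬝ᵥ b)) := by
    have h8 : a = -(z • b) := eq_neg_of_add_eq_zero_left h1
    rw [h8, dotProduct_neg, dotProduct_smul, smul_eq_mul]
  have h9 : star b ⬝ᵥ b = ((star b ⬝ᵥ b).re : ℂ) := by
    have := dotProduct_star_self_nonneg b
    rw [Complex.le_def] at this
    refine Complex.ext rfl ?_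
    rw [Complex.ofReal_im]
    exact this.2.symm
  rw [h7, h9, Complex.neg_re, Complex.re_mul_ofReal, neg_eq_zero] at h4
  rcases mul_eq_zero.1 h4 with h | h
  · exact h
  · exfalso
    have hb0 : star b ⬝ᵥ b = 0 := by rw [h9, h, Complex.ofReal_zero]
    have hb1 : b = 0 := dotProduct_star_self_eq_zero.1 hb0
    rw [hb1, smul_zero, add_zero] at h1
    apply hv
    have h10 : (2 : ℂ) • v = a + b := by
      rw [ha, hb, two_smul]
      abel
    rw [h1, hb1, add_zero] at h10
    exact (smul_eq_zero.1 h10).resolve_left two_ne_zero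

end even

/-- the polynomial `z ↦ det (M g z)` -/
noncomputable def W (g : Matrix I I ℂ) : ℂ[X] :=
  det ((X : ℂ[X]) • ((1 / 2 : ℂ) • (1 - g)).map C + ((1 / 2 : ℂ) • (1 + g)).map C)

theorem W_eval (g : Matrix I I ℂ) (z : ℂ) : (W g).eval z = (M g z).det := by
  unfold W
  rw [← Polynomial.coe_evalRingHom, RingHom.map_det]
  congr 1
  ext i j
  simp only [RingHom.mapMatrix_apply, Matrix.map_apply, Matrix.add_apply, Matrix.smul_apply,
    smul_eq_mul, Polynomial.coe_evalRingHom, Polynomial.eval_add, Polynomial.eval_mul,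
    Polynomial.eval_X, Polynomial.eval_C, M]
  ring

theorem W_natDegree (g : Matrix I I ℂ) : (W g).natDegree ≤ Fintype.card I :=
  Polynomial.natDegree_det_X_add_C_le _ _

theorem even_coeff {P : ℂ[X]} (h : ∀ z, P.eval (-z) = P.eval z) {m : ℕ} (hm : ¬ 2 ∣ m) :
    P.coeff m = 0 := by
  have h1 : P.comp (-X) = P := by
    refine Polynomial.funext fun z => ?_
    rw [Polynomial.eval_comp, Polynomial.eval_neg, Polynomial.eval_X, h]
  have h2 : P.comp (-X) = P.comp (C (-1) * X) := by
    rw [map_neg, map_one, neg_mul, one_mul]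
  have h3 : (P.comp (C (-1) * X)).coeff m = P.coeff m * (-1) ^ m := Polynomial.comp_C_mul_X_coeff
  rw [← h2, h1, Odd.neg_one_pow (Nat.odd_iff.2 (by omega))] at h3
  have h4 : 2 * P.coeff m = 0 := by linear_combination h3
  exact (mul_eq_zero.1 h4).resolve_left two_ne_zero

theorem even_expand {P : ℂ[X]} (h : ∀ z, P.eval (-z) = P.eval z) :
    Polynomial.expand ℂ 2 (Polynomial.contract 2 P) = P := by
  ext m
  rw [Polynomial.coeff_expand (by norm_num : 0 < 2)]
  split_ifs with hm
  · rw [Polynomial.coeff_contract two_ne_zero, Nat.div_mul_cancel hm]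
  · exact (even_coeff h hm).symm

/-- An even complex polynomial with value `1` at `1` whose zeros are purely imaginary. -/
theorem even_prod {P : ℂ[X]} (h : ∀ z, P.eval (-z) = P.eval z) (h1 : P.eval 1 = 1)
    (h0 : ∀ z, P.eval z = 0 → z.re = 0) {n : ℕ} (hn : P.natDegree ≤ 2 * n) :
    ∃ l : List ℝ, l.length = n ∧ (∀ c ∈ l, 0 ≤ c ∧ c ≤ 1) ∧
      ∀ z : ℂ, P.eval z = (l.map fun c : ℝ => (c : ℂ) + (1 - c) * z ^ 2).prod := by
  classical
  set R := Polynomial.contract 2 P with hR
  have hP : ∀ z, P.eval z = R.eval (z ^ 2) := by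
    intro z
    conv_lhs => rw [← even_expand h]
    rw [Polynomial.expand_eval]
  have hR1 : R.eval 1 = 1 := by
    have := hP 1
    rw [one_pow] at this
    rw [← this, h1]
  have hdeg : R.natDegree ≤ n := by
    have h2 : (Polynomial.expand ℂ 2 R).natDegree = R.natDegree * 2 :=
      Polynomial.natDegree_expand 2 R
    rw [hR, even_expand h, ← hR] at h2
    omega
  have hroot : ∀ r ∈ R.roots, r = ((r.re : ℝ) : ℂ) ∧ r.re ≤ 0 := by
    intro r hr
    have hr1 : R.eval r = 0 := (Polynomial.mem_roots'.1 hr).2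
    obtain ⟨z, hz⟩ := IsAlgClosed.exists_pow_nat_eq r (n := 2) (by norm_num)
    have hz0 := h0 z (by rw [hP, hz, hr1])
    have hz1 : z = (z.im : ℂ) * Complex.I := by
      refine Complex.ext ?_ ?_
      · simp [hz0]
      · simp
    have hr2 : r = ((-(z.im ^ 2) : ℝ) : ℂ) := by
      rw [← hz, hz1]
      have := Complex.I_sq
      push_cast
      simp only [Complex.mul_im, Complex.ofReal_re, Complex.ofReal_im, Complex.I_re,
        Complex.I_im, mul_one, mul_zero, zero_mul, add_zero]
      rw [mul_pow, Complex.I_sq]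
      ring
    rw [hr2, Complex.ofReal_re]
    refine ⟨rfl, ?_⟩
    nlinarith [sq_nonneg z.im]
  have hsp : R.Splits := IsAlgClosed.splits R
  have hev : ∀ x : ℂ, R.eval x = R.leadingCoeff * (R.roots.map fun a => x - a).prod := by
    intro x
    exact hsp.eval_eq_prod_roots x
  let f : ℂ → ℝ := fun r => (-r.re) / (1 - r.re)
  refine ⟨R.roots.toList.map f ++ List.replicate (n - R.roots.toList.length) 1, ?_, ?_, ?_⟩
  · have h2 : R.roots.toList.length ≤ n := by
      rw [Multiset.length_toList]
      exact (Polynomial.card_roots' R).trans hdeg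
    rw [List.length_append, List.length_map, List.length_replicate]
    omega
  · intro c hc
    rw [List.mem_append] at hc
    rcases hc with hc | hc
    · rw [List.mem_map] at hc
      obtain ⟨r, hr, rfl⟩ := hc
      have h3 := (hroot r (Multiset.mem_toList.1 hr)).2
      have h4 : 0 < 1 - r.re := by linarith
      constructor
      · exact div_nonneg (by linarith) h4.le
      · show (-r.re) / (1 - r.re) ≤ 1
        rw [div_le_one h4]
        linarith
    · rw [List.mem_replicate] at hc
      rw [hc.2]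
      norm_num
  · intro z
    rw [hP, List.map_append, List.prod_append, List.map_replicate, List.prod_replicate]
    have h5 : ((1 : ℝ) : ℂ) + (1 - ((1 : ℝ) : ℂ)) * z ^ 2 = 1 := by
      push_cast
      ring
    rw [h5, one_pow, mul_one, List.map_map]
    have h6 : R.leadingCoeff * (R.roots.map fun a => 1 - a).prod = 1 := by
      rw [← hev 1, hR1]
    have h7 : ∀ x : ℂ, R.eval x = (R.roots.map fun a => (x - a) / (1 - a)).prod := by
      intro x
      rw [Multiset.prod_map_div, hev x]
      have h8 : (R.roots.map fun a => 1 - a).prod ≠ 0 := by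
        intro h9
        rw [h9, mul_zero] at h6
        exact zero_ne_one h6
      rw [eq_div_iff h8, mul_assoc, mul_comm _ (Multiset.prod _), ← mul_assoc, h6, one_mul]
    rw [h7]
    conv_lhs => rw [← Multiset.coe_toList R.roots]
    rw [Multiset.map_coe, Multiset.prod_coe]
    refine congrArg List.prod (List.map_congr_left fun r hr => ?_)
    obtain ⟨h10, h11⟩ := hroot r (Multiset.mem_toList.1 hr)
    show (z ^ 2 - r) / (1 - r) = ((f r : ℝ) : ℂ) + (1 - ((f r : ℝ) : ℂ)) * z ^ 2
    have h12 : (1 : ℂ) - ((r.re : ℝ) : ℂ) ≠ 0 := by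
      have : (1 : ℝ) - r.re ≠ 0 := by linarith
      exact_mod_cast this
    rw [h10]
    simp only [f, Complex.ofReal_re]
    push_cast
    field_simp
    ring

/-- **The determinant of `1 + t g`.** -/
theorem det_prod (ho : ∀ i, D.odd (D.typ i)) {g : Matrix I I ℂ} (hg : IsK D g) {n : ℕ}
    (hn : Fintype.card I = 2 * n) :
    ∃ l : List ℝ, l.length = n ∧ (∀ c ∈ l, 0 ≤ c ∧ c ≤ 1) ∧
      ∀ t : ℂ, (1 + t • g).det =
        (l.map fun c : ℝ => (c : ℂ) * (1 + t) ^ 2 + (1 - c) * (1 - t) ^ 2).prod := by
  obtain ⟨l, hl, hc, hz⟩ := even_prod (P := W g) (n := n)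
    (fun z => by rw [W_eval, W_eval, det_even ho hg.1]) (by rw [W_eval, M_one, Matrix.det_one])
    (fun z h => root_re hg.2 (by rw [← W_eval, h])) (by rw [← hn]; exact W_natDegree g)
  refine ⟨l, hl, hc, ?_⟩
  have key : ∀ t : ℂ, t ≠ -1 → (1 + t • g).det =
      (l.map fun c : ℝ => (c : ℂ) * (1 + t) ^ 2 + (1 - c) * (1 - t) ^ 2).prod := by
    intro t ht
    have h1 : (1 + t : ℂ) ≠ 0 := fun h => ht (by linear_combination h)
    have h2 : (1 + t • g : Matrix I I ℂ) = (1 + t) • M g ((1 - t) / (1 + t)) := by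
      unfold M
      ext i j
      simp only [Matrix.add_apply, Matrix.sub_apply, Matrix.smul_apply, smul_eq_mul]
      field_simp
      ring
    rw [h2, Matrix.det_smul, ← W_eval, hz, hn, ← hl]
    clear hz hl hc h2
    induction l with
    | nil => simp
    | cons c l ih =>
      rw [List.map_cons, List.prod_cons, List.map_cons, List.prod_cons, ← ih, List.length_cons,
        mul_add, pow_add]
      field_simp
  have hd : Dense ({-1}ᶜ : Set ℂ) := dense_compl_singleton (-1)
  have hc1 : Continuous fun t : ℂ => (1 + t • g).det := by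
    refine Continuous.matrix_det ?_
    exact continuous_const.add (continuous_id.smul continuous_const)
  have hc2 : Continuous fun t : ℂ =>
      (l.map fun c : ℝ => (c : ℂ) * (1 + t) ^ 2 + (1 - c) * (1 - t) ^ 2).prod := by
    refine continuous_list_prod _ fun c _ => ?_
    fun_prop
  have := Continuous.ext_on hd hc1 hc2 fun t ht => key t ht
  exact fun t => congrFun this t

/-- A product of such factors is a convex combination. -/
theorem prod_conv (l : List ℝ) (hl : ∀ c ∈ l, 0 ≤ c ∧ c ≤ 1) :
    ∃ w : ℕ → ℝ, (∀ k, 0 ≤ w k) ∧ ∑ k ∈ Finset.range (l.length + 1), w k = 1 ∧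
      ∀ a b : ℂ, (l.map fun c : ℝ => (c : ℂ) * a + (1 - c) * b).prod =
        ∑ k ∈ Finset.range (l.length + 1), (w k : ℂ) * (a ^ k * b ^ (l.length - k)) := by
  induction l with
  | nil => exact ⟨fun _ => 1, fun _ => zero_le_one, by simp, fun a b => by simp⟩
  | cons c l ih =>
    obtain ⟨w, hw, hs, he⟩ := ih fun c hc => hl c (List.mem_cons_of_mem _ hc)
    obtain ⟨hc0, hc1⟩ := hl c List.mem_cons_self
    refine ⟨fun k => (if k = 0 then 0 else c * w (k - 1)) +
      (if k ≤ l.length then (1 - c) * w k else 0), fun k => ?_, ?_, fun a b => ?_⟩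
    · have h1 : 0 ≤ 1 - c := by linarith
      refine add_nonneg ?_ ?_
      · split_ifs
        · exact le_rfl
        · exact mul_nonneg hc0 (hw _)
      · split_ifs
        · exact mul_nonneg h1 (hw _)
        · exact le_rfl
    · rw [List.length_cons, Finset.sum_add_distrib, Finset.sum_range_succ' (fun k =>
        if k = 0 then (0 : ℝ) else c * w (k - 1)), Finset.sum_range_succ (fun k =>
        if k ≤ l.length then (1 - c) * w k else 0)]
      simp only [Nat.add_one_ne_zero, if_false, if_true, Nat.add_sub_cancel, add_zero]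
      rw [if_neg (by omega), add_zero, Finset.sum_congr rfl (g := fun k => (1 - c) * w k)
        (fun k hk => if_pos (by have := Finset.mem_range.1 hk; omega)), ← Finset.mul_sum,
        ← Finset.mul_sum, hs]
      ring
    · rw [List.map_cons, List.prod_cons, he, List.length_cons]
      have h1 : ∀ k, (((if k = 0 then 0 else c * w (k - 1)) +
          (if k ≤ l.length then (1 - c) * w k else 0) : ℝ) : ℂ) *
          (a ^ k * b ^ (l.length + 1 - k)) =
          (if k = 0 then 0 else (c : ℂ) * w (k - 1) * (a ^ k * b ^ (l.length + 1 - k))) +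
          (if k ≤ l.length then (1 - (c : ℂ)) * w k * (a ^ k * b ^ (l.length + 1 - k)) else 0) := by
        intro k
        split_ifs <;> push_cast <;> ring
      simp only [h1]
      rw [Finset.sum_add_distrib, Finset.sum_range_succ' (fun k =>
        if k = 0 then (0 : ℂ) else (c : ℂ) * w (k - 1) * (a ^ k * b ^ (l.length + 1 - k))),
        Finset.sum_range_succ (fun k =>
        if k ≤ l.length then (1 - (c : ℂ)) * w k * (a ^ k * b ^ (l.length + 1 - k)) else 0)]
      simp only [Nat.add_one_ne_zero, if_false, if_true, Nat.add_sub_cancel, add_zero]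
      rw [if_neg (by omega), add_zero, Finset.sum_congr rfl
        (g := fun k => (1 - (c : ℂ)) * w k * (a ^ k * b ^ (l.length + 1 - k)))
        (fun k hk => if_pos (by have := Finset.mem_range.1 hk; omega)), ← Finset.sum_add_distrib,
        Finset.mul_sum]
      refine Finset.sum_congr rfl fun k hk => ?_
      have hk' : k ≤ l.length := by have := Finset.mem_range.1 hk; omega
      obtain ⟨m, hm⟩ := Nat.exists_eq_add_of_le hk'
      have e1 : l.length - k = m := by omega
      have e2 : l.length + 1 - (k + 1) = m := by omega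
      have e3 : l.length + 1 - k = m + 1 := by omega
      rw [e1, e2, e3]
      ring

/-- **The pointwise convex hull law.** -/
theorem det_conv (ho : ∀ i, D.odd (D.typ i)) {g : Matrix I I ℂ} (hg : IsK D g) {n : ℕ}
    (hn : Fintype.card I = 2 * n) :
    ∃ w : ℕ → ℝ, (∀ k, 0 ≤ w k) ∧ ∑ k ∈ Finset.range (n + 1), w k = 1 ∧
      ∀ t : ℂ, (1 + t • g).det = ∑ k ∈ Finset.range (n + 1),
        (w k : ℂ) * ((1 + t) ^ (2 * k) * (1 - t) ^ (2 * (n - k))) := by
  obtain ⟨l, hl, hc, h⟩ := det_prod ho hg hn
  obtain ⟨w, hw, hs, he⟩ := prod_conv l hc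
  rw [hl] at hs he
  refine ⟨w, hw, hs, fun t => ?_⟩
  rw [h t, he]
  refine Finset.sum_congr rfl fun k _ => ?_
  rw [← pow_mul, ← pow_mul]

end Hull35

end Pool.Agent.Lib.MP_361a6f_ag.FL
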