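import Pool.Agent.Lib.MP_361a6f_ag.FL.O.Hull35

/-!
# The convex hull law, integrated form
-/

open Matrix Polynomial MeasureTheory

set_option autoImplicit false
set_option linter.unusedSectionVars false

namespace Pool.Agent.Lib.MP_361a6f_ag.FL

namespace Hull35

variable {I Λ : Type} [Fintype I] [DecidableEq I] [DecidableEq Λ] {D : Dat I Λ}

/-- the vertices of the convex hull: `(1 + T) ^ (2 k) (1 - T) ^ (2 (n - k))` -/
noncomputable def vert (n k : ℕ) : ℝ[X] := (1 + X) ^ (2 * k) * (1 - X) ^ (2 * (n - k))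

section cont

variable {Ω : Type*} [TopologicalSpace Ω]

/-- all coefficients depend continuously on the parameter -/
def CC (p : Ω → ℂ[X]) : Prop := ∀ m, Continuous fun x => (p x).coeff m

theorem CC.const (q : ℂ[X]) : CC (fun _ : Ω => q) := fun _ => continuous_const

theorem CC.add {p q : Ω → ℂ[X]} (hp : CC p) (hq : CC q) : CC fun x => p x + q x := by
  intro m
  simp only [Polynomial.coeff_add]
  exact (hp m).add (hq m)

theorem CC.mul {p q : Ω → ℂ[X]} (hp : CC p) (hq : CC q) : CC fun x => p x * q x := by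
  intro m
  simp only [Polynomial.coeff_mul]
  exact continuous_finsetSum _ fun a _ => (hp a.1).mul (hq a.2)

theorem CC.C {f : Ω → ℂ} (hf : Continuous f) : CC fun x => Polynomial.C (f x) := by
  intro m
  simp only [Polynomial.coeff_C]
  split_ifs
  · exact hf
  · exact continuous_const

theorem CC.sum {ι : Type*} (s : Finset ι) {p : ι → Ω → ℂ[X]} (hp : ∀ i ∈ s, CC (p i)) :
    CC fun x => ∑ i ∈ s, p i x := by
  intro m
  simp only [Polynomial.finsetSum_coeff]
  exact continuous_finsetSum _ fun i hi => hp i hi m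

theorem CC.prod {ι : Type*} (s : Finset ι) {p : ι → Ω → ℂ[X]} (hp : ∀ i ∈ s, CC (p i)) :
    CC fun x => ∏ i ∈ s, p i x := by
  classical
  induction s using Finset.induction_on with
  | empty =>
    simp only [Finset.prod_empty]
    exact CC.const 1
  | insert a s ha ih =>
    simp only [Finset.prod_insert ha]
    exact (hp a (Finset.mem_insert_self _ _)).mul
      (ih fun i hi => hp i (Finset.mem_insert_of_mem hi))

theorem CC_W {f : Ω → Matrix I I ℂ} (hf : Continuous f) : CC fun x => W (f x) := by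
  unfold W
  simp only [Matrix.det_apply']
  refine CC.sum _ fun σ _ => ?_
  refine CC.mul (CC.const _) (CC.prod _ fun i _ => ?_)
  simp only [Matrix.add_apply, Matrix.smul_apply, Matrix.map_apply, smul_eq_mul,
    Matrix.sub_apply]
  have h1 : Continuous fun x => f x (σ i) i :=
    (continuous_apply i).comp ((continuous_apply (σ i)).comp hf)
  refine CC.add (CC.mul (CC.const _) (CC.C ?_)) (CC.C ?_)
  · exact continuous_const.mul (continuous_const.sub h1)
  · exact continuous_const.mul (continuous_const.add h1)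

end cont

/-- The weights of the pointwise law are the coefficients of `W g`. -/
theorem W_conv (ho : ∀ i, D.odd (D.typ i)) {g : Matrix I I ℂ} (hg : IsK D g) {n : ℕ}
    (hn : Fintype.card I = 2 * n) :
    (∀ k ∈ Finset.range (n + 1), 0 ≤ ((W g).coeff (2 * (n - k))).re) ∧
      ∑ k ∈ Finset.range (n + 1), ((W g).coeff (2 * (n - k))).re = 1 ∧
      ∀ t : ℂ, (1 + t • g).det = ∑ k ∈ Finset.range (n + 1),
        ((((W g).coeff (2 * (n - k))).re : ℝ) : ℂ) *
          ((1 + t) ^ (2 * k) * (1 - t) ^ (2 * (n - k))) := by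
  obtain ⟨w, hw, hs, he⟩ := det_conv ho hg hn
  -- the polynomial `W g`
  have hW : W g = ∑ k ∈ Finset.range (n + 1), C (w k : ℂ) * X ^ (2 * (n - k)) := by
    refine Polynomial.funext fun z => ?_
    have key : ∀ z : ℂ, z ≠ -1 → (W g).eval z =
        (∑ k ∈ Finset.range (n + 1), C (w k : ℂ) * X ^ (2 * (n - k))).eval z := by
      intro z hz
      have h1 : (1 + z : ℂ) ≠ 0 := fun h => hz (by linear_combination h)
      set t : ℂ := (1 - z) / (1 + z) with ht
      have h2 : 1 + t ≠ 0 := by
        have : 1 + t = 2 / (1 + z) := by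
          rw [ht]
          field_simp
          ring
        rw [this]
        exact div_ne_zero two_ne_zero h1
      have h3 : (1 + t • g : Matrix I I ℂ) = (1 + t) • M g z := by
        have e1 : (1 + t) * (1 + z) = 2 := by
          rw [ht]
          field_simp
          ring
        have e2 : (1 + t) * (1 - z) = 2 * t := by
          rw [ht]
          field_simp
          ring
        unfold M
        ext i j
        simp only [Matrix.add_apply, Matrix.sub_apply, Matrix.smul_apply, smul_eq_mul]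
        linear_combination (-(1 : Matrix I I ℂ) i j / 2) * e1 - (g i j / 2) * e2
      have h4 := he t
      rw [h3, Matrix.det_smul, ← W_eval, hn] at h4
      have h5 : ∀ k ∈ Finset.range (n + 1), (w k : ℂ) * ((1 + t) ^ (2 * k) *
          (1 - t) ^ (2 * (n - k))) = (1 + t) ^ (2 * n) * ((w k : ℂ) * z ^ (2 * (n - k))) := by
        intro k hk
        have hk' : k ≤ n := by have := Finset.mem_range.1 hk; omega
        have e3 : 1 - t = (1 + t) * z := by
          rw [ht]
          field_simp
          ring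
        have e4 : 2 * n = 2 * k + 2 * (n - k) := by omega
        rw [e3, mul_pow, e4, pow_add]
        have e5 : 2 * k + 2 * (n - k) - 2 * k = 2 * (n - k) := by omega
        ring_nf
      rw [Finset.sum_congr rfl h5, ← Finset.mul_sum] at h4
      have h6 := mul_left_cancel₀ (pow_ne_zero _ h2) h4
      rw [h6, Polynomial.eval_finsetSum]
      refine Finset.sum_congr rfl fun k _ => ?_
      rw [Polynomial.eval_mul, Polynomial.eval_C, Polynomial.eval_pow, Polynomial.eval_X]
    have hd : Dense ({-1}ᶜ : Set ℂ) := dense_compl_singleton (-1)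
    have h7 := Continuous.ext_on hd (W g).continuous
      (∑ k ∈ Finset.range (n + 1), C (w k : ℂ) * X ^ (2 * (n - k)) : ℂ[X]).continuous
      fun t ht => key t ht
    exact congrFun h7 z
  have hcoef : ∀ k ∈ Finset.range (n + 1), (W g).coeff (2 * (n - k)) = (w k : ℂ) := by
    intro k hk
    rw [hW, Polynomial.finsetSum_coeff, Finset.sum_eq_single k]
    · rw [Polynomial.coeff_C_mul, Polynomial.coeff_X_pow, if_pos rfl, mul_one]
    · intro j hj hjk
      rw [Polynomial.coeff_C_mul, Polynomial.coeff_X_pow, if_neg, mul_zero]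
      have h1 := Finset.mem_range.1 hk
      have h2 := Finset.mem_range.1 hj
      omega
    · intro h
      exact absurd hk h
  have hre : ∀ k ∈ Finset.range (n + 1), ((W g).coeff (2 * (n - k))).re = w k := by
    intro k hk
    rw [hcoef k hk, Complex.ofReal_re]
  refine ⟨fun k hk => by rw [hre k hk]; exact hw k, by rw [Finset.sum_congr rfl hre, hs],
    fun t => ?_⟩
  rw [he t]
  refine Finset.sum_congr rfl fun k hk => ?_
  rw [hre k hk]

/-- **The convex hull law, integrated.** -/
theorem int_conv (ho : ∀ i, D.odd (D.typ i)) {n : ℕ} (hn : Fintype.card I = 2 * n)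
    {Ω : Type*} [TopologicalSpace Ω] [CompactSpace Ω] [MeasurableSpace Ω]
    [OpensMeasurableSpace Ω] (μ : Measure Ω) [IsProbabilityMeasure μ]
    {f : Ω → Matrix I I ℂ} (hf : Continuous f) (hK : ∀ x, IsK D (f x)) :
    ∃ w : ℕ → ℝ, (∀ k, 0 ≤ w k) ∧ ∑ k ∈ Finset.range (n + 1), w k = 1 ∧
      ∀ t : ℂ, ∫ x, (1 + t • f x).det ∂μ = ∑ k ∈ Finset.range (n + 1),
        (w k : ℂ) * ((1 + t) ^ (2 * k) * (1 - t) ^ (2 * (n - k))) := by
  classical
  have hc : ∀ m, Continuous fun x => (((W (f x)).coeff m).re : ℝ) := fun m =>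
    Complex.continuous_re.comp (CC_W hf m)
  have hi : ∀ m, Integrable (fun x => (((W (f x)).coeff m).re : ℝ)) μ := fun m =>
    (hc m).integrable_of_hasCompactSupport (HasCompactSupport.of_compactSpace _)
  refine ⟨fun k => if k ∈ Finset.range (n + 1) then
    ∫ x, (((W (f x)).coeff (2 * (n - k))).re : ℝ) ∂μ else 0, fun k => ?_, ?_, fun t => ?_⟩
  · show 0 ≤ if k ∈ Finset.range (n + 1) then
      ∫ x, (((W (f x)).coeff (2 * (n - k))).re : ℝ) ∂μ else 0
    split_ifs with hk
    · exact integral_nonneg fun x => (W_conv ho (hK x) hn).1 k hk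
    · exact le_rfl
  · have h1 : ∑ k ∈ Finset.range (n + 1), (if k ∈ Finset.range (n + 1) then
        ∫ x, (((W (f x)).coeff (2 * (n - k))).re : ℝ) ∂μ else 0) =
        ∑ k ∈ Finset.range (n + 1), ∫ x, (((W (f x)).coeff (2 * (n - k))).re : ℝ) ∂μ :=
      Finset.sum_congr rfl fun k hk => if_pos hk
    rw [h1, ← integral_finsetSum _ fun k _ => hi _]
    have h2 : ∀ x, ∑ k ∈ Finset.range (n + 1), (((W (f x)).coeff (2 * (n - k))).re : ℝ) = 1 :=
      fun x => (W_conv ho (hK x) hn).2.1
    simp only [h2]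
    simp
  · have h1 : ∀ x, (1 + t • f x).det = ∑ k ∈ Finset.range (n + 1),
        ((((W (f x)).coeff (2 * (n - k))).re : ℝ) : ℂ) *
          ((1 + t) ^ (2 * k) * (1 - t) ^ (2 * (n - k))) := fun x => (W_conv ho (hK x) hn).2.2 t
    simp only [h1]
    rw [integral_finsetSum _ fun k _ => ?_]
    · refine Finset.sum_congr rfl fun k hk => ?_
      have h2 : ∫ x, ((((W (f x)).coeff (2 * (n - k))).re : ℝ) : ℂ) ∂μ =
          ((∫ x, (((W (f x)).coeff (2 * (n - k))).re : ℝ) ∂μ : ℝ) : ℂ) := integral_ofReal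
      rw [integral_mul_const, h2, if_pos hk]
    · exact (hi _).ofReal.mul_const _

/-- **The convex hull law, coefficients.** -/
theorem coef_conv (ho : ∀ i, D.odd (D.typ i)) {n : ℕ} (hn : Fintype.card I = 2 * n)
    {Ω : Type*} [TopologicalSpace Ω] [CompactSpace Ω] [MeasurableSpace Ω]
    [OpensMeasurableSpace Ω] (μ : Measure Ω) [IsProbabilityMeasure μ]
    {f : Ω → Matrix I I ℂ} (hf : Continuous f) (hK : ∀ x, IsK D (f x)) {E : ℕ → ℝ}
    (hE : ∀ t : ℂ, ∫ x, (1 + t • f x).det ∂μ =
      ∑ L ∈ Finset.range (2 * n + 1), (E L : ℂ) * t ^ L) :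
    ∃ w : ℕ → ℝ, (∀ k, 0 ≤ w k) ∧ ∑ k ∈ Finset.range (n + 1), w k = 1 ∧
      ∀ L ≤ 2 * n, E L = ∑ k ∈ Finset.range (n + 1), w k * (vert n k).coeff L := by
  obtain ⟨w, hw, hs, he⟩ := int_conv ho hn μ hf hK
  refine ⟨w, hw, hs, ?_⟩
  set P : ℝ[X] := ∑ L ∈ Finset.range (2 * n + 1), C (E L) * X ^ L with hP
  set Q : ℝ[X] := ∑ k ∈ Finset.range (n + 1), C (w k) * vert n k with hQ
  have hPQ : P = Q := by
    refine Polynomial.funext fun t => ?_
    have h1 := (hE (t : ℂ)).symm.trans (he (t : ℂ))
    have h2 : ((P.eval t : ℝ) : ℂ) = ∑ L ∈ Finset.range (2 * n + 1), (E L : ℂ) * (t : ℂ) ^ L := by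
      rw [hP, Polynomial.eval_finsetSum]
      push_cast
      refine Finset.sum_congr rfl fun L _ => ?_
      rw [Polynomial.eval_mul, Polynomial.eval_C, Polynomial.eval_pow, Polynomial.eval_X]
      push_cast
      ring
    have h3 : ((Q.eval t : ℝ) : ℂ) = ∑ k ∈ Finset.range (n + 1),
        (w k : ℂ) * ((1 + (t : ℂ)) ^ (2 * k) * (1 - (t : ℂ)) ^ (2 * (n - k))) := by
      rw [hQ, Polynomial.eval_finsetSum]
      push_cast
      refine Finset.sum_congr rfl fun k _ => ?_
      simp only [vert, Polynomial.eval_mul, Polynomial.eval_C, Polynomial.eval_pow,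
        Polynomial.eval_X, Polynomial.eval_add, Polynomial.eval_sub, Polynomial.eval_one]
      push_cast
      ring
    have h4 : ((P.eval t : ℝ) : ℂ) = ((Q.eval t : ℝ) : ℂ) := by rw [h2, h3, h1]
    exact_mod_cast h4
  intro L hL
  have h5 := congrArg (fun R : ℝ[X] => R.coeff L) hPQ
  simp only [hP, hQ, Polynomial.finsetSum_coeff, Polynomial.coeff_C_mul,
    Polynomial.coeff_X_pow] at h5
  rw [← h5, Finset.sum_eq_single L]
  · rw [if_pos rfl, mul_one]
  · intro j _ hj
    rw [if_neg (fun h => hj h.symm), mul_zero]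
  · intro h
    exact absurd (Finset.mem_range.2 (by omega)) h

end Hull35

end Pool.Agent.Lib.MP_361a6f_ag.FL
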