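import Pool.Agent.Lib.MP_361a6f_ag.FL.O.Tate52
import Pool.Agent.Lib.MP_361a6f_ag.FL.O.Grw85

/-!
# The integrality law: multiplicities

`M` is a space of tuples of tensors that is stable under the compact group, with an orthonormal
basis `e`. The dimension of the space `W` of the equivariant maps from `M` to the tensors of
length `n` is the integral of a product of characters.
-/

open Filter Topology MeasureTheory Module

set_option autoImplicit false
set_option linter.unusedSectionVars false
set_option linter.unusedVariables false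
set_option maxHeartbeats 400000

namespace Pool.Agent.Lib.MP_361a6f_ag.FL

namespace Int52

open OL

/-! ### The vectors fixed by a representation -/

section fix

variable {I Λ β : Type} [Fintype I] [DecidableEq I] [DecidableEq Λ] [Fintype β]
  {lb : β → ℕ} {D : Dat I Λ} {b : Tup I lb} (H : HMb D b)
  {F : Type*} [NormedAddCommGroup F] [NormedSpace ℂ F] [FiniteDimensional ℂ F]

/-- the vectors fixed by a representation -/
def fixR (ρ : H.K → F →ₗ[ℂ] F) : Submodule ℂ F where
  carrier := {v | ∀ x, ρ x v = v}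
  add_mem' ha hb x := by rw [map_add, ha x, hb x]
  zero_mem' x := map_zero _
  smul_mem' c v hv x := by rw [map_smul, hv x]

theorem finrank_fixR (ρ : H.K → F →ₗ[ℂ] F) (hc : ∀ v, Continuous fun x => ρ x v)
    (hm : ∀ x y v, ρ (x * y) v = ρ x (ρ y v)) :
    (finrank ℂ (fixR H ρ) : ℂ) = ∫ x, LinearMap.trace ℂ F (ρ x) ∂H.μ := by
  let P : F →ₗ[ℂ] F :=
    { toFun := fun v => ∫ x, ρ x v ∂H.μ
      map_add' := fun u v => by
        rw [← integral_add (OL.integ H (hc u)) (OL.integ H (hc v))]
        simp only [map_add]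
      map_smul' := fun r v => by
        rw [RingHom.id_apply, ← integral_smul]
        simp only [map_smul] }
  have hP : ∀ v, P v = ∫ x, ρ x v ∂H.μ := fun v => rfl
  have hmem : ∀ v, P v ∈ fixR H ρ := by
    intro v y
    rw [hP]
    have h1 := ContinuousLinearMap.integral_comp_comm (LinearMap.toContinuousLinearMap (ρ y))
      (OL.integ H (hc v))
    have h2 : (LinearMap.toContinuousLinearMap (ρ y)) (∫ x, ρ x v ∂H.μ) =
      ρ y (∫ x, ρ x v ∂H.μ) := rfl
    rw [← h2, ← h1]
    have h3 : ∀ x : H.K, (LinearMap.toContinuousLinearMap (ρ y)) (ρ x v) =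
        (fun x => ρ x v) (y * x) := by
      intro x
      exact (hm y x v).symm
    simp only [h3]
    exact integral_mul_left_eq_self (μ := H.μ) (fun x => ρ x v) y
  have hfix : ∀ v ∈ fixR H ρ, P v = v := by
    intro v hv
    rw [hP]
    have h1 : ∀ x, ρ x v = v := hv
    simp only [h1]
    simp
  have hproj : LinearMap.IsProj (fixR H ρ) P := ⟨hmem, hfix⟩
  rw [← hproj.trace]
  let bs := finBasis ℂ F
  have htr : ∀ f : F →ₗ[ℂ] F, LinearMap.trace ℂ F f = ∑ i, bs.repr (f (bs i)) i := by
    intro f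
    rw [LinearMap.trace_eq_matrix_trace ℂ bs, Matrix.trace]
    exact Finset.sum_congr rfl fun i _ => by rw [Matrix.diag_apply, LinearMap.toMatrix_apply]
  rw [htr]
  simp only [htr]
  have hcoord : ∀ i, Continuous fun x : H.K => bs.repr (ρ x (bs i)) i := by
    intro i
    exact (LinearMap.continuous_of_finiteDimensional (bs.coord i)).comp (hc (bs i))
  rw [integral_finsetSum _ fun i _ => OL.integ H (hcoord i)]
  refine Finset.sum_congr rfl fun i _ => ?_
  have h1 := ContinuousLinearMap.integral_comp_comm (LinearMap.toContinuousLinearMap (bs.coord i))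
    (OL.integ H (hc (bs i)))
  exact h1.symm

end fix

/-! ### Tuples of tensors -/

section tup

variable {I : Type} [Fintype I] [DecidableEq I] {t p : ℕ}

/-- the hermitian form on the tuples -/
noncomputable def hh (f f' : Fin t → Ten I p) : ℂ := ∑ i, hT (f i) (f' i)

/-- the action on the tuples -/
noncomputable def gg (g : Matrix I I ℂ) (f : Fin t → Ten I p) : Fin t → Ten I p :=
  fun i => gT g (f i)

theorem hh_add (f f' u : Fin t → Ten I p) : hh (f + f') u = hh f u + hh f' u := by
  unfold hh hT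
  rw [← Finset.sum_add_distrib]
  refine Finset.sum_congr rfl fun i _ => ?_
  rw [← Finset.sum_add_distrib]
  refine Finset.sum_congr rfl fun w _ => ?_
  simp only [Pi.add_apply]
  ring

theorem hh_smul (r : ℂ) (f u : Fin t → Ten I p) : hh (r • f) u = r * hh f u := by
  unfold hh hT
  rw [Finset.mul_sum]
  refine Finset.sum_congr rfl fun i _ => ?_
  rw [Finset.mul_sum]
  refine Finset.sum_congr rfl fun w _ => ?_
  simp only [Pi.smul_apply, smul_eq_mul]
  ring

theorem hh_conj (f u : Fin t → Ten I p) : (starRingEnd ℂ) (hh f u) = hh u f := by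
  unfold hh hT
  rw [map_sum]
  refine Finset.sum_congr rfl fun i _ => ?_
  rw [map_sum]
  refine Finset.sum_congr rfl fun w _ => ?_
  rw [map_mul, Complex.conj_conj]
  ring

/-- the form as a linear functional of the first entry -/
noncomputable def hhL (u : Fin t → Ten I p) : (Fin t → Ten I p) →ₗ[ℂ] ℂ where
  toFun f := hh f u
  map_add' f f' := hh_add f f' u
  map_smul' r f := hh_smul r f u

theorem hhL_apply (u f : Fin t → Ten I p) : hhL u f = hh f u := rfl

theorem hh_sum {κ : Type*} (s : Finset κ) (r : κ → ℂ) (f : κ → Fin t → Ten I p)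
    (u : Fin t → Ten I p) : hh (∑ k ∈ s, r k • f k) u = ∑ k ∈ s, r k * hh (f k) u := by
  rw [← hhL_apply, map_sum]
  refine Finset.sum_congr rfl fun k _ => ?_
  rw [map_smul, hhL_apply, smul_eq_mul]

theorem hh_sum' {κ : Type*} (s : Finset κ) (r : κ → ℂ) (f : κ → Fin t → Ten I p)
    (u : Fin t → Ten I p) :
    hh u (∑ k ∈ s, r k • f k) = ∑ k ∈ s, (starRingEnd ℂ) (r k) * hh u (f k) := by
  rw [← hh_conj, hh_sum, map_sum]
  refine Finset.sum_congr rfl fun k _ => ?_
  rw [map_mul, hh_conj]

theorem hh_gg (a1 : Alg1) {g : Matrix I I ℂ} (hg : g.conjTranspose * g = 1)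
    (f u : Fin t → Ten I p) : hh (gg g f) (gg g u) = hh f u := by
  unfold hh gg
  refine Finset.sum_congr rfl fun i _ => ?_
  rw [a1.hT_gT, ← a1.gT_mul, hg, a1.gT_one]

theorem gg_sum (a1 : Alg1) {κ : Type*} (s : Finset κ) (r : κ → ℂ) (f : κ → Fin t → Ten I p)
    (g : Matrix I I ℂ) : gg g (∑ k ∈ s, r k • f k) = ∑ k ∈ s, r k • gg g (f k) := by
  funext i
  unfold gg
  rw [Finset.sum_apply, Finset.sum_apply]
  have h1 := map_sum (OL.gL a1 p g) (fun k => (r k • f k) i) s
  rw [OL.gL_apply] at h1
  rw [h1]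
  refine Finset.sum_congr rfl fun k _ => ?_
  rw [OL.gL_apply]
  exact a1.gT_smul g (r k) (f k i)

/-- an orthonormal basis of a space of tuples -/
theorem onb (M : Submodule ℂ (Fin t → Ten I p)) :
    ∃ e : Fin (finrank ℂ M) → (Fin t → Ten I p), (∀ k, e k ∈ M) ∧
      (∀ k l, hh (e k) (e l) = if k = l then 1 else 0) ∧
      ∀ f ∈ M, f = ∑ k, hh f (e k) • e k := by
  classical
  let te : (Fin t → Ten I p) ≃ₗ[ℂ] EuclideanSpace ℂ (Fin t × (Fin p → I)) :=
    (LinearEquiv.curry ℂ ℂ (Fin t) (Fin p → I)).symm.trans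
      (WithLp.linearEquiv 2 ℂ (Fin t × (Fin p → I) → ℂ)).symm
  have hte : ∀ f f', hh f f' = inner ℂ (te f') (te f) := by
    intro f f'
    rw [EuclideanSpace.inner_eq_star_dotProduct]
    unfold hh hT dotProduct
    rw [Fintype.sum_prod_type]
    rfl
  let M' := M.map te.toLinearMap
  have hfr : finrank ℂ M' = finrank ℂ M := LinearEquiv.finrank_map_eq te M
  let bs := (stdOrthonormalBasis ℂ M').reindex (finCongr hfr)
  have hbs : ∀ k, te (te.symm (bs k : EuclideanSpace ℂ (Fin t × (Fin p → I)))) = bs k :=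
    fun k => LinearEquiv.apply_symm_apply _ _
  refine ⟨fun k => te.symm (bs k : EuclideanSpace ℂ (Fin t × (Fin p → I))), fun k => ?_,
    fun k l => ?_, fun f hf => ?_⟩
  · obtain ⟨y, hy, h⟩ := (bs k).2
    have h1 : te.symm (bs k : EuclideanSpace ℂ (Fin t × (Fin p → I))) = y := by
      rw [← h]
      exact LinearEquiv.symm_apply_apply _ _
    change te.symm (bs k : EuclideanSpace ℂ (Fin t × (Fin p → I))) ∈ M
    rw [h1]
    exact hy
  · rw [hte, hbs, hbs]
    have h1 := orthonormal_iff_ite.1 bs.orthonormal l k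
    have h2 : inner ℂ (bs l : EuclideanSpace ℂ (Fin t × (Fin p → I))) (bs k) =
      inner ℂ (bs l) (bs k) := rfl
    rw [h2, h1]
    by_cases h : l = k
    · rw [if_pos h, if_pos h.symm]
    · rw [if_neg h, if_neg fun h' => h h'.symm]
  · have h1 : te f ∈ M' := ⟨f, hf, rfl⟩
    have h2 := bs.sum_repr' (⟨te f, h1⟩ : M')
    have h3 := congrArg (fun x : M' => te.symm (x : EuclideanSpace ℂ (Fin t × (Fin p → I)))) h2
    simp only [LinearEquiv.symm_apply_apply] at h3
    refine h3.symm.trans ?_
    rw [Submodule.coe_sum, map_sum]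
    refine Finset.sum_congr rfl fun k _ => ?_
    rw [Submodule.coe_smul, map_smul, hte, hbs]
    rfl

end tup

end Int52

end Pool.Agent.Lib.MP_361a6f_ag.FL
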