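import Pool.Agent.Lib.MP_361a6f_ag.FL.O.IntA52

/-!
# The integrality law: the space of the equivariant maps
-/

open Filter Topology MeasureTheory Module

set_option autoImplicit false
set_option linter.unusedSectionVars false
set_option linter.unusedVariables false
set_option maxHeartbeats 400000

namespace Pool.Agent.Lib.MP_361a6f_ag.FL

namespace Int52

open OL

section main

variable {I Λ β : Type} [Fintype I] [DecidableEq I] [DecidableEq Λ] [Fintype β]
  {lb : β → ℕ} {D : Dat I Λ} {b : Tup I lb} (H : HMb D b) (a1 : Alg1) {t p m : ℕ}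
  (e : Fin m → Fin t → Ten I p)

/-- the matrix coefficients -/
noncomputable def co (x : H.K) (k l : Fin m) : ℂ := hh (gg (H.mat x) (e l)) (e k)

/-- `e` is an orthonormal basis of a stable space -/
structure Fr : Prop where
  on : ∀ k l, hh (e k) (e l) = if k = l then 1 else 0
  ex : ∀ (x : H.K) l, gg (H.mat x) (e l) = ∑ k, co H e x k l • e k

variable {H e}

include a1

theorem co_col (h : Fr H e) (x : H.K) (k l : Fin m) :
    ∑ j, (starRingEnd ℂ) (co H e x j k) * co H e x j l = if k = l then 1 else 0 := by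
  have h1 := hh_gg a1 (H.mem x).1.2 (e l) (e k)
  rw [h.on, h.ex x k, hh_sum'] at h1
  have h2 : ∀ j, hh (gg (H.mat x) (e l)) (e j) = co H e x j l := fun j => rfl
  simp only [h2] at h1
  rw [h1]
  by_cases hkl : k = l
  · rw [if_pos hkl, if_pos hkl.symm]
  · rw [if_neg hkl, if_neg fun h' => hkl h'.symm]

theorem co_row (h : Fr H e) (x : H.K) (k l : Fin m) :
    ∑ j, co H e x k j * (starRingEnd ℂ) (co H e x l j) = if k = l then 1 else 0 := by
  let A : Matrix (Fin m) (Fin m) ℂ := Matrix.of fun k l => co H e x k l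
  have h1 : A.conjTranspose * A = 1 := by
    ext k l
    rw [Matrix.mul_apply, Matrix.one_apply]
    exact co_col a1 h x k l
  have h2 := mul_eq_one_comm.1 h1
  have h3 := congrFun (congrFun h2 k) l
  rw [Matrix.mul_apply, Matrix.one_apply] at h3
  exact h3

theorem co_mul (h : Fr H e) (x y : H.K) (k l : Fin m) :
    co H e (x * y) k l = ∑ j, co H e x k j * co H e y j l := by
  have h1 : gg (H.mat (x * y)) (e l) = ∑ j, co H e y j l • gg (H.mat x) (e j) := by
    have h2 : gg (H.mat (x * y)) (e l) = gg (H.mat x) (gg (H.mat y) (e l)) := by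
      funext i
      unfold gg
      rw [map_mul, a1.gT_mul]
    rw [h2, h.ex y l, gg_sum a1]
  unfold co at h1 ⊢
  rw [h1, hh_sum]
  exact Finset.sum_congr rfl fun j _ => mul_comm _ _

omit a1 in
theorem hh_le (f u : Fin t → Ten I p) :
    ‖hh f u‖ ≤ ∑ i, Exp18.nn (f i) * Exp18.nn (u i) := by
  unfold hh
  refine (norm_sum_le _ _).trans (Finset.sum_le_sum fun i _ => ?_)
  exact OTrq.norm_hT_le _ _

theorem nn_on (h : Fr H e) (k : Fin m) : ∑ i, Exp18.nn (e k i) ^ 2 = 1 := by
  have h1 := h.on k k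
  rw [if_pos rfl] at h1
  have h2 : ((∑ i, Exp18.nn (e k i) ^ 2 : ℝ) : ℂ) = hh (e k) (e k) := by
    unfold hh
    rw [Complex.ofReal_sum]
    refine Finset.sum_congr rfl fun i _ => ?_
    rw [a1.hT_self, Exp18.nn_sq]
  rw [h1] at h2
  exact_mod_cast h2

theorem co_sub (h : Fr H e) (x : H.K) (k : Fin m) :
    ‖co H e x k k - 1‖ ≤ p * Exp18.hs (H.mat x) := by
  have h1 : co H e x k k - 1 = hh (gg (H.mat x) (e k) - e k) (e k) := by
    have h2 := hh_add (gg (H.mat x) (e k) - e k) (e k) (e k)
    rw [sub_add_cancel, h.on, if_pos rfl] at h2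
    unfold co
    rw [h2]
    ring
  rw [h1]
  refine (hh_le _ _).trans ?_
  have h2 : ∀ i, Exp18.nn ((gg (H.mat x) (e k) - e k) i) * Exp18.nn (e k i) ≤
      p * Exp18.hs (H.mat x) * Exp18.nn (e k i) ^ 2 := by
    intro i
    have h3 := Exp18.tele (H.mem x).1.2 p (e k i)
    have h4 : (gg (H.mat x) (e k) - e k) i = gT (H.mat x) (e k i) - e k i := rfl
    rw [h4]
    calc Exp18.nn (gT (H.mat x) (e k i) - e k i) * Exp18.nn (e k i) ≤
        p * Exp18.hs (H.mat x) * Exp18.nn (e k i) * Exp18.nn (e k i) :=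
          mul_le_mul_of_nonneg_right h3 (Exp18.nn_nonneg _)
      _ = p * Exp18.hs (H.mat x) * Exp18.nn (e k i) ^ 2 := by ring
  refine (Finset.sum_le_sum fun i _ => h2 i).trans ?_
  rw [← Finset.mul_sum, nn_on a1 h, mul_one]

theorem co_le (h : Fr H e) (x : H.K) (k : Fin m) : ‖co H e x k k‖ ≤ 1 := by
  refine (hh_le _ _).trans ?_
  have h2 : ∀ i, Exp18.nn (gg (H.mat x) (e k) i) * Exp18.nn (e k i) = Exp18.nn (e k i) ^ 2 := by
    intro i
    have h3 : Exp18.nn (gT (H.mat x) (e k i)) = Exp18.nn (e k i) :=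
      ORng.norm_toE a1 (H.mem x).1 (e k i)
    have h4 : gg (H.mat x) (e k) i = gT (H.mat x) (e k i) := rfl
    rw [h4, h3, sq]
  simp only [h2]
  exact (nn_on a1 h k).le

variable (H e)

omit a1 in
theorem co_cont (a1 : Alg1) (k l : Fin m) : Continuous fun x : H.K => co H e x k l := by
  unfold co hh hT
  refine continuous_finsetSum _ fun i _ => continuous_finsetSum _ fun w _ => ?_
  refine Continuous.mul ?_ continuous_const
  exact (continuous_apply w).comp (AvbRow.cont_gT_k a1 H (e l i))

/-- the representation on the maps to the tensors of length `n` -/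
noncomputable def rep (n : ℕ) (x : H.K) : (Fin m → Ten I n) →ₗ[ℂ] (Fin m → Ten I n) where
  toFun ψ l := ∑ k, (starRingEnd ℂ) (co H e x l k) • gT (H.mat x) (ψ k)
  map_add' ψ ψ' := by
    funext l
    rw [Pi.add_apply, ← Finset.sum_add_distrib]
    refine Finset.sum_congr rfl fun k _ => ?_
    rw [Pi.add_apply, a1.gT_add, smul_add]
  map_smul' r ψ := by
    funext l
    rw [RingHom.id_apply, Pi.smul_apply, Finset.smul_sum]
    refine Finset.sum_congr rfl fun k _ => ?_
    rw [Pi.smul_apply, a1.gT_smul, smul_comm]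

omit a1 in
theorem rep_apply (a1 : Alg1) (n : ℕ) (x : H.K) (ψ : Fin m → Ten I n) (l : Fin m) :
    rep H a1 e n x ψ l = ∑ k, (starRingEnd ℂ) (co H e x l k) • gT (H.mat x) (ψ k) := rfl

theorem rep_mul (h : Fr H e) (n : ℕ) (x y : H.K) (ψ : Fin m → Ten I n) :
    rep H a1 e n (x * y) ψ = rep H a1 e n x (rep H a1 e n y ψ) := by
  funext l
  rw [rep_apply, rep_apply]
  have h1 : ∀ k, (starRingEnd ℂ) (co H e x l k) • gT (H.mat x) (rep H a1 e n y ψ k) =
      ∑ j, ((starRingEnd ℂ) (co H e x l k) * (starRingEnd ℂ) (co H e y k j)) •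
        gT (H.mat (x * y)) (ψ j) := by
    intro k
    rw [rep_apply]
    have h2 := map_sum (OL.gL a1 n (H.mat x))
      (fun j => (starRingEnd ℂ) (co H e y k j) • gT (H.mat y) (ψ j)) Finset.univ
    rw [OL.gL_apply] at h2
    rw [h2, Finset.smul_sum]
    refine Finset.sum_congr rfl fun j _ => ?_
    rw [OL.gL_apply, a1.gT_smul, smul_smul, map_mul, a1.gT_mul]
  simp only [h1]
  rw [Finset.sum_comm]
  refine Finset.sum_congr rfl fun j _ => ?_
  rw [← Finset.sum_smul, co_mul a1 h, map_sum]
  simp only [map_mul]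

theorem rep_cont (n : ℕ) (ψ : Fin m → Ten I n) : Continuous fun x => rep H a1 e n x ψ := by
  refine continuous_pi fun l => ?_
  have h1 : ∀ x, rep H a1 e n x ψ l =
      ∑ k, (starRingEnd ℂ) (co H e x l k) • gT (H.mat x) (ψ k) := fun x => rfl
  simp only [h1]
  refine continuous_finsetSum _ fun k _ => ?_
  exact (Complex.continuous_conj.comp (co_cont H e a1 l k)).smul (AvbRow.cont_gT_k a1 H (ψ k))

theorem rep_trace (n : ℕ) (x : H.K) : LinearMap.trace ℂ _ (rep H a1 e n x) =
    (∑ l, (starRingEnd ℂ) (co H e x l l)) * (H.mat x).trace ^ n := by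
  classical
  have htr : ∀ f : (Fin m → Ten I n) →ₗ[ℂ] (Fin m → Ten I n), LinearMap.trace ℂ _ f =
      ∑ l, ∑ w : Fin n → I, f (Pi.single l (Pi.single w 1)) l w := by
    intro f
    rw [LinearMap.trace_eq_matrix_trace ℂ (Pi.basis fun _ : Fin m => Pi.basisFun ℂ (Fin n → I)),
      Matrix.trace, Fintype.sum_sigma]
    refine Finset.sum_congr rfl fun l _ => Finset.sum_congr rfl fun w _ => ?_
    rw [Matrix.diag_apply, LinearMap.toMatrix_apply, Pi.basis_apply, Pi.basisFun_apply,
      Pi.basis_repr]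
    rfl
  rw [htr, Finset.sum_mul]
  refine Finset.sum_congr rfl fun l _ => ?_
  rw [← OL.tr_gT, Finset.mul_sum]
  refine Finset.sum_congr rfl fun w _ => ?_
  rw [rep_apply, Finset.sum_apply, Finset.sum_eq_single l]
  · rw [Pi.single_eq_same, Pi.smul_apply, smul_eq_mul]
  · intro k _ hk
    rw [Pi.single_eq_of_ne hk, Pi.smul_apply]
    have h1 : gT (H.mat x) (0 : Ten I n) = 0 := map_zero (OL.gL a1 n (H.mat x))
    rw [h1, Pi.zero_apply, smul_zero]
  · intro hl
    exact absurd (Finset.mem_univ l) hl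

/-- the equivariant maps -/
noncomputable def WW (n : ℕ) : Submodule ℂ (Fin m → Ten I n) := fixR H (rep H a1 e n)

theorem finrank_WW (h : Fr H e) (n : ℕ) : (finrank ℂ (WW H a1 e n) : ℂ) =
    ∫ x, (∑ l, (starRingEnd ℂ) (co H e x l l)) * (H.mat x).trace ^ n ∂H.μ := by
  have h1 := finrank_fixR H (rep H a1 e n) (rep_cont H a1 e n) (rep_mul H a1 e h n)
  simp only [rep_trace] at h1
  exact h1

/-- the coordinates are equivariant maps -/
theorem coord_mem (h : Fr H e) (γ : Fin t → ℂ) :
    (fun k => ∑ i, γ i • e k i) ∈ WW H a1 e p := by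
  intro x
  funext l
  rw [rep_apply]
  have h1 : ∀ k, gT (H.mat x) (∑ i, γ i • e k i) = ∑ j, co H e x j k • ∑ i, γ i • e j i := by
    intro k
    have h2 := map_sum (OL.gL a1 p (H.mat x)) (fun i => γ i • e k i) Finset.univ
    rw [OL.gL_apply] at h2
    rw [h2]
    simp only [Finset.smul_sum]
    rw [Finset.sum_comm]
    refine Finset.sum_congr rfl fun i _ => ?_
    rw [OL.gL_apply, a1.gT_smul]
    have h3 := congrFun (h.ex x k) i
    have h4 : gT (H.mat x) (e k i) = ∑ j, co H e x j k • e j i := by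
      rw [Finset.sum_apply] at h3
      exact h3
    rw [h4, Finset.smul_sum]
    exact Finset.sum_congr rfl fun j _ => smul_comm _ _ _
  simp only [h1, Finset.smul_sum (s := (Finset.univ : Finset (Fin m)))]
  rw [Finset.sum_comm]
  have h2 : ∀ j, ∑ k, (starRingEnd ℂ) (co H e x l k) • co H e x j k • ∑ i, γ i • e j i =
      (if j = l then (1 : ℂ) else 0) • ∑ i, γ i • e j i := by
    intro j
    simp only [smul_smul]
    rw [← Finset.sum_smul, ← co_row a1 h x j l]
    congr 1
    exact Finset.sum_congr rfl fun k _ => mul_comm _ _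
  simp only [h2]
  rw [Finset.sum_eq_single l]
  · rw [if_pos rfl, one_smul]
  · intro j _ hj
    rw [if_neg hj, zero_smul]
  · intro hl
    exact absurd (Finset.mem_univ l) hl

/-- a lower bound -/
theorem le_WW (h : Fr H e) {c : Fin t → Ten I p} (hc : c = ∑ k, hh c (e k) • e k)
    (hli : LinearIndependent ℂ c) : t ≤ finrank ℂ (WW H a1 e p) := by
  let f : (Fin t → ℂ) →ₗ[ℂ] WW H a1 e p :=
    { toFun := fun γ => ⟨fun k => ∑ i, γ i • e k i, coord_mem H a1 e h γ⟩
      map_add' := fun γ γ' => by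
        apply Subtype.ext
        funext k
        change ∑ i, (γ i + γ' i) • e k i = ∑ i, γ i • e k i + ∑ i, γ' i • e k i
        simp only [add_smul, Finset.sum_add_distrib]
      map_smul' := fun r γ => by
        apply Subtype.ext
        funext k
        change ∑ i, (r * γ i) • e k i = r • ∑ i, γ i • e k i
        simp only [mul_smul, Finset.smul_sum] }
  have hf : Function.Injective f := by
    rw [injective_iff_map_eq_zero]
    intro γ hγ
    have h1 : ∀ k, ∑ i, γ i • e k i = 0 := by
      intro k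
      exact congrFun (congrArg (fun x : WW H a1 e p => (x : Fin m → Ten I p)) hγ) k
    have h2 : ∑ i, γ i • c i = 0 := by
      have h3 : ∀ i, c i = ∑ k, hh c (e k) • e k i := by
        intro i
        have h4 := congrFun hc i
        rw [Finset.sum_apply] at h4
        exact h4
      calc ∑ i, γ i • c i = ∑ i, ∑ k, hh c (e k) • γ i • e k i := by
            refine Finset.sum_congr rfl fun i _ => ?_
            conv_lhs => rw [h3 i]
            rw [Finset.smul_sum]
            exact Finset.sum_congr rfl fun k _ => smul_comm _ _ _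
        _ = ∑ k, hh c (e k) • ∑ i, γ i • e k i := by
            rw [Finset.sum_comm]
            exact Finset.sum_congr rfl fun k _ => by rw [Finset.smul_sum]
        _ = 0 := by simp only [h1, smul_zero, Finset.sum_const_zero]
    funext i
    exact Fintype.linearIndependent_iff.1 hli γ h2 i
  have h1 := LinearMap.finrank_le_finrank_of_injective hf
  rwa [finrank_fin_fun] at h1

end main

end Int52

end Pool.Agent.Lib.MP_361a6f_ag.FL
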