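import Pool.Agent.Lib.MP_361a6f_ag.FL.O.IntB52

/-!
# The integrality law: the contractions, and the two estimates
-/

open Filter Topology MeasureTheory Module

set_option autoImplicit false
set_option linter.unusedSectionVars false
set_option linter.unusedVariables false
set_option maxHeartbeats 400000

namespace Pool.Agent.Lib.MP_361a6f_ag.FL

namespace Int52

open OL

section main

variable {I Λ β : Type} [Fintype I] [DecidableEq I] [DecidableEq Λ] [Fintype β]
  {lb : β → ℕ} {D : Dat I Λ} {b : Tup I lb} (H : HMb D b) (a1 : Alg1) {t p m : ℕ}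
  (e : Fin m → Fin t → Ten I p)

/-- the value of an equivariant map -/
noncomputable def evm {n : ℕ} (ψ : Fin m → Ten I n) : (Fin t → Ten I p) →ₗ[ℂ] Ten I n where
  toFun f := ∑ k, hh f (e k) • ψ k
  map_add' f f' := by
    rw [← Finset.sum_add_distrib]
    exact Finset.sum_congr rfl fun k _ => by rw [hh_add, add_smul]
  map_smul' r f := by
    rw [RingHom.id_apply, Finset.smul_sum]
    exact Finset.sum_congr rfl fun k _ => by rw [hh_smul, mul_smul]

theorem evm_apply {n : ℕ} (ψ : Fin m → Ten I n) (f : Fin t → Ten I p) :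
    evm e ψ f = ∑ k, hh f (e k) • ψ k := rfl

include a1 in
theorem evm_gg (h : Fr H e) {n : ℕ} {ψ : Fin m → Ten I n} (hψ : ψ ∈ WW H a1 e n) (x : H.K)
    (f : Fin t → Ten I p) : evm e ψ (gg (H.mat x) f) = gT (H.mat x) (evm e ψ f) := by
  rw [evm_apply, evm_apply]
  have h1 := map_sum (OL.gL a1 n (H.mat x)) (fun k => hh f (e k) • ψ k) Finset.univ
  rw [OL.gL_apply] at h1
  rw [h1]
  -- the coefficients of `x f`
  have h2 : ∀ k, hh (gg (H.mat x) f) (e k) = ∑ l, co H e x k l * hh f (e l) := by
    intro k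
    have h3 : e k = ∑ l, (starRingEnd ℂ) (co H e x k l) • gg (H.mat x) (e l) := by
      have h4 : ∀ l, gg (H.mat x) (e l) = ∑ j, co H e x j l • e j := fun l => h.ex x l
      simp only [h4, Finset.smul_sum, smul_smul]
      rw [Finset.sum_comm]
      have h5 : ∀ j, ∑ l, ((starRingEnd ℂ) (co H e x k l) * co H e x j l) • e j =
          (if j = k then (1 : ℂ) else 0) • e j := by
        intro j
        rw [← Finset.sum_smul, ← co_row a1 h x j k]
        congr 1
        exact Finset.sum_congr rfl fun l _ => mul_comm _ _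
      simp only [h5]
      rw [Finset.sum_eq_single k]
      · rw [if_pos rfl, one_smul]
      · intro j _ hj
        rw [if_neg hj, zero_smul]
      · intro hk
        exact absurd (Finset.mem_univ k) hk
    conv_lhs => rw [h3]
    rw [hh_sum']
    refine Finset.sum_congr rfl fun l _ => ?_
    rw [Complex.conj_conj, hh_gg a1 (H.mem x).1.2]
  simp only [h2, Finset.sum_smul]
  rw [Finset.sum_comm]
  refine Finset.sum_congr rfl fun l _ => ?_
  rw [OL.gL_apply, a1.gT_smul]
  -- `x ψ_l = ∑ co x k l ψ_k`
  have h3 : gT (H.mat x) (ψ l) = ∑ k, co H e x k l • ψ k := by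
    have h4 : ∀ k, ψ k = ∑ j, (starRingEnd ℂ) (co H e x k j) • gT (H.mat x) (ψ j) :=
      fun k => (congrFun (hψ x) k).symm
    have h5 : ∑ k, co H e x k l • ψ k = ∑ k, co H e x k l •
        ∑ j, (starRingEnd ℂ) (co H e x k j) • gT (H.mat x) (ψ j) :=
      Finset.sum_congr rfl fun k _ => by rw [← h4 k]
    rw [h5]
    simp only [Finset.smul_sum, smul_smul]
    rw [Finset.sum_comm]
    have h6 : ∀ j, ∑ k, (co H e x k l * (starRingEnd ℂ) (co H e x k j)) • gT (H.mat x) (ψ j) =
        (if j = l then (1 : ℂ) else 0) • gT (H.mat x) (ψ j) := by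
      intro j
      rw [← Finset.sum_smul, ← co_col a1 h x j l]
      congr 1
      exact Finset.sum_congr rfl fun k _ => mul_comm _ _
    simp only [h6]
    rw [Finset.sum_eq_single l]
    · rw [if_pos rfl, one_smul]
    · intro j _ hj
      rw [if_neg hj, zero_smul]
    · intro hl
      exact absurd (Finset.mem_univ l) hl
  rw [h3, Finset.smul_sum]
  exact Finset.sum_congr rfl fun k _ => by rw [smul_smul, mul_comm]

theorem evm_self (h : Fr H e) {n : ℕ} (ψ : Fin m → Ten I n) (l : Fin m) :
    evm e ψ (e l) = ψ l := by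
  rw [evm_apply]
  simp only [h.on]
  rw [Finset.sum_eq_single l]
  · rw [if_pos rfl, one_smul]
  · intro j _ hj
    rw [if_neg fun h' => hj h'.symm, zero_smul]
  · intro hl
    exact absurd (Finset.mem_univ l) hl

/-- the invariant that belongs to a component of an equivariant map -/
noncomputable def inv (D : Dat I Λ) {n : ℕ} (ψ : Fin m → Ten I n) (i : Fin t) : Ten I (p + n) :=
  ∑ k, outer (jT D (e k i)) (ψ k)

/-- the outer product as a linear map of the second entry -/
noncomputable def outR {q n : ℕ} (u : Ten I q) : Ten I n →ₗ[ℂ] Ten I (q + n) where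
  toFun v := outer u v
  map_add' v v' := by
    funext w
    simp only [outer, Pi.add_apply]
    ring
  map_smul' r v := Ind.outer_smul_right r u v

/-- the outer product as a linear map of the first entry -/
noncomputable def outL {q n : ℕ} (v : Ten I n) : Ten I q →ₗ[ℂ] Ten I (q + n) where
  toFun u := outer u v
  map_add' u u' := by
    funext w
    simp only [outer, Pi.add_apply]
    ring
  map_smul' r u := Ind.outer_smul_left r u v

include a1 in
theorem jT_sum (D : Dat I Λ) {L : ℕ} {κ : Type*} (s : Finset κ) (r : κ → ℂ) (f : κ → Ten I L) :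
    jT D (∑ k ∈ s, r k • f k) = ∑ k ∈ s, (starRingEnd ℂ) (r k) • jT D (f k) := by
  classical
  induction s using Finset.induction_on with
  | empty =>
    rw [Finset.sum_empty, Finset.sum_empty]
    have h1 := a1.jT_smul D 0 (0 : Ten I L)
    rwa [zero_smul, map_zero, zero_smul] at h1
  | insert k s hk ih =>
    rw [Finset.sum_insert hk, Finset.sum_insert hk, a1.jT_add, a1.jT_smul, ih]

theorem inv_mem (a2 : Alg2) (h : Fr H e) {n : ℕ} {ψ : Fin m → Ten I n}
    (hψ : ψ ∈ WW H a1 e n) (i : Fin t) : inv e D ψ i ∈ fixS H a1 (p + n) := by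
  intro x
  unfold inv
  have h1 := map_sum (OL.gL a1 (p + n) (H.mat x)) (fun k => outer (jT D (e k i)) (ψ k))
    Finset.univ
  rw [OL.gL_apply] at h1
  rw [h1]
  have h2 : ∀ k, OL.gL a1 (p + n) (H.mat x) (outer (jT D (e k i)) (ψ k)) =
      ∑ j, (starRingEnd ℂ) (co H e x j k) • outer (jT D (e j i)) (gT (H.mat x) (ψ k)) := by
    intro k
    rw [OL.gL_apply, a2.outer_gT, ← a1.jT_gT D _ _ (H.mem x).1]
    have h3 := congrFun (h.ex x k) i
    have h4 : gT (H.mat x) (e k i) = ∑ j, co H e x j k • e j i := by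
      rw [Finset.sum_apply] at h3
      exact h3
    rw [h4, jT_sum a1]
    have h5 := map_sum (outL (q := p) (gT (H.mat x) (ψ k)))
      (fun j => (starRingEnd ℂ) (co H e x j k) • jT D (e j i)) Finset.univ
    simp only [map_smul] at h5
    exact h5
  simp only [h2]
  rw [Finset.sum_comm]
  refine Finset.sum_congr rfl fun j _ => ?_
  have h3 : ψ j = ∑ k, (starRingEnd ℂ) (co H e x j k) • gT (H.mat x) (ψ k) :=
    (congrFun (hψ x) j).symm
  have h4 := map_sum (outR (n := n) (jT D (e j i)))
    (fun k => (starRingEnd ℂ) (co H e x j k) • gT (H.mat x) (ψ k)) Finset.univ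
  rw [← h3] at h4
  simp only [map_smul] at h4
  exact h4.symm

include a1 in
/-- the value at `c` is a sum of contractions -/
theorem evm_cont {n : ℕ} (ψ : Fin m → Ten I n) (c : Fin t → Ten I p) :
    evm e ψ c = ∑ i, cont D (c i) (inv e D ψ i) := by
  rw [evm_apply]
  have h1 : ∀ i, cont D (c i) (inv e D ψ i) = ∑ k, hT (c i) (e k i) • ψ k := by
    intro i
    have h2 := map_sum (Ind.contL D (c i) n) (fun k => outer (jT D (e k i)) (ψ k)) Finset.univ
    rw [Ind.contL_apply] at h2
    have h3 : inv e D ψ i = ∑ k, outer (jT D (e k i)) (ψ k) := rfl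
    rw [h3, h2]
    refine Finset.sum_congr rfl fun k _ => ?_
    rw [Ind.contL_apply, ORng.cont_outer, a1.psiT_jT]
  simp only [h1]
  rw [Finset.sum_comm]
  refine Finset.sum_congr rfl fun k _ => ?_
  rw [← Finset.sum_smul]
  rfl

/-- **An upper bound.** If `c` generates the space spanned by `e`, then the equivariant maps
embed into the contractions of the `c i` with invariants. -/
theorem WW_le (a2 : Alg2) (h : Fr H e) {c : Fin t → Ten I p}
    (hgen : ∀ l, e l ∈ Submodule.span ℂ (Set.range fun x : H.K => gg (H.mat x) c)) {n : ℕ}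
    (Y : Submodule ℂ (Ten I n)) (hY : ∀ i, ∀ φ ∈ fixS H a1 (p + n), cont D (c i) φ ∈ Y) :
    finrank ℂ (WW H a1 e n) ≤ finrank ℂ Y := by
  let f : WW H a1 e n →ₗ[ℂ] Y :=
    { toFun := fun ψ => ⟨evm e (ψ : Fin m → Ten I n) c, by
        rw [evm_cont (D := D) a1]
        exact Submodule.sum_mem _ fun i _ => hY i _ (inv_mem H a1 e a2 h ψ.2 i)⟩
      map_add' := fun ψ ψ' => by
        apply Subtype.ext
        change ∑ k, hh c (e k) • ((ψ : Fin m → Ten I n) k + (ψ' : Fin m → Ten I n) k) =
          ∑ k, hh c (e k) • (ψ : Fin m → Ten I n) k + ∑ k, hh c (e k) • (ψ' : Fin m → Ten I n) k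
        simp only [smul_add, Finset.sum_add_distrib]
      map_smul' := fun r ψ => by
        apply Subtype.ext
        change ∑ k, hh c (e k) • (r • (ψ : Fin m → Ten I n) k) =
          r • ∑ k, hh c (e k) • (ψ : Fin m → Ten I n) k
        rw [Finset.smul_sum]
        exact Finset.sum_congr rfl fun k _ => smul_comm _ _ _ }
  refine LinearMap.finrank_le_finrank_of_injective (f := f) ?_
  rw [injective_iff_map_eq_zero]
  intro ψ hψ
  have h1 : evm e (ψ : Fin m → Ten I n) c = 0 :=
    congrArg (fun x : Y => (x : Ten I n)) hψ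
  have h2 : ∀ u ∈ Submodule.span ℂ (Set.range fun x : H.K => gg (H.mat x) c),
      evm e (ψ : Fin m → Ten I n) u = 0 := by
    intro u hu
    induction hu using Submodule.span_induction with
    | mem u hu =>
      obtain ⟨x, rfl⟩ := hu
      change evm e (ψ : Fin m → Ten I n) (gg (H.mat x) c) = 0
      rw [evm_gg H a1 e h ψ.2, h1]
      exact map_zero (OL.gL a1 n (H.mat x))
    | zero => exact map_zero _
    | add a b _ _ ha hb => rw [map_add, ha, hb, add_zero]
    | smul r a _ ha => rw [map_smul, ha, smul_zero]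
  apply Subtype.ext
  funext l
  rw [← evm_self H e h (ψ : Fin m → Ten I n) l]
  exact h2 _ (hgen l)

end main

end Int52

end Pool.Agent.Lib.MP_361a6f_ag.FL
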