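import Pool.Agent.Lib.MP_361a6f_ag.FL.O.IntC52

/-!
# The integrality law: the two estimates
-/

open Filter Topology MeasureTheory Module

set_option autoImplicit false
set_option linter.unusedSectionVars false
set_option linter.unusedVariables false
set_option maxHeartbeats 400000

namespace Pool.Agent.Lib.MP_361a6f_ag.FL

namespace Int52

open OL

section main

variable {I Λ β : Type} [Fintype I] [DecidableEq I] [DecidableEq Λ] [Fintype β]
  {lb : β → ℕ} {D : Dat I Λ} {b : Tup I lb} (H : HMb D b) (a1 : Alg1) {t p m : ℕ}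
  (e : Fin m → Fin t → Ten I p)

/-! ### The estimates -/

section est

variable (d : ℕ) (hd : 0 < d) (hI : Fintype.card I = d) {v : Ten I 1} (hv : v ≠ 0)
  (hvf : v ∈ fixS H a1 1)

theorem fixS_re (n : ℕ) :
    ∫ x, (H.mat x).trace.re ^ n ∂H.μ = (finrank ℂ (OL.fixS H a1 n) : ℝ) := by
  have htr : ∀ x : H.K, (H.mat x).trace = ((H.mat x).trace.re : ℂ) := fun x =>
    OL.trace_eq_re (H.mem x).1
  have h1 : ∫ x, (H.mat x).trace ^ n ∂H.μ =
      ((∫ x, (H.mat x).trace.re ^ n ∂H.μ : ℝ) : ℂ) := by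
    rw [← integral_complex_ofReal]
    refine integral_congr_ae (Eventually.of_forall fun x => ?_)
    show (H.mat x).trace ^ n = (((H.mat x).trace.re ^ n : ℝ) : ℂ)
    rw [Complex.ofReal_pow, ← htr]
  have hN := OL.finrank_fixS H a1 n
  rw [h1] at hN
  exact_mod_cast hN.symm

include hd hI hv hvf in
theorem mom (n : ℕ) (hn : (20 * d ^ 3) ^ 2 ≤ n) :
    ∫ x, Real.sqrt (n * O54.fro (H.mat x - 1)) * |(H.mat x).trace.re| ^ n ∂H.μ ≤
      40 * (d : ℝ) ^ 3 * (finrank ℂ (OL.fixS H a1 n) : ℝ) := by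
  have hu : ∀ x, (H.mat x).conjTranspose * H.mat x = 1 := fun x => (H.mem x).1.2
  have hfix : ∀ x, 2 - (d : ℝ) ≤ (H.mat x).trace.re := by
    intro x
    have := Exp18.le_trace (hu x) hv (hvf x)
    rw [hI] at this
    linarith
  have hmom := O52.moment d hd hI H.mat H.cont_mat hu H.μ hfix n hn
  rwa [fixS_re] at hmom

include hd hI hv hvf in
/-- the absolute moment -/
theorem abs_mom (n : ℕ) (hn : (20 * d ^ 3) ^ 2 ≤ n) :
    ∫ x, |(H.mat x).trace.re| ^ n ∂H.μ ≤
      (1 + 80 * (d : ℝ) ^ 3 / Real.sqrt n) * (finrank ℂ (OL.fixS H a1 n) : ℝ) := by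
  have hn0 : 0 < n := lt_of_lt_of_le (by positivity) hn
  have hnR : (0 : ℝ) < n := by exact_mod_cast hn0
  have hsn : 0 < Real.sqrt n := Real.sqrt_pos.2 hnR
  have hcχ : Continuous fun x : H.K => (H.mat x).trace.re :=
    Complex.continuous_re.comp (H.cont_mat.matrix_trace)
  have hcf : Continuous fun x : H.K => O54.fro (H.mat x - 1) :=
    O54.continuous_fro (fun x => H.mat x) H.cont_mat
  have hm := mom H a1 d hd hI hv hvf n hn
  have h1 : ∫ x, |(H.mat x).trace.re| ^ n ∂H.μ ≤
      ∫ x, ((H.mat x).trace.re ^ n + 2 / Real.sqrt n *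
        (Real.sqrt (n * O54.fro (H.mat x - 1)) * |(H.mat x).trace.re| ^ n)) ∂H.μ := by
    refine integral_mono (OL.integ H (hcχ.abs.pow n)) (OL.integ H ((hcχ.pow n).add
      (continuous_const.mul (((continuous_const.mul hcf).sqrt).mul (hcχ.abs.pow n))))) fun x => ?_
    show |(H.mat x).trace.re| ^ n ≤ (H.mat x).trace.re ^ n + 2 / Real.sqrt n *
        (Real.sqrt (n * O54.fro (H.mat x - 1)) * |(H.mat x).trace.re| ^ n)
    rcases le_or_gt 0 (H.mat x).trace.re with h0 | h0
    · rw [abs_of_nonneg h0]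
      have : 0 ≤ 2 / Real.sqrt n *
        (Real.sqrt (n * O54.fro (H.mat x - 1)) * (H.mat x).trace.re ^ n) := by
        have := pow_nonneg h0 n
        positivity
      linarith
    · have hf : 1 ≤ O54.fro (H.mat x - 1) := by
        have h2 := Exp18.hs_trace (H.mem x).1.2
        rw [hI] at h2
        have hdR : (1 : ℝ) ≤ d := by exact_mod_cast hd
        rw [O54.fro_hs, h2]
        linarith
      have h3 : Real.sqrt n ≤ Real.sqrt (n * O54.fro (H.mat x - 1)) := by
        apply Real.sqrt_le_sqrt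
        nlinarith
      have h4 : |(H.mat x).trace.re| ^ n ≤ 1 / Real.sqrt n *
        (Real.sqrt (n * O54.fro (H.mat x - 1)) * |(H.mat x).trace.re| ^ n) := by
        have h5 : 1 ≤ 1 / Real.sqrt n * Real.sqrt (n * O54.fro (H.mat x - 1)) := by
          rw [one_div, ← div_eq_inv_mul, le_div_iff₀ hsn, one_mul]
          exact h3
        have h6 := mul_le_mul_of_nonneg_right h5 (pow_nonneg (abs_nonneg (H.mat x).trace.re) n)
        rw [one_mul, mul_assoc] at h6
        exact h6
      have h7 : -|(H.mat x).trace.re| ^ n ≤ (H.mat x).trace.re ^ n := by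
        rw [← abs_pow]
        exact neg_abs_le _
      have h8 : 2 / Real.sqrt n * (Real.sqrt (n * O54.fro (H.mat x - 1)) *
        |(H.mat x).trace.re| ^ n) = 2 * (1 / Real.sqrt n *
          (Real.sqrt (n * O54.fro (H.mat x - 1)) * |(H.mat x).trace.re| ^ n)) := by ring
      rw [h8]
      linarith
  refine h1.trans ?_
  have i1 : Integrable (fun x : H.K => (H.mat x).trace.re ^ n) H.μ := OL.integ H (hcχ.pow n)
  have i2 : Integrable (fun x : H.K => 2 / Real.sqrt n *
      (Real.sqrt (n * O54.fro (H.mat x - 1)) * |(H.mat x).trace.re| ^ n)) H.μ :=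
    OL.integ H (continuous_const.mul (((continuous_const.mul hcf).sqrt).mul (hcχ.abs.pow n)))
  rw [integral_add i1 i2, integral_const_mul, fixS_re H a1]
  have h2 := mul_le_mul_of_nonneg_left hm (by positivity : 0 ≤ 2 / Real.sqrt n)
  refine (add_le_add_right h2 _).trans (le_of_eq ?_)
  ring

/-- the upper estimate with the absolute moment -/
theorem WW_abs (h : Fr H e) (n : ℕ) :
    (finrank ℂ (WW H a1 e n) : ℝ) ≤ m * ∫ x, |(H.mat x).trace.re| ^ n ∂H.μ := by
  have hcχ : Continuous fun x : H.K => (H.mat x).trace.re :=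
    Complex.continuous_re.comp (H.cont_mat.matrix_trace)
  have h1 := finrank_WW H a1 e h n
  have h2 : (finrank ℂ (WW H a1 e n) : ℝ) = ‖(finrank ℂ (WW H a1 e n) : ℂ)‖ := by
    rw [Complex.norm_natCast]
  rw [h2, h1]
  refine (norm_integral_le_integral_norm _).trans ?_
  have hct : Continuous fun x : H.K => (H.mat x).trace := H.cont_mat.matrix_trace
  have hcs : Continuous fun x : H.K => ∑ l, (starRingEnd ℂ) (co H e x l l) :=
    continuous_finsetSum _ fun l _ => Complex.continuous_conj.comp (co_cont H e a1 l l)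
  have h3 : ∫ x, ‖(∑ l, (starRingEnd ℂ) (co H e x l l)) * (H.mat x).trace ^ n‖ ∂H.μ ≤
      ∫ x, m * |(H.mat x).trace.re| ^ n ∂H.μ := by
    refine integral_mono (OL.integ H (hcs.mul (hct.pow n))).norm
      (OL.integ H (continuous_const.mul (hcχ.abs.pow n))) fun x => ?_
    show ‖(∑ l, (starRingEnd ℂ) (co H e x l l)) * (H.mat x).trace ^ n‖ ≤
      m * |(H.mat x).trace.re| ^ n
    rw [norm_mul, norm_pow, OL.trace_eq_re (H.mem x).1, Complex.norm_real, Real.norm_eq_abs,
      Complex.ofReal_re]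
    refine mul_le_mul_of_nonneg_right ?_ (pow_nonneg (abs_nonneg _) n)
    refine (norm_sum_le _ _).trans ?_
    have h4 : ∀ l ∈ (Finset.univ : Finset (Fin m)), ‖(starRingEnd ℂ) (co H e x l l)‖ ≤ 1 := by
      intro l _
      rw [RCLike.norm_conj]
      exact co_le a1 h x l
    refine (Finset.sum_le_sum h4).trans ?_
    simp
  refine h3.trans (le_of_eq ?_)
  rw [integral_const_mul]

/-- **The upper estimate in even lengths.** -/
theorem WW_even (h : Fr H e) {n : ℕ} (hn : Even n) :
    finrank ℂ (WW H a1 e n) ≤ m * finrank ℂ (OL.fixS H a1 n) := by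
  have h1 := WW_abs H a1 e h n
  simp only [hn.pow_abs] at h1
  rw [fixS_re H a1] at h1
  exact_mod_cast h1

include hd hI hv hvf in
/-- **The upper estimate.** -/
theorem WW_up (h : Fr H e) (n : ℕ) (hn : (20 * d ^ 3) ^ 2 ≤ n) :
    (finrank ℂ (WW H a1 e n) : ℝ) ≤
      m * ((1 + 80 * (d : ℝ) ^ 3 / Real.sqrt n) * (finrank ℂ (OL.fixS H a1 n) : ℝ)) :=
  (WW_abs H a1 e h n).trans
    (mul_le_mul_of_nonneg_left (abs_mom H a1 d hd hI hv hvf n hn) (Nat.cast_nonneg m))

include hd hI hv hvf in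
/-- **The lower estimate.** -/
theorem WW_low (h : Fr H e) (n : ℕ) (hn : (20 * d ^ 3) ^ 2 ≤ n) :
    m * ((1 - 40 * p * (d : ℝ) ^ 3 / Real.sqrt n) * (finrank ℂ (OL.fixS H a1 n) : ℝ)) ≤
      (finrank ℂ (WW H a1 e n) : ℝ) := by
  have hn0 : 0 < n := lt_of_lt_of_le (by positivity) hn
  have hnR : (0 : ℝ) < n := by exact_mod_cast hn0
  have hsn : 0 < Real.sqrt n := Real.sqrt_pos.2 hnR
  have hcχ : Continuous fun x : H.K => (H.mat x).trace.re :=
    Complex.continuous_re.comp (H.cont_mat.matrix_trace)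
  have hct : Continuous fun x : H.K => (H.mat x).trace := H.cont_mat.matrix_trace
  have hcf : Continuous fun x : H.K => O54.fro (H.mat x - 1) :=
    O54.continuous_fro (fun x => H.mat x) H.cont_mat
  have hcs : Continuous fun x : H.K => ∑ l, (starRingEnd ℂ) (co H e x l l) :=
    continuous_finsetSum _ fun l _ => Complex.continuous_conj.comp (co_cont H e a1 l l)
  have h1 := finrank_WW H a1 e h n
  have hN := OL.finrank_fixS H a1 n
  have hm := mom H a1 d hd hI hv hvf n hn
  set F : ℝ := (finrank ℂ (OL.fixS H a1 n) : ℝ) with hF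
  -- the difference
  have h2 : (finrank ℂ (WW H a1 e n) : ℂ) - m * (finrank ℂ (OL.fixS H a1 n) : ℂ) =
      ∫ x, ((∑ l, (starRingEnd ℂ) (co H e x l l)) - m) * (H.mat x).trace ^ n ∂H.μ := by
    have i1 : Integrable (fun x : H.K => (∑ l, (starRingEnd ℂ) (co H e x l l)) *
      (H.mat x).trace ^ n) H.μ := OL.integ H (hcs.mul (hct.pow n))
    have i2 : Integrable (fun x : H.K => (m : ℂ) * (H.mat x).trace ^ n) H.μ :=
      OL.integ H (continuous_const.mul (hct.pow n))
    rw [h1, hN, ← integral_const_mul, ← integral_sub i1 i2]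
    refine integral_congr_ae (Eventually.of_forall fun x => ?_)
    show _ = _
    simp only
    ring
  have h3 : ‖∫ x, ((∑ l, (starRingEnd ℂ) (co H e x l l)) - m) * (H.mat x).trace ^ n ∂H.μ‖ ≤
      ∫ x, (m * (p / Real.sqrt n)) * (Real.sqrt (n * O54.fro (H.mat x - 1)) *
        |(H.mat x).trace.re| ^ n) ∂H.μ := by
    refine (norm_integral_le_integral_norm _).trans ?_
    refine integral_mono ?_ ?_ fun x => ?_
    · exact (OL.integ H ((hcs.sub continuous_const).mul (hct.pow n))).norm
    · exact OL.integ H (continuous_const.mul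
        (((continuous_const.mul hcf).sqrt).mul (hcχ.abs.pow n)))
    · show ‖((∑ l, (starRingEnd ℂ) (co H e x l l)) - m) * (H.mat x).trace ^ n‖ ≤ _
      rw [norm_mul, norm_pow, OL.trace_eq_re (H.mem x).1, Complex.norm_real, Real.norm_eq_abs,
        Complex.ofReal_re, ← mul_assoc]
      refine mul_le_mul_of_nonneg_right ?_ (pow_nonneg (abs_nonneg _) n)
      have h4 : (∑ l, (starRingEnd ℂ) (co H e x l l)) - m =
          ∑ l, ((starRingEnd ℂ) (co H e x l l) - 1) := by
        rw [Finset.sum_sub_distrib]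
        simp
      rw [h4]
      refine (norm_sum_le _ _).trans ?_
      have h5 : ∀ l ∈ (Finset.univ : Finset (Fin m)),
          ‖(starRingEnd ℂ) (co H e x l l) - 1‖ ≤ p * Exp18.hs (H.mat x) := by
        intro l _
        have h6 : (starRingEnd ℂ) (co H e x l l) - 1 = (starRingEnd ℂ) (co H e x l l - 1) := by
          rw [map_sub, map_one]
        rw [h6, RCLike.norm_conj]
        exact co_sub a1 h x l
      refine (Finset.sum_le_sum h5).trans (le_of_eq ?_)
      rw [Finset.sum_const, Finset.card_univ, Fintype.card_fin, nsmul_eq_mul, O54.fro_hs,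
        Real.sqrt_mul hnR.le, Real.sqrt_sq (Exp18.hs_nonneg _)]
      field_simp
  rw [integral_const_mul, ← h2] at h3
  have h4 : (m : ℝ) * (p / Real.sqrt n) * ∫ x, (Real.sqrt (n * O54.fro (H.mat x - 1)) *
        |(H.mat x).trace.re| ^ n) ∂H.μ ≤ m * (40 * p * (d : ℝ) ^ 3 / Real.sqrt n * F) := by
    refine (mul_le_mul_of_nonneg_left hm (by positivity)).trans (le_of_eq ?_)
    field_simp
  have h5 : |(finrank ℂ (WW H a1 e n) : ℝ) - m * F| ≤
      m * (40 * p * (d : ℝ) ^ 3 / Real.sqrt n * F) := by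
    refine le_trans (le_of_eq ?_) (h3.trans h4)
    have h6 : (finrank ℂ (WW H a1 e n) : ℂ) - m * (finrank ℂ (OL.fixS H a1 n) : ℂ) =
        (((finrank ℂ (WW H a1 e n) : ℝ) - m * F : ℝ) : ℂ) := by
      rw [hF]
      push_cast
      ring
    rw [h6, Complex.norm_real, Real.norm_eq_abs]
  have h6 := (abs_le.1 h5).1
  linarith

end est

end main

end Int52

end Pool.Agent.Lib.MP_361a6f_ag.FL
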