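import Pool.Agent.Lib.MP_361a6f_ag.FL.O.IntD52
import Pool.Agent.Lib.MP_361a6f_ag.FL.O.LevA
import Pool.Agent.Lib.MP_361a6f_ag.FL.O.Grow52

/-!
# The integrality law at one level
-/

open Filter Topology MeasureTheory Module

set_option autoImplicit false
set_option linter.unusedSectionVars false
set_option linter.unusedVariables false
set_option maxHeartbeats 400000

namespace Pool.Agent.Lib.MP_361a6f_ag.FL

namespace Int52

open OL

/-! ### Limits of spaces -/

section lims

variable {E : Type*} [NormedAddCommGroup E] [NormedSpace ℂ E] [FiniteDimensional ℂ E]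

/-- the limits of the sequences of members of the spaces `T j` -/
def Lim (T : ℕ → Submodule ℂ E) : Submodule ℂ E where
  carrier := {y | ∃ z : ℕ → E, (∀ j, z j ∈ T j) ∧ Tendsto z atTop (𝓝 y)}
  add_mem' := by
    rintro a b ⟨z, hz, hz'⟩ ⟨w, hw, hw'⟩
    exact ⟨fun j => z j + w j, fun j => add_mem (hz j) (hw j), hz'.add hw'⟩
  zero_mem' := ⟨fun _ => 0, fun j => zero_mem _, tendsto_const_nhds⟩
  smul_mem' := by
    rintro r a ⟨z, hz, hz'⟩
    exact ⟨fun j => r • z j, fun j => Submodule.smul_mem _ r (hz j), hz'.const_smul r⟩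

theorem finrank_Lim (T : ℕ → Submodule ℂ E) (N : ℕ) (hT : ∀ j, finrank ℂ (T j) ≤ N) :
    finrank ℂ (Lim T) ≤ N := by
  let bs := finBasis ℂ (Lim T)
  have h1 : ∀ l, ∃ z : ℕ → E, (∀ j, z j ∈ T j) ∧ Tendsto z atTop (𝓝 (bs l : E)) :=
    fun l => (bs l).2
  choose z hz hz' using h1
  have hli : LinearIndependent ℂ fun l => (bs l : E) :=
    bs.linearIndependent.map' (Lim T).subtype (Submodule.ker_subtype _)
  have h2 : Tendsto (fun j => fun l => z l j) atTop (𝓝 fun l => (bs l : E)) :=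
    tendsto_pi_nhds.2 hz'
  have h3 := (isOpen_setOfPred_linearIndependent (𝕜 := ℂ) (E := E)).mem_nhds hli
  obtain ⟨j, hj⟩ := (h2.eventually h3).exists
  have h4 : LinearIndependent ℂ fun l => (⟨z l j, hz l j⟩ : T j) :=
    LinearIndependent.of_comp (T j).subtype hj
  have h5 := h4.fintype_card_le_finrank
  rw [Fintype.card_fin] at h5
  exact h5.trans (hT j)

end lims

section level

variable {I Λ : Type} [Fintype I] [DecidableEq I] [DecidableEq Λ]
  {D : Dat I Λ} {At : (L : ℕ) → Ten I L → Prop}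

/-- orthonormal limits -/
theorem frames (a1 : Alg1) {g : ℕ → Matrix I I ℂ} (hg : ∀ j, IsG D (g j)) {r : ℕ}
    (T : Submodule ℂ (Ten I r)) :
    ∃ (φ : ℕ → ℕ) (c : Fin (finrank ℂ T) → Ten I r)
      (z : ℕ → Fin (finrank ℂ T) → Ten I r), StrictMono φ ∧ (∀ j i, z j i ∈ T) ∧
      LinearIndependent ℂ c ∧
      (∀ i, Tendsto (fun j => gT (g (φ j)) (z j i)) atTop (𝓝 (c i))) ∧
      ∀ y ∈ T, ∀ f, Tendsto (fun j => gT (g (φ j)) y) atTop (𝓝 f) →
        f ∈ Submodule.span ℂ (Set.range c) := by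
  classical
  let E := EuclideanSpace ℂ (Fin r → I)
  let te : Ten I r ≃ₗ[ℂ] E := ORng.toE I r
  let ec : Ten I r ≃L[ℂ] E := te.toContinuousLinearEquiv
  have hinj : ∀ j, Function.Injective (OL.gL a1 r (g j)) := by
    intro j u v h
    have h1 : gT (g j) u = gT (g j) v := h
    have h2 := congrArg (gT (g j)⁻¹) h1
    rwa [← a1.gT_mul, ← a1.gT_mul, (a1.G_inv D _ (hg j)).2.2, a1.gT_one, a1.gT_one] at h2
  let Tj : ℕ → Submodule ℂ E := fun j => (T.map (OL.gL a1 r (g j))).map te.toLinearMap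
  have hfr : ∀ j, finrank ℂ (Tj j) = finrank ℂ T := by
    intro j
    rw [LinearEquiv.finrank_map_eq te]
    exact (Submodule.equivMapOfInjective _ (hinj j) T).finrank_eq.symm
  let bs : ∀ j, OrthonormalBasis (Fin (finrank ℂ T)) ℂ (Tj j) := fun j =>
    (stdOrthonormalBasis ℂ (Tj j)).reindex (finCongr (hfr j))
  have hz : ∀ j i, ∃ z ∈ T, (bs j i : E) = te (gT (g j) z) := by
    intro j i
    obtain ⟨y, ⟨z, hz, rfl⟩, h⟩ := (bs j i).2
    exact ⟨z, hz, h.symm⟩
  choose z hzT hz' using hz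
  let x : ℕ → Fin (finrank ℂ T) → E := fun j i => (bs j i : E)
  have hon : ∀ j, Orthonormal ℂ (x j) := fun j =>
    (bs j).orthonormal.comp_linearIsometry (Tj j).subtypeₗᵢ
  have hx : ∀ j, x j ∈ Set.pi Set.univ fun _ => Metric.sphere (0 : E) 1 := by
    intro j i _
    rw [mem_sphere_zero_iff_norm]
    exact (hon j).1 i
  obtain ⟨c', hc', φ, hφ, hlim⟩ := (isCompact_univ_pi fun _ : Fin (finrank ℂ T) =>
    isCompact_sphere (0 : E) 1).tendsto_subseq hx
  have hon' : Orthonormal ℂ c' := by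
    rw [orthonormal_iff_ite]
    intro i j
    have h1 : Tendsto (fun l => inner ℂ (x (φ l) i) (x (φ l) j)) atTop
        (𝓝 (inner ℂ (c' i) (c' j))) :=
      (tendsto_pi_nhds.1 hlim i).inner (tendsto_pi_nhds.1 hlim j)
    refine tendsto_nhds_unique h1 ?_
    have h2 : ∀ l, inner ℂ (x (φ l) i) (x (φ l) j) = if i = j then (1 : ℂ) else 0 :=
      fun l => orthonormal_iff_ite.1 (hon (φ l)) i j
    simp only [h2]
    exact tendsto_const_nhds
  refine ⟨φ, fun i => te.symm (c' i), fun j i => z (φ j) i, hφ, fun j i => hzT _ _, ?_,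
    fun i => ?_, fun y hy f hf => ?_⟩
  · exact hon'.linearIndependent.map' te.symm.toLinearMap te.symm.ker
  · have h1 := (ec.symm.continuous.tendsto (c' i)).comp (tendsto_pi_nhds.1 hlim i)
    refine h1.congr fun j => ?_
    change ec.symm (x (φ j) i) = gT (g (φ j)) (z (φ j) i)
    change ec.symm (bs (φ j) i : E) = gT (g (φ j)) (z (φ j) i)
    rw [hz' (φ j) i]
    exact ec.symm_apply_apply _
  · -- a limit is a combination of the limit frame
    have h1 : Tendsto (fun j => te (gT (g (φ j)) y)) atTop (𝓝 (te f)) :=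
      (ec.continuous.tendsto f).comp hf
    have h2 : ∀ j, te (gT (g (φ j)) y) =
        ∑ i, inner ℂ (x (φ j) i) (te (gT (g (φ j)) y)) • x (φ j) i := by
      intro j
      have h3 : te (gT (g (φ j)) y) ∈ Tj (φ j) := ⟨gT (g (φ j)) y, ⟨y, hy, rfl⟩, rfl⟩
      have h4 := (bs (φ j)).sum_repr' (⟨te (gT (g (φ j)) y), h3⟩ : Tj (φ j))
      have h5 := congrArg (fun u : Tj (φ j) => (u : E)) h4
      simp only [Submodule.coe_sum, Submodule.coe_smul] at h5
      exact h5.symm
    have h3 : Tendsto (fun j => ∑ i, inner ℂ (x (φ j) i) (te (gT (g (φ j)) y)) • x (φ j) i)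
        atTop (𝓝 (∑ i, inner ℂ (c' i) (te f) • c' i)) :=
      tendsto_finsetSum _ fun i _ =>
        ((tendsto_pi_nhds.1 hlim i).inner h1).smul (tendsto_pi_nhds.1 hlim i)
    have h4 : te f = ∑ i, inner ℂ (c' i) (te f) • c' i :=
      tendsto_nhds_unique (h1.congr h2) h3
    have h5 : f = ∑ i, inner ℂ (c' i) (te f) • te.symm (c' i) := by
      have h6 := congrArg te.symm h4
      rw [LinearEquiv.symm_apply_apply, map_sum] at h6
      simp only [map_smul] at h6
      exact h6
    rw [h5]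
    exact Submodule.sum_mem _ fun i _ =>
      Submodule.smul_mem _ _ (Submodule.subset_span ⟨i, rfl⟩)

/-- **One level.** -/
theorem level (a1 : Alg1) (a2 : Alg2) (ab : AlgB) (cpt : CptbStatement) (mn : MinbStatement)
    (l1 : L1bStatement) (l2 : L2bStatement) (S : ASys D At)
    (hu : ∃ u ∈ RA At 1, ∃ w ∈ RA At 1, psiT D u w ≠ 0) {r n : ℕ} (hr0 : 0 < r)
    (Tr : Submodule ℂ (Ten I r)) (Tn : Submodule ℂ (Ten I n))
    (hct : ∀ u ∈ Tr, ∀ v ∈ CA At (r + n), cont D u v ∈ Tn)
    (d : ℕ) (hd : 0 < d) (hI : Fintype.card I = d) :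
    ∃ m : ℕ, ((20 * d ^ 3) ^ 2 ≤ r → (finrank ℂ Tr : ℝ) ≤
        m * ((1 + 80 * (d : ℝ) ^ 3 / Real.sqrt r) * (rkA D At r : ℝ))) ∧
      ((20 * d ^ 3) ^ 2 ≤ n → m * ((1 - 40 * r * (d : ℝ) ^ 3 / Real.sqrt n) * (rkA D At n : ℝ)) ≤
        (finrank ℂ Tn : ℝ)) ∧
      (Even r → finrank ℂ Tr ≤ m * rkA D At r) ∧
      (CA At r ≤ Tr → m ≤ 1 → finrank ℂ Tr ≤ rkA D At r) := by
  obtain ⟨β, _, lb, b, H, g, k, L⟩ := LevO.lev a1 a2 ab cpt mn l1 l2 S (n + r + 1)
  -- a fixed vector
  have hu' := hu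
  obtain ⟨u, hu1, w, hw1, hu2⟩ := hu'
  obtain ⟨v, hv, hvfix⟩ := L.lim 1 (by omega) u (Submodule.span_subset_span ℝ ℂ _ hu1)
  obtain ⟨v', hv', -⟩ := L.lim 1 (by omega) w (Submodule.span_subset_span ℝ ℂ _ hw1)
  have hv0 : v ≠ 0 := by
    rintro rfl
    have h1 := L.psi 1 u w 0 v' hv hv'
    rw [← Qps.psiL_apply, map_zero, LinearMap.zero_apply] at h1
    exact hu2 h1.symm
  have hvf : v ∈ fixS H a1 1 := hvfix
  obtain ⟨φ, c, z, hφ, hzT, hli, hlim, hspan⟩ := frames a1 L.G Tr
  -- the space generated by `c`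
  let M : Submodule ℂ (Fin (finrank ℂ Tr) → Ten I r) :=
    Submodule.span ℂ (Set.range fun x : H.K => gg (H.mat x) c)
  obtain ⟨e, heM, heon, heex⟩ := onb M
  have hcM : c ∈ M := by
    refine Submodule.subset_span ⟨1, ?_⟩
    funext i
    change gT (H.mat 1) (c i) = c i
    rw [map_one, a1.gT_one]
  have hst : ∀ (x : H.K), ∀ f ∈ M, gg (H.mat x) f ∈ M := by
    intro x f hf
    induction hf using Submodule.span_induction with
    | mem f hf =>
      obtain ⟨y, rfl⟩ := hf
      refine Submodule.subset_span ⟨x * y, ?_⟩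
      funext i
      change gT (H.mat (x * y)) (c i) = gT (H.mat x) (gT (H.mat y) (c i))
      rw [map_mul, a1.gT_mul]
    | zero =>
      have h1 : gg (H.mat x) (0 : Fin (finrank ℂ Tr) → Ten I r) = 0 := by
        funext i
        exact map_zero (OL.gL a1 r (H.mat x))
      rw [h1]
      exact zero_mem _
    | add f f' _ _ hf hf' =>
      have h1 : gg (H.mat x) (f + f') = gg (H.mat x) f + gg (H.mat x) f' := by
        funext i
        exact a1.gT_add _ _ _
      rw [h1]
      exact add_mem hf hf'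
    | smul s f _ hf =>
      have h1 : gg (H.mat x) (s • f) = s • gg (H.mat x) f := by
        funext i
        exact a1.gT_smul _ _ _
      rw [h1]
      exact Submodule.smul_mem _ s hf
  have hFr : Fr H e := ⟨heon, fun x l => heex _ (hst x _ (heM l))⟩
  -- the limits of the contractions
  let Y : Submodule ℂ (Ten I n) := Lim fun j => Tn.map (OL.gL a1 n (g (φ j)))
  have hYT : finrank ℂ Y ≤ finrank ℂ Tn :=
    finrank_Lim _ _ fun j => Submodule.finrank_map_le _ _
  have hY : ∀ i, ∀ φ₀ ∈ fixS H a1 (r + n), cont D (c i) φ₀ ∈ Y := by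
    intro i φ₀ hφ₀
    obtain ⟨y, hy, hy'⟩ := L.surj (r + n) (by omega) φ₀ hφ₀
    refine ⟨fun j => gT (g (φ j)) (cont D (z j i) y), fun j =>
      ⟨cont D (z j i) y, hct _ (hzT j i) y hy, rfl⟩, ?_⟩
    have h1 := ((Ind.cont_cont D (p := r) (c := n)).tendsto (c i, φ₀)).comp
      ((hlim i).prodMk_nhds (hy'.comp hφ.tendsto_atTop))
    refine h1.congr fun j => ?_
    change cont D (gT (g (φ j)) (z j i)) (gT (g (φ j)) y) = gT (g (φ j)) (cont D (z j i) y)
    rw [a2.cont_gT D (g (φ j)) _ _ (L.G (φ j))]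
  refine ⟨finrank ℂ M, fun hr => ?_, fun hn => ?_, fun hev => ?_, fun hCA hM => ?_⟩
  · have h1 := le_WW H a1 e hFr (c := c) (heex c hcM) hli
    have h2 := WW_up H a1 e d hd hI hv0 hvf hFr r hr
    rw [finrank_lim L a1 (by omega : r ≤ n + r + 1)] at h2
    exact le_trans (by exact_mod_cast h1) h2
  · have h1 := WW_le H a1 e a2 hFr (c := c) heM Y hY
    have h2 := WW_low H a1 e d hd hI hv0 hvf hFr n hn
    rw [finrank_lim L a1 (by omega : n ≤ n + r + 1)] at h2
    exact h2.trans (by exact_mod_cast h1.trans hYT)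
  · have h1 := le_WW H a1 e hFr (c := c) (heex c hcM) hli
    have h2 := WW_even H a1 e hFr hev
    rw [finrank_lim L a1 (by omega : r ≤ n + r + 1)] at h2
    exact h1.trans h2
  · -- the space generated by `c` is a line
    rw [← finrank_lim L a1 (by omega : r ≤ n + r + 1)]
    -- an invariant tensor
    have hpos : 0 < finrank ℂ (fixS H a1 r) := by
      rw [finrank_lim L a1 (by omega : r ≤ n + r + 1)]
      have h1 := O52.grow_c a1 a2 ab cpt mn l1 l2 S hu r hr0
      rw [hI] at h1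
      have h2 : (0 : ℝ) < (d : ℝ) ^ r := by positivity
      have h3 : (rkA D At r : ℝ) ≠ 0 := by
        intro h
        rw [h, mul_zero] at h1
        linarith
      have h4 : rkA D At r ≠ 0 := fun h => h3 (by rw [h, Nat.cast_zero])
      omega
    obtain ⟨⟨f, hf⟩, hf0⟩ := Module.finrank_pos_iff_exists_ne_zero.1 hpos
    have hf0' : f ≠ 0 := fun h => hf0 (Subtype.ext h)
    obtain ⟨y, hy, hy'⟩ := L.surj r (by omega) f hf
    have hfc := hspan y (hCA hy) f (hy'.comp hφ.tendsto_atTop)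
    have hline : ∀ x : H.K, ∃ s : ℂ, gg (H.mat x) c = s • c := by
      intro x
      by_cases hc0 : c = 0
      · refine ⟨0, ?_⟩
        rw [hc0, smul_zero]
        funext i
        exact map_zero (OL.gL a1 r (H.mat x))
      · have h1 : finrank ℂ M = 1 := by
          have h2 : 0 < finrank ℂ M :=
            Module.finrank_pos_iff_exists_ne_zero.2 ⟨⟨c, hcM⟩, fun h => hc0 (congrArg
              (fun u : M => (u : Fin (finrank ℂ Tr) → Ten I r)) h)⟩
          omega
        obtain ⟨s, hs⟩ := exists_smul_eq_of_finrank_eq_one h1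
          (x := (⟨c, hcM⟩ : M)) (fun h => hc0 (congrArg
              (fun u : M => (u : Fin (finrank ℂ Tr) → Ten I r)) h))
          (⟨gg (H.mat x) c, hst x c hcM⟩ : M)
        exact ⟨s, (congrArg (fun u : M => (u : Fin (finrank ℂ Tr) → Ten I r)) hs).symm⟩
    have hone : ∀ x : H.K, ∀ i, gT (H.mat x) (c i) = c i := by
      intro x
      obtain ⟨s, hs⟩ := hline x
      have h1 : ∀ i, gT (H.mat x) (c i) = s • c i := fun i => congrFun hs i
      have h2 : gT (H.mat x) f = s • f := by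
        have h3 : ∀ u ∈ Submodule.span ℂ (Set.range c), gT (H.mat x) u = s • u := by
          intro u hu
          induction hu using Submodule.span_induction with
          | mem u hu =>
            obtain ⟨i, rfl⟩ := hu
            exact h1 i
          | zero =>
            rw [smul_zero]
            exact map_zero (OL.gL a1 r (H.mat x))
          | add a b _ _ ha hb => rw [a1.gT_add, ha, hb, smul_add]
          | smul q a _ ha => rw [a1.gT_smul, ha, smul_comm]
        exact h3 f hfc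
      rw [hf x] at h2
      have h3 : s = 1 := by
        have h4 : (1 - s) • f = 0 := by rw [sub_smul, one_smul, ← h2, sub_self]
        rcases smul_eq_zero.1 h4 with h5 | h5
        · exact (sub_eq_zero.1 h5).symm
        · exact absurd h5 hf0'
      intro i
      rw [h1 i, h3, one_smul]
    have hli' : LinearIndependent ℂ fun i => (⟨c i, fun x => hone x i⟩ : fixS H a1 r) :=
      LinearIndependent.of_comp (fixS H a1 r).subtype hli
    have h5 := hli'.fintype_card_le_finrank
    rwa [Fintype.card_fin] at h5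

end level

end Int52

end Pool.Agent.Lib.MP_361a6f_ag.FL
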