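import Pool.Agent.Lib.MP_361a6f_ag.FL.O.StatL44

/-!
# The integrality law: the parts
-/

open CategoryTheory AlgebraicGeometry MonoidalCategory CartesianMonoidalCategory Filter Topology

universe u v w

namespace Pool.Agent.Lib.MP_361a6f_ag.FL

open Pool.Agent.Lib.MP_361a6f_ag.H3 Pool.Agent.Lib.MP_361a6f_ag.SQ
  Pool.Agent.Lib.MP_361a6f_ag.PP

section

variable {k : Type u} [Field k]

/-- `dim T(X^n) = m N(X^n) + O(n^(-1/2) N(X^n))`, where `N(X^n)` is the rank of the intersection
form on the algebraic classes of `X^n`. -/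
def Multiple (W : CohomologyData.{u, 0, w} k ℂ) (X : Fin 1 → Sch k)
    (T : ∀ P : Prd 1, Submodule ℂ (W.coh (P.obj X))) (m : ℕ) : Prop :=
  ∃ C : ℝ, ∀ P : Prd 1, |(Module.finrank ℂ (T P) : ℝ) - m * rankN W (P.obj X)| ≤
    C / √P.size * rankN W (P.obj X)

end

/-- **The integrality law.** Let `X` be an abelian variety, or a variety whose even Kuenneth
projector is algebraic, `d = dim H^*(X)`, and `N(X^n)` the rank of the intersection form on the
algebraic classes of `X^n`. Then `d^n ≤ (600 d^3 n)^(d^2) N(X^n)`. For every family `T` of complex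
spaces of classes on the powers of `X` which is stable under the algebraic correspondences: either
`dim T(X^n) / N(X^n)` tends to infinity, or it tends to an integer `m`, with an error
`O(n^(-1/2))`, and `dim T(X^n) ≤ m N(X^n)` for all even `n`. In the second case, if `T` contains
the algebraic classes, then on all powers of `X` numerical equivalence is homological equivalence,
and `Tr(x y)` is nondegenerate on `T` if `T` is closed under exterior products, and `m = 1` if and
only if `T` is spanned by algebraic classes on all powers. -/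
def IntegralityStatement : Prop :=
  ∀ {k : Type u} [Field k] (W : CohomologyData.{u, 0, w} k ℂ) (𝒱 : VarietyClass k)
    (_ : IsWeilCohomology W 𝒱) (X : Fin 1 → Sch k) {e : ℕ} (_ : 𝒱.mem (X 0) e)
    (_ : AbelianOrEven W (X 0) e),
    (∀ P : Prd 1, (Module.finrank ℂ (W.coh (X 0)) : ℝ) ^ P.size ≤
      (600 * (Module.finrank ℂ (W.coh (X 0)) : ℝ) ^ 3 * P.size) ^
        (Module.finrank ℂ (W.coh (X 0)) ^ 2) * rankN W (P.obj X)) ∧
    ∀ T : (∀ P : Prd 1, Submodule ℂ (W.coh (P.obj X))), CorrStable W X T →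
      (Tendsto (fun P => (Module.finrank ℂ (T P) : ℝ) / rankN W (P.obj X)) powers atTop ∨
      ∃ m : ℕ, Multiple W X T m ∧
        (∀ P : Prd 1, Even P.size → Module.finrank ℂ (T P) ≤ m * rankN W (P.obj X)) ∧
        ((∀ P, algC W (P.obj X) ≤ T P) → (∀ P : Prd 1, ConjectureD W (P.obj X)) ∧
          (ExtClosed W X T → ∀ P : Prd 1, NondegOn W (T P)) ∧
          (m = 1 ↔ ∀ P, T P = algC W (P.obj X))))

/-- **The gaps.** Let `d = dim H^*(X)` and `dim T(X^r) > m N(X^r)` for ONE even `r`. Then
`dim T(X^n) ≥ (m + 1) (1 - 40 r d^3 n^(-1/2)) N(X^n)` for ALL `n`. If moreover `T` contains the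
algebraic classes and is closed under exterior products and `Tr(x y)` is nondegenerate on `T(X^n)`,
then `2 dim A(X^n) + (m - 1) N(X^n) ≤ (1 + 160 m r d^3 n^(-1/2)) dim T(X^n)`, where `A(X^n)` is the
span of the algebraic classes. If `T` contains the algebraic classes and `m = 1` then `r` may be odd
(the half or all law: `dim A(X^n) ≤ (1/2 + 80 r d^3 n^(-1/2)) dim T(X^n)`). -/
def IntegralGapStatement : Prop :=
  ∀ {k : Type u} [Field k] (W : CohomologyData.{u, 0, w} k ℂ) (𝒱 : VarietyClass k)
    (_ : IsWeilCohomology W 𝒱) (X : Fin 1 → Sch k) {e : ℕ} (_ : 𝒱.mem (X 0) e)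
    (_ : AbelianOrEven W (X 0) e) (T : ∀ P : Prd 1, Submodule ℂ (W.coh (P.obj X)))
    (_ : CorrStable W X T) (R : Prd 1) (m : ℕ)
    (_ : Even R.size ∨ (m = 1 ∧ algC W (R.obj X) ≤ T R))
    (_ : m * rankN W (R.obj X) < Module.finrank ℂ (T R)) (P : Prd 1),
    ((m : ℝ) + 1) * (1 - rootC W (X 0) 40 R.size P.size) * rankN W (P.obj X) ≤
      Module.finrank ℂ (T P) ∧
    ((∀ Q, algC W (Q.obj X) ≤ T Q) → ExtClosed W X T → NondegOn W (T P) →
      2 * (Module.finrank ℂ (algC W (P.obj X)) : ℝ) + ((m : ℝ) - 1) * rankN W (P.obj X) ≤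
        (1 + rootC W (X 0) (160 * m) R.size P.size) * Module.finrank ℂ (T P))

/-- **The inverse square root law.** (1) If a closed family `T` is closed under exterior products
and `Tr(x y)` is degenerate on `T(X^r)` for ONE `r`, then
`N(X^n) ≤ 160 r d^3 n^(-1/2) dim T(X^n)` for ALL `n`, where `d = dim H^*(X)`. (2) If numerical
equivalence is not homological equivalence on `X^r`, then this holds with the span of the algebraic
classes for `T`. -/
def InverseSquareRootStatement : Prop :=
  ∀ {k : Type u} [Field k] (W : CohomologyData.{u, 0, w} k ℂ) (𝒱 : VarietyClass k)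
    (_ : IsWeilCohomology W 𝒱) (X : Fin 1 → Sch k) {e : ℕ} (_ : 𝒱.mem (X 0) e)
    (_ : AbelianOrEven W (X 0) e) (R : Prd 1),
    (∀ T : (∀ P : Prd 1, Submodule ℂ (W.coh (P.obj X))), ClosedFamily W X T → ExtClosed W X T →
      ¬ NondegOn W (T R) → ∀ P : Prd 1, (rankN W (P.obj X) : ℝ) ≤
        rootC W (X 0) 160 R.size P.size * Module.finrank ℂ (T P)) ∧
    (¬ ConjectureD W (R.obj X) → ∀ P : Prd 1, (rankN W (P.obj X) : ℝ) ≤
      rootC W (X 0) 160 R.size P.size * Module.finrank ℂ (algC W (P.obj X)))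

/-- **The Frobenius.** Let `T(X^n)` be the even part of the eigenspace, or of the generalised
eigenspace, for the eigenvalue `1` of a `FrobeniusSystem` (if `X` is defined over a finite field:
the Tate classes, or a space whose dimension is the sum of the orders of the poles of the zeta
function). (0) `T` is closed under correspondences and exterior products and contains the algebraic
classes, and `Tr(x y)` is nondegenerate on the generalised eigenspaces. (1) If `F` is not
diagonalisable on `H^*(X)`, then `N(X^n) ≤ 320 d^3 n^(-1/2) dim T(X^n)` for ALL `n`. (2) Either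
`N(X^n) / dim T(X^n)` tends to `0`, or numerical equivalence is homological equivalence on all
powers of `X`, `F` is diagonalisable on `H^*(X)`, and there is an integer `m ≥ 1` such that
`N(X^n) / dim T(X^n)` tends to `1 / m`; and `m = 1` if and only if `T` is spanned by algebraic
classes on all powers of `X`. -/
def FrobeniusIntegralityStatement : Prop :=
  ∀ {k : Type u} [Field k] (W : CohomologyData.{u, 0, w} k ℂ) (𝒱 : VarietyClass k)
    (_ : IsWeilCohomology W 𝒱) (X : Fin 1 → Sch k) {e : ℕ} (_ : 𝒱.mem (X 0) e)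
    (_ : AbelianOrEven W (X 0) e)
    (F : ∀ P : Prd 1, W.coh (P.obj X) →ₐ[ℂ] W.coh (P.obj X)) (_ : FrobeniusSystem W X F)
    (T : ∀ P : Prd 1, Submodule ℂ (W.coh (P.obj X)))
    (_ : (∀ P, T P = tateE W (P.obj X) (F P)) ∨ ∀ P, T P = tateF W (P.obj X) (F P)),
    ClosedFamily W X T ∧ ExtClosed W X T ∧
    (∀ P : Prd 1, NondegOn W (tateF W (P.obj X) (F P))) ∧
    (¬ Diagonalisable W (F (.leaf 0)) → ∀ P : Prd 1, (rankN W (P.obj X) : ℝ) ≤
      rootC W (X 0) 160 2 P.size * Module.finrank ℂ (T P)) ∧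
    (Tendsto (fun P => (rankN W (P.obj X) : ℝ) / Module.finrank ℂ (T P)) powers (𝓝 0) ∨
      (∀ P : Prd 1, ConjectureD W (P.obj X)) ∧ Diagonalisable W (F (.leaf 0)) ∧ ∃ m : ℕ, 1 ≤ m ∧
        Tendsto (fun P => (rankN W (P.obj X) : ℝ) / Module.finrank ℂ (T P)) powers (𝓝 (1 / m)) ∧
        (m = 1 ↔ ∀ P, T P = algC W (P.obj X)))

end Pool.Agent.Lib.MP_361a6f_ag.FL
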