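import Pool.Agent.Lib.MP_361a6f_ag.FL.O.Mom52
import Pool.Agent.Lib.MP_361a6f_ag.FL.O.H54.T2r

/-!
# The trace bound with the constant `1 + O(n^(-1/2))`
-/

open Filter Topology MeasureTheory Module

set_option autoImplicit false

namespace Pool.Agent.Lib.MP_361a6f_ag.FL

namespace O52

open OL T2A OTrq O54

/-- the trace bound with the constant `1 + ε` if `80 l d³ ≤ ε √n` -/
theorem trqC (a1 : Alg1) (d : ℕ) (hd : 0 < d) {I Λ : Type} [Fintype I] [DecidableEq I]
    [DecidableEq Λ] (D : Dat I Λ) (hI : Fintype.card I = d) (l n : ℕ) (ε : ℝ) (hε : 0 < ε)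
    (hε1 : ε ≤ 1) (hn : (20 * d ^ 3) ^ 2 ≤ n) (hl : 80 * l * (d : ℝ) ^ 3 ≤ ε * Real.sqrt n) :
    TrqAt a1 D (1 + ε) l n := by
  intro β _ lb b H v hv hvf c hc
  have hu : ∀ x, (H.mat x).conjTranspose * H.mat x = 1 := fun x => (H.mem x).1.2
  have htr : ∀ x : H.K, (H.mat x).trace = ((H.mat x).trace.re : ℂ) := fun x =>
    OL.trace_eq_re (H.mem x).1
  have hct : Continuous fun x : H.K => (H.mat x).trace := H.cont_mat.matrix_trace
  have hcχ : Continuous fun x : H.K => (H.mat x).trace.re :=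
    Complex.continuous_re.comp (H.cont_mat.matrix_trace)
  have hcw : Continuous fun x : H.K => hT c (gT (H.mat x) c) := by
    have h1 : Continuous fun x : H.K => gT (H.mat x) c :=
      a1.gT_cont.comp (H.cont_mat.prodMk continuous_const)
    unfold hT
    refine continuous_finsetSum _ fun w _ => continuous_const.mul ?_
    exact Complex.continuous_conj.comp ((continuous_apply w).comp h1)
  have hcf : Continuous fun x : H.K => fro (H.mat x - 1) :=
    continuous_fro (fun x => H.mat x) H.cont_mat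
  have hfix : ∀ x, 2 - (d : ℝ) ≤ (H.mat x).trace.re := by
    intro x
    have := Exp18.le_trace (hu x) hv (hvf x)
    rw [hI] at this
    linarith
  have hn0 : 0 < n := lt_of_lt_of_le (by positivity) hn
  set C : ℝ := 40 * (d : ℝ) ^ 3 with hC
  have hnR : (0 : ℝ) < n := by exact_mod_cast hn0
  have hsn : 0 < Real.sqrt n := Real.sqrt_pos.2 hnR
  have hmom := moment d hd hI H.mat H.cont_mat hu H.μ hfix n hn
  have hN := OL.finrank_fixS H a1 n
  have hNre : ∫ x, (H.mat x).trace.re ^ n ∂H.μ = (Module.finrank ℂ (OL.fixS H a1 n) : ℝ) := by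
    have h1 : ∫ x, (H.mat x).trace ^ n ∂H.μ =
        ((∫ x, (H.mat x).trace.re ^ n ∂H.μ : ℝ) : ℂ) := by
      rw [← integral_complex_ofReal]
      refine integral_congr_ae (Eventually.of_forall fun x => ?_)
      show (H.mat x).trace ^ n = (((H.mat x).trace.re ^ n : ℝ) : ℂ)
      rw [Complex.ofReal_pow, ← htr]
    rw [h1] at hN
    exact_mod_cast hN.symm
  rw [hNre] at hmom
  set F : ℝ := (Module.finrank ℂ (OL.fixS H a1 n) : ℝ) with hF
  have hF0 : 0 ≤ F := Nat.cast_nonneg _
  have h1 : ∫ x, hT c (gT (H.mat x) c) * (H.mat x).trace ^ n ∂H.μ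
      - (Module.finrank ℂ (OL.fixS H a1 n) : ℂ) =
      ∫ x, (hT c (gT (H.mat x) c) - 1) * (H.mat x).trace ^ n ∂H.μ := by
    have i1 : Integrable (fun x => hT c (gT (H.mat x) c) * (H.mat x).trace ^ n) H.μ :=
      OL.integ H (hcw.mul (hct.pow n))
    have i2 : Integrable (fun x => (H.mat x).trace ^ n) H.μ := OL.integ H (hct.pow n)
    rw [hN, ← integral_sub i1 i2]
    refine integral_congr_ae (Eventually.of_forall fun x => ?_)
    show _ = _
    simp only
    ring
  have h2 : ‖∫ x, (hT c (gT (H.mat x) c) - 1) * (H.mat x).trace ^ n ∂H.μ‖ ≤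
      ∫ x, (l / Real.sqrt n) * (Real.sqrt (n * fro (H.mat x - 1)) * |(H.mat x).trace.re| ^ n)
        ∂H.μ := by
    refine (norm_integral_le_integral_norm _).trans ?_
    refine integral_mono ?_ ?_ fun x => ?_
    · exact (OL.integ H ((hcw.sub continuous_const).mul (hct.pow n))).norm
    · exact OL.integ H (continuous_const.mul
        (((continuous_const.mul hcf).sqrt).mul (hcχ.abs.pow n)))
    · show ‖(hT c (gT (H.mat x) c) - 1) * (H.mat x).trace ^ n‖ ≤ _
      rw [norm_mul, norm_pow, htr x, Complex.norm_real, Real.norm_eq_abs, Complex.ofReal_re,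
        ← mul_assoc]
      refine mul_le_mul_of_nonneg_right ?_ (pow_nonneg (abs_nonneg _) n)
      refine (coef_sub a1 hc (hu x)).trans (le_of_eq ?_)
      rw [fro_hs, Real.sqrt_mul hnR.le, Real.sqrt_sq (Exp18.hs_nonneg _)]
      field_simp
  rw [integral_const_mul, ← h1] at h2
  have h3 : (l / Real.sqrt n) * ∫ x, (Real.sqrt (n * fro (H.mat x - 1)) *
      |(H.mat x).trace.re| ^ n) ∂H.μ ≤ ε / 2 * F := by
    have h4 : 0 ≤ (l : ℝ) / Real.sqrt n := by positivity
    refine (mul_le_mul_of_nonneg_left hmom h4).trans ?_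
    have h5 : (l : ℝ) / Real.sqrt n * C ≤ ε / 2 := by
      rw [div_mul_eq_mul_div, div_le_iff₀ hsn, hC]
      linarith
    calc (l : ℝ) / Real.sqrt n * (C * F) = (l : ℝ) / Real.sqrt n * C * F := by ring
      _ ≤ ε / 2 * F := mul_le_mul_of_nonneg_right h5 hF0
  have h4 := norm_sub_norm_le (Module.finrank ℂ (OL.fixS H a1 n) : ℂ)
    (∫ x, hT c (gT (H.mat x) c) * (H.mat x).trace ^ n ∂H.μ)
  rw [norm_sub_rev, Complex.norm_natCast] at h4
  have h5 : (1 - ε / 2) * F ≤ ‖∫ x, hT c (gT (H.mat x) c) * (H.mat x).trace ^ n ∂H.μ‖ := by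
    linarith
  have h6 : F ≤ (1 + ε) * ((1 - ε / 2) * F) := by
    have h7 : 0 ≤ ε / 2 * (1 - ε) * F :=
      mul_nonneg (mul_nonneg (by linarith) (by linarith)) hF0
    nlinarith
  exact h6.trans (mul_le_mul_of_nonneg_left h5 (by linarith))

end O52

end Pool.Agent.Lib.MP_361a6f_ag.FL
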