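import Pool.Agent.Lib.MP_361a6f_ag.FL.O.T2
import Pool.Agent.Lib.MP_361a6f_ag.FL.O.Trq52

/-!
# The 51 per cent law for Tate classes, abstract form

`T` is a system of complex spaces of tensors that contains the members of the rational system `At`,
is closed under outer products and contractions, and on which `ψ` is nondegenerate in the length
`n`. If the complex span of the members of length `n` has more than one half of the dimension of
`T n`, `n` large, then in small lengths there is no numerically trivial element and `T` is the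
complex span of the members.
-/

open Filter Topology MeasureTheory Module

set_option autoImplicit false
set_option linter.unusedSectionVars false
set_option linter.unusedVariables false
set_option maxHeartbeats 400000

namespace Pool.Agent.Lib.MP_361a6f_ag.FL

namespace Tate52

open Qps OL

/-! ### Linear algebra -/

section lin

variable {E : Type*} [NormedAddCommGroup E] [NormedSpace ℂ E] [FiniteDimensional ℂ E]

/-- limits that exist on `A` and vanish on `R` -/
theorem gen_lim (A : Submodule ℂ E) (G : ℕ → E →ₗ[ℂ] E) (R : Submodule ℂ E) (hRA : R ≤ A)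
    (hR : ∀ y ∈ R, Tendsto (fun i => G i y) atTop (𝓝 0)) (Y : Submodule ℂ E)
    (hY : ∀ w ∈ Y, ∃ y ∈ A, Tendsto (fun i => G i y) atTop (𝓝 w)) :
    finrank ℂ R + finrank ℂ Y ≤ finrank ℂ A := by
  classical
  let b := finBasis ℂ Y
  have hch : ∀ l, ∃ y : A, Tendsto (fun i => G i (y : E)) atTop (𝓝 (b l : E)) := by
    intro l
    obtain ⟨y, hy, h⟩ := hY (b l) (b l).2
    exact ⟨⟨y, hy⟩, h⟩
  choose y hy using hch
  let s : Y →ₗ[ℂ] A := b.constr ℂ y
  have hs : ∀ w : Y, Tendsto (fun i => G i (s w : E)) atTop (𝓝 (w : E)) := by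
    intro w
    have h1 : (s w : E) = ∑ l, b.repr w l • (y l : E) := by
      have h2 : s w = ∑ l, b.repr w l • y l := by
        simp only [s, Basis.constr_apply_fintype, Basis.equivFun_apply]
      rw [h2, Submodule.coe_sum]
      rfl
    have h3 : (w : E) = ∑ l, b.repr w l • (b l : E) := by
      have h4 := congrArg Y.subtype (b.sum_repr w)
      rw [map_sum] at h4
      exact h4.symm
    have h5 : Tendsto (fun i => ∑ l, b.repr w l • G i (y l : E)) atTop
        (𝓝 (∑ l, b.repr w l • (b l : E))) :=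
      tendsto_finsetSum _ fun l _ => (hy l).const_smul _
    rw [h3]
    refine h5.congr fun i => ?_
    rw [h1, map_sum]
    exact Finset.sum_congr rfl fun l _ => (map_smul _ _ _).symm
  let φ : R × Y →ₗ[ℂ] A := (Submodule.inclusion hRA).coprod s
  have hφ : Function.Injective φ := by
    rw [injective_iff_map_eq_zero]
    rintro ⟨u, w⟩ h
    have h1 : (u : E) + (s w : E) = 0 := by
      have h2 := congrArg (fun x : A => (x : E)) h
      exact h2
    have h2 : Tendsto (fun i => G i (u : E) + G i (s w : E)) atTop (𝓝 (0 + (w : E))) :=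
      (hR u u.2).add (hs w)
    have h3 : ∀ i, G i (u : E) + G i (s w : E) = 0 := fun i => by rw [← map_add, h1, map_zero]
    have h4 : (0 : E) + (w : E) = 0 :=
      tendsto_nhds_unique (h2.congr h3) tendsto_const_nhds
    rw [zero_add] at h4
    have h5 : w = 0 := Subtype.ext h4
    rw [h5, map_zero] at h1
    have h6 : (u : E) = 0 := by
      have h7 : ((0 : A) : E) = 0 := rfl
      rwa [h7, add_zero] at h1
    exact Prod.ext (Subtype.ext h6) h5
  have h := LinearMap.finrank_le_finrank_of_injective hφ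
  rwa [finrank_prod] at h

/-- the elements of `A` whose limit vanishes -/
theorem gen_ker (A Y : Submodule ℂ E) (G : ℕ → E →ₗ[ℂ] E)
    (h : ∀ y ∈ A, ∃ w ∈ Y, Tendsto (fun i => G i y) atTop (𝓝 w)) :
    ∃ R ≤ A, (∀ y ∈ R, Tendsto (fun i => G i y) atTop (𝓝 0)) ∧
      finrank ℂ A ≤ finrank ℂ R + finrank ℂ Y := by
  have h' : ∀ y : A, ∃ w : Y, Tendsto (fun i => G i (y : E)) atTop (𝓝 (w : E)) := by
    intro y
    obtain ⟨w, hw, h1⟩ := h y y.2
    exact ⟨⟨w, hw⟩, h1⟩
  choose f hf using h'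
  let ℓ : A →ₗ[ℂ] Y :=
    { toFun := f
      map_add' := fun x y => by
        apply Subtype.ext
        refine tendsto_nhds_unique (hf (x + y)) ?_
        refine ((hf x).add (hf y)).congr fun i => ?_
        exact (map_add _ _ _).symm
      map_smul' := fun c x => by
        apply Subtype.ext
        refine tendsto_nhds_unique (hf (c • x)) ?_
        refine ((hf x).const_smul c).congr fun i => ?_
        exact (map_smul _ _ _).symm }
  refine ⟨(LinearMap.ker ℓ).map A.subtype, Submodule.map_subtype_le _ _, ?_, ?_⟩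
  · rintro _ ⟨y, hy, rfl⟩
    have h1 : f y = 0 := hy
    have h2 := hf y
    rw [h1] at h2
    exact h2
  · have h1 := LinearMap.finrank_range_add_finrank_ker ℓ
    have h2 : finrank ℂ (LinearMap.range ℓ) ≤ finrank ℂ Y := Submodule.finrank_le _
    have h3 : finrank ℂ ((LinearMap.ker ℓ).map A.subtype) = finrank ℂ (LinearMap.ker ℓ) :=
      Submodule.finrank_map_subtype_eq _ _
    omega

end lin

section ann

variable {V : Type*} [AddCommGroup V] [Module ℂ V] [FiniteDimensional ℂ V]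

/-- the dimension of the orthogonal space in a space with a nondegenerate form -/
theorem ann (B : V →ₗ[ℂ] V →ₗ[ℂ] ℂ) (T C W : Submodule ℂ V) (hC : C ≤ T) (hW : W ≤ T)
    (hnd : ∀ u ∈ T, (∀ v ∈ T, B u v = 0) → u = 0) (h : ∀ u ∈ W, ∀ v ∈ C, B u v = 0) :
    finrank ℂ W + finrank ℂ C ≤ finrank ℂ T := by
  let β : T →ₗ[ℂ] Dual ℂ T := (T.subtype.dualMap.comp B).comp T.subtype
  have hβ : ∀ u v : T, β u v = B u v := fun u v => rfl
  have hinj : Function.Injective β := by
    rw [injective_iff_map_eq_zero]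
    intro u hu
    apply Subtype.ext
    refine hnd u u.2 fun v hv => ?_
    have h1 := LinearMap.congr_fun hu ⟨v, hv⟩
    exact h1
  have hsur : Function.Surjective β :=
    (LinearMap.injective_iff_surjective_of_finrank_eq_finrank
      (Subspace.dual_finrank_eq (K := ℂ) (V := T)).symm).1 hinj
  let ρ : Dual ℂ T →ₗ[ℂ] Dual ℂ C := (Submodule.inclusion hC).dualMap
  have hρ : Function.Surjective ρ :=
    LinearMap.dualMap_surjective_of_injective (Submodule.inclusion_injective hC)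
  let κ : T →ₗ[ℂ] Dual ℂ C := ρ.comp β
  have hκ : Function.Surjective κ := hρ.comp hsur
  have h1 := LinearMap.finrank_range_add_finrank_ker κ
  have h2 : finrank ℂ (LinearMap.range κ) = finrank ℂ C := by
    rw [LinearMap.range_eq_top.2 hκ, finrank_top, Subspace.dual_finrank_eq]
  have h3 : finrank ℂ W ≤ finrank ℂ (LinearMap.ker κ) := by
    have h4 : W ≤ (LinearMap.ker κ).map T.subtype := by
      intro w hw
      refine ⟨⟨w, hW hw⟩, ?_, rfl⟩
      rw [SetLike.mem_coe, LinearMap.mem_ker]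
      ext v
      exact h w hw v v.2
    have h5 := Submodule.finrank_mono h4
    rwa [Submodule.finrank_map_subtype_eq] at h5
  omega

end ann

/-! ### Contractions and the form -/

section ten

variable {I Λ : Type} [Fintype I] [DecidableEq I] [DecidableEq Λ] {D : Dat I Λ}
  {At : (L : ℕ) → Ten I L → Prop}

theorem sg_conj {L : ℕ} (w : Fin L → I) : (starRingEnd ℂ) (sg D w) = sg D w := by
  unfold sg
  rw [map_prod]
  refine Finset.prod_congr rfl fun i _ => ?_
  rcases D.s_val (w i) with h | h <;> simp [h]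

theorem sg_sq {L : ℕ} (w : Fin L → I) : sg D w * sg D w = 1 := by
  unfold sg
  rw [← Finset.prod_mul_distrib]
  refine Finset.prod_eq_one fun i _ => ?_
  rcases D.s_val (w i) with h | h <;> simp [h]

theorem sg_append {p q : ℕ} (a : Fin p → I) (b : Fin q → I) :
    sg D (Fin.append a b) = sg D a * sg D b := by
  unfold sg
  rw [Fin.prod_univ_add]
  simp only [Fin.append_left, Fin.append_right]

theorem tau_append {p q : ℕ} (a : Fin p → I) (b : Fin q → I) :
    D.τ ∘ Fin.append a b = Fin.append (D.τ ∘ a) (D.τ ∘ b) := by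
  funext i
  refine Fin.addCases (fun i => ?_) (fun i => ?_) i
  · simp only [Function.comp_apply, Fin.append_left]
  · simp only [Function.comp_apply, Fin.append_right]

theorem tau_tau {L : ℕ} (w : Fin L → I) : D.τ ∘ (D.τ ∘ w) = w := by
  funext i
  exact D.τ_τ _

theorem sg_even {L : ℕ} {u : Ten I L} (hu : jT D (jT D u) = u) (w : Fin L → I) :
    sg D (D.τ ∘ w) * u w = sg D w * u w := by
  have h1 := congrFun hu w
  simp only [jT] at h1
  rw [tau_tau, map_mul, Complex.conj_conj, sg_conj] at h1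
  linear_combination (sg D w) * h1 - (sg D (D.τ ∘ w) * u w) * sg_sq (D := D) w

/-- the words of length `L`, reflected -/
def tauE (D : Dat I Λ) (L : ℕ) : (Fin L → I) ≃ (Fin L → I) where
  toFun w := D.τ ∘ w
  invFun w := D.τ ∘ w
  left_inv := tau_tau
  right_inv := tau_tau

theorem psi_outer {p q : ℕ} (f : Ten I p) (u : Ten I q) (φ : Ten I (p + q)) :
    psiT D (outer f u) φ = ∑ w : Fin p → I, ∑ w' : Fin q → I,
      sg D w * sg D w' * (f w * u w' * φ (Fin.append (D.τ ∘ w) (D.τ ∘ w'))) := by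
  unfold psiT
  rw [← Equiv.sum_comp (Fin.appendEquiv p q)]
  rw [Fintype.sum_prod_type]
  refine Finset.sum_congr rfl fun w _ => Finset.sum_congr rfl fun w' _ => ?_
  have h1 : (Fin.appendEquiv p q) (w, w') = Fin.append w w' := rfl
  rw [h1, sg_append, tau_append]
  simp only [outer, Fin.append_left, Fin.append_right]

theorem psi_cont {p q : ℕ} (f : Ten I p) (u : Ten I q) (hu : jT D (jT D u) = u)
    (φ : Ten I (p + q)) : psiT D (cont D f φ) u = psiT D (outer f u) φ := by
  rw [psi_outer, Finset.sum_comm]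
  unfold psiT
  rw [← Equiv.sum_comp (tauE D q)]
  refine Finset.sum_congr rfl fun w' _ => ?_
  have h1 : (tauE D q) w' = D.τ ∘ w' := rfl
  rw [h1, tau_tau]
  simp only [cont]
  rw [Finset.sum_mul, Finset.mul_sum]
  refine Finset.sum_congr rfl fun w _ => ?_
  linear_combination (sg D w * f w * φ (Fin.append (D.τ ∘ w) (D.τ ∘ w'))) * sg_even hu w'

theorem append_flip {p q : ℕ} (a : Fin p → I) (b : Fin q → I) :
    (Fin.append b a) ∘ (finAddFlip : Fin (p + q) ≃ Fin (q + p)) = Fin.append a b := by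
  funext i
  refine Fin.addCases (fun i => ?_) (fun i => ?_) i
  · rw [Function.comp_apply, finAddFlip_apply_castAdd, Fin.append_right, Fin.append_left]
  · rw [Function.comp_apply, finAddFlip_apply_natAdd, Fin.append_right, Fin.append_left]

theorem psi_cont' {p q : ℕ} (f : Ten I p) (u : Ten I q) (φ : Ten I (p + q)) :
    psiT D f (cont D u (fun v : Fin (q + p) → I => φ (v ∘ finAddFlip)))
      = psiT D (outer f u) φ := by
  rw [psi_outer]
  unfold psiT
  refine Finset.sum_congr rfl fun w _ => ?_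
  simp only [cont]
  rw [Finset.mul_sum, Finset.mul_sum]
  refine Finset.sum_congr rfl fun w' _ => ?_
  rw [append_flip]
  ring

theorem at_equiv (S : ASys D At) {L L' : ℕ} (e : Fin L ≃ Fin L') {u : Ten I L} (hu : At L u) :
    At L' (fun v => u (v ∘ e)) := by
  obtain rfl : L = L' := by simpa using Fintype.card_congr e
  exact S.perm L e u hu

theorem ca_flip (S : ASys D At) {p q : ℕ} {φ : Ten I (p + q)} (hφ : φ ∈ CA At (p + q)) :
    (fun v : Fin (q + p) → I => φ (v ∘ finAddFlip)) ∈ CA At (q + p) := by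
  unfold CA at hφ ⊢
  induction hφ using Submodule.span_induction with
  | mem u hu => exact Submodule.subset_span (at_equiv S _ hu)
  | zero => exact zero_mem _
  | add a b _ _ ha hb => exact add_mem ha hb
  | smul c a _ ha => exact Submodule.smul_mem _ c ha

theorem ca_even (a1 : Alg1) (S : ASys D At) {L : ℕ} {u : Ten I L} (hu : u ∈ CA At L) :
    jT D (jT D u) = u := by
  unfold CA at hu
  induction hu using Submodule.span_induction with
  | mem u hu => exact S.even L u hu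
  | zero =>
    have h3 := a1.jT_smul D 0 (0 : Ten I L)
    rw [zero_smul, map_zero, zero_smul] at h3
    rw [h3, h3]
  | add a b _ _ ha hb => rw [a1.jT_add, a1.jT_add, ha, hb]
  | smul c a _ ha => rw [a1.jT_smul, a1.jT_smul, ha, Complex.conj_conj]

/-- a tensor that is orthogonal to the complex span stays so after contraction -/
theorem orth_cont (a1 : Alg1) (S : ASys D At) {p q : ℕ} {f : Ten I p}
    (hf : ∀ w ∈ CA At p, psiT D f w = 0) {φ : Ten I (p + q)} (hφ : φ ∈ CA At (p + q))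
    {u : Ten I q} (hu : u ∈ CA At q) : psiT D (cont D f φ) u = 0 := by
  rw [psi_cont f u (ca_even a1 S hu), ← psi_cont']
  exact hf _ (T2A.cont_mem S q p u hu _ (ca_flip S hφ))

/-- the complex span is generated by the real span -/
theorem decomp {L : ℕ} {u : Ten I L} (hu : u ∈ CA At L) :
    ∃ a ∈ RA At L, ∃ b ∈ RA At L, u = a + Complex.I • b := by
  unfold CA at hu
  induction hu using Submodule.span_induction with
  | mem u hu => exact ⟨u, Submodule.subset_span hu, 0, zero_mem _, by rw [smul_zero, add_zero]⟩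
  | zero => exact ⟨0, zero_mem _, 0, zero_mem _, by rw [smul_zero, add_zero]⟩
  | add x y _ _ hx hy =>
    obtain ⟨a, ha, b, hb, rfl⟩ := hx
    obtain ⟨a', ha', b', hb', rfl⟩ := hy
    exact ⟨a + a', add_mem ha ha', b + b', add_mem hb hb', by rw [smul_add]; abel⟩
  | smul c x _ hx =>
    obtain ⟨a, ha, b, hb, rfl⟩ := hx
    refine ⟨c.re • a - c.im • b, sub_mem (Submodule.smul_mem _ _ ha) (Submodule.smul_mem _ _ hb),
      c.im • a + c.re • b, add_mem (Submodule.smul_mem _ _ ha) (Submodule.smul_mem _ _ hb), ?_⟩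
    simp only [Qps.real_smul]
    funext w
    simp only [Pi.add_apply, Pi.sub_apply, Pi.smul_apply, smul_eq_mul]
    conv_lhs => rw [← Complex.re_add_im c]
    linear_combination ((c.im : ℂ) * b w) * Complex.I_mul_I

/-- without numerically trivial elements `ψ` is nondegenerate on the complex span -/
theorem rad_zero (S : ASys D At) {L : ℕ} (h : numA D At L = ⊥) {u : Ten I L} (hu : u ∈ CA At L)
    (h0 : ∀ w ∈ CA At L, psiT D u w = 0) : u = 0 := by
  obtain ⟨a, ha, b, hb, rfl⟩ := decomp hu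
  have key : ∀ w ∈ RA At L, psiT D a w = 0 ∧ psiT D b w = 0 := by
    intro w hw
    have h1 := h0 w (Submodule.span_subset_span ℝ ℂ _ hw)
    have hx := T2A.psi_im S ha hw
    have hy := T2A.psi_im S hb hw
    rw [← psiL_apply, map_add, map_smul, LinearMap.add_apply, LinearMap.smul_apply, psiL_apply,
      psiL_apply, smul_eq_mul] at h1
    have hre := congrArg Complex.re h1
    have him := congrArg Complex.im h1
    rw [Complex.add_re, Complex.mul_re, Complex.I_re, Complex.I_im, zero_mul, one_mul, hy,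
      sub_zero, add_zero, Complex.zero_re] at hre
    rw [Complex.add_im, Complex.mul_im, Complex.I_re, Complex.I_im, zero_mul, one_mul, hx,
      zero_add, zero_add, Complex.zero_im] at him
    exact ⟨Complex.ext hre hx, Complex.ext him hy⟩
  have h1 : a ∈ numA D At L := ⟨ha, fun w hw => (key w hw).1⟩
  have h2 : b ∈ numA D At L := ⟨hb, fun w hw => (key w hw).2⟩
  rw [h, Submodule.mem_bot] at h1 h2
  rw [h1, h2, smul_zero, add_zero]

/-- the orthogonal projection to the complex span -/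
theorem split (S : ASys D At) {L : ℕ} (h : numA D At L = ⊥) (f : Ten I L) :
    ∃ f₁ ∈ CA At L, ∀ w ∈ CA At L, psiT D (f - f₁) w = 0 := by
  let C := CA At L
  let β : C →ₗ[ℂ] Dual ℂ C := (C.subtype.dualMap.comp (psiL D L)).comp C.subtype
  have hinj : Function.Injective β := by
    rw [injective_iff_map_eq_zero]
    intro u hu
    apply Subtype.ext
    exact rad_zero S h u.2 fun w hw => LinearMap.congr_fun hu ⟨w, hw⟩
  have hsur : Function.Surjective β :=
    (LinearMap.injective_iff_surjective_of_finrank_eq_finrank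
      (Subspace.dual_finrank_eq (K := ℂ) (V := C)).symm).1 hinj
  obtain ⟨f₁, hf₁⟩ := hsur (C.subtype.dualMap (psiL D L f))
  refine ⟨f₁, f₁.2, fun w hw => ?_⟩
  have h1 := LinearMap.congr_fun hf₁ ⟨w, hw⟩
  have h2 : psiT D (f₁ : Ten I L) w = psiT D f w := h1
  rw [← psiL_apply, map_sub, LinearMap.sub_apply, psiL_apply, psiL_apply, h2, sub_self]

end ten

/-! ### One level -/

section level

variable {I Λ β : Type} [Fintype I] [DecidableEq I] [DecidableEq Λ] [Fintype β] {lb : β → ℕ}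
  {D : Dat I Λ} {At : (L : ℕ) → Ten I L → Prop}
  {b : Tup I lb} {H : HMb D b} {m : ℕ} {g : ℕ → Matrix I I ℂ} {k : Matrix I I ℂ}

/-- a rescaled limit of norm one; the scale tends to `0` or is bounded below -/
theorem scaled (a1 : Alg1) (hg : ∀ j, IsG D (g j)) {r : ℕ} {z : Ten I r} (hz0 : z ≠ 0) :
    ∃ (φ : ℕ → ℕ) (e : ℕ → ℂ) (c : Ten I r), StrictMono φ ∧ (∀ i, e i ≠ 0) ∧ hT c c = 1 ∧
      Tendsto (fun i => (e i)⁻¹ • gT (g (φ i)) z) atTop (𝓝 c) ∧
      (Tendsto e atTop (𝓝 0) ∨ ∃ B : ℝ, ∀ i, ‖(e i)⁻¹‖ ≤ B) := by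
  let E := ORng.toE I r
  let Ec : Ten I r ≃L[ℂ] EuclideanSpace ℂ (Fin r → I) := E.toContinuousLinearEquiv
  have hne : ∀ j, E (gT (g j) z) ≠ 0 := by
    intro j h
    have h1 : gT (g j) z = 0 := by
      have := congrArg E.symm h
      rwa [LinearEquiv.symm_apply_apply, map_zero] at this
    apply hz0
    have h2 : gT (g j)⁻¹ (gT (g j) z) = 0 := by
      rw [h1]
      exact YPi.gT_zero a1 _
    rwa [← a1.gT_mul, (a1.G_inv D _ (hg j)).2.2, a1.gT_one] at h2
  -- the first subsequence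
  have hdic : ∃ φ₁ : ℕ → ℕ, StrictMono φ₁ ∧
      (Tendsto (fun i => ‖E (gT (g (φ₁ i)) z)‖) atTop (𝓝 0) ∨
        ∃ c₀ : ℝ, 0 < c₀ ∧ ∀ i, c₀ ≤ ‖E (gT (g (φ₁ i)) z)‖) := by
    by_cases h : ∃ c₀ : ℝ, 0 < c₀ ∧ ∀ᶠ j in atTop, c₀ ≤ ‖E (gT (g j) z)‖
    · obtain ⟨c₀, hc₀, h⟩ := h
      obtain ⟨N, hN⟩ := eventually_atTop.1 h
      exact ⟨fun i => i + N, fun i j hij => Nat.add_lt_add_right hij N,
        Or.inr ⟨c₀, hc₀, fun i => hN _ (Nat.le_add_left N i)⟩⟩
    · push Not at h
      have h1 : ∀ n : ℕ, ∃ᶠ j in atTop, ‖E (gT (g j) z)‖ < 1 / ((n : ℝ) + 1) := by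
        intro n
        exact h _ (by positivity)
      obtain ⟨φ₁, hφ₁, h2⟩ := extraction_forall_of_frequently h1
      refine ⟨φ₁, hφ₁, Or.inl ?_⟩
      exact squeeze_zero (fun i => norm_nonneg _) (fun i => (h2 i).le)
        tendsto_one_div_add_atTop_nhds_zero_nat
  obtain ⟨φ₁, hφ₁, hdic⟩ := hdic
  let x : ℕ → EuclideanSpace ℂ (Fin r → I) := fun j =>
    ((‖E (gT (g (φ₁ j)) z)‖ : ℂ))⁻¹ • E (gT (g (φ₁ j)) z)
  have hx : ∀ j, x j ∈ Metric.sphere (0 : EuclideanSpace ℂ (Fin r → I)) 1 := by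
    intro j
    rw [mem_sphere_zero_iff_norm, norm_smul, norm_inv, Complex.norm_real, norm_norm]
    exact inv_mul_cancel₀ (norm_ne_zero_iff.2 (hne _))
  obtain ⟨c', hc', φ, hφ, hlim⟩ := (isCompact_sphere (0 : EuclideanSpace ℂ (Fin r → I))
    1).tendsto_subseq hx
  refine ⟨fun i => φ₁ (φ i), fun i => (‖E (gT (g (φ₁ (φ i))) z)‖ : ℂ), E.symm c',
    hφ₁.comp hφ, fun i => ?_, ?_, ?_, ?_⟩
  · exact Complex.ofReal_ne_zero.2 (norm_ne_zero_iff.2 (hne _))
  · rw [ORng.hT_E]
    have h1 : ORng.toE I r (E.symm c') = c' := LinearEquiv.apply_symm_apply _ _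
    rw [h1, inner_self_eq_norm_sq_to_K, mem_sphere_zero_iff_norm.1 hc']
    norm_num
  · have h1 := (Ec.symm.continuous.tendsto c').comp hlim
    refine h1.congr fun i => ?_
    change Ec.symm (((‖E (gT (g (φ₁ (φ i))) z)‖ : ℂ))⁻¹ • E (gT (g (φ₁ (φ i))) z)) = _
    rw [map_smul]
    exact congrArg _ (Ec.symm_apply_apply _)
  · rcases hdic with h | ⟨c₀, hc₀, h⟩
    · left
      have h2 := (Complex.continuous_ofReal.tendsto 0).comp (h.comp hφ.tendsto_atTop)
      rw [Complex.ofReal_zero] at h2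
      exact h2
    · right
      refine ⟨c₀⁻¹, fun i => ?_⟩
      rw [norm_inv, Complex.norm_real, norm_norm]
      exact inv_anti₀ hc₀ (h _)

/-- the layers in a system `A` that contains the complex spans -/
theorem lay (a1 : Alg1) (a2 : Alg2) (S : ASys D At) (L : LevData D At m H g k)
    {A : (L : ℕ) → Submodule ℂ (Ten I L)} (hCA : ∀ L, CA At L ≤ A L)
    (ho : ∀ p q, ∀ u ∈ A p, ∀ v ∈ A q, outer u v ∈ A (p + q))
    (hct : ∀ p c, ∀ u ∈ A p, ∀ v ∈ CA At (p + c), cont D u v ∈ A c) {r : ℕ} {z : Ten I r}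
    (hz : z ∈ A r) {φ : ℕ → ℕ} (hφ : StrictMono φ) {e : ℕ → ℂ} (he0 : ∀ i, e i ≠ 0)
    (he : Tendsto e atTop (𝓝 0)) {c : Ten I r} (hc : hT c c = 1)
    (hlim : Tendsto (fun i => (e i)⁻¹ • gT (g (φ i)) z) atTop (𝓝 c)) {v : Ten I 1} (hv0 : v ≠ 0)
    (hvf : v ∈ fixS H a1 1) {K : ℝ} (hK : 0 ≤ K) (M n : ℕ) (hm : n + r * M ≤ m)
    (htr : ∀ j < M, T2A.TrqAt a1 D K (r * j) n) :
    (M : ℝ) * finrank ℂ (fixS H a1 n) ≤ K * finrank ℂ (A n) := by
  have h1 : (fun _ => (1 : ℂ)) ∈ A 0 := hCA 0 (Submodule.subset_span S.one)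
  let gl : ℕ → Ten I n →ₗ[ℂ] Ten I n := fun i =>
    { toFun := gT (g (φ i)), map_add' := a1.gT_add (g (φ i)),
      map_smul' := a1.gT_smul (g (φ i)) }
  have hlay : ∑ j : Fin M, finrank ℂ ((fixS H a1 (r * j + n)).map (Ind.contL D (Ind.pw c j) n))
      ≤ finrank ℂ (A n) := by
    refine Ind.ind (A n) gl e he0 he M
      (fun j => (fixS H a1 (r * j + n)).map (Ind.contL D (Ind.pw c j) n)) ?_
    rintro j w ⟨φ₀, hφ₀, rfl⟩
    have hle : r * j + n ≤ m := by
      have := Nat.mul_le_mul_left r j.2.le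
      omega
    obtain ⟨y, hy, hy'⟩ := L.surj (r * j + n) hle φ₀ hφ₀
    exact ⟨cont D (Ind.pw z j) y, hct _ _ _ (Ind.pw_mem h1 ho hz j) _ hy,
      Ind.lim D a2 (fun i => L.G (φ i)) hlim j n (hy'.comp hφ.tendsto_atTop)⟩
  have hterm : ∀ j : Fin M, (finrank ℂ (fixS H a1 n) : ℝ)
      ≤ K * (finrank ℂ ((fixS H a1 (r * j + n)).map (Ind.contL D (Ind.pw c j) n)) : ℝ) := by
    intro j
    have hcj : hT (Ind.pw c j) (Ind.pw c (j : ℕ)) = 1 := by
      rw [Ind.hT_pw, hc, one_pow]
    have h2 := htr j j.2 β inferInstance lb b H v hv0 hvf (Ind.pw c j) hcj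
    have h3 := ORng.rng a1 a2 H (Ind.pw c (j : ℕ)) hcj
      ((fixS H a1 (r * j + n)).map (Ind.contL D (Ind.pw c j) n))
      (fun φ₀ hφ₀ => ⟨φ₀, hφ₀, rfl⟩)
    exact h2.trans (mul_le_mul_of_nonneg_left h3 hK)
  have h2 := Finset.sum_le_sum fun j (_ : j ∈ (Finset.univ : Finset (Fin M))) => hterm j
  rw [Finset.sum_const, Finset.card_univ, Fintype.card_fin, nsmul_eq_mul, ← Finset.mul_sum] at h2
  have h3 : (∑ j : Fin M, (finrank ℂ ((fixS H a1 (r * j + n)).map
      (Ind.contL D (Ind.pw c j) n)) : ℝ)) ≤ (finrank ℂ (A n) : ℝ) := by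
    exact_mod_cast hlay
  exact h2.trans (mul_le_mul_of_nonneg_left h3 hK)

end level

section main

variable {I Λ : Type} [Fintype I] [DecidableEq I] [DecidableEq Λ]
  {D : Dat I Λ} {At : (L : ℕ) → Ten I L → Prop}

/-- **One level.** -/
theorem level (a1 : Alg1) (a2 : Alg2) (ab : AlgB) (cpt : CptbStatement) (mn : MinbStatement)
    (l1 : L1bStatement) (l2 : L2bStatement) (S : ASys D At)
    (hu : ∃ u ∈ RA At 1, ∃ w ∈ RA At 1, psiT D u w ≠ 0)
    {T : (L : ℕ) → Submodule ℂ (Ten I L)} (hT' : ∀ L, CA At L ≤ T L)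
    (ho : ∀ p q, ∀ u ∈ T p, ∀ v ∈ T q, outer u v ∈ T (p + q))
    (hct : ∀ p c, ∀ u ∈ T p, ∀ v ∈ CA At (p + c), cont D u v ∈ T c) {r n : ℕ}
    (hnd : ∀ u ∈ T n, (∀ v ∈ T n, psiT D u v = 0) → u = 0) {K K' : ℝ} (hK : 0 ≤ K)
    (hK' : 0 ≤ K') (M : ℕ) (htr : ∀ j < M, T2A.TrqAt a1 D K (r * j) n)
    (htr1 : T2A.TrqAt a1 D K' r n) :
    ∃ F : ℕ, F ≤ finrank ℂ (CA At n) ∧
      2 * finrank ℂ (CA At n) ≤ finrank ℂ (T n) + F ∧
      ((∃ z ∈ numA D At r, z ≠ 0) → (M : ℝ) * F ≤ K * finrank ℂ (CA At n)) ∧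
      (numA D At r = ⊥ → (∃ f ∈ T r, f ∉ CA At r) → (M : ℝ) * F ≤ K * finrank ℂ (T n) ∨
        K' * (2 * finrank ℂ (CA At n)) + F ≤ K' * (finrank ℂ (T n) + F)) := by
  obtain ⟨β, _, lb, b, H, g, k, L⟩ := LevO.lev a1 a2 ab cpt mn l1 l2 S (n + r * M + r + 1)
  -- a fixed vector
  obtain ⟨u, hu1, w, hw1, hu2⟩ := hu
  obtain ⟨v, hv, hvfix⟩ := L.lim 1 (by omega) u (Submodule.span_subset_span ℝ ℂ _ hu1)
  obtain ⟨v', hv', -⟩ := L.lim 1 (by omega) w (Submodule.span_subset_span ℝ ℂ _ hw1)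
  have hv0 : v ≠ 0 := by
    rintro rfl
    have h1 := L.psi 1 u w 0 v' hv hv'
    rw [← psiL_apply, map_zero, LinearMap.zero_apply] at h1
    exact hu2 h1.symm
  have hvf : v ∈ fixS H a1 1 := hvfix
  let gl : ℕ → Ten I n →ₗ[ℂ] Ten I n := fun i =>
    { toFun := gT (g i), map_add' := a1.gT_add (g i), map_smul' := a1.gT_smul (g i) }
  obtain ⟨R, hRC, hR0, hRdim⟩ := gen_ker (CA At n) (fixS H a1 n) gl (fun y hy => by
    obtain ⟨v, hv, hf⟩ := L.lim n (by omega) y hy
    exact ⟨v, hf, hv⟩)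
  have hRpsi : ∀ y ∈ R, ∀ w ∈ CA At n, psiT D y w = 0 := by
    intro y hy w hw
    obtain ⟨w', hw', -⟩ := L.lim n (by omega) w hw
    have h1 := L.psi n y w 0 w' (hR0 y hy) hw'
    rw [← psiL_apply, map_zero, LinearMap.zero_apply] at h1
    exact h1.symm
  have hFa : finrank ℂ (fixS H a1 n) ≤ finrank ℂ (CA At n) := by
    have h1 := gen_lim (CA At n) gl ⊥ bot_le (fun y hy => by
      rw [Submodule.mem_bot] at hy
      subst hy
      exact LevO.lim_zero a1) (fixS H a1 n) (fun w hw => by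
        obtain ⟨y, hy, hy'⟩ := L.surj n (by omega) w hw
        exact ⟨y, hy, hy'⟩)
    rwa [finrank_bot, zero_add] at h1
  have hiso := ann (psiL D n) (T n) (CA At n) R (hT' n) (hRC.trans (hT' n)) hnd hRpsi
  refine ⟨finrank ℂ (fixS H a1 n), hFa, by omega, ?_, ?_⟩
  · rintro ⟨z, hz, hz0⟩
    obtain ⟨φ, e, c, hφ, he0, he, hc, hlim⟩ := T2A.exists_scaled a1 L.G hz0
      (T2A.num_lim a1 S L (by omega) hz)
    exact lay a1 a2 S L (A := fun L => CA At L) (fun _ => le_rfl)
      (fun p q u hu v hv => T2A.outer_mem S p q u hu v hv)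
      (fun p c u hu v hv => T2A.cont_mem S p c u hu v hv)
      (Submodule.span_subset_span ℝ ℂ _ hz.1) hφ he0 he hc hlim hv0 hvf hK M n (by omega) htr
  · rintro hD ⟨f, hfT, hfC⟩
    obtain ⟨f₁, hf₁, hf₂⟩ := split S hD f
    have hz0 : f - f₁ ≠ 0 := by
      intro h
      rw [sub_eq_zero] at h
      exact hfC (h ▸ hf₁)
    have hzT : f - f₁ ∈ T r := sub_mem hfT (hT' r hf₁)
    obtain ⟨φ, e, c, hφ, he0, hc, hlim, hor⟩ := scaled a1 L.G hz0
    rcases hor with he | ⟨B, hB⟩
    · left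
      exact lay a1 a2 S L hT' ho hct hzT hφ he0 he hc hlim hv0 hvf hK M n (by omega) htr
    · right
      -- the orthogonal space of the members in `T n`
      let W : Submodule ℂ (Ten I n) :=
        { carrier := {y | y ∈ T n ∧ ∀ w ∈ CA At n, psiT D y w = 0}
          add_mem' := by
            rintro a b ⟨ha, ha'⟩ ⟨hb, hb'⟩
            refine ⟨add_mem ha hb, fun w hw => ?_⟩
            rw [← psiL_apply, map_add, LinearMap.add_apply, psiL_apply, psiL_apply, ha' w hw,
              hb' w hw, add_zero]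
          zero_mem' := ⟨zero_mem _, fun w _ => by
            rw [← psiL_apply, map_zero, LinearMap.zero_apply]⟩
          smul_mem' := by
            rintro r a ⟨ha, ha'⟩
            refine ⟨Submodule.smul_mem _ r ha, fun w hw => ?_⟩
            rw [← psiL_apply, map_smul, LinearMap.smul_apply, psiL_apply, ha' w hw, smul_zero] }
      let G : ℕ → Ten I n →ₗ[ℂ] Ten I n := fun i => (e i)⁻¹ • gl (φ i)
      let Y : Submodule ℂ (Ten I n) := (fixS H a1 (r + n)).map (Ind.contL D c n)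
      have hW := gen_lim W G R (fun y hy => ⟨hT' n (hRC hy), hRpsi y hy⟩) (fun y hy => by
          have h1 : Tendsto (fun i => gl (φ i) y) atTop (𝓝 0) :=
            (hR0 y hy).comp hφ.tendsto_atTop
          have h2 : Tendsto (fun i => B * ‖gl (φ i) y‖) atTop (𝓝 0) := by
            have h3 := (h1.norm).const_mul B
            rwa [norm_zero, mul_zero] at h3
          refine squeeze_zero_norm (fun i => ?_) h2
          change ‖(e i)⁻¹ • gl (φ i) y‖ ≤ _
          rw [norm_smul]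
          exact mul_le_mul_of_nonneg_right (hB i) (norm_nonneg _)) Y (by
          rintro _ ⟨φ₀, hφ₀, rfl⟩
          obtain ⟨y, hy, hy'⟩ := L.surj (r + n) (by omega) φ₀ hφ₀
          refine ⟨cont D (f - f₁) y, ⟨hct r n _ hzT y hy, fun w hw =>
            orth_cont a1 S hf₂ hy hw⟩, ?_⟩
          have h1 := ((Ind.cont_cont D (p := r) (c := n)).tendsto (c, φ₀)).comp
            (hlim.prodMk_nhds (hy'.comp hφ.tendsto_atTop))
          refine h1.congr fun i => ?_
          change cont D ((e i)⁻¹ • gT (g (φ i)) (f - f₁)) (gT (g (φ i)) y)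
            = (e i)⁻¹ • gT (g (φ i)) (cont D (f - f₁) y)
          rw [Ind.cont_smul_left, a2.cont_gT D (g (φ i)) _ _ (L.G (φ i))])
      have hWT := ann (psiL D n) (T n) (CA At n) W (hT' n) (fun y hy => hy.1) hnd
        (fun y hy => hy.2)
      have h2 := htr1 β inferInstance lb b H v hv0 hvf c hc
      have h3 := ORng.rng a1 a2 H c hc Y (fun φ₀ hφ₀ => ⟨φ₀, hφ₀, rfl⟩)
      have h4 : (finrank ℂ (fixS H a1 n) : ℝ) ≤ K' * finrank ℂ Y :=
        h2.trans (mul_le_mul_of_nonneg_left h3 hK')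
      have h5 : (2 * finrank ℂ (CA At n) : ℝ) + finrank ℂ Y ≤
          finrank ℂ (T n) + finrank ℂ (fixS H a1 n) := by
        have h6 : 2 * finrank ℂ (CA At n) + finrank ℂ Y ≤
            finrank ℂ (T n) + finrank ℂ (fixS H a1 n) := by omega
        exact_mod_cast h6
      have h6 := mul_le_mul_of_nonneg_left h5 hK'
      rw [mul_add] at h6
      linarith

end main

/-- **Half or all**, abstract form: if the members of length `n` span more than
`1/2 + 160 (r + 1) d³ n^(-1/2)` of `T n`, then there is no numerically trivial element and `T` is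
the span of the members in the lengths up to `r`. -/
theorem tateR (a1 : Alg1) (a2 : Alg2) (ab : AlgB) (cpt : CptbStatement) (mn : MinbStatement)
    (l1 : L1bStatement) (l2 : L2bStatement) (r : ℕ) {I Λ : Type} [Fintype I] [DecidableEq I]
    [DecidableEq Λ] {D : Dat I Λ} {At : (L : ℕ) → Ten I L → Prop} (S : ASys D At)
    (hu : ∃ u ∈ RA At 1, ∃ w ∈ RA At 1, psiT D u w ≠ 0)
    (T : (L : ℕ) → Submodule ℂ (Ten I L)) (hT' : ∀ L, CA At L ≤ T L)
    (ho : ∀ p q, ∀ u ∈ T p, ∀ v ∈ T q, outer u v ∈ T (p + q))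
    (hct : ∀ p c, ∀ u ∈ T p, ∀ v ∈ CA At (p + c), cont D u v ∈ T c)
    (n : ℕ) (hn : 0 < n) (hnd : ∀ u ∈ T n, (∀ v ∈ T n, psiT D u v = 0) → u = 0)
    (h : (1 / 2 + 160 * ((r : ℝ) + 1) * (Fintype.card I : ℝ) ^ 3 / Real.sqrt n) *
      Module.finrank ℂ (T n) < Module.finrank ℂ (CA At n)) (r' : ℕ) (hr' : r' ≤ r) :
    numA D At r' = ⊥ ∧ T r' = CA At r' := by
  obtain ⟨d, hI⟩ : ∃ d, Fintype.card I = d := ⟨_, rfl⟩
  rw [hI] at h
  rcases Nat.eq_zero_or_pos d with rfl | hd
  · exfalso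
    obtain ⟨u, -, w, -, huw⟩ := hu
    have : IsEmpty I := Fintype.card_eq_zero_iff.1 hI
    apply huw
    unfold psiT
    exact Finset.sum_eq_zero fun w' _ => (this.false (w' 0)).elim
  have hd1 : 1 ≤ d ^ 3 := Nat.one_le_pow _ _ hd
  set c₀ : ℕ := 80 * (r + 1) * d ^ 3 with hc₀
  have hc₀A : 20 * d ^ 3 ≤ c₀ := by
    rw [hc₀]
    nlinarith [Nat.zero_le r]
  have hc₀1 : 1 ≤ c₀ := by omega
  have hr0 : (0 : ℝ) ≤ r := Nat.cast_nonneg r
  have hc₀R : (1 : ℝ) ≤ c₀ := by exact_mod_cast hc₀1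
  have hc₀e : (c₀ : ℝ) = 80 * ((r : ℝ) + 1) * (d : ℝ) ^ 3 := by
    rw [hc₀]
    push_cast
    ring
  have h160 : 160 * ((r : ℝ) + 1) * (d : ℝ) ^ 3 = 2 * c₀ := by rw [hc₀e]; ring
  rw [h160] at h
  have hnR : (0 : ℝ) < n := by exact_mod_cast hn
  have hsn : 0 < Real.sqrt n := Real.sqrt_pos.2 hnR
  set a : ℝ := (finrank ℂ (CA At n) : ℝ) with ha
  set t : ℝ := (finrank ℂ (T n) : ℝ) with ht
  have hat : a ≤ t := by
    rw [ha, ht]
    exact_mod_cast Submodule.finrank_mono (hT' n)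
  have ht0 : 0 ≤ t := by rw [ht]; exact Nat.cast_nonneg _
  -- `n` is large
  have hcn : 4 * (c₀ : ℝ) < Real.sqrt n := by
    by_contra hne
    push Not at hne
    have h1 : 1 / 2 ≤ 2 * (c₀ : ℝ) / Real.sqrt n := by
      rw [le_div_iff₀ hsn]
      linarith
    have h2 : t ≤ (1 / 2 + 2 * (c₀ : ℝ) / Real.sqrt n) * t := by nlinarith
    linarith
  -- the number of layers
  set M : ℕ := Nat.sqrt n / c₀ with hM
  have hM1 : c₀ * M ≤ Nat.sqrt n := Nat.mul_div_le _ _
  have hM2 : (c₀ * M) ^ 2 ≤ n := (Nat.pow_le_pow_left hM1 2).trans (Nat.sqrt_le' n)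
  have hM2' : (c₀ : ℝ) * M ≤ Real.sqrt n := by
    rw [Real.le_sqrt' (by
      have h1 : 1 ≤ M := by
        rw [hM, Nat.le_div_iff_mul_le (by omega), one_mul]
        have h2 : ((c₀ : ℕ) : ℝ) ≤ Real.sqrt n := by linarith
        rw [Real.le_sqrt (by positivity) (by positivity)] at h2
        rw [Nat.le_sqrt']
        exact_mod_cast h2
      have h2 : (1 : ℝ) ≤ M := by exact_mod_cast h1
      positivity)]
    exact_mod_cast hM2
  have hM3 : Real.sqrt n < c₀ * ((M : ℝ) + 1) := by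
    have h1 : Nat.sqrt n < c₀ * (M + 1) := Nat.lt_mul_div_succ _ (by omega)
    have h2 : Nat.sqrt n + 1 ≤ c₀ * (M + 1) := h1
    have h3 : Real.sqrt n < (Nat.sqrt n : ℝ) + 1 := by
      rw [Real.sqrt_lt' (by positivity)]
      have h4 := Nat.lt_succ_sqrt' n
      rw [Nat.succ_eq_add_one] at h4
      exact_mod_cast h4
    have h4 : ((Nat.sqrt n + 1 : ℕ) : ℝ) ≤ ((c₀ * (M + 1) : ℕ) : ℝ) := by exact_mod_cast h2
    push_cast at h4
    linarith
  have hM4 : Real.sqrt n ≤ 2 * c₀ * M := by nlinarith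
  have hM0 : (0 : ℝ) < M := by
    by_contra hne
    have h1 : (M : ℝ) = 0 := le_antisymm (not_lt.1 hne) (Nat.cast_nonneg _)
    rw [h1] at hM4
    linarith
  have hAn : (20 * d ^ 3) ^ 2 ≤ n := by
    have h1 : 1 ≤ M := by
      have : (0 : ℕ) < M := by exact_mod_cast hM0
      exact this
    exact (Nat.pow_le_pow_left (hc₀A.trans (Nat.le_mul_of_pos_right _ h1)) 2).trans hM2
  set ε : ℝ := c₀ / Real.sqrt n with hε
  have hε0 : 0 < ε := by rw [hε]; positivity
  have hεs : ε * Real.sqrt n = c₀ := by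
    rw [hε, div_mul_cancel₀ _ hsn.ne']
  have hε1 : ε ≤ 1 := by
    rw [hε, div_le_one hsn]
    linarith
  have hr'R : (r' : ℝ) ≤ r := by exact_mod_cast hr'
  have hd3 : (0 : ℝ) ≤ (d : ℝ) ^ 3 := by positivity
  obtain ⟨F, hFa, hF2, hα, hβ⟩ := level a1 a2 ab cpt mn l1 l2 S hu hT' ho hct (r := r')
    (n := n) hnd (K := 1 + 1) (K' := 1 + ε) (by norm_num) (by linarith) M
    (fun j hj => O52.trqC a1 d hd D hI (r' * j) n 1 one_pos le_rfl hAn (by
      rw [one_mul]
      refine le_trans ?_ hM2'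
      have hj' : (j : ℝ) ≤ M := by exact_mod_cast hj.le
      have h1 : (r' : ℝ) * j ≤ ((r : ℝ) + 1) * M :=
        mul_le_mul (by linarith) hj' (Nat.cast_nonneg j) (by linarith)
      rw [hc₀e]
      push_cast
      calc 80 * ((r' : ℝ) * j) * (d : ℝ) ^ 3 = 80 * (d : ℝ) ^ 3 * ((r' : ℝ) * j) := by ring
        _ ≤ 80 * (d : ℝ) ^ 3 * (((r : ℝ) + 1) * M) :=
          mul_le_mul_of_nonneg_left h1 (by positivity)
        _ = 80 * ((r : ℝ) + 1) * (d : ℝ) ^ 3 * M := by ring))
    (O52.trqC a1 d hd D hI r' n ε hε0 hε1 hAn (by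
      rw [hεs, hc₀e]
      nlinarith))
  have hFa' : (F : ℝ) ≤ a := by rw [ha]; exact_mod_cast hFa
  have hF2' : 2 * a ≤ t + F := by rw [ha, ht]; exact_mod_cast hF2
  have hF0 : (0 : ℝ) ≤ F := Nat.cast_nonneg _
  -- the main inequality
  have hcε : 2 * (c₀ : ℝ) / Real.sqrt n = 2 * ε := by rw [hε]; ring
  rw [hcε] at h
  have hmain : t + 4 * ε * t < 2 * a := by linarith
  have hεt : 0 ≤ ε * t := mul_nonneg hε0.le ht0
  -- few invariants
  have hfew : (M : ℝ) * F ≤ 2 * t → False := by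
    intro h1
    have h2 : (F : ℝ) ≤ 4 * ε * t := by
      have h3 : Real.sqrt n * F ≤ 2 * c₀ * (2 * t) := by
        calc Real.sqrt n * F ≤ 2 * c₀ * M * F := mul_le_mul_of_nonneg_right hM4 hF0
          _ = 2 * c₀ * (M * F) := by ring
          _ ≤ 2 * c₀ * (2 * t) := mul_le_mul_of_nonneg_left h1 (by positivity)
      have h4 : (F : ℝ) ≤ 2 * c₀ * (2 * t) / Real.sqrt n := by
        rw [le_div_iff₀ hsn]
        linarith
      calc (F : ℝ) ≤ 2 * c₀ * (2 * t) / Real.sqrt n := h4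
        _ = 4 * ε * t := by rw [hε]; ring
    linarith
  have hD : numA D At r' = ⊥ := by
    by_contra hne
    obtain ⟨z, hz, hz0⟩ := Submodule.exists_mem_ne_zero_of_ne_bot hne
    have h1 := hα ⟨z, hz, hz0⟩
    exact hfew (by linarith)
  refine ⟨hD, le_antisymm ?_ (hT' r')⟩
  by_contra hne
  obtain ⟨f, hf, hf'⟩ := Set.not_subset.1 hne
  rcases hβ hD ⟨f, hf, hf'⟩ with h1 | h1
  · exact hfew (by linarith)
  · have h4 : (1 + ε) * (2 * a) ≤ (1 + ε) * t + ε * F := by linarith
    have h5 : ε * F ≤ ε * t := mul_le_mul_of_nonneg_left (hFa'.trans hat) hε0.le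
    have h6 : (1 + ε) * (t + 4 * ε * t) < (1 + ε) * (2 * a) :=
      mul_lt_mul_of_pos_left hmain (by linarith)
    have h8 : 0 ≤ ε * (ε * t) := mul_nonneg hε0.le hεt
    nlinarith

end Tate52

end Pool.Agent.Lib.MP_361a6f_ag.FL
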