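import Pool.Agent.Lib.MP_361a6f_ag.FL.O.StatF52
import Pool.Agent.Lib.MP_361a6f_ag.FL.O.Tate52
import Pool.Agent.Lib.MP_361a6f_ag.FL.S.SPt
import Pool.Agent.Lib.MP_361a6f_ag.FL.P.PGb
import Pool.Agent.Lib.MP_361a6f_ag.FL.P.PAsys
import Pool.Agent.Lib.MP_361a6f_ag.FL.P.Rk
import Pool.Agent.Lib.MP_361a6f_ag.FL.P.MainP
import Pool.Agent.Lib.MP_361a6f_ag.FL.P.ProjP
import Pool.Agent.Lib.MP_361a6f_ag.FL.O.T2M

/-!
# Half or all of the Tate classes: geometric form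
-/

open CategoryTheory AlgebraicGeometry MonoidalCategory CartesianMonoidalCategory

universe u v w

set_option autoImplicit false
set_option linter.unusedSectionVars false
set_option linter.unusedVariables false

namespace Pool.Agent.Lib.MP_361a6f_ag.FL

open Pool.Agent.Lib.MP_361a6f_ag.H3 Pool.Agent.Lib.MP_361a6f_ag.SQ
  Pool.Agent.Lib.MP_361a6f_ag.PP

namespace TateW

open OL PRK PGC

noncomputable section

variable {k : Type u} [Field k] {W : CohomologyData.{u, 0, w} k ℂ} {𝒱 : VarietyClass k}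

/-! ### The signs as an algebraic operator -/

theorem sn_two (a b : ℕ) : sn (a + b) = (1 / 2 : ℂ) *
    (sn a * sn b + ((-1) ^ a * sn a) * sn b + sn a * ((-1) ^ b * sn b)
      - ((-1) ^ a * sn a) * ((-1) ^ b * sn b)) := by
  rw [sn_add, pow_mul]
  rcases neg_one_pow_eq_or ℂ a with ha | ha <;> rcases neg_one_pow_eq_or ℂ b with hb | hb
  · rw [ha, hb, one_pow]; ring
  · rw [ha, hb, one_pow]; ring
  · rw [ha, hb]; ring
  · rw [ha, hb]; ring

section two

variable (hW : IsWeilCohomology W 𝒱) {A B : Sch k} {a b : ℕ} (hA : 𝒱.mem A a) (hB : 𝒱.mem B b)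

/-- the operator of the signs on a product -/
def kop (θ ε : W.coh A →ₗ[ℂ] W.coh A) (θ' ε' : W.coh B →ₗ[ℂ] W.coh B) :
    W.coh (A ⊗ B) →ₗ[ℂ] W.coh (A ⊗ B) :=
  ((1 / 2 : ℚ) : ℂ) • (ten hW hA hB θ θ' + ten hW hA hB (ε ∘ₗ θ) θ' +
    ten hW hA hB θ (ε' ∘ₗ θ') + ((-1 : ℚ) : ℂ) • ten hW hA hB (ε ∘ₗ θ) (ε' ∘ₗ θ'))

theorem kop_alg {θ ε : W.coh A →ₗ[ℂ] W.coh A} {θ' ε' : W.coh B →ₗ[ℂ] W.coh B}
    (h1 : AlgOp W A θ) (h2 : AlgOp W A ε) (h3 : AlgOp W B θ') (h4 : AlgOp W B ε') :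
    AlgOp W (A ⊗ B) (kop hW hA hB θ ε θ' ε') := by
  have hAB := 𝒱.prod hA hB
  have hc : AlgOp W A (ε ∘ₗ θ) := AlgOp.comp hW hA h2 h1
  have hc' : AlgOp W B (ε' ∘ₗ θ') := AlgOp.comp hW hB h4 h3
  have htn : ∀ a b, AlgOp W A a → AlgOp W B b → AlgOp W (A ⊗ B) (ten hW hA hB a b) :=
    fun a b ha hb => TAL.ten_alg hW hA hB ha hb
  exact AlgOp.smul hW hAB _ (AlgOp.add hW hAB (AlgOp.add hW hAB (AlgOp.add hW hAB
    (htn _ _ h1 h3) (htn _ _ hc h3)) (htn _ _ h1 hc'))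
    (AlgOp.smul hW hAB _ (htn _ _ hc hc')))

theorem kop_apply {θ ε : W.coh A →ₗ[ℂ] W.coh A} {θ' ε' : W.coh B →ₗ[ℂ] W.coh B}
    {x : W.coh A} {y : W.coh B} {p q : ℕ} (h1 : θ x = sn p • x) (h2 : ε x = (-1 : ℂ) ^ p • x)
    (h3 : θ' y = sn q • y) (h4 : ε' y = (-1 : ℂ) ^ q • y) :
    kop hW hA hB θ ε θ' ε' (W.pull (fst A B) x * W.pull (snd A B) y)
      = sn (p + q) • (W.pull (fst A B) x * W.pull (snd A B) y) := by
  unfold kop
  rw [LinearMap.smul_apply, LinearMap.add_apply, LinearMap.add_apply, LinearMap.add_apply,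
    LinearMap.smul_apply, ten_gen, ten_gen, ten_gen, ten_gen, LinearMap.comp_apply,
    LinearMap.comp_apply, h1, h3, map_smul ε, map_smul ε', h2, h4, sn_two]
  simp only [map_smul, smul_mul_assoc, mul_smul_comm]
  push_cast
  module

theorem ten_sgn {ε : W.coh A →ₗ[ℂ] W.coh A} {ε' : W.coh B →ₗ[ℂ] W.coh B}
    {x : W.coh A} {y : W.coh B} {p q : ℕ} (h2 : ε x = (-1 : ℂ) ^ p • x)
    (h4 : ε' y = (-1 : ℂ) ^ q • y) :
    ten hW hA hB ε ε' (W.pull (fst A B) x * W.pull (snd A B) y)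
      = (-1 : ℂ) ^ (p + q) • (W.pull (fst A B) x * W.pull (snd A B) y) := by
  rw [ten_gen, h2, h4, pow_add]
  simp only [map_smul, smul_mul_assoc, mul_smul_comm]
  module

end two

theorem kap {m : ℕ} (H : PHost W 𝒱 m) : ∀ P : Prd m,
    ∃ θ ε : W.coh (P.obj H.X) →ₗ[ℂ] W.coh (P.obj H.X),
      AlgOp W (P.obj H.X) θ ∧ AlgOp W (P.obj H.X) ε ∧
      (∀ w, θ (H.E P w) = sn (H.od w) • H.E P w) ∧
      ∀ w, ε (H.E P w) = (-1 : ℂ) ^ (H.od w) • H.E P w
  | .leaf a => by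
    obtain ⟨ε, hε, h⟩ := H.eps a
    refine ⟨LinearMap.id, ε, AlgOp.id H.hW (H.mem a), hε, fun w => ?_, fun w => ?_⟩
    · have h1 : H.od w < 2 := by
        have h2 : H.od w = (H.D.typ (w ⟨0, Nat.one_pos⟩)).2 := by
          unfold PHost.od
          exact Fin.sum_univ_one _
        rw [h2]
        exact H.lt_two _
      have h2 : sn (H.od w) = 1 := by
        interval_cases H.od w
        · rfl
        · rw [sn, pow_zero, one_mul]; rfl
      rw [h2, one_smul]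
      rfl
    · have h2 : H.od w = (H.D.typ (w ⟨0, Nat.one_pos⟩)).2 := by
        unfold PHost.od
        exact Fin.sum_univ_one _
      rw [h2]
      change ε (H.e a (w ⟨0, Nat.one_pos⟩)) = _ • H.e a (w ⟨0, Nat.one_pos⟩)
      refine Par.ind (H.e_par a (w ⟨0, Nat.one_pos⟩))
        (P := fun y => ε y = (-1 : ℂ) ^ (H.D.typ (w ⟨0, Nat.one_pos⟩)).2 • y) ?_ ?_ ?_
      · intro i hi y hy
        rw [h i y hy, Par.pow_congr hi]
      · rw [map_zero, smul_zero]
      · intro y y' h1 h2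
        rw [map_add, h1, h2, smul_add]
  | .prod P Q => by
    obtain ⟨θ, ε, hθ, hε, h1, h2⟩ := kap H P
    obtain ⟨θ', ε', hθ', hε', h1', h2'⟩ := kap H Q
    refine ⟨kop H.hW (H.memP P) (H.memP Q) θ ε θ' ε', ten H.hW (H.memP P) (H.memP Q) ε ε',
      kop_alg H.hW (H.memP P) (H.memP Q) hθ hε hθ' hε',
      TAL.ten_alg H.hW (H.memP P) (H.memP Q) hε hε', fun w => ?_, fun w => ?_⟩
    · have hod : H.od w = H.od (fun i : Fin P.size => w (Fin.castAdd Q.size i))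
          + H.od (fun i : Fin Q.size => w (Fin.natAdd P.size i)) := PGe.od_prod H P Q w
      rw [hod]
      exact kop_apply H.hW (H.memP P) (H.memP Q) (h1 _) (h2 _) (h1' _) (h2' _)
    · have hod : H.od w = H.od (fun i : Fin P.size => w (Fin.castAdd Q.size i))
          + H.od (fun i : Fin Q.size => w (Fin.natAdd P.size i)) := PGe.od_prod H P Q w
      rw [hod]
      exact ten_sgn H.hW (H.memP P) (H.memP Q) (h2 _) (h2' _)

/-! ### The spaces of tensors -/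

variable (H : PHost W 𝒱 1) (T : ∀ P : Prd 1, Submodule ℂ (W.coh (P.obj H.X)))

/-- the conditions on the family -/
structure TSys : Prop where
  alg : ∀ P, algC W (P.obj H.X) ≤ T P
  ext : ∀ (P Q : Prd 1), ∀ s ∈ T P, ∀ t ∈ T Q,
    W.pull (fst (P.obj H.X) (Q.obj H.X)) s * W.pull (snd (P.obj H.X) (Q.obj H.X)) t
      ∈ T (.prod P Q)
  corr : ∀ (P Q : Prd 1) (l : ℕ), ∀ a ∈ W.alg (P.obj H.X ⊗ Q.obj H.X) l, ∀ t ∈ T P,
    cor W (X := P.obj H.X) (Y := Q.obj H.X) a t ∈ T Q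

variable {H T} (hT : TSys H T)
include hT

theorem corr_algC (P Q : Prd 1) {a : W.coh (P.obj H.X ⊗ Q.obj H.X)}
    (ha : a ∈ algC W (P.obj H.X ⊗ Q.obj H.X)) {t : W.coh (P.obj H.X)} (ht : t ∈ T P) :
    cor W (X := P.obj H.X) (Y := Q.obj H.X) a t ∈ T Q := by
  unfold algC at ha
  induction ha using Submodule.span_induction with
  | mem a ha =>
    obtain ⟨l, hl⟩ := ha
    exact hT.corr P Q l a hl t ht
  | zero =>
    rw [cor_zero, LinearMap.zero_apply]
    exact zero_mem _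
  | add a b _ _ ha hb =>
    rw [cor_add, LinearMap.add_apply]
    exact add_mem ha hb
  | smul c a _ ha =>
    rw [cor_smul, LinearMap.smul_apply]
    exact Submodule.smul_mem _ c ha

theorem algCor_mem (P Q : Prd 1) {u : W.coh (P.obj H.X) →ₗ[ℂ] W.coh (Q.obj H.X)}
    (hu : AlgCor W (P.obj H.X) (Q.obj H.X) u) {t : W.coh (P.obj H.X)} (ht : t ∈ T P) :
    u t ∈ T Q := by
  obtain ⟨γ, hγ, rfl⟩ := hu.exists_cor
  refine corr_algC hT P Q ?_ ht
  rw [algC_eq]
  exact Submodule.subset_span hγ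

/-- the signs -/
theorem sm_T (P : Prd 1) {t : W.coh (P.obj H.X)} (ht : t ∈ T P) :
    ∃ t' ∈ T P, H.tc P t' = sm H (H.tc P t) := by
  have ge := pge H
  obtain ⟨θ, -, hθ, -, h1, -⟩ := kap H P
  refine ⟨θ t, algCor_mem hT P P hθ ht, PGP.tc_of H ge (fun w hw => ?_) ?_⟩
  · rw [sm, ge.tc_off P t w hw, mul_zero]
  · conv_lhs => rw [ge.expand P t]
    rw [map_sum]
    refine Finset.sum_congr rfl fun w _ => ?_
    rw [map_smul, h1, smul_smul, mul_comm]
    rfl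

/-- change of the brackets -/
theorem rel_T (P Q : Prd 1) (h : P.size = Q.size) {t : W.coh (Q.obj H.X)} (ht : t ∈ T Q) :
    ∃ t' ∈ T P, ∀ w, H.tc P t' w = H.tc Q t (w ∘ Fin.cast h.symm) := by
  have hG := pge H
  have gr := pgr pge H
  obtain ⟨hs, f, g, hf, hg, hl⟩ := gr.coh P Q h fun i => Subsingleton.elim _ _
  refine ⟨W.pull f t, algCor_mem hT Q P (AlgCor.pull H.hW (H.memP Q) (H.memP P) f) ht, ?_⟩
  set u : Ten H.I P.size := fun w => H.tc Q t (w ∘ Fin.cast hs.symm) with hu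
  have h0 : ∀ w, H.Off P w → u w = 0 := by
    rintro w ⟨i, hi⟩
    refine hG.tc_off Q t _ ⟨Fin.cast hs i, ?_⟩
    rw [← hl]
    exact hi
  have h1 : W.pull f t = ∑ w, u w • H.E P w := by
    conv_lhs => rw [hG.expand Q t]
    rw [map_sum]
    refine Fintype.sum_equiv (Equiv.arrowCongr (finCongr hs.symm) (Equiv.refl H.I)) _ _ ?_
    intro w
    rw [map_smul, hf]
    rfl
  intro w
  rw [h1, hG.tc_sum P u h0]

omit hT in
variable (H T) in
/-- the spaces of tensors -/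
def TT (L : ℕ) : Submodule ℂ (Ten H.I L) :=
  Submodule.span ℂ ({u | L = 0} ∪ {u | ∃ (P : Prd 1) (h : P.size = L) (t : W.coh (P.obj H.X)),
    t ∈ T P ∧ u = fun w => H.tc P t (w ∘ Fin.cast h)})

theorem TT_eq (P : Prd 1) : TT H T P.size = (T P).map (H.tc P) := by
  refine le_antisymm (Submodule.span_le.2 ?_) ?_
  · rintro u (h | ⟨Q, h, t, ht, rfl⟩)
    · exact absurd h P.size_posC.ne'
    · obtain ⟨t', ht', h1⟩ := rel_T hT P Q h.symm ht
      exact ⟨t', ht', funext h1⟩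
  · rintro _ ⟨t, ht, rfl⟩
    exact Submodule.subset_span (Or.inr ⟨P, rfl, t, ht, rfl⟩)

omit hT in
theorem TT_cast {L L' : ℕ} (h : L = L') {u : Ten H.I L} (hu : u ∈ TT H T L) :
    (fun w : Fin L' → H.I => u (w ∘ Fin.cast h)) ∈ TT H T L' := by
  subst h
  exact hu

omit hT in
theorem TT_zero (u : Ten H.I 0) : u ∈ TT H T 0 := Submodule.subset_span (Or.inl rfl)

omit hT in
theorem exists_prd : ∀ n : ℕ, 0 < n → ∃ P : Prd 1, P.size = n
  | 0, h => absurd h (lt_irrefl _)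
  | 1, _ => ⟨.leaf 0, rfl⟩
  | n + 2, _ => by
    obtain ⟨P, hP⟩ := exists_prd (n + 1) (Nat.succ_pos n)
    exact ⟨.prod P (.leaf 0), by
      change P.size + 1 = _
      rw [hP]⟩

theorem CA_le (L : ℕ) : CA (AtP H) L ≤ TT H T L := by
  refine Submodule.span_le.2 ?_
  have h1 : H.At L ≤ (TT H T L).toAddSubgroup := by
    refine (AddSubgroup.closure_le _).2 ?_
    rintro u (⟨h, -⟩ | ⟨P, h, z, hz, rfl⟩)
    · exact Submodule.subset_span (Or.inl h)
    · refine Submodule.subset_span (Or.inr ⟨P, h, z, hT.alg P ?_, rfl⟩)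
      rw [algC_eq]
      exact Submodule.subset_span hz
  exact fun u hu => h1 hu

theorem TT_outer (p q : ℕ) (u : Ten H.I p) (hu : u ∈ TT H T p) (v : Ten H.I q)
    (hv : v ∈ TT H T q) : outer u v ∈ TT H T (p + q) := by
  rcases Nat.eq_zero_or_pos p with rfl | hp
  · have h1 := Submodule.smul_mem _ (u Fin.elim0) (TT_cast (H := H) (T := T)
      (Nat.zero_add q).symm hv)
    have h2 : outer u v = (u Fin.elim0) •
        (fun w : Fin (0 + q) → H.I => v (w ∘ Fin.cast (Nat.zero_add q).symm)) := by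
      funext w
      simp only [outer, Pi.smul_apply, smul_eq_mul]
      have e1 : (fun i : Fin 0 => w (Fin.castAdd q i)) = Fin.elim0 := Subsingleton.elim _ _
      have e2 : (fun i : Fin q => w (Fin.natAdd 0 i)) = w ∘ Fin.cast (Nat.zero_add q).symm := by
        funext i
        rw [Function.comp_apply]
        congr 1
        apply Fin.ext
        simp
      rw [e1, e2]
    rw [h2]
    exact h1
  rcases Nat.eq_zero_or_pos q with rfl | hq
  · have h1 := Submodule.smul_mem _ (v Fin.elim0) hu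
    have h2 : outer u v = (v Fin.elim0) • u := by
      funext w
      simp only [outer, Pi.smul_apply, smul_eq_mul]
      have e1 : (fun i : Fin 0 => w (Fin.natAdd p i)) = Fin.elim0 := Subsingleton.elim _ _
      have e2 : (fun i : Fin p => w (Fin.castAdd 0 i)) = w := rfl
      rw [e1, e2, mul_comm]
    rw [h2]
    exact h1
  obtain ⟨P, rfl⟩ := exists_prd p hp
  obtain ⟨Q, rfl⟩ := exists_prd q hq
  rw [TT_eq hT] at hu hv
  obtain ⟨s, hs, rfl⟩ := hu
  obtain ⟨t, ht, rfl⟩ := hv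
  rw [← (pge H).tc_outer P Q s t]
  have h3 : TT H T (P.size + Q.size) = (T (.prod P Q)).map (H.tc (.prod P Q)) :=
    TT_eq hT (.prod P Q)
  rw [h3]
  exact ⟨_, hT.ext P Q s hs t ht, rfl⟩

theorem TT_cont (p c : ℕ) (u : Ten H.I p) (hu : u ∈ TT H T p) (v : Ten H.I (p + c))
    (hv : v ∈ CA (AtP H) (p + c)) : cont H.D u v ∈ TT H T c := by
  have ge := pge H
  have gr := pgr pge H
  rcases Nat.eq_zero_or_pos c with rfl | hc
  · exact TT_zero _
  rcases Nat.eq_zero_or_pos p with rfl | hp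
  · have h1 := Submodule.smul_mem _ (u Fin.elim0) (TT_cast (H := H) (T := T)
      (Nat.zero_add c) (CA_le hT _ hv))
    have h2 : cont H.D u v = (u Fin.elim0) •
        (fun w : Fin c → H.I => v (w ∘ Fin.cast (Nat.zero_add c))) := by
      funext w
      rw [cont, Fintype.sum_unique, Pi.smul_apply, smul_eq_mul, sg]
      rw [Finset.univ_eq_empty, Finset.prod_empty, one_mul]
      have e1 : (default : Fin 0 → H.I) = Fin.elim0 := Subsingleton.elim _ _
      rw [e1]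
      congr 2
      rw [Fin.append_left_nil _ _ rfl]
    rw [h2]
    exact h1
  obtain ⟨P, rfl⟩ := exists_prd p hp
  obtain ⟨Q, rfl⟩ := exists_prd c hc
  rw [TT_eq hT] at hu ⊢
  obtain ⟨s, hs, rfl⟩ := hu
  obtain ⟨s', hs', h1⟩ := sm_T hT P hs
  have h2 : H.tc P s = sm H (H.tc P s') := by rw [h1, sm_sm]
  have h3 : CA (AtP H) (P.size + Q.size)
      = (algC W ((Prd.prod P Q).obj H.X)).map (H.tc (.prod P Q)) := (map_CA H gr ge (.prod P Q)).symm
  rw [h3] at hv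
  obtain ⟨y, hy, rfl⟩ := hv
  rw [h2, cont_tc H ge P Q s' y]
  exact ⟨_, corr_algC hT P Q hy hs', rfl⟩

theorem TT_nd (P : Prd 1) (hnd : ∀ s ∈ T P, (∀ t ∈ T P, W.tr (P.obj H.X) (s * t) = 0) → s = 0)
    (u : Ten H.I P.size) (hu : u ∈ TT H T P.size)
    (h : ∀ v ∈ TT H T P.size, psiT H.D u v = 0) : u = 0 := by
  have ge := pge H
  rw [TT_eq hT] at hu h
  obtain ⟨s, hs, rfl⟩ := hu
  obtain ⟨s', hs', h1⟩ := sm_T hT P hs
  have h2 : H.tc P s = sm H (H.tc P s') := by rw [h1, sm_sm]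
  have h3 : s' = 0 := hnd s' hs' fun t ht => by
    rw [← psi_sm H ge, ← h2]
    exact h _ ⟨t, ht, rfl⟩
  rw [h2, h3, map_zero, sm_zero]

end

/-! ### Assembly -/

section law

variable {k : Type u} [Field k] {W : CohomologyData.{u, 0, w} k ℂ} {𝒱 : VarietyClass k}
  {r : ℕ}

theorem host (H : PHost W 𝒱 1) {p : W.coh (H.X 0)} (hp : p ∈ tot W (H.X 0))
    (hp0 : W.tr (H.X 0) p ≠ 0)
    {T : ∀ P : Prd 1, Submodule ℂ (W.coh (P.obj H.X))} (hT : TSys H T) (P : Prd 1)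
    (hnd : ∀ s ∈ T P, (∀ t ∈ T P, W.tr (P.obj H.X) (s * t) = 0) → s = 0)
    (h : share W (H.X 0) r P.size * Module.finrank ℂ (T P) <
      Module.finrank ℂ (algC W (P.obj H.X)))
    (R : Prd 1) (hR : R.size ≤ r) :
    T R = algC W (R.obj H.X) ∧ numC W (R.obj H.X) = ⊥ := by
  have ge := pge H
  have gr := pgr pge H
  have hsl := psl pge H
  have hfin : Module.finrank ℂ (TT H T P.size) = Module.finrank ℂ (T P) := by
    rw [TT_eq hT]
    exact ((Submodule.equivMapOfInjective (H.tc P) (ge.inj P) _).finrank_eq).symm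
  obtain ⟨h1, h2⟩ := Tate52.tateR alg1 alg2 (algB alg1 alg2) cptbH (minb alg1) T2A.hl1 T2A.hl2 r
    (pasys H) (exists_one H hsl ge hp hp0) (TT H T) (CA_le hT) (TT_outer hT) (TT_cont hT) P.size
    P.size_posC (TT_nd hT P hnd) (by
      rw [hfin, finrank_CA H gr ge, card_I H ge]
      exact h) R.size hR
  refine ⟨?_, numC_bot H hsl gr ge R h1⟩
  rw [TT_eq hT] at h2
  have h3 := h2.trans (map_CA H gr ge R).symm
  exact Submodule.map_injective_of_injective (f := H.tc R) (ge.inj R) h3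

theorem transfer (hW : IsWeilCohomology W 𝒱) {X : Fin 1 → Sch k} {e : ℕ}
    (hX : 𝒱.mem (X 0) e) (hE : EvenProjector W (X 0) e) (h0 : (1 : W.coh (X 0)) ≠ 0)
    {T : ∀ P : Prd 1, Submodule ℂ (W.coh (P.obj X))} (hT : ClosedFamily W X T)
    (hTe : ExtClosed W X T) (P : Prd 1) (hnd : NondegOn W (T P))
    (h : share W (X 0) r P.size * Module.finrank ℂ (T P) <
      Module.finrank ℂ (algC W (P.obj X))) (R : Prd 1) (hR : R.size ≤ r) :
    T R = algC W (R.obj X) ∧ numC W (R.obj X) = ⊥ := by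
  obtain ⟨p, hp, t, ht, hpt⟩ := SPT.spt hW hX hE h0
  have hp0 : W.tr (X 0) p ≠ 0 := by
    have h1 : W.tr (X 0) p = (t : ℂ) := hpt
    rw [h1]
    exact_mod_cast ht.ne'
  have hp' : p ∈ tot W (X 0) := alg_le_tot hW (X 0) e hp
  have hX' : ∀ a, 𝒱.mem (X a) e := fun a => by
    rw [Subsingleton.elim a 0]
    exact hX
  obtain ⟨H, hHX, hHn⟩ := pgb hW (X := X) (n := fun _ => e) hX' (fun a => by
    rw [Subsingleton.elim a 0]
    exact PMain.algPar hW hX hE)
  have key : ∀ (Y : Fin 1 → Sch k) (_ : H.X = Y) {p : W.coh (Y 0)} (_ : p ∈ tot W (Y 0)) (_ : W.tr (Y 0) p ≠ 0)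
      (T : ∀ P : Prd 1, Submodule ℂ (W.coh (P.obj Y)))
      (_ : ∀ P, algC W (P.obj Y) ≤ T P)
      (_ : ∀ (P Q : Prd 1), ∀ s ∈ T P, ∀ t ∈ T Q,
        W.pull (fst (P.obj Y) (Q.obj Y)) s * W.pull (snd (P.obj Y) (Q.obj Y)) t ∈ T (.prod P Q))
      (_ : ∀ (P Q : Prd 1) (l : ℕ), ∀ a ∈ W.alg (P.obj Y ⊗ Q.obj Y) l, ∀ t ∈ T P,
        cor W (X := P.obj Y) (Y := Q.obj Y) a t ∈ T Q)
      (_ : ∀ s ∈ T P, (∀ t ∈ T P, W.tr (P.obj Y) (s * t) = 0) → s = 0)
      (_ : share W (Y 0) r P.size * Module.finrank ℂ (T P) <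
        Module.finrank ℂ (algC W (P.obj Y))),
      T R = algC W (R.obj Y) ∧ numC W (R.obj Y) = ⊥ := by
    intro Y hY p hp hp0 T h1 h2 h3 hnd h
    subst hY
    exact host H hp hp0 ⟨h1, h2, h3⟩ P hnd h R hR
  exact key X hHX hp' hp0 T hT.alg hTe (fun P Q l a ha t ht =>
    hT.corr P Q a (Submodule.subset_span ⟨l, ha⟩) t ht) hnd h

end law

/-- abelian varieties have an algebraic even projector -/
theorem even_of {k : Type u} [Field k] {W : CohomologyData.{u, 0, w} k ℂ} {𝒱 : VarietyClass k}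
    (hW : IsWeilCohomology W 𝒱) {X : Sch k} {e : ℕ} (hX : 𝒱.mem X e)
    (h : AbelianOrEven W X e) : EvenProjector W X e := by
  rcases h with h | ⟨h1, h2, y, hy⟩
  · exact h
  · exact (projector W 𝒱 hW hX).2 h1 h2 y hy

/-- **Half or all.** -/
theorem half_or_all : HalfOrAllStatement.{u, w} := by
  intro k _ W 𝒱 hW X e hX hE T hT hTe r
  replace hE := even_of hW hX hE
  by_cases hall : ∀ R : Prd 1, R.size ≤ r → T R = algC W (R.obj X) ∧ ConjectureD W (R.obj X)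
  · exact Or.inl hall
  refine Or.inr fun P hnd => ?_
  by_contra hne
  push Not at hne
  refine hall fun R hR => ?_
  by_cases h0 : (1 : W.coh (X 0)) = 0
  · -- the cohomology vanishes
    obtain ⟨X, rfl⟩ : ∃ Y : Sch k, X = fun _ => Y :=
      ⟨X 0, funext fun a => by rw [Subsingleton.elim a 0]⟩
    have h1 : ∀ x : W.coh (R.obj fun _ => X), x = 0 := by
      intro x
      have h2 : (1 : W.coh (R.obj fun _ => X)) = 0 := by
        rw [← map_one (W.pull (PMain.toX X R)), h0, map_zero]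
      rw [← mul_one x, h2, mul_zero]
    refine ⟨?_, fun l z _ _ => h1 z⟩
    ext x
    rw [h1 x]
    exact ⟨fun _ => zero_mem _, fun _ => zero_mem _⟩
  · obtain ⟨h1, h2⟩ := transfer hW hX hE h0 hT hTe P hnd hne R hR
    refine ⟨h1, fun l z hz hzn => ?_⟩
    have h3 : z ∈ numC W (R.obj X) := ⟨Submodule.subset_span ⟨l, hz⟩, hzn⟩
    rw [h2] at h3
    exact (Submodule.mem_bot ℂ).1 h3

end TateW

end Pool.Agent.Lib.MP_361a6f_ag.FL
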