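import Pool.Agent.Lib.MP_361a6f_ag.FL.O.IntE52
import Pool.Agent.Lib.MP_361a6f_ag.FL.O.StatK52
import Pool.Agent.Lib.MP_361a6f_ag.FL.O.TateW52
import Pool.Agent.Lib.MP_361a6f_ag.FL.P.MainR52

/-!
# The integrality law: transfer to varieties
-/

open CategoryTheory AlgebraicGeometry MonoidalCategory CartesianMonoidalCategory

universe u v w

set_option autoImplicit false
set_option linter.unusedSectionVars false
set_option linter.unusedVariables false

namespace Pool.Agent.Lib.MP_361a6f_ag.FL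

open Pool.Agent.Lib.MP_361a6f_ag.H3 Pool.Agent.Lib.MP_361a6f_ag.SQ
  Pool.Agent.Lib.MP_361a6f_ag.PP

namespace IntW

open OL PRK PGC

noncomputable section

variable {k : Type u} [Field k] {W : CohomologyData.{u, 0, w} k ℂ} {𝒱 : VarietyClass k}

/-- the conclusions for two products -/
def Lv (W : CohomologyData.{u, 0, w} k ℂ) (X : Fin 1 → Sch k) (d : ℕ)
    (T : ∀ P : Prd 1, Submodule ℂ (W.coh (P.obj X))) (R P : Prd 1) : Prop :=
  ∃ m : ℕ, ((20 * d ^ 3) ^ 2 ≤ R.size → (Module.finrank ℂ (T R) : ℝ) ≤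
        m * ((1 + 80 * (d : ℝ) ^ 3 / Real.sqrt R.size) * (rankN W (R.obj X) : ℝ))) ∧
      ((20 * d ^ 3) ^ 2 ≤ P.size →
        m * ((1 - 40 * R.size * (d : ℝ) ^ 3 / Real.sqrt P.size) * (rankN W (P.obj X) : ℝ)) ≤
        (Module.finrank ℂ (T P) : ℝ)) ∧
      (Even R.size → Module.finrank ℂ (T R) ≤ m * rankN W (R.obj X)) ∧
      (algC W (R.obj X) ≤ T R → m ≤ 1 → Module.finrank ℂ (T R) ≤ rankN W (R.obj X))

section host

variable (H : PHost W 𝒱 1) {T : ∀ P : Prd 1, Submodule ℂ (W.coh (P.obj H.X))}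
  (hc : ∀ (P Q : Prd 1) (a : W.coh (P.obj H.X ⊗ Q.obj H.X)), a ∈ algC W (P.obj H.X ⊗ Q.obj H.X) →
    ∀ t ∈ T P, cor W (X := P.obj H.X) (Y := Q.obj H.X) a t ∈ T Q)

include hc

theorem algCor_mem (P Q : Prd 1) {u : W.coh (P.obj H.X) →ₗ[ℂ] W.coh (Q.obj H.X)}
    (hu : AlgCor W (P.obj H.X) (Q.obj H.X) u) {t : W.coh (P.obj H.X)} (ht : t ∈ T P) :
    u t ∈ T Q := by
  obtain ⟨γ, hγ, rfl⟩ := hu.exists_cor
  refine hc P Q _ ?_ t ht
  rw [algC_eq]
  exact Submodule.subset_span hγ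

/-- the signs -/
theorem sm_T (P : Prd 1) {t : W.coh (P.obj H.X)} (ht : t ∈ T P) :
    ∃ t' ∈ T P, H.tc P t' = sm H (H.tc P t) := by
  have ge := pge H
  obtain ⟨θ, -, hθ, -, h1, -⟩ := TateW.kap H P
  refine ⟨θ t, algCor_mem H hc P P hθ ht, PGP.tc_of H ge (fun w hw => ?_) ?_⟩
  · rw [sm, ge.tc_off P t w hw, mul_zero]
  · conv_lhs => rw [ge.expand P t]
    rw [map_sum]
    refine Finset.sum_congr rfl fun w _ => ?_
    rw [map_smul, h1, smul_smul, mul_comm]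
    rfl

theorem cont_mem (P Q : Prd 1) {u : Ten H.I P.size} (hu : u ∈ (T P).map (H.tc P))
    {v : Ten H.I (P.size + Q.size)} (hv : v ∈ CA (AtP H) (P.size + Q.size)) :
    cont H.D u v ∈ (T Q).map (H.tc Q) := by
  have ge := pge H
  have gr := pgr pge H
  obtain ⟨s, hs, rfl⟩ := hu
  obtain ⟨s', hs', h1⟩ := sm_T H hc P hs
  have h2 : H.tc P s = sm H (H.tc P s') := by rw [h1, sm_sm]
  have h3 : CA (AtP H) (P.size + Q.size)
      = (algC W ((Prd.prod P Q).obj H.X)).map (H.tc (.prod P Q)) :=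
    (map_CA H gr ge (.prod P Q)).symm
  rw [h3] at hv
  obtain ⟨y, hy, rfl⟩ := hv
  rw [h2, cont_tc H ge P Q s' y]
  exact ⟨_, hc P Q y hy s' hs', rfl⟩

theorem host {p : W.coh (H.X 0)} (hp : p ∈ tot W (H.X 0)) (hp0 : W.tr (H.X 0) p ≠ 0)
    (hd : 0 < Module.finrank ℂ (W.coh (H.X 0))) (R P : Prd 1) :
    Lv W H.X (Module.finrank ℂ (W.coh (H.X 0))) T R P := by
  have ge := pge H
  have gr := pgr pge H
  have hsl := psl pge H
  have hfin : ∀ Q : Prd 1, Module.finrank ℂ ((T Q).map (H.tc Q)) = Module.finrank ℂ (T Q) :=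
    fun Q => ((Submodule.equivMapOfInjective (H.tc Q) (ge.inj Q) _).finrank_eq).symm
  obtain ⟨m, h1, h2, h3, h4⟩ := Int52.level alg1 alg2 (algB alg1 alg2) cptbH (minb alg1) T2A.hl1
    T2A.hl2 (pasys H) (exists_one H hsl ge hp hp0) (r := R.size) (n := P.size) R.size_posC
    ((T R).map (H.tc R)) ((T P).map (H.tc P)) (fun u hu v hv => cont_mem H hc R P hu hv)
    (Module.finrank ℂ (W.coh (H.X 0))) hd (card_I H ge)
  rw [hfin, rkA_eq H hsl gr ge] at h1 h2 h3 h4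
  refine ⟨m, h1, h2, h3, fun hle hm => h4 ?_ hm⟩
  rw [← map_CA H gr ge R]
  exact Submodule.map_mono hle

omit hc in
/-- the root law -/
theorem host_root {p : W.coh (H.X 0)} (hp : p ∈ tot W (H.X 0)) (hp0 : W.tr (H.X 0) p ≠ 0)
    (R P : Prd 1) : numC W (R.obj H.X) = ⊥ ∨ √P.size * rankN W (P.obj H.X) ≤
      320 * ((R.size : ℝ) + 1) * (Module.finrank ℂ (W.coh (H.X 0)) : ℝ) ^ 3 *
        Module.finrank ℂ (algC W (P.obj H.X)) := by
  have ge := pge H
  have gr := pgr pge H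
  have hsl := psl pge H
  by_cases h : numA H.D (AtP H) R.size = ⊥
  · exact Or.inl (numC_bot H hsl gr ge R h)
  · right
    obtain ⟨z, hz, hz0⟩ := Submodule.exists_mem_ne_zero_of_ne_bot h
    have h1 := O52.root_c alg1 alg2 (algB alg1 alg2) cptbH (minb alg1) T2A.hl1 T2A.hl2 (pasys H)
      (exists_one H hsl ge hp hp0) R.size ⟨z, hz, hz0⟩ P.size
    rwa [rkA_eq H hsl gr ge, finrank_CA H gr ge, card_I H ge] at h1

/-- the dimension of the cohomology of a product -/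
theorem finrank_T (P : Prd 1) : Module.finrank ℂ (T P) ≤
    Module.finrank ℂ (W.coh (H.X 0)) ^ P.size := by
  have ge := pge H
  have h1 : Module.finrank ℂ ((T P).map (H.tc P)) = Module.finrank ℂ (T P) :=
    ((Submodule.equivMapOfInjective (H.tc P) (ge.inj P) _).finrank_eq).symm
  rw [← h1, ← card_I H ge]
  refine (Submodule.finrank_le _).trans (le_of_eq ?_)
  rw [Module.finrank_fintype_fun_eq_card, Fintype.card_fun, Fintype.card_fin]

end host

/-- the transfer -/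
theorem transfer (hW : IsWeilCohomology W 𝒱) {X : Fin 1 → Sch k} {e : ℕ}
    (hX : 𝒱.mem (X 0) e) (hE : EvenProjector W (X 0) e) (h0 : (1 : W.coh (X 0)) ≠ 0)
    {T : ∀ P : Prd 1, Submodule ℂ (W.coh (P.obj X))} (hT : CorrStable W X T) (R P : Prd 1) :
    Lv W X (Module.finrank ℂ (W.coh (X 0))) T R P ∧
      Module.finrank ℂ (T P) ≤ Module.finrank ℂ (W.coh (X 0)) ^ P.size ∧
      (numC W (R.obj X) = ⊥ ∨ √P.size * rankN W (P.obj X) ≤
        320 * ((R.size : ℝ) + 1) * (Module.finrank ℂ (W.coh (X 0)) : ℝ) ^ 3 *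
          Module.finrank ℂ (algC W (P.obj X))) := by
  obtain ⟨p, hp, t, ht, hpt⟩ := SPT.spt hW hX hE h0
  have hp0 : W.tr (X 0) p ≠ 0 := by
    have h1 : W.tr (X 0) p = (t : ℂ) := hpt
    rw [h1]
    exact_mod_cast ht.ne'
  have hp' : p ∈ tot W (X 0) := alg_le_tot hW (X 0) e hp
  have hX' : ∀ a, 𝒱.mem (X a) e := fun a => by
    rw [Subsingleton.elim a 0]
    exact hX
  obtain ⟨H, hHX, hHn⟩ := pgb hW (X := X) (n := fun _ => e) hX' (fun a => by
    rw [Subsingleton.elim a 0]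
    exact PMain.algPar hW hX hE)
  have key : ∀ (Y : Fin 1 → Sch k) (_ : H.X = Y) {p : W.coh (Y 0)} (_ : p ∈ tot W (Y 0))
      (_ : W.tr (Y 0) p ≠ 0) (_ : (1 : W.coh (Y 0)) ≠ 0)
      (T : ∀ P : Prd 1, Submodule ℂ (W.coh (P.obj Y)))
      (_ : ∀ (P Q : Prd 1) (a : W.coh (P.obj Y ⊗ Q.obj Y)), a ∈ algC W (P.obj Y ⊗ Q.obj Y) →
        ∀ t ∈ T P, cor W (X := P.obj Y) (Y := Q.obj Y) a t ∈ T Q),
      Lv W Y (Module.finrank ℂ (W.coh (Y 0))) T R P ∧
      Module.finrank ℂ (T P) ≤ Module.finrank ℂ (W.coh (Y 0)) ^ P.size ∧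
      (numC W (R.obj Y) = ⊥ ∨ √P.size * rankN W (P.obj Y) ≤
        320 * ((R.size : ℝ) + 1) * (Module.finrank ℂ (W.coh (Y 0)) : ℝ) ^ 3 *
          Module.finrank ℂ (algC W (P.obj Y))) := by
    intro Y hY p hp hp0 h0 T hc
    subst hY
    have hd : 0 < Module.finrank ℂ (W.coh (H.X 0)) := by
      have hfd : Module.Finite ℂ (W.coh (H.X 0)) := H.hW.finite (H.mem 0)
      exact Module.finrank_pos_iff_exists_ne_zero.2 ⟨1, h0⟩
    exact ⟨host H hc hp hp0 hd R P, finrank_T H hc P, host_root H hp hp0 R P⟩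
  exact key X hHX hp' hp0 h0 T hT

end

end IntW

end Pool.Agent.Lib.MP_361a6f_ag.FL
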