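import Pool.Agent.Lib.MP_361a6f_ag.FL.O.IntS52
import Pool.Agent.Lib.MP_361a6f_ag.FL.O.StatK52
import Pool.Agent.Lib.MP_361a6f_ag.FL.O.TateW52
import Pool.Agent.Lib.MP_361a6f_ag.FL.P.MainR52

/-!
# The root law for a degenerate family: transfer to varieties
-/

open CategoryTheory AlgebraicGeometry MonoidalCategory CartesianMonoidalCategory

universe u v w

set_option autoImplicit false
set_option linter.unusedSectionVars false
set_option linter.unusedVariables false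

namespace Pool.Agent.Lib.MP_361a6f_ag.FL

open Pool.Agent.Lib.MP_361a6f_ag.H3 Pool.Agent.Lib.MP_361a6f_ag.SQ
  Pool.Agent.Lib.MP_361a6f_ag.PP

namespace IntW

open OL PRK PGC

noncomputable section

variable {k : Type u} [Field k] {W : CohomologyData.{u, 0, w} k ℂ} {𝒱 : VarietyClass k}

section host

variable (H : PHost W 𝒱 1)

/-- the root law for the host -/
theorem rootT {T : ∀ P : Prd 1, Submodule ℂ (W.coh (P.obj H.X))} (hT : TateW.TSys H T)
    {p : W.coh (H.X 0)} (hp : p ∈ tot W (H.X 0)) (hp0 : W.tr (H.X 0) p ≠ 0)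
    (hd : 0 < Module.finrank ℂ (W.coh (H.X 0))) (R P : Prd 1)
    (hR : ¬ ∀ s ∈ T R, (∀ t ∈ T R, W.tr (R.obj H.X) (s * t) = 0) → s = 0) :
    Real.sqrt P.size * (rankN W (P.obj H.X) : ℝ) ≤
      160 * R.size * (Module.finrank ℂ (W.coh (H.X 0)) : ℝ) ^ 3 * Module.finrank ℂ (T P) := by
  have ge := pge H
  have gr := pgr pge H
  have hsl := psl pge H
  push Not at hR
  obtain ⟨s, hs, hst, hs0⟩ := hR
  -- a radical tensor
  obtain ⟨s', hs', h1⟩ := TateW.sm_T hT R hs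
  have hz0 : H.tc R s' ≠ 0 := by
    rw [h1]
    intro h
    apply hs0
    have h2 : sm H (sm H (H.tc R s)) = 0 := by rw [h, sm_zero]
    rw [sm_sm] at h2
    exact ge.inj R (h2.trans (map_zero _).symm)
  have hfin : Module.finrank ℂ (TateW.TT H T P.size) = Module.finrank ℂ (T P) := by
    rw [TateW.TT_eq hT]
    exact ((Submodule.equivMapOfInjective (H.tc P) (ge.inj P) _).finrank_eq).symm
  have hrk : rkA H.D (AtP H) P.size ≤ Module.finrank ℂ (TateW.TT H T P.size) := by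
    rw [rkA_eq H hsl gr ge, hfin]
    have hfd : Module.Finite ℂ (W.coh (P.obj H.X)) := H.hW.finite (H.memP P)
    exact (Nat.sub_le _ _).trans (Submodule.finrank_mono (hT.alg P))
  have h3 := Int52.root_law alg1 alg2 (algB alg1 alg2) cptbH (minb alg1) T2A.hl1 T2A.hl2
    (pasys H) (exists_one H hsl ge hp hp0) (TateW.CA_le hT) (TateW.TT_outer hT)
    (TateW.TT_cont hT) (r := R.size) R.size_posC (z := H.tc R s')
    (by
      rw [TateW.TT_eq hT]
      exact ⟨s', hs', rfl⟩) hz0 (by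
      intro y hy
      rw [TateW.TT_eq hT] at hy
      obtain ⟨t, ht, rfl⟩ := hy
      rw [h1]
      exact (psi_sm H ge R s t).trans (hst t ht))
    (Module.finrank ℂ (W.coh (H.X 0))) hd (card_I H ge) P.size hrk
  rwa [rkA_eq H hsl gr ge, hfin] at h3

/-- the root law for the algebraic classes -/
theorem rootA {p : W.coh (H.X 0)} (hp : p ∈ tot W (H.X 0)) (hp0 : W.tr (H.X 0) p ≠ 0)
    (hd : 0 < Module.finrank ℂ (W.coh (H.X 0))) (R P : Prd 1) (hR : numC W (R.obj H.X) ≠ ⊥) :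
    Real.sqrt P.size * (rankN W (P.obj H.X) : ℝ) ≤
      160 * R.size * (Module.finrank ℂ (W.coh (H.X 0)) : ℝ) ^ 3 *
        Module.finrank ℂ (algC W (P.obj H.X)) := by
  have ge := pge H
  have gr := pgr pge H
  have hsl := psl pge H
  have h : numA H.D (AtP H) R.size ≠ ⊥ := fun h => hR (numC_bot H hsl gr ge R h)
  obtain ⟨z, hz, hz0⟩ := Submodule.exists_mem_ne_zero_of_ne_bot h
  have hrk : rkA H.D (AtP H) P.size ≤ Module.finrank ℂ (CA (AtP H) P.size) := by
    rw [rkA_eq H hsl gr ge, finrank_CA H gr ge]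
    exact Nat.sub_le _ _
  have h3 := Int52.root_law alg1 alg2 (algB alg1 alg2) cptbH (minb alg1) T2A.hl1 T2A.hl2
    (pasys H) (exists_one H hsl ge hp hp0) (T := fun L => CA (AtP H) L) (fun _ => le_rfl)
    (fun p q u hu v hv => T2A.outer_mem (pasys H) p q u hu v hv)
    (fun p c u hu v hv => T2A.cont_mem (pasys H) p c u hu v hv)
    (r := R.size) R.size_posC (z := z) (OL.RA_le_CA hz.1) hz0 (by
      intro y hy
      unfold CA at hy
      induction hy using Submodule.span_induction with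
      | mem y hy => exact hz.2 y (Submodule.subset_span hy)
      | zero => rw [← Qps.psiL_apply, map_zero]
      | add a b _ _ ha hb => rw [← Qps.psiL_apply, map_add, Qps.psiL_apply, Qps.psiL_apply, ha, hb,
          add_zero]
      | smul c a _ ha => rw [← Qps.psiL_apply, map_smul, Qps.psiL_apply, ha, smul_zero])
    (Module.finrank ℂ (W.coh (H.X 0))) hd (card_I H ge) P.size hrk
  rwa [rkA_eq H hsl gr ge, finrank_CA H gr ge] at h3

end host

/-- the transfer -/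
theorem transfer_root (hW : IsWeilCohomology W 𝒱) {X : Fin 1 → Sch k} {e : ℕ}
    (hX : 𝒱.mem (X 0) e) (hE : EvenProjector W (X 0) e) (h0 : (1 : W.coh (X 0)) ≠ 0)
    (R P : Prd 1) :
    (∀ T : (∀ P : Prd 1, Submodule ℂ (W.coh (P.obj X))), ClosedFamily W X T → ExtClosed W X T →
      ¬ NondegOn W (T R) → Real.sqrt P.size * (rankN W (P.obj X) : ℝ) ≤
        160 * R.size * (Module.finrank ℂ (W.coh (X 0)) : ℝ) ^ 3 * Module.finrank ℂ (T P)) ∧
    (numC W (R.obj X) ≠ ⊥ → Real.sqrt P.size * (rankN W (P.obj X) : ℝ) ≤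
      160 * R.size * (Module.finrank ℂ (W.coh (X 0)) : ℝ) ^ 3 *
        Module.finrank ℂ (algC W (P.obj X))) := by
  obtain ⟨p, hp, t, ht, hpt⟩ := SPT.spt hW hX hE h0
  have hp0 : W.tr (X 0) p ≠ 0 := by
    have h1 : W.tr (X 0) p = (t : ℂ) := hpt
    rw [h1]
    exact_mod_cast ht.ne'
  have hp' : p ∈ tot W (X 0) := alg_le_tot hW (X 0) e hp
  have hX' : ∀ a, 𝒱.mem (X a) e := fun a => by
    rw [Subsingleton.elim a 0]
    exact hX
  obtain ⟨H, hHX, hHn⟩ := pgb hW (X := X) (n := fun _ => e) hX' (fun a => by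
    rw [Subsingleton.elim a 0]
    exact PMain.algPar hW hX hE)
  have key : ∀ (Y : Fin 1 → Sch k) (_ : H.X = Y) {p : W.coh (Y 0)} (_ : p ∈ tot W (Y 0))
      (_ : W.tr (Y 0) p ≠ 0) (_ : (1 : W.coh (Y 0)) ≠ 0),
      (∀ (T : ∀ P : Prd 1, Submodule ℂ (W.coh (P.obj Y)))
        (_ : ∀ P, algC W (P.obj Y) ≤ T P)
        (_ : ∀ (P Q : Prd 1), ∀ s ∈ T P, ∀ t ∈ T Q,
          W.pull (fst (P.obj Y) (Q.obj Y)) s * W.pull (snd (P.obj Y) (Q.obj Y)) t ∈ T (.prod P Q))
        (_ : ∀ (P Q : Prd 1) (l : ℕ), ∀ a ∈ W.alg (P.obj Y ⊗ Q.obj Y) l, ∀ t ∈ T P,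
          cor W (X := P.obj Y) (Y := Q.obj Y) a t ∈ T Q)
        (_ : ¬ ∀ s ∈ T R, (∀ t ∈ T R, W.tr (R.obj Y) (s * t) = 0) → s = 0),
        Real.sqrt P.size * (rankN W (P.obj Y) : ℝ) ≤
          160 * R.size * (Module.finrank ℂ (W.coh (Y 0)) : ℝ) ^ 3 * Module.finrank ℂ (T P)) ∧
      (numC W (R.obj Y) ≠ ⊥ → Real.sqrt P.size * (rankN W (P.obj Y) : ℝ) ≤
        160 * R.size * (Module.finrank ℂ (W.coh (Y 0)) : ℝ) ^ 3 *
          Module.finrank ℂ (algC W (P.obj Y))) := by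
    intro Y hY p hp hp0 h0
    subst hY
    have hd : 0 < Module.finrank ℂ (W.coh (H.X 0)) := by
      have hfd : Module.Finite ℂ (W.coh (H.X 0)) := H.hW.finite (H.mem 0)
      exact Module.finrank_pos_iff_exists_ne_zero.2 ⟨1, h0⟩
    exact ⟨fun T h1 h2 h3 h4 => rootT H ⟨h1, h2, h3⟩ hp hp0 hd R P h4,
      rootA H hp hp0 hd R P⟩
  obtain ⟨k1, k2⟩ := key X hHX hp' hp0 h0
  exact ⟨fun T hT hTe hnd => k1 T hT.alg hTe (fun P Q l a ha t ht =>
    hT.corr P Q a (Submodule.subset_span ⟨l, ha⟩) t ht) hnd, k2⟩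

end

end IntW

end Pool.Agent.Lib.MP_361a6f_ag.FL
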