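import Pool.Agent.Lib.MP_361a6f_ag.FL.O.IntN52
import Pool.Agent.Lib.MP_361a6f_ag.FL.O.IntT52

/-!
# The integrality law with the numerically trivial classes: transfer to varieties
-/

open CategoryTheory AlgebraicGeometry MonoidalCategory CartesianMonoidalCategory

universe u v w

set_option autoImplicit false
set_option linter.unusedSectionVars false
set_option linter.unusedVariables false

namespace Pool.Agent.Lib.MP_361a6f_ag.FL

namespace Int52

open OL Module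

/-- the isotropy of the numerically trivial elements -/
theorem iso {I Λ : Type} [Fintype I] [DecidableEq I] [DecidableEq Λ]
    {D : Dat I Λ} {At : (L : ℕ) → Ten I L → Prop}
    (a1 : Alg1) (a2 : Alg2) (ab : AlgB) (cpt : CptbStatement) (mn : MinbStatement)
    (l1 : L1bStatement) (l2 : L2bStatement) (S : ASys D At) {n : ℕ}
    (T : Submodule ℂ (Ten I n)) (hT' : CA At n ≤ T)
    (hnd : ∀ u ∈ T, (∀ v ∈ T, psiT D u v = 0) → u = 0) :
    2 * finrank ℂ (CA At n) ≤ finrank ℂ T + rkA D At n := by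
  obtain ⟨β, _, lb, b, H, g, κ, L⟩ := LevO.lev a1 a2 ab cpt mn l1 l2 S n
  let gl : ℕ → Ten I n →ₗ[ℂ] Ten I n := fun i => OL.gL a1 n (g i)
  obtain ⟨R, hRC, hR0, hRdim⟩ := Tate52.gen_ker (CA At n) (fixS H a1 n) gl (fun y hy => by
    obtain ⟨v, hv, hf⟩ := L.lim n le_rfl y hy
    exact ⟨v, hf, hv⟩)
  have hRpsi : ∀ y ∈ R, ∀ w ∈ CA At n, psiT D y w = 0 := by
    intro y hy w hw
    obtain ⟨w', hw', -⟩ := L.lim n le_rfl w hw
    have h1 := L.psi n y w 0 w' (hR0 y hy) hw'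
    rw [← Qps.psiL_apply, map_zero, LinearMap.zero_apply] at h1
    exact h1.symm
  rw [finrank_lim L a1 le_rfl] at hRdim
  have hiso := Tate52.ann (Qps.psiL D n) T (CA At n) R hT' (hRC.trans hT') hnd hRpsi
  omega

end Int52

open Pool.Agent.Lib.MP_361a6f_ag.H3 Pool.Agent.Lib.MP_361a6f_ag.SQ
  Pool.Agent.Lib.MP_361a6f_ag.PP

namespace IntW

open OL PRK PGC

noncomputable section

variable {k : Type u} [Field k] {W : CohomologyData.{u, 0, w} k ℂ} {𝒱 : VarietyClass k}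

/-- the conclusion for two products -/
def Pl (W : CohomologyData.{u, 0, w} k ℂ) (X : Fin 1 → Sch k) (d : ℕ)
    (T : ∀ P : Prd 1, Submodule ℂ (W.coh (P.obj X))) (R P : Prd 1) : Prop :=
  2 * Module.finrank ℂ (algC W (P.obj X)) ≤ Module.finrank ℂ (T P) + rankN W (P.obj X) ∧
  (Real.sqrt P.size * (rankN W (P.obj X) : ℝ) ≤
      160 * R.size * (d : ℝ) ^ 3 * Module.finrank ℂ (T P) ∨
    ∃ m : ℕ, (Even R.size → Module.finrank ℂ (T R) ≤ m * rankN W (R.obj X)) ∧
      (m ≤ 1 → Module.finrank ℂ (T R) ≤ rankN W (R.obj X)) ∧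
      m * ((1 - 40 * R.size * (d : ℝ) ^ 3 / Real.sqrt P.size) * (rankN W (P.obj X) : ℝ)) +
        2 * (Module.finrank ℂ (algC W (P.obj X)) : ℝ) ≤
        (Module.finrank ℂ (T P) : ℝ) + 2 * (rankN W (P.obj X) : ℝ))

/-- the conclusion for the host -/
theorem plusH (H : PHost W 𝒱 1) {T : ∀ P : Prd 1, Submodule ℂ (W.coh (P.obj H.X))}
    (hT : TateW.TSys H T) {p : W.coh (H.X 0)} (hp : p ∈ tot W (H.X 0))
    (hp0 : W.tr (H.X 0) p ≠ 0) (hd : 0 < Module.finrank ℂ (W.coh (H.X 0))) (R P : Prd 1)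
    (hndP : ∀ s ∈ T P, (∀ t ∈ T P, W.tr (P.obj H.X) (s * t) = 0) → s = 0) :
    Pl W H.X (Module.finrank ℂ (W.coh (H.X 0))) T R P := by
  have ge := pge H
  have gr := pgr pge H
  have hsl := psl pge H
  have hfin : ∀ Q : Prd 1, Module.finrank ℂ (TateW.TT H T Q.size) = Module.finrank ℂ (T Q) :=
    fun Q => by
      rw [TateW.TT_eq hT]
      exact ((Submodule.equivMapOfInjective (H.tc Q) (ge.inj Q) _).finrank_eq).symm
  have hiso := Int52.iso alg1 alg2 (algB alg1 alg2) cptbH (minb alg1) T2A.hl1 T2A.hl2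
    (pasys H) (TateW.TT H T P.size) (TateW.CA_le hT P.size) (TateW.TT_nd hT P hndP)
  rw [hfin, rkA_eq H hsl gr ge, finrank_CA H gr ge] at hiso
  refine ⟨hiso, ?_⟩
  have hfd : Module.Finite ℂ (W.coh (P.obj H.X)) := H.hW.finite (H.memP P)
  have hat : Module.finrank ℂ (algC W (P.obj H.X)) ≤ Module.finrank ℂ (T P) :=
    Submodule.finrank_mono (hT.alg P)
  have hNt : rankN W (P.obj H.X) ≤ Module.finrank ℂ (T P) := (Nat.sub_le _ _).trans hat
  -- degenerate cases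
  by_cases hndR : ∀ s ∈ T R, (∀ t ∈ T R, W.tr (R.obj H.X) (s * t) = 0) → s = 0
  swap
  · exact Or.inl (rootT H hT hp hp0 hd R P hndR)
  by_cases hD : numA H.D (AtP H) R.size = ⊥
  swap
  · left
    obtain ⟨z, hz, hz0⟩ := Submodule.exists_mem_ne_zero_of_ne_bot hD
    have hrk : rkA H.D (AtP H) P.size ≤ Module.finrank ℂ (CA (AtP H) P.size) := by
      rw [rkA_eq H hsl gr ge, finrank_CA H gr ge]
      exact Nat.sub_le _ _
    have h3 := Int52.root_law alg1 alg2 (algB alg1 alg2) cptbH (minb alg1) T2A.hl1 T2A.hl2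
      (pasys H) (exists_one H hsl ge hp hp0) (T := fun L => CA (AtP H) L) (fun _ => le_rfl)
      (fun p q u hu v hv => T2A.outer_mem (pasys H) p q u hu v hv)
      (fun p c u hu v hv => T2A.cont_mem (pasys H) p c u hu v hv)
      (r := R.size) R.size_posC (z := z) (OL.RA_le_CA hz.1) hz0
      (fun y hy => Int52.orth_CA hz.2 y hy)
      (Module.finrank ℂ (W.coh (H.X 0))) hd (card_I H ge) P.size hrk
    rw [rkA_eq H hsl gr ge, finrank_CA H gr ge] at h3
    refine h3.trans (mul_le_mul_of_nonneg_left (by exact_mod_cast hat) (by positivity))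
  -- small lengths
  rcases le_or_gt ((20 * Module.finrank ℂ (W.coh (H.X 0)) ^ 3) ^ 2) P.size with hn | hn
  swap
  · left
    have hdR : (1 : ℝ) ≤ Module.finrank ℂ (W.coh (H.X 0)) := by exact_mod_cast hd
    have hd3 : (1 : ℝ) ≤ (Module.finrank ℂ (W.coh (H.X 0)) : ℝ) ^ 3 := one_le_pow₀ hdR
    have hrR : (1 : ℝ) ≤ R.size := by exact_mod_cast R.size_posC
    have h1 : Real.sqrt P.size ≤ 20 * (Module.finrank ℂ (W.coh (H.X 0)) : ℝ) ^ 3 := by
      rw [Real.sqrt_le_left (by positivity)]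
      exact_mod_cast hn.le
    have h2 : Real.sqrt P.size ≤ 160 * R.size * (Module.finrank ℂ (W.coh (H.X 0)) : ℝ) ^ 3 := by
      nlinarith
    exact mul_le_mul h2 (by exact_mod_cast hNt) (Nat.cast_nonneg _) (by positivity)
  obtain ⟨-, h | ⟨m, h1, h2, h3⟩⟩ := Int52.plus alg1 alg2 (algB alg1 alg2) cptbH (minb alg1)
    T2A.hl1 T2A.hl2 (pasys H) (exists_one H hsl ge hp hp0) (TateW.CA_le hT) (TateW.TT_outer hT)
    (TateW.TT_cont hT) (r := R.size) (n := P.size) R.size_posC (TateW.TT_nd hT P hndP)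
    (Module.finrank ℂ (W.coh (H.X 0))) hd (card_I H ge) hn hD (TateW.TT_nd hT R hndR)
  · left
    rwa [rkA_eq H hsl gr ge, hfin] at h
  · right
    rw [hfin, rkA_eq H hsl gr ge] at h1 h2
    rw [hfin, rkA_eq H hsl gr ge, finrank_CA H gr ge] at h3
    exact ⟨m, h1, h2, h3⟩

/-- the transfer -/
theorem transfer_plus (hW : IsWeilCohomology W 𝒱) {X : Fin 1 → Sch k} {e : ℕ}
    (hX : 𝒱.mem (X 0) e) (hE : EvenProjector W (X 0) e) (h0 : (1 : W.coh (X 0)) ≠ 0)
    {T : ∀ P : Prd 1, Submodule ℂ (W.coh (P.obj X))} (hT : ClosedFamily W X T)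
    (hTe : ExtClosed W X T) (R P : Prd 1) (hnd : NondegOn W (T P)) :
    Pl W X (Module.finrank ℂ (W.coh (X 0))) T R P := by
  obtain ⟨p, hp, t, ht, hpt⟩ := SPT.spt hW hX hE h0
  have hp0 : W.tr (X 0) p ≠ 0 := by
    have h1 : W.tr (X 0) p = (t : ℂ) := hpt
    rw [h1]
    exact_mod_cast ht.ne'
  have hp' : p ∈ tot W (X 0) := alg_le_tot hW (X 0) e hp
  have hX' : ∀ a, 𝒱.mem (X a) e := fun a => by
    rw [Subsingleton.elim a 0]
    exact hX
  obtain ⟨H, hHX, hHn⟩ := pgb hW (X := X) (n := fun _ => e) hX' (fun a => by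
    rw [Subsingleton.elim a 0]
    exact PMain.algPar hW hX hE)
  have key : ∀ (Y : Fin 1 → Sch k) (_ : H.X = Y) {p : W.coh (Y 0)} (_ : p ∈ tot W (Y 0))
      (_ : W.tr (Y 0) p ≠ 0) (_ : (1 : W.coh (Y 0)) ≠ 0)
      (T : ∀ P : Prd 1, Submodule ℂ (W.coh (P.obj Y)))
      (_ : ∀ P, algC W (P.obj Y) ≤ T P)
      (_ : ∀ (P Q : Prd 1), ∀ s ∈ T P, ∀ t ∈ T Q,
        W.pull (fst (P.obj Y) (Q.obj Y)) s * W.pull (snd (P.obj Y) (Q.obj Y)) t ∈ T (.prod P Q))
      (_ : ∀ (P Q : Prd 1) (l : ℕ), ∀ a ∈ W.alg (P.obj Y ⊗ Q.obj Y) l, ∀ t ∈ T P,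
        cor W (X := P.obj Y) (Y := Q.obj Y) a t ∈ T Q)
      (_ : ∀ s ∈ T P, (∀ t ∈ T P, W.tr (P.obj Y) (s * t) = 0) → s = 0),
      Pl W Y (Module.finrank ℂ (W.coh (Y 0))) T R P := by
    intro Y hY p hp hp0 h0 T h1 h2 h3 h4
    subst hY
    have hd : 0 < Module.finrank ℂ (W.coh (H.X 0)) := by
      have hfd : Module.Finite ℂ (W.coh (H.X 0)) := H.hW.finite (H.mem 0)
      exact Module.finrank_pos_iff_exists_ne_zero.2 ⟨1, h0⟩
    exact plusH H ⟨h1, h2, h3⟩ hp hp0 hd R P h4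
  exact key X hHX hp' hp0 h0 T hT.alg hTe (fun P Q l a ha t ht =>
    hT.corr P Q a (Submodule.subset_span ⟨l, ha⟩) t ht) hnd

/-- **The gap with the numerically trivial classes.** -/
theorem gap_num (hW : IsWeilCohomology W 𝒱) {X : Fin 1 → Sch k} {e : ℕ}
    (hX : 𝒱.mem (X 0) e) (hE : EvenProjector W (X 0) e) (h0 : (1 : W.coh (X 0)) ≠ 0)
    {T : ∀ P : Prd 1, Submodule ℂ (W.coh (P.obj X))} (hT : ClosedFamily W X T)
    (hTe : ExtClosed W X T) (R P : Prd 1) (hnd : NondegOn W (T P)) (m : ℕ)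
    (hRm : Even R.size ∨ m = 1) (hlt : m * rankN W (R.obj X) < Module.finrank ℂ (T R)) :
    2 * (Module.finrank ℂ (algC W (P.obj X)) : ℝ) + ((m : ℝ) - 1) * rankN W (P.obj X) ≤
      (1 + rootC W (X 0) (160 * m) R.size P.size) * Module.finrank ℂ (T P) := by
  have hfd : Module.Finite ℂ (W.coh (X 0)) := hW.finite hX
  have hX' : ∀ a, 𝒱.mem (X a) e := fun a => by
    rw [Subsingleton.elim a 0]
    exact hX
  have hfP : Module.Finite ℂ (W.coh (P.obj X)) :=
    hW.finite (memP (X := X) (n := fun _ => e) hX' P)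
  obtain ⟨hiso, hor⟩ := transfer_plus hW hX hE h0 hT hTe R P hnd
  have hat : Module.finrank ℂ (algC W (P.obj X)) ≤ Module.finrank ℂ (T P) :=
    Submodule.finrank_mono (hT.alg P)
  have hNt : rankN W (P.obj X) ≤ Module.finrank ℂ (T P) := (Nat.sub_le _ _).trans hat
  have hNt' : (rankN W (P.obj X) : ℝ) ≤ Module.finrank ℂ (T P) := by exact_mod_cast hNt
  have hiso' : 2 * (Module.finrank ℂ (algC W (P.obj X)) : ℝ) ≤
      Module.finrank ℂ (T P) + rankN W (P.obj X) := by exact_mod_cast hiso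
  have hs : (0 : ℝ) < √P.size := Real.sqrt_pos.2 (by exact_mod_cast P.size_posC)
  obtain ⟨d, hd⟩ : ∃ d, Module.finrank ℂ (W.coh (X 0)) = d := ⟨_, rfl⟩
  rw [hd] at hor
  -- the error
  obtain ⟨ε, hε⟩ : ∃ ε : ℝ, ε = 40 * R.size * (d : ℝ) ^ 3 / √P.size := ⟨_, rfl⟩
  have hε0 : 0 ≤ ε := by rw [hε]; positivity
  have hroot : rootC W (X 0) (160 * m) R.size P.size = 4 * m * ε := by
    unfold rootC
    rw [hd, hε]
    push_cast
    ring
  rw [hroot]
  obtain ⟨N, hN⟩ : ∃ N : ℝ, N = rankN W (P.obj X) := ⟨_, rfl⟩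
  obtain ⟨t, ht⟩ : ∃ t : ℝ, t = Module.finrank ℂ (T P) := ⟨_, rfl⟩
  obtain ⟨a, ha⟩ : ∃ a : ℝ, a = Module.finrank ℂ (algC W (P.obj X)) := ⟨_, rfl⟩
  have hN0 : 0 ≤ N := by rw [hN]; exact Nat.cast_nonneg _
  have ht0 : 0 ≤ t := by rw [ht]; exact Nat.cast_nonneg _
  rw [← hN, ← ht] at hNt'
  rw [← hN, ← ht, ← ha] at hiso' ⊢
  have hm0 : (0 : ℝ) ≤ m := Nat.cast_nonneg m
  rcases hor with h | ⟨m', h1, h2, h3⟩
  · -- the root law
    rw [← hN, ← ht] at h
    have h4 : N ≤ 4 * ε * t := by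
      have h5 : N ≤ 160 * R.size * (d : ℝ) ^ 3 * t / √P.size := by
        rw [le_div_iff₀ hs, mul_comm]
        exact h
      have h6 : 160 * R.size * (d : ℝ) ^ 3 * t / √P.size = 4 * ε * t := by
        rw [hε]
        ring
      rwa [h6] at h5
    have h5 := mul_le_mul_of_nonneg_left h4 hm0
    nlinarith
  · have hm : m + 1 ≤ m' := by
      by_contra hne
      have h6 : m' ≤ m := by omega
      rcases hRm with hev | rfl
      · have h5 := h1 hev
        have h7 := Nat.mul_le_mul_right (rankN W (R.obj X)) h6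
        omega
      · have h5 := h2 h6
        omega
    have hmR : ((m : ℝ) + 1) ≤ m' := by exact_mod_cast hm
    rw [← hN, ← ht, ← ha, ← hε] at h3
    rcases Nat.eq_zero_or_pos m with rfl | hm1
    · rw [Nat.cast_zero]
      linarith
    have hm1R : (1 : ℝ) ≤ m := by exact_mod_cast hm1
    rcases le_or_gt ε 1 with he | he
    · have h4 : ((m : ℝ) + 1) * ((1 - ε) * N) ≤ m' * ((1 - ε) * N) :=
        mul_le_mul_of_nonneg_right hmR (mul_nonneg (by linarith) hN0)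
      have h5 : ε * N ≤ ε * t := mul_le_mul_of_nonneg_left hNt' hε0
      have h6 : 0 ≤ ε * t := mul_nonneg hε0 ht0
      have h7 : ((m : ℝ) + 1) * (ε * N) ≤ (4 * m) * (ε * t) := by
        have h8 : ((m : ℝ) + 1) * (ε * N) ≤ ((m : ℝ) + 1) * (ε * t) :=
          mul_le_mul_of_nonneg_left h5 (by positivity)
        have h9 : ((m : ℝ) + 1) * (ε * t) ≤ (4 * m) * (ε * t) :=
          mul_le_mul_of_nonneg_right (by linarith) h6
        exact h8.trans h9
      have h8 : ((m : ℝ) + 1) * ((1 - ε) * N) = ((m : ℝ) + 1) * N - ((m : ℝ) + 1) * (ε * N) := by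
        ring
      have h9 : (1 + 4 * m * ε) * t = t + (4 * m) * (ε * t) := by ring
      rw [h9]
      linarith
    · have h4 : (m : ℝ) * N ≤ m * t := mul_le_mul_of_nonneg_left hNt' hm0
      have h5 : (m : ℝ) * t ≤ (4 * m * ε) * t := by
        refine mul_le_mul_of_nonneg_right ?_ ht0
        nlinarith
      linarith

end

end IntW

end Pool.Agent.Lib.MP_361a6f_ag.FL
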