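import Pool.Agent.Lib.MP_361a6f_ag.FL.O.IntH52
import Pool.Agent.Lib.MP_361a6f_ag.FL.O.IntP52

/-!
# The integrality law
-/

open CategoryTheory AlgebraicGeometry MonoidalCategory CartesianMonoidalCategory Filter Topology

universe u v w

set_option autoImplicit false
set_option linter.unusedSectionVars false
set_option linter.unusedVariables false

namespace Pool.Agent.Lib.MP_361a6f_ag.FL

open Pool.Agent.Lib.MP_361a6f_ag.H3 Pool.Agent.Lib.MP_361a6f_ag.SQ
  Pool.Agent.Lib.MP_361a6f_ag.PP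

namespace IntW

open OL PRK PGC

/-- **The integrality law.** -/
theorem integrality : IntegralityStatement.{u, w} := by
  intro k _ W 𝒱 hW X e hX hE'
  have hE := even hW hX hE'
  refine ⟨fun P => ?_, fun T hT => ?_⟩
  · obtain ⟨X, rfl⟩ : ∃ Y : Sch k, X = fun _ => Y :=
      ⟨X 0, funext fun a => by rw [Subsingleton.elim a 0]⟩
    exact PMainR.explicit_growth W 𝒱 hW hX hE P
  by_cases h0 : (1 : W.coh (X 0)) = 0
  · right
    refine ⟨1, ⟨0, fun P => ?_⟩, fun P _ => ?_, fun _ => ⟨fun P l z _ _ => coh_zero h0 P z,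
      fun _ P x _ _ => coh_zero h0 P x, fun _ P => ?_, fun _ => rfl⟩⟩
    · rw [finrank_zero h0 P (T P), rankN_zero h0 P]
      simp
    · rw [finrank_zero h0 P (T P)]
      exact Nat.zero_le _
    · ext x
      rw [coh_zero h0 P x]
      exact ⟨fun _ => zero_mem _, fun _ => zero_mem _⟩
  · exact main hW hX hE h0 hT

/-- **The gaps.** -/
theorem gap : IntegralGapStatement.{u, w} := by
  intro k _ W 𝒱 hW X e hX hE' T hT R m hRm hlt P
  have hE := even hW hX hE'
  by_cases h0 : (1 : W.coh (X 0)) = 0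
  · rw [finrank_zero h0 R (T R)] at hlt
    exact absurd hlt (Nat.not_lt_zero _)
  refine ⟨?_, fun hA hTe hnd => gap_num hW hX hE h0 ⟨hA, hT⟩ hTe R P hnd m
    (hRm.imp_right fun h => h.1) hlt⟩
  have hfd : Module.Finite ℂ (W.coh (X 0)) := hW.finite hX
  obtain ⟨⟨m', h1, h2, h3, h4⟩, -⟩ := transfer hW hX hE h0 hT R P
  have hroot : rootC W (X 0) 40 R.size P.size =
      40 * R.size * (Module.finrank ℂ (W.coh (X 0)) : ℝ) ^ 3 / √P.size := by
    unfold rootC
    push_cast
    ring
  rw [hroot]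
  obtain ⟨d, hd⟩ : ∃ d, Module.finrank ℂ (W.coh (X 0)) = d := ⟨_, rfl⟩
  rw [hd] at h1 h2 ⊢
  have hd0 : 0 < d := by
    rw [← hd]
    exact Module.finrank_pos_iff_exists_ne_zero.2 ⟨1, h0⟩
  have hdR : (1 : ℝ) ≤ d := by exact_mod_cast hd0
  have hm : m + 1 ≤ m' := by
    rcases hRm with hev | ⟨rfl, hA⟩
    · have h5 := h3 hev
      by_contra hne
      have h6 : m' ≤ m := by omega
      have h7 := Nat.mul_le_mul_right (rankN W (R.obj X)) h6
      omega
    · by_contra hne
      have h5 := h4 hA (by omega)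
      omega
  have hs : (0 : ℝ) < √P.size := Real.sqrt_pos.2 (by exact_mod_cast P.size_posC)
  have hR1 : (1 : ℝ) ≤ R.size := by exact_mod_cast R.size_posC
  have hd3 : (1 : ℝ) ≤ (d : ℝ) ^ 3 := one_le_pow₀ hdR
  rcases le_or_gt 0 (1 - 40 * R.size * (d : ℝ) ^ 3 / √P.size) with h5 | h5
  · have h6 : (20 * d ^ 3) ^ 2 ≤ P.size := by
      have h7 : 40 * R.size * (d : ℝ) ^ 3 ≤ √P.size := by
        have h8 : 40 * R.size * (d : ℝ) ^ 3 / √P.size ≤ 1 := by linarith
        rwa [div_le_one hs] at h8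
      have h8 : 20 * (d : ℝ) ^ 3 ≤ √P.size := by nlinarith
      have h9 := pow_le_pow_left₀ (by positivity) h8 2
      rw [Real.sq_sqrt (Nat.cast_nonneg _)] at h9
      exact_mod_cast h9
    have h7 := h2 h6
    have h8 : ((m : ℝ) + 1) ≤ m' := by exact_mod_cast hm
    refine le_trans ?_ h7
    rw [mul_assoc]
    refine mul_le_mul_of_nonneg_right h8 (mul_nonneg h5 (Nat.cast_nonneg _))
  · have h6 : ((m : ℝ) + 1) * (1 - 40 * R.size * (d : ℝ) ^ 3 / √P.size) * rankN W (P.obj X) ≤ 0 :=
      mul_nonpos_of_nonpos_of_nonneg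
        (mul_nonpos_of_nonneg_of_nonpos (by positivity) h5.le) (Nat.cast_nonneg _)
    exact h6.trans (Nat.cast_nonneg _)

/-- the classes fixed by the Frobenius are in the generalised eigenspace -/
theorem tateE_le_tateF {k : Type u} [Field k] (W : CohomologyData.{u, 0, w} k ℂ) (Y : Sch k)
    (F : W.coh Y →ₐ[ℂ] W.coh Y) : tateE W Y F ≤ tateF W Y F := by
  unfold tateE tateF
  exact inf_le_inf_right _ Module.End.eigenspace_le_maxGenEigenspace

/-- **The integrality law for the Frobenius.** -/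
theorem frobenius_integrality : FrobeniusIntegralityStatement.{u, w} := by
  intro k _ W 𝒱 hW X e hX hE' F hF T hTF
  have hE := even hW hX hE'
  have hX' : ∀ a, 𝒱.mem (X a) e := fun a => by
    rw [Subsingleton.elim a 0]
    exact hX
  have hfP : ∀ P : Prd 1, Module.Finite ℂ (W.coh (P.obj X)) := fun P =>
    hW.finite (memP (X := X) (n := fun _ => e) hX' P)
  -- the family
  obtain ⟨hT, hTe, hET⟩ : ClosedFamily W X T ∧ ExtClosed W X T ∧
      ∀ P, tateE W (P.obj X) (F P) ≤ T P := by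
    rcases hTF with h | h
    · obtain rfl : T = fun P => tateE W (P.obj X) (F P) := funext h
      exact ⟨(FrobE.closed hW hX' hF).1, (FrobE.closed hW hX' hF).2, fun P => le_rfl⟩
    · obtain rfl : T = fun P => tateF W (P.obj X) (F P) := funext h
      exact ⟨(Frob52.closed hW hX' hF).1, (Frob52.closed hW hX' hF).2,
        fun P => tateE_le_tateF W _ _⟩
  have hnd : ∀ P : Prd 1, NondegOn W (tateF W (P.obj X) (F P)) := by
    intro P
    have hP : 𝒱.mem (P.obj X) (P.dim fun _ => e) := memP (X := X) (n := fun _ => e) hX' P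
    exact fun s hs hst => Frob52.tateF_nd hW hP (F P) (hF.tr P) (fun i x hx => hF.deg P i x hx)
      hs hst
  have hroot : ¬ Diagonalisable W (F (.leaf 0)) → ∀ P : Prd 1, (rankN W (P.obj X) : ℝ) ≤
      rootC W (X 0) 160 2 P.size * Module.finrank ℂ (T P) := by
    intro hd P
    refine (frobenius_root W 𝒱 hW X hX hE' F hF hd P).trans ?_
    refine mul_le_mul_of_nonneg_left ?_ (by unfold rootC; positivity)
    exact_mod_cast Submodule.finrank_mono (hET P)
  refine ⟨hT, hTe, hnd, hroot, ?_⟩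
  by_cases h0 : (1 : W.coh (X 0)) = 0
  · left
    have h1 : (fun P => (rankN W (P.obj X) : ℝ) / Module.finrank ℂ (T P)) = fun _ => (0 : ℝ) := by
      funext P
      rw [rankN_zero h0 P, Nat.cast_zero, zero_div]
    rw [h1]
    exact tendsto_const_nhds
  have hN : ∀ P : Prd 1, (0 : ℝ) < rankN W (P.obj X) := fun P => by
    exact_mod_cast rankN_pos hW hX hE h0 P
  have hNT : ∀ P : Prd 1, (rankN W (P.obj X) : ℝ) ≤ Module.finrank ℂ (T P) := fun P => by
    exact_mod_cast (rankN_le (W := W) (P.obj X)).trans (Submodule.finrank_mono (hT.alg P))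
  have hT0 : ∀ P : Prd 1, (0 : ℝ) < Module.finrank ℂ (T P) := fun P => (hN P).trans_le (hNT P)
  have hsize : Tendsto (fun P : Prd 1 => (P.size : ℝ)) powers atTop :=
    tendsto_natCast_atTop_atTop.comp tendsto_comap
  by_cases hdiag : Diagonalisable W (F (.leaf 0))
  swap
  · left
    have h1 : Tendsto (fun P : Prd 1 => rootC W (X 0) 160 2 P.size) powers (𝓝 0) := by
      unfold rootC
      exact (Real.tendsto_sqrt_atTop.comp hsize).const_div_atTop _
    refine squeeze_zero (fun P => by positivity) (fun P => ?_) h1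
    rw [div_le_iff₀ (hT0 P)]
    exact hroot hdiag P
  have hinv : ∀ P : Prd 1, (rankN W (P.obj X) : ℝ) / Module.finrank ℂ (T P) =
      ((Module.finrank ℂ (T P) : ℝ) / rankN W (P.obj X))⁻¹ := fun P => by
    rw [inv_div]
  simp only [hinv]
  rcases main hW hX hE h0 (T := T) hT.corr with h | ⟨m, ⟨C, hC⟩, -, hA⟩
  · exact Or.inl h.inv_tendsto_atTop
  right
  obtain ⟨hD, -, hm⟩ := hA hT.alg
  -- the limit of the quotient
  have hlim : Tendsto (fun P => (Module.finrank ℂ (T P) : ℝ) / rankN W (P.obj X)) powers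
      (𝓝 m) := by
    rw [tendsto_iff_norm_sub_tendsto_zero]
    have h1 : Tendsto (fun P : Prd 1 => C / √P.size) powers (𝓝 0) :=
      (Real.tendsto_sqrt_atTop.comp hsize).const_div_atTop C
    refine squeeze_zero (fun P => norm_nonneg _) (fun P => ?_) h1
    rw [Real.norm_eq_abs]
    have h2 := hC P
    have h3 : (Module.finrank ℂ (T P) : ℝ) - m * rankN W (P.obj X) =
        ((Module.finrank ℂ (T P) : ℝ) / rankN W (P.obj X) - m) * rankN W (P.obj X) := by
      rw [sub_mul, div_mul_cancel₀ _ (hN P).ne']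
    rw [h3, abs_mul, abs_of_pos (hN P)] at h2
    exact le_of_mul_le_mul_right h2 (hN P)
  have hnb : (powers : Filter (Prd 1)).NeBot := by
    refine comap_neBot fun s hs => ?_
    obtain ⟨N, hN⟩ := mem_atTop_sets.1 hs
    obtain ⟨P, hP⟩ := TateW.exists_prd (N + 1) (Nat.succ_pos N)
    exact ⟨P, hN _ (by omega)⟩
  have hm1 : 1 ≤ m := by
    have h1 : (1 : ℝ) ≤ m := ge_of_tendsto' hlim fun P => by
      rw [one_le_div (hN P)]
      exact hNT P
    exact_mod_cast h1
  refine ⟨hD, hdiag, m, hm1, ?_, hm⟩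
  rw [one_div]
  exact hlim.inv₀ (by positivity)

end IntW

end Pool.Agent.Lib.MP_361a6f_ag.FL
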