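import Pool.Agent.Lib.MP_361a6f_ag.FL.O.IntS52

/-!
# The integrality law with the numerically trivial elements
-/

open Filter Topology MeasureTheory Module

set_option autoImplicit false
set_option linter.unusedSectionVars false
set_option linter.unusedVariables false
set_option maxHeartbeats 400000

namespace Pool.Agent.Lib.MP_361a6f_ag.FL

namespace Int52

open OL

section seqs

variable {I Λ : Type} [Fintype I] [DecidableEq I] [DecidableEq Λ] {D : Dat I Λ}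

/-- a rescaled unbounded sequence -/
theorem unbounded {g : ℕ → Matrix I I ℂ} {r : ℕ} {z : Ten I r}
    (h : ¬ ∃ B : ℝ, ∀ j, ‖ORng.toE I r (gT (g j) z)‖ ≤ B) :
    ∃ (φ : ℕ → ℕ) (e : ℕ → ℂ) (c : Ten I r), StrictMono φ ∧ hT c c = 1 ∧
      Tendsto (fun i => (e i)⁻¹ • gT (g (φ i)) z) atTop (𝓝 c) ∧
      Tendsto (fun i => (e i)⁻¹) atTop (𝓝 0) := by
  let E := ORng.toE I r
  let Ec : Ten I r ≃L[ℂ] EuclideanSpace ℂ (Fin r → I) := E.toContinuousLinearEquiv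
  have hfr : ∀ n : ℕ, ∃ᶠ j in atTop, (n : ℝ) + 1 < ‖E (gT (g j) z)‖ := by
    intro n hn
    simp only [not_lt] at hn
    obtain ⟨N, hN⟩ := eventually_atTop.1 hn
    refine h ⟨((n : ℝ) + 1) + ∑ j ∈ Finset.range N, ‖E (gT (g j) z)‖, fun j => ?_⟩
    have h0 : 0 ≤ ∑ j ∈ Finset.range N, ‖E (gT (g j) z)‖ :=
      Finset.sum_nonneg fun _ _ => norm_nonneg _
    rcases le_or_gt N j with hj | hj
    · have := hN j hj
      change ‖E (gT (g j) z)‖ ≤ _
      linarith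
    · have h1 := Finset.single_le_sum (f := fun j => ‖E (gT (g j) z)‖)
        (fun _ _ => norm_nonneg _) (Finset.mem_range.2 hj)
      have h2 : ‖E (gT (g j) z)‖ ≤ ∑ j ∈ Finset.range N, ‖E (gT (g j) z)‖ := h1
      have h3 : (0 : ℝ) ≤ n := Nat.cast_nonneg n
      change ‖E (gT (g j) z)‖ ≤ _
      linarith
  obtain ⟨φ₁, hφ₁, hbig⟩ := extraction_forall_of_frequently hfr
  have hne : ∀ j, (0 : ℝ) < ‖E (gT (g (φ₁ j)) z)‖ := fun j => by
    have h3 : (0 : ℝ) ≤ j := Nat.cast_nonneg j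
    have := hbig j
    linarith
  let x : ℕ → EuclideanSpace ℂ (Fin r → I) := fun j =>
    ((‖E (gT (g (φ₁ j)) z)‖ : ℂ))⁻¹ • E (gT (g (φ₁ j)) z)
  have hx : ∀ j, x j ∈ Metric.sphere (0 : EuclideanSpace ℂ (Fin r → I)) 1 := by
    intro j
    rw [mem_sphere_zero_iff_norm, norm_smul, norm_inv, Complex.norm_real, norm_norm]
    exact inv_mul_cancel₀ (hne j).ne'
  obtain ⟨c', hc', φ, hφ, hlim⟩ := (isCompact_sphere (0 : EuclideanSpace ℂ (Fin r → I))
    1).tendsto_subseq hx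
  refine ⟨fun i => φ₁ (φ i), fun i => (‖E (gT (g (φ₁ (φ i))) z)‖ : ℂ), E.symm c',
    hφ₁.comp hφ, ?_, ?_, ?_⟩
  · rw [ORng.hT_E]
    have h1 : ORng.toE I r (E.symm c') = c' := LinearEquiv.apply_symm_apply _ _
    rw [h1, inner_self_eq_norm_sq_to_K, mem_sphere_zero_iff_norm.1 hc']
    norm_num
  · have h1 := (Ec.symm.continuous.tendsto c').comp hlim
    refine h1.congr fun i => ?_
    change Ec.symm (((‖E (gT (g (φ₁ (φ i))) z)‖ : ℂ))⁻¹ • E (gT (g (φ₁ (φ i))) z)) = _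
    rw [map_smul]
    exact congrArg _ (Ec.symm_apply_apply _)
  · refine squeeze_zero_norm (fun i => ?_) (tendsto_one_div_add_atTop_nhds_zero_nat (𝕜 := ℝ))
    rw [norm_inv, Complex.norm_real, norm_norm, one_div]
    refine inv_anti₀ (by positivity) ?_
    have h1 := (hbig (φ i)).le
    have h2 : (i : ℝ) ≤ φ i := by exact_mod_cast hφ.le_apply
    exact le_trans (by linarith) h1

/-- a convergent subsequence of a bounded sequence -/
theorem bounded {g : ℕ → Matrix I I ℂ} {r t : ℕ} (f : Fin t → Ten I r)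
    (h : ∀ i, ∃ B : ℝ, ∀ j, ‖ORng.toE I r (gT (g j) (f i))‖ ≤ B) :
    ∃ (φ : ℕ → ℕ) (c : Fin t → Ten I r), StrictMono φ ∧
      ∀ i, Tendsto (fun j => gT (g (φ j)) (f i)) atTop (𝓝 (c i)) := by
  let E := ORng.toE I r
  let Ec : Ten I r ≃L[ℂ] EuclideanSpace ℂ (Fin r → I) := E.toContinuousLinearEquiv
  choose B hB using h
  let x : ℕ → Fin t → EuclideanSpace ℂ (Fin r → I) := fun j i => E (gT (g j) (f i))
  have hx : ∀ j, x j ∈ Set.pi Set.univ fun i =>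
      Metric.closedBall (0 : EuclideanSpace ℂ (Fin r → I)) (B i) := by
    intro j i _
    rw [mem_closedBall_zero_iff]
    exact hB i j
  obtain ⟨c', hc', φ, hφ, hlim⟩ := (isCompact_univ_pi fun i : Fin t =>
    isCompact_closedBall (0 : EuclideanSpace ℂ (Fin r → I)) (B i)).tendsto_subseq hx
  refine ⟨φ, fun i => E.symm (c' i), hφ, fun i => ?_⟩
  have h1 := (Ec.symm.continuous.tendsto (c' i)).comp (tendsto_pi_nhds.1 hlim i)
  refine h1.congr fun j => ?_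
  exact Ec.symm_apply_apply _

end seqs

section lim2

variable {E : Type*} [NormedAddCommGroup E] [NormedSpace ℂ E]

/-- the limits of the sequences `G i y`, `y` in `P` -/
def LimC (P : Submodule ℂ E) (G : ℕ → E →ₗ[ℂ] E) : Submodule ℂ E where
  carrier := {w | ∃ y ∈ P, Tendsto (fun i => G i y) atTop (𝓝 w)}
  add_mem' := by
    rintro a b ⟨y, hy, hy'⟩ ⟨z, hz, hz'⟩
    refine ⟨y + z, add_mem hy hz, ?_⟩
    simp only [map_add]
    exact hy'.add hz'
  zero_mem' := ⟨0, zero_mem _, by simp only [map_zero]; exact tendsto_const_nhds⟩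
  smul_mem' := by
    rintro r a ⟨y, hy, hy'⟩
    refine ⟨r • y, Submodule.smul_mem _ _ hy, ?_⟩
    simp only [map_smul]
    exact hy'.const_smul r

end lim2

/-- the arithmetic of the root law -/
theorem root_arith {r n d : ℕ} (hr0 : 0 < r) (hd : 0 < d) (hn : (20 * d ^ 3) ^ 2 ≤ n)
    {N T : ℝ} (hN0 : 0 ≤ N)
    (h : 0 ≤ 1 - 40 * (r * ⌊Real.sqrt n / (80 * r * (d : ℝ) ^ 3)⌋₊ : ℕ) * (d : ℝ) ^ 3 /
        Real.sqrt n →
      ((⌊Real.sqrt n / (80 * r * (d : ℝ) ^ 3)⌋₊ : ℝ) + 1) *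
        ((1 - 40 * (r * ⌊Real.sqrt n / (80 * r * (d : ℝ) ^ 3)⌋₊ : ℕ) * (d : ℝ) ^ 3 /
          Real.sqrt n) * N) ≤ T) :
    Real.sqrt n * N ≤ 160 * r * (d : ℝ) ^ 3 * T := by
  have hdR : (1 : ℝ) ≤ d := by exact_mod_cast hd
  have hd3 : (1 : ℝ) ≤ (d : ℝ) ^ 3 := one_le_pow₀ hdR
  have hrR : (1 : ℝ) ≤ r := by exact_mod_cast hr0
  have hn0 : 0 < n := lt_of_lt_of_le (by positivity) hn
  have hs : 0 < Real.sqrt n := Real.sqrt_pos.2 (by exact_mod_cast hn0)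
  set A : ℝ := 80 * r * (d : ℝ) ^ 3 with hA
  have hA0 : 0 < A := by positivity
  set k : ℕ := ⌊Real.sqrt n / A⌋₊ with hk
  have hk1 : (k : ℝ) ≤ Real.sqrt n / A := Nat.floor_le (by positivity)
  have hk2 : Real.sqrt n / A < k + 1 := Nat.lt_floor_add_one _
  have hk3 : 40 * (r * k : ℕ) * (d : ℝ) ^ 3 / Real.sqrt n ≤ 1 / 2 := by
    rw [div_le_iff₀ hs]
    rw [le_div_iff₀ hA0] at hk1
    push_cast
    rw [hA] at hk1
    nlinarith
  have h1 := h (by linarith)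
  rw [div_lt_iff₀ hA0] at hk2
  have h2 : ((k : ℝ) + 1) * (1 / 2 * N) ≤ T := by
    refine le_trans ?_ h1
    refine mul_le_mul_of_nonneg_left ?_ (by positivity)
    exact mul_le_mul_of_nonneg_right (by linarith) hN0
  have h3 : Real.sqrt n * N ≤ ((k : ℝ) + 1) * A * N := mul_le_mul_of_nonneg_right hk2.le hN0
  calc Real.sqrt n * N ≤ ((k : ℝ) + 1) * A * N := h3
    _ = 2 * A * (((k : ℝ) + 1) * (1 / 2 * N)) := by ring
    _ ≤ 2 * A * T := mul_le_mul_of_nonneg_left h2 (by positivity)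
    _ = 160 * r * (d : ℝ) ^ 3 * T := by rw [hA]; ring

section lay

variable {I Λ β : Type} [Fintype I] [DecidableEq I] [DecidableEq Λ] [Fintype β] {lb : β → ℕ}
  {D : Dat I Λ} {At : (L : ℕ) → Ten I L → Prop}
  {b : Tup I lb} {H : HMb D b} {m : ℕ} {g : ℕ → Matrix I I ℂ} {κ : Matrix I I ℂ}

/-- the layers of a vector all of whose powers are orthogonal to the invariants -/
theorem layers (a1 : Alg1) (a2 : Alg2) (ab : AlgB) (cpt : CptbStatement) (mn : MinbStatement)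
    (l1 : L1bStatement) (l2 : L2bStatement) (S : ASys D At)
    (hu : ∃ u ∈ RA At 1, ∃ w ∈ RA At 1, psiT D u w ≠ 0)
    {T : (L : ℕ) → Submodule ℂ (Ten I L)} (hT' : ∀ L, CA At L ≤ T L)
    (ho : ∀ p q, ∀ u ∈ T p, ∀ v ∈ T q, outer u v ∈ T (p + q))
    (hct : ∀ p c, ∀ u ∈ T p, ∀ v ∈ CA At (p + c), cont D u v ∈ T c) {r : ℕ} (hr0 : 0 < r)
    (L : LevData D At m H g κ) {v : Ten I 1} (hv0 : v ≠ 0) (hvf : v ∈ fixS H a1 1)
    {z : Ten I r} (hzT : z ∈ T r)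
    (d : ℕ) (hd : 0 < d) (hI : Fintype.card I = d) (k n : ℕ) (hn : (20 * d ^ 3) ^ 2 ≤ n)
    (hm : n + r * k + r + 1 ≤ m)
    (hk : 0 ≤ 1 - 40 * (r * k : ℕ) * (d : ℝ) ^ 3 / Real.sqrt n)
    {φ : ℕ → ℕ} {e : ℕ → ℂ} {c : Ten I r} (hφ : StrictMono φ) (hc : hT c c = 1)
    (hlim : Tendsto (fun i => (e i)⁻¹ • gT (g (φ i)) z) atTop (𝓝 c))
    (hort : ∀ j < k, ∀ f ∈ fixS H a1 (r * (j + 1)), psiT D (Ind.pw c (j + 1)) f = 0) :
    ((k : ℝ) + 1) * ((1 - 40 * (r * k : ℕ) * (d : ℝ) ^ 3 / Real.sqrt n) *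
      (rkA D At n : ℝ)) ≤ (finrank ℂ (T n) : ℝ) := by
  have h1T : (fun _ => (1 : ℂ)) ∈ T 0 := hT' 0 (Submodule.subset_span S.one)
  -- an invariant tensor of length `r` and norm one
  have hpos : 0 < finrank ℂ (fixS H a1 r) := by
    rw [finrank_lim L a1 (by omega : r ≤ m)]
    have h1 := O52.grow_c a1 a2 ab cpt mn l1 l2 S hu r hr0
    rw [hI] at h1
    have h2 : (0 : ℝ) < (d : ℝ) ^ r := by positivity
    have h3 : (rkA D At r : ℝ) ≠ 0 := by
      intro h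
      rw [h, mul_zero] at h1
      linarith
    have h4 : rkA D At r ≠ 0 := fun h => h3 (by rw [h, Nat.cast_zero])
    omega
  obtain ⟨q, hqf, hq1⟩ := unit_fix H a1 hpos
  obtain ⟨yq, hyq, hyq'⟩ := L.surj r (by omega) q hqf
  -- the moments of the function `⟨x c, c⟩`
  have hmom : ∀ j, 1 ≤ j → j ≤ k → ∫ x, (hT (gT (H.mat x) c) c) ^ j ∂H.μ = 0 := by
    intro j hj1 hjk
    obtain ⟨j', rfl⟩ : ∃ j', j = j' + 1 := ⟨j - 1, by omega⟩
    exact moments H a1 a2 c (j' + 1) fun f hf => hort j' (by omega) f hf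
  have huc : Continuous fun x : H.K => hT (gT (H.mat x) c) c := by
    have h1 : Continuous fun x : H.K => gT (H.mat x) c := AvbRow.cont_gT_k a1 H c
    unfold hT
    exact continuous_finsetSum _ fun w _ => ((continuous_apply w).comp h1).mul continuous_const
  obtain ⟨xs, hxs⟩ := many_values H huc (by
    rw [map_one, a1.gT_one, hc]
    exact one_ne_zero) k hmom
  -- the tuple
  obtain ⟨e', heM, heon, heex⟩ := onb (gen H (pad c q k))
  have hFr : Fr H e' := ⟨heon, fun x l => heex _ (gen_stable H a1 _ x _ (heM l))⟩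
  have hMk := le_gen H a2 c q hqf hq1 k xs hxs
  -- the limits of the contractions
  have hYT : finrank ℂ (Lim fun j => (T n).map (OL.gL a1 n (g (φ j)))) ≤ finrank ℂ (T n) :=
    finrank_Lim _ _ fun j => Submodule.finrank_map_le _ _
  have h1 := WW_le H a1 e' a2 hFr (c := pad c q k) heM _ fun j φ₀ hφ₀ =>
    pad_mem (n := n) L a1 a2 h1T ho hct hzT (hT' r hyq) hφ hlim hyq' (by omega) j φ₀ hφ₀
  have h2 := WW_low H a1 e' d hd hI hv0 hvf hFr n hn
  rw [finrank_lim L a1 (by omega : n ≤ m)] at h2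
  have h3 : ((k : ℝ) + 1) ≤ (finrank ℂ (gen H (pad c q k)) : ℝ) := by exact_mod_cast hMk
  have h4 : 0 ≤ (1 - 40 * (r * k : ℕ) * (d : ℝ) ^ 3 / Real.sqrt n) * (rkA D At n : ℝ) :=
    mul_nonneg hk (Nat.cast_nonneg _)
  refine (mul_le_mul_of_nonneg_right h3 h4).trans (h2.trans ?_)
  exact_mod_cast h1.trans hYT

/-- the powers of the limit of a rescaled unbounded sequence are orthogonal to the invariants -/
theorem horth_unbounded (L : LevData D At m H g κ) (a1 : Alg1) (a2 : Alg2) {r : ℕ}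
    {z : Ten I r} {φ : ℕ → ℕ} (hφ : StrictMono φ) {e : ℕ → ℂ} {c : Ten I r}
    (hlim : Tendsto (fun i => (e i)⁻¹ • gT (g (φ i)) z) atTop (𝓝 c))
    (he : Tendsto (fun i => (e i)⁻¹) atTop (𝓝 0)) (j : ℕ)
    (hle : r * (j + 1) ≤ m) (f : Ten I (r * (j + 1))) (hf : f ∈ fixS H a1 (r * (j + 1))) :
    psiT D (Ind.pw c (j + 1)) f = 0 := by
  obtain ⟨y, hy, hy'⟩ := L.surj (r * (j + 1)) hle f hf
  have h2 := psi_tendsto D (pw_tendsto hlim (j + 1)) (hy'.comp hφ.tendsto_atTop)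
  refine tendsto_nhds_unique h2 ?_
  have h3 : ∀ i, psiT D (Ind.pw ((e i)⁻¹ • gT (g (φ i)) z) (j + 1))
      (((fun j => gT (g j) y) ∘ φ) i) = (e i)⁻¹ ^ (j + 1) * psiT D (Ind.pw z (j + 1)) y := by
    intro i
    have h4 : Ind.pw ((e i)⁻¹ • gT (g (φ i)) z) (j + 1) =
        (e i)⁻¹ ^ (j + 1) • gT (g (φ i)) (Ind.pw z (j + 1)) := by
      rw [Ind.pw_smul, Ind.gT_pw a2]
    have h5 : psiT D ((e i)⁻¹ ^ (j + 1) • gT (g (φ i)) (Ind.pw z (j + 1))) (gT (g (φ i)) y) =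
        (e i)⁻¹ ^ (j + 1) * psiT D (gT (g (φ i)) (Ind.pw z (j + 1))) (gT (g (φ i)) y) := by
      rw [← Qps.psiL_apply, map_smul, LinearMap.smul_apply, Qps.psiL_apply, smul_eq_mul]
    change psiT D (Ind.pw ((e i)⁻¹ • gT (g (φ i)) z) (j + 1)) (gT (g (φ i)) y) = _
    rw [h4, h5, a1.psiT_gT D _ _ _ (L.G (φ i))]
  simp only [h3]
  have h6 := (he.pow (j + 1)).mul_const (psiT D (Ind.pw z (j + 1)) y)
  rw [zero_pow (Nat.succ_ne_zero j), zero_mul] at h6
  exact h6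

end lay

end Int52

end Pool.Agent.Lib.MP_361a6f_ag.FL
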