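import Pool.Agent.Lib.MP_361a6f_ag.FL.O.IntM52

/-!
# The integrality law with the numerically trivial elements: one level
-/

open Filter Topology MeasureTheory Module

set_option autoImplicit false
set_option linter.unusedSectionVars false
set_option linter.unusedVariables false
set_option maxHeartbeats 400000

namespace Pool.Agent.Lib.MP_361a6f_ag.FL

namespace Int52

open OL

section frame

variable {I Λ β : Type} [Fintype I] [DecidableEq I] [DecidableEq Λ] [Fintype β] {lb : β → ℕ}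
  {D : Dat I Λ} {b : Tup I lb} (H : HMb D b) (a1 : Alg1)

/-- if the space generated by `c` is at most a line and the span of `c` contains an invariant
tensor then `c` is invariant -/
theorem one_of_line {t r : ℕ} {c : Fin t → Ten I r} (hM : finrank ℂ (gen H c) ≤ 1)
    {f : Ten I r} (hf : f ∈ fixS H a1 r) (hf0 : f ≠ 0)
    (hfc : f ∈ Submodule.span ℂ (Set.range c)) (x : H.K) (i : Fin t) :
    gT (H.mat x) (c i) = c i := by
  have hcM : c ∈ gen H c := by
    refine Submodule.subset_span ⟨1, ?_⟩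
    funext i
    change gT (H.mat 1) (c i) = c i
    rw [map_one, a1.gT_one]
  have hline : ∃ s : ℂ, gg (H.mat x) c = s • c := by
    by_cases hc0 : c = 0
    · refine ⟨0, ?_⟩
      rw [hc0, smul_zero]
      funext i
      exact map_zero (OL.gL a1 r (H.mat x))
    · have h1 : finrank ℂ (gen H c) = 1 := by
        have h2 : 0 < finrank ℂ (gen H c) :=
          Module.finrank_pos_iff_exists_ne_zero.2 ⟨⟨c, hcM⟩, fun h => hc0 (congrArg
            (fun u : gen H c => (u : Fin t → Ten I r)) h)⟩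
        omega
      obtain ⟨s, hs⟩ := exists_smul_eq_of_finrank_eq_one h1
        (x := (⟨c, hcM⟩ : gen H c)) (fun h => hc0 (congrArg
            (fun u : gen H c => (u : Fin t → Ten I r)) h))
        (⟨gg (H.mat x) c, gen_stable H a1 _ x c hcM⟩ : gen H c)
      exact ⟨s, (congrArg (fun u : gen H c => (u : Fin t → Ten I r)) hs).symm⟩
  obtain ⟨s, hs⟩ := hline
  have h1 : ∀ i, gT (H.mat x) (c i) = s • c i := fun i => congrFun hs i
  have h2 : gT (H.mat x) f = s • f := by
    have h3 : ∀ u ∈ Submodule.span ℂ (Set.range c), gT (H.mat x) u = s • u := by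
      intro u hu
      induction hu using Submodule.span_induction with
      | mem u hu =>
        obtain ⟨i, rfl⟩ := hu
        exact h1 i
      | zero =>
        rw [smul_zero]
        exact map_zero (OL.gL a1 r (H.mat x))
      | add a b _ _ ha hb => rw [a1.gT_add, ha, hb, smul_add]
      | smul q a _ ha => rw [a1.gT_smul, ha, smul_comm]
    exact h3 f hfc
  rw [hf x] at h2
  have h3 : s = 1 := by
    have h4 : (1 - s) • f = 0 := by rw [sub_smul, one_smul, ← h2, sub_self]
    rcases smul_eq_zero.1 h4 with h5 | h5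
    · exact (sub_eq_zero.1 h5).symm
    · exact absurd h5 hf0
  rw [h1 i, h3, one_smul]

end frame

section plus

variable {I Λ : Type} [Fintype I] [DecidableEq I] [DecidableEq Λ]
  {D : Dat I Λ} {At : (L : ℕ) → Ten I L → Prop}

/-- an element orthogonal to the members is orthogonal to their complex span -/
theorem orth_CA {L : ℕ} {z : Ten I L} (hz : ∀ w ∈ RA At L, psiT D z w = 0) (y : Ten I L)
    (hy : y ∈ CA At L) : psiT D z y = 0 := by
  unfold CA at hy
  induction hy using Submodule.span_induction with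
  | mem y hy => exact hz y (Submodule.subset_span hy)
  | zero => rw [← Qps.psiL_apply, map_zero]
  | add a b _ _ ha hb => rw [← Qps.psiL_apply, map_add, Qps.psiL_apply, Qps.psiL_apply, ha, hb,
      add_zero]
  | smul c a _ ha => rw [← Qps.psiL_apply, map_smul, Qps.psiL_apply, ha, smul_zero]

/-- **One level, with the numerically trivial elements.** -/
theorem plus (a1 : Alg1) (a2 : Alg2) (ab : AlgB) (cpt : CptbStatement) (mn : MinbStatement)
    (l1 : L1bStatement) (l2 : L2bStatement) (S : ASys D At)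
    (hu : ∃ u ∈ RA At 1, ∃ w ∈ RA At 1, psiT D u w ≠ 0)
    {T : (L : ℕ) → Submodule ℂ (Ten I L)} (hT' : ∀ L, CA At L ≤ T L)
    (ho : ∀ p q, ∀ u ∈ T p, ∀ v ∈ T q, outer u v ∈ T (p + q))
    (hct : ∀ p c, ∀ u ∈ T p, ∀ v ∈ CA At (p + c), cont D u v ∈ T c) {r n : ℕ} (hr0 : 0 < r)
    (hnd : ∀ u ∈ T n, (∀ v ∈ T n, psiT D u v = 0) → u = 0)
    (d : ℕ) (hd : 0 < d) (hI : Fintype.card I = d) (hn : (20 * d ^ 3) ^ 2 ≤ n)
    (hD : numA D At r = ⊥) (hndr : ∀ u ∈ T r, (∀ v ∈ T r, psiT D u v = 0) → u = 0) :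
    2 * finrank ℂ (CA At n) ≤ finrank ℂ (T n) + rkA D At n ∧
    (Real.sqrt n * (rkA D At n : ℝ) ≤ 160 * r * (d : ℝ) ^ 3 * (finrank ℂ (T n) : ℝ) ∨
    ∃ m : ℕ, (Even r → finrank ℂ (T r) ≤ m * rkA D At r) ∧
      (m ≤ 1 → finrank ℂ (T r) ≤ rkA D At r) ∧
      m * ((1 - 40 * r * (d : ℝ) ^ 3 / Real.sqrt n) * (rkA D At n : ℝ)) +
        2 * (finrank ℂ (CA At n) : ℝ) ≤ (finrank ℂ (T n) : ℝ) + 2 * (rkA D At n : ℝ)) := by
  set k : ℕ := ⌊Real.sqrt n / (80 * r * (d : ℝ) ^ 3)⌋₊ with hk
  obtain ⟨β, _, lb, b, H, g, κ, L⟩ := LevO.lev a1 a2 ab cpt mn l1 l2 S (n + r * k + r + 1)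
  obtain ⟨v, hv0, hvf⟩ := fixed_vector L a1 (by omega) hu
  let gl : ℕ → Ten I n →ₗ[ℂ] Ten I n := fun i => OL.gL a1 n (g i)
  obtain ⟨R, hRC, hR0, hRdim⟩ := Tate52.gen_ker (CA At n) (fixS H a1 n) gl (fun y hy => by
    obtain ⟨v, hv, hf⟩ := L.lim n (by omega) y hy
    exact ⟨v, hf, hv⟩)
  have hRpsi : ∀ y ∈ R, ∀ w ∈ CA At n, psiT D y w = 0 := by
    intro y hy w hw
    obtain ⟨w', hw', -⟩ := L.lim n (by omega) w hw
    have h1 := L.psi n y w 0 w' (hR0 y hy) hw'
    rw [← Qps.psiL_apply, map_zero, LinearMap.zero_apply] at h1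
    exact h1.symm
  rw [finrank_lim L a1 (by omega : n ≤ n + r * k + r + 1)] at hRdim
  have hiso := Tate52.ann (Qps.psiL D n) (T n) (CA At n) R (hT' n) (hRC.trans (hT' n)) hnd hRpsi
  refine ⟨by omega, ?_⟩
  by_cases hb : ∀ f ∈ T r, ∃ B : ℝ, ∀ j, ‖ORng.toE I r (gT (g j) f)‖ ≤ B
  swap
  · -- an unbounded orbit: the root law
    left
    push Not at hb
    obtain ⟨z, hzT, hz⟩ := hb
    obtain ⟨φ, e, c, hφ, hc, hlim, he⟩ := unbounded (g := g) (z := z) (by
      rintro ⟨B, hB⟩
      obtain ⟨j, hj⟩ := hz B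
      exact absurd (hB j) (not_le.2 hj))
    refine root_arith hr0 hd hn (Nat.cast_nonneg _) fun hk0 => ?_
    exact layers a1 a2 ab cpt mn l1 l2 S hu hT' ho hct hr0 L hv0 hvf hzT d hd hI k n hn le_rfl
      hk0 hφ hc hlim fun j hj f hf => horth_unbounded L a1 a2 hφ hlim he j (by
        have := Nat.mul_le_mul_left r (Nat.succ_le_of_lt hj)
        rw [Nat.succ_eq_add_one] at this
        omega) f hf
  right
  -- a basis of `T r` and its limits
  let bs := finBasis ℂ (T r)
  let f : Fin (finrank ℂ (T r)) → Ten I r := fun i => (bs i : Ten I r)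
  have hfT : ∀ i, f i ∈ T r := fun i => (bs i).2
  obtain ⟨φ, c, hφ, hlim⟩ := bounded (g := g) f fun i => hb (f i) (hfT i)
  have hlimL : ∀ y : T r, Tendsto (fun j => gT (g (φ j)) (y : Ten I r)) atTop
      (𝓝 (∑ i, bs.repr y i • c i)) := by
    intro y
    have h1 : (y : Ten I r) = ∑ i, bs.repr y i • f i := by
      have h4 := congrArg (T r).subtype (bs.sum_repr y)
      rw [map_sum] at h4
      exact h4.symm
    have h2 : Tendsto (fun j => ∑ i, bs.repr y i • gT (g (φ j)) (f i)) atTop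
        (𝓝 (∑ i, bs.repr y i • c i)) :=
      tendsto_finsetSum _ fun i _ => (hlim i).const_smul _
    refine h2.congr fun j => ?_
    rw [h1]
    change _ = OL.gL a1 r (g (φ j)) (∑ i, bs.repr y i • f i)
    rw [map_sum]
    exact Finset.sum_congr rfl fun i _ => ((OL.gL a1 r (g (φ j))).map_smul _ _).symm
  have hli : LinearIndependent ℂ c := by
    rw [Fintype.linearIndependent_iff]
    intro a ha
    let z : T r := ∑ i, a i • bs i
    have hrz : ∀ i, bs.repr z i = a i := by
      intro i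
      simp only [z, map_sum, map_smul, Basis.repr_self, Finsupp.coe_finsetSum, Finset.sum_apply,
        Finsupp.smul_apply, smul_eq_mul, Finsupp.single_apply, mul_ite, mul_one, mul_zero,
        Finset.sum_ite_eq', Finset.mem_univ, if_true]
    have hz0 : (z : Ten I r) = 0 := by
      refine hndr z z.2 fun y hy => ?_
      have h1 := psi_tendsto D (hlimL z) (hlimL ⟨y, hy⟩)
      have h2 : ∑ i, bs.repr z i • c i = 0 := by
        simp only [hrz]
        exact ha
      rw [h2, ← Qps.psiL_apply, map_zero, LinearMap.zero_apply] at h1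
      have h3 : ∀ j, psiT D (gT (g (φ j)) (z : Ten I r)) (gT (g (φ j)) y) =
          psiT D (z : Ten I r) y := fun j => a1.psiT_gT D _ _ _ (L.G (φ j))
      have h4 : Tendsto (fun _ : ℕ => psiT D (z : Ten I r) y) atTop (𝓝 0) :=
        h1.congr h3
      exact tendsto_nhds_unique tendsto_const_nhds h4
    have hz1 : z = 0 := Subtype.ext hz0
    intro i
    rw [← hrz i, hz1, map_zero, Finsupp.zero_apply]
  -- the space generated by `c`
  obtain ⟨e, heM, heon, heex⟩ := onb (gen H c)
  have hcM : c ∈ gen H c := by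
    refine Submodule.subset_span ⟨1, ?_⟩
    funext i
    change gT (H.mat 1) (c i) = c i
    rw [map_one, a1.gT_one]
  have hFr : Fr H e := ⟨heon, fun x l => heex _ (gen_stable H a1 _ x _ (heM l))⟩
  -- the members of `T n` orthogonal to `R`
  let P : Submodule ℂ (Ten I n) :=
    { carrier := {y | y ∈ T n ∧ ∀ w ∈ R, psiT D y w = 0}
      add_mem' := by
        rintro a b ⟨ha, ha'⟩ ⟨hb, hb'⟩
        refine ⟨add_mem ha hb, fun w hw => ?_⟩
        rw [← Qps.psiL_apply, map_add, LinearMap.add_apply, Qps.psiL_apply, Qps.psiL_apply,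
          ha' w hw, hb' w hw, add_zero]
      zero_mem' := ⟨zero_mem _, fun w _ => by
        rw [← Qps.psiL_apply, map_zero, LinearMap.zero_apply]⟩
      smul_mem' := by
        rintro r a ⟨ha, ha'⟩
        refine ⟨Submodule.smul_mem _ r ha, fun w hw => ?_⟩
        rw [← Qps.psiL_apply, map_smul, LinearMap.smul_apply, Qps.psiL_apply, ha' w hw,
          smul_zero] }
  have hP := Tate52.ann (Qps.psiL D n) (T n) R P (hRC.trans (hT' n)) (fun y hy => hy.1) hnd
    (fun y hy => hy.2)
  let Y : Submodule ℂ (Ten I n) := LimC P fun j => gl (φ j)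
  have hPY := Tate52.gen_lim P (fun j => gl (φ j)) R
    (fun y hy => ⟨hT' n (hRC hy), fun w hw => hRpsi y hy w (hRC hw)⟩)
    (fun y hy => (hR0 y hy).comp hφ.tendsto_atTop) Y (fun w hw => hw)
  have hY : ∀ i, ∀ φ₀ ∈ fixS H a1 (r + n), cont D (c i) φ₀ ∈ Y := by
    intro i φ₀ hφ₀
    obtain ⟨y, hy, hy'⟩ := L.surj (r + n) (by omega) φ₀ hφ₀
    refine ⟨cont D (f i) y, ⟨hct r n _ (hfT i) y hy, fun w hw => ?_⟩, ?_⟩
    · have h1 := Tate52.ca_flip S hy
      have hwC := hRC hw
      rw [Tate52.psi_cont (f i) w (Tate52.ca_even a1 S hwC), ← Tate52.psi_cont']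
      have h2 : cont D w (fun v : Fin (n + r) → I => y (v ∘ finAddFlip)) = 0 :=
        Tate52.rad_zero S hD (T2A.cont_mem S n r w hwC _ h1) fun u hu =>
          Tate52.orth_cont a1 S (hRpsi w hw) h1 hu
      rw [h2, ← Qps.psiL_apply, map_zero]
    · have h1 := cont_tendsto D (hlim i) (hy'.comp hφ.tendsto_atTop)
      have h2 : ∀ j, cont D (gT (g (φ j)) (f i)) (((fun j => gT (g j) y) ∘ φ) j) =
          gl (φ j) (cont D (f i) y) := fun j => (a2.cont_gT D (g (φ j)) _ _ (L.G (φ j))).symm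
      exact h1.congr h2
  refine ⟨finrank ℂ (gen H c), fun hev => ?_, fun hM => ?_, ?_⟩
  · have h1 := le_WW H a1 e hFr (c := c) (heex c hcM) hli
    have h2 := WW_even H a1 e hFr hev
    rw [finrank_lim L a1 (by omega : r ≤ n + r * k + r + 1)] at h2
    exact h1.trans h2
  · rw [← finrank_lim L a1 (by omega : r ≤ n + r * k + r + 1)]
    have hpos : 0 < finrank ℂ (fixS H a1 r) := by
      rw [finrank_lim L a1 (by omega : r ≤ n + r * k + r + 1)]
      have h1 := O52.grow_c a1 a2 ab cpt mn l1 l2 S hu r hr0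
      rw [hI] at h1
      have h2 : (0 : ℝ) < (d : ℝ) ^ r := by positivity
      have h3 : (rkA D At r : ℝ) ≠ 0 := by
        intro h
        rw [h, mul_zero] at h1
        linarith
      have h4 : rkA D At r ≠ 0 := fun h => h3 (by rw [h, Nat.cast_zero])
      omega
    obtain ⟨⟨f₀, hf₀⟩, hf0⟩ := Module.finrank_pos_iff_exists_ne_zero.1 hpos
    have hf0' : f₀ ≠ 0 := fun h => hf0 (Subtype.ext h)
    obtain ⟨y, hy, hy'⟩ := L.surj r (by omega) f₀ hf₀
    have hfc : f₀ ∈ Submodule.span ℂ (Set.range c) := by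
      have h1 := hlimL ⟨y, hT' r hy⟩
      have h2 : Tendsto (fun j => gT (g (φ j)) y) atTop (𝓝 f₀) := hy'.comp hφ.tendsto_atTop
      rw [tendsto_nhds_unique h2 h1]
      exact Submodule.sum_mem _ fun i _ =>
        Submodule.smul_mem _ _ (Submodule.subset_span ⟨i, rfl⟩)
    have hone := fun x i => one_of_line H a1 hM hf₀ hf0' hfc x i
    have hli' : LinearIndependent ℂ fun i => (⟨c i, fun x => hone x i⟩ : fixS H a1 r) :=
      LinearIndependent.of_comp (fixS H a1 r).subtype hli
    have h5 := hli'.fintype_card_le_finrank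
    rwa [Fintype.card_fin] at h5
  · have h1 := WW_le H a1 e a2 hFr (c := c) heM Y hY
    have h2 := WW_low H a1 e d hd hI hv0 hvf hFr n hn
    rw [finrank_lim L a1 (by omega : n ≤ n + r * k + r + 1)] at h2
    have h3 : (finrank ℂ (WW H a1 e n) : ℝ) ≤ finrank ℂ Y := by exact_mod_cast h1
    have h4 : (finrank ℂ (CA At n) : ℝ) ≤ finrank ℂ R + rkA D At n := by exact_mod_cast hRdim
    have h5 : (finrank ℂ P : ℝ) + finrank ℂ R ≤ finrank ℂ (T n) := by exact_mod_cast hP
    have h6 : (finrank ℂ R : ℝ) + finrank ℂ Y ≤ finrank ℂ P := by exact_mod_cast hPY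
    linarith

end plus

end Int52

end Pool.Agent.Lib.MP_361a6f_ag.FL
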