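import Pool.Agent.Lib.MP_361a6f_ag.FL.O.IntE52

/-!
# The root law for a family with a degenerate form
-/

open Filter Topology MeasureTheory Module

set_option autoImplicit false
set_option linter.unusedSectionVars false
set_option linter.unusedVariables false
set_option maxHeartbeats 400000

namespace Pool.Agent.Lib.MP_361a6f_ag.FL

namespace Int52

open OL

/-! ### A function all of whose moments vanish has many values -/

section values

variable {I Λ β : Type} [Fintype I] [DecidableEq I] [DecidableEq Λ] [Fintype β]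
  {lb : β → ℕ} {D : Dat I Λ} {b : Tup I lb} (H : HMb D b)

theorem exists_values {S : Finset ℂ} {k : ℕ} (hS : S.card = k + 1) {u : H.K → ℂ}
    (h : (S : Set ℂ) ⊆ Set.range u) :
    ∃ x : Fin (k + 1) → H.K, Function.Injective fun i => u (x i) := by
  let e := S.equivFinOfCardEq hS
  have h1 : ∀ i, ∃ x, u x = (e.symm i : ℂ) := fun i => h (e.symm i).2
  choose x hx using h1
  refine ⟨x, fun i j hij => ?_⟩
  simp only [hx] at hij
  exact e.symm.injective (Subtype.ext hij)

theorem many_values {u : H.K → ℂ} (hu : Continuous u) (h1 : u 1 ≠ 0) (k : ℕ)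
    (hk : ∀ j, 1 ≤ j → j ≤ k → ∫ x, u x ^ j ∂H.μ = 0) :
    ∃ x : Fin (k + 1) → H.K, Function.Injective fun i => u (x i) := by
  classical
  by_cases hfin : (Set.range u).Finite
  swap
  · obtain ⟨S, hS, hc⟩ := Set.Infinite.exists_subset_card_eq hfin (k + 1)
    exact exists_values H hc hS
  let S : Finset ℂ := hfin.toFinset
  have hSr : ∀ x, u x ∈ S := fun x => hfin.mem_toFinset.2 ⟨x, rfl⟩
  rcases Nat.lt_or_ge k S.card with hc | hc
  · obtain ⟨S', hS', hc'⟩ := Finset.exists_subset_card_eq hc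
    refine exists_values H hc' fun y hy => hfin.mem_toFinset.1 (hS' hy)
  exfalso
  let p : Polynomial ℂ := Polynomial.X * ∏ y ∈ S.erase (u 1), (Polynomial.X - Polynomial.C y)
  have hdeg : p.natDegree < k + 1 := by
    have h2 : p.natDegree ≤ 1 + (S.erase (u 1)).card := by
      refine Polynomial.natDegree_mul_le.trans (Nat.add_le_add Polynomial.natDegree_X_le ?_)
      rw [Polynomial.natDegree_prod_of_monic _ _ fun y _ => Polynomial.monic_X_sub_C y]
      simp
    rw [Finset.card_erase_of_mem (hSr 1)] at h2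
    have h3 : 0 < S.card := Finset.card_pos.2 ⟨_, hSr 1⟩
    omega
  have hev : ∀ y, p.eval y = y * ∏ y' ∈ S.erase (u 1), (y - y') := by
    intro y
    simp only [p, Polynomial.eval_mul, Polynomial.eval_X, Polynomial.eval_prod,
      Polynomial.eval_sub, Polynomial.eval_C]
  have h0 : p.coeff 0 = 0 := by
    rw [Polynomial.coeff_zero_eq_eval_zero, hev, zero_mul]
  -- the integral of `p(u)` vanishes
  have hint : ∫ x, p.eval (u x) ∂H.μ = 0 := by
    have h2 : ∀ x, p.eval (u x) = ∑ j ∈ Finset.range (k + 1), p.coeff j * u x ^ j := fun x =>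
      Polynomial.eval_eq_sum_range' hdeg _
    simp only [h2]
    have hi : ∀ j ∈ Finset.range (k + 1), Integrable (fun x => p.coeff j * u x ^ j) H.μ :=
      fun j _ => OL.integ H (continuous_const.mul (hu.pow j))
    rw [integral_finsetSum _ hi]
    refine Finset.sum_eq_zero fun j hj => ?_
    rw [integral_const_mul]
    rcases Nat.eq_zero_or_pos j with rfl | hj0
    · rw [h0, zero_mul]
    · rw [hk j hj0 (Nat.lt_succ_iff.1 (Finset.mem_range.1 hj)), mul_zero]
  -- but `p(u)` is a nonzero multiple of the indicator of an open set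
  let U : Set H.K := {x | u x = u 1}
  have hU : IsOpen U := by
    have h2 : U = (u ⁻¹' (S.erase (u 1) : Set ℂ))ᶜ := by
      ext x
      simp only [U, Set.mem_ofPred_eq, Set.mem_compl_iff, Set.mem_preimage, Finset.mem_coe,
        Finset.mem_erase, not_and, hSr x, not_true_eq_false, imp_false, not_not]
    rw [h2]
    exact ((S.erase (u 1)).finite_toSet.isClosed.preimage hu).isOpen_compl
  have hpu : ∀ x, p.eval (u x) = U.indicator (fun _ => p.eval (u 1)) x := by
    intro x
    by_cases hx : x ∈ U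
    · have hx' : u x = u 1 := hx
      rw [Set.indicator_of_mem hx, hx']
    · rw [Set.indicator_of_notMem hx, hev]
      have h2 : u x ∈ S.erase (u 1) := Finset.mem_erase.2 ⟨hx, hSr x⟩
      rw [Finset.prod_eq_zero h2 (sub_self _), mul_zero]
  have h2 : p.eval (u 1) ≠ 0 := by
    rw [hev]
    refine mul_ne_zero h1 (Finset.prod_ne_zero_iff.2 fun y hy => ?_)
    exact sub_ne_zero.2 (Finset.ne_of_mem_erase hy).symm
  rw [integral_congr_ae (Eventually.of_forall hpu),
    integral_indicator_const _ hU.measurableSet] at hint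
  have h3 : 0 < H.μ.real U := by
    rw [measureReal_def, ENNReal.toReal_pos_iff]
    exact ⟨hU.measure_pos H.μ ⟨1, rfl⟩, measure_lt_top _ _⟩
  rcases smul_eq_zero.1 hint with h4 | h4
  · exact h3.ne' h4
  · exact h2 h4

end values

/-! ### Products of sequences of tensors -/

section mx

variable {I Λ : Type} [Fintype I] [DecidableEq I] [DecidableEq Λ]

/-- the product of the first `k` members of a sequence of tensors -/
noncomputable def mx {r : ℕ} (a : ℕ → Ten I r) : (k : ℕ) → Ten I (r * k)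
  | 0 => fun _ => 1
  | k + 1 => outer (mx a k) (a k)

theorem hT_mx {r : ℕ} (a a' : ℕ → Ten I r) (k : ℕ) :
    hT (mx a k) (mx a' k) = ∏ l ∈ Finset.range k, hT (a l) (a' l) := by
  induction k with
  | zero => simp [hT, mx]
  | succ k ih =>
    change hT (outer (mx a k) (a k)) (outer (mx a' k) (a' k)) = _
    rw [Ind.hT_outer, ih, Finset.prod_range_succ]

theorem gT_mx (a2 : Alg2) (g : Matrix I I ℂ) {r : ℕ} (a : ℕ → Ten I r) (k : ℕ) :
    gT g (mx a k) = mx (fun l => gT g (a l)) k := by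
  induction k with
  | zero => exact Ind.gT_unit g
  | succ k ih =>
    change gT g (outer (mx a k) (a k)) = outer (mx (fun l => gT g (a l)) k) (gT g (a k))
    rw [a2.outer_gT, ih]

theorem mx_smul {r : ℕ} (s : ℕ → ℂ) (a : ℕ → Ten I r) (k : ℕ) :
    mx (fun l => s l • a l) k = (∏ l ∈ Finset.range k, s l) • mx a k := by
  induction k with
  | zero => rw [Finset.prod_range_zero, one_smul]; rfl
  | succ k ih =>
    change outer (mx (fun l => s l • a l) k) (s k • a k) = _ • outer (mx a k) (a k)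
    rw [ih, Ind.outer_smul_left, Ind.outer_smul_right, smul_smul, Finset.prod_range_succ]

theorem mx_mem {A : (L : ℕ) → Submodule ℂ (Ten I L)} (h1 : (fun _ => 1) ∈ A 0)
    (ho : ∀ p q, ∀ u ∈ A p, ∀ v ∈ A q, outer u v ∈ A (p + q)) {r : ℕ} {a : ℕ → Ten I r}
    (ha : ∀ l, a l ∈ A r) (k : ℕ) : mx a k ∈ A (r * k) := by
  induction k with
  | zero => exact h1
  | succ k ih => exact ho _ _ _ ih _ (ha k)

theorem mx_lim {r : ℕ} {a : ℕ → ℕ → Ten I r} {a' : ℕ → Ten I r}
    (h : ∀ l, Tendsto (fun i => a i l) atTop (𝓝 (a' l))) (k : ℕ) :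
    Tendsto (fun i => mx (a i) k) atTop (𝓝 (mx a' k)) := by
  induction k with
  | zero => exact tendsto_const_nhds
  | succ k ih =>
    exact (Ind.outer_cont.tendsto (mx a' k, a' k)).comp (ih.prodMk_nhds (h k))

theorem prod_lt {k j : ℕ} (hj : j ≤ k) (s : ℂ) :
    ∏ l ∈ Finset.range k, (if l < j then s else 1) = s ^ j := by
  rw [Finset.prod_ite, Finset.prod_const, Finset.prod_const_one, mul_one]
  congr 1
  have : (Finset.range k).filter (fun l => l < j) = Finset.range j := by
    ext l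
    simp only [Finset.mem_filter, Finset.mem_range]
    omega
  rw [this, Finset.card_range]

/-- `ψ` is continuous -/
theorem psi_continuous (D : Dat I Λ) {L : ℕ} :
    Continuous fun x : Ten I L × Ten I L => psiT D x.1 x.2 := by
  unfold psiT
  refine continuous_finsetSum _ fun w _ => continuous_const.mul ?_
  exact ((continuous_apply w).comp continuous_fst).mul
    ((continuous_apply (D.τ ∘ w)).comp continuous_snd)

/-- `ψ` of an outer product -/
theorem psi_outer_cont (D : Dat I Λ) {p q : ℕ} (f : Ten I p) (z : Ten I q)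
    (φ : Ten I (p + q)) : psiT D (outer f z) φ = psiT D z (cont D f φ) := by
  rw [Tate52.psi_outer, Finset.sum_comm]
  unfold psiT
  refine Finset.sum_congr rfl fun w' _ => ?_
  simp only [cont]
  rw [Finset.mul_sum, Finset.mul_sum]
  refine Finset.sum_congr rfl fun w _ => ?_
  ring

/-- limits and `ψ` -/
theorem psi_tendsto (D : Dat I Λ) {L : ℕ} {a b : ℕ → Ten I L} {a' b' : Ten I L}
    (ha : Tendsto a atTop (𝓝 a')) (hb : Tendsto b atTop (𝓝 b')) :
    Tendsto (fun i => psiT D (a i) (b i)) atTop (𝓝 (psiT D a' b')) := by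
  have h1 : Tendsto (fun i => (a i, b i)) atTop (𝓝 (a', b')) := ha.prodMk_nhds hb
  have h2 := (psi_continuous D (L := L)).tendsto (a', b')
  have h3 := h2.comp h1
  exact h3

theorem cont_tendsto (D : Dat I Λ) {p c : ℕ} {a : ℕ → Ten I p} {b : ℕ → Ten I (p + c)}
    {a' : Ten I p} {b' : Ten I (p + c)}
    (ha : Tendsto a atTop (𝓝 a')) (hb : Tendsto b atTop (𝓝 b')) :
    Tendsto (fun i => cont D (a i) (b i)) atTop (𝓝 (cont D a' b')) := by
  have h1 : Tendsto (fun i => (a i, b i)) atTop (𝓝 (a', b')) := ha.prodMk_nhds hb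
  have h2 := (Ind.cont_cont D (p := p) (c := c)).tendsto (a', b')
  have h3 := h2.comp h1
  exact h3

theorem pw_tendsto {r : ℕ} {a : ℕ → Ten I r} {a' : Ten I r}
    (ha : Tendsto a atTop (𝓝 a')) (j : ℕ) :
    Tendsto (fun i => Ind.pw (a i) j) atTop (𝓝 (Ind.pw a' j)) := by
  have h := ((Ind.pw_cont (r := r) j).tendsto a').comp ha
  exact h

/-- `ψ` of a power of a radical element -/
theorem psi_pw (D : Dat I Λ) {At : (L : ℕ) → Ten I L → Prop}
    {T : (L : ℕ) → Submodule ℂ (Ten I L)} (h1T : (fun _ => 1) ∈ T 0)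
    (ho : ∀ p q, ∀ u ∈ T p, ∀ v ∈ T q, outer u v ∈ T (p + q))
    (hct : ∀ p c, ∀ u ∈ T p, ∀ v ∈ CA At (p + c), cont D u v ∈ T c) {r : ℕ}
    {z : Ten I r} (hzT : z ∈ T r) (hz : ∀ y ∈ T r, psiT D z y = 0) (j : ℕ)
    (y : Ten I (r * j + r)) (hy : y ∈ CA At (r * j + r)) :
    psiT D (outer (Ind.pw z j) z) y = 0 := by
  rw [psi_outer_cont]
  have h1 := Ind.pw_mem (A := T) h1T ho hzT j
  exact hz _ (hct (r * j) r _ h1 y hy)

/-- `ψ` of a scaled power -/
theorem psi_scaled (a1 : Alg1) (a2 : Alg2) (D : Dat I Λ) {g : Matrix I I ℂ} (hg : IsG D g)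
    {r : ℕ} (s : ℂ) (z : Ten I r) (j : ℕ) (y : Ten I (r * j)) (h : psiT D (Ind.pw z j) y = 0) :
    psiT D (Ind.pw (s • gT g z) j) (gT g y) = 0 := by
  have h1 : Ind.pw (s • gT g z) j = s ^ j • gT g (Ind.pw z j) := by
    rw [Ind.pw_smul, Ind.gT_pw a2]
  have h2 : psiT D (s ^ j • gT g (Ind.pw z j)) (gT g y) = s ^ j *
      psiT D (gT g (Ind.pw z j)) (gT g y) := by
    rw [← Qps.psiL_apply, map_smul, LinearMap.smul_apply, Qps.psiL_apply, smul_eq_mul]
  rw [h1, h2, a1.psiT_gT D _ _ _ hg, h, mul_zero]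

end mx

section grp

variable {I Λ β : Type} [Fintype I] [DecidableEq I] [DecidableEq Λ] [Fintype β]
  {lb : β → ℕ} {D : Dat I Λ} {b : Tup I lb} (H : HMb D b) (a1 : Alg1) (a2 : Alg2)

/-- the functional `f ↦ ⟨f, c⟩` -/
noncomputable def hTL {L : ℕ} (c : Ten I L) : Ten I L →ₗ[ℂ] ℂ where
  toFun f := hT f c
  map_add' f f' := by
    unfold hT
    rw [← Finset.sum_add_distrib]
    exact Finset.sum_congr rfl fun w _ => by rw [Pi.add_apply, add_mul]
  map_smul' s f := by
    unfold hT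
    rw [RingHom.id_apply, smul_eq_mul, Finset.mul_sum]
    exact Finset.sum_congr rfl fun w _ => by rw [Pi.smul_apply, smul_eq_mul, mul_assoc]

theorem hTL_apply {L : ℕ} (c f : Ten I L) : hTL c f = hT f c := rfl

include a1 in
/-- the average of the coefficient of a tensor orthogonal to the invariants -/
theorem avg_zero {L : ℕ} (c : Ten I L) (h : ∀ f ∈ fixS H a1 L, psiT D c f = 0) :
    ∫ x, hT (gT (H.mat x) c) c ∂H.μ = 0 := by
  have h2 : ∫ x, hT (gT (H.mat x) c) c ∂H.μ = hT (pro H a1 L c) c := by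
    have h3 := ContinuousLinearMap.integral_comp_comm (LinearMap.toContinuousLinearMap (hTL c))
      (AvbRow.integrable H (AvbRow.cont_gT_k a1 H c))
    rw [pro_apply]
    exact h3
  rw [h2, ← a1.hT_conj]
  have h3 : jT D (pro H a1 L c) ∈ fixS H a1 L := by
    intro x
    rw [← a1.jT_gT D _ _ (H.mem x).1, pro_mem H a1 c x]
  have h4 := h _ h3
  rw [a1.psiT_jT] at h4
  rw [h4, map_zero]

include a1 a2 in
/-- the moments vanish -/
theorem moments {r : ℕ} (c : Ten I r) (j : ℕ)
    (h : ∀ f ∈ fixS H a1 (r * j), psiT D (Ind.pw c j) f = 0) :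
    ∫ x, (hT (gT (H.mat x) c) c) ^ j ∂H.μ = 0 := by
  have h1 : ∀ x, (hT (gT (H.mat x) c) c) ^ j = hT (gT (H.mat x) (Ind.pw c j)) (Ind.pw c j) := by
    intro x
    rw [Ind.gT_pw a2, Ind.hT_pw]
  simp only [h1]
  exact avg_zero H a1 _ h

/-- the space generated by a tuple -/
noncomputable def gen {t p : ℕ} (c : Fin t → Ten I p) : Submodule ℂ (Fin t → Ten I p) :=
  Submodule.span ℂ (Set.range fun x : H.K => gg (H.mat x) c)

include a1 in
theorem gen_stable {t p : ℕ} (c : Fin t → Ten I p) (x : H.K) (f : Fin t → Ten I p)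
    (hf : f ∈ gen H c) : gg (H.mat x) f ∈ gen H c := by
  unfold gen at hf ⊢
  induction hf using Submodule.span_induction with
  | mem f hf =>
    obtain ⟨y, rfl⟩ := hf
    refine Submodule.subset_span ⟨x * y, ?_⟩
    funext i
    change gT (H.mat (x * y)) (c i) = gT (H.mat x) (gT (H.mat y) (c i))
    rw [map_mul, a1.gT_mul]
  | zero =>
    have h1 : gg (H.mat x) (0 : Fin t → Ten I p) = 0 := by
      funext i
      exact map_zero (OL.gL a1 p (H.mat x))
    rw [h1]
    exact zero_mem _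
  | add f f' _ _ hf hf' =>
    have h1 : gg (H.mat x) (f + f') = gg (H.mat x) f + gg (H.mat x) f' := by
      funext i
      exact a1.gT_add _ _ _
    rw [h1]
    exact add_mem hf hf'
  | smul s f _ hf =>
    have h1 : gg (H.mat x) (s • f) = s • gg (H.mat x) f := by
      funext i
      exact a1.gT_smul _ _ _
    rw [h1]
    exact Submodule.smul_mem _ s hf

/-- the tuple of the padded powers of `c` -/
noncomputable def pad {r : ℕ} (c q : Ten I r) (k : ℕ) : Fin (k + 1) → Ten I (r * k) :=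
  fun j => mx (fun l => if l < (j : ℕ) then c else q) k

/-- the coefficients of a tuple -/
noncomputable def cfL {t p : ℕ} (C : Fin t → Ten I p) : (Fin t → Ten I p) →ₗ[ℂ] (Fin t → ℂ) where
  toFun f j := hT (f j) (C j)
  map_add' f f' := by
    funext j
    exact map_add (hTL (C j)) (f j) (f' j)
  map_smul' s f := by
    funext j
    exact map_smul (hTL (C j)) s (f j)

include a2 in
theorem cfL_pad {r : ℕ} (c q : Ten I r) (hqf : ∀ x, gT (H.mat x) q = q) (hq : hT q q = 1)
    (k : ℕ) (x : H.K) (j : Fin (k + 1)) :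
    cfL (pad c q k) (gg (H.mat x) (pad c q k)) j = (hT (gT (H.mat x) c) c) ^ (j : ℕ) := by
  change hT (gT (H.mat x) (mx (fun l => if l < (j : ℕ) then c else q) k))
    (mx (fun l => if l < (j : ℕ) then c else q) k) = _
  rw [gT_mx a2, hT_mx, ← prod_lt (Nat.lt_succ_iff.1 j.2) (hT (gT (H.mat x) c) c)]
  refine Finset.prod_congr rfl fun l _ => ?_
  by_cases hl : l < (j : ℕ)
  · simp only [if_pos hl]
  · simp only [if_neg hl]
    rw [hqf x, hq]

include a2 in
/-- the dimension of the space generated by the padded powers -/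
theorem le_gen {r : ℕ} (c q : Ten I r) (hqf : ∀ x, gT (H.mat x) q = q) (hq : hT q q = 1)
    (k : ℕ) (xs : Fin (k + 1) → H.K)
    (hxs : Function.Injective fun i => hT (gT (H.mat (xs i)) c) c) :
    k + 1 ≤ finrank ℂ (gen H (pad c q k)) := by
  have hli : LinearIndependent ℂ fun i => cfL (pad c q k) (gg (H.mat (xs i)) (pad c q k)) := by
    have h1 : (fun i => cfL (pad c q k) (gg (H.mat (xs i)) (pad c q k))) =
        (Matrix.vandermonde fun i => hT (gT (H.mat (xs i)) c) c).row := by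
      funext i j
      rw [cfL_pad H a2 c q hqf hq]
      rfl
    rw [h1, Matrix.linearIndependent_rows_iff_isUnit, Matrix.isUnit_iff_isUnit_det,
      isUnit_iff_ne_zero, Matrix.det_vandermonde_ne_zero_iff]
    exact hxs
  have hli' : LinearIndependent ℂ fun i =>
      (⟨gg (H.mat (xs i)) (pad c q k), Submodule.subset_span ⟨xs i, rfl⟩⟩ :
        gen H (pad c q k)) :=
    LinearIndependent.of_comp ((cfL (pad c q k)).comp (gen H (pad c q k)).subtype) hli
  have h5 := hli'.fintype_card_le_finrank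
  rwa [Fintype.card_fin] at h5

include a1 in
/-- a unit vector in a nonzero space of invariants -/
theorem unit_fix {L : ℕ} (hpos : 0 < finrank ℂ (fixS H a1 L)) :
    ∃ q ∈ fixS H a1 L, hT q q = 1 := by
  obtain ⟨⟨f, hf⟩, hf0⟩ := Module.finrank_pos_iff_exists_ne_zero.1 hpos
  have hf0' : f ≠ 0 := fun h => hf0 (Subtype.ext h)
  have h1 : 0 < ∑ w, ‖f w‖ ^ 2 := by
    rw [← Exp18.nn_sq]
    exact pow_pos (Exp18.nn_pos hf0') 2
  refine ⟨((Real.sqrt (∑ w, ‖f w‖ ^ 2) : ℝ) : ℂ)⁻¹ • f, Submodule.smul_mem _ _ hf, ?_⟩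
  have h2 : hT (((Real.sqrt (∑ w, ‖f w‖ ^ 2) : ℝ) : ℂ)⁻¹ • f)
      (((Real.sqrt (∑ w, ‖f w‖ ^ 2) : ℝ) : ℂ)⁻¹ • f) =
      ((Real.sqrt (∑ w, ‖f w‖ ^ 2) : ℝ) : ℂ)⁻¹ * ((Real.sqrt (∑ w, ‖f w‖ ^ 2) : ℝ) : ℂ)⁻¹ *
        hT f f := by
    unfold hT
    rw [Finset.mul_sum]
    refine Finset.sum_congr rfl fun w _ => ?_
    rw [Pi.smul_apply, smul_eq_mul, map_mul, map_inv₀, Complex.conj_ofReal]
    ring
  rw [h2, a1.hT_self]
  have h3 : (((Real.sqrt (∑ w, ‖f w‖ ^ 2) : ℝ) : ℂ)) * ((Real.sqrt (∑ w, ‖f w‖ ^ 2) : ℝ) : ℂ) =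
      ((∑ w, ‖f w‖ ^ 2 : ℝ) : ℂ) := by
    rw [← Complex.ofReal_mul, Real.mul_self_sqrt h1.le]
  have h4 : ((∑ w, ‖f w‖ ^ 2 : ℝ) : ℂ) ≠ 0 := Complex.ofReal_ne_zero.2 h1.ne'
  rw [← mul_inv, h3, inv_mul_cancel₀ h4]

end grp

end Int52

end Pool.Agent.Lib.MP_361a6f_ag.FL
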