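import Pool.Agent.Lib.MP_361a6f_ag.FL.O.IntR52

/-!
# The root law for a family with a degenerate form: assembly
-/

open Filter Topology MeasureTheory Module

set_option autoImplicit false
set_option linter.unusedSectionVars false
set_option linter.unusedVariables false
set_option maxHeartbeats 400000

namespace Pool.Agent.Lib.MP_361a6f_ag.FL

namespace Int52

open OL

section radical

variable {I Λ : Type} [Fintype I] [DecidableEq I] [DecidableEq Λ]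
  {D : Dat I Λ} {At : (L : ℕ) → Ten I L → Prop}

section lev

variable {β : Type} [Fintype β] {lb : β → ℕ} {b : Tup I lb} {H : HMb D b} {m : ℕ}
  {g : ℕ → Matrix I I ℂ} {κ : Matrix I I ℂ}

/-- a fixed vector -/
theorem fixed_vector (L : LevData D At m H g κ) (a1 : Alg1) (hm : 1 ≤ m)
    (hu : ∃ u ∈ RA At 1, ∃ w ∈ RA At 1, psiT D u w ≠ 0) :
    ∃ v : Ten I 1, v ≠ 0 ∧ v ∈ fixS H a1 1 := by
  obtain ⟨u, hu1, w, hw1, hu2⟩ := hu
  obtain ⟨v, hv, hvfix⟩ := L.lim 1 hm u (Submodule.span_subset_span ℝ ℂ _ hu1)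
  obtain ⟨v', hv', -⟩ := L.lim 1 hm w (Submodule.span_subset_span ℝ ℂ _ hw1)
  refine ⟨v, ?_, hvfix⟩
  rintro rfl
  have h1 := L.psi 1 u w 0 v' hv hv'
  rw [← Qps.psiL_apply, map_zero, LinearMap.zero_apply] at h1
  exact hu2 h1.symm

/-- the powers of the limit of a radical element are orthogonal to the invariants -/
theorem horth (L : LevData D At m H g κ) (a1 : Alg1) (a2 : Alg2)
    {T : (L : ℕ) → Submodule ℂ (Ten I L)} (h1T : (fun _ => 1) ∈ T 0)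
    (ho : ∀ p q, ∀ u ∈ T p, ∀ v ∈ T q, outer u v ∈ T (p + q))
    (hct : ∀ p c, ∀ u ∈ T p, ∀ v ∈ CA At (p + c), cont D u v ∈ T c) {r : ℕ}
    {z : Ten I r} (hzT : z ∈ T r) (hz : ∀ y ∈ T r, psiT D z y = 0)
    {φ : ℕ → ℕ} (hφ : StrictMono φ) {e : ℕ → ℂ} {c : Ten I r}
    (hlim : Tendsto (fun i => (e i)⁻¹ • gT (g (φ i)) z) atTop (𝓝 c)) (j : ℕ)
    (hle : r * (j + 1) ≤ m) (f : Ten I (r * (j + 1))) (hf : f ∈ fixS H a1 (r * (j + 1))) :
    psiT D (Ind.pw c (j + 1)) f = 0 := by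
  obtain ⟨y, hy, hy'⟩ := L.surj (r * (j + 1)) hle f hf
  have h1 : psiT D (Ind.pw z (j + 1)) y = 0 := psi_pw D h1T ho hct hzT hz j y hy
  have h2 := psi_tendsto D (pw_tendsto hlim (j + 1)) (hy'.comp hφ.tendsto_atTop)
  refine tendsto_nhds_unique h2 ?_
  have h3 : ∀ i, psiT D (Ind.pw ((e i)⁻¹ • gT (g (φ i)) z) (j + 1))
      (((fun j => gT (g j) y) ∘ φ) i) = 0 := fun i =>
    psi_scaled a1 a2 D (L.G (φ i)) _ z (j + 1) y h1
  simp only [h3]
  exact tendsto_const_nhds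

/-- the contractions of a padded power with the invariants are limits -/
theorem pad_mem (L : LevData D At m H g κ) (a1 : Alg1) (a2 : Alg2)
    {T : (L : ℕ) → Submodule ℂ (Ten I L)} (h1T : (fun _ => 1) ∈ T 0)
    (ho : ∀ p q, ∀ u ∈ T p, ∀ v ∈ T q, outer u v ∈ T (p + q))
    (hct : ∀ p c, ∀ u ∈ T p, ∀ v ∈ CA At (p + c), cont D u v ∈ T c) {r n k : ℕ}
    {z yq : Ten I r} (hzT : z ∈ T r) (hyT : yq ∈ T r)
    {φ : ℕ → ℕ} (hφ : StrictMono φ) {e : ℕ → ℂ} {c q : Ten I r}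
    (hlim : Tendsto (fun i => (e i)⁻¹ • gT (g (φ i)) z) atTop (𝓝 c))
    (hq : Tendsto (fun i => gT (g i) yq) atTop (𝓝 q)) (hle : r * k + n ≤ m)
    (j : Fin (k + 1)) (φ₀ : Ten I (r * k + n)) (hφ₀ : φ₀ ∈ fixS H a1 (r * k + n)) :
    cont D (pad c q k j) φ₀ ∈ Lim fun i => (T n).map (OL.gL a1 n (g (φ i))) := by
  obtain ⟨y, hy, hy'⟩ := L.surj (r * k + n) hle φ₀ hφ₀
  let sz : ℕ → Ten I r := fun l => if l < (j : ℕ) then z else yq
  let si : ℕ → ℕ → ℂ := fun i l => if l < (j : ℕ) then (e i)⁻¹ else 1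
  have hsz : ∀ l, sz l ∈ T r := by
    intro l
    simp only [sz]
    split_ifs
    · exact hzT
    · exact hyT
  have h0 : ∀ l, Tendsto (fun i => si i l • gT (g (φ i)) (sz l)) atTop
      (𝓝 (if l < (j : ℕ) then c else q)) := by
    intro l
    by_cases hl : l < (j : ℕ)
    · simp only [si, sz, if_pos hl]
      exact hlim
    · simp only [si, sz, if_neg hl, one_smul]
      exact hq.comp hφ.tendsto_atTop
  have h1 := mx_lim h0 k
  have h2 : ∀ i, mx (fun l => si i l • gT (g (φ i)) (sz l)) k =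
      (∏ l ∈ Finset.range k, si i l) • gT (g (φ i)) (mx sz k) := by
    intro i
    rw [mx_smul, gT_mx a2]
  refine ⟨fun i => (∏ l ∈ Finset.range k, si i l) • gT (g (φ i)) (cont D (mx sz k) y),
    fun i => Submodule.smul_mem _ _ ⟨cont D (mx sz k) y,
      hct (r * k) n _ (mx_mem h1T ho hsz k) y hy, rfl⟩, ?_⟩
  have h3 := cont_tendsto D h1 (hy'.comp hφ.tendsto_atTop)
  have h4 : ∀ i, cont D (mx (fun l => si i l • gT (g (φ i)) (sz l)) k)
      (((fun j => gT (g j) y) ∘ φ) i) =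
      (∏ l ∈ Finset.range k, si i l) • gT (g (φ i)) (cont D (mx sz k) y) := by
    intro i
    rw [h2, Ind.cont_smul_left, a2.cont_gT D (g (φ i)) _ _ (L.G (φ i))]
    rfl
  exact h3.congr h4

end lev

/-- **The layers of a radical element.** -/
theorem radical (a1 : Alg1) (a2 : Alg2) (ab : AlgB) (cpt : CptbStatement) (mn : MinbStatement)
    (l1 : L1bStatement) (l2 : L2bStatement) (S : ASys D At)
    (hu : ∃ u ∈ RA At 1, ∃ w ∈ RA At 1, psiT D u w ≠ 0)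
    {T : (L : ℕ) → Submodule ℂ (Ten I L)} (hT' : ∀ L, CA At L ≤ T L)
    (ho : ∀ p q, ∀ u ∈ T p, ∀ v ∈ T q, outer u v ∈ T (p + q))
    (hct : ∀ p c, ∀ u ∈ T p, ∀ v ∈ CA At (p + c), cont D u v ∈ T c) {r : ℕ} (hr0 : 0 < r)
    {z : Ten I r} (hzT : z ∈ T r) (hz0 : z ≠ 0) (hz : ∀ y ∈ T r, psiT D z y = 0)
    (d : ℕ) (hd : 0 < d) (hI : Fintype.card I = d) (k n : ℕ) (hn : (20 * d ^ 3) ^ 2 ≤ n)
    (hk : 0 ≤ 1 - 40 * (r * k : ℕ) * (d : ℝ) ^ 3 / Real.sqrt n) :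
    ((k : ℝ) + 1) * ((1 - 40 * (r * k : ℕ) * (d : ℝ) ^ 3 / Real.sqrt n) *
      (rkA D At n : ℝ)) ≤ (finrank ℂ (T n) : ℝ) := by
  obtain ⟨β, _, lb, b, H, g, κ, L⟩ := LevO.lev a1 a2 ab cpt mn l1 l2 S (n + r * k + r + 1)
  obtain ⟨v, hv0, hvf⟩ := fixed_vector L a1 (by omega) hu
  have h1T : (fun _ => (1 : ℂ)) ∈ T 0 := hT' 0 (Submodule.subset_span S.one)
  -- an invariant tensor of length `r` and norm one
  have hpos : 0 < finrank ℂ (fixS H a1 r) := by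
    rw [finrank_lim L a1 (by omega : r ≤ n + r * k + r + 1)]
    have h1 := O52.grow_c a1 a2 ab cpt mn l1 l2 S hu r hr0
    rw [hI] at h1
    have h2 : (0 : ℝ) < (d : ℝ) ^ r := by positivity
    have h3 : (rkA D At r : ℝ) ≠ 0 := by
      intro h
      rw [h, mul_zero] at h1
      linarith
    have h4 : rkA D At r ≠ 0 := fun h => h3 (by rw [h, Nat.cast_zero])
    omega
  obtain ⟨q, hqf, hq1⟩ := unit_fix H a1 hpos
  obtain ⟨yq, hyq, hyq'⟩ := L.surj r (by omega) q hqf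
  -- the rescaled limit
  obtain ⟨φ, e, c, hφ, he0, hc, hlim, -⟩ := Tate52.scaled a1 L.G hz0
  -- the moments of the function `⟨x c, c⟩`
  have hmom : ∀ j, 1 ≤ j → j ≤ k → ∫ x, (hT (gT (H.mat x) c) c) ^ j ∂H.μ = 0 := by
    intro j hj1 hjk
    obtain ⟨j', rfl⟩ : ∃ j', j = j' + 1 := ⟨j - 1, by omega⟩
    have hle : r * (j' + 1) ≤ n + r * k + r + 1 := by
      have := Nat.mul_le_mul_left r hjk
      omega
    exact moments H a1 a2 c (j' + 1) fun f hf =>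
      horth L a1 a2 h1T ho hct hzT hz hφ hlim j' hle f hf
  have huc : Continuous fun x : H.K => hT (gT (H.mat x) c) c := by
    have h1 : Continuous fun x : H.K => gT (H.mat x) c := AvbRow.cont_gT_k a1 H c
    unfold hT
    exact continuous_finsetSum _ fun w _ => ((continuous_apply w).comp h1).mul continuous_const
  obtain ⟨xs, hxs⟩ := many_values H huc (by
    rw [map_one, a1.gT_one, hc]
    exact one_ne_zero) k hmom
  -- the tuple
  obtain ⟨e', heM, heon, heex⟩ := onb (gen H (pad c q k))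
  have hFr : Fr H e' := ⟨heon, fun x l => heex _ (gen_stable H a1 _ x _ (heM l))⟩
  have hMk := le_gen H a2 c q hqf hq1 k xs hxs
  -- the limits of the contractions
  have hYT : finrank ℂ (Lim fun j => (T n).map (OL.gL a1 n (g (φ j)))) ≤ finrank ℂ (T n) :=
    finrank_Lim _ _ fun j => Submodule.finrank_map_le _ _
  have h1 := WW_le H a1 e' a2 hFr (c := pad c q k) heM _ fun j φ₀ hφ₀ =>
    pad_mem (n := n) L a1 a2 h1T ho hct hzT (hT' r hyq) hφ hlim hyq' (by omega) j φ₀ hφ₀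
  have h2 := WW_low H a1 e' d hd hI hv0 hvf hFr n hn
  rw [finrank_lim L a1 (by omega : n ≤ n + r * k + r + 1)] at h2
  have h3 : ((k : ℝ) + 1) ≤ (finrank ℂ (gen H (pad c q k)) : ℝ) := by exact_mod_cast hMk
  have h4 : 0 ≤ (1 - 40 * (r * k : ℕ) * (d : ℝ) ^ 3 / Real.sqrt n) * (rkA D At n : ℝ) :=
    mul_nonneg hk (Nat.cast_nonneg _)
  refine (mul_le_mul_of_nonneg_right h3 h4).trans (h2.trans ?_)
  exact_mod_cast h1.trans hYT

/-- **The root law.** If the form is degenerate on `T r` then `√n` times the rank is at most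
`160 r d³` times the dimension of `T n`. -/
theorem root_law (a1 : Alg1) (a2 : Alg2) (ab : AlgB) (cpt : CptbStatement) (mn : MinbStatement)
    (l1 : L1bStatement) (l2 : L2bStatement) (S : ASys D At)
    (hu : ∃ u ∈ RA At 1, ∃ w ∈ RA At 1, psiT D u w ≠ 0)
    {T : (L : ℕ) → Submodule ℂ (Ten I L)} (hT' : ∀ L, CA At L ≤ T L)
    (ho : ∀ p q, ∀ u ∈ T p, ∀ v ∈ T q, outer u v ∈ T (p + q))
    (hct : ∀ p c, ∀ u ∈ T p, ∀ v ∈ CA At (p + c), cont D u v ∈ T c) {r : ℕ} (hr0 : 0 < r)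
    {z : Ten I r} (hzT : z ∈ T r) (hz0 : z ≠ 0) (hz : ∀ y ∈ T r, psiT D z y = 0)
    (d : ℕ) (hd : 0 < d) (hI : Fintype.card I = d) (n : ℕ)
    (hrT : rkA D At n ≤ finrank ℂ (T n)) :
    Real.sqrt n * (rkA D At n : ℝ) ≤ 160 * r * (d : ℝ) ^ 3 * (finrank ℂ (T n) : ℝ) := by
  have hdR : (1 : ℝ) ≤ d := by exact_mod_cast hd
  have hd3 : (1 : ℝ) ≤ (d : ℝ) ^ 3 := one_le_pow₀ hdR
  have hrR : (1 : ℝ) ≤ r := by exact_mod_cast hr0
  have hN0 : (0 : ℝ) ≤ rkA D At n := Nat.cast_nonneg _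
  have hTR : (rkA D At n : ℝ) ≤ finrank ℂ (T n) := by exact_mod_cast hrT
  rcases le_or_gt ((20 * d ^ 3) ^ 2) n with hn | hn
  swap
  · -- small lengths
    have h1 : Real.sqrt n ≤ 20 * (d : ℝ) ^ 3 := by
      rw [Real.sqrt_le_left (by positivity)]
      exact_mod_cast hn.le
    have h2 : Real.sqrt n ≤ 160 * r * (d : ℝ) ^ 3 := by nlinarith
    exact mul_le_mul h2 hTR hN0 (by positivity)
  have hn0 : 0 < n := lt_of_lt_of_le (by positivity) hn
  have hs : 0 < Real.sqrt n := Real.sqrt_pos.2 (by exact_mod_cast hn0)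
  set A : ℝ := 80 * r * (d : ℝ) ^ 3 with hA
  have hA0 : 0 < A := by positivity
  set k : ℕ := ⌊Real.sqrt n / A⌋₊ with hk
  have hk1 : (k : ℝ) ≤ Real.sqrt n / A := Nat.floor_le (by positivity)
  have hk2 : Real.sqrt n / A < k + 1 := Nat.lt_floor_add_one _
  have hk3 : 40 * (r * k : ℕ) * (d : ℝ) ^ 3 / Real.sqrt n ≤ 1 / 2 := by
    rw [div_le_iff₀ hs]
    rw [le_div_iff₀ hA0] at hk1
    push_cast
    rw [hA] at hk1
    nlinarith
  have h1 := radical a1 a2 ab cpt mn l1 l2 S hu hT' ho hct hr0 hzT hz0 hz d hd hI k n hn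
    (by linarith)
  rw [div_lt_iff₀ hA0] at hk2
  have h2 : ((k : ℝ) + 1) * (1 / 2 * (rkA D At n : ℝ)) ≤ finrank ℂ (T n) := by
    refine le_trans ?_ h1
    refine mul_le_mul_of_nonneg_left ?_ (by positivity)
    exact mul_le_mul_of_nonneg_right (by linarith) hN0
  have h3 : Real.sqrt n * (rkA D At n : ℝ) ≤ ((k : ℝ) + 1) * A * (rkA D At n : ℝ) :=
    mul_le_mul_of_nonneg_right hk2.le hN0
  calc Real.sqrt n * (rkA D At n : ℝ) ≤ ((k : ℝ) + 1) * A * (rkA D At n : ℝ) := h3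
    _ = 2 * A * (((k : ℝ) + 1) * (1 / 2 * (rkA D At n : ℝ))) := by ring
    _ ≤ 2 * A * finrank ℂ (T n) := mul_le_mul_of_nonneg_left h2 (by positivity)
    _ = 160 * r * (d : ℝ) ^ 3 * (finrank ℂ (T n) : ℝ) := by rw [hA]; ring

end radical

end Int52

end Pool.Agent.Lib.MP_361a6f_ag.FL
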