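import Pool.Agent.Lib.MP_361a6f_ag.FL.AlgC
import Pool.Agent.Lib.MP_361a6f_ag.PP.LAM
import Pool.Agent.Lib.MP_361a6f_ag.PP.Ops

/-!
# The operator `Λ` in the complex span of the algebraic classes

If numerical and homological equivalence coincide on `X × X` and the operator `Λ` is given by a
complex linear combination of algebraic classes then it is given by an algebraic class.
-/

open CategoryTheory AlgebraicGeometry MonoidalCategory CartesianMonoidalCategory

universe u v w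

set_option autoImplicit false
set_option linter.unusedSectionVars false

namespace Pool.Agent.Lib.MP_361a6f_ag.FL

open Pool.Agent.Lib.MP_361a6f_ag.H3 Pool.Agent.Lib.MP_361a6f_ag.SQ
  Pool.Agent.Lib.MP_361a6f_ag.PP

namespace LamQ

variable {k : Type u} [Field k] {W : CohomologyData.{u, 0, w} k ℂ} {𝒱 : VarietyClass k}
  (hW : IsWeilCohomology W 𝒱) {X : Sch k} {n : ℕ} (hX : 𝒱.mem X n)

include hW hX

/-- a class whose trace products vanish in all degrees but one is homogeneous -/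
theorem mem_gr {j : ℕ} {y : W.coh X}
    (h : ∀ m, ∀ v ∈ W.gr X m, m + j ≠ 2 * n → W.tr X (y * v) = 0) : y ∈ W.gr X j := by
  obtain ⟨π, h1, h2⟩ := Crit.exists_proj hW hX j
  have hπ : π y ∈ W.gr X j := by
    refine hW.hom_induction hX (P := fun y => π y ∈ W.gr X j) y ?_ ?_ ?_
    · intro i x hx
      by_cases hi : i = j
      · subst hi; rw [h1 x hx]; exact hx
      · rw [h2 i hi x hx]; exact zero_mem _
    · rw [map_zero]; exact zero_mem _
    · intro a b ha hb; rw [map_add]; exact add_mem ha hb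
  have e : y - π y = 0 := by
    refine hW.duality hX _ fun v => ?_
    refine hW.hom_induction hX (P := fun v => W.tr X ((y - π y) * v) = 0) v ?_ ?_ ?_
    · intro m v hv
      by_cases hm : m + j = 2 * n
      · refine hW.hom_induction hX (P := fun y => W.tr X ((y - π y) * v) = 0) y ?_ ?_ ?_
        · intro i x hx
          by_cases hi : i = j
          · subst hi; rw [h1 x hx, sub_self, zero_mul, map_zero]
          · rw [h2 i hi x hx, sub_zero]
            exact hW.tr_gr hX (hW.mul_gr hX hx hv) (by omega)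
        · rw [map_zero, sub_zero, zero_mul, map_zero]
        · intro a b ha hb
          have e : a + b - π (a + b) = (a - π a) + (b - π b) := by rw [map_add]; abel
          rw [e, add_mul, map_add, ha, hb, add_zero]
      · rw [sub_mul, map_sub, h m v hv hm,
          hW.tr_gr hX (hW.mul_gr hX hπ hv) (by omega), sub_zero]
    · rw [mul_zero, map_zero]
    · intro a b ha hb; rw [mul_add, map_add, ha, hb, add_zero]
  rw [sub_eq_zero] at e
  rw [e]
  exact hπ

/-- the degree of an operator -/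
theorem cor_gr {c i j : ℕ} {γ : W.coh (X ⊗ X)} (hγ : γ ∈ W.gr (X ⊗ X) c) (h : i + c = j + 2 * n)
    {x : W.coh X} (hx : x ∈ W.gr X i) : cor W γ x ∈ W.gr X j := by
  have hXX := 𝒱.prod hX hX
  refine mem_gr hW hX fun m v hv hm => ?_
  rw [cor_apply, hW.push_adj hXX hX]
  exact hW.tr_gr hXX (hW.mul_gr hXX (hW.mul_gr hXX (hW.pull_gr hXX hX _ hx) hγ)
    (hW.pull_gr hXX hX _ hv)) (by omega)

theorem cor_low {c i : ℕ} {γ : W.coh (X ⊗ X)} (hγ : γ ∈ W.gr (X ⊗ X) c) (h : i + c < 2 * n)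
    {x : W.coh X} (hx : x ∈ W.gr X i) : cor W γ x = 0 := by
  have hXX := 𝒱.prod hX hX
  rw [cor_apply]
  exact hW.push_zero hXX hX _ (hW.mul_gr hXX (hW.pull_gr hXX hX _ hx) hγ) (by omega)

/-- the trace pairing of an operator vanishes in the wrong degrees -/
theorem cor_tr_zero {c i b : ℕ} {γ : W.coh (X ⊗ X)} (hγ : γ ∈ W.gr (X ⊗ X) c)
    {x t : W.coh X} (hx : x ∈ W.gr X i) (ht : t ∈ W.gr X b) (h : i + c + b ≠ 4 * n) :
    W.tr X (cor W γ x * t) = 0 := by
  have hXX := 𝒱.prod hX hX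
  rw [cor_apply, hW.push_adj hXX hX]
  exact hW.tr_gr hXX (hW.mul_gr hXX (hW.mul_gr hXX (hW.pull_gr hXX hX _ hx) hγ)
    (hW.pull_gr hXX hX _ ht)) (by omega)

/-- the part of codimension `n - 1` of a complex combination of algebraic classes -/
theorem exists_part (hn : 0 < n) {l : W.coh (X ⊗ X)} (hl : l ∈ algC W (X ⊗ X)) :
    ∃ l' ∈ Submodule.span ℂ {z : W.coh (X ⊗ X) | z ∈ W.alg (X ⊗ X) (n - 1)},
      ∀ i b x t, x ∈ W.gr X i → t ∈ W.gr X b → b + i = 2 * n + 2 →
        W.tr X (cor W l x * t) = W.tr X (cor W l' x * t) := by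
  have hXX := 𝒱.prod hX hX
  unfold algC at hl
  induction hl using Submodule.span_induction with
  | mem a ha =>
    obtain ⟨c, hc⟩ := ha
    have hc' : a ∈ W.alg (X ⊗ X) c := hc
    by_cases h : c + 1 = n
    · refine ⟨a, Submodule.subset_span ?_, fun _ _ _ _ _ _ _ => rfl⟩
      have : c = n - 1 := by omega
      subst this
      exact hc'
    · refine ⟨0, zero_mem _, fun i b x t hx ht hb => ?_⟩
      rw [cor_tr_zero hW hX (hW.alg_gr hXX hc') hx ht (by omega), cor_zero,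
        LinearMap.zero_apply, zero_mul, map_zero]
  | zero =>
    exact ⟨0, zero_mem _, fun _ _ _ _ _ _ _ => rfl⟩
  | add a b _ _ ha hb =>
    obtain ⟨a', ha1, ha2⟩ := ha
    obtain ⟨b', hb1, hb2⟩ := hb
    refine ⟨a' + b', add_mem ha1 hb1, fun i j x t hx ht hij => ?_⟩
    rw [cor_add, cor_add, LinearMap.add_apply, LinearMap.add_apply, add_mul, add_mul, map_add,
      map_add, ha2 i j x t hx ht hij, hb2 i j x t hx ht hij]
  | smul c a _ ha =>
    obtain ⟨a', ha1, ha2⟩ := ha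
    refine ⟨c • a', Submodule.smul_mem _ _ ha1, fun i j x t hx ht hij => ?_⟩
    rw [cor_smul, cor_smul, LinearMap.smul_apply, LinearMap.smul_apply, smul_mul_assoc,
      smul_mul_assoc, map_smul, map_smul, ha2 i j x t hx ht hij]

/-- operators of degree `-2` -/
structure Neg2 (W : CohomologyData.{u, 0, w} k ℂ) (X : Sch k) (D : Module.End ℂ (W.coh X)) :
    Prop where
  gr : ∀ i, ∀ x ∈ W.gr X (i + 2), D x ∈ W.gr X i
  low : ∀ i, i < 2 → ∀ x ∈ W.gr X i, D x = 0

omit hW hX in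
theorem Neg2.sub {D D' : Module.End ℂ (W.coh X)} (h : Neg2 W X D) (h' : Neg2 W X D') :
    Neg2 W X (D - D') where
  gr i x hx := by rw [LinearMap.sub_apply]; exact sub_mem (h.gr i x hx) (h'.gr i x hx)
  low i hi x hx := by rw [LinearMap.sub_apply, h.low i hi x hx, h'.low i hi x hx, sub_zero]

theorem neg2_span (hn : 0 < n) {l : W.coh (X ⊗ X)}
    (hl : l ∈ Submodule.span ℂ {z : W.coh (X ⊗ X) | z ∈ W.alg (X ⊗ X) (n - 1)}) :
    Neg2 W X (cor W l) := by
  have hXX := 𝒱.prod hX hX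
  induction hl using Submodule.span_induction with
  | mem a ha =>
    exact ⟨fun i x hx => cor_gr hW hX (hW.alg_gr hXX ha) (by omega) hx,
      fun i hi x hx => cor_low hW hX (hW.alg_gr hXX ha) (by omega) hx⟩
  | zero =>
    rw [cor_zero]
    exact ⟨fun i x _ => zero_mem _, fun i _ x _ => rfl⟩
  | add a b _ _ ha hb =>
    rw [cor_add]
    exact ⟨fun i x hx => add_mem (ha.gr i x hx) (hb.gr i x hx), fun i hi x hx => by
      rw [LinearMap.add_apply, ha.low i hi x hx, hb.low i hi x hx, add_zero]⟩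
  | smul c a _ ha =>
    rw [cor_smul]
    exact ⟨fun i x hx => Submodule.smul_mem _ _ (ha.gr i x hx), fun i hi x hx => by
      rw [LinearMap.smul_apply, ha.low i hi x hx, smul_zero]⟩

/-- an operator of degree `-2` in the span of the algebraic classes is in the span of the algebraic
classes of codimension `n - 1` -/
theorem exists_hom (hn : 0 < n) {l : W.coh (X ⊗ X)} (hl : l ∈ algC W (X ⊗ X))
    (h2 : Neg2 W X (cor W l)) :
    ∃ l' ∈ Submodule.span ℂ {z : W.coh (X ⊗ X) | z ∈ W.alg (X ⊗ X) (n - 1)},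
      cor W l' = cor W l := by
  obtain ⟨l', hl', h⟩ := exists_part hW hX hn hl
  have h2' := neg2_span hW hX hn hl'
  refine ⟨l', hl', LinearMap.ext fun x => ?_⟩
  refine hW.hom_induction hX (P := fun x => cor W l' x = cor W l x) x ?_ ?_ ?_
  · intro i x hx
    by_cases hi : i < 2
    · rw [h2'.low i hi x hx, h2.low i hi x hx]
    · by_cases hi2 : 2 * n < i
      · rw [hW.top_gr hX hx hi2, map_zero, map_zero]
      · obtain ⟨i', rfl⟩ : ∃ i', i = i' + 2 := ⟨i - 2, by omega⟩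
        rw [← sub_eq_zero]
        refine eq_zero_of_tr hW hX (i := 2 * n - i') (j := i') (by omega)
          (sub_mem (h2'.gr i' x hx) (h2.gr i' x hx)) fun t ht => ?_
        rw [sub_mul, map_sub, h (i' + 2) (2 * n - i') x t hx ht (by omega), sub_self]
  · rw [map_zero, map_zero]
  · intro a b ha hb
    rw [map_add, map_add, ha, hb]

/-! ### Uniqueness -/

/-- an operator `D` of degree `-2` with `[L, [L, D]] = 0` is zero -/
theorem unique {ξ : W.coh X} (hξ : ξ ∈ W.alg X 1) (hL : HardLefschetz W X n ξ)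
    {D : Module.End ℂ (W.coh X)} (h2 : Neg2 W X D)
    (hrel : ∀ x, ξ * (ξ * D x) - (2 : ℂ) • (ξ * D (ξ * x)) + D (ξ * (ξ * x)) = 0) : D = 0 := by
  have hE : ∀ x, D (ξ * (ξ * x)) - ξ * D (ξ * x) = ξ * (D (ξ * x) - ξ * D x) := by
    intro x
    have h := hrel x
    rw [two_smul] at h
    rw [mul_sub, ← sub_eq_zero]
    rw [← h]
    abel
  have hpow : ∀ (r : ℕ) (x : W.coh X), D (ξ ^ (r + 1) * x)
      = ξ ^ (r + 1) * D x + ((r : ℂ) + 1) • (ξ ^ r * (D (ξ * x) - ξ * D x)) := by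
    intro r
    induction r with
    | zero =>
      intro x
      rw [zero_add, pow_one, pow_zero, one_mul, Nat.cast_zero, zero_add, one_smul]
      abel
    | succ r ih =>
      intro x
      have e1 : ξ ^ (r + 1 + 1) * x = ξ ^ (r + 1) * (ξ * x) := by rw [pow_succ, mul_assoc]
      rw [e1, ih (ξ * x), hE x]
      have e2 : ξ ^ (r + 1) * D (ξ * x) = ξ ^ (r + 1 + 1) * D x
          + ξ ^ (r + 1) * (D (ξ * x) - ξ * D x) := by
        rw [mul_sub, pow_succ ξ (r + 1), mul_assoc (ξ ^ (r + 1))]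
        abel
      have e3 : ξ ^ r * (ξ * (D (ξ * x) - ξ * D x)) = ξ ^ (r + 1) * (D (ξ * x) - ξ * D x) := by
        rw [pow_succ, mul_assoc]
      rw [e2, e3, Nat.cast_add, Nat.cast_one, add_smul ((r : ℂ) + 1) 1, one_smul]
      abel
  have hEpow : ∀ (r : ℕ) (x : W.coh X), D (ξ * (ξ ^ r * x)) - ξ * D (ξ ^ r * x)
      = ξ ^ r * (D (ξ * x) - ξ * D x) := by
    intro r
    induction r with
    | zero => intro x; rw [pow_zero, one_mul, one_mul]
    | succ r ih =>
      intro x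
      have e1 : ξ ^ (r + 1) * x = ξ ^ r * (ξ * x) := by rw [pow_succ, mul_assoc]
      rw [e1, ih (ξ * x), hE x, ← mul_assoc, ← pow_succ]
  have hprim : ∀ i, i ≤ n → ∀ y ∈ PS W X n ξ i, D y = 0 ∧ D (ξ * y) - ξ * D y = 0 := by
    intro i hi y hy
    have hξy : ξ * y ∈ W.gr X (i + 2) := by
      have := hW.mul_gr hX (hW.alg_gr hX hξ) hy.1
      rwa [show 2 * 1 + i = i + 2 by omega] at this
    have hDξ : D (ξ * y) ∈ W.gr X i := h2.gr i _ hξy
    have hξD : ξ * D y ∈ W.gr X i := by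
      by_cases h : i < 2
      · rw [h2.low i h y hy.1, mul_zero]; exact zero_mem _
      · obtain ⟨i', rfl⟩ : ∃ i', i = i' + 2 := ⟨i - 2, by omega⟩
        have := hW.mul_gr hX (hW.alg_gr hX hξ) (h2.gr i' y hy.1)
        rwa [show 2 * 1 + i' = i' + 2 by omega] at this
    have h1 : ξ * D y + (((n - i : ℕ) : ℂ) + 1) • (D (ξ * y) - ξ * D y) = 0 := by
      refine hL i _ hi (add_mem hξD (Submodule.smul_mem _ _ (sub_mem hDξ hξD))) ?_
      have h3 := hpow (n - i) y
      rw [hy.2, map_zero] at h3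
      change ξ ^ (n - i) * (ξ * D y + (((n - i : ℕ) : ℂ) + 1) • (D (ξ * y) - ξ * D y)) = 0
      rw [mul_add, mul_smul_comm, ← mul_assoc, ← pow_succ]
      exact h3.symm
    have h4 : ξ ^ (n - i + 1) * (D (ξ * y) - ξ * D y) = 0 := by
      rw [← hEpow, hy.2, mul_zero, map_zero, mul_zero, sub_zero]
    have h5 : ξ ^ (n - i + 1) * (ξ * D y) = 0 := by
      have h6 := congrArg (fun z => ξ ^ (n - i + 1) * z) h1
      simp only [mul_zero] at h6
      rw [mul_add, mul_smul_comm, h4, smul_zero, add_zero] at h6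
      exact h6
    have hD : D y = 0 := by
      by_cases h : i < 2
      · exact h2.low i h y hy.1
      · obtain ⟨i', rfl⟩ : ∃ i', i = i' + 2 := ⟨i - 2, by omega⟩
        refine hL i' _ (by omega) (h2.gr i' y hy.1) ?_
        change ξ ^ (n - i') * D y = 0
        rw [← mul_assoc, ← pow_succ, show n - (i' + 2) + 1 + 1 = n - i' by omega] at h5
        exact h5
    refine ⟨hD, ?_⟩
    rw [hD, mul_zero, zero_add] at h1
    rw [hD, mul_zero]
    rcases smul_eq_zero.1 h1 with h | h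
    · exact absurd h (Nat.cast_add_one_ne_zero (n - i))
    · exact h
  refine LinearMap.ext fun x => ?_
  refine LAM.all_ind hW hX hξ hL x (P := fun x => D x = (0 : Module.End ℂ (W.coh X)) x) ?_ ?_ ?_
  · rw [map_zero, map_zero]
  · intro a b ha hb
    rw [map_add, map_add, ha, hb]
  · intro i r y hi hr hy
    rw [LinearMap.zero_apply]
    obtain ⟨h1, h3⟩ := hprim i hi y hy
    cases r with
    | zero => rw [pow_zero, one_mul, h1]
    | succ r => rw [hpow r y, h3, h1, mul_zero, mul_zero, smul_zero, add_zero]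

/-! ### Multiplication by classes of the factors -/

theorem cor_fst {ξ : W.coh X} (hξ : ξ ∈ W.alg X 1) (γ : W.coh (X ⊗ X)) (x : W.coh X) :
    cor W (γ * W.pull (fst X X) ξ) x = cor W γ (ξ * x) := by
  have hXX := 𝒱.prod hX hX
  have h1 := hW.alg_comm hXX (hW.pull_alg hXX hX (fst X X) hξ)
  rw [cor_apply, cor_apply, map_mul (W.pull (fst X X)) ξ x, ← h1 γ, ← mul_assoc,
    ← h1 (W.pull (fst X X) x)]

theorem cor_snd {ξ : W.coh X} (hξ : ξ ∈ W.alg X 1) (γ : W.coh (X ⊗ X)) (x : W.coh X) :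
    cor W (γ * W.pull (snd X X) ξ) x = ξ * cor W γ x := by
  have hXX := 𝒱.prod hX hX
  have h1 := hW.alg_comm hXX (hW.pull_alg hXX hX (snd X X) hξ)
  have h2 := hW.alg_comm hX hξ
  rw [← sub_eq_zero]
  refine hW.duality hX _ fun v => ?_
  rw [sub_mul, map_sub, h2, mul_assoc, cor_apply, cor_apply, hW.push_adj hXX hX,
    hW.push_adj hXX hX, map_mul (W.pull (snd X X)), ← mul_assoc, ← mul_assoc, sub_self]

/-- the class `a (pr₁^* ξ - pr₂^* ξ)²` -/
theorem cor_eta {ξ : W.coh X} (hξ : ξ ∈ W.alg X 1) (γ : W.coh (X ⊗ X)) (x : W.coh X) :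
    cor W (γ * (W.pull (fst X X) ξ - W.pull (snd X X) ξ) ^ 2) x
      = ξ * (ξ * cor W γ x) - (2 : ℂ) • (ξ * cor W γ (ξ * x)) + cor W γ (ξ * (ξ * x)) := by
  have hXX := 𝒱.prod hX hX
  have e : γ * (W.pull (fst X X) ξ - W.pull (snd X X) ξ) ^ 2
      = γ * W.pull (snd X X) ξ * W.pull (snd X X) ξ
        + (-(2 : ℂ)) • (γ * W.pull (snd X X) ξ * W.pull (fst X X) ξ)
        + γ * W.pull (fst X X) ξ * W.pull (fst X X) ξ := by
    have h1 := hW.alg_comm hXX (hW.pull_alg hXX hX (fst X X) hξ) (W.pull (snd X X) ξ)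
    rw [neg_smul, two_smul, sq, sub_mul, mul_sub, mul_sub, mul_sub, mul_sub, mul_sub, h1]
    simp only [mul_assoc]
    abel
  rw [e, cor_add, cor_add, cor_smul, LinearMap.add_apply, LinearMap.add_apply,
    LinearMap.smul_apply, cor_snd hW hX hξ, cor_snd hW hX hξ, cor_fst hW hX hξ,
    cor_snd hW hX hξ, cor_fst hW hX hξ, cor_fst hW hX hξ, neg_smul]
  abel

/-- the class of the multiplication by `ξ` -/
theorem cor_diag {ξ : W.coh X} (hξ : ξ ∈ W.alg X 1) (x : W.coh X) :
    cor W (W.push (lift (𝟙 X) (𝟙 X)) ξ) x = ξ * x := by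
  rw [← sub_eq_zero]
  refine hW.duality hX _ fun v => ?_
  have h1 : W.push (lift (𝟙 X) (𝟙 X)) ξ ∈ tot W (X ⊗ X) :=
    tot_push hW hX (𝒱.prod hX hX) _ (alg_le_tot hW X 1 hξ)
  have h2 := act_tr' hW hX h1 x v
  rw [bil_push_lift hW hX _ _ (alg_le_tot hW X 1 hξ), W.pull_id, W.pull_id] at h2
  rw [sub_mul, map_sub]
  have h3 : W.tr X (cor W (W.push (lift (𝟙 X) (𝟙 X)) ξ) x * v) = W.tr X (ξ * (x * v)) := h2
  rw [h3, mul_assoc, sub_self]

omit hW hX in
/-- a rational projection of the complex numbers -/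
theorem exists_rho : ∃ ρ : ℂ →ₗ[ℚ] ℚ, ∀ q : ℚ, ρ (q : ℂ) = q := by
  obtain ⟨ρ, hρ⟩ := LinearMap.exists_leftInverse_of_injective (Algebra.linearMap ℚ ℂ)
    (LinearMap.ker_eq_bot.2 (algebraMap ℚ ℂ).injective)
  refine ⟨ρ, fun q => ?_⟩
  have := LinearMap.congr_fun hρ q
  rwa [LinearMap.comp_apply] at this

/-- **Row LAMQ.** -/
theorem lamQ {ξ : W.coh X} (hξ : PositiveDivisor W X n ξ) (hL : HardLefschetz W X n ξ)
    (hD : ∀ l z, W.IsAlg (X.prod X) l z →
      (∀ j y, W.IsAlg (X.prod X) j y → W.Tr (W.cup z y) = 0) → z = 0)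
    {l : W.coh (X.prod X)} (hl : l ∈ algC W (X.prod X))
    (hop : ∀ i r x, i ≤ n → r ≤ n - i → Primitive W X n ξ i x →
      W.pf (X.pr₂ X) (W.cup (W.pb (X.pr₁ X) (W.cup (ξ ^ r) x)) l)
        = W.scal ((r * (n - i - r + 1) : ℕ) : ℂ) (W.cup (ξ ^ (r - 1)) x)) :
    AlgebraicLambda W X n ξ := by
  classical
  have hXX := 𝒱.prod hX hX
  have hξ1 : ξ ∈ W.alg X 1 := hξ.1
  rcases Nat.eq_zero_or_pos n with hn | hn
  · subst hn
    refine ⟨0, zero_mem (W.alg (X ⊗ X) (0 - 1)), fun i r x hi hr hx => ?_⟩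
    have hi0 : i = 0 := by omega
    have hr0 : r = 0 := by omega
    subst hi0 hr0
    change W.push (snd X X) (W.pull (fst X X) (ξ ^ 0 * x) * 0)
      = ((0 * (0 - 0 - 0 + 1) : ℕ) : ℂ) • (ξ ^ (0 - 1) * x)
    rw [mul_zero, map_zero, zero_mul, Nat.cast_zero, zero_smul]
  -- the operator
  have hstr : LAM.Str W X n ξ (cor W l) := ⟨fun i r x hi hr hx => hop i r x hi hr hx⟩
  have hslm := LAM.Str.slm hW hX hξ1 hL hstr
  have h2 : Neg2 W X (cor W l) := ⟨hslm.Λ_gr, fun i hi x hx => hslm.Λ_low i x hi hx⟩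
  obtain ⟨l', hl', hcor⟩ := exists_hom hW hX hn hl h2
  -- the relation
  have hrel : ∀ x, ξ * (ξ * cor W l' x) - (2 : ℂ) • (ξ * cor W l' (ξ * x))
      + cor W l' (ξ * (ξ * x)) = (-(2 : ℂ)) • (ξ * x) := by
    intro x
    rw [hcor]
    refine hW.hom_induction hX (P := fun x => ξ * (ξ * cor W l x)
      - (2 : ℂ) • (ξ * cor W l (ξ * x)) + cor W l (ξ * (ξ * x)) = (-(2 : ℂ)) • (ξ * x)) x
      ?_ ?_ ?_
    · intro i x hx
      have e1 : ξ * cor W l x - cor W l (ξ * x) = ((i : ℂ) - (n : ℂ)) • x := hslm.comm i x hx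
      have hξx : ξ * x ∈ W.gr X (i + 2) := hslm.L_gr i x hx
      have e2 : ξ * cor W l (ξ * x) - cor W l (ξ * (ξ * x))
          = (((i + 2 : ℕ) : ℂ) - (n : ℂ)) • (ξ * x) := hslm.comm (i + 2) (ξ * x) hξx
      have e3 : ξ * (ξ * cor W l x) = ξ * cor W l (ξ * x) + ((i : ℂ) - (n : ℂ)) • (ξ * x) := by
        rw [← mul_smul_comm, ← e1, mul_sub]
        abel
      have e4 : cor W l (ξ * (ξ * x)) = ξ * cor W l (ξ * x)
          - (((i + 2 : ℕ) : ℂ) - (n : ℂ)) • (ξ * x) := by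
        rw [← e2]
        abel
      rw [e3, e4, two_smul]
      have e5 : ((i : ℂ) - (n : ℂ)) • (ξ * x) - (((i + 2 : ℕ) : ℂ) - (n : ℂ)) • (ξ * x)
          = (-(2 : ℂ)) • (ξ * x) := by
        rw [← sub_smul]
        congr 1
        push_cast
        ring
      rw [← e5]
      abel
    · simp only [mul_zero, map_zero, smul_zero, sub_zero, add_zero]
    · intro a b ha hb
      simp only [mul_add, map_add, smul_add] at ha hb ⊢
      rw [← ha, ← hb]
      abel
  -- the class of the relation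
  let η : W.coh (X ⊗ X) := W.pull (fst X X) ξ - W.pull (snd X X) ξ
  let δ : W.coh (X ⊗ X) := W.push (lift (𝟙 X) (𝟙 X)) ξ
  have hη : η ^ 2 ∈ W.alg (X ⊗ X) 2 := by
    have h1 : η ∈ W.alg (X ⊗ X) 1 :=
      sub_mem (hW.pull_alg hXX hX (fst X X) hξ1) (hW.pull_alg hXX hX (snd X X) hξ1)
    exact hW.pow_alg hXX h1 2
  have hδ : δ ∈ W.alg (X ⊗ X) (n + 1) := hW.push_alg hX hXX _ hξ1 (by omega)
  have hcls : l' * η ^ 2 = (-(2 : ℂ)) • δ := by
    refine cor_injective hW hX hX (LinearMap.ext fun x => ?_)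
    rw [cor_eta hW hX hξ1, cor_smul, LinearMap.smul_apply, cor_diag hW hX hξ1]
    exact hrel x
  -- a finite combination
  obtain ⟨N, c, a, hca⟩ := Submodule.mem_span_set'.1 hl'
  obtain ⟨ρ, hρ⟩ := exists_rho
  let μ : W.coh (X ⊗ X) := ∑ i, ((ρ (c i) : ℚ) : ℂ) • (a i : W.coh (X ⊗ X))
  have hμ : μ ∈ W.alg (X ⊗ X) (n - 1) :=
    AddSubgroup.sum_mem _ fun i _ => CohomologyData.alg_smul (ρ (c i)) (a i).2
  have hμη : μ * η ^ 2 + (2 : ℂ) • δ ∈ W.alg (X ⊗ X) (n + 1) := by
    have h1 := hW.mul_alg hXX hμ hη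
    rw [show n - 1 + 2 = n + 1 by omega] at h1
    have h3 := CohomologyData.alg_smul (W := W) 2 hδ
    rw [Rat.cast_ofNat] at h3
    exact add_mem h1 h3
  have hzero : μ * η ^ 2 + (2 : ℂ) • δ = 0 := by
    refine hD (n + 1) _ hμη fun j y hy => ?_
    have hy' : y ∈ W.alg (X ⊗ X) j := hy
    change W.tr (X ⊗ X) ((μ * η ^ 2 + (2 : ℂ) • δ) * y) = 0
    by_cases hj : n + 1 + j = 2 * n
    · -- rational traces
      have hq : ∀ i, ∃ q : ℚ, W.tr (X ⊗ X) ((a i : W.coh (X ⊗ X)) * η ^ 2 * y) = q := by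
        intro i
        refine hW.tr_alg hXX ?_
        have h1 := hW.mul_alg hXX (hW.mul_alg hXX (a i).2 hη) hy'
        rwa [show n - 1 + 2 + j = n + n by omega] at h1
      choose q hq using hq
      obtain ⟨q', hq'⟩ : ∃ q' : ℚ, W.tr (X ⊗ X) (δ * y) = q' := by
        refine hW.tr_alg hXX ?_
        have h1 := hW.mul_alg hXX hδ hy'
        rwa [show n + 1 + j = n + n by omega] at h1
      have h1 : ∑ i, c i * (q i : ℂ) = ((-2 * q' : ℚ) : ℂ) := by
        have h3 : W.tr (X ⊗ X) (l' * η ^ 2 * y) = W.tr (X ⊗ X) ((-(2 : ℂ)) • δ * y) := by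
          rw [hcls]
        rw [← hca, Finset.sum_mul, Finset.sum_mul, map_sum, smul_mul_assoc, map_smul, hq'] at h3
        rw [smul_eq_mul] at h3
        push_cast
        rw [← h3]
        refine Finset.sum_congr rfl fun i _ => ?_
        rw [smul_mul_assoc, smul_mul_assoc, map_smul, hq, smul_eq_mul]
      have h4 : ∑ i, ρ (c i) * q i = -2 * q' := by
        have h5 := congrArg ρ h1
        rw [hρ, map_sum] at h5
        rw [← h5]
        refine Finset.sum_congr rfl fun i _ => ?_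
        have h6 : c i * (q i : ℂ) = (q i) • c i := by
          rw [Rat.smul_def, mul_comm]
        rw [h6, map_smul, smul_eq_mul, mul_comm]
      rw [add_mul, map_add, smul_mul_assoc, map_smul, hq', smul_eq_mul]
      have h7 : W.tr (X ⊗ X) (μ * η ^ 2 * y) = ((∑ i, ρ (c i) * q i : ℚ) : ℂ) := by
        simp only [μ]
        rw [Finset.sum_mul, Finset.sum_mul, map_sum]
        push_cast
        refine Finset.sum_congr rfl fun i _ => ?_
        rw [smul_mul_assoc, smul_mul_assoc, map_smul, hq, smul_eq_mul]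
      rw [h7, h4]
      push_cast
      ring
    · exact hW.tr_gr hXX (hW.mul_gr hXX (hW.alg_gr hXX hμη) (hW.alg_gr hXX hy')) (by omega)
  -- conclusion
  have hμs : μ ∈ Submodule.span ℂ {z : W.coh (X ⊗ X) | z ∈ W.alg (X ⊗ X) (n - 1)} :=
    Submodule.subset_span hμ
  have hD0 : cor W l' - cor W μ = 0 := by
    refine unique hW hX hξ1 hL ((neg2_span hW hX hn hl').sub (neg2_span hW hX hn hμs))
      fun x => ?_
    have h1 := hrel x
    have h3 : ξ * (ξ * cor W μ x) - (2 : ℂ) • (ξ * cor W μ (ξ * x)) + cor W μ (ξ * (ξ * x))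
        = (-(2 : ℂ)) • (ξ * x) := by
      rw [← cor_eta hW hX hξ1, eq_neg_of_add_eq_zero_left hzero, ← neg_smul, cor_smul,
        LinearMap.smul_apply, cor_diag hW hX hξ1]
    simp only [LinearMap.sub_apply, mul_sub, smul_sub]
    rw [← sub_eq_zero.2 (h1.trans h3.symm)]
    abel
  have hfin : cor W μ = cor W l := by
    rw [← hcor]
    exact (sub_eq_zero.1 hD0).symm
  refine ⟨μ, hμ, fun i r x hi hr hx => ?_⟩
  have h1 : W.pf (X.pr₂ X) (W.cup (W.pb (X.pr₁ X) (W.cup (ξ ^ r) x)) μ)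
      = cor W μ (ξ ^ r * x) := rfl
  rw [h1, hfin]
  exact hop i r x hi hr hx

end LamQ

end Pool.Agent.Lib.MP_361a6f_ag.FL
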