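import Pool.Agent.Lib.MP_361a6f_ag.FL.O.T1

/-!
# The 51 per cent law, strict form
-/

open Filter Topology MeasureTheory

set_option autoImplicit false
set_option linter.unusedSectionVars false

namespace Pool.Agent.Lib.MP_361a6f_ag.FL

namespace OL

section lev

variable {I Λ β : Type} [Fintype I] [DecidableEq I] [DecidableEq Λ] [Fintype β] {lb : β → ℕ}
  {D : Dat I Λ} {At : (L : ℕ) → Ten I L → Prop} {m : ℕ} {b : Tup I lb} {H : HMb D b}
  {g : ℕ → Matrix I I ℂ} {k : Matrix I I ℂ}

/-- the limits of the elements of the complex span -/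
noncomputable def lc (L : LevData D At m H g k) (a1 : Alg1) {c : ℕ} (hc : c ≤ m) :
    CA At c →ₗ[ℂ] Ten I c where
  toFun u := Classical.choose (L.lim c hc u u.2)
  map_add' u v := by
    refine tendsto_nhds_unique (Classical.choose_spec (L.lim c hc _ (u + v).2)).1 ?_
    exact ZAbs.lim_add a1 (Classical.choose_spec (L.lim c hc _ u.2)).1
      (Classical.choose_spec (L.lim c hc _ v.2)).1
  map_smul' r u := by
    refine tendsto_nhds_unique (Classical.choose_spec (L.lim c hc _ (r • u).2)).1 ?_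
    exact ZAbs.lim_smul a1 _ (Classical.choose_spec (L.lim c hc _ u.2)).1

theorem lc_lim (L : LevData D At m H g k) (a1 : Alg1) {c : ℕ} (hc : c ≤ m) (u : CA At c) :
    Tendsto (fun j => gT (g j) (u : Ten I c)) atTop (𝓝 (lc L a1 hc u)) :=
  (Classical.choose_spec (L.lim c hc u u.2)).1

/-- the rank is at most the dimension of the complex span -/
theorem rk_le (L : LevData D At m H g k) (a1 : Alg1) {c : ℕ} (hc : c ≤ m) :
    rkA D At c ≤ Module.finrank ℂ (CA At c) := by
  rw [← finrank_lim L a1 hc]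
  refine le_trans (Submodule.finrank_mono ?_) (LinearMap.finrank_range_le (lc L a1 hc))
  intro v hv
  obtain ⟨u, hu, h⟩ := L.surj c hc v hv
  exact ⟨⟨u, hu⟩, tendsto_nhds_unique (lc_lim L a1 hc ⟨u, hu⟩) h⟩

end lev

section sys

variable {I Λ : Type} [Fintype I] [DecidableEq I] [DecidableEq Λ] {D : Dat I Λ}
  {At : (L : ℕ) → Ten I L → Prop}

theorem psi_real (S : ASys D At) {c : ℕ} {u w : Ten I c} (hu : u ∈ RA At c) (hw : w ∈ RA At c) :
    (psiT D u w).im = 0 := by
  unfold RA at hw
  induction hw using Submodule.span_induction with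
  | mem x hx => exact Qps.psi_real S hx hu
  | zero => rw [← Qps.psiL_apply, map_zero]; rfl
  | add a b _ _ ha hb =>
    rw [← Qps.psiL_apply, map_add, Qps.psiL_apply, Qps.psiL_apply, Complex.add_im, ha, hb,
      add_zero]
  | smul r a _ ha =>
    rw [Qps.real_smul, ← Qps.psiL_apply, map_smul, Qps.psiL_apply, smul_eq_mul,
      Complex.im_ofReal_mul, ha, mul_zero]

theorem jj_real (S : ASys D At) (a1 : Alg1) {c : ℕ} {u : Ten I c} (hu : u ∈ RA At c) :
    jT D (jT D u) = u := by
  unfold RA at hu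
  induction hu using Submodule.span_induction with
  | mem x hx => exact S.even c x hx
  | zero =>
    have := a1.jT_smul D 0 (0 : Ten I c)
    rw [zero_smul, map_zero, zero_smul] at this
    rw [this, this]
  | add a b _ _ ha hb => rw [a1.jT_add, a1.jT_add, ha, hb]
  | smul r a _ ha =>
    rw [Qps.real_smul, a1.jT_smul, a1.jT_smul, ha, Complex.conj_ofReal, Complex.conj_ofReal]

theorem psi_symm (S : ASys D At) (a1 : Alg1) {c : ℕ} {u w : Ten I c} (hu : u ∈ RA At c)
    (hw : w ∈ RA At c) : psiT D u w = psiT D w u :=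
  Qps.psi_symm a1 (jj_real S a1 hu) (jj_real S a1 hw)

/-- a null vector of a semidefinite form is in the kernel -/
theorem null_num (S : ASys D At) (a1 : Alg1) {c : ℕ}
    (hsemi : ∀ w ∈ RA At c, 0 ≤ (psiT D w w).re) {u : Ten I c} (hu : u ∈ RA At c)
    (h0 : (psiT D u u).re = 0) : u ∈ numA D At c := by
  refine ⟨hu, fun w hw => ?_⟩
  refine Complex.ext ?_ (psi_real S hu hw)
  have key : ∀ t : ℝ, 0 ≤ (psiT D w w).re + 2 * t * (psiT D u w).re := by
    intro t
    have h1 := hsemi (w + t • u) (add_mem hw (Submodule.smul_mem _ t hu))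
    have h2 : psiT D (w + t • u) (w + t • u) =
        psiT D w w + (t : ℂ) * psiT D w u + (t : ℂ) * (psiT D u w + (t : ℂ) * psiT D u u) := by
      rw [Qps.real_smul, ← Qps.psiL_apply]
      simp only [map_add, map_smul, LinearMap.add_apply, LinearMap.smul_apply, smul_eq_mul,
        Qps.psiL_apply]
      ring
    rw [h2, psi_symm S a1 hw hu] at h1
    simp only [Complex.add_re, Complex.re_ofReal_mul, h0, mul_zero, add_zero] at h1
    linarith
  rw [Complex.zero_re]
  by_contra hne
  have h1 := key (-((psiT D w w).re + 1) / (2 * (psiT D u w).re))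
  have h2 : 2 * (-((psiT D w w).re + 1) / (2 * (psiT D u w).re)) * (psiT D u w).re =
      -((psiT D w w).re + 1) := by
    field_simp
  rw [h2] at h1
  linarith

end sys

/-- **T1, strict form.** -/
theorem t1su (a1 : Alg1) (a2 : Alg2) (ab : AlgB) (cpt : CptbStatement) (mn : MinbStatement)
    (l1 : L1bStatement) (l2 : L2bStatement) (gro : GroU) (ht1 : T1U) (ht2 : T2U) : T1SU := by
  intro d r δ hδ
  obtain ⟨n₁, h₁⟩ := ht1 d r δ hδ
  obtain ⟨n₂, h₂⟩ := ht2 d r 2
  refine ⟨max n₁ n₂, ?_⟩
  intro I Λ _ _ _ D At hI S hpos n hn U hU hdef hbig u hu hu0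
  obtain ⟨β, _, lb, b, H, g, k, L⟩ := LevO.lev (D := D) a1 a2 ab cpt mn l1 l2 S (n + 1)
  have hc : n ≤ n + 1 := by omega
  have hle : (rkA D At n : ℝ) ≤ Module.finrank ℂ (CA At n) := by exact_mod_cast rk_le L a1 hc
  by_contra hno
  have hno' : (psiT D u u).re ≤ 0 := not_lt.1 hno
  by_cases hA : ∃ w ∈ RA At r, (psiT D w w).re < 0
  · have h3 := h₁ hI S hpos hA n (le_of_max_le_left hn) U hU (Or.inl hdef)
    have h4 : (1 / 2 + δ) * (rkA D At n : ℝ) ≤ (1 / 2 + δ) * Module.finrank ℂ (CA At n) :=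
      mul_le_mul_of_nonneg_left hle (by linarith)
    linarith
  · push Not at hA
    have h3 : u ∈ numA D At r := null_num S a1 hA hu (le_antisymm hno' (hA u hu))
    have h4 := h₂ hI S hpos ⟨u, h3, hu0⟩ n (le_of_max_le_right hn)
    have h4' : 2 * (rkA D At n : ℝ) ≤ Module.finrank ℂ (CA At n) := by exact_mod_cast h4
    -- positive rank
    obtain ⟨e, he, hef, _⟩ := exists_pos L a1 (by omega : 1 ≤ n + 1) hpos
    have hd : 1 ≤ d := by
      rw [← hI]
      by_contra h5
      have h6 : Fintype.card I = 0 := by omega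
      rw [Fintype.card_eq_zero_iff] at h6
      exact he (funext fun w => (h6.false (w 0)).elim)
    have hd' : (1 : ℝ) ≤ d := by exact_mod_cast hd
    obtain ⟨C, hC, hgro⟩ := gro a1 d (1 / 2) (by norm_num) (by linarith)
    have h5 := hgro D hI H e he hef n
    rw [finrank_lim L a1 hc] at h5
    have h6 : (0 : ℝ) < rkA D At n := lt_of_lt_of_le (by positivity) h5
    have h7 : (Module.finrank ℝ U : ℝ) ≤ rkA D At n := by
      have h8 := pos_le L a1 hc U hU hdef
      have h9 := (eig_int L a1 hc).1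
      have : Module.finrank ℝ U ≤ rkA D At n := by omega
      exact_mod_cast this
    have h8 : 0 < δ * (Module.finrank ℂ (CA At n) : ℝ) := mul_pos hδ (by linarith)
    linarith

end OL

end Pool.Agent.Lib.MP_361a6f_ag.FL
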