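import Pool.Agent.Lib.MP_361a6f_ag.FL.O.T2M
import Pool.Agent.Lib.MP_361a6f_ag.FL.O.HostR
import Pool.Agent.Lib.MP_361a6f_ag.FL.O.HostS
import Pool.Agent.Lib.MP_361a6f_ag.FL.O.T1S
import Pool.Agent.Lib.MP_361a6f_ag.FL.O.StatO

/-!
# The 51 per cent law: assembly
-/

open CategoryTheory AlgebraicGeometry MonoidalCategory CartesianMonoidalCategory

universe u v w

set_option autoImplicit false

namespace Pool.Agent.Lib.MP_361a6f_ag.FL

open Pool.Agent.Lib.MP_361a6f_ag.H3 Pool.Agent.Lib.MP_361a6f_ag.SQ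
  Pool.Agent.Lib.MP_361a6f_ag.PP OL

/-- T1, abstract form -/
theorem mainT1U : T1U :=
  t1u alg1 alg2 (algB alg1 alg2) cptbH (minb alg1) T2A.hl1 T2A.hl2 gro

/-- T1, abstract strict form -/
theorem mainT1SU : T1SU :=
  t1su alg1 alg2 (algB alg1 alg2) cptbH (minb alg1) T2A.hl1 T2A.hl2 gro mainT1U T2A.mainU

/-- a positive family gives a positive space of tensors -/
theorem pos_tensors {k : Type u} [Field k] {W : CohomologyData.{u, 0, w} k ℂ} {𝒱 : VarietyClass k}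
    (H : Host W 𝒱 1) (hge : H.GeFacts) (P : Prd 1) (U : ℕ → Submodule ℝ (W.coh (P.obj H.X)))
    (hU : PosFamily W (P.obj H.X) (P.dim H.n) (P.pol W H.ξ) U) :
    ∃ T : Submodule ℝ (Ten H.I P.size), T ≤ RA (HostR.AtP H) P.size ∧ PosU H.D T ∧
      Module.finrank ℝ T = weight (P.dim H.n) U := by
  let U' : ℕ → Submodule ℝ (W.coh (P.obj H.X)) := fun j => if 2 * j ≤ P.dim H.n then U j else ⊥
  have hU' : ∀ j, 2 * j ≤ P.dim H.n → U' j = U j := fun j hj => if_pos hj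
  have hw : ∑ j ∈ Finset.range (P.dim H.n / 2 + 1), (P.dim H.n - 2 * j + 1)
        * Module.finrank ℝ (U' j) = weight (P.dim H.n) U := by
    refine Finset.sum_congr rfl fun j hj => ?_
    have hj' : 2 * j ≤ P.dim H.n := by
      have := Finset.mem_range.1 hj
      omega
    rw [hU' j hj']
  obtain ⟨T, hT1, hT2, hT3⟩ := OStr.posU H hge sl2 staB P U' (by
      intro j x hx
      by_cases hj : 2 * j ≤ P.dim H.n
      · rw [hU' j hj] at hx
        exact hU.real j hj x hx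
      · have : U' j = ⊥ := if_neg hj
        rw [this, Submodule.mem_bot] at hx
        rw [hx]
        exact zero_mem _)
    (fun j hj x hx => hU.prim j hj x (by rwa [hU' j hj] at hx))
    (fun j hj x hx h0 => hU.pos j hj x (by rwa [hU' j hj] at hx) h0)
  exact ⟨T, hT1, hT2, hT3.trans hw⟩

/-- the 51 per cent law for one label -/
theorem fiftyOne (d r : ℕ) {δ : ℝ} (hδ : 0 < δ) :
    ∃ n₀ : ℕ, ∀ {k : Type u} [Field k] (W : CohomologyData.{u, 0, w} k ℂ) (𝒱 : VarietyClass k)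
      (_ : IsWeilCohomology W 𝒱) {X : Fin 1 → Sch k} {e : Fin 1 → ℕ} (_ : ∀ a, 𝒱.mem (X a) (e a))
      {ξ : ∀ a, W.coh (X a)} (_ : ∀ a, PositiveDivisor W (X a) (e a) (ξ a))
      (_ : ∀ a, HardLefschetz W (X a) (e a) (ξ a)) (_ : ∀ a, AlgebraicLambda W (X a) (e a) (ξ a))
      (_ : Module.finrank ℂ (W.coh (X 0)) = d) (P : Prd 1) (_ : n₀ ≤ P.size)
      (U : ℕ → Submodule ℝ (W.coh (P.obj X)))
      (_ : PosFamily W (P.obj X) (P.dim e) (P.pol W ξ) U)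
      (_ : (1 / 2 + δ) * Module.finrank ℂ (algC W (P.obj X)) ≤ weight (P.dim e) U)
      (R : Prd 1) (_ : R.size ≤ r) (η : W.coh (R.obj X)) (_ : IsPol W ξ R η),
      HodgeType W (R.obj X) (R.dim e) η := by
  obtain ⟨n₀, hn₀⟩ := mainT1SU d (max r 2) δ hδ
  refine ⟨n₀, ?_⟩
  intro k _ W 𝒱 hW X e hX ξ hξ hL hΛ hd P hP U hU hbig R hR η hη
  obtain ⟨H, hHX, hHn, hHξ⟩ := gb26 hW hX (fun a => (hξ a).1) hL hΛ
  subst hHX hHn
  obtain rfl := eq_of_heq hHξ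
  have hge : H.GeFacts := ge H
  have hgr : H.RelFacts := gr ge H
  have hS : ASys H.D (HostR.AtP H) := aSys_at (at_ H)
  have hpos : ∃ u ∈ RA (HostR.AtP H) 1, 0 < (psiT H.D u u).re :=
    OStr.unit_pos H hge 0 (hξ 0)
  obtain ⟨T, hT1, hT2, hT3⟩ := pos_tensors H hge P U hU
  -- all polarisations
  refine OStr.isPol W 𝒱 hW hX hξ hL hΛ (max r 2) (le_max_right _ _) ?_ R
    (hR.trans (le_max_left _ _)) η hη
  intro Q hQ
  refine OStr.hodge_of_pos H hge sl2 staB Q ?_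
  intro u hu hu0
  have hcard : Fintype.card H.I = d := (HostR.card_I H hge).trans hd
  have key := hn₀ hcard hS hpos P.size hP T hT1 hT2 (by
    rw [HostR.finrank_CA H hgr hge P, hT3]
    exact hbig)
  rw [← hQ] at key
  exact key u hu hu0

/-- **The 51 per cent law.** -/
theorem mainT1 : FiftyOneStatement.{u, w} := by
  intro d r δ hδ
  obtain ⟨n₀, h⟩ := fiftyOne.{u, w} d r hδ
  refine ⟨n₀, ?_⟩
  intro k _ W 𝒱 hW X e hX ξ hξ hL hΛ hd P hP U hU hbig R hR η hη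
  exact h W 𝒱 hW (X := fun _ => X) (e := fun _ => e) (fun _ => hX) (ξ := fun _ => ξ)
    (fun _ => hξ) (fun _ => hL) (fun _ => hΛ) hd P hP U hU hbig R hR η hη

theorem isPol_pol {k : Type u} [Field k] {W : CohomologyData.{u, 0, w} k ℂ} {m : ℕ}
    {X : Fin m → Sch k} (ξ : ∀ a, W.coh (X a)) : ∀ P : Prd m, IsPol W ξ P (P.pol W ξ)
  | .leaf a => by
    have h := IsPol.leaf (W := W) (ξ := ξ) a 1 one_pos
    have h1 : W.scal ((1 : ℚ) : ℂ) (ξ a) = ξ a := by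
      rw [Rat.cast_one]
      exact one_smul ℂ (ξ a)
    exact cast (congrArg (IsPol W ξ (.leaf a)) h1) h
  | .prod P Q => .prod P Q _ _ (isPol_pol ξ P) (isPol_pol ξ Q)

/-- **One power decides all powers.** -/
theorem mainOne : OnePowerStatement.{u, w} := by
  intro k _ W 𝒱 hW X e hX δ hδ
  obtain ⟨N₀, hN₀⟩ := mainRinf.{u, 0, w} (RingHom.id ℂ) W 𝒱 hW (X := fun _ : Fin 1 => X)
    (n := fun _ => e) (fun _ => hX)
  obtain ⟨n₀, h⟩ := fiftyOne.{u, w} (Module.finrank ℂ (W.coh X)) N₀ hδ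
  refine ⟨n₀, ?_⟩
  intro ξ hξ hL hΛ P hP U hU hbig R η hη
  refine hN₀ N₀ le_rfl (fun _ => ξ) (fun _ => hξ) (fun _ => hL) (fun _ => hΛ) ?_ R η hη
  intro Q hQ
  exact h W 𝒱 hW (X := fun _ => X) (e := fun _ => e) (fun _ => hX) (ξ := fun _ => ξ)
    (fun _ => hξ) (fun _ => hL) (fun _ => hΛ) rfl P hP U hU hbig Q hQ.le _ (isPol_pol _ Q)

/-- the gap, abstract form -/
theorem gap_abs {I Λ : Type} [Fintype I] [DecidableEq I] [DecidableEq Λ] {D : Dat I Λ}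
    {At : (L : ℕ) → Ten I L → Prop} (S : ASys D At) (hpos : ∃ u ∈ RA At 1, 0 < (psiT D u u).re)
    {r : ℕ} (hneg : ∃ u ∈ RA At r, (psiT D u u).re < 0) (n : ℕ) (U : Submodule ℝ (Ten I n))
    (hU : U ≤ RA At n) (hdef : PosU D U) :
    (2 * Module.finrank ℝ U : ℝ) ≤ rkA D At n +
      ((Fintype.card I : ℝ) - 2 / (r : ℝ) ^ 2) ^ n := by
  obtain ⟨β, _, lb, b, H, g, k, L⟩ := LevO.lev (D := D) alg1 alg2 (algB alg1 alg2) cptbH
    (minb alg1) T2A.hl1 T2A.hl2 S (n + r + 1)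
  have hc : n ≤ n + r + 1 := by omega
  obtain ⟨_, _, hsig⟩ := sig_bound L alg1 hc (by omega : r ≤ n + r + 1) (by omega) hpos hneg
  obtain ⟨hsum, _⟩ := eig_int L alg1 hc
  have hsum' : (Module.finrank ℝ (eigR L alg1 hc 1) : ℝ) + Module.finrank ℝ (eigR L alg1 hc (-1)) =
      rkA D At n := by exact_mod_cast hsum
  have h7 : (Module.finrank ℝ U : ℝ) ≤ Module.finrank ℝ (eigR L alg1 hc 1) := by
    exact_mod_cast pos_le L alg1 hc U hU hdef
  have h8 := (abs_le.1 hsig).2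
  linarith

/-- the gap for one label -/
theorem gap {k : Type u} [Field k] (W : CohomologyData.{u, 0, w} k ℂ) (𝒱 : VarietyClass k)
    (hW : IsWeilCohomology W 𝒱) {X : Fin 1 → Sch k} {e : Fin 1 → ℕ} (hX : ∀ a, 𝒱.mem (X a) (e a))
    {ξ : ∀ a, W.coh (X a)} (hξ : ∀ a, PositiveDivisor W (X a) (e a) (ξ a))
    (hL : ∀ a, HardLefschetz W (X a) (e a) (ξ a)) (hΛ : ∀ a, AlgebraicLambda W (X a) (e a) (ξ a))
    (R : Prd 1) (j : ℕ) (hj : 2 * j ≤ R.dim e) (x : W.coh (R.obj X))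
    (hx : W.IsAlg (R.obj X) j x) (hp : W.cup (R.pol W ξ ^ (R.dim e - 2 * j + 1)) x = 0)
    (hneg : ((-1) ^ j * W.Tr (W.cup (R.pol W ξ ^ (R.dim e - 2 * j)) (W.cup x x))).re < 0)
    (P : Prd 1) (U : ℕ → Submodule ℝ (W.coh (P.obj X)))
    (hU : PosFamily W (P.obj X) (P.dim e) (P.pol W ξ) U) :
    (2 * weight (P.dim e) U : ℝ) ≤ rankN W (P.obj X) +
      ((Module.finrank ℂ (W.coh (X 0)) : ℝ) - 2 / (R.size : ℝ) ^ 2) ^ P.size := by
  obtain ⟨H, hHX, hHn, hHξ⟩ := gb26 hW hX (fun a => (hξ a).1) hL hΛ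
  subst hHX hHn
  obtain rfl := eq_of_heq hHξ
  have hge : H.GeFacts := ge H
  have hgr : H.RelFacts := gr ge H
  have hS : ASys H.D (HostR.AtP H) := aSys_at (at_ H)
  have hpos : ∃ u ∈ RA (HostR.AtP H) 1, 0 < (psiT H.D u u).re :=
    OStr.unit_pos H hge 0 (hξ 0)
  obtain ⟨T, hT1, hT2, hT3⟩ := pos_tensors H hge P U hU
  have hneg' : ∃ u ∈ RA (HostR.AtP H) R.size, (psiT H.D u u).re < 0 := by
    refine ⟨H.tc R x, Submodule.subset_span (OStr.tc_At H R (alg_le_tot H.hW _ j hx)), ?_⟩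
    obtain ⟨q, hq, h1⟩ := OStr.psi_str H.hW (H.memP R) (H.lamP R).2 (H.lamP R).1 sl2 staB hj
      (x := x) (y := x) (Submodule.subset_span hx) hp 0 (Nat.zero_le _)
    rw [pow_zero, one_mul] at h1
    have h2 : psiT H.D (H.tc R x) (H.tc R x) = (q : ℂ) * ((-1) ^ j * W.Tr (W.cup
        (R.pol W H.ξ ^ (R.dim H.n - 2 * j)) (W.cup x x))) := by
      rw [hge.psi_tc R x x]
      exact h1
    have hq' : (0 : ℝ) < q := by exact_mod_cast hq
    have h3 : (q : ℂ) = ((q : ℝ) : ℂ) := by push_cast; rfl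
    rw [h2, h3, Complex.re_ofReal_mul]
    exact mul_neg_of_pos_of_neg hq' hneg
  have key := gap_abs hS hpos hneg' P.size T hT1 hT2
  rw [hT3, HostR.rkA_eq H staB hgr hge P, HostR.card_I H hge] at key
  exact key

/-- **The gap.** -/
theorem mainGap : GapStatement.{u, w} := by
  intro k _ W 𝒱 hW X e hX ξ hξ hL hΛ R j hj x hx hp hneg P U hU
  exact gap W 𝒱 hW (X := fun _ => X) (e := fun _ => e) (fun _ => hX) (ξ := fun _ => ξ)
    (fun _ => hξ) (fun _ => hL) (fun _ => hΛ) R j hj x hx hp hneg P U hU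

end Pool.Agent.Lib.MP_361a6f_ag.FL
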