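import Pool.Agent.Lib.MP_361a6f_ag.FL.O.IntK52
import Pool.Agent.Lib.MP_361a6f_ag.FL.GG.Exp
import Pool.Agent.Lib.MP_361a6f_ag.FL.GG.GeoE44
import Pool.Agent.Lib.MP_361a6f_ag.FL.GG.Lim

/-!
# The integrality law: assembly
-/

open CategoryTheory AlgebraicGeometry MonoidalCategory CartesianMonoidalCategory Filter Topology

universe u v w

set_option autoImplicit false
set_option linter.unusedSectionVars false
set_option linter.unusedVariables false

namespace Pool.Agent.Lib.MP_361a6f_ag.FL

open Pool.Agent.Lib.MP_361a6f_ag.H3 Pool.Agent.Lib.MP_361a6f_ag.SQ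
  Pool.Agent.Lib.MP_361a6f_ag.PP

namespace L44

open OL PRK PGC IntW

/-- the algebraic classes form a closed family -/
theorem closedA {k : Type u} [Field k] {W : CohomologyData.{u, 0, w} k ℂ} {𝒱 : VarietyClass k}
    (hW : IsWeilCohomology W 𝒱) {X : Fin 1 → Sch k} {e : ℕ} (hX : ∀ a, 𝒱.mem (X a) e) :
    ClosedFamily W X (fun P => algC W (P.obj X)) ∧ ExtClosed W X fun P => algC W (P.obj X) := by
  have hP : ∀ P : Prd 1, 𝒱.mem (P.obj X) (P.dim fun _ => e) := fun P =>
    memP (X := X) (n := fun _ => e) hX P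
  have hsp : ∀ {Y : Sch k} {z : W.coh Y}, z ∈ tot W Y → z ∈ algC W Y := fun {Y z} hz => by
    rw [algC_eq]
    exact Submodule.subset_span hz
  refine ⟨⟨fun P => le_rfl, fun P Q a ha t ht => ?_⟩, fun P Q s hs t ht => ?_⟩
  · change cor W (X := P.obj X) (Y := Q.obj X) a t ∈ algC W (Q.obj X)
    have hPQ := 𝒱.prod (hP P) (hP Q)
    replace ha : a ∈ Submodule.span ℂ {z | z ∈ tot W (P.obj X ⊗ Q.obj X)} := by
      rw [← algC_eq]
      exact ha
    replace ht : t ∈ Submodule.span ℂ {z | z ∈ tot W (P.obj X)} := by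
      rw [← algC_eq]
      exact ht
    induction ha using Submodule.span_induction with
    | mem a ha =>
      have h1 : Submodule.span ℂ {z | z ∈ tot W (P.obj X)} ≤
          (algC W (Q.obj X)).comap (cor W (X := P.obj X) (Y := Q.obj X) a) :=
        Submodule.span_le.2 fun z hz => hsp (tot_push hW hPQ (hP Q) _
          (tot_mul hW hPQ (tot_pull hW hPQ (hP P) _ hz) ha))
      exact h1 ht
    | zero =>
      rw [cor_zero, LinearMap.zero_apply]
      exact zero_mem _
    | add a b _ _ ha hb =>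
      rw [cor_add, LinearMap.add_apply]
      exact add_mem ha hb
    | smul c a _ ha =>
      rw [cor_smul, LinearMap.smul_apply]
      exact Submodule.smul_mem _ c ha
  · change W.pull (fst (P.obj X) (Q.obj X)) s * W.pull (snd (P.obj X) (Q.obj X)) t ∈
      algC W (P.obj X ⊗ Q.obj X)
    have hPQ := 𝒱.prod (hP P) (hP Q)
    replace hs : s ∈ Submodule.span ℂ {z | z ∈ tot W (P.obj X)} := by
      rw [← algC_eq]
      exact hs
    replace ht : t ∈ Submodule.span ℂ {z | z ∈ tot W (Q.obj X)} := by
      rw [← algC_eq]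
      exact ht
    induction hs using Submodule.span_induction with
    | mem s hs =>
      induction ht using Submodule.span_induction with
      | mem t ht => exact hsp (tot_mul hW hPQ (tot_pull hW hPQ (hP P) _ hs)
          (tot_pull hW hPQ (hP Q) _ ht))
      | zero =>
        rw [map_zero, mul_zero]
        exact zero_mem _
      | add a b _ _ ha hb =>
        rw [map_add, mul_add]
        exact add_mem ha hb
      | smul c a _ ha =>
        rw [map_smul, mul_smul_comm]
        exact Submodule.smul_mem _ c ha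
    | zero =>
      rw [map_zero, zero_mul]
      exact zero_mem _
    | add a b _ _ ha hb =>
      rw [map_add, add_mul]
      exact add_mem ha hb
    | smul c a _ ha =>
      rw [map_smul, smul_mul_assoc]
      exact Submodule.smul_mem _ c ha

/-- **The integrality law.** -/
theorem law : IntegralityLawStatement.{u, w} := by
  intro k _ W 𝒱 hW X e hX hE'
  have hE := even hW hX hE'
  have hX' : ∀ a, 𝒱.mem (X a) e := fun a => by
    rw [Subsingleton.elim a 0]
    exact hX
  have hfP : ∀ P : Prd 1, Module.Finite ℂ (W.coh (P.obj X)) := fun P =>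
    hW.finite (memP (X := X) (n := fun _ => e) hX' P)
  obtain ⟨hgr, hint⟩ := integrality W 𝒱 hW X hX hE'
  refine ⟨hgr, fun T => ⟨fun hT => ⟨?_, fun R m hRm hlt P =>
    (gap W 𝒱 hW X hX hE' T hT R m hRm hlt P).1⟩, fun hT hTe =>
    ⟨GG44.gapE GG.lim GG.exp hW hX hE hT hTe, fun R hR P => ?_, fun R m hRm hlt P hnd => ?_⟩⟩,
    closedA hW hX', fun F hF => ⟨fun P => ?_, fun T hTF => ?_⟩⟩
  · rcases hint T hT with h | ⟨m, h1, h2, h3⟩
    · exact Or.inl h
    · exact Or.inr ⟨m, h1, h2, fun hA => ⟨(h3 hA).1, (h3 hA).2.2⟩⟩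
  · have hr := inverse_square_root W 𝒱 hW X hX hE' R
    by_cases hD : ConjectureD W (R.obj X)
    · exact hr.1 T hT hTe (fun h => hR ⟨hD, h⟩) P
    · refine (hr.2 hD P).trans (mul_le_mul_of_nonneg_left ?_ (by unfold rootC; positivity))
      exact_mod_cast Submodule.finrank_mono (hT.alg P)
  · exact (gap W 𝒱 hW X hX hE' T hT.corr R m (hRm.imp_right fun h => ⟨h, hT.alg R⟩) hlt P).2
      hT.alg hTe hnd
  · rcases frobenius_integrality W 𝒱 hW X hX hE' F hF (fun P => tateF W (P.obj X) (F P))
      (Or.inr fun _ => rfl) with ⟨-, -, h, -, -⟩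
    exact h P
  · obtain ⟨h1, h2, -, h3, -⟩ := frobenius_integrality W 𝒱 hW X hX hE' F hF T hTF
    exact ⟨h1, h2, h3⟩

end L44

end Pool.Agent.Lib.MP_361a6f_ag.FL
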