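import Pool.Agent.Lib.MP_361a6f_ag.FL.O.Str
import Pool.Agent.Lib.MP_361a6f_ag.FL.O.StatO

/-!
# The weight of a positive family is at most the rank of the intersection form

No hard Lefschetz: the strings `ξ^r x`, `x ∈ U j`, `r ≤ n - 2 j`, are paired among themselves by
`Tr(x y)`, the place `r` with the place `n - 2 j - r`.
-/

open CategoryTheory AlgebraicGeometry MonoidalCategory CartesianMonoidalCategory

universe u v w

set_option autoImplicit false
set_option linter.unusedSectionVars false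

namespace Pool.Agent.Lib.MP_361a6f_ag.FL

open Pool.Agent.Lib.MP_361a6f_ag.H3 Pool.Agent.Lib.MP_361a6f_ag.SQ
  Pool.Agent.Lib.MP_361a6f_ag.IP2 Pool.Agent.Lib.MP_361a6f_ag.PP

namespace RKW

variable {k : Type u} [Field k] {W : CohomologyData.{u, 0, w} k ℂ} {𝒱 : VarietyClass k}

/-- a real space which maps to a complex space without complex relations -/
theorem finrank_le_of_real {V : Type w} [AddCommGroup V] [Module ℝ V] [Module.Finite ℝ V]
    {E : Type w} [AddCommGroup E] [Module ℂ E] [Module.Finite ℂ E] (T : V →ₗ[ℝ] E)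
    (h : ∀ f g : V, T f + Complex.I • T g = 0 → f = 0 ∧ g = 0) :
    Module.finrank ℝ V ≤ Module.finrank ℂ E := by
  classical
  let b := Module.finBasis ℝ V
  have hli : LinearIndependent ℂ fun i => T (b i) := by
    rw [Fintype.linearIndependent_iff]
    intro c hc
    have h1 : T (∑ i, (c i).re • b i) + Complex.I • T (∑ i, (c i).im • b i) = 0 := by
      rw [map_sum, map_sum, Finset.smul_sum, ← Finset.sum_add_distrib, ← hc]
      refine Finset.sum_congr rfl fun i _ => ?_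
      rw [map_smul, map_smul]
      have e1 : (c i).re • T (b i) = (((c i).re : ℝ) : ℂ) • T (b i) := (Complex.coe_smul _ _).symm
      have e2 : (c i).im • T (b i) = (((c i).im : ℝ) : ℂ) • T (b i) := (Complex.coe_smul _ _).symm
      rw [e1, e2, smul_smul, ← add_smul, mul_comm Complex.I, Complex.re_add_im]
    obtain ⟨h2, h3⟩ := h _ _ h1
    intro i
    have h4 := Fintype.linearIndependent_iff.1 b.linearIndependent _ h2 i
    have h5 := Fintype.linearIndependent_iff.1 b.linearIndependent _ h3 i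
    exact Complex.ext h4 h5
  have := hli.fintype_card_le_finrank
  rwa [Fintype.card_fin] at this

variable (hW : IsWeilCohomology W 𝒱) {Y : Sch k} {n : ℕ} (hY : 𝒱.mem Y n)
  {ξ : W.coh Y} (hξ : ξ ∈ W.alg Y 1)

include hW hY hξ

theorem pow_comm' (t : ℕ) (z : W.coh Y) : z * ξ ^ t = ξ ^ t * z := by
  induction t with
  | zero => rw [pow_zero, one_mul, mul_one]
  | succ t ih => rw [pow_succ, ← mul_assoc, ih, mul_assoc, mul_assoc, hW.alg_comm hY hξ z]

theorem pow_gr (t : ℕ) : ξ ^ t ∈ W.gr Y (2 * t) := by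
  induction t with
  | zero =>
    rw [pow_zero]
    exact hW.alg_gr hY (hW.one_alg hY)
  | succ t ih =>
    rw [pow_succ]
    have := hW.mul_gr hY ih (hW.alg_gr hY hξ)
    rwa [show 2 * t + 2 * 1 = 2 * (t + 1) by ring] at this

theorem str_zero {i j : ℕ} (hi : 2 * i ≤ n) (hj : 2 * j ≤ n) {x y : W.coh Y}
    (hx : x ∈ Submodule.span ℝ (W.alg Y i : Set (W.coh Y))) (hpx : ξ ^ (n - 2 * i + 1) * x = 0)
    (hy : y ∈ Submodule.span ℝ (W.alg Y j : Set (W.coh Y))) (hpy : ξ ^ (n - 2 * j + 1) * y = 0)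
    (r s : ℕ) (hne : ¬ (i = j ∧ r + s = n - 2 * j)) :
    W.tr Y (ξ ^ r * x * (ξ ^ s * y)) = 0 := by
  have hgx := OStr.span_gr hW hY hx
  have hgy := OStr.span_gr hW hY hy
  have h2 : ξ ^ r * x * (ξ ^ s * y) = ξ ^ (r + s) * (x * y) := by
    rw [mul_assoc, ← mul_assoc x, pow_comm' hW hY hξ, mul_assoc, ← mul_assoc, ← pow_add]
  rw [h2]
  by_cases hd : r + s + i + j = n
  swap
  · refine hW.tr_gr hY (hW.mul_gr hY (pow_gr hW hY hξ (r + s)) (hW.mul_gr hY hgx hgy)) ?_
    omega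
  have h3 : ξ ^ (r + s) * (x * y) = 0 := by
    rcases lt_trichotomy i j with h | h | h
    · rw [OStr.span_comm hW hY hx y, ← mul_assoc,
        show r + s = (r + s - (n - 2 * j + 1)) + (n - 2 * j + 1) by omega, pow_add,
        mul_assoc (ξ ^ (r + s - (n - 2 * j + 1))), hpy, mul_zero, zero_mul]
    · exact absurd ⟨h, by omega⟩ hne
    · rw [← mul_assoc,
        show r + s = (r + s - (n - 2 * i + 1)) + (n - 2 * i + 1) by omega, pow_add,
        mul_assoc (ξ ^ (r + s - (n - 2 * i + 1))), hpx, mul_zero, zero_mul]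
  rw [h3, map_zero]

theorem str_eq {j : ℕ} {x y : W.coh Y} (r s : ℕ) (hs : r + s = n - 2 * j) :
    W.tr Y (ξ ^ r * x * (ξ ^ s * y)) = W.tr Y (ξ ^ (n - 2 * j) * (x * y)) := by
  have h2 : ξ ^ r * x * (ξ ^ s * y) = ξ ^ (r + s) * (x * y) := by
    rw [mul_assoc, ← mul_assoc x, pow_comm' hW hY hξ, mul_assoc, ← mul_assoc, ← pow_add]
  rw [h2, hs]

/-- a real multiple of a string lies in the span of the algebraic classes -/
theorem str_algC {j : ℕ} {x : W.coh Y}
    (hx : x ∈ Submodule.span ℝ (W.alg Y j : Set (W.coh Y))) (r : ℕ) : ξ ^ r * x ∈ algC W Y := by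
  induction hx using Submodule.span_induction with
  | mem x hx =>
    refine Submodule.subset_span ?_
    have h2 : ∀ t : ℕ, ξ ^ t * x ∈ W.alg Y (j + t) := fun t => by
      induction t with
      | zero => rw [pow_zero, one_mul]; exact hx
      | succ t ih =>
        rw [pow_succ', mul_assoc]
        have := hW.mul_alg hY hξ ih
        rwa [show 1 + (j + t) = j + (t + 1) by omega] at this
    exact ⟨_, h2 r⟩
  | zero => rw [mul_zero]; exact zero_mem _
  | add a b _ _ ha hb => rw [mul_add]; exact add_mem ha hb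
  | smul c a _ ha =>
    rw [mul_smul_comm]
    exact Submodule.smul_mem _ (c : ℂ) ha

/-- **Row RKW.** -/
theorem rkw {U : ℕ → Submodule ℝ (W.coh Y)} (hU : PosFamily W Y n ξ U) :
    weight n U ≤ rankN W Y := by
  classical
  have hfin : Module.Finite ℂ (W.coh Y) := hW.graded.finite hY
  have hfinR : Module.Finite ℝ (W.coh Y) := Module.Finite.trans ℂ (W.coh Y)
  let B : Type := Σ j : Fin (n / 2 + 1), Fin (n - 2 * j + 1)
  have hB : ∀ b : B, 2 * (b.1 : ℕ) ≤ n := fun b => by have := b.1.2; omega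
  have hB2 : ∀ b : B, (b.2 : ℕ) ≤ n - 2 * (b.1 : ℕ) := fun b => by have := b.2.2; omega
  have hext : ∀ {b c : B}, (b.1 : ℕ) = c.1 → (b.2 : ℕ) = c.2 → b = c := by
    rintro ⟨j, r⟩ ⟨j', r'⟩ h1 h2
    have h5 : j = j' := Fin.ext h1
    subst h5
    have h6 : r = r' := Fin.ext h2
    rw [h6]
  let V : Type w := ∀ b : B, U b.1
  let Φ : V →ₗ[ℝ] W.coh Y :=
    ∑ b : B, (LinearMap.mulLeft ℝ (ξ ^ (b.2 : ℕ))) ∘ₗ (U b.1).subtype ∘ₗ LinearMap.proj b
  have hΦ : ∀ f : V, Φ f = ∑ b : B, ξ ^ (b.2 : ℕ) * (f b : W.coh Y) := fun f => by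
    simp only [Φ, LinearMap.sum_apply, LinearMap.comp_apply, LinearMap.mulLeft_apply,
      LinearMap.proj_apply, Submodule.subtype_apply]
    rfl
  -- the reversed strings
  let σ : V → W.coh Y := fun g =>
    ∑ b : B, (-1 : ℝ) ^ (b.1 : ℕ) • (ξ ^ (n - 2 * (b.1 : ℕ) - (b.2 : ℕ)) * (g b : W.coh Y))
  have hreal : ∀ (f : V) (b : B),
      (f b : W.coh Y) ∈ Submodule.span ℝ (W.alg Y (b.1 : ℕ) : Set (W.coh Y)) :=
    fun f b => hU.real _ (hB b) _ (f b).2
  have hprim : ∀ (f : V) (b : B), ξ ^ (n - 2 * (b.1 : ℕ) + 1) * (f b : W.coh Y) = 0 :=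
    fun f b => hU.prim _ (hB b) _ (f b).2
  let Q : V → V → ℂ := fun f g => ∑ b : B, (-1 : ℂ) ^ (b.1 : ℕ) *
    W.tr Y (ξ ^ (n - 2 * (b.1 : ℕ)) * ((f b : W.coh Y) * (g b : W.coh Y)))
  have hpair : ∀ f g : V, W.tr Y (Φ f * σ g) = Q f g := by
    intro f g
    have h1 : W.tr Y (Φ f * σ g) = ∑ b : B, ∑ b' : B, (-1 : ℂ) ^ (b'.1 : ℕ) *
        W.tr Y (ξ ^ (b.2 : ℕ) * (f b : W.coh Y) *
          (ξ ^ (n - 2 * (b'.1 : ℕ) - (b'.2 : ℕ)) * (g b' : W.coh Y))) := by
      rw [hΦ]
      change W.tr Y ((∑ b : B, ξ ^ (b.2 : ℕ) * (f b : W.coh Y)) * (∑ b : B, (-1 : ℝ) ^ (b.1 : ℕ) •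
        (ξ ^ (n - 2 * (b.1 : ℕ) - (b.2 : ℕ)) * (g b : W.coh Y)))) = _
      rw [Finset.sum_mul_sum, map_sum]
      refine Finset.sum_congr rfl fun b _ => ?_
      rw [map_sum]
      refine Finset.sum_congr rfl fun b' _ => ?_
      have h3 : (-1 : ℝ) ^ (b'.1 : ℕ) • (ξ ^ (n - 2 * (b'.1 : ℕ) - (b'.2 : ℕ)) *
          (g b' : W.coh Y)) = ((-1 : ℂ) ^ (b'.1 : ℕ)) •
          (ξ ^ (n - 2 * (b'.1 : ℕ) - (b'.2 : ℕ)) * (g b' : W.coh Y)) := by
        rw [← Complex.coe_smul]
        push_cast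
        rfl
      rw [h3, mul_smul_comm, map_smul, smul_eq_mul]
    rw [h1]
    refine Finset.sum_congr rfl fun b _ => ?_
    rw [Finset.sum_eq_single b]
    · rw [str_eq hW hY hξ (j := (b.1 : ℕ)) _ _ (by have := hB2 b; omega)]
    · intro b' _ hb'
      rw [str_zero hW hY hξ (hB b) (hB b') (hreal f b) (hprim f b) (hreal g b') (hprim g b'),
        mul_zero]
      rintro ⟨h3, h4⟩
      have h5 := hB2 b
      have h6 := hB2 b'
      exact hb' (hext h3.symm (by omega))
    · intro h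
      exact absurd (Finset.mem_univ b) h
  have hsymm : ∀ f g : V, Q f g = Q g f := by
    intro f g
    refine Finset.sum_congr rfl fun b _ => ?_
    rw [OStr.span_comm hW hY (hreal f b) (g b : W.coh Y)]
  have hpos : ∀ f : V, ∃ r : ℝ, 0 ≤ r ∧ (f ≠ 0 → 0 < r) ∧ Q f f = (r : ℂ) := by
    intro f
    have h2 : ∀ b : B, ∃ r : ℝ, 0 ≤ r ∧ (f b ≠ 0 → 0 < r) ∧
        (-1 : ℂ) ^ (b.1 : ℕ) * W.tr Y (ξ ^ (n - 2 * (b.1 : ℕ)) *
          ((f b : W.coh Y) * (f b : W.coh Y))) = (r : ℂ) := by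
      intro b
      by_cases h0 : f b = 0
      · refine ⟨0, le_rfl, fun h => absurd h0 h, ?_⟩
        rw [h0, ZeroMemClass.coe_zero, mul_zero, mul_zero, map_zero, mul_zero,
          Complex.ofReal_zero]
      · obtain ⟨t, ht, h3⟩ := hU.pos _ (hB b) (f b) (f b).2 (fun h => h0 (Subtype.ext h))
        exact ⟨t, ht.le, fun _ => ht, h3⟩
    choose r hr0 hrp hr using h2
    refine ⟨∑ b, r b, Finset.sum_nonneg fun b _ => hr0 b, ?_, ?_⟩
    · intro hf
      obtain ⟨b, hb⟩ : ∃ b, f b ≠ 0 := by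
        by_contra h
        push Not at h
        exact hf (funext h)
      exact Finset.sum_pos' (fun b _ => hr0 b) ⟨b, Finset.mem_univ b, hrp b hb⟩
    · change ∑ b : B, _ = _
      rw [Finset.sum_congr rfl fun b _ => hr b]
      push_cast
      rfl
  have hΦalg : ∀ f, Φ f ∈ algC W Y := by
    intro f
    rw [hΦ]
    exact Submodule.sum_mem _ fun b _ => str_algC hW hY hξ (hreal f b) _
  have hσalg : ∀ f, σ f ∈ algC W Y := by
    intro f
    refine Submodule.sum_mem _ fun b _ => ?_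
    have := Submodule.smul_mem (algC W Y) (((-1 : ℝ) ^ (b.1 : ℕ) : ℝ) : ℂ)
      (str_algC hW hY hξ (hreal f b) (n - 2 * (b.1 : ℕ) - (b.2 : ℕ)))
    exact this
  -- no complex relations modulo numerical equivalence
  have hkey : ∀ f g : V, Φ f + Complex.I • Φ g ∈ numC W Y → f = 0 ∧ g = 0 := by
    intro f g h
    have h1 : ∀ y ∈ algC W Y, W.tr Y ((Φ f + Complex.I • Φ g) * y) = 0 := by
      intro y hy
      unfold algC at hy
      induction hy using Submodule.span_induction with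
      | mem y hy =>
        obtain ⟨l, hl⟩ := hy
        exact h.2 l y hl
      | zero => rw [mul_zero, map_zero]
      | add a b _ _ ha hb => rw [mul_add, map_add, ha, hb, add_zero]
      | smul c a _ ha => rw [mul_smul_comm, map_smul, ha, smul_zero]
    have h2 := h1 (σ f) (hσalg f)
    have h3 := h1 (σ g) (hσalg g)
    rw [add_mul, map_add, smul_mul_assoc, map_smul, hpair, hpair, smul_eq_mul] at h2 h3
    obtain ⟨r, hr0, hrp, hr⟩ := hpos f
    obtain ⟨s, hs0, hsp, hs⟩ := hpos g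
    rw [hr, hsymm g f] at h2
    rw [hs] at h3
    have h4 : (r : ℂ) + s = 0 := by
      linear_combination h2 - Complex.I * h3 + (s : ℂ) * Complex.I_mul_I
    have h5 : r + s = 0 := by exact_mod_cast h4
    refine ⟨?_, ?_⟩
    · by_contra hf
      have := hrp hf
      linarith
    · by_contra hg
      have := hsp hg
      linarith
  -- the dimensions
  have hle : numC W Y ≤ algC W Y := fun z hz => hz.1
  let N : Submodule ℂ (algC W Y) := (numC W Y).comap (algC W Y).subtype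
  let T : V →ₗ[ℝ] (algC W Y ⧸ N) :=
    (N.mkQ.restrictScalars ℝ) ∘ₗ (Φ.codRestrict ((algC W Y).restrictScalars ℝ) hΦalg)
  have h1 := finrank_le_of_real T (by
    intro f g h
    refine hkey f g ?_
    have h2 : N.mkQ (⟨Φ f, hΦalg f⟩ + Complex.I • ⟨Φ g, hΦalg g⟩) = 0 := h
    rw [Submodule.mkQ_apply, Submodule.Quotient.mk_eq_zero] at h2
    exact h2)
  have h2 : Module.finrank ℝ V = weight n U := by
    rw [Module.finrank_pi_fintype, Fintype.sum_sigma, weight, Finset.sum_range]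
    refine Finset.sum_congr rfl fun j _ => ?_
    have h1 : ∀ y : Fin (n - 2 * (j : ℕ) + 1), Module.finrank ℝ (U ((⟨j, y⟩ : B).1 : ℕ))
        = Module.finrank ℝ (U (j : ℕ)) := fun y => rfl
    rw [Finset.sum_congr rfl fun y _ => h1 y, Finset.sum_const, Finset.card_univ,
      Fintype.card_fin, smul_eq_mul]
  have h3 := Submodule.finrank_quotient_add_finrank N
  have h4 : Module.finrank ℂ N = Module.finrank ℂ (numC W Y) :=
    (Submodule.comapSubtypeEquivOfLe hle).finrank_eq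
  rw [← h2]
  refine h1.trans ?_
  unfold rankN
  omega

end RKW

end Pool.Agent.Lib.MP_361a6f_ag.FL
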