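import Pool.Agent.Lib.MP_361a6f_ag.FL.O.T2

/-!
# The 51 per cent law for a larger family of classes, abstract form

If the spaces `T` contain the complex span of the system and are stable under contraction, and an
element of `T` of length `r` is not in the span, then the dimension of `T` in the large lengths
is almost twice the rank of `ψ`.
-/

open Filter Topology MeasureTheory Module

set_option autoImplicit false
set_option linter.unusedSectionVars false
set_option linter.unusedVariables false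
set_option maxHeartbeats 400000

namespace Pool.Agent.Lib.MP_361a6f_ag.FL

namespace T3A

open Qps OL ORng

/-- a space whose elements are limits of elements of spaces of dimension at most `N` -/
theorem finrank_lim {E : Type*} [NormedAddCommGroup E] [NormedSpace ℂ E] [FiniteDimensional ℂ E]
    (S : ℕ → Submodule ℂ E) (N : ℕ) (hS : ∀ i, finrank ℂ (S i) ≤ N) (Y : Submodule ℂ E)
    (hY : ∀ y ∈ Y, ∃ s : ℕ → E, (∀ i, s i ∈ S i) ∧ Tendsto s atTop (𝓝 y)) :
    finrank ℂ Y ≤ N := by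
  classical
  let b := finBasis ℂ Y
  have h1 : ∀ a : Fin (finrank ℂ Y), ∃ s : ℕ → E, (∀ i, s i ∈ S i) ∧
      Tendsto s atTop (𝓝 (b a : E)) := fun a => hY _ (b a).2
  choose s hs hlim using h1
  have hb : LinearIndependent ℂ fun a => (b a : E) :=
    b.linearIndependent.map' Y.subtype (Submodule.ker_subtype _)
  have h2 : Tendsto (fun i => fun a => s a i) atTop (𝓝 fun a => (b a : E)) :=
    tendsto_pi_nhds.2 hlim
  obtain ⟨i, hi⟩ := (h2.eventually hb.eventually).exists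
  have h3 : LinearIndependent ℂ (fun a => (⟨s a i, hs a i⟩ : S i)) :=
    LinearIndependent.of_comp (S i).subtype hi
  have h4 := h3.fintype_card_le_finrank
  rw [Fintype.card_fin] at h4
  exact h4.trans (hS i)

variable {I Λ β : Type} [Fintype I] [DecidableEq I] [DecidableEq Λ] [Fintype β] {lb : β → ℕ}
  {D : Dat I Λ} {At : (L : ℕ) → Ten I L → Prop}
  {b : Tup I lb} {H : HMb D b} {m : ℕ} {g : ℕ → Matrix I I ℂ} {k : Matrix I I ℂ}

theorem cont_add_left {p c : ℕ} (u v : Ten I p) (f : Ten I (p + c)) :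
    cont D (u + v) f = cont D u f + cont D v f := by
  funext w
  simp only [cont, Pi.add_apply]
  rw [← Finset.sum_add_distrib]
  exact Finset.sum_congr rfl fun w' _ => by ring

theorem hT_zero_iff (a1 : Alg1) {r : ℕ} {v : Ten I r} (h : hT v v = 0) : v = 0 := by
  rw [hT_E, inner_self_eq_norm_sq_to_K] at h
  have h4 : ((‖toE I r v‖ : ℝ) : ℂ) = 0 := pow_eq_zero_iff two_ne_zero |>.1 h
  have h5 : toE I r v = 0 := norm_eq_zero.1 (Complex.ofReal_eq_zero.1 h4)
  have := congrArg (toE I r).symm h5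
  rwa [LinearEquiv.symm_apply_apply, map_zero] at this

/-- **Unit vectors.** `w` is not in the subspace `A`: a subsequence of the unit vectors in the
direction of the component of `g w` orthogonal to `g A` converges. -/
theorem exists_unit (a1 : Alg1) (hg : ∀ j, IsG D (g j)) {r : ℕ} (A : Submodule ℂ (Ten I r))
    {w : Ten I r} (hw : w ∉ A) :
    ∃ (φ : ℕ → ℕ) (c : Ten I r) (y : ℕ → Ten I r) (α : ℕ → ℂ), StrictMono φ ∧ hT c c = 1 ∧
      (∀ i, ∃ a ∈ A, y i = α i • (w + a)) ∧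
      Tendsto (fun i => gT (g (φ i)) (y i)) atTop (𝓝 c) ∧
      ∀ i, ∀ a ∈ A, hT (gT (g (φ i)) a) (gT (g (φ i)) (y i)) = 0 := by
  let E := toE I r
  let Ec : Ten I r ≃L[ℂ] EuclideanSpace ℂ (Fin r → I) := E.toContinuousLinearEquiv
  -- the image of `A`
  let B : ℕ → Submodule ℂ (EuclideanSpace ℂ (Fin r → I)) := fun j =>
    A.map (E.toLinearMap ∘ₗ gL a1 r (g j))
  have hBmem : ∀ j, ∀ a ∈ A, E (gT (g j) a) ∈ B j := fun j a ha => ⟨a, ha, rfl⟩
  let wj : ℕ → EuclideanSpace ℂ (Fin r → I) := fun j => E (gT (g j) w)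
  let z : ℕ → EuclideanSpace ℂ (Fin r → I) := fun j => wj j - (B j).starProjection (wj j)
  have hz0 : ∀ j, z j ≠ 0 := by
    intro j h
    have h1 : wj j = (B j).starProjection (wj j) := sub_eq_zero.1 h
    have h2 : wj j ∈ B j := by
      rw [h1]
      exact Submodule.starProjection_apply_mem _ _
    obtain ⟨a, ha, hae⟩ := h2
    have h3 : gT (g j) a = gT (g j) w := E.injective hae
    have h4 : a = w := by
      have h5 := congrArg (gT (g j)⁻¹) h3
      rwa [← a1.gT_mul, ← a1.gT_mul, (a1.G_inv D _ (hg j)).2.2, a1.gT_one, a1.gT_one] at h5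
    exact hw (h4 ▸ ha)
  have hzorth : ∀ j, ∀ x ∈ B j, inner ℂ (z j) x = 0 := by
    intro j x hx
    have h1 : z j ∈ (B j)ᗮ := Submodule.sub_starProjection_mem_orthogonal _
    exact Submodule.inner_left_of_mem_orthogonal hx h1
  let x : ℕ → EuclideanSpace ℂ (Fin r → I) := fun j => ((‖z j‖ : ℂ))⁻¹ • z j
  have hx : ∀ j, x j ∈ Metric.sphere (0 : EuclideanSpace ℂ (Fin r → I)) 1 := by
    intro j
    rw [mem_sphere_zero_iff_norm, norm_smul, norm_inv, Complex.norm_real, norm_norm]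
    exact inv_mul_cancel₀ (norm_ne_zero_iff.2 (hz0 j))
  obtain ⟨c', hc', φ, hφ, hlim⟩ := (isCompact_sphere (0 : EuclideanSpace ℂ (Fin r → I))
    1).tendsto_subseq hx
  -- the elements `y`
  have hproj : ∀ j, ∃ a ∈ A, E (gT (g j) a) = (B j).starProjection (wj j) := by
    intro j
    obtain ⟨a, ha, hae⟩ := Submodule.starProjection_apply_mem (B j) (wj j)
    exact ⟨a, ha, hae⟩
  choose a ha hae using hproj
  let y : ℕ → Ten I r := fun i => ((‖z (φ i)‖ : ℂ))⁻¹ • (w + -(a (φ i)))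
  have hyx : ∀ i, E (gT (g (φ i)) (y i)) = x (φ i) := by
    intro i
    have h1 : gT (g (φ i)) (y i) = ((‖z (φ i)‖ : ℂ))⁻¹ •
        (gT (g (φ i)) w + gT (g (φ i)) (-(a (φ i)))) := by
      rw [← a1.gT_add, ← a1.gT_smul]
    have h2 : gT (g (φ i)) (-(a (φ i))) = -gT (g (φ i)) (a (φ i)) := by
      rw [← neg_one_smul ℂ, a1.gT_smul, neg_one_smul]
    rw [h1, h2, map_smul, map_add, map_neg, hae, ← sub_eq_add_neg]
  refine ⟨φ, E.symm c', y, fun i => ((‖z (φ i)‖ : ℂ))⁻¹, hφ, ?_, fun i =>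
    ⟨-(a (φ i)), A.neg_mem (ha _), rfl⟩, ?_, ?_⟩
  · rw [hT_E]
    have h1 : toE I r (E.symm c') = c' := LinearEquiv.apply_symm_apply _ _
    rw [h1, inner_self_eq_norm_sq_to_K, mem_sphere_zero_iff_norm.1 hc']
    norm_num
  · have h1 := (Ec.symm.continuous.tendsto c').comp hlim
    refine h1.congr fun i => ?_
    change Ec.symm (x (φ i)) = _
    rw [← hyx i]
    exact Ec.symm_apply_apply _
  · intro i a' ha'
    rw [hT_E]
    have h1 : toE I r (gT (g (φ i)) (y i)) = x (φ i) := hyx i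
    rw [h1]
    change inner ℂ (((‖z (φ i)‖ : ℂ))⁻¹ • z (φ i)) (toE I r (gT (g (φ i)) a')) = 0
    rw [inner_smul_left, hzorth _ _ (hBmem _ a' ha'), mul_zero]

theorem hT_lim {r : ℕ} {u v : ℕ → Ten I r} {u' v' : Ten I r} (hu : Tendsto u atTop (𝓝 u'))
    (hv : Tendsto v atTop (𝓝 v')) : Tendsto (fun i => hT (u i) (v i)) atTop (𝓝 (hT u' v')) := by
  unfold hT
  refine tendsto_finsetSum _ fun w _ => ?_
  exact ((tendsto_pi_nhds.1 hu) w).mul
    ((Complex.continuous_conj.tendsto _).comp ((tendsto_pi_nhds.1 hv) w))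

/-- the average of a tensor orthogonal to the fixed tensors vanishes -/
theorem pro_orth (a1 : Alg1) {r : ℕ} {c : Ten I r} (hc : ∀ v ∈ fixS H a1 r, hT v c = 0) :
    pro H a1 r c = 0 := by
  have hfix := pro_mem H a1 c
  have key : ∀ v ∈ fixS H a1 r, hT v (pro H a1 r c) = 0 := by
    intro v hv
    rw [hT_E]
    rw [pro_apply]
    have h1 : toE I r (∫ x, gT (H.mat x) c ∂H.μ) = ∫ x, toE I r (gT (H.mat x) c) ∂H.μ := by
      let e : Ten I r ≃L[ℂ] EuclideanSpace ℂ (Fin r → I) := (toE I r).toContinuousLinearEquiv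
      exact (ContinuousLinearMap.integral_comp_comm
        (e : Ten I r →L[ℂ] EuclideanSpace ℂ (Fin r → I))
        (AvbRow.integrable H (AvbRow.cont_gT_k a1 H c))).symm
    have hint : Integrable (fun x => toE I r (gT (H.mat x) c)) H.μ := by
      let e : Ten I r ≃L[ℂ] EuclideanSpace ℂ (Fin r → I) := (toE I r).toContinuousLinearEquiv
      exact AvbRow.integrable H (e.continuous.comp (AvbRow.cont_gT_k a1 H c))
    rw [h1, ← inner_conj_symm, ← integral_inner hint, ← integral_zero H.K ℂ, ← integral_conj]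
    refine integral_congr_ae (Eventually.of_forall fun x => ?_)
    change (starRingEnd ℂ) (inner ℂ (toE I r v) (toE I r (gT (H.mat x) c))) = 0
    rw [inner_conj_symm, ← hT_E]
    have h2 : gT (H.mat x) v = v := hv x
    have h3 : hT (gT (H.mat x) v) (gT (H.mat x) c) = hT v c := by
      rw [a1.hT_gT, ← a1.gT_mul, (H.mem x).1.2, a1.gT_one]
    rw [h2] at h3
    rw [h3, hc v hv]
  exact hT_zero_iff a1 (key _ hfix)

/-- **Abstract core**: the dimension of `T` in length `n`. -/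
theorem core (a1 : Alg1) (a2 : Alg2) (S : ASys D At) (L : LevData D At m H g k) {r n : ℕ}
    (hm : r + n ≤ m) (Tr : Submodule ℂ (Ten I r)) (Tn : Submodule ℂ (Ten I n))
    (hTn : CA At n ≤ Tn) (hT' : ∀ u ∈ Tr, ∀ f ∈ CA At (r + n), cont D u f ∈ Tn)
    {w : Ten I r} (hw : w ∈ Tr) (hwA : w ∉ CA At r) :
    ∃ c : Ten I r, hT c c = 1 ∧
      (finrank ℂ (fixS H a1 n) : ℝ) +
        ‖∫ x, hT c (gT (H.mat x) c) * (H.mat x).trace ^ n ∂H.μ‖ ≤ finrank ℂ Tn := by
  obtain ⟨φ, c, y, α, hφ, hc, hy, hyc, horth⟩ := exists_unit a1 L.G (CA At r) hwA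
  refine ⟨c, hc, ?_⟩
  have hφt := hφ.tendsto_atTop
  -- `c` is orthogonal to the fixed tensors
  have hcfix : ∀ v ∈ fixS H a1 r, hT v c = 0 := by
    intro v hv
    obtain ⟨u, hu, hulim⟩ := L.surj r (by omega) v hv
    have h1 : Tendsto (fun i => gT (g (φ i)) u) atTop (𝓝 v) := hulim.comp hφt
    have h2 := hT_lim h1 hyc
    have h3 : (fun i => hT (gT (g (φ i)) u) (gT (g (φ i)) (y i))) = fun _ => (0 : ℂ) := by
      funext i
      exact horth i u hu
    rw [h3] at h2
    exact (tendsto_nhds_unique h2 tendsto_const_nhds)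
  have hpro : pro H a1 r c = 0 := pro_orth a1 hcfix
  -- the two spaces
  set Y1 := fixS H a1 n with hY1
  set Y2 := (fixS H a1 (r + n)).map (Ind.contL D c n) with hY2
  have hdisj : Y1 ⊓ Y2 = ⊥ := by
    rw [Submodule.eq_bot_iff]
    rintro v ⟨hv1, f, hf, rfl⟩
    have h1 : pro H a1 n (Ind.contL D c n f) = Ind.contL D c n f := pro_fix H a1 hv1
    rw [← h1]
    rw [pro_apply]
    have h2 : ∀ x, gT (H.mat x) (Ind.contL D c n f) = cont D (gT (H.mat x) c) f := by
      intro x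
      rw [Ind.contL_apply, a2.cont_gT D _ _ _ (H.mem x).1.1]
      have h3 : gT (H.mat x) f = f := hf x
      rw [h3]
    simp only [h2]
    let Lf : Ten I r →ₗ[ℂ] Ten I n :=
      { toFun := fun u => cont D u f
        map_add' := fun u v => cont_add_left u v f
        map_smul' := fun a u => Ind.cont_smul_left D a u f }
    have h4 := ContinuousLinearMap.integral_comp_comm (LinearMap.toContinuousLinearMap Lf)
      (AvbRow.integrable H (AvbRow.cont_gT_k a1 H c))
    have h5 : ∀ x, (LinearMap.toContinuousLinearMap Lf) (gT (H.mat x) c)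
        = cont D (gT (H.mat x) c) f := fun _ => rfl
    simp only [h5] at h4
    rw [h4, ← pro_apply H a1, hpro, map_zero]
  have hle : finrank ℂ (Y1 ⊔ Y2 : Submodule ℂ (Ten I n)) ≤ finrank ℂ Tn := by
    refine finrank_lim (fun i => Tn.map (gL a1 n (g (φ i)))) _
      (fun i => Submodule.finrank_map_le _ _) _ ?_
    intro v hv
    obtain ⟨v1, hv1, v2, hv2, rfl⟩ := Submodule.mem_sup.1 hv
    obtain ⟨f, hf, rfl⟩ := hv2
    obtain ⟨u, hu, hulim⟩ := L.surj n (by omega) v1 hv1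
    obtain ⟨f', hf', hflim⟩ := L.surj (r + n) hm f hf
    refine ⟨fun i => gT (g (φ i)) (u + cont D (y i) f'), fun i => ⟨u + cont D (y i) f', ?_, rfl⟩,
      ?_⟩
    · refine add_mem (hTn hu) ?_
      obtain ⟨a, ha, hya⟩ := hy i
      rw [hya, Ind.cont_smul_left, cont_add_left]
      exact Submodule.smul_mem _ _ (add_mem (hT' _ hw _ hf')
        (hTn (T2A.cont_mem S r n a ha f' hf')))
    · have h1 := hulim.comp hφt
      have h2 := hflim.comp hφt
      have h3 := ((Ind.cont_cont D (p := r) (c := n)).tendsto (c, f)).comp (hyc.prodMk_nhds h2)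
      have h4 := h1.add h3
      refine h4.congr fun i => ?_
      change gT (g (φ i)) u + cont D (gT (g (φ i)) (y i)) (gT (g (φ i)) f') =
        gT (g (φ i)) (u + cont D (y i) f')
      rw [a1.gT_add, a2.cont_gT D _ _ _ (L.G _)]
  have hsum := Submodule.finrank_sup_add_finrank_inf_eq Y1 Y2
  rw [hdisj, finrank_bot, add_zero] at hsum
  have hr := rng a1 a2 H c hc Y2 fun f hf => ⟨f, hf, rfl⟩
  have h1 : (finrank ℂ Y1 : ℝ) + finrank ℂ Y2 ≤ finrank ℂ Tn := by
    rw [hsum] at hle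
    exact_mod_cast hle
  linarith

/-- the trace bound with the constant `1 - ε` -/
def TrqE : Prop :=
  ∀ (a1 : Alg1) (d l : ℕ) (ε : ℝ) (_ : 0 < ε), ∃ n₀ : ℕ,
    ∀ {I Λ β : Type} [Fintype I] [DecidableEq I] [DecidableEq Λ] [Fintype β] (D : Dat I Λ)
      (_ : Fintype.card I = d) {lb : β → ℕ} {b : Tup I lb} (H : HMb D b)
      (v : Ten I 1) (_ : v ≠ 0) (_ : v ∈ fixS H a1 1) (c : Ten I l) (_ : hT c c = 1) (n : ℕ)
      (_ : n₀ ≤ n), (1 - ε) * (Module.finrank ℂ (fixS H a1 n) : ℝ) ≤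
        ‖∫ x, hT c (gT (H.mat x) c) * (H.mat x).trace ^ n ∂H.μ‖

/-- **T3, abstract form.** `T` is a larger family of spaces, used in the lengths `r` and `n` only.
If the rank of `ψ` is at least `1 / 2 + δ` of the dimension of `T` in ONE large length `n`, then
`T` is the complex span of the members in length `r` and `ψ` is nondegenerate there. -/
def T3U : Prop :=
  ∀ (d r : ℕ) (δ : ℝ) (_ : 0 < δ), ∃ n₀ : ℕ,
    ∀ {I Λ : Type} [Fintype I] [DecidableEq I] [DecidableEq Λ] {D : Dat I Λ}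
      {At : (L : ℕ) → Ten I L → Prop} (_ : Fintype.card I = d) (_ : ASys D At)
      (_ : ∃ u ∈ RA At 1, ∃ w ∈ RA At 1, psiT D u w ≠ 0)
      (n : ℕ) (_ : n₀ ≤ n) (Tr : Submodule ℂ (Ten I r)) (Tn : Submodule ℂ (Ten I n))
      (_ : CA At n ≤ Tn) (_ : ∀ u ∈ Tr, ∀ f ∈ CA At (r + n), cont D u f ∈ Tn)
      (_ : (1 / 2 + δ) * (Module.finrank ℂ Tn : ℝ) ≤ rkA D At n),
      Tr ≤ CA At r ∧ numA D At r = ⊥

theorem trqU_of (trq : TrqE) : TrqU := by
  intro a1 d l
  obtain ⟨n₀, hn₀⟩ := trq a1 d l (1 / 2) (by norm_num)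
  refine ⟨n₀, ?_⟩
  intro I Λ β _ _ _ _ D hd lb b H v hv hvf c hc n hn
  have := hn₀ D hd H v hv hvf c hc n hn
  linarith

theorem t3u (a1 : Alg1) (a2 : Alg2) (ab : AlgB) (cpt : CptbStatement) (mn : MinbStatement)
    (l1 : L1bStatement) (l2 : L2bStatement) (trq : TrqE) : T3U := by
  intro d r δ hδ
  obtain ⟨n₁, hn₁⟩ := T2A.t2v a1 a2 ab cpt mn l1 l2 (trqU_of trq) d r 2
  obtain ⟨n₂, hn₂⟩ := trq a1 d r (min δ 1) (lt_min hδ one_pos)
  refine ⟨max n₁ n₂, ?_⟩
  intro I Λ _ _ _ D At hd S hu n hn Tr Tn hTn hT' hrk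
  obtain ⟨β, _, lb, b, H, g, k, L⟩ := LevO.lev a1 a2 ab cpt mn l1 l2 S (r + n + 1)
  -- a fixed vector
  obtain ⟨u, hu1, w, hw1, hu2⟩ := hu
  obtain ⟨v, hv, hvfix⟩ := L.lim 1 (by omega) u (Submodule.span_subset_span ℝ ℂ _ hu1)
  obtain ⟨v', hv', -⟩ := L.lim 1 (by omega) w (Submodule.span_subset_span ℝ ℂ _ hw1)
  have hv0 : v ≠ 0 := by
    rintro rfl
    have h1 := L.psi 1 u w 0 v' hv hv'
    rw [← psiL_apply, map_zero, LinearMap.zero_apply] at h1
    exact hu2 h1.symm
  -- the fixed tensors of length `n` are not zero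
  have hpos : 1 ≤ finrank ℂ (fixS H a1 n) := by
    by_contra h0
    have h1 : finrank ℂ (fixS H a1 n) = 0 := by omega
    have h2 : fixS H a1 n = ⊥ := Submodule.finrank_eq_zero.1 h1
    have h3 : ∀ (j : ℕ) (x : H.K), gT (H.mat x) (Ind.pw v j) = Ind.pw v j := by
      intro j x
      rw [Ind.gT_pw a2, hvfix x]
    have hne : ∀ j, Ind.pw v j ≠ 0 := by
      intro j h
      have h4 := Ind.hT_pw v v j
      rw [h] at h4
      have h5 : hT v v = 0 := by
        have h6 : hT (0 : Ten I (1 * j)) 0 = 0 := by simp [hT]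
        rw [h6] at h4
        rcases Nat.eq_zero_or_pos j with rfl | hj
        · rw [pow_zero] at h4
          exact absurd h4 (by norm_num)
        · exact (pow_eq_zero_iff hj.ne').1 h4.symm
      exact hv0 (hT_zero_iff a1 h5)
    have h4 : ∀ N : ℕ, N = n → fixS H a1 N ≠ ⊥ := by
      intro N hN h
      have h5 := hne N
      have h6 : ∀ M : ℕ, M = N → ∀ t : Ten I M, (∀ x, gT (H.mat x) t = t) → t = 0 := by
        rintro M rfl t ht
        have h7 : t ∈ fixS H a1 M := ht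
        rw [h] at h7
        exact (Submodule.mem_bot ℂ).1 h7
      exact h5 (h6 (1 * N) (one_mul N) _ (h3 N))
    exact h4 n rfl h2
  have hrkle := T2A.rk_le a1 S L (n := n) (by omega)
  have hrkle' : (rkA D At n : ℝ) ≤ finrank ℂ (fixS H a1 n) := by exact_mod_cast hrkle
  have hposR : (1 : ℝ) ≤ finrank ℂ (fixS H a1 n) := by exact_mod_cast hpos
  -- the dimension of `T n` is at least that of the fixed tensors
  have hTfix : (finrank ℂ (fixS H a1 n) : ℝ) ≤ finrank ℂ Tn := by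
    have h1 : finrank ℂ (fixS H a1 n) ≤ finrank ℂ Tn := by
      refine finrank_lim (fun i => Tn.map (gL a1 n (g i))) _
        (fun i => Submodule.finrank_map_le _ _) _ ?_
      intro v hv
      obtain ⟨u, hu, hulim⟩ := L.surj n (by omega) v hv
      exact ⟨fun i => gT (g i) u, fun i => ⟨u, hTn hu, rfl⟩, hulim⟩
    exact_mod_cast h1
  constructor
  · intro w hw
    by_contra hwA
    obtain ⟨c, hc, hcore⟩ := core a1 a2 S L (by omega) Tr Tn hTn hT' hw hwA
    have htr := hn₂ D hd H v hv0 hvfix c hc n (le_trans (le_max_right _ _) hn)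
    have hmin1 : min δ 1 ≤ δ := min_le_left _ _
    have hmin2 : min δ 1 ≤ 1 := min_le_right _ _
    have hmin0 : 0 < min δ 1 := lt_min hδ one_pos
    generalize (finrank ℂ (fixS H a1 n) : ℝ) = F at *
    generalize (finrank ℂ Tn : ℝ) = N at *
    have h1 : (2 - min δ 1) * F ≤ N := by nlinarith
    have h2 : (1 / 2 + δ) * N ≤ F := hrk.trans hrkle'
    have h3 : (1 / 2 + δ) * ((2 - min δ 1) * F) ≤ F :=
      (mul_le_mul_of_nonneg_left h1 (by linarith)).trans h2
    have h4 : (1 / 2 + δ) * (2 - min δ 1) ≤ 1 := by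
      by_contra h
      push Not at h
      nlinarith
    nlinarith
  · by_contra hne
    obtain ⟨z, hz, hz0⟩ := (Submodule.ne_bot_iff _).1 hne
    have h1 := hn₁ hd S ⟨u, hu1, w, hw1, hu2⟩ ⟨z, hz, hz0⟩ n (le_trans (le_max_left _ _) hn)
    have h2 : finrank ℂ (CA At n) ≤ finrank ℂ Tn := Submodule.finrank_mono hTn
    have h3 : (2 : ℝ) * rkA D At n ≤ finrank ℂ Tn := by exact_mod_cast h1.trans h2
    have h5 : (1 : ℝ) ≤ finrank ℂ Tn := hposR.trans hTfix
    nlinarith

/-- **T3, second form**: one element `f` that is not in the complex span. -/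
theorem t3f (a1 : Alg1) (a2 : Alg2) (ab : AlgB) (cpt : CptbStatement) (mn : MinbStatement)
    (l1 : L1bStatement) (l2 : L2bStatement) (trq : TrqE) :
    ∀ (d r : ℕ) (ε : ℝ) (_ : 0 < ε), ∃ n₀ : ℕ,
      ∀ {I Λ : Type} [Fintype I] [DecidableEq I] [DecidableEq Λ] {D : Dat I Λ}
        {At : (L : ℕ) → Ten I L → Prop} (_ : Fintype.card I = d) (_ : ASys D At)
        (_ : ∃ u ∈ RA At 1, ∃ w ∈ RA At 1, psiT D u w ≠ 0)
        (_ : ∀ z ∈ numA D At r, z = 0) (f : Ten I r) (_ : f ∉ CA At r)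
        (n : ℕ) (_ : n₀ ≤ n) (M : Submodule ℂ (Ten I n)) (_ : CA At n ≤ M)
        (_ : ∀ y ∈ CA At (r + n), cont D f y ∈ M),
        (2 - ε) * rkA D At n ≤ Module.finrank ℂ M := by
  intro d r ε hε
  obtain ⟨n₂, hn₂⟩ := trq a1 d r (min ε 1) (lt_min hε one_pos)
  refine ⟨n₂, ?_⟩
  intro I Λ _ _ _ D At hd S hu _ f hf n hn M hM hT'
  obtain ⟨β, _, lb, b, H, g, k, L⟩ := LevO.lev a1 a2 ab cpt mn l1 l2 S (r + n + 1)
  obtain ⟨u, hu1, w, hw1, hu2⟩ := hu
  obtain ⟨v, hv, hvfix⟩ := L.lim 1 (by omega) u (Submodule.span_subset_span ℝ ℂ _ hu1)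
  obtain ⟨v', hv', -⟩ := L.lim 1 (by omega) w (Submodule.span_subset_span ℝ ℂ _ hw1)
  have hv0 : v ≠ 0 := by
    rintro rfl
    have h1 := L.psi 1 u w 0 v' hv hv'
    rw [← psiL_apply, map_zero, LinearMap.zero_apply] at h1
    exact hu2 h1.symm
  have hrkle := T2A.rk_le a1 S L (n := n) (by omega)
  have hrkle' : (rkA D At n : ℝ) ≤ finrank ℂ (fixS H a1 n) := by exact_mod_cast hrkle
  have hF0 : (0 : ℝ) ≤ finrank ℂ (fixS H a1 n) := Nat.cast_nonneg _
  have hr0 : (0 : ℝ) ≤ rkA D At n := Nat.cast_nonneg _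
  obtain ⟨c, hc, hcore⟩ := core a1 a2 S L (by omega) (Submodule.span ℂ {f}) M hM
    (fun u hu y hy => by
      obtain ⟨a, rfl⟩ := Submodule.mem_span_singleton.1 hu
      rw [Ind.cont_smul_left]
      exact Submodule.smul_mem _ _ (hT' y hy))
    (Submodule.mem_span_singleton_self f) hf
  have htr := hn₂ D hd H v hv0 hvfix c hc n hn
  have hmin1 : min ε 1 ≤ ε := min_le_left _ _
  have hmin2 : min ε 1 ≤ 1 := min_le_right _ _
  have h1 : (2 - min ε 1) * (finrank ℂ (fixS H a1 n) : ℝ) ≤ finrank ℂ M := by linarith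
  have h2 : (2 - ε) * (rkA D At n : ℝ) ≤ (2 - min ε 1) * rkA D At n :=
    mul_le_mul_of_nonneg_right (by linarith) hr0
  have h3 : (2 - min ε 1) * (rkA D At n : ℝ) ≤ (2 - min ε 1) * finrank ℂ (fixS H a1 n) :=
    mul_le_mul_of_nonneg_left hrkle' (by linarith)
  exact h2.trans (h3.trans h1)

end T3A

end Pool.Agent.Lib.MP_361a6f_ag.FL
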