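import Pool.Agent.Lib.MP_361a6f_ag.FL.B.MainL
import Pool.Agent.Lib.MP_361a6f_ag.FL.O.T3a
import Pool.Agent.Lib.MP_361a6f_ag.FL.O.T2M
import Pool.Agent.Lib.MP_361a6f_ag.FL.O.H84.MomH

/-!
# The 51 per cent law for a larger family of classes, abstract form: all rows put together
-/

open Filter Topology MeasureTheory Module

namespace Pool.Agent.Lib.MP_361a6f_ag.FL

namespace T3A

open OL

theorem trqE : TrqE := fun a1 d l _ hε => O84.trqE a1 d l hε

/-- **T3**, for a pair of spaces. -/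
theorem mainU : T3U :=
  t3u alg1 alg2 (algB alg1 alg2) cptbH (minb alg1) T2A.hl1 T2A.hl2 trqE

/-- **T3**, for one element `f` that is not in the complex span. -/
theorem mainF : ∀ (d r : ℕ) (ε : ℝ) (_ : 0 < ε), ∃ n₀ : ℕ,
    ∀ {I Λ : Type} [Fintype I] [DecidableEq I] [DecidableEq Λ] {D : Dat I Λ}
      {At : (L : ℕ) → Ten I L → Prop} (_ : Fintype.card I = d) (_ : ASys D At)
      (_ : ∃ u ∈ RA At 1, ∃ w ∈ RA At 1, psiT D u w ≠ 0)
      (_ : ∀ z ∈ numA D At r, z = 0) (f : Ten I r) (_ : f ∉ CA At r)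
      (n : ℕ) (_ : n₀ ≤ n) (M : Submodule ℂ (Ten I n)) (_ : CA At n ≤ M)
      (_ : ∀ y ∈ CA At (r + n), cont D f y ∈ M),
      (2 - ε) * rkA D At n ≤ Module.finrank ℂ M :=
  t3f alg1 alg2 (algB alg1 alg2) cptbH (minb alg1) T2A.hl1 T2A.hl2 trqE

end T3A

end Pool.Agent.Lib.MP_361a6f_ag.FL
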