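import Pool.Agent.Lib.MP_361a6f_ag.FL.O.TrT
import Pool.Agent.Lib.MP_361a6f_ag.FL.O.Rkw
import Pool.Agent.Lib.MP_361a6f_ag.FL.O.Main
import Pool.Agent.Lib.MP_361a6f_ag.FL.O.LamQ
import Pool.Agent.Lib.MP_361a6f_ag.FL.O.T3M
import Pool.Agent.Lib.MP_361a6f_ag.FL.GBC

/-!
# The 51 per cent law for Tate and Hodge classes: assembly
-/

open CategoryTheory AlgebraicGeometry MonoidalCategory CartesianMonoidalCategory

universe u v w

set_option autoImplicit false
set_option linter.unusedSectionVars false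

namespace Pool.Agent.Lib.MP_361a6f_ag.FL

open Pool.Agent.Lib.MP_361a6f_ag.H3 Pool.Agent.Lib.MP_361a6f_ag.SQ
  Pool.Agent.Lib.MP_361a6f_ag.PP

namespace T40

open OL PRK PMain PGC

section num

variable {L : ℕ → ℕ → ℕ → Prop} {d r : ℕ} {k : Type u} [Field k]
  {W : CohomologyData.{u, 0, w} k ℂ} {𝒱 : VarietyClass k}

/-- the host form of a law, for the complex span -/
theorem num_host (hL : AbsLaw L d r) (H : PHost W 𝒱 1)
    (hd : Module.finrank ℂ (W.coh (H.X 0)) = d)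
    {p : W.coh (H.X 0)} (hp : p ∈ tot W (H.X 0)) (hp0 : W.tr (H.X 0) p ≠ 0)
    (R : Prd 1) (hR : R.size = r) (hne : numC W (R.obj H.X) ≠ ⊥) (P : Prd 1) :
    L P.size (rankN W (P.obj H.X)) (Module.finrank ℂ (algC W (P.obj H.X))) := by
  have ge := pge H
  have gr := pgr pge H
  have hsl := psl pge H
  have h1 : ∃ z ∈ numA H.D (AtP H) R.size, z ≠ 0 := by
    by_contra hcon
    push Not at hcon
    exact hne (numC_bot H hsl gr ge R ((Submodule.eq_bot_iff _).2 hcon))
  rw [hR] at h1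
  have h2 := hL ((card_I H ge).trans hd) (pasys H) (exists_one H hsl ge hp hp0) h1 P.size
  rwa [rkA_eq H hsl gr ge, finrank_CA H gr ge] at h2

theorem num_transfer (hL : AbsLaw L d r) (hW : IsWeilCohomology W 𝒱) {X : Sch k} {e : ℕ}
    (hX : 𝒱.mem X e) (hE : EvenProjector W X e) (h1 : (1 : W.coh X) ≠ 0)
    (hd : Module.finrank ℂ (W.coh X) = d)
    (R : Prd 1) (hR : R.size = r) (hne : numC W (R.obj fun _ => X) ≠ ⊥) (P : Prd 1) :
    L P.size (rankN W (P.obj fun _ => X)) (Module.finrank ℂ (algC W (P.obj fun _ => X))) := by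
  obtain ⟨p, hp, t, ht, hpt⟩ := SPT.spt hW hX hE h1
  have hp0 : W.tr X p ≠ 0 := by
    have h1 : W.tr X p = (t : ℂ) := hpt
    rw [h1]
    exact_mod_cast ht.ne'
  have hp' : p ∈ tot W X := alg_le_tot hW X e hp
  obtain ⟨H, hHX, hHn⟩ := pgb hW (X := fun _ : Fin 1 => X) (n := fun _ => e) (fun _ => hX)
    (fun _ => algPar hW hX hE)
  have key : ∀ (Y : Fin 1 → Sch k) (_ : H.X = Y) (_ : Module.finrank ℂ (W.coh (Y 0)) = d)
      {p : W.coh (Y 0)} (_ : p ∈ tot W (Y 0)) (_ : W.tr (Y 0) p ≠ 0)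
      (_ : numC W (R.obj Y) ≠ ⊥),
      L P.size (rankN W (P.obj Y)) (Module.finrank ℂ (algC W (P.obj Y))) := by
    intro Y hY hd p hp hp0 hne
    subst hY
    exact num_host hL H hd hp hp0 R hR hne P
  exact key (fun _ => X) hHX hd hp' hp0 hne

end num

/-- the inverse square root law for the complex span -/
theorem root_num (d r : ℕ) : ∃ C : ℝ, ∀ {k : Type u} [Field k]
    {W : CohomologyData.{u, 0, w} k ℂ} {𝒱 : VarietyClass k} (_ : IsWeilCohomology W 𝒱)
    {X : Sch k} {e : ℕ} (_ : 𝒱.mem X e) (_ : EvenProjector W X e) (_ : (1 : W.coh X) ≠ 0)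
    (_ : Module.finrank ℂ (W.coh X) = d) (R : Prd 1) (_ : R.size = r)
    (_ : numC W (R.obj fun _ => X) ≠ ⊥) (P : Prd 1),
    √P.size * rankN W (P.obj fun _ => X) ≤ C * Module.finrank ℂ (algC W (P.obj fun _ => X)) := by
  obtain ⟨C, _, hC⟩ := O54.t2r alg1 alg2 (algB alg1 alg2) cptbH (minb alg1) T2A.hl1 T2A.hl2 d r
  refine ⟨C, ?_⟩
  intro k _ W 𝒱 hW X e hX hE h1 hd R hR hne P
  exact num_transfer (L := fun n a b => √n * a ≤ C * b) (fun h1 h2 h3 h4 n => hC h1 h2 h3 h4 n)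
    hW hX hE h1 hd R hR hne P

section small

variable {k : Type u} [Field k] {W : CohomologyData.{u, 0, w} k ℂ} {𝒱 : VarietyClass k}

/-- the diagonal morphism to a power -/
noncomputable def fromX (X : Sch k) : (P : Prd 1) → (X ⟶ P.obj (fun _ => X))
  | .leaf _ => 𝟙 X
  | .prod P Q => lift (fromX X P) (fromX X Q)

theorem one_ne_pow {X : Sch k} (h : (1 : W.coh X) ≠ 0) (P : Prd 1) :
    (1 : W.coh (P.obj fun _ => X)) ≠ 0 := by
  intro h0
  refine h ?_
  rw [← map_one (W.pull (fromX X P)), h0, map_zero]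

theorem one_ne_of_pos (hW : IsWeilCohomology W 𝒱) {X : Sch k} {e : ℕ} (hX : 𝒱.mem X e)
    {ξ : W.coh X} (hξ : PositiveDivisor W X e ξ) : (1 : W.coh X) ≠ 0 := by
  intro h0
  obtain ⟨_, q, hq, h⟩ := hξ
  have h1 : W.tr X (ξ ^ e) = (q : ℂ) := h
  rw [← mul_one (ξ ^ e), h0, mul_zero, map_zero] at h1
  have h2 : (q : ℂ) = 0 := h1.symm
  have h3 : q = 0 := by exact_mod_cast h2
  exact hq.ne' h3

theorem algC_pos (hW : IsWeilCohomology W 𝒱) {Y : Sch k} {n : ℕ} (hY : 𝒱.mem Y n)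
    (h : (1 : W.coh Y) ≠ 0) : 0 < Module.finrank ℂ (algC W Y) := by
  have := hW.finite hY
  have h1 : (1 : W.coh Y) ∈ algC W Y := Submodule.subset_span ⟨0, hW.one_alg hY⟩
  have : Nontrivial (algC W Y) := ⟨⟨⟨1, h1⟩, 0, fun h2 => h (congrArg Subtype.val h2)⟩⟩
  exact Module.finrank_pos

theorem rankN_le (Y : Sch k) : rankN W Y ≤ Module.finrank ℂ (algC W Y) := Nat.sub_le _ _

end small

/-- **The 51 per cent law for Tate and Hodge classes.** -/
theorem mainT_of (hT3 : T3U) : FiftyOneTStatement.{u, w} := by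
  intro d r δ hδ
  set r' := max r 2 with hr'
  obtain ⟨n₁, h51⟩ := mainT1.{u, w} d r' δ hδ
  -- the constants
  have hC : ∀ i : ℕ, ∃ C : ℝ, ∀ {k : Type u} [Field k]
    {W : CohomologyData.{u, 0, w} k ℂ} {𝒱 : VarietyClass k} (_ : IsWeilCohomology W 𝒱)
    {X : Sch k} {e : ℕ} (_ : 𝒱.mem X e) (_ : EvenProjector W X e) (_ : (1 : W.coh X) ≠ 0)
    (_ : Module.finrank ℂ (W.coh X) = d) (R : Prd 1) (_ : R.size = i)
    (_ : numC W (R.obj fun _ => X) ≠ ⊥) (P : Prd 1),
    √P.size * rankN W (P.obj fun _ => X) ≤ C * Module.finrank ℂ (algC W (P.obj fun _ => X)) :=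
    fun i => root_num d i
  choose C hC using hC
  have hε : 0 < δ / (1 / 2 + δ) := by positivity
  have hN := fun i : ℕ => t3.{u, w} hT3 d i hε
  choose N hN using hN
  -- the bound
  obtain ⟨B, hB⟩ : ∃ B : ℕ, ∀ i ≤ r', 2 * C i < √B := by
    obtain ⟨B, hB⟩ := exists_nat_gt ((∑ i ∈ Finset.range (r' + 1), |2 * C i| + 1) ^ 2)
    refine ⟨B, fun i hi => ?_⟩
    have h1 : |2 * C i| ≤ ∑ i ∈ Finset.range (r' + 1), |2 * C i| :=
      Finset.single_le_sum (f := fun i => |2 * C i|) (fun i _ => abs_nonneg _)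
        (Finset.mem_range.2 (by omega))
    have h2 : 2 * C i < ∑ i ∈ Finset.range (r' + 1), |2 * C i| + 1 := by
      have := le_abs_self (2 * C i)
      linarith
    refine h2.trans (Real.lt_sqrt_of_sq_lt hB)
  refine ⟨n₁ + B + ∑ i ∈ Finset.range (r' + 1), N i, ?_⟩
  intro k _ W 𝒱 hW X e hX ξ hξ hL hE hd T hT hlam P hP U hU hbig
  have hPn : n₁ ≤ P.size := by omega
  have hPB : B ≤ P.size := by omega
  have hPN : ∀ i ≤ r', N i ≤ P.size := by
    intro i hi
    have h1 : N i ≤ ∑ i ∈ Finset.range (r' + 1), N i :=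
      Finset.single_le_sum (f := N) (fun i _ => Nat.zero_le _) (Finset.mem_range.2 (by omega))
    omega
  have h1X : (1 : W.coh X) ≠ 0 := one_ne_of_pos hW hX hξ
  have hmP : 𝒱.mem (P.obj fun _ => X) (P.dim fun _ => e) := FL.memP (fun _ => hX) P
  have hfin := hW.finite hmP
  -- the numbers
  have hw : weight (P.dim fun _ => e) U ≤ rankN W (P.obj fun _ => X) :=
    RKW.rkw hW hmP (GBC.pol_alg hW (fun _ => hX) (fun _ => hξ.1) P) hU
  have ha : 0 < Module.finrank ℂ (algC W (P.obj fun _ => X)) :=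
    algC_pos hW hmP (one_ne_pow h1X P)
  have haT : Module.finrank ℂ (algC W (P.obj fun _ => X)) ≤ Module.finrank ℂ (T P) :=
    Submodule.finrank_mono (hT.alg P)
  have hra : rankN W (P.obj fun _ => X) ≤ Module.finrank ℂ (algC W (P.obj fun _ => X)) :=
    rankN_le _
  have ha' : (0 : ℝ) < Module.finrank ℂ (algC W (P.obj fun _ => X)) := by exact_mod_cast ha
  have haT' : (Module.finrank ℂ (algC W (P.obj fun _ => X)) : ℝ) ≤ Module.finrank ℂ (T P) := by
    exact_mod_cast haT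
  have hw' : (weight (P.dim fun _ => e) U : ℝ) ≤ rankN W (P.obj fun _ => X) := by
    exact_mod_cast hw
  -- no numerically trivial classes
  have hnum : ∀ R : Prd 1, R.size ≤ r' → numC W (R.obj fun _ => X) = ⊥ := by
    intro R hR
    by_contra hne
    have h1 := hC R.size hW hX hE h1X hd R rfl hne P
    have h2 : 2 * C R.size < √P.size :=
      (hB R.size hR).trans_le (Real.sqrt_le_sqrt (by exact_mod_cast hPB))
    have h3 : (1 / 2 : ℝ) * Module.finrank ℂ (algC W (P.obj fun _ => X)) ≤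
        rankN W (P.obj fun _ => X) := by nlinarith
    have h4 : √P.size * ((1 / 2 : ℝ) * Module.finrank ℂ (algC W (P.obj fun _ => X))) ≤
        √P.size * rankN W (P.obj fun _ => X) :=
      mul_le_mul_of_nonneg_left h3 (Real.sqrt_nonneg _)
    nlinarith
  -- the classes in `T` are algebraic
  have hTA : ∀ R : Prd 1, R.size ≤ r' → T R = algC W (R.obj fun _ => X) := by
    intro R hR
    refine le_antisymm (fun t ht => ?_) (hT.alg R)
    by_contra hta
    have h1 := hN R.size hW hX hE hd hT R rfl (hnum R hR) ht hta P (hPN _ hR)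
    have h2 : (0 : ℝ) < 1 / 2 + δ := by positivity
    have h3 := mul_le_mul_of_nonneg_left h1 h2.le
    have h4 : (1 / 2 + δ) * ((2 - δ / (1 / 2 + δ)) * rankN W (P.obj fun _ => X))
        = (1 + δ) * rankN W (P.obj fun _ => X) := by
      field_simp
      ring
    rw [h4] at h3
    have h5 : (0 : ℝ) < rankN W (P.obj fun _ => X) := by nlinarith
    nlinarith
  have h2 : 2 ≤ r' := le_max_right _ _
  have hX2 : (Prd.prod (.leaf 0) (.leaf 0) : Prd 1).size ≤ r' := h2
  -- the operator `Λ`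
  have hΛ : AlgebraicLambda W X e ξ := by
    obtain ⟨l, hl, hop⟩ := hlam
    rw [hTA _ hX2] at hl
    refine LamQ.lamQ hW hX hξ hL ?_ hl hop
    intro j z hz h0
    have h1 : z ∈ numC W ((Prd.prod (.leaf 0) (.leaf 0) : Prd 1).obj fun _ => X) :=
      ⟨Submodule.subset_span ⟨j, hz⟩, h0⟩
    rw [hnum _ hX2] at h1
    exact (Submodule.mem_bot ℂ).1 h1
  have hbig' : (1 / 2 + δ) * Module.finrank ℂ (algC W (P.obj fun _ => X)) ≤
      (weight (P.dim fun _ => e) U : ℝ) := by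
    refine le_trans ?_ hbig
    exact mul_le_mul_of_nonneg_left haT' (by positivity)
  refine ⟨hΛ, fun R hR => ⟨hTA R (hR.trans (le_max_left _ _)), fun η hη => ?_⟩⟩
  exact h51 W 𝒱 hW hX hξ hL hΛ hd P hPn U hU hbig' R (hR.trans (le_max_left _ _)) η hη

/-- **The 51 per cent law for Tate and Hodge classes.** -/
theorem mainT : FiftyOneTStatement.{u, w} := mainT_of T3A.mainF

end T40

end Pool.Agent.Lib.MP_361a6f_ag.FL
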