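import Pool.Agent.Lib.MP_361a6f_ag.FL.O.Uni
import Pool.Agent.Lib.MP_361a6f_ag.FL.O.Tra

/-!
# The signatures are a moment sequence

`f n = ∫ tr(k x)^n dx` is the sequence of the moments of a probability measure on the real line.
In particular `f (2 n) ≥ (f n)^2 ≥ 0`.
-/

open Filter Topology MeasureTheory

set_option autoImplicit false
set_option linter.unusedSectionVars false

namespace Pool.Agent.Lib.MP_361a6f_ag.FL

namespace OL

variable {I Λ β : Type} [Fintype I] [DecidableEq I] [DecidableEq Λ] [Fintype β]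
  {lb : β → ℕ} {D : Dat I Λ} {b : Tup I lb}

theorem isK_prod (a1 : Alg1) {k x : Matrix I I ℂ} (hk : IsK D k) (hx : IsK D x) :
    IsK D (k * x) := by
  refine ⟨a1.G_mul D k x hk.1 hx.1, ?_⟩
  rw [Matrix.conjTranspose_mul, mul_assoc, ← mul_assoc k.conjTranspose, hk.2, one_mul, hx.2]

/-- the moments -/
noncomputable def mo (H : HMb D b) (k : Matrix I I ℂ) (n : ℕ) : ℝ :=
  ∫ x, ((k * H.mat x).trace).re ^ n ∂H.μ

theorem mo_eq (a1 : Alg1) (H : HMb D b) {k : Matrix I I ℂ} (hk : IsK D k) (n : ℕ) :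
    ∫ x, (k * H.mat x).trace ^ n ∂H.μ = (mo H k n : ℂ) := by
  unfold mo
  rw [← integral_complex_ofReal]
  refine integral_congr_ae (Eventually.of_forall fun x => ?_)
  show (k * H.mat x).trace ^ n = ((((k * H.mat x).trace).re ^ n : ℝ) : ℂ)
  rw [trace_eq_re (isK_prod a1 hk (H.mem x).1), Complex.ofReal_re]
  push_cast
  rfl

theorem mo_cont (H : HMb D b) (k : Matrix I I ℂ) :
    Continuous fun x => ((k * H.mat x).trace).re := by
  refine Complex.continuous_re.comp ?_
  exact (continuous_const.mul H.cont_mat).matrix_trace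

theorem mo_zero (H : HMb D b) (k : Matrix I I ℂ) : mo H k 0 = 1 := by
  unfold mo
  simp

/-- **The Hankel forms of the moments are positive.** -/
theorem hankel (H : HMb D b) (k : Matrix I I ℂ) (s : Finset ℕ) (a : ℕ → ℝ) :
    0 ≤ ∑ i ∈ s, ∑ j ∈ s, a i * a j * mo H k (i + j) := by
  have hc := mo_cont H k
  have h1 : ∑ i ∈ s, ∑ j ∈ s, a i * a j * mo H k (i + j) =
      ∫ x, (∑ i ∈ s, a i * ((k * H.mat x).trace).re ^ i) ^ 2 ∂H.μ := by
    have h2 : ∀ x, (∑ i ∈ s, a i * ((k * H.mat x).trace).re ^ i) ^ 2 =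
        ∑ i ∈ s, ∑ j ∈ s, a i * a j * ((k * H.mat x).trace).re ^ (i + j) := by
      intro x
      rw [sq, Finset.sum_mul_sum]
      refine Finset.sum_congr rfl fun i _ => Finset.sum_congr rfl fun j _ => ?_
      rw [pow_add]
      ring
    simp only [h2]
    rw [integral_finsetSum _ fun i _ => ?_]
    · refine Finset.sum_congr rfl fun i _ => ?_
      rw [integral_finsetSum _ fun j _ => ?_]
      · refine Finset.sum_congr rfl fun j _ => ?_
        rw [integral_const_mul]
        rfl
      · exact integ H (continuous_const.mul (hc.pow _))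
    · exact integ H (continuous_finsetSum _ fun j _ => continuous_const.mul (hc.pow _))
  rw [h1]
  exact integral_nonneg fun x => sq_nonneg _

/-- the moments of even order -/
theorem sq_mo_le (H : HMb D b) (k : Matrix I I ℂ) (n : ℕ) : mo H k n ^ 2 ≤ mo H k (2 * n) := by
  rcases Nat.eq_zero_or_pos n with h0 | h0
  · subst h0
    rw [mul_zero, mo_zero]
    norm_num
  have h1 := hankel H k {0, n} (fun i => if i = 0 then -mo H k n else 1)
  have hn : (0 : ℕ) ≠ n := h0.ne
  rw [Finset.sum_pair hn, Finset.sum_pair hn, Finset.sum_pair hn] at h1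
  simp only [if_true, if_neg h0.ne', add_zero, zero_add, mo_zero] at h1
  rw [two_mul]
  nlinarith

/-- **The signature on the tensors of length `2 n` is at least the square of the signature on the
tensors of length `n`**, for the forms `h(x, k x)` on the fixed tensors. -/
theorem sq_signature (a1 : Alg1) (H : HMb D b) {k : Matrix I I ℂ} (hk : IsK D k) {n : ℕ}
    {p q p' q' : ℕ} (h : (p : ℂ) - q = ∫ x, (k * H.mat x).trace ^ n ∂H.μ)
    (h' : (p' : ℂ) - q' = ∫ x, (k * H.mat x).trace ^ (2 * n) ∂H.μ) :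
    ((p : ℝ) - q) ^ 2 ≤ p' - q' := by
  rw [mo_eq a1 H hk] at h h'
  have h1 : (p : ℝ) - q = mo H k n := by exact_mod_cast h
  have h2 : (p' : ℝ) - q' = mo H k (2 * n) := by exact_mod_cast h'
  rw [h1, h2]
  exact sq_mo_le H k n

end OL

end Pool.Agent.Lib.MP_361a6f_ag.FL
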