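import Pool.Agent.Lib.MP_361a6f_ag.FL.O.H54.Rate

/-!
# The mean distance to `1`

For a compact group of unitary matrices of size `d` with `Re tr x ≥ 2 - d` the integral of
`√n |x - 1| |Re tr x| ^ n` is at most `40 d³` times the integral of `(Re tr x) ^ n`, if
`n ≥ (20 d³)²`.
-/

open MeasureTheory Filter Topology

namespace Pool.Agent.Lib.MP_361a6f_ag.FL.O52

open Pool.Agent.Lib.MP_361a6f_ag.FL.O54

noncomputable section

/-- the shells decrease fast from `20 d³` on -/
theorem shl_le (d : ℕ) (hd : 0 < d) (k : ℕ) (hk : 20 * d ^ 3 ≤ k) :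
    ((k : ℝ) + 1) * shl d k ≤ (1 / 2) ^ k := by
  have hd1 : (1 : ℝ) ≤ d := by exact_mod_cast hd
  have hd0 : (0 : ℝ) < d := by linarith
  have hkR : 20 * (d : ℝ) ^ 3 ≤ k := by exact_mod_cast hk
  have hd3 : (1 : ℝ) ≤ (d : ℝ) ^ 3 := one_le_pow₀ hd1
  have hd23 : (d : ℝ) ^ 2 ≤ (d : ℝ) ^ 3 := pow_le_pow_right₀ hd1 (by norm_num)
  have hk20 : (20 : ℝ) ≤ k := by linarith
  have hk0 : (0 : ℝ) < k := by linarith
  set y : ℝ := 4 * d * ((k : ℝ) + 1) + 1 with hy
  have hy0 : 0 < y := by rw [hy]; positivity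
  have hy5 : y ≤ 5 * d * k := by
    rw [hy]
    nlinarith
  -- `log y ≤ 2 √y`
  have hlog : Real.log y ≤ 2 * Real.sqrt y := by
    have h1 : Real.log y = 2 * Real.log (Real.sqrt y) := by
      rw [Real.log_sqrt hy0.le]; ring
    have h2 := Real.log_le_sub_one_of_pos (Real.sqrt_pos.2 hy0)
    rw [h1]
    linarith
  have hsq : 10 * (d : ℝ) ^ 4 * Real.sqrt y ≤ (k : ℝ) ^ 2 := by
    have h1 : Real.sqrt y ≤ Real.sqrt (5 * d * k) := Real.sqrt_le_sqrt hy5
    have h2 : 10 * (d : ℝ) ^ 4 * Real.sqrt (5 * d * k) ≤ (k : ℝ) ^ 2 := by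
      have h3 : (10 * (d : ℝ) ^ 4 * Real.sqrt (5 * d * k)) ^ 2 ≤ ((k : ℝ) ^ 2) ^ 2 := by
        rw [mul_pow, Real.sq_sqrt (by positivity)]
        have h4 : (20 * (d : ℝ) ^ 3) ^ 3 ≤ (k : ℝ) ^ 3 := pow_le_pow_left₀ (by positivity) hkR 3
        have h5 : (10 * (d : ℝ) ^ 4) ^ 2 * (5 * d * k) = 500 * (d : ℝ) ^ 9 * k := by ring
        have h6 : ((k : ℝ) ^ 2) ^ 2 = (k : ℝ) ^ 3 * k := by ring
        rw [h5, h6]
        refine mul_le_mul_of_nonneg_right ?_ hk0.le
        have h7 : (20 * (d : ℝ) ^ 3) ^ 3 = 8000 * (d : ℝ) ^ 9 := by ring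
        rw [h7] at h4
        have h8 : 0 ≤ (d : ℝ) ^ 9 := by positivity
        linarith
      exact (pow_le_pow_iff_left₀ (by positivity) (by positivity) (by norm_num)).1 h3
    exact (mul_le_mul_of_nonneg_left h1 (by positivity)).trans h2
  -- the exponent
  have hexp : -((k : ℝ) ^ 2 / (2 * (d : ℝ) ^ 2)) + 2 * (d : ℝ) ^ 2 * Real.log y ≤ -(2 * k) := by
    have h1 : 2 * (d : ℝ) ^ 2 * Real.log y ≤ 4 * (d : ℝ) ^ 2 * Real.sqrt y := by
      have := mul_le_mul_of_nonneg_left hlog (show 0 ≤ 2 * (d : ℝ) ^ 2 by positivity)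
      linarith
    have h2 : 4 * (d : ℝ) ^ 2 * Real.sqrt y ≤ 2 / 5 * ((k : ℝ) ^ 2 / (d : ℝ) ^ 2) := by
      rw [mul_div_assoc', le_div_iff₀ (by positivity)]
      nlinarith
    have h3 : 2 * (k : ℝ) ≤ 1 / 10 * ((k : ℝ) ^ 2 / (d : ℝ) ^ 2) := by
      rw [mul_div_assoc', le_div_iff₀ (by positivity)]
      have h4 : 20 * (d : ℝ) ^ 2 ≤ k := by linarith
      nlinarith
    have h4 : (k : ℝ) ^ 2 / (2 * (d : ℝ) ^ 2) = 1 / 2 * ((k : ℝ) ^ 2 / (d : ℝ) ^ 2) := by
      field_simp
    rw [h4]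
    linarith
  have h1 : shl d k ≤ Real.exp (-(2 * k)) := by
    have h2 : (4 * d * ((k : ℝ) + 1) + 1) ^ (2 * d ^ 2) =
        Real.exp (2 * (d : ℝ) ^ 2 * Real.log y) := by
      have h3 : 2 * (d : ℝ) ^ 2 * Real.log y = ((2 * d ^ 2 : ℕ) : ℝ) * Real.log y := by
        push_cast; ring
      rw [h3, Real.exp_nat_mul, Real.exp_log hy0]
    unfold shl
    rw [h2, ← Real.exp_add]
    exact Real.exp_le_exp.2 hexp
  have h2 : ((k : ℝ) + 1) * Real.exp (-(2 * k)) ≤ Real.exp (-(k : ℝ)) := by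
    have h3 : Real.exp (-(2 * (k : ℝ))) = Real.exp (-(k : ℝ)) * Real.exp (-(k : ℝ)) := by
      rw [← Real.exp_add]
      congr 1
      ring
    have h4 : ((k : ℝ) + 1) * Real.exp (-(k : ℝ)) ≤ 1 := by
      rw [Real.exp_neg, mul_inv_le_iff₀ (Real.exp_pos _), one_mul]
      exact Real.add_one_le_exp _
    rw [h3, ← mul_assoc]
    have h5 := mul_le_mul_of_nonneg_right h4 (Real.exp_pos (-(k : ℝ))).le
    linarith
  have h3 : Real.exp (-(k : ℝ)) ≤ (1 / 2) ^ k := by
    have h4 : Real.exp (-(k : ℝ)) = (Real.exp (-1)) ^ k := by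
      rw [← Real.exp_nat_mul]
      congr 1
      ring
    rw [h4]
    refine pow_le_pow_left₀ (Real.exp_pos _).le ?_ k
    rw [Real.exp_neg]
    have h5 : (2 : ℝ) ≤ Real.exp 1 := by
      have := Real.add_one_le_exp (1 : ℝ)
      linarith
    rw [one_div]
    exact inv_anti₀ (by norm_num) h5
  calc ((k : ℝ) + 1) * shl d k ≤ ((k : ℝ) + 1) * Real.exp (-(2 * k)) :=
      mul_le_mul_of_nonneg_left h1 (by positivity)
    _ ≤ Real.exp (-(k : ℝ)) := h2
    _ ≤ (1 / 2) ^ k := h3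

/-- the tail of the first moment -/
theorem tail_le (d : ℕ) (hd : 0 < d) (N : ℕ) :
    ∑ k ∈ Finset.Ico (20 * d ^ 3) N, ((k : ℝ) + 1) * shl d k ≤ 1 / 40 := by
  set A : ℕ := 20 * d ^ 3 with hA
  have hA20 : 20 ≤ A := by
    have : 1 ≤ d ^ 3 := Nat.one_le_pow _ _ hd
    omega
  have h1 : ∑ k ∈ Finset.Ico A N, ((k : ℝ) + 1) * shl d k ≤
      ∑ k ∈ Finset.Ico A N, (1 / 2 : ℝ) ^ k :=
    Finset.sum_le_sum fun k hk => shl_le d hd k (Finset.mem_Ico.1 hk).1
  have h2 : ∑ k ∈ Finset.Ico A N, (1 / 2 : ℝ) ^ k ≤ 2 * (1 / 2) ^ A := by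
    rw [Finset.sum_Ico_eq_sum_range]
    have h3 : ∑ k ∈ Finset.range (N - A), (1 / 2 : ℝ) ^ (A + k) =
        (1 / 2) ^ A * ∑ k ∈ Finset.range (N - A), (1 / 2 : ℝ) ^ k := by
      rw [Finset.mul_sum]
      exact Finset.sum_congr rfl fun k _ => pow_add _ _ _
    rw [h3]
    have h4 : ∑ k ∈ Finset.range (N - A), (1 / 2 : ℝ) ^ k ≤ 2 := by
      have h5 := geom_sum_eq (x := (1 / 2 : ℝ)) (by norm_num) (N - A)
      rw [h5]
      have h6 : 0 ≤ (1 / 2 : ℝ) ^ (N - A) := by positivity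
      have h7 : ((1 / 2 : ℝ) ^ (N - A) - 1) / (1 / 2 - 1) = 2 * (1 - (1 / 2) ^ (N - A)) := by
        ring
      rw [h7]
      linarith
    have h5 : 0 ≤ (1 / 2 : ℝ) ^ A := by positivity
    nlinarith
  have h3 : (1 / 2 : ℝ) ^ A ≤ (1 / 2) ^ 20 :=
    pow_le_pow_of_le_one (by norm_num) (by norm_num) hA20
  have h4 : (1 / 2 : ℝ) ^ 20 ≤ 1 / 80 := by norm_num
  linarith

theorem tail_le' (d : ℕ) (hd : 0 < d) (N : ℕ) :
    ∑ k ∈ Finset.Ico (20 * d ^ 3) N, shl d k ≤ 1 / 40 := by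
  refine (Finset.sum_le_sum fun k _ => ?_).trans (tail_le d hd N)
  have h1 := shl_nonneg d k
  have h2 : (0 : ℝ) ≤ k := Nat.cast_nonneg k
  nlinarith

theorem moment (d : ℕ) (hd : 0 < d) {I : Type} [Fintype I] [DecidableEq I]
    (hI : Fintype.card I = d) :
    ∀ {K : Type} [Group K] [TopologicalSpace K] [IsTopologicalGroup K] [MeasurableSpace K]
      [BorelSpace K] (mat : K →* Matrix I I ℂ), Continuous mat →
      (∀ x, (mat x).conjTranspose * mat x = 1) →
      ∀ (μ : Measure K) [IsProbabilityMeasure μ] [μ.IsMulLeftInvariant],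
      (∀ x, 2 - (d : ℝ) ≤ (mat x).trace.re) → ∀ n : ℕ, (20 * d ^ 3) ^ 2 ≤ n →
      ∫ x, Real.sqrt (n * fro (mat x - 1)) * |(mat x).trace.re| ^ n ∂μ ≤
        40 * (d : ℝ) ^ 3 * ∫ x, (mat x).trace.re ^ n ∂μ := by
  intro K _ _ _ _ _ mat hc hu μ _ _ hfix n hn
  set A : ℕ := 20 * d ^ 3 with hA'
  have hA1 : 1 ≤ A := by
    have : 1 ≤ d ^ 3 := Nat.one_le_pow _ _ hd
    omega
  have hA : ∀ N, ∑ k ∈ Finset.Ico A N, shl d k ≤ 1 / 40 := tail_le' d hd
  have hd1 : (1 : ℝ) ≤ d := by exact_mod_cast hd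
  have hd0 : (0 : ℝ) < d := by linarith
  have hn0 : 0 < n := lt_of_lt_of_le (by positivity) hn
  have hnR : (0 : ℝ) < n := by exact_mod_cast hn0
  have hn1 : (1 : ℝ) ≤ n := by exact_mod_cast hn0
  have hAn : (A : ℝ) ^ 2 ≤ n := by exact_mod_cast hn
  set f : K → ℝ := fun x => fro (mat x - 1) with hf
  set χ : K → ℝ := fun x => (mat x).trace.re with hχ
  have hfc : Continuous f := continuous_fro (fun x => mat x) hc
  have hfχ : ∀ x, f x = 2 * d - 2 * χ x := by
    intro x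
    have := fro_sub_one (mat x) (hu x)
    rw [hI] at this
    exact this
  have hχf : ∀ x, χ x = d - f x / 2 := by intro x; rw [hfχ x]; ring
  have hχc : Continuous χ := by
    have : χ = fun x => d - f x / 2 := funext hχf
    rw [this]; exact continuous_const.sub (hfc.div_const 2)
  have hf0 : ∀ x, 0 ≤ f x := fun x => fro_nonneg _
  have hf4 : ∀ x, f x ≤ 4 * d := by
    intro x; rw [hfχ x]; have := hfix x; simp only [hχ]; linarith
  have hχd : ∀ x, |χ x| ≤ d := by
    intro x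
    have h1 := abs_chi_le d hd (χ x) (f x) (hfχ x) (hfix x) (hf0 x)
    have h2 : Real.exp (-(f x / (2 * (d : ℝ) ^ 2))) ≤ 1 := by
      apply Real.exp_le_one_iff.2
      have := hf0 x
      have : 0 ≤ f x / (2 * (d : ℝ) ^ 2) := by positivity
      linarith
    calc |χ x| ≤ _ := h1
      _ ≤ d * 1 := mul_le_mul_of_nonneg_left h2 hd0.le
      _ = d := mul_one _
  -- the balls
  set η : ℝ := 1 / Real.sqrt n with hη
  have hηpos : 0 < η := by rw [hη]; positivity
  have hball : ∀ R : ℕ, {x : K | fro (mat x - 1) ≤ (R * η) ^ 2} = {x | (n : ℝ) * f x ≤ (R : ℝ) ^ 2} := by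
    intro R
    ext x
    simp only [Set.mem_setOf_eq]
    have e : (R * η) ^ 2 = (R : ℝ) ^ 2 / n := by
      rw [hη, mul_pow, div_pow, one_pow, Real.sq_sqrt hnR.le]; ring
    rw [e, le_div_iff₀ hnR, mul_comm]
  have hball1 : {x : K | fro (mat x - 1) ≤ η ^ 2} = {x | (n : ℝ) * f x ≤ 1} := by
    have := hball 1
    simpa using this
  set mB : ℝ := (μ {x | (n : ℝ) * f x ≤ 1}).toReal with hmB
  have hmB0 : 0 ≤ mB := ENNReal.toReal_nonneg
  have hdbl : ∀ R : ℕ, (μ {x | (n : ℝ) * f x ≤ (R : ℝ) ^ 2}).toReal ≤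
      (4 * d * R + 1) ^ (2 * d ^ 2) * mB := by
    intro R
    have h1 := doubling mat hu μ η hηpos R
    rw [hball R, hball1, hI] at h1
    have h2 := ENNReal.toReal_mono
      (ENNReal.mul_ne_top (ENNReal.natCast_ne_top _) (measure_ne_top μ _)) h1
    rw [ENNReal.toReal_mul, ENNReal.toReal_natCast] at h2
    push_cast at h2
    exact h2
  have hmBpos : 0 < mB := by
    obtain ⟨R, hR⟩ := exists_nat_ge ((n : ℝ) * (4 * d) + 1)
    have hR1 : (1 : ℝ) ≤ R := by
      have : (0 : ℝ) ≤ (n : ℝ) * (4 * d) := by positivity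
      linarith
    have hu' : {x | (n : ℝ) * f x ≤ (R : ℝ) ^ 2} = Set.univ := by
      ext x
      simp only [Set.mem_setOf_eq, Set.mem_univ, iff_true]
      have h1 : (n : ℝ) * f x ≤ n * (4 * d) := mul_le_mul_of_nonneg_left (hf4 x) hnR.le
      nlinarith
    have h2 := hdbl R
    rw [hu'] at h2
    simp only [measure_univ, ENNReal.toReal_one] at h2
    by_contra hcon
    have : mB = 0 := le_antisymm (not_lt.1 hcon) hmB0
    rw [this, mul_zero] at h2
    linarith
  have hcl : ∀ c : ℝ, MeasurableSet {x | (n : ℝ) * f x ≤ c} := fun c =>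
    (isClosed_le (continuous_const.mul hfc) continuous_const).measurableSet
  set S : Set K := {x | (n : ℝ) * f x ≤ (A : ℝ) ^ 2} with hS
  have hSm : MeasurableSet S := hcl _
  -- integrability
  have hbd : ∀ x, |χ x| ^ n ≤ (d : ℝ) ^ n := fun x => pow_le_pow_left₀ (abs_nonneg _) (hχd x) n
  have hmχ : AEStronglyMeasurable (fun x => χ x ^ n) μ := (hχc.pow n).aestronglyMeasurable
  have hmχa : AEStronglyMeasurable (fun x => |χ x| ^ n) μ :=
    (hχc.abs.pow n).aestronglyMeasurable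
  have iχ : Integrable (fun x => χ x ^ n) μ := by
    refine Integrable.of_bound hmχ ((d : ℝ) ^ n) (Eventually.of_forall fun x => ?_)
    rw [Real.norm_eq_abs, abs_pow]; exact hbd x
  have iχa : Integrable (fun x => |χ x| ^ n) μ := by
    refine Integrable.of_bound hmχa ((d : ℝ) ^ n) (Eventually.of_forall fun x => ?_)
    rw [Real.norm_eq_abs, abs_pow, abs_abs]; exact hbd x
  have iinn : Integrable (S.indicator fun x => χ x ^ n) μ := iχ.indicator hSm
  have iout : Integrable (Sᶜ.indicator fun x => |χ x| ^ n) μ := iχa.indicator hSm.compl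
  set inn : ℝ := ∫ x, S.indicator (fun x => χ x ^ n) x ∂μ with hinn
  set out : ℝ := ∫ x, Sᶜ.indicator (fun x => |χ x| ^ n) x ∂μ with hout
  -- the inside
  have hpos : ∀ x ∈ S, 0 ≤ χ x := by
    intro x hx
    have h1 : (n : ℝ) * f x ≤ n * 1 := by rw [mul_one]; exact le_trans hx hAn
    have h2 : f x ≤ 1 := le_of_mul_le_mul_left h1 hnR
    rw [hχf x]; linarith
  have hin : (d : ℝ) ^ n / 2 * mB ≤ inn := by
    have h1 : ∀ x, ({x | (n : ℝ) * f x ≤ 1}.indicator (fun _ => (d : ℝ) ^ n / 2)) x ≤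
        S.indicator (fun x => χ x ^ n) x := by
      intro x
      by_cases hx : x ∈ {x | (n : ℝ) * f x ≤ 1}
      · have hxS : x ∈ S := by
          have h2 : (n : ℝ) * f x ≤ 1 := hx
          have h3 : (1 : ℝ) ≤ (A : ℝ) ^ 2 := by
            have : (1 : ℝ) ≤ A := by exact_mod_cast hA1
            nlinarith
          exact h2.trans h3
        rw [Set.indicator_of_mem hx, Set.indicator_of_mem hxS]
        have h2 : (n : ℝ) * f x ≤ 1 := hx
        have h3 : f x ≤ 1 / n := by rw [le_div_iff₀ hnR, mul_comm]; exact h2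
        have h4 : (d : ℝ) * (1 + -(1 / (2 * d * n))) ≤ χ x := by
          rw [hχf x]
          have : (d : ℝ) * (1 + -(1 / (2 * d * n))) = d - (1 / n) / 2 := by field_simp; ring
          rw [this]; linarith
        have h5 : 1 + (n : ℝ) * (-(1 / (2 * d * n))) ≤ (1 + -(1 / (2 * (d : ℝ) * n))) ^ n := by
          apply one_add_mul_le_pow
          have : 1 / (2 * (d : ℝ) * n) ≤ 1 := by
            rw [div_le_one (by positivity)]; nlinarith
          linarith
        have h6 : 1 + (n : ℝ) * (-(1 / (2 * d * n))) = 1 - 1 / (2 * d) := by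
          field_simp
          ring
        have h7 : 1 / (2 * (d : ℝ)) ≤ 1 / 2 := by
          apply div_le_div_of_nonneg_left (by norm_num) (by norm_num); linarith
        have h8 : (1 : ℝ) / 2 ≤ (1 + -(1 / (2 * (d : ℝ) * n))) ^ n := by
          rw [h6] at h5; linarith
        have h9 : (0 : ℝ) ≤ 1 + -(1 / (2 * (d : ℝ) * n)) := by
          have : 1 / (2 * (d : ℝ) * n) ≤ 1 := by
            rw [div_le_one (by positivity)]; nlinarith
          linarith
        calc (d : ℝ) ^ n / 2 = (d : ℝ) ^ n * (1 / 2) := by ring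
          _ ≤ (d : ℝ) ^ n * (1 + -(1 / (2 * (d : ℝ) * n))) ^ n :=
              mul_le_mul_of_nonneg_left h8 (by positivity)
          _ = ((d : ℝ) * (1 + -(1 / (2 * (d : ℝ) * n)))) ^ n := by rw [mul_pow]
          _ ≤ χ x ^ n := pow_le_pow_left₀ (by positivity) h4 n
      · rw [Set.indicator_of_notMem hx]
        by_cases hxS : x ∈ S
        · rw [Set.indicator_of_mem hxS]; exact pow_nonneg (hpos x hxS) n
        · rw [Set.indicator_of_notMem hxS]
    have h2 : Integrable ({x | (n : ℝ) * f x ≤ 1}.indicator (fun _ => (d : ℝ) ^ n / 2)) μ :=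
      (integrable_const _).indicator (hcl 1)
    have h3 := integral_mono h2 iinn h1
    rw [integral_indicator_const _ (hcl 1), smul_eq_mul] at h3
    have h4 : μ.real {x | (n : ℝ) * f x ≤ 1} = mB := rfl
    rw [h4] at h3
    linarith
  -- the outside
  obtain ⟨N, hN⟩ := exists_nat_ge (Real.sqrt (n * (4 * d)) + 1)
  have hou : out ≤ (d : ℝ) ^ n * mB * (1 / 40) := by
    have h1 : ∀ x, Sᶜ.indicator (fun x => |χ x| ^ n) x ≤
        ∑ k ∈ Finset.Ico A N, ({x | (n : ℝ) * f x ≤ ((k + 1 : ℕ) : ℝ) ^ 2}.indicator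
          (fun _ => (d : ℝ) ^ n * Real.exp (-((k : ℝ) ^ 2 / (2 * (d : ℝ) ^ 2))))) x := by
      intro x
      by_cases hx : x ∈ S
      · rw [Set.indicator_of_notMem (by simpa using hx)]
        exact Finset.sum_nonneg fun k _ => Set.indicator_nonneg (fun _ _ => by positivity) _
      · rw [Set.indicator_of_mem (by simpa using hx)]
        have hx' : (A : ℝ) ^ 2 < n * f x := not_le.1 hx
        set s : ℝ := Real.sqrt (n * f x) with hs
        have hs2 : s ^ 2 = n * f x := Real.sq_sqrt (mul_nonneg hnR.le (hf0 x))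
        have hs0 : 0 ≤ s := Real.sqrt_nonneg _
        have hAs : (A : ℝ) ≤ s := by
          by_contra hcon
          have : s < A := not_le.1 hcon
          nlinarith
        set k : ℕ := ⌊s⌋₊ with hk
        have hk1 : (k : ℝ) ≤ s := Nat.floor_le hs0
        have hk2 : s < k + 1 := Nat.lt_floor_add_one s
        have hkA : A ≤ k := Nat.le_floor hAs
        have hkN : k < N := by
          have e1 : s ≤ Real.sqrt (n * (4 * d)) :=
            Real.sqrt_le_sqrt (mul_le_mul_of_nonneg_left (hf4 x) hnR.le)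
          have e2 : (k : ℝ) < N := by linarith
          exact_mod_cast e2
        have hmem : k ∈ Finset.Ico A N := Finset.mem_Ico.2 ⟨hkA, hkN⟩
        have hxk : x ∈ {x | (n : ℝ) * f x ≤ ((k + 1 : ℕ) : ℝ) ^ 2} := by
          simp only [Set.mem_setOf_eq]
          rw [← hs2]
          push_cast
          exact pow_le_pow_left₀ hs0 hk2.le 2
        have hterm : |χ x| ^ n ≤ ({x | (n : ℝ) * f x ≤ ((k + 1 : ℕ) : ℝ) ^ 2}.indicator
          (fun _ => (d : ℝ) ^ n * Real.exp (-((k : ℝ) ^ 2 / (2 * (d : ℝ) ^ 2))))) x := by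
          rw [Set.indicator_of_mem hxk]
          have e1 := abs_chi_le d hd (χ x) (f x) (hfχ x) (hfix x) (hf0 x)
          have e2 := pow_le_pow_left₀ (abs_nonneg _) e1 n
          rw [mul_pow, ← Real.exp_nat_mul] at e2
          refine e2.trans (mul_le_mul_of_nonneg_left ?_ (by positivity))
          apply Real.exp_le_exp.2
          have e3 : (n : ℝ) * -(f x / (2 * (d : ℝ) ^ 2)) = -(n * f x / (2 * (d : ℝ) ^ 2)) := by ring
          rw [e3]
          apply neg_le_neg
          apply div_le_div_of_nonneg_right _ (by positivity)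
          rw [← hs2]
          exact pow_le_pow_left₀ (by positivity) hk1 2
        exact hterm.trans (Finset.single_le_sum
          (f := fun k => ({x | (n : ℝ) * f x ≤ ((k + 1 : ℕ) : ℝ) ^ 2}.indicator
            (fun _ => (d : ℝ) ^ n * Real.exp (-((k : ℝ) ^ 2 / (2 * (d : ℝ) ^ 2))))) x)
          (fun k _ => Set.indicator_nonneg (fun _ _ => by positivity) _) hmem)
    have h2 : ∀ k ∈ Finset.Ico A N, Integrable ({x | (n : ℝ) * f x ≤ ((k + 1 : ℕ) : ℝ) ^ 2}.indicator
          (fun _ => (d : ℝ) ^ n * Real.exp (-((k : ℝ) ^ 2 / (2 * (d : ℝ) ^ 2))))) μ := fun k _ =>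
      (integrable_const _).indicator (hcl _)
    have h3 := integral_mono iout (integrable_finset_sum _ h2) h1
    rw [integral_finset_sum _ h2] at h3
    refine h3.trans ?_
    have h4 : ∀ k ∈ Finset.Ico A N,
        ∫ x, ({x | (n : ℝ) * f x ≤ ((k + 1 : ℕ) : ℝ) ^ 2}.indicator
          (fun _ => (d : ℝ) ^ n * Real.exp (-((k : ℝ) ^ 2 / (2 * (d : ℝ) ^ 2))))) x ∂μ ≤
        (d : ℝ) ^ n * mB * shl d k := by
      intro k _
      rw [integral_indicator_const _ (hcl _), smul_eq_mul]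
      have e1 : μ.real {x | (n : ℝ) * f x ≤ ((k + 1 : ℕ) : ℝ) ^ 2} ≤
        (4 * d * ((k + 1 : ℕ) : ℝ) + 1) ^ (2 * d ^ 2) * mB := hdbl (k + 1)
      have e2 : (0 : ℝ) ≤ (d : ℝ) ^ n * Real.exp (-((k : ℝ) ^ 2 / (2 * (d : ℝ) ^ 2))) := by
        positivity
      refine (mul_le_mul_of_nonneg_right e1 e2).trans (le_of_eq ?_)
      unfold shl
      push_cast
      ring
    refine (Finset.sum_le_sum h4).trans ?_
    rw [← Finset.mul_sum]
    exact mul_le_mul_of_nonneg_left (hA N) (by positivity)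
  have hinnpos : 0 < inn := lt_of_lt_of_le (by positivity) hin
  have hout0 : 0 ≤ out := integral_nonneg fun x => Set.indicator_nonneg (fun _ _ => by positivity) _
  have hio : out ≤ inn / 20 := by
    have : (d : ℝ) ^ n * mB * (1 / 40) = ((d : ℝ) ^ n / 2 * mB) / 20 := by ring
    rw [this] at hou
    linarith
  -- the moment outside
  set mo : ℝ := ∫ x, Sᶜ.indicator (fun x => Real.sqrt (n * f x) * |χ x| ^ n) x ∂μ with hmo
  have hsc : Continuous fun x => Real.sqrt (n * f x) := (continuous_const.mul hfc).sqrt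
  have imom : Integrable (fun x => Real.sqrt (n * f x) * |χ x| ^ n) μ := by
    refine Integrable.of_bound (hsc.mul (hχc.abs.pow n)).aestronglyMeasurable
      (Real.sqrt (n * (4 * d)) * (d : ℝ) ^ n) (Eventually.of_forall fun x => ?_)
    rw [Real.norm_eq_abs, abs_mul, abs_pow, abs_abs, abs_of_nonneg (Real.sqrt_nonneg _)]
    exact mul_le_mul (Real.sqrt_le_sqrt (mul_le_mul_of_nonneg_left (hf4 x) hnR.le)) (hbd x)
      (by positivity) (by positivity)
  have imoo : Integrable (Sᶜ.indicator fun x => Real.sqrt (n * f x) * |χ x| ^ n) μ :=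
    imom.indicator hSm.compl
  have hmom : mo ≤ (d : ℝ) ^ n * mB * (1 / 40) := by
    have h1 : ∀ x, Sᶜ.indicator (fun x => Real.sqrt (n * f x) * |χ x| ^ n) x ≤
        ∑ k ∈ Finset.Ico A N, ({x | (n : ℝ) * f x ≤ ((k + 1 : ℕ) : ℝ) ^ 2}.indicator
          (fun _ => ((k : ℝ) + 1) *
            ((d : ℝ) ^ n * Real.exp (-((k : ℝ) ^ 2 / (2 * (d : ℝ) ^ 2)))))) x := by
      intro x
      by_cases hx : x ∈ S
      · rw [Set.indicator_of_notMem (by simpa using hx)]
        exact Finset.sum_nonneg fun k _ => Set.indicator_nonneg (fun _ _ => by positivity) _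
      rw [Set.indicator_of_mem (by simpa using hx)]
      have hx' : (A : ℝ) ^ 2 < n * f x := not_le.1 hx
      set s : ℝ := Real.sqrt (n * f x) with hs
      have hs2 : s ^ 2 = n * f x := Real.sq_sqrt (mul_nonneg hnR.le (hf0 x))
      have hs0 : 0 ≤ s := Real.sqrt_nonneg _
      have hAs : (A : ℝ) ≤ s := by
        by_contra hcon
        have : s < A := not_le.1 hcon
        nlinarith
      set k : ℕ := ⌊s⌋₊ with hk
      have hk1 : (k : ℝ) ≤ s := Nat.floor_le hs0
      have hk2 : s < k + 1 := Nat.lt_floor_add_one s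
      have hkA : A ≤ k := Nat.le_floor hAs
      have hkN : k < N := by
        have e1 : s ≤ Real.sqrt (n * (4 * d)) :=
          Real.sqrt_le_sqrt (mul_le_mul_of_nonneg_left (hf4 x) hnR.le)
        have e2 : (k : ℝ) < N := by linarith
        exact_mod_cast e2
      have hmem : k ∈ Finset.Ico A N := Finset.mem_Ico.2 ⟨hkA, hkN⟩
      have hxk : x ∈ {x | (n : ℝ) * f x ≤ ((k + 1 : ℕ) : ℝ) ^ 2} := by
        simp only [Set.mem_setOf_eq]
        rw [← hs2]
        push_cast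
        exact pow_le_pow_left₀ hs0 hk2.le 2
      have hterm : s * |χ x| ^ n ≤ ({x | (n : ℝ) * f x ≤ ((k + 1 : ℕ) : ℝ) ^ 2}.indicator
        (fun _ => ((k : ℝ) + 1) *
          ((d : ℝ) ^ n * Real.exp (-((k : ℝ) ^ 2 / (2 * (d : ℝ) ^ 2)))))) x := by
        rw [Set.indicator_of_mem hxk]
        have e1 := abs_chi_le d hd (χ x) (f x) (hfχ x) (hfix x) (hf0 x)
        have e2 := pow_le_pow_left₀ (abs_nonneg _) e1 n
        rw [mul_pow, ← Real.exp_nat_mul] at e2
        refine mul_le_mul hk2.le ?_ (by positivity) (by positivity)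
        refine e2.trans (mul_le_mul_of_nonneg_left ?_ (by positivity))
        apply Real.exp_le_exp.2
        have e3 : (n : ℝ) * -(f x / (2 * (d : ℝ) ^ 2)) = -(n * f x / (2 * (d : ℝ) ^ 2)) := by ring
        rw [e3]
        apply neg_le_neg
        apply div_le_div_of_nonneg_right _ (by positivity)
        rw [← hs2]
        exact pow_le_pow_left₀ (by positivity) hk1 2
      exact hterm.trans (Finset.single_le_sum
        (f := fun k => ({x | (n : ℝ) * f x ≤ ((k + 1 : ℕ) : ℝ) ^ 2}.indicator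
          (fun _ => ((k : ℝ) + 1) *
            ((d : ℝ) ^ n * Real.exp (-((k : ℝ) ^ 2 / (2 * (d : ℝ) ^ 2)))))) x)
        (fun k _ => Set.indicator_nonneg (fun _ _ => by positivity) _) hmem)
    have h2 : ∀ k ∈ Finset.Ico A N, Integrable ({x | (n : ℝ) * f x ≤
        ((k + 1 : ℕ) : ℝ) ^ 2}.indicator (fun _ => ((k : ℝ) + 1) *
          ((d : ℝ) ^ n * Real.exp (-((k : ℝ) ^ 2 / (2 * (d : ℝ) ^ 2)))))) μ := fun k _ =>
      (integrable_const _).indicator (hcl _)
    have h3 := integral_mono imoo (integrable_finset_sum _ h2) h1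
    rw [integral_finset_sum _ h2] at h3
    refine h3.trans ?_
    have h4 : ∀ k ∈ Finset.Ico A N,
        ∫ x, ({x | (n : ℝ) * f x ≤ ((k + 1 : ℕ) : ℝ) ^ 2}.indicator
          (fun _ => ((k : ℝ) + 1) *
            ((d : ℝ) ^ n * Real.exp (-((k : ℝ) ^ 2 / (2 * (d : ℝ) ^ 2)))))) x ∂μ ≤
        (d : ℝ) ^ n * mB * (((k : ℝ) + 1) * shl d k) := by
      intro k _
      rw [integral_indicator_const _ (hcl _), smul_eq_mul]
      have e1 : μ.real {x | (n : ℝ) * f x ≤ ((k + 1 : ℕ) : ℝ) ^ 2} ≤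
        (4 * d * ((k + 1 : ℕ) : ℝ) + 1) ^ (2 * d ^ 2) * mB := hdbl (k + 1)
      have e2 : (0 : ℝ) ≤ ((k : ℝ) + 1) *
          ((d : ℝ) ^ n * Real.exp (-((k : ℝ) ^ 2 / (2 * (d : ℝ) ^ 2)))) := by
        positivity
      refine (mul_le_mul_of_nonneg_right e1 e2).trans (le_of_eq ?_)
      unfold shl
      push_cast
      ring
    refine (Finset.sum_le_sum h4).trans ?_
    rw [← Finset.mul_sum]
    exact mul_le_mul_of_nonneg_left (tail_le d hd N) (by positivity)
  -- the moment inside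
  have hmi : ∫ x, Real.sqrt (n * f x) * |χ x| ^ n ∂μ ≤ A * inn + mo := by
    have e0 : (A : ℝ) * inn + mo = ∫ x, (A * S.indicator (fun x => χ x ^ n) x +
        Sᶜ.indicator (fun x => Real.sqrt (n * f x) * |χ x| ^ n) x) ∂μ := by
      rw [integral_add (iinn.const_mul _) imoo, integral_const_mul]
    rw [e0]
    refine integral_mono imom ((iinn.const_mul _).add imoo) fun x => ?_
    show Real.sqrt (n * f x) * |χ x| ^ n ≤ A * S.indicator (fun x => χ x ^ n) x +
        Sᶜ.indicator (fun x => Real.sqrt (n * f x) * |χ x| ^ n) x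
    by_cases hx : x ∈ S
    · rw [Set.indicator_of_mem hx, Set.indicator_of_notMem (show x ∉ Sᶜ by simpa using hx),
        add_zero, abs_of_nonneg (hpos x hx)]
      refine mul_le_mul_of_nonneg_right ?_ (pow_nonneg (hpos x hx) n)
      rw [Real.sqrt_le_left (Nat.cast_nonneg A)]
      exact hx
    · rw [Set.indicator_of_notMem hx, Set.indicator_of_mem (show x ∈ Sᶜ by simpa using hx),
        mul_zero, zero_add]
  -- the whole integral
  have hlow : inn - out ≤ ∫ x, χ x ^ n ∂μ := by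
    rw [hinn, hout, ← integral_sub iinn iout]
    refine integral_mono (iinn.sub iout) iχ fun x => ?_
    by_cases hx : x ∈ S
    · simp only [Set.indicator_of_mem hx, Set.indicator_of_notMem
        (show x ∉ Sᶜ by simpa using hx), sub_zero]
      exact le_refl _
    · simp only [Set.indicator_of_notMem hx, Set.indicator_of_mem
        (show x ∈ Sᶜ by simpa using hx), zero_sub]
      rw [← abs_pow]
      exact neg_abs_le _
  have hAR : (1 : ℝ) ≤ A := by exact_mod_cast hA1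
  have hmo2 : mo ≤ inn / 20 := by
    have : (d : ℝ) ^ n * mB * (1 / 40) = ((d : ℝ) ^ n / 2 * mB) / 20 := by ring
    rw [this] at hmom
    linarith
  have h1 : (19 / 20) * inn ≤ ∫ x, χ x ^ n ∂μ := by linarith
  have h2 : (A : ℝ) * inn + mo ≤ 2 * A * ((19 / 20) * inn) := by nlinarith
  have h3 : (A : ℝ) = 20 * (d : ℝ) ^ 3 := by
    rw [hA']
    push_cast
    ring
  calc ∫ x, Real.sqrt (n * f x) * |χ x| ^ n ∂μ ≤ A * inn + mo := hmi
    _ ≤ 2 * A * ((19 / 20) * inn) := h2
    _ ≤ 2 * A * ∫ x, χ x ^ n ∂μ := mul_le_mul_of_nonneg_left h1 (by positivity)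
    _ = 40 * (d : ℝ) ^ 3 * ∫ x, χ x ^ n ∂μ := by rw [h3]; ring

end

end Pool.Agent.Lib.MP_361a6f_ag.FL.O52
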