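import Pool.Agent.Lib.MP_361a6f_ag.FL.O.Trq52
import Pool.Agent.Lib.MP_361a6f_ag.FL.O.Grw85
import Pool.Agent.Lib.MP_361a6f_ag.FL.Al2

/-!
# The inverse square root law and the growth of the rank with explicit constants, abstract form
-/

open Filter Topology MeasureTheory Module

set_option autoImplicit false

namespace Pool.Agent.Lib.MP_361a6f_ag.FL

namespace O52

open OL T2A OTrq O54

/-- **The inverse square root law** with the constant `320 (r + 1) d³`. -/
theorem root_c (a1 : Alg1) (a2 : Alg2) (ab : AlgB) (cpt : CptbStatement) (mn : MinbStatement)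
    (l1 : L1bStatement) (l2 : L2bStatement) {I Λ : Type} [Fintype I] [DecidableEq I]
    [DecidableEq Λ] {D : Dat I Λ} {At : (L : ℕ) → Ten I L → Prop} (S : ASys D At)
    (hu : ∃ u ∈ RA At 1, ∃ w ∈ RA At 1, psiT D u w ≠ 0) (r : ℕ)
    (hz : ∃ z ∈ numA D At r, z ≠ 0) (n : ℕ) :
    Real.sqrt n * (rkA D At n : ℝ) ≤
      320 * ((r : ℝ) + 1) * (Fintype.card I : ℝ) ^ 3 * Module.finrank ℂ (CA At n) := by
  obtain ⟨d, hI⟩ : ∃ d, Fintype.card I = d := ⟨_, rfl⟩
  rw [hI]
  rcases Nat.eq_zero_or_pos d with rfl | hd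
  · exfalso
    obtain ⟨u, -, w, -, huw⟩ := hu
    have : IsEmpty I := Fintype.card_eq_zero_iff.1 hI
    apply huw
    unfold psiT
    exact Finset.sum_eq_zero fun w' _ => (this.false (w' 0)).elim
  obtain ⟨z, hz, hz0⟩ := hz
  have hd1 : 1 ≤ d ^ 3 := Nat.one_le_pow _ _ hd
  set c₀ : ℕ := 80 * (r + 1) * d ^ 3 with hc₀
  have hc₀A : 20 * d ^ 3 ≤ c₀ := by
    rw [hc₀]
    nlinarith [Nat.zero_le r]
  have hc₀1 : 1 ≤ c₀ := by omega
  have hr0 : (0 : ℝ) ≤ r := Nat.cast_nonneg r
  have hc₀R : (1 : ℝ) ≤ c₀ := by exact_mod_cast hc₀1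
  have hc₀e : (c₀ : ℝ) = 80 * ((r : ℝ) + 1) * (d : ℝ) ^ 3 := by
    rw [hc₀]
    push_cast
    ring
  have h320 : 320 * ((r : ℝ) + 1) * (d : ℝ) ^ 3 = 4 * c₀ := by rw [hc₀e]; ring
  rw [h320]
  set a : ℝ := (finrank ℂ (CA At n) : ℝ) with ha
  have ha0 : 0 ≤ a := by rw [ha]; exact Nat.cast_nonneg _
  have hk0 : (0 : ℝ) ≤ rkA D At n := Nat.cast_nonneg _
  rcases le_or_gt (Real.sqrt n) (4 * (c₀ : ℝ)) with hcn | hcn
  · have h1 := core a1 a2 ab cpt mn l1 l2 S hu hz hz0 (K := 1) (by norm_num) 1 n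
      (fun j hj => by
        obtain rfl : j = 0 := by omega
        rw [Nat.mul_zero]
        exact trqAt_zero a1 D n)
    rw [Nat.cast_one, one_mul, one_mul] at h1
    exact mul_le_mul hcn h1 hk0 (by positivity)
  have hsn : 0 < Real.sqrt n := lt_trans (by positivity) hcn
  -- the number of layers
  set M : ℕ := Nat.sqrt n / c₀ with hM
  have hM1 : c₀ * M ≤ Nat.sqrt n := Nat.mul_div_le _ _
  have hM2 : (c₀ * M) ^ 2 ≤ n := (Nat.pow_le_pow_left hM1 2).trans (Nat.sqrt_le' n)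
  have hM2' : (c₀ : ℝ) * M ≤ Real.sqrt n := by
    refine Real.le_sqrt_of_sq_le ?_
    exact_mod_cast hM2
  have hM3 : Real.sqrt n < c₀ * ((M : ℝ) + 1) := by
    have h1 : Nat.sqrt n < c₀ * (M + 1) := Nat.lt_mul_div_succ _ (by omega)
    have h2 : Nat.sqrt n + 1 ≤ c₀ * (M + 1) := h1
    have h3 : Real.sqrt n < (Nat.sqrt n : ℝ) + 1 := by
      rw [Real.sqrt_lt' (by positivity)]
      have h4 := Nat.lt_succ_sqrt' n
      rw [Nat.succ_eq_add_one] at h4
      exact_mod_cast h4
    have h4 : ((Nat.sqrt n + 1 : ℕ) : ℝ) ≤ ((c₀ * (M + 1) : ℕ) : ℝ) := by exact_mod_cast h2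
    push_cast at h4
    linarith
  have hM4 : Real.sqrt n ≤ 2 * c₀ * M := by nlinarith
  have hM0 : (0 : ℝ) < M := by
    by_contra hne
    have h1 : (M : ℝ) = 0 := le_antisymm (not_lt.1 hne) (Nat.cast_nonneg _)
    rw [h1] at hM4
    linarith
  have hAn : (20 * d ^ 3) ^ 2 ≤ n := by
    have h1 : 1 ≤ M := by
      have : (0 : ℕ) < M := by exact_mod_cast hM0
      exact this
    exact (Nat.pow_le_pow_left (hc₀A.trans (Nat.le_mul_of_pos_right _ h1)) 2).trans hM2
  have h3 := core a1 a2 ab cpt mn l1 l2 S hu hz hz0 (K := 1 + 1) (by norm_num) M n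
    (fun j hj => O52.trqC a1 d hd D hI (r * j) n 1 one_pos le_rfl hAn (by
      rw [one_mul]
      refine le_trans ?_ hM2'
      have hj' : (j : ℝ) ≤ M := by exact_mod_cast hj.le
      have h1 : (r : ℝ) * j ≤ ((r : ℝ) + 1) * M :=
        mul_le_mul (by linarith) hj' (Nat.cast_nonneg j) (by linarith)
      rw [hc₀e]
      push_cast
      calc 80 * ((r : ℝ) * j) * (d : ℝ) ^ 3 = 80 * (d : ℝ) ^ 3 * ((r : ℝ) * j) := by ring
        _ ≤ 80 * (d : ℝ) ^ 3 * (((r : ℝ) + 1) * M) :=
          mul_le_mul_of_nonneg_left h1 (by positivity)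
        _ = 80 * ((r : ℝ) + 1) * (d : ℝ) ^ 3 * M := by ring))
  calc Real.sqrt n * (rkA D At n : ℝ) ≤ 2 * c₀ * M * rkA D At n :=
        mul_le_mul_of_nonneg_right hM4 hk0
    _ = 2 * c₀ * (M * rkA D At n) := by ring
    _ ≤ 2 * c₀ * ((1 + 1) * a) := mul_le_mul_of_nonneg_left h3 (by positivity)
    _ = 4 * c₀ * a := by ring

/-- the measure of the ball of radius `n^(-1/2)` -/
theorem ball_le (d : ℕ) (hd : 0 < d) {I : Type} [Fintype I] [DecidableEq I]
    (hI : Fintype.card I = d) {K : Type} [Group K] [TopologicalSpace K] [IsTopologicalGroup K]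
    [MeasurableSpace K] [BorelSpace K] (mat : K →* Matrix I I ℂ)
    (hu : ∀ x, (mat x).conjTranspose * mat x = 1) (μ : Measure K) [IsProbabilityMeasure μ]
    [μ.IsMulLeftInvariant] (n : ℕ) (hn : 0 < n) :
    1 ≤ (289 * (d : ℝ) ^ 3 * n) ^ (d ^ 2) *
      (μ {x | (n : ℝ) * fro (mat x - 1) ≤ 1}).toReal := by
  have hd1 : (1 : ℝ) ≤ d := by exact_mod_cast hd
  have hn1 : (1 : ℝ) ≤ n := by exact_mod_cast hn
  have hnR : (0 : ℝ) < n := by linarith
  have hd0 : (0 : ℝ) < d := by linarith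
  set η : ℝ := 1 / Real.sqrt n with hη
  have hηpos : 0 < η := by rw [hη]; positivity
  have hf4 : ∀ x, fro (mat x - 1) ≤ 4 * d := by
    intro x
    have h1 := fro_sub_one (mat x) (hu x)
    rw [hI] at h1
    have h2 : -(d : ℝ) ≤ (mat x).trace.re := by
      have h3 : ‖(mat x).trace‖ ≤ d := by
        have h4 : ‖(mat x).trace‖ ≤ ∑ i : I, ‖mat x i i‖ := by
          unfold Matrix.trace
          exact norm_sum_le _ _
        refine h4.trans ?_
        have h5 : ∀ i, ‖mat x i i‖ ≤ 1 := by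
          intro i
          have h6 : fro (mat x) = d := by
            have h7 := fro_mul_unitary (mat x) 1 (hu x)
            rw [Matrix.mul_one] at h7
            rw [h7]
            have h8 : (fro (1 : Matrix I I ℂ) : ℂ) = (d : ℂ) := by
              rw [fro_eq_trace, Matrix.conjTranspose_one, Matrix.mul_one, Matrix.trace_one, hI]
            exact_mod_cast h8
          have h9 : (mat x).conjTranspose * mat x = 1 := hu x
          have h10 := congrFun (congrFun h9 i) i
          rw [Matrix.mul_apply, Matrix.one_apply_eq] at h10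
          have h11 : ∑ j, ‖mat x j i‖ ^ 2 = 1 := by
            have h12 : ((∑ j, ‖mat x j i‖ ^ 2 : ℝ) : ℂ) = 1 := by
              rw [← h10]
              push_cast
              refine Finset.sum_congr rfl fun j _ => ?_
              rw [Matrix.conjTranspose_apply, Complex.star_def,
                ← Complex.normSq_eq_conj_mul_self, Complex.normSq_eq_norm_sq]
              push_cast
              rfl
            exact_mod_cast h12
          have h13 : ‖mat x i i‖ ^ 2 ≤ 1 := by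
            rw [← h11]
            exact Finset.single_le_sum (f := fun j => ‖mat x j i‖ ^ 2)
              (fun _ _ => by positivity) (Finset.mem_univ i)
          exact (sq_le_one_iff₀ (norm_nonneg _)).1 h13
        calc ∑ i : I, ‖mat x i i‖ ≤ ∑ _i : I, (1 : ℝ) := Finset.sum_le_sum fun i _ => h5 i
          _ = d := by
            rw [Finset.sum_const, Finset.card_univ, hI, nsmul_eq_mul, mul_one]
      have h4 := Complex.abs_re_le_norm (mat x).trace
      have h5 := neg_abs_le (mat x).trace.re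
      linarith
    linarith
  set R : ℕ := 2 * (Nat.sqrt (d * n) + 1) with hR
  have hs : Real.sqrt (d * n) < (Nat.sqrt (d * n) : ℝ) + 1 := by
    rw [Real.sqrt_lt' (by positivity)]
    have h4 := Nat.lt_succ_sqrt' (d * n)
    rw [Nat.succ_eq_add_one] at h4
    exact_mod_cast h4
  have hs' : (Nat.sqrt (d * n) : ℝ) ≤ Real.sqrt (d * n) := by
    refine Real.le_sqrt_of_sq_le ?_
    exact_mod_cast Nat.sqrt_le' (d * n)
  have hdn : (1 : ℝ) ≤ d * n := by nlinarith
  have hs1 : (1 : ℝ) ≤ Real.sqrt (d * n) := by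
    rw [Real.one_le_sqrt]
    exact hdn
  have hRR : (R : ℝ) = 2 * ((Nat.sqrt (d * n) : ℝ) + 1) := by
    rw [hR]
    push_cast
    ring
  have h1 := doubling mat hu μ η hηpos R
  rw [hI] at h1
  have huniv : {x : K | fro (mat x - 1) ≤ (R * η) ^ 2} = Set.univ := by
    ext x
    simp only [Set.mem_setOf_eq, Set.mem_univ, iff_true]
    refine (hf4 x).trans ?_
    have e : (R * η) ^ 2 = (R : ℝ) ^ 2 / n := by
      rw [hη, mul_pow, div_pow, one_pow, Real.sq_sqrt hnR.le]; ring
    rw [e, le_div_iff₀ hnR]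
    have h2 : 2 * Real.sqrt (d * n) ≤ R := by rw [hRR]; linarith
    have h3 : (2 * Real.sqrt (d * n)) ^ 2 ≤ (R : ℝ) ^ 2 := pow_le_pow_left₀ (by positivity) h2 2
    rw [mul_pow, Real.sq_sqrt (by positivity)] at h3
    linarith
  have hball : {x : K | fro (mat x - 1) ≤ η ^ 2} = {x | (n : ℝ) * fro (mat x - 1) ≤ 1} := by
    ext x
    simp only [Set.mem_setOf_eq]
    have e : η ^ 2 = 1 / n := by
      rw [hη, div_pow, one_pow, Real.sq_sqrt hnR.le]
    rw [e, le_div_iff₀ hnR, mul_comm]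
  rw [huniv, hball, measure_univ] at h1
  have h2 := ENNReal.toReal_mono
    (ENNReal.mul_ne_top (ENNReal.natCast_ne_top _) (measure_ne_top μ _)) h1
  rw [ENNReal.toReal_mul, ENNReal.toReal_natCast, ENNReal.toReal_one] at h2
  refine h2.trans (mul_le_mul_of_nonneg_right ?_ ENNReal.toReal_nonneg)
  push_cast
  rw [pow_mul]
  refine pow_le_pow_left₀ (by positivity) ?_ _
  have h3 : 4 * (d : ℝ) * R + 1 ≤ 17 * d * Real.sqrt (d * n) := by
    rw [hRR]
    have h4 : (d : ℝ) * ((Nat.sqrt (d * n) : ℝ) + 1) ≤ d * (2 * Real.sqrt (d * n)) :=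
      mul_le_mul_of_nonneg_left (by linarith) hd0.le
    have h5 : (1 : ℝ) ≤ d * Real.sqrt (d * n) := by nlinarith
    linarith
  calc (4 * (d : ℝ) * R + 1) ^ 2 ≤ (17 * d * Real.sqrt (d * n)) ^ 2 :=
        pow_le_pow_left₀ (by positivity) h3 2
    _ = 289 * (d : ℝ) ^ 3 * n := by
      rw [mul_pow, mul_pow, Real.sq_sqrt (by positivity)]
      ring

end O52

end Pool.Agent.Lib.MP_361a6f_ag.FL
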