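import Pool.Agent.Lib.MP_361a6f_ag.FL.O.StatO

/-!
# The share of the positive part: the definitions used in the statement
-/

open CategoryTheory AlgebraicGeometry MonoidalCategory CartesianMonoidalCategory

universe u v w

namespace Pool.Agent.Lib.MP_361a6f_ag.FL

open Pool.Agent.Lib.MP_361a6f_ag.H3 Pool.Agent.Lib.MP_361a6f_ag.SQ
  Pool.Agent.Lib.MP_361a6f_ag.PP

noncomputable section

variable {k : Type u} [Field k]

/-- The largest `weight` of a `PosFamily`: the dimension of the positive part of Grothendieck's
form on the algebraic classes of `Y`. -/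
def posDim (W : CohomologyData.{u, 0, w} k ℂ) (Y : Sch k) (n : ℕ) (ξ : W.coh Y) : ℕ :=
  sSup {a | ∃ U : ℕ → Submodule ℝ (W.coh Y), PosFamily W Y n ξ U ∧ weight n U = a}

/-- The quotient of `posDim` and the dimension of the complex span of the algebraic classes of the
product of `n` copies of `X` tends to `c`, for `n → ∞`. -/
def PosShare (W : CohomologyData.{u, 0, w} k ℂ) (X : Sch k) (e : ℕ) (ξ : W.coh X) (c : ℝ) : Prop :=
  ∀ δ : ℝ, 0 < δ → ∃ n₀ : ℕ, ∀ P : Prd 1, n₀ ≤ P.size →
    |(posDim W (P.obj fun _ => X) (P.dim fun _ => e) (P.pol W fun _ => ξ) : ℝ) -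
      c * Module.finrank ℂ (algC W (P.obj fun _ => X))| ≤
        δ * Module.finrank ℂ (algC W (P.obj fun _ => X))

end

/-- **One, one half or zero.** Let `X` have a divisor class `ξ` of positive degree, hard Lefschetz
and an algebraic operator `Λ`. The proportion of the positive part of Grothendieck's form in the
algebraic classes of the powers of `X` tends to `1`, `1/2` or `0`. It tends to `1` if and only if
numerical equivalence is homological equivalence and `Q1` holds on all powers, to `1/2` if and only
if numerical equivalence is homological equivalence on all powers and `Q1` fails on one, and to `0`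
if and only if numerical equivalence is not homological equivalence on one power. -/
def ShareStatement : Prop :=
  ∀ {k : Type u} [Field k] (W : CohomologyData.{u, 0, w} k ℂ) (𝒱 : VarietyClass k)
    (_ : IsWeilCohomology W 𝒱) {X : Sch k} {e : ℕ} (_ : 𝒱.mem X e) {ξ : W.coh X}
    (_ : PositiveDivisor W X e ξ) (_ : HardLefschetz W X e ξ) (_ : AlgebraicLambda W X e ξ),
    ∃ c : ℝ, PosShare W X e ξ c ∧
      ((c = 1 ∧ ∀ R : Prd 1, numC W (R.obj fun _ => X) = ⊥ ∧ ∀ η : W.coh (R.obj fun _ => X),
          IsPol W (fun _ => ξ) R η → HodgeType W (R.obj fun _ => X) (R.dim fun _ => e) η) ∨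
        (c = 1 / 2 ∧ (∀ R : Prd 1, numC W (R.obj fun _ => X) = ⊥) ∧
          ∃ R : Prd 1, ¬ HodgeType W (R.obj fun _ => X) (R.dim fun _ => e) (R.pol W fun _ => ξ)) ∨
        c = 0 ∧ ∃ R : Prd 1, numC W (R.obj fun _ => X) ≠ ⊥)

end Pool.Agent.Lib.MP_361a6f_ag.FL
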