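import Pool.Agent.Lib.MP_361a6f_ag.FL.O.Half
import Pool.Agent.Lib.MP_361a6f_ag.FL.O.Main
import Pool.Agent.Lib.MP_361a6f_ag.FL.O.MainT
import Pool.Agent.Lib.MP_361a6f_ag.FL.O.StatY44

/-!
# The share of the positive part tends to one, one half or zero
-/

open CategoryTheory AlgebraicGeometry MonoidalCategory CartesianMonoidalCategory

universe u v w

set_option autoImplicit false
set_option linter.unusedSectionVars false

namespace Pool.Agent.Lib.MP_361a6f_ag.FL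

open Pool.Agent.Lib.MP_361a6f_ag.H3 Pool.Agent.Lib.MP_361a6f_ag.SQ
  Pool.Agent.Lib.MP_361a6f_ag.PP

namespace SX44

open OL

section host

variable {k : Type u} [Field k] {W : CohomologyData.{u, 0, w} k ℂ} {𝒱 : VarietyClass k}
  (H : Host W 𝒱 1)

/-- a positive space of tensors gives a positive family -/
theorem fam_of_tensors (hge : H.GeFacts) (hgr : H.RelFacts) (P : Prd 1)
    {U₀ : Submodule ℝ (Ten H.I P.size)} (hU1 : U₀ ≤ RA (HostR.AtP H) P.size)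
    (hU2 : PosU H.D U₀) :
    ∃ U : ℕ → Submodule ℝ (W.coh (P.obj H.X)), PosFamily W (P.obj H.X) (P.dim H.n)
      (P.pol W H.ξ) U ∧ Module.finrank ℝ U₀ ≤ weight (P.dim H.n) U := by
  obtain ⟨T, hT1, rfl⟩ := HostR.exists_map H hgr hge P hU1
  rw [HostR.finrank_map H hge P]
  obtain ⟨U, hUP, hUG, hUd⟩ := OHalf.exists_fam H.hW (H.memP P) (H.lamP P).2 (H.lamP P).1 sl2 staB T
    hT1 ((HostR.posU_map H hge P T).1 hU2)
  obtain ⟨q, hq, hpsi⟩ := OStr.psi_unif H.hW (H.memP P) (H.lamP P).2 (H.lamP P).1 sl2 staB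
  refine ⟨U, ⟨fun j _ x hx => (hUP j hx).1, fun j _ x hx => (hUP j hx).2, ?_⟩, hUd⟩
  intro j hj x hx h0
  refine ⟨(OStr.Gf W (P.obj H.X) (P.dim H.n) (P.pol W H.ξ) j x x).re, hUG j x hx h0, ?_⟩
  have h1 := hpsi j 0 x x hj (Nat.zero_le _) (hUP j hx) (hUP j hx)
  rw [pow_zero, one_mul] at h1
  have hxt : x ∈ HostR.totR W (P.obj H.X) := by
    have h2 := (hUP j hx).1
    exact Submodule.span_mono (fun z hz => alg_le_tot H.hW _ j hz) h2
  have h3 : (H.psiP P x x).im = 0 := HostR.psi_real H P hxt hxt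
  have h4 : (((q j 0 : ℝ) : ℂ) * OStr.Gf W (P.obj H.X) (P.dim H.n) (P.pol W H.ξ) j x x).im = 0 := by
    rw [← h3]
    have h5 : H.psiP P x x = (q j 0 : ℂ)
        * OStr.Gf W (P.obj H.X) (P.dim H.n) (P.pol W H.ξ) j x x := h1
    rw [h5, Complex.ofReal_ratCast]
  rw [Complex.im_ofReal_mul] at h4
  have hq' : (0 : ℝ) < (q j 0 : ℝ) := by exact_mod_cast hq j 0
  have h6 : (OStr.Gf W (P.obj H.X) (P.dim H.n) (P.pol W H.ξ) j x x).im = 0 :=
    (mul_eq_zero.1 h4).resolve_left hq'.ne'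
  show OStr.Gf W (P.obj H.X) (P.dim H.n) (P.pol W H.ξ) j x x = _
  exact Complex.ext (by rw [Complex.ofReal_re]) (by rw [Complex.ofReal_im]; exact h6)

/-- no numerically trivial tensors -/
theorem numA_bot (hge : H.GeFacts) (hgr : H.RelFacts) (P : Prd 1)
    (h : numC W (P.obj H.X) = ⊥) : numA H.D (HostR.AtP H) P.size = ⊥ := by
  have h1 : HostR.numTot W (P.obj H.X) = ⊥ := by
    refine (Submodule.eq_bot_iff _).2 fun z hz => ?_
    have h2 : z ∈ numC W (P.obj H.X) := by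
      refine ⟨?_, hz.2⟩
      have h3 : z ∈ Submodule.span ℝ {z | z ∈ tot W (P.obj H.X)} := hz.1
      rw [HOST2.algC_eq]
      exact Submodule.span_subset_span ℝ ℂ _ h3
    rw [h] at h2
    exact (Submodule.mem_bot ℂ).1 h2
  rw [← HostR.map_numA H staB hgr hge P, h1, Submodule.map_bot]

/-- `Q1` gives positivity of `ψ` -/
theorem pos_of_hodge (hge : H.GeFacts) (hgr : H.RelFacts) (n : ℕ)
    (hQ : ∀ R : Prd 1, HodgeType W (R.obj H.X) (R.dim H.n) (R.pol W H.ξ))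
    {u : Ten H.I n} (hu : u ∈ RA (HostR.AtP H) n) (hu0 : u ≠ 0) : 0 < (psiT H.D u u).re := by
  have hS : ASys H.D (HostR.AtP H) := aSys_at (at_ H)
  obtain ⟨r, hr, h⟩ := Qps.pos_span hS alg1 (L := n)
    (fun u hu hu0 => GPOS.pos_len ge (gr ge) H n (fun P _ => hQ P) u hu hu0) hu hu0
  rw [h, Complex.ofReal_re]
  exact hr

/-- the positive part in terms of tensors -/
theorem posDim_eq (hge : H.GeFacts) (hgr : H.RelFacts) (P : Prd 1) {p q : ℕ}
    (h : IsSig H.D (HostR.AtP H) P.size p q) :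
    posDim W (P.obj H.X) (P.dim H.n) (P.pol W H.ξ) = p := by
  have hub : ∀ a ∈ {a | ∃ U : ℕ → Submodule ℝ (W.coh (P.obj H.X)),
      PosFamily W (P.obj H.X) (P.dim H.n) (P.pol W H.ξ) U ∧ weight (P.dim H.n) U = a}, a ≤ p := by
    rintro _ ⟨U, hU, rfl⟩
    obtain ⟨T, hT1, hT2, hT3⟩ := pos_tensors H hge P U hU
    rw [← hT3]
    exact h.pos_le T hT1 hT2
  refine IsGreatest.csSup_eq ⟨?_, hub⟩
  obtain ⟨U₀, h1, h2, h3⟩ := h.pos
  obtain ⟨U, hU, hw⟩ := fam_of_tensors H hge hgr P h1 h2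
  exact ⟨U, hU, le_antisymm (hub _ ⟨U, hU, rfl⟩) (h3 ▸ hw)⟩

end host

section lim

variable {k : Type u} [Field k] {W : CohomologyData.{u, 0, w} k ℂ} {𝒱 : VarietyClass k}
  (H : Host W 𝒱 1)

/-- a class on which `ψ` is negative -/
def NegAt (P : Prd 1) : Prop := ∃ u ∈ RA (HostR.AtP H) P.size, (psiT H.D u u).re < 0

/-- without numerically trivial classes the rank is the dimension of the complex span -/
theorem rk_eq (hge : H.GeFacts) (hgr : H.RelFacts) (P : Prd 1)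
    (h : numC W (P.obj H.X) = ⊥) :
    rkA H.D (HostR.AtP H) P.size = Module.finrank ℂ (algC W (P.obj H.X)) := by
  rw [HostR.rkA_eq H staB hgr hge P, h, finrank_bot, Nat.sub_zero]

/-- **One, one half or zero**, for any function that is the positive part of the signature. -/
theorem share_host (hge : H.GeFacts) (hgr : H.RelFacts)
    (hξ : PositiveDivisor W (H.X 0) (H.n 0) (H.ξ 0)) (f : Prd 1 → ℕ)
    (hf : ∀ (P : Prd 1) (p q : ℕ), IsSig H.D (HostR.AtP H) P.size p q → f P = p) :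
    ∃ c : ℝ, (∀ δ : ℝ, 0 < δ → ∃ n₀ : ℕ, ∀ P : Prd 1, n₀ ≤ P.size →
        |(f P : ℝ) - c * Module.finrank ℂ (algC W (P.obj H.X))| ≤
          δ * Module.finrank ℂ (algC W (P.obj H.X))) ∧
      ((c = 1 ∧ (∀ R : Prd 1, numC W (R.obj H.X) = ⊥) ∧ (∀ R : Prd 1, ¬ NegAt H R)) ∨
        (c = 1 / 2 ∧ (∀ R : Prd 1, numC W (R.obj H.X) = ⊥) ∧ ∃ R : Prd 1, NegAt H R) ∨
        c = 0 ∧ ∃ R : Prd 1, numC W (R.obj H.X) ≠ ⊥) := by
  have hS : ASys H.D (HostR.AtP H) := aSys_at (at_ H)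
  have hpos : ∃ u ∈ RA (HostR.AtP H) 1, 0 < (psiT H.D u u).re :=
    OStr.unit_pos H hge 0 hξ
  have hsig : ∀ n : ℕ, ∃ p q, IsSig H.D (HostR.AtP H) n p q := fun n =>
    exists_isSig alg1 alg2 (algB alg1 alg2) cptbH (minb alg1) T2A.hl1 T2A.hl2 hS n
  by_cases hnum : ∃ R : Prd 1, numC W (R.obj H.X) ≠ ⊥
  · -- numerically trivial classes
    refine ⟨0, ?_, Or.inr (Or.inr ⟨rfl, hnum⟩)⟩
    obtain ⟨R, hR⟩ := hnum
    obtain ⟨z, hz, hz0⟩ := HostR.exists_numA H staB hgr hge R hR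
    intro δ hδ
    obtain ⟨J, hJ⟩ := exists_nat_gt (1 / δ)
    have hJ0 : (0 : ℝ) < J := lt_trans (by positivity) hJ
    obtain ⟨n₀, hn₀⟩ := T2A.mainU (Fintype.card H.I) R.size J
    refine ⟨n₀, fun P hP => ?_⟩
    obtain ⟨p, q, hpq⟩ := hsig P.size
    rw [hf P p q hpq, zero_mul, sub_zero, abs_of_nonneg (Nat.cast_nonneg p)]
    have h1 := hn₀ rfl hS hpos ⟨z, hz, hz0⟩ P.size hP
    rw [HostR.finrank_CA H hgr hge P] at h1
    have h2 : (J : ℝ) * rkA H.D (HostR.AtP H) P.size ≤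
        Module.finrank ℂ (algC W (P.obj H.X)) := by exact_mod_cast h1
    have h3 : (p : ℝ) ≤ rkA H.D (HostR.AtP H) P.size := by
      have := hpq.add
      exact_mod_cast (by omega : p ≤ rkA H.D (HostR.AtP H) P.size)
    have h4 : (J : ℝ) * p ≤ Module.finrank ℂ (algC W (P.obj H.X)) :=
      (mul_le_mul_of_nonneg_left h3 hJ0.le).trans h2
    have h5 : 1 < δ * J := by
      rw [div_lt_iff₀ hδ] at hJ
      linarith
    have h6 : (0 : ℝ) ≤ p := Nat.cast_nonneg p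
    calc (p : ℝ) ≤ (δ * J) * p := by nlinarith
      _ = δ * (J * p) := by ring
      _ ≤ _ := mul_le_mul_of_nonneg_left h4 hδ.le
  push Not at hnum
  by_cases hneg : ∃ R : Prd 1, NegAt H R
  · refine ⟨1 / 2, ?_, Or.inr (Or.inl ⟨rfl, hnum, hneg⟩)⟩
    obtain ⟨R, hR⟩ := hneg
    intro δ hδ
    obtain ⟨n₀, hn₀⟩ := mainT1U (Fintype.card H.I) R.size δ hδ
    refine ⟨n₀, fun P hP => ?_⟩
    obtain ⟨p, q, hpq⟩ := hsig P.size
    rw [hf P p q hpq, ← rk_eq H hge hgr P (hnum P)]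
    obtain ⟨U, h1, h2, h3⟩ := hpq.pos
    obtain ⟨U', h1', h2', h3'⟩ := hpq.neg
    have h4 := hn₀ rfl hS hpos hR P.size hP U h1 (Or.inl h2)
    have h5 := hn₀ rfl hS hpos hR P.size hP U' h1' (Or.inr h2')
    rw [h3] at h4
    rw [h3'] at h5
    have h6 : (p : ℝ) + q = rkA H.D (HostR.AtP H) P.size := by exact_mod_cast hpq.add
    rw [abs_le]
    constructor <;> linarith
  · refine ⟨1, ?_, Or.inl ⟨rfl, hnum, fun R hR => hneg ⟨R, hR⟩⟩⟩
    intro δ hδ
    refine ⟨0, fun P _ => ?_⟩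
    obtain ⟨p, q, hpq⟩ := hsig P.size
    rw [hf P p q hpq, ← rk_eq H hge hgr P (hnum P)]
    obtain ⟨U', h1', h2', h3'⟩ := hpq.neg
    have hU' : U' = ⊥ := by
      refine (Submodule.eq_bot_iff _).2 fun u hu => ?_
      by_contra hu0
      exact hneg ⟨P, u, h1' hu, h2' u hu hu0⟩
    have hq : q = 0 := by
      rw [← h3', hU', finrank_bot]
    have h6 : (p : ℝ) = rkA H.D (HostR.AtP H) P.size := by
      have := hpq.add
      rw [hq, add_zero] at this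
      exact_mod_cast this
    rw [h6, one_mul, sub_self, abs_zero]
    positivity

/-- positivity of `ψ` and `Q1` -/
theorem hodge_iff (hge : H.GeFacts) (hgr : H.RelFacts)
    (hnum : ∀ R : Prd 1, numC W (R.obj H.X) = ⊥) :
    (∀ R : Prd 1, ¬ NegAt H R) ↔
      ∀ R : Prd 1, HodgeType W (R.obj H.X) (R.dim H.n) (R.pol W H.ξ) := by
  have hS : ASys H.D (HostR.AtP H) := aSys_at (at_ H)
  constructor
  · intro h R
    refine OStr.hodge_of_pos H hge sl2 staB R fun u hu hu0 => ?_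
    have hsemi : ∀ v ∈ RA (HostR.AtP H) R.size, 0 ≤ (psiT H.D v v).re := fun v hv => by
      by_contra hne
      exact h R ⟨v, hv, not_le.1 hne⟩
    refine lt_of_le_of_ne (hsemi u hu) fun h0 => hu0 ?_
    have h1 : u ∈ numA H.D (HostR.AtP H) R.size := null_num hS alg1 hsemi hu h0.symm
    rw [numA_bot H hge hgr R (hnum R)] at h1
    exact (Submodule.mem_bot ℝ).1 h1
  · rintro hQ R ⟨u, hu, hneg⟩
    by_cases hu0 : u = 0
    · rw [hu0, ← Qps.psiL_apply, map_zero] at hneg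
      exact lt_irrefl _ hneg
    · have := pos_of_hodge H hge hgr R.size hQ hu hu0
      linarith

end lim

/-- one label -/
theorem share {k : Type u} [Field k] (W : CohomologyData.{u, 0, w} k ℂ) (𝒱 : VarietyClass k)
    (hW : IsWeilCohomology W 𝒱) {X : Fin 1 → Sch k} {e : Fin 1 → ℕ} (hX : ∀ a, 𝒱.mem (X a) (e a))
    {ξ : ∀ a, W.coh (X a)} (hξ : ∀ a, PositiveDivisor W (X a) (e a) (ξ a))
    (hL : ∀ a, HardLefschetz W (X a) (e a) (ξ a)) (hΛ : ∀ a, AlgebraicLambda W (X a) (e a) (ξ a)) :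
    ∃ c : ℝ, (∀ δ : ℝ, 0 < δ → ∃ n₀ : ℕ, ∀ P : Prd 1, n₀ ≤ P.size →
        |(posDim W (P.obj X) (P.dim e) (P.pol W ξ) : ℝ) - c * Module.finrank ℂ (algC W (P.obj X))| ≤
          δ * Module.finrank ℂ (algC W (P.obj X))) ∧
      ((c = 1 ∧ ∀ R : Prd 1, numC W (R.obj X) = ⊥ ∧ ∀ η : W.coh (R.obj X),
          IsPol W ξ R η → HodgeType W (R.obj X) (R.dim e) η) ∨
        (c = 1 / 2 ∧ (∀ R : Prd 1, numC W (R.obj X) = ⊥) ∧
          ∃ R : Prd 1, ¬ HodgeType W (R.obj X) (R.dim e) (R.pol W ξ)) ∨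
        c = 0 ∧ ∃ R : Prd 1, numC W (R.obj X) ≠ ⊥) := by
  obtain ⟨H, hHX, hHn, hHξ⟩ := gb26 hW hX (fun a => (hξ a).1) hL hΛ
  subst hHX hHn
  obtain rfl := eq_of_heq hHξ
  have hge : H.GeFacts := ge H
  have hgr : H.RelFacts := gr ge H
  obtain ⟨c, hc, h⟩ := share_host H hge hgr (hξ 0)
    (fun P => posDim W (P.obj H.X) (P.dim H.n) (P.pol W H.ξ))
    (fun P p q hpq => posDim_eq H hge hgr P hpq)
  refine ⟨c, hc, ?_⟩
  rcases h with ⟨h1, hnum, hn⟩ | ⟨h1, hnum, hn⟩ | h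
  · have hQ := (hodge_iff H hge hgr hnum).1 hn
    exact Or.inl ⟨h1, fun R => ⟨hnum R, fun η hη =>
      OStr.isPol W 𝒱 hW hX hξ hL hΛ (max R.size 2) (le_max_right _ _)
          (fun Q _ => hQ Q) R (le_max_left _ _) η hη⟩⟩
  · refine Or.inr (Or.inl ⟨h1, hnum, ?_⟩)
    by_contra hcon
    push Not at hcon
    obtain ⟨R, hR⟩ := hn
    exact (hodge_iff H hge hgr hnum).2 hcon R hR
  · exact Or.inr (Or.inr h)

/-- **One, one half or zero.** -/
theorem mainShare : ShareStatement.{u, w} := by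
  intro k _ W 𝒱 hW X e hX ξ hξ hL hΛ
  exact share W 𝒱 hW (X := fun _ => X) (e := fun _ => e) (fun _ => hX) (ξ := fun _ => ξ)
    (fun _ => hξ) (fun _ => hL) (fun _ => hΛ)

end SX44

end Pool.Agent.Lib.MP_361a6f_ag.FL
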