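import Pool.Agent.Lib.MP_361a6f_ag.FL.O.LevA
import Pool.Agent.Lib.MP_361a6f_ag.FL.O.T1S
import Pool.Agent.Lib.MP_361a6f_ag.FL.O.T3a
import Pool.Agent.Lib.MP_361a6f_ag.FL.O.Root52

/-!
# Half or all, with an explicit constant, abstract form

* `sign_trace`: if the form `ψ` is negative for one element of the real span of length `r`, then the
  dimension of the space of the invariant tensors of length `n` is at most `1 + ε` times the
  dimension of the space of the anti-invariant ones (trace bound for the stabiliser of the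
  invariant tensors in the compact group).
* `posX`: if `ψ` is positive definite on `1 / 2 + 160 (r + 1) d³ n^(-1/2)` of the complex span in
  length `n`, then it is positive definite in length `r`.
* `tateX`: the same for a larger family of spaces.
-/

open Filter Topology MeasureTheory Module

set_option autoImplicit false
set_option linter.unusedSectionVars false

namespace Pool.Agent.Lib.MP_361a6f_ag.FL

namespace OX

open Qps OL T2A

section lev

variable {I Λ β : Type} [Fintype I] [DecidableEq I] [DecidableEq Λ] [Fintype β] {lb : β → ℕ}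
  {D : Dat I Λ} {At : (L : ℕ) → Ten I L → Prop} {m : ℕ} {b : Tup I lb} {H : HMb D b}
  {g : ℕ → Matrix I I ℂ} {k : Matrix I I ℂ}

/-- a unit vector in the direction of `v` -/
theorem exists_unit (a1 : Alg1) {r : ℕ} {v : Ten I r} (hv : v ≠ 0) :
    ∃ t : ℂ, hT (t • v) (t • v) = 1 := by
  have hs : 0 < ∑ w, ‖v w‖ ^ 2 := by
    have h1 := hT_pos a1 hv
    rwa [a1.hT_self, Complex.ofReal_re] at h1
  set s : ℝ := ∑ w, ‖v w‖ ^ 2 with hsdef
  refine ⟨((Real.sqrt s)⁻¹ : ℝ), ?_⟩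
  rw [a1.hT_self]
  have h2 : ∑ w, ‖((((Real.sqrt s)⁻¹ : ℝ) : ℂ) • v) w‖ ^ 2 = 1 := by
    have h3 : ∀ w, ‖((((Real.sqrt s)⁻¹ : ℝ) : ℂ) • v) w‖ ^ 2 = s⁻¹ * ‖v w‖ ^ 2 := by
      intro w
      rw [Pi.smul_apply, smul_eq_mul, norm_mul, mul_pow, Complex.norm_real, Real.norm_eq_abs,
        sq_abs, inv_pow, Real.sq_sqrt hs.le]
    rw [Finset.sum_congr rfl fun w _ => h3 w, ← Finset.mul_sum, ← hsdef]
    exact inv_mul_cancel₀ hs.ne'
  rw [h2, Complex.ofReal_one]

/-- **The invariant tensors are at most `K'` times as many as the anti-invariant ones**, if there is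
an anti-invariant tensor of length `r` and `K'` is a constant for the trace bound. -/
theorem sign_trace (a1 : Alg1) (a2 : Alg2) (cpt : CptbStatement) (L : LevData D At m H g k)
    {r n : ℕ} (hrm : r ≤ m) (hn : n ≤ m) (h1 : 1 ≤ m)
    (hpos : ∃ u ∈ RA At 1, 0 < (psiT D u u).re) (hneg : ∃ u ∈ RA At r, (psiT D u u).re < 0)
    {K' : ℝ} (hK : 0 ≤ K') (htr : TrqAt a1 D K' r n) :
    (finrank ℝ (eigR L a1 hn 1) : ℝ) ≤ K' * finrank ℝ (eigR L a1 hn (-1)) := by
  obtain ⟨e, he, hef, hek⟩ := exists_pos L a1 h1 hpos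
  obtain ⟨v, hv, hvf, hvk⟩ := exists_neg L a1 hrm hneg
  obtain ⟨t, hc⟩ := exists_unit a1 hv
  generalize hcdef : t • v = c at hc
  have hcf : ∀ x, gT (H.mat x) c = c := fun x => by rw [← hcdef, a1.gT_smul, hvf x]
  have hck : gT k c = -c := by rw [← hcdef, a1.gT_smul, hvk, smul_neg]
  -- the stabiliser of the invariant tensors
  let V : Submodule ℂ (Ten I n) := eigS H a1 k n ((1 : ℝ) : ℂ)
  let bs := finBasis ℂ V
  let b1 : Tup I (fun _ : Fin (finrank ℂ V) => n) := fun i => (bs i : Ten I n)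
  let b2 : Tup I (fun _ : Unit => 1) := fun _ => e
  obtain ⟨H'⟩ := cpt D (cmb b1 b2)
  have hmem : ∀ y, IsK D y → (∀ w ∈ V, gT y w = w) → gT y e = e → ∃ x, H'.mat x = y := by
    intro y hy h2 h3
    refine H'.surj y ⟨hy, ?_⟩
    funext i
    rcases i with i | i
    · exact h2 _ (bs i).2
    · exact h3
  have hVfix : V ≤ fixS H' a1 n := by
    have hspan : V = Submodule.span ℂ (Set.range fun i => (bs i : Ten I n)) := by
      have h2 := congrArg (Submodule.map V.subtype) bs.span_eq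
      rw [Submodule.map_top, Submodule.range_subtype, Submodule.map_span, ← Set.range_comp] at h2
      exact h2.symm
    refine hspan.le.trans (Submodule.span_le.2 ?_)
    rintro _ ⟨i, rfl⟩ x
    exact congrFun (H'.mem x).2 (Sum.inl i)
  have he' : e ∈ fixS H' a1 1 := fun x => congrFun (H'.mem x).2 (Sum.inr ())
  have htr' := htr _ inferInstance _ _ H' e he he' c hc
  have hY : ∀ φ : Ten I (r + n), (∀ x, gT (H'.mat x) φ = φ) →
      cont D c φ ∈ eigS H a1 k n ((-1 : ℝ) : ℂ) := by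
    intro φ hφ
    have hk : gT k φ = φ := by
      obtain ⟨x, hx⟩ := hmem k L.K (fun w hw => by
        have h2 := hw.2
        rwa [Complex.ofReal_one, one_smul] at h2) hek
      rw [← hx]
      exact hφ x
    have hHx : ∀ x, gT (H.mat x) φ = φ := by
      intro x
      obtain ⟨x', hx'⟩ := hmem (H.mat x) (H.mem x).1 (fun w hw => hw.1 x) (hef x)
      rw [← hx']
      exact hφ x'
    refine ⟨fun x => ?_, ?_⟩
    · rw [a2.cont_gT D _ _ _ (H.mem x).1.1, hcf x, hHx x]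
    · rw [a2.cont_gT D _ _ _ L.K.1, hck, hk, ← neg_one_smul ℂ, Ind.cont_smul_left,
        Complex.ofReal_neg, Complex.ofReal_one]
  have h3 := ORng.rng a1 a2 H' c hc _ hY
  have h4 : (finrank ℂ V : ℝ) ≤ finrank ℂ (fixS H' a1 n) := by
    exact_mod_cast Submodule.finrank_mono hVfix
  have h5 := finrank_eig L a1 hn 1
  have h6 := finrank_eig L a1 hn (-1)
  rw [← h5, ← h6]
  exact h4.trans (htr'.trans (mul_le_mul_of_nonneg_left h3 hK))

end lev

section sys

variable {I Λ : Type} [Fintype I] [DecidableEq I] [DecidableEq Λ] {D : Dat I Λ}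
  {At : (L : ℕ) → Ten I L → Prop}

theorem card_pos (hpos : ∃ u ∈ RA At 1, ∃ w ∈ RA At 1, psiT D u w ≠ 0) :
    0 < Fintype.card I := by
  by_contra h0
  obtain ⟨u, -, w, -, huw⟩ := hpos
  have : IsEmpty I := Fintype.card_eq_zero_iff.1 (by omega)
  apply huw
  unfold psiT
  exact Finset.sum_eq_zero fun w' _ => (this.false (w' 0)).elim

theorem ne_of_pos (hpos : ∃ u ∈ RA At 1, 0 < (psiT D u u).re) :
    ∃ u ∈ RA At 1, ∃ w ∈ RA At 1, psiT D u w ≠ 0 := by
  obtain ⟨u, hu, h⟩ := hpos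
  refine ⟨u, hu, u, hu, fun h0 => ?_⟩
  rw [h0] at h
  exact lt_irrefl _ h

/-- **The gap, with the constant of the trace bound.** -/
theorem gapX (a1 : Alg1) (a2 : Alg2) (ab : AlgB) (cpt : CptbStatement) (mn : MinbStatement)
    (l1 : L1bStatement) (l2 : L2bStatement) (S : ASys D At)
    (hpos : ∃ u ∈ RA At 1, 0 < (psiT D u u).re) {r n : ℕ}
    (hneg : ∃ u ∈ RA At r, (psiT D u u).re < 0) {ε : ℝ} (hε : 0 < ε)
    (hε1 : ε ≤ 1) (hn : (20 * Fintype.card I ^ 3) ^ 2 ≤ n)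
    (hl : 80 * r * (Fintype.card I : ℝ) ^ 3 ≤ ε * Real.sqrt n)
    (U : Submodule ℝ (Ten I n)) (hU : U ≤ RA At n) (hdef : PosU D U) :
    (2 + ε) * (finrank ℝ U : ℝ) ≤ (1 + ε) * rkA D At n := by
  obtain ⟨β, _, lb, b, H, g, k, L⟩ := LevO.lev (D := D) a1 a2 ab cpt mn l1 l2 S (n + r + 1)
  have hc : n ≤ n + r + 1 := by omega
  have h1 := sign_trace a1 a2 cpt L (by omega : r ≤ n + r + 1) hc (by omega) hpos hneg
    (K' := 1 + ε) (by linarith)
    (O52.trqC a1 (Fintype.card I) (card_pos (ne_of_pos hpos)) D rfl r n ε hε hε1 hn hl)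
  obtain ⟨hsum, _⟩ := eig_int L a1 hc
  have hsum' : (finrank ℝ (eigR L a1 hc 1) : ℝ) + finrank ℝ (eigR L a1 hc (-1)) =
      rkA D At n := by exact_mod_cast hsum
  have h7 : (finrank ℝ U : ℝ) ≤ finrank ℝ (eigR L a1 hc 1) := by
    exact_mod_cast pos_le L a1 hc U hU hdef
  have h8 : (2 + ε) * (finrank ℝ U : ℝ) ≤ (2 + ε) * finrank ℝ (eigR L a1 hc 1) :=
    mul_le_mul_of_nonneg_left h7 (by linarith)
  rw [← hsum']
  linarith

/-- **Half or all, abstract form**: if `ψ` is positive definite on more than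
`1 / 2 + 160 (r + 1) d³ n^(-1/2)` of the complex span in length `n`, then it is positive definite in
length `r`. -/
theorem posX (a1 : Alg1) (a2 : Alg2) (ab : AlgB) (cpt : CptbStatement) (mn : MinbStatement)
    (l1 : L1bStatement) (l2 : L2bStatement) (S : ASys D At)
    (hpos : ∃ u ∈ RA At 1, 0 < (psiT D u u).re) (r : ℕ) {n : ℕ} (hn : 0 < n)
    (U : Submodule ℝ (Ten I n)) (hU : U ≤ RA At n) (hdef : PosU D U)
    (h : (1 / 2 + 160 * ((r : ℝ) + 1) * (Fintype.card I : ℝ) ^ 3 / Real.sqrt n) *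
      finrank ℂ (CA At n) < finrank ℝ U) (u : Ten I r) (hu : u ∈ RA At r) (hu0 : u ≠ 0) :
    0 < (psiT D u u).re := by
  have hd : 0 < Fintype.card I := card_pos (ne_of_pos hpos)
  obtain ⟨d, hI⟩ : ∃ d, Fintype.card I = d := ⟨_, rfl⟩
  rw [hI] at hd h
  have hd1 : (1 : ℝ) ≤ d := by exact_mod_cast hd
  have hd3 : (1 : ℝ) ≤ (d : ℝ) ^ 3 := one_le_pow₀ hd1
  have hr0 : (0 : ℝ) ≤ r := Nat.cast_nonneg r
  have hnR : (0 : ℝ) < n := by exact_mod_cast hn
  have hsn : 0 < Real.sqrt n := Real.sqrt_pos.2 hnR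
  -- the numbers
  obtain ⟨huN, hNa⟩ : (finrank ℝ U : ℝ) ≤ rkA D At n ∧
      (rkA D At n : ℝ) ≤ finrank ℂ (CA At n) := by
    obtain ⟨β, _, lb, b, H, g, k, L⟩ := LevO.lev (D := D) a1 a2 ab cpt mn l1 l2 S (n + 1)
    have hc : n ≤ n + 1 := by omega
    have h8 := pos_le L a1 hc U hU hdef
    have h9 := (eig_int L a1 hc).1
    exact ⟨by exact_mod_cast (by omega : finrank ℝ U ≤ rkA D At n), by
      exact_mod_cast OL.rk_le L a1 hc⟩
  set ε : ℝ := 80 * ((r : ℝ) + 1) * (d : ℝ) ^ 3 / Real.sqrt n with hε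
  have hε0 : 0 < ε := by rw [hε]; positivity
  have h160 : 160 * ((r : ℝ) + 1) * (d : ℝ) ^ 3 / Real.sqrt n = 2 * ε := by rw [hε]; ring
  rw [h160] at h
  have hεs : ε * Real.sqrt n = 80 * ((r : ℝ) + 1) * (d : ℝ) ^ 3 := by
    rw [hε, div_mul_cancel₀ _ hsn.ne']
  generalize hadef : (finrank ℂ (CA At n) : ℝ) = a at h hNa
  have ha0 : 0 ≤ a := by rw [← hadef]; exact Nat.cast_nonneg _
  have hapos : 0 < a := by
    rcases ha0.eq_or_lt with h0 | h0
    · rw [← h0, mul_zero] at h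
      linarith
    · exact h0
  have hε4 : 4 * ε < 1 := by
    by_contra hne
    push Not at hne
    have h1 : a ≤ (1 / 2 + 2 * ε) * a := by nlinarith
    linarith
  by_contra hno
  have hno' : (psiT D u u).re ≤ 0 := not_lt.1 hno
  by_cases hA : ∃ w ∈ RA At r, (psiT D w w).re < 0
  · have hAn : (20 * Fintype.card I ^ 3) ^ 2 ≤ n := by
      have h1 : (20 * (d : ℝ) ^ 3) ≤ Real.sqrt n := by
        have h2 : 80 * ((r : ℝ) + 1) * (d : ℝ) ^ 3 ≤ 1 * Real.sqrt n := by
          rw [← hεs]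
          exact mul_le_mul_of_nonneg_right (by linarith) hsn.le
        nlinarith
      have h2 := pow_le_pow_left₀ (by positivity) h1 2
      rw [Real.sq_sqrt hnR.le] at h2
      rw [hI]
      exact_mod_cast h2
    have h3 := gapX a1 a2 ab cpt mn l1 l2 S hpos hA hε0 (by linarith) hAn (by
      rw [hI, hεs]
      nlinarith) U hU hdef
    have h4 : (1 + ε) * (rkA D At n : ℝ) ≤ (1 + ε) * a :=
      mul_le_mul_of_nonneg_left hNa (by linarith)
    have h5 : (2 + ε) * ((1 / 2 + 2 * ε) * a) < (2 + ε) * (finrank ℝ U : ℝ) :=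
      mul_lt_mul_of_pos_left h (by linarith)
    have h6 : 0 ≤ ε * a := mul_nonneg hε0.le ha0
    have h7 : 0 ≤ ε * (ε * a) := mul_nonneg hε0.le h6
    nlinarith
  · push Not at hA
    have h3 : u ∈ numA D At r := null_num S a1 hA hu (le_antisymm hno' (hA u hu))
    have h4 := O52.root_c a1 a2 ab cpt mn l1 l2 S (ne_of_pos hpos) r ⟨u, h3, hu0⟩ n
    rw [hadef, hI] at h4
    have h5 : Real.sqrt n * (rkA D At n : ℝ) ≤ Real.sqrt n * (4 * ε * a) := by
      refine h4.trans (le_of_eq ?_)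
      calc 320 * ((r : ℝ) + 1) * (d : ℝ) ^ 3 * a = 4 * (80 * ((r : ℝ) + 1) * (d : ℝ) ^ 3) * a := by
            ring
        _ = 4 * (ε * Real.sqrt n) * a := by rw [hεs]
        _ = _ := by ring
    have h6 : (rkA D At n : ℝ) ≤ 4 * ε * a := le_of_mul_le_mul_left h5 hsn
    nlinarith

/-- **A larger family of spaces**: one element `f` of length `r` that is not in the complex span. -/
theorem tateX (a1 : Alg1) (a2 : Alg2) (ab : AlgB) (cpt : CptbStatement) (mn : MinbStatement)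
    (l1 : L1bStatement) (l2 : L2bStatement) (S : ASys D At)
    (hu : ∃ u ∈ RA At 1, ∃ w ∈ RA At 1, psiT D u w ≠ 0) {r n : ℕ} {ε : ℝ} (hε : 0 < ε)
    (hε1 : ε ≤ 1) (hn : (20 * Fintype.card I ^ 3) ^ 2 ≤ n)
    (hl : 80 * r * (Fintype.card I : ℝ) ^ 3 ≤ ε * Real.sqrt n)
    (f : Ten I r) (hf : f ∉ CA At r) (M : Submodule ℂ (Ten I n)) (hM : CA At n ≤ M)
    (hT' : ∀ y ∈ CA At (r + n), cont D f y ∈ M) :
    (2 - ε) * rkA D At n ≤ finrank ℂ M := by
  have hd := card_pos hu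
  obtain ⟨β, _, lb, b, H, g, k, L⟩ := LevO.lev a1 a2 ab cpt mn l1 l2 S (r + n + 1)
  obtain ⟨u, hu1, w, hw1, hu2⟩ := hu
  obtain ⟨v, hv, hvfix⟩ := L.lim 1 (by omega) u (Submodule.span_subset_span ℝ ℂ _ hu1)
  obtain ⟨v', hv', -⟩ := L.lim 1 (by omega) w (Submodule.span_subset_span ℝ ℂ _ hw1)
  have hv0 : v ≠ 0 := by
    rintro rfl
    have h1 := L.psi 1 u w 0 v' hv hv'
    rw [← psiL_apply, map_zero, LinearMap.zero_apply] at h1
    exact hu2 h1.symm
  have hrkle := T2A.rk_le a1 S L (n := n) (by omega)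
  have hrkle' : (rkA D At n : ℝ) ≤ finrank ℂ (fixS H a1 n) := by exact_mod_cast hrkle
  have hF0 : (0 : ℝ) ≤ finrank ℂ (fixS H a1 n) := Nat.cast_nonneg _
  have hr0 : (0 : ℝ) ≤ rkA D At n := Nat.cast_nonneg _
  obtain ⟨c, hc, hcore⟩ := T3A.core a1 a2 S L (by omega) (Submodule.span ℂ {f}) M hM
    (fun u hu y hy => by
      obtain ⟨a, rfl⟩ := Submodule.mem_span_singleton.1 hu
      rw [Ind.cont_smul_left]
      exact Submodule.smul_mem _ _ (hT' y hy))
    (Submodule.mem_span_singleton_self f) hf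
  have htr := O52.trqC a1 (Fintype.card I) hd D rfl r n ε hε hε1 hn hl β inferInstance lb b H v
    hv0 hvfix c hc
  generalize ‖∫ x, hT c (gT (H.mat x) c) * (H.mat x).trace ^ n ∂H.μ‖ = J at hcore htr
  generalize (finrank ℂ (fixS H a1 n) : ℝ) = F at *
  generalize (finrank ℂ M : ℝ) = N at *
  generalize (rkA D At n : ℝ) = R at *
  have hJ : (1 - ε) * F ≤ J := by
    by_contra hne
    push Not at hne
    have h1 : (1 + ε) * J < (1 + ε) * ((1 - ε) * F) := mul_lt_mul_of_pos_left hne (by linarith)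
    have h2 : 0 ≤ ε * (ε * F) := mul_nonneg hε.le (mul_nonneg hε.le hF0)
    nlinarith
  have h1 : (2 - ε) * R ≤ (2 - ε) * F := mul_le_mul_of_nonneg_left hrkle' (by linarith)
  linarith

end sys

end OX

end Pool.Agent.Lib.MP_361a6f_ag.FL
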