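import Pool.Agent.Lib.MP_361a6f_ag.FL.O.LevA
import Pool.Agent.Lib.MP_361a6f_ag.FL.O.Mom

/-!
# The signature on even powers
-/

open Filter Topology MeasureTheory

set_option autoImplicit false
set_option linter.unusedSectionVars false

namespace Pool.Agent.Lib.MP_361a6f_ag.FL

namespace OL

variable {I Λ β : Type} [Fintype I] [DecidableEq I] [DecidableEq Λ] [Fintype β] {lb : β → ℕ}
  {D : Dat I Λ} {At : (L : ℕ) → Ten I L → Prop} {m : ℕ} {b : Tup I lb} {H : HMb D b}
  {g : ℕ → Matrix I I ℂ} {k : Matrix I I ℂ}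

/-- a lift of an eigenspace of `k` to the real span -/
theorem exists_lift_eig (L : LevData D At m H g k) (a1 : Alg1) {c : ℕ} (hc : c ≤ m) (s : ℝ) :
    ∃ U : Submodule ℝ (Ten I c), U ≤ RA At c ∧
      Module.finrank ℝ U = Module.finrank ℝ (eigR L a1 hc s) ∧
      ∀ u : RA At c, (u : Ten I c) ∈ U → (u : Ten I c) ≠ 0 →
        gT k (lm L a1 hc u) = (s : ℂ) • lm L a1 hc u ∧ lm L a1 hc u ≠ 0 := by
  obtain ⟨r, hr⟩ := (lm L a1 hc).rangeRestrict.exists_rightInverse_of_surjective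
    (lm L a1 hc).range_rangeRestrict
  have hr' : ∀ y : LinearMap.range (lm L a1 hc), lm L a1 hc (r y) = y := by
    intro y
    have h1 := LinearMap.congr_fun hr y
    exact congrArg Subtype.val h1
  have hE : eigR L a1 hc s ≤ LinearMap.range (lm L a1 hc) := fun v hv => hv.1
  let f : eigR L a1 hc s →ₗ[ℝ] Ten I c :=
    (RA At c).subtype ∘ₗ r ∘ₗ Submodule.inclusion hE
  have hf : ∀ v, f v = ((r (Submodule.inclusion hE v) : RA At c) : Ten I c) := fun _ => rfl
  have hinj : Function.Injective f := by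
    rw [← LinearMap.ker_eq_bot, LinearMap.ker_eq_bot']
    intro v hv
    have h1 : r (Submodule.inclusion hE v) = 0 := Subtype.ext hv
    have h2 := hr' (Submodule.inclusion hE v)
    rw [h1, map_zero] at h2
    exact Subtype.ext h2.symm
  refine ⟨LinearMap.range f, ?_, LinearMap.finrank_range_of_inj hinj, ?_⟩
  · rintro _ ⟨v, rfl⟩
    exact (r (Submodule.inclusion hE v)).2
  · rintro u ⟨v, hv⟩ hu
    have h1 : r (Submodule.inclusion hE v) = u := Subtype.ext hv
    have h2 : lm L a1 hc u = v := by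
      rw [← h1, hr']
      rfl
    refine ⟨by rw [h2]; exact v.2.2, fun h0 => hu ?_⟩
    rw [h2] at h0
    have h3 : v = 0 := Subtype.ext h0
    rw [← hv, h3, map_zero]

/-- the largest dimension of a positive definite subspace is attained -/
theorem exists_posU (L : LevData D At m H g k) (a1 : Alg1) {c : ℕ} (hc : c ≤ m) :
    ∃ U : Submodule ℝ (Ten I c), U ≤ RA At c ∧ PosU D U ∧
      Module.finrank ℝ U = Module.finrank ℝ (eigR L a1 hc 1) := by
  obtain ⟨U, h1, h2, h3⟩ := exists_lift_eig L a1 hc 1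
  refine ⟨U, h1, fun u hu h0 => ?_, h2⟩
  obtain ⟨h4, h5⟩ := h3 ⟨u, h1 hu⟩ hu h0
  rw [Complex.ofReal_one, one_smul] at h4
  exact psi_pos L a1 hc ⟨u, h1 hu⟩ h4 h5

/-- the largest dimension of a negative definite subspace is attained -/
theorem exists_negU (L : LevData D At m H g k) (a1 : Alg1) {c : ℕ} (hc : c ≤ m) :
    ∃ U : Submodule ℝ (Ten I c), U ≤ RA At c ∧ NegU D U ∧
      Module.finrank ℝ U = Module.finrank ℝ (eigR L a1 hc (-1)) := by
  obtain ⟨U, h1, h2, h3⟩ := exists_lift_eig L a1 hc (-1)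
  refine ⟨U, h1, fun u hu h0 => ?_, h2⟩
  obtain ⟨h4, h5⟩ := h3 ⟨u, h1 hu⟩ hu h0
  rw [Complex.ofReal_neg, Complex.ofReal_one, neg_one_smul] at h4
  exact psi_neg L a1 hc ⟨u, h1 hu⟩ h4 h5

/-- `(p, q)` is the signature of `ψ` on the real span of the members of length `c` -/
structure IsSig (D : Dat I Λ) (At : (L : ℕ) → Ten I L → Prop) (c p q : ℕ) : Prop where
  pos : ∃ U : Submodule ℝ (Ten I c), U ≤ RA At c ∧ PosU D U ∧ Module.finrank ℝ U = p
  pos_le : ∀ U : Submodule ℝ (Ten I c), U ≤ RA At c → PosU D U → Module.finrank ℝ U ≤ p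
  neg : ∃ U : Submodule ℝ (Ten I c), U ≤ RA At c ∧ NegU D U ∧ Module.finrank ℝ U = q
  neg_le : ∀ U : Submodule ℝ (Ten I c), U ≤ RA At c → NegU D U → Module.finrank ℝ U ≤ q
  add : p + q = rkA D At c

theorem IsSig.unique {c p q p' q' : ℕ} (h : IsSig D At c p q) (h' : IsSig D At c p' q') :
    p = p' ∧ q = q' := by
  obtain ⟨U, h1, h2, h3⟩ := h.pos
  obtain ⟨U', h1', h2', h3'⟩ := h'.pos
  have e1 := h'.pos_le U h1 h2
  have e2 := h.pos_le U' h1' h2'
  have e3 := h.add
  have e4 := h'.add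
  omega

theorem isSig (L : LevData D At m H g k) (a1 : Alg1) {c : ℕ} (hc : c ≤ m) :
    IsSig D At c (Module.finrank ℝ (eigR L a1 hc 1)) (Module.finrank ℝ (eigR L a1 hc (-1))) where
  pos := exists_posU L a1 hc
  pos_le U h1 h2 := pos_le L a1 hc U h1 h2
  neg := exists_negU L a1 hc
  neg_le U h1 h2 := neg_le L a1 hc U h1 h2
  add := (eig_int L a1 hc).1

/-- **The signature on an even power is at least the square of the signature on the power.** -/
theorem sq_law (a1 : Alg1) (a2 : Alg2) (ab : AlgB) (cpt : CptbStatement) (mn : MinbStatement)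
    (l1 : L1bStatement) (l2 : L2bStatement) (S : ASys D At) (n : ℕ) {p q p' q' : ℕ}
    (h : IsSig D At n p q) (h' : IsSig D At (2 * n) p' q') : ((p : ℝ) - q) ^ 2 ≤ p' - q' := by
  obtain ⟨β, _, lb, b, H, g, k, L⟩ := LevO.lev (D := D) a1 a2 ab cpt mn l1 l2 S (2 * n)
  have hn : n ≤ 2 * n := by omega
  obtain ⟨e1, e2⟩ := h.unique (isSig L a1 hn)
  obtain ⟨e3, e4⟩ := h'.unique (isSig L a1 le_rfl)
  rw [e1, e2, e3, e4]
  exact sq_signature a1 H L.K (eig_int L a1 hn).2 (eig_int L a1 le_rfl).2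

/-- every length has a signature -/
theorem exists_isSig (a1 : Alg1) (a2 : Alg2) (ab : AlgB) (cpt : CptbStatement)
    (mn : MinbStatement) (l1 : L1bStatement) (l2 : L2bStatement) (S : ASys D At) (n : ℕ) :
    ∃ p q, IsSig D At n p q := by
  obtain ⟨β, _, lb, b, H, g, k, L⟩ := LevO.lev (D := D) a1 a2 ab cpt mn l1 l2 S n
  exact ⟨_, _, isSig L a1 le_rfl⟩

/-- On an even power there is a positive definite subspace of at least half of the rank. -/
theorem half_pos (a1 : Alg1) (a2 : Alg2) (ab : AlgB) (cpt : CptbStatement) (mn : MinbStatement)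
    (l1 : L1bStatement) (l2 : L2bStatement) (S : ASys D At) (n : ℕ) :
    ∃ U : Submodule ℝ (Ten I (2 * n)), U ≤ RA At (2 * n) ∧ PosU D U ∧
      rkA D At (2 * n) ≤ 2 * Module.finrank ℝ U := by
  obtain ⟨p, q, h⟩ := exists_isSig a1 a2 ab cpt mn l1 l2 S n
  obtain ⟨p', q', h'⟩ := exists_isSig a1 a2 ab cpt mn l1 l2 S (2 * n)
  have h1 := sq_law a1 a2 ab cpt mn l1 l2 S n h h'
  obtain ⟨U, h2, h3, h4⟩ := h'.pos
  refine ⟨U, h2, h3, ?_⟩
  have h5 : (q' : ℝ) ≤ p' := by nlinarith [sq_nonneg ((p : ℝ) - q)]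
  have h6 : q' ≤ p' := by exact_mod_cast h5
  have h7 := h'.add
  omega

end OL

end Pool.Agent.Lib.MP_361a6f_ag.FL
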