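import Pool.Agent.Lib.MP_361a6f_ag.FL.O.StatO
import Pool.Agent.Lib.MP_361a6f_ag.FL.S.Stat

/-!
# The 51 per cent laws for Tate and Hodge classes: the definitions used in the statements
-/

open CategoryTheory AlgebraicGeometry MonoidalCategory CartesianMonoidalCategory

universe u v w

namespace Pool.Agent.Lib.MP_361a6f_ag.FL

open Pool.Agent.Lib.MP_361a6f_ag.H3 Pool.Agent.Lib.MP_361a6f_ag.SQ
  Pool.Agent.Lib.MP_361a6f_ag.PP

section

variable {k : Type u} [Field k]

/-- The image `pr₂_* (pr₁^* t · a)` of a class `t` on `A` under a correspondence `a` on `A × B`. -/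
noncomputable def move (W : CohomologyData.{u, 0, w} k ℂ) {A B : Sch k} (t : W.coh A)
    (a : W.coh (A.prod B)) : W.coh B :=
  W.pf (A.pr₂ B) (W.cup (W.pb (A.pr₁ B) t) a)

/-- Complex subspaces `T P` of the cohomology of the products `P` of copies of `X` (for example
the spans of the Tate classes or of the Hodge classes) which contain the algebraic classes and are
mapped into each other by the algebraic correspondences. -/
structure ClosedFamily (W : CohomologyData.{u, 0, w} k ℂ) (X : Fin 1 → Sch k)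
    (T : ∀ P : Prd 1, Submodule ℂ (W.coh (P.obj X))) : Prop where
  alg : ∀ P, algC W (P.obj X) ≤ T P
  corr : ∀ (P Q : Prd 1) (a : W.coh ((P.obj X).prod (Q.obj X))),
    a ∈ algC W ((P.obj X).prod (Q.obj X)) → ∀ t ∈ T P, move W t a ∈ T Q

/-- `M` contains a class whose operator is the `Λ` of `AlgebraicLambda`. -/
def LambdaIn (W : CohomologyData.{u, 0, w} k ℂ) (X : Sch k) (n : ℕ) (ξ : W.coh X)
    (M : Submodule ℂ (W.coh (X.prod X))) : Prop :=
  ∃ l ∈ M, ∀ i r x, i ≤ n → r ≤ n - i → Primitive W X n ξ i x → move W (W.cup (ξ ^ r) x) l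
    = W.scal ((r * (n - i - r + 1) : ℕ) : ℂ) (W.cup (ξ ^ (r - 1)) x)

end

/-- **The 51 per cent law for Tate and Hodge classes.** For all `d`, `r` and `δ > 0` there is `n₀`
such that for all varieties `X` with `dim H^*(X) = d` whose even Kuenneth projector is algebraic,
with a divisor class `ξ` of positive degree and hard Lefschetz, and every closed family `T` that
contains the class of `Λ`: if for the product of ONE number `n ≥ n₀` of copies of `X`
Grothendieck's form is positive definite on `1/2 + δ` of `T(X^n)`, then `Λ` is algebraic, and for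
the products of at most `r` copies of `X` the classes in `T` are algebraic and `Q1` holds, for all
polarisations `∑ c_i pr_i^* ξ` with rational `c_i > 0`. -/
def FiftyOneTStatement : Prop :=
  ∀ (d r : ℕ) (δ : ℝ), 0 < δ → ∃ n₀ : ℕ, ∀ {k : Type u} [Field k]
    (W : CohomologyData.{u, 0, w} k ℂ) (𝒱 : VarietyClass k) (_ : IsWeilCohomology W 𝒱)
    {X : Sch k} {e : ℕ} (_ : 𝒱.mem X e) {ξ : W.coh X} (_ : PositiveDivisor W X e ξ)
    (_ : HardLefschetz W X e ξ) (_ : EvenProjector W X e)
    (_ : Module.finrank ℂ (W.coh X) = d)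
    (T : ∀ P : Prd 1, Submodule ℂ (W.coh (P.obj fun _ => X))) (_ : ClosedFamily W (fun _ => X) T)
    (_ : LambdaIn W X e ξ (T (.prod (.leaf 0) (.leaf 0))))
    (P : Prd 1) (_ : n₀ ≤ P.size) (U : ℕ → Submodule ℝ (W.coh (P.obj fun _ => X)))
    (_ : PosFamily W (P.obj fun _ => X) (P.dim fun _ => e) (P.pol W fun _ => ξ) U)
    (_ : (1 / 2 + δ) * Module.finrank ℂ (T P) ≤ weight (P.dim fun _ => e) U),
    AlgebraicLambda W X e ξ ∧ ∀ (R : Prd 1) (_ : R.size ≤ r),
      T R = algC W (R.obj fun _ => X) ∧ ∀ (η : W.coh (R.obj fun _ => X))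
        (_ : IsPol W (fun _ => ξ) R η), HodgeType W (R.obj fun _ => X) (R.dim fun _ => e) η

/-- **51 per cent of the Tate classes.** For all `d`, `r` and `δ > 0` there is `n₀` such that for
all varieties `X` with `dim H^*(X) = d` whose even Kuenneth projector is algebraic and every closed
family `T` which is stable under exterior products: if for the product of ONE number `n ≥ n₀` of
copies of `X` the intersection form is non-degenerate on `T(X^n)` and `1/2 + δ` of `T(X^n)` is
spanned by algebraic classes, then for the products of at most `r` copies of `X` the classes in `T`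
are in the complex span of the algebraic classes and numerical equivalence is homological
equivalence. -/
def TatePercentStatement : Prop :=
  ∀ (d r : ℕ) (δ : ℝ), 0 < δ → ∃ n₀ : ℕ, ∀ {k : Type u} [Field k]
    (W : CohomologyData.{u, 0, w} k ℂ) (𝒱 : VarietyClass k) (_ : IsWeilCohomology W 𝒱)
    {X : Sch k} {e : ℕ} (_ : 𝒱.mem X e) (_ : EvenProjector W X e)
    (_ : Module.finrank ℂ (W.coh X) = d)
    (T : ∀ P : Prd 1, Submodule ℂ (W.coh (P.obj fun _ => X))) (_ : ClosedFamily W (fun _ => X) T)
    (_ : ∀ P Q, ∀ t ∈ T P, ∀ t' ∈ T Q, W.ext t t' ∈ T (.prod P Q))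
    (P : Prd 1) (_ : n₀ ≤ P.size)
    (_ : ∀ t ∈ T P, (∀ t' ∈ T P, W.Tr (W.cup t t') = 0) → t = 0)
    (_ : (1 / 2 + δ) * Module.finrank ℂ (T P) ≤ Module.finrank ℂ (algC W (P.obj fun _ => X)))
    (R : Prd 1) (_ : R.size ≤ r),
    T R = algC W (R.obj fun _ => X) ∧ ∀ l z, W.IsAlg (R.obj fun _ => X) l z →
      (∀ j y, W.IsAlg (R.obj fun _ => X) j y → W.Tr (W.cup z y) = 0) → z = 0

end Pool.Agent.Lib.MP_361a6f_ag.FL
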