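import Pool.Agent.Lib.MP_361a6f_ag.FL.B.UnL
import Pool.Agent.Lib.MP_361a6f_ag.FL.O.StatT

/-!
# Half or all of the Tate classes: the definitions used in the statement
-/

open CategoryTheory AlgebraicGeometry MonoidalCategory CartesianMonoidalCategory

universe u v w

namespace Pool.Agent.Lib.MP_361a6f_ag.FL

open Pool.Agent.Lib.MP_361a6f_ag.H3 Pool.Agent.Lib.MP_361a6f_ag.SQ
  Pool.Agent.Lib.MP_361a6f_ag.PP

section

variable {k : Type u} [Field k]

/-- The even Kuenneth projector of `X` is algebraic, or `X` is an abelian variety: it has a unital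
law, `H^0(X) = ℂ` and a divisor class of positive degree. -/
def AbelianOrEven (W : CohomologyData.{u, 0, w} k ℂ) (X : Sch k) (e : ℕ) : Prop :=
  EvenProjector W X e ∨ (UnitalLaw X ∧ (∀ x, W.Deg X 0 x → ∃ c : ℂ, x = W.scal c 1) ∧
    ∃ y, PositiveDivisor W X e y)

/-- Numerical equivalence is homological equivalence on `Y`. -/
def ConjectureD (W : CohomologyData.{u, 0, w} k ℂ) (Y : Sch k) : Prop :=
  ∀ l z, W.IsAlg Y l z → (∀ j y, W.IsAlg Y j y → W.Tr (W.cup z y) = 0) → z = 0

/-- The form `Tr(x y)` is nondegenerate on `M`. -/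
def NondegOn (W : CohomologyData.{u, 0, w} k ℂ) {Y : Sch k} (M : Submodule ℂ (W.coh Y)) : Prop :=
  ∀ x ∈ M, (∀ y ∈ M, W.Tr (W.cup x y) = 0) → x = 0

/-- The spaces `T P` are closed under exterior products. -/
def ExtClosed (W : CohomologyData.{u, 0, w} k ℂ) (X : Fin 1 → Sch k)
    (T : ∀ P : Prd 1, Submodule ℂ (W.coh (P.obj X))) : Prop :=
  ∀ P Q, ∀ s ∈ T P, ∀ t ∈ T Q, W.ext s t ∈ T (.prod P Q)

/-- Graded endomorphisms `F P` of the cohomology algebras of the products `P` of copies of `X`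
which are compatible with exterior products and traces and fix the algebraic classes (for example
the Frobenius, divided by `q^(i/2)` on `H^i`, if `X` is defined over the field with `q` elements).
-/
structure FrobeniusSystem (W : CohomologyData.{u, 0, w} k ℂ) (X : Fin 1 → Sch k)
    (F : ∀ P : Prd 1, W.coh (P.obj X) →ₐ[ℂ] W.coh (P.obj X)) : Prop where
  deg : ∀ P i x, W.Deg (P.obj X) i x → W.Deg (P.obj X) i (F P x)
  tr : ∀ P x, W.Tr (F P x) = W.Tr x
  ext : ∀ P Q x y, F (.prod P Q) (W.ext x y) = W.ext (F P x) (F Q y)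
  alg : ∀ P l z, W.IsAlg (P.obj X) l z → F P z = z

/-- The even part of the generalised eigenspace of `F` for the eigenvalue `1`. -/
def tateF (W : CohomologyData.{u, 0, w} k ℂ) (Y : Sch k) (F : W.coh Y →ₐ[ℂ] W.coh Y) :
    Submodule ℂ (W.coh Y) :=
  Module.End.maxGenEigenspace F.toLinearMap 1 ⊓ ⨆ i : ℕ, W.gr Y (2 * i)

/-- The number `1/2 + 160 (r + 1) b^3 n^(-1/2)`, where `b = dim H^*(X)`. -/
noncomputable def share (W : CohomologyData.{u, 0, w} k ℂ) (X : Sch k) (r n : ℕ) : ℝ :=
  1 / 2 + 160 * (r + 1) * (Module.finrank ℂ (W.coh X) : ℝ) ^ 3 / √n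

/-- `F` is diagonalisable. -/
def Diagonalisable (W : CohomologyData.{u, 0, w} k ℂ) {Y : Sch k} (F : W.coh Y →ₐ[ℂ] W.coh Y) :
    Prop :=
  ⨆ μ : ℂ, Module.End.eigenspace F.toLinearMap μ = ⊤

end

/-- **Half or all.** For every abelian variety `X`, and every variety `X` whose even Kuenneth
projector is algebraic, every closed family `T` that is closed under exterior products and every
`r`: either for all products of at most `r` copies of `X` the space `T` is spanned by algebraic
classes and numerical equivalence is homological equivalence, or for the products of ANY number `n`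
of copies of `X` such that `Tr(x y)` is nondegenerate on `T` the algebraic classes span at most
`1/2 + 160 (r + 1) b^3 n^(-1/2)` of `T`, where `b = dim H^*(X)`. -/
def HalfOrAllStatement : Prop :=
  ∀ {k : Type u} [Field k] (W : CohomologyData.{u, 0, w} k ℂ) (𝒱 : VarietyClass k)
    (_ : IsWeilCohomology W 𝒱) (X : Fin 1 → Sch k) {e : ℕ} (_ : 𝒱.mem (X 0) e)
    (_ : AbelianOrEven W (X 0) e) (T : ∀ P : Prd 1, Submodule ℂ (W.coh (P.obj X)))
    (_ : ClosedFamily W X T) (_ : ExtClosed W X T) (r : ℕ),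
    (∀ R : Prd 1, R.size ≤ r → T R = algC W (R.obj X) ∧ ConjectureD W (R.obj X)) ∨
    ∀ P : Prd 1, NondegOn W (T P) → (Module.finrank ℂ (algC W (P.obj X)) : ℝ) ≤
      share W (X 0) r P.size * Module.finrank ℂ (T P)

/-- **Half or all, for the Frobenius.** The same with the generalised eigenspaces `tateF` of a
`FrobeniusSystem`, without the hypothesis that `Tr(x y)` is nondegenerate; in the first case, if
`r ≥ 2`, then `F` is also diagonalisable on `H^*(X)`. -/
def FrobeniusHalfOrAllStatement : Prop :=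
  ∀ {k : Type u} [Field k] (W : CohomologyData.{u, 0, w} k ℂ) (𝒱 : VarietyClass k)
    (_ : IsWeilCohomology W 𝒱) (X : Fin 1 → Sch k) {e : ℕ} (_ : 𝒱.mem (X 0) e)
    (_ : AbelianOrEven W (X 0) e)
    (F : ∀ P : Prd 1, W.coh (P.obj X) →ₐ[ℂ] W.coh (P.obj X)) (_ : FrobeniusSystem W X F) (r : ℕ),
    ((∀ R : Prd 1, R.size ≤ r →
      tateF W (R.obj X) (F R) = algC W (R.obj X) ∧ ConjectureD W (R.obj X)) ∧
      (2 ≤ r → Diagonalisable W (F (.leaf 0)))) ∨
    ∀ P : Prd 1, (Module.finrank ℂ (algC W (P.obj X)) : ℝ) ≤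
      share W (X 0) r P.size * Module.finrank ℂ (tateF W (P.obj X) (F P))

end Pool.Agent.Lib.MP_361a6f_ag.FL
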