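import Pool.Agent.Lib.MP_361a6f_ag.FL.O.StatF52

/-!
# The integrality law: the statement
-/

open CategoryTheory AlgebraicGeometry MonoidalCategory CartesianMonoidalCategory Filter Topology

universe u v w

namespace Pool.Agent.Lib.MP_361a6f_ag.FL

open Pool.Agent.Lib.MP_361a6f_ag.H3 Pool.Agent.Lib.MP_361a6f_ag.SQ
  Pool.Agent.Lib.MP_361a6f_ag.PP

section

variable {k : Type u} [Field k]

/-- The complex subspaces `T P` of the cohomology of the products `P` of copies of `X` are mapped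
into each other by the algebraic correspondences. -/
def CorrStable (W : CohomologyData.{u, 0, w} k ℂ) (X : Fin 1 → Sch k)
    (T : ∀ P : Prd 1, Submodule ℂ (W.coh (P.obj X))) : Prop :=
  ∀ (P Q : Prd 1) (a : W.coh ((P.obj X).prod (Q.obj X))),
    a ∈ algC W ((P.obj X).prod (Q.obj X)) → ∀ t ∈ T P, move W t a ∈ T Q

/-- The number of the factors of the product tends to infinity. -/
def powers : Filter (Prd 1) := comap Prd.size atTop

/-- The number `c r d^3 n^(-1/2)`, where `d = dim H^*(X)`. -/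
noncomputable def rootC (W : CohomologyData.{u, 0, w} k ℂ) (X : Sch k) (c r n : ℕ) : ℝ :=
  c * r * (Module.finrank ℂ (W.coh X) : ℝ) ^ 3 / √n

/-- The dimension of the space `T P`. -/
noncomputable def dimT (W : CohomologyData.{u, 0, w} k ℂ) {X : Fin 1 → Sch k}
    (T : ∀ P : Prd 1, Submodule ℂ (W.coh (P.obj X))) (P : Prd 1) : ℕ :=
  Module.finrank ℂ (T P)

/-- `|dim T(X^n) - m N(X^n)| ≤ f(n) N(X^n)` for all `n`, where `N(X^n)` is the rank of the
intersection form on the algebraic classes of `X^n`. -/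
def Approx (W : CohomologyData.{u, 0, w} k ℂ) (X : Fin 1 → Sch k)
    (T : ∀ P : Prd 1, Submodule ℂ (W.coh (P.obj X))) (m : ℕ) (f : ℕ → ℝ) : Prop :=
  ∀ P : Prd 1, |(dimT W T P : ℝ) - m * rankN W (P.obj X)| ≤ f P.size * rankN W (P.obj X)

/-- The even part of the eigenspace of `F` for the eigenvalue `1`. -/
def tateE (W : CohomologyData.{u, 0, w} k ℂ) (Y : Sch k) (F : W.coh Y →ₐ[ℂ] W.coh Y) :
    Submodule ℂ (W.coh Y) :=
  Module.End.eigenspace F.toLinearMap 1 ⊓ ⨆ i : ℕ, W.gr Y (2 * i)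

/-- Either `dim T(X^n) / N(X^n)` tends to infinity, or it tends to an integer `m`, with an error
`O(n^(-1/2))`, and `dim T(X^n) ≤ m N(X^n)` for all even `n`; in the second case, if `T` contains the
span `A` of the algebraic classes, then numerical equivalence is homological equivalence on all
powers of `X`, and `m = 1` if and only if `T = A` on all powers. -/
def LimitLaw (W : CohomologyData.{u, 0, w} k ℂ) (X : Fin 1 → Sch k)
    (T : ∀ P : Prd 1, Submodule ℂ (W.coh (P.obj X))) : Prop :=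
  Tendsto (fun P => (dimT W T P : ℝ) / rankN W (P.obj X)) powers atTop ∨
    ∃ m : ℕ, (∃ C : ℝ, Approx W X T m fun n => C / √n) ∧
      (∀ P : Prd 1, Even P.size → dimT W T P ≤ m * rankN W (P.obj X)) ∧
      ((∀ P, algC W (P.obj X) ≤ T P) → (∀ P : Prd 1, ConjectureD W (P.obj X)) ∧
        (m = 1 ↔ ∀ P, T P = algC W (P.obj X)))

/-- If `dim T(X^r) > m N(X^r)` for ONE even `r`, or for one `r` and `m = 1` and `T(X^r)` contains
`A(X^r)`, then `dim T(X^n) ≥ (m + 1) (1 - 40 r d^3 n^(-1/2)) N(X^n)` for ALL `n`. -/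
def GapLaw (W : CohomologyData.{u, 0, w} k ℂ) (X : Fin 1 → Sch k)
    (T : ∀ P : Prd 1, Submodule ℂ (W.coh (P.obj X))) : Prop :=
  ∀ (R : Prd 1) (m : ℕ), (Even R.size ∨ (m = 1 ∧ algC W (R.obj X) ≤ T R)) →
    m * rankN W (R.obj X) < dimT W T R → ∀ P : Prd 1,
      ((m : ℝ) + 1) * (1 - rootC W (X 0) 40 R.size P.size) * rankN W (P.obj X) ≤
        dimT W T P

/-- Either `N(X^n) = O(n^(-1/2) dim T(X^n))`, or `dim T(X^n) = m N(X^n) + O(c^n N(X^n))` for an
integer `m ≥ 1` and a number `c < 1`; in the second case `dim T(X^n) ≤ m N(X^n)` for all even `n`,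
on ALL powers of `X` numerical equivalence is homological equivalence and `Tr(x y)` is nondegenerate
on `T`, and `m = 1` if and only if `T = A` on all powers. -/
def GrowthLaw (W : CohomologyData.{u, 0, w} k ℂ) (X : Fin 1 → Sch k)
    (T : ∀ P : Prd 1, Submodule ℂ (W.coh (P.obj X))) : Prop :=
  (∃ C : ℝ, ∀ P : Prd 1, (rankN W (P.obj X) : ℝ) ≤
      C / √P.size * dimT W T P) ∨
    ∃ m : ℕ, 1 ≤ m ∧ (∃ C c : ℝ, 0 ≤ c ∧ c < 1 ∧ Approx W X T m fun n => C * c ^ n) ∧
      (∀ P : Prd 1, Even P.size → dimT W T P ≤ m * rankN W (P.obj X)) ∧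
      (∀ P : Prd 1, ConjectureD W (P.obj X) ∧ NondegOn W (T P)) ∧
      (m = 1 ↔ ∀ P, T P = algC W (P.obj X))

/-- If numerical equivalence is not homological equivalence on `X^r`, or `Tr(x y)` is degenerate on
`T(X^r)`, for ONE `r`, then `N(X^n) ≤ 160 r d^3 n^(-1/2) dim T(X^n)` for ALL `n`. -/
def RootLaw (W : CohomologyData.{u, 0, w} k ℂ) (X : Fin 1 → Sch k)
    (T : ∀ P : Prd 1, Submodule ℂ (W.coh (P.obj X))) : Prop :=
  ∀ R : Prd 1, ¬ (ConjectureD W (R.obj X) ∧ NondegOn W (T R)) → ∀ P : Prd 1,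
    (rankN W (P.obj X) : ℝ) ≤ rootC W (X 0) 160 R.size P.size * dimT W T P

/-- If `dim T(X^r) > m N(X^r)` for ONE `r`, and `r` is even or `m = 1`, then
`2 dim A(X^n) + (m - 1) N(X^n) ≤ (1 + 160 m r d^3 n^(-1/2)) dim T(X^n)` for ALL `n` such that
`Tr(x y)` is nondegenerate on `T(X^n)`; for `m = 1` this is the half or all law
`dim A(X^n) ≤ (1/2 + 80 r d^3 n^(-1/2)) dim T(X^n)`. -/
def NumLaw (W : CohomologyData.{u, 0, w} k ℂ) (X : Fin 1 → Sch k)
    (T : ∀ P : Prd 1, Submodule ℂ (W.coh (P.obj X))) : Prop :=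
  ∀ (R : Prd 1) (m : ℕ), (Even R.size ∨ m = 1) →
    m * rankN W (R.obj X) < dimT W T R → ∀ P : Prd 1, NondegOn W (T P) →
      2 * (Module.finrank ℂ (algC W (P.obj X)) : ℝ) + ((m : ℝ) - 1) * rankN W (P.obj X) ≤
        (1 + rootC W (X 0) (160 * m) R.size P.size) * dimT W T P

end

/-- **The integrality law.** Let `X` be an abelian variety, or a variety whose even Kuenneth
projector is algebraic, `d = dim H^*(X)`, `A(X^n)` the span of the algebraic classes on `X^n`, and
`N(X^n)` the rank of the intersection form on `A(X^n)`. Then `d^n ≤ (600 d^3 n)^(d^2) N(X^n)`, and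
for every family `T` of complex spaces of classes on the powers of `X`: `LimitLaw` and `GapLaw` hold
if `T` is stable under the algebraic correspondences, and `GrowthLaw`, `RootLaw` and `NumLaw` hold
if moreover `T` contains the algebraic classes and is closed under exterior products. These
hypotheses hold for `T = A`, and for the even parts of the eigenspaces, and of the generalised
eigenspaces, for the eigenvalue `1` of every `FrobeniusSystem` (if `X` is defined over a finite
field: for the Tate classes, and for spaces whose dimensions are the sums of the orders of the poles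
of the zeta functions). `Tr(x y)` is nondegenerate on these generalised eigenspaces, and if `F` is
not diagonalisable on `H^*(X)` then `N(X^n) ≤ 320 d^3 n^(-1/2) dim T(X^n)` for both and for ALL
`n`. -/
def IntegralityLawStatement : Prop :=
  ∀ {k : Type u} [Field k] (W : CohomologyData.{u, 0, w} k ℂ) (𝒱 : VarietyClass k)
    (_ : IsWeilCohomology W 𝒱) (X : Fin 1 → Sch k) {e : ℕ} (_ : 𝒱.mem (X 0) e)
    (_ : AbelianOrEven W (X 0) e),
    (∀ P : Prd 1, (Module.finrank ℂ (W.coh (X 0)) : ℝ) ^ P.size ≤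
      (600 * (Module.finrank ℂ (W.coh (X 0)) : ℝ) ^ 3 * P.size) ^
        (Module.finrank ℂ (W.coh (X 0)) ^ 2) * rankN W (P.obj X)) ∧
    (∀ T : (∀ P : Prd 1, Submodule ℂ (W.coh (P.obj X))),
      (CorrStable W X T → LimitLaw W X T ∧ GapLaw W X T) ∧
      (ClosedFamily W X T → ExtClosed W X T →
        GrowthLaw W X T ∧ RootLaw W X T ∧ NumLaw W X T)) ∧
    (ClosedFamily W X (fun P => algC W (P.obj X)) ∧ ExtClosed W X fun P => algC W (P.obj X)) ∧
    ∀ F : (∀ P : Prd 1, W.coh (P.obj X) →ₐ[ℂ] W.coh (P.obj X)), FrobeniusSystem W X F →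
      (∀ P : Prd 1, NondegOn W (tateF W (P.obj X) (F P))) ∧
      ∀ T : (∀ P : Prd 1, Submodule ℂ (W.coh (P.obj X))),
        ((∀ P, T P = tateE W (P.obj X) (F P)) ∨ ∀ P, T P = tateF W (P.obj X) (F P)) →
        ClosedFamily W X T ∧ ExtClosed W X T ∧
        (¬ Diagonalisable W (F (.leaf 0)) → ∀ P : Prd 1, (rankN W (P.obj X) : ℝ) ≤
          rootC W (X 0) 160 2 P.size * dimT W T P)

end Pool.Agent.Lib.MP_361a6f_ag.FL
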