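import Pool.Agent.Lib.MP_361a6f_ag.FL.B.PosL
import Pool.Agent.Lib.MP_361a6f_ag.FL.GB

/-!
# Zero-one laws, host side: the form `ψ` on the Lefschetz strings of primitive classes (helper88)

Let `S j` be real spaces of primitive classes in the real span of the algebraic classes of
codimension `j`. The classes `L^r x`, `x` in `S j`, `2 j ≤ e`, `r ≤ e - 2 j`, are independent, the
strings are orthogonal for `ψ`, and on `L^r (S j)` the form `ψ` is a positive multiple of
`(-1)^j Tr(L^(e-2j) x y)`.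
-/

open CategoryTheory AlgebraicGeometry MonoidalCategory CartesianMonoidalCategory

universe u v w

set_option autoImplicit false
set_option linter.unusedSectionVars false

namespace Pool.Agent.Lib.MP_361a6f_ag.FL

open Pool.Agent.Lib.MP_361a6f_ag.H3 Pool.Agent.Lib.MP_361a6f_ag.SQ
  Pool.Agent.Lib.MP_361a6f_ag.IP2 Pool.Agent.Lib.MP_361a6f_ag.PP

namespace OStr

open PSI

variable {k : Type u} [Field k] {W : CohomologyData.{u, 0, w} k ℂ} {𝒱 : VarietyClass k}

section comm

variable (hW : IsWeilCohomology W 𝒱) {Z : Sch k} {e : ℕ} (hZ : 𝒱.mem Z e)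

include hW hZ in
/-- classes in the real span of the algebraic classes commute with everything -/
theorem span_comm {j : ℕ} {x : W.coh Z}
    (hx : x ∈ Submodule.span ℝ (W.alg Z j : Set (W.coh Z))) (y : W.coh Z) : x * y = y * x := by
  induction hx using Submodule.span_induction with
  | mem x hx => exact hW.alg_comm hZ hx y
  | zero => rw [zero_mul, mul_zero]
  | add a b _ _ ha hb => rw [add_mul, mul_add, ha, hb]
  | smul c a _ ha => rw [smul_mul_assoc, mul_smul_comm, ha]

include hW hZ in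
theorem span_gr {j : ℕ} {x : W.coh Z}
    (hx : x ∈ Submodule.span ℝ (W.alg Z j : Set (W.coh Z))) : x ∈ W.gr Z (2 * j) := by
  induction hx using Submodule.span_induction with
  | mem x hx => exact hW.alg_gr hZ hx
  | zero => exact zero_mem _
  | add a b _ _ ha hb => exact add_mem ha hb
  | smul c a _ ha => exact Submodule.smul_mem _ (c : ℂ) ha

end comm

variable (hW : IsWeilCohomology W 𝒱) {Z : Sch k} {e : ℕ} (hZ : 𝒱.mem Z e)
  {η : W.coh Z} (hη : η ∈ W.alg Z 1) {Lam : Module.End ℂ (W.coh Z)}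
  (D : LamData W Z e η Lam) (hS : Sl2Statement.{w}) (hT : StaStatement.{w})

include hW hZ hη D hS hT

/-- the star operator on a string -/
theorem star_str {j : ℕ} (hj : 2 * j ≤ e) {x : W.coh Z}
    (hx : x ∈ Submodule.span ℝ (W.alg Z j : Set (W.coh Z))) (hp : η ^ (e - 2 * j + 1) * x = 0)
    (s : ℕ) (hs : s ≤ e - 2 * j) : ∃ q : ℚ, 0 < q ∧
      star D.slm.internal (Lop W Z η) Lam (η ^ s * x)
        = ((-1 : ℂ) ^ j * (q : ℂ)) • (η ^ (e - 2 * j - s) * x) := by
  have hg := span_gr hW hZ hx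
  have hΛ : Lam x = 0 := (hS D.slm).2.2.2.2.2.1 (2 * j) x (by omega) hg (by
    rw [Lop_pow hW hZ]; exact hp)
  obtain ⟨q, hq, h1⟩ := star_string hS hT D.slm (i := j) hj hg hΛ s hs
  refine ⟨q, hq, ?_⟩
  rw [Lop_pow hW hZ, Lop_pow hW hZ] at h1
  exact h1

/-- `ψ` on two members of strings: only the same string and the same place contribute -/
theorem psi_str_ne {i j : ℕ} (hi : 2 * i ≤ e) (hj : 2 * j ≤ e) {x y : W.coh Z}
    (hx : x ∈ Submodule.span ℝ (W.alg Z i : Set (W.coh Z))) (hpx : η ^ (e - 2 * i + 1) * x = 0)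
    (hy : y ∈ Submodule.span ℝ (W.alg Z j : Set (W.coh Z))) (hpy : η ^ (e - 2 * j + 1) * y = 0)
    (r s : ℕ) (hs : s ≤ e - 2 * j) (hne : ¬ (i = j ∧ r = s)) :
    psi W Z η Lam D.slm.internal (η ^ r * x) (η ^ s * y) = 0 := by
  have hgx := span_gr hW hZ hx
  have hgy := span_gr hW hZ hy
  have hηg : ∀ t : ℕ, η ^ t ∈ W.gr Z (2 * t) := fun t => by
    induction t with
    | zero =>
      rw [pow_zero]
      exact hW.alg_gr hZ (hW.one_alg hZ)
    | succ t ih =>
      rw [pow_succ]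
      have := hW.mul_gr hZ ih (hW.alg_gr hZ hη)
      rwa [show 2 * t + 2 * 1 = 2 * (t + 1) by ring] at this
  by_cases hd : i + r = j + s
  swap
  · refine GB.psi_gr_ne hW hT hZ hη D (i := 2 * r + 2 * i) (j := 2 * s + 2 * j)
      (hW.mul_gr hZ (hηg r) hgx) (hW.mul_gr hZ (hηg s) hgy) (by omega)
  obtain ⟨q, _, h1⟩ := star_str hW hZ hη D hS hT hj hy hpy s hs
  have hcomm : ∀ (t : ℕ) (z : W.coh Z), z * η ^ t = η ^ t * z := fun t z => by
    induction t with
    | zero => rw [pow_zero, one_mul, mul_one]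
    | succ t ih => rw [pow_succ, ← mul_assoc, ih, mul_assoc, mul_assoc, hW.alg_comm hZ hη z]
  have h2 : η ^ r * x * (η ^ (e - 2 * j - s) * y) = η ^ (e - i - j) * (x * y) := by
    rw [mul_assoc, ← mul_assoc x, hcomm, mul_assoc, ← mul_assoc, ← pow_add,
      show r + (e - 2 * j - s) = e - i - j by omega]
  have h3 : η ^ (e - i - j) * (x * y) = 0 := by
    rcases lt_trichotomy i j with h | h | h
    · rw [span_comm hW hZ hx y, ← mul_assoc,
        show e - i - j = (e - i - j - (e - 2 * j + 1)) + (e - 2 * j + 1) by omega, pow_add,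
        mul_assoc (η ^ (e - i - j - (e - 2 * j + 1))), hpy, mul_zero, zero_mul]
    · exact absurd ⟨h, by omega⟩ hne
    · rw [← mul_assoc,
        show e - i - j = (e - i - j - (e - 2 * i + 1)) + (e - 2 * i + 1) by omega, pow_add,
        mul_assoc (η ^ (e - i - j - (e - 2 * i + 1))), hpx, mul_zero, zero_mul]
  rw [psi, h1, mul_smul_comm, h2, h3, smul_zero, map_zero]

/-- `ψ` on a string is a positive multiple of Grothendieck's form -/
theorem psi_str {j : ℕ} (hj : 2 * j ≤ e) {x y : W.coh Z}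
    (hy : y ∈ Submodule.span ℝ (W.alg Z j : Set (W.coh Z))) (hpy : η ^ (e - 2 * j + 1) * y = 0)
    (s : ℕ) (hs : s ≤ e - 2 * j) : ∃ q : ℚ, 0 < q ∧
      psi W Z η Lam D.slm.internal (η ^ s * x) (η ^ s * y)
        = (q : ℂ) * ((-1 : ℂ) ^ j * W.tr Z (η ^ (e - 2 * j) * (x * y))) := by
  obtain ⟨q, hq, h1⟩ := star_str hW hZ hη D hS hT hj hy hpy s hs
  have hcomm : ∀ (t : ℕ) (z : W.coh Z), z * η ^ t = η ^ t * z := fun t z => by
    induction t with
    | zero => rw [pow_zero, one_mul, mul_one]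
    | succ t ih => rw [pow_succ, ← mul_assoc, ih, mul_assoc, mul_assoc, hW.alg_comm hZ hη z]
  have h2 : η ^ s * x * (η ^ (e - 2 * j - s) * y) = η ^ (e - 2 * j) * (x * y) := by
    rw [mul_assoc, ← mul_assoc x, hcomm, mul_assoc, ← mul_assoc, ← pow_add,
      show s + (e - 2 * j - s) = e - 2 * j by omega]
  refine ⟨q, hq, ?_⟩
  rw [psi, h1, mul_smul_comm, h2, map_smul, smul_eq_mul]
  ring

/-- The span of the strings of spaces `S j` of primitive classes on which Grothendieck's form is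
positive definite is positive definite for `ψ`, and has the dimension
`∑ (e - 2 j + 1) dim (S j)`. -/
theorem strings (S : ℕ → Submodule ℝ (W.coh Z))
    (hSa : ∀ j, ∀ x ∈ S j, x ∈ Submodule.span ℝ (W.alg Z j : Set (W.coh Z)))
    (hSp : ∀ j, 2 * j ≤ e → ∀ x ∈ S j, η ^ (e - 2 * j + 1) * x = 0)
    (hpos : ∀ j, 2 * j ≤ e → ∀ x ∈ S j, x ≠ 0 →
      ∃ r : ℝ, 0 < r ∧ (-1) ^ j * W.tr Z (η ^ (e - 2 * j) * (x * x)) = (r : ℂ)) :
    ∃ T : Submodule ℝ (W.coh Z), T ≤ Submodule.span ℝ (tot W Z : Set (W.coh Z)) ∧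
      (∀ x ∈ T, x ≠ 0 → ∃ r : ℝ, 0 < r ∧ psi W Z η Lam D.slm.internal x x = (r : ℂ)) ∧
      Module.finrank ℝ T = ∑ j ∈ Finset.range (e / 2 + 1), (e - 2 * j + 1)
        * Module.finrank ℝ (S j) := by
  classical
  have hfin : Module.Finite ℂ (W.coh Z) := hW.graded.finite hZ
  have hfinR : Module.Finite ℝ (W.coh Z) := Module.Finite.trans ℂ (W.coh Z)
  let B : Type := Σ j : Fin (e / 2 + 1), Fin (e - 2 * j + 1)
  have hB : ∀ b : B, 2 * (b.1 : ℕ) ≤ e := fun b => by have := b.1.2; omega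
  have hB2 : ∀ b : B, (b.2 : ℕ) ≤ e - 2 * (b.1 : ℕ) := fun b => by have := b.2.2; omega
  -- the map
  let Φ : (∀ b : B, S b.1) →ₗ[ℝ] W.coh Z :=
    ∑ b : B, (LinearMap.mulLeft ℝ (η ^ (b.2 : ℕ))) ∘ₗ (S b.1).subtype ∘ₗ LinearMap.proj b
  have hΦ : ∀ f : ∀ b : B, S b.1, Φ f = ∑ b : B, η ^ (b.2 : ℕ) * (f b : W.coh Z) := fun f => by
    simp only [Φ, LinearMap.sum_apply, LinearMap.comp_apply, LinearMap.mulLeft_apply,
      LinearMap.proj_apply, Submodule.subtype_apply]
  have hpair : ∀ f : ∀ b : B, S b.1, f ≠ 0 → ∃ r : ℝ, 0 < r ∧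
      psi W Z η Lam D.slm.internal (Φ f) (Φ f) = (r : ℂ) := by
    intro f hf
    have h1 : psi W Z η Lam D.slm.internal (Φ f) (Φ f)
        = ∑ b : B, psi W Z η Lam D.slm.internal (η ^ (b.2 : ℕ) * (f b : W.coh Z))
          (η ^ (b.2 : ℕ) * (f b : W.coh Z)) := by
      have h2 : psi W Z η Lam D.slm.internal (Φ f) (Φ f)
          = ∑ b : B, ∑ b' : B, psi W Z η Lam D.slm.internal (η ^ (b.2 : ℕ) * (f b : W.coh Z))
            (η ^ (b'.2 : ℕ) * (f b' : W.coh Z)) := by
        rw [hΦ]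
        simp only [psi, map_sum, Finset.sum_mul, Finset.mul_sum]
        exact Finset.sum_comm
      rw [h2]
      refine Finset.sum_congr rfl fun b _ => ?_
      rw [Finset.sum_eq_single b]
      · intro b' _ hb'
        refine psi_str_ne hW hZ hη D hS hT (hB b) (hB b') (hSa _ _ (f b).2)
          (hSp _ (hB b) _ (f b).2) (hSa _ _ (f b').2) (hSp _ (hB b') _ (f b').2) _ _ (hB2 b') ?_
        rintro ⟨h3, h4⟩
        refine hb' ?_
        obtain ⟨j, r⟩ := b
        obtain ⟨j', r'⟩ := b'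
        have h5 : j = j' := Fin.ext h3
        subst h5
        have h6 : r = r' := Fin.ext h4
        rw [h6]
      · intro h
        exact absurd (Finset.mem_univ b) h
    have h2 : ∀ b : B, ∃ r : ℝ, 0 ≤ r ∧ (f b ≠ 0 → 0 < r) ∧
        psi W Z η Lam D.slm.internal (η ^ (b.2 : ℕ) * (f b : W.coh Z))
          (η ^ (b.2 : ℕ) * (f b : W.coh Z)) = (r : ℂ) := by
      intro b
      by_cases h0 : f b = 0
      · refine ⟨0, le_rfl, fun h => absurd h0 h, ?_⟩
        rw [h0, psi, ZeroMemClass.coe_zero, mul_zero, map_zero, mul_zero, map_zero,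
          Complex.ofReal_zero]
      · obtain ⟨q, hq, h3⟩ := psi_str hW hZ hη D hS hT (hB b) (x := (f b : W.coh Z))
          (hSa _ _ (f b).2) (hSp _ (hB b) _ (f b).2) (b.2 : ℕ) (hB2 b)
        obtain ⟨r, hr, h4⟩ := hpos _ (hB b) _ (f b).2 (fun h => h0 (Subtype.ext h))
        have hqr : (0 : ℝ) < (q : ℝ) := by exact_mod_cast hq
        refine ⟨(q : ℝ) * r, (mul_pos hqr hr).le, fun _ => mul_pos hqr hr, ?_⟩
        rw [h3, h4]
        push_cast
        ring
    choose r hr0 hrp hr using h2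
    refine ⟨∑ b : B, r b, ?_, ?_⟩
    · obtain ⟨b, hb⟩ : ∃ b, f b ≠ 0 := by
        by_contra h
        push Not at h
        exact hf (funext h)
      exact Finset.sum_pos' (fun b _ => hr0 b) ⟨b, Finset.mem_univ b, hrp b hb⟩
    · rw [h1, Finset.sum_congr rfl fun b _ => hr b]
      push_cast
      rfl
  have hinj : Function.Injective Φ := by
    rw [← LinearMap.ker_eq_bot, LinearMap.ker_eq_bot']
    intro f hf
    by_contra h0
    obtain ⟨r, hr, h1⟩ := hpair f h0
    rw [hf, psi, zero_mul, map_zero] at h1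
    exact hr.ne (by exact_mod_cast h1)
  refine ⟨LinearMap.range Φ, ?_, ?_, ?_⟩
  · rintro _ ⟨f, rfl⟩
    rw [hΦ]
    refine Submodule.sum_mem _ fun b _ => ?_
    have h1 := hSa _ _ (f b).2
    generalize (f b : W.coh Z) = y at h1
    induction h1 using Submodule.span_induction with
    | mem x hx =>
      refine Submodule.subset_span ?_
      have h2 : ∀ t : ℕ, η ^ t * x ∈ tot W Z := fun t => by
        induction t with
        | zero => rw [pow_zero, one_mul]; exact alg_le_tot hW Z _ hx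
        | succ t ih =>
          rw [pow_succ', mul_assoc]
          exact (AlgOp.mulLeft hW hZ (alg_le_tot hW Z 1 hη)).apply hW hZ ih
      exact h2 _
    | zero => rw [mul_zero]; exact zero_mem _
    | add a b _ _ ha hb => rw [mul_add]; exact add_mem ha hb
    | smul c a _ ha => rw [mul_smul_comm]; exact Submodule.smul_mem _ c ha
  · rintro _ ⟨f, rfl⟩ h0
    exact hpair f fun h => h0 (by rw [h, map_zero])
  · rw [LinearMap.finrank_range_of_inj hinj, Module.finrank_pi_fintype, Fintype.sum_sigma,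
      Finset.sum_range]
    refine Finset.sum_congr rfl fun j _ => ?_
    have h1 : ∀ y : Fin (e - 2 * (j : ℕ) + 1), Module.finrank ℝ (S ((⟨j, y⟩ : B).1 : ℕ))
        = Module.finrank ℝ (S (j : ℕ)) := fun y => rfl
    rw [Finset.sum_congr rfl fun y _ => h1 y, Finset.sum_const, Finset.card_univ,
      Fintype.card_fin, smul_eq_mul]

end OStr

end Pool.Agent.Lib.MP_361a6f_ag.FL
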