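import Pool.Agent.Lib.MP_361a6f_ag.FL.O.LevA

/-!
# The 51 per cent law, abstract form
-/

open Filter Topology MeasureTheory

set_option autoImplicit false
set_option linter.unusedSectionVars false

namespace Pool.Agent.Lib.MP_361a6f_ag.FL

namespace OL

/-- **T1, abstract form.** -/
theorem t1u (a1 : Alg1) (a2 : Alg2) (ab : AlgB) (cpt : CptbStatement) (mn : MinbStatement)
    (l1 : L1bStatement) (l2 : L2bStatement) (gro : GroU) : T1U := by
  intro d r δ hδ
  by_cases hr : 0 < r ∧ 0 ≤ (d : ℝ) - 2 / (r : ℝ) ^ 2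
  · obtain ⟨hr0, hρ⟩ := hr
    have hr1 : (0 : ℝ) < 1 / (r : ℝ) ^ 2 := by
      have : (0 : ℝ) < r := by exact_mod_cast hr0
      positivity
    have e2 : 2 / (r : ℝ) ^ 2 = 2 * (1 / (r : ℝ) ^ 2) := by ring
    set t : ℝ := 1 / (r : ℝ) ^ 2 with ht
    rw [e2] at hρ
    have hq : 0 < (d : ℝ) - t := by linarith
    obtain ⟨C, hC, hgro⟩ := gro a1 d (d - t) hq.le (by linarith)
    -- the exponential
    have h1 : 0 ≤ ((d : ℝ) - 2 * t) / (d - t) := by positivity
    have h2 : ((d : ℝ) - 2 * t) / (d - t) < 1 := by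
      rw [div_lt_one hq]
      linarith
    have h3 : ∀ᶠ n : ℕ in atTop, (((d : ℝ) - 2 * t) / (d - t)) ^ n < 2 * δ * C :=
      (tendsto_pow_atTop_nhds_zero_of_lt_one h1 h2).eventually (gt_mem_nhds (by positivity))
    obtain ⟨n₀, hn₀⟩ := eventually_atTop.1 h3
    refine ⟨n₀, ?_⟩
    intro I Λ _ _ _ D At hI S hpos hneg n hn U hU hdef
    obtain ⟨β, _, lb, b, H, g, k, L⟩ := LevO.lev (D := D) a1 a2 ab cpt mn l1 l2 S (n + r + 1)
    have hc : n ≤ n + r + 1 := by omega
    obtain ⟨_, _, hsig⟩ := sig_bound L a1 hc (by omega : r ≤ n + r + 1) (by omega) hpos hneg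
    obtain ⟨hsum, _⟩ := eig_int L a1 hc
    obtain ⟨e, he, hef, _⟩ := exists_pos L a1 (by omega : 1 ≤ n + r + 1) hpos
    have hN := hgro D hI H e he hef n
    rw [finrank_lim L a1 hc] at hN
    rw [hI, e2] at hsig
    have hlt : ((d : ℝ) - 2 * t) ^ n < 2 * δ * rkA D At n := by
      have h4 := hn₀ n hn
      rw [div_pow, div_lt_iff₀ (by positivity)] at h4
      calc ((d : ℝ) - 2 * t) ^ n < 2 * δ * C * (d - t) ^ n := h4
        _ = 2 * δ * (C * (d - t) ^ n) := by ring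
        _ ≤ _ := mul_le_mul_of_nonneg_left hN (by positivity)
    have hsum' : (Module.finrank ℝ (eigR L a1 hc 1) : ℝ) + Module.finrank ℝ (eigR L a1 hc (-1)) =
        rkA D At n := by exact_mod_cast hsum
    obtain ⟨h5, h6⟩ := abs_le.1 hsig
    rcases hdef with hP | hM
    · have h7 : (Module.finrank ℝ U : ℝ) ≤ Module.finrank ℝ (eigR L a1 hc 1) := by
        exact_mod_cast pos_le L a1 hc U hU hP
      linarith
    · have h7 : (Module.finrank ℝ U : ℝ) ≤ Module.finrank ℝ (eigR L a1 hc (-1)) := by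
        exact_mod_cast neg_le L a1 hc U hU hM
      linarith
  · refine ⟨0, ?_⟩
    intro I Λ _ _ _ D At hI S hpos hneg n hn U hU hdef
    exfalso
    obtain ⟨β, _, lb, b, H, g, k, L⟩ := LevO.lev (D := D) a1 a2 ab cpt mn l1 l2 S (n + r + 1)
    obtain ⟨h1, h2, _⟩ := sig_bound L a1 (by omega : n ≤ n + r + 1)
      (by omega : r ≤ n + r + 1) (by omega) hpos hneg
    exact hr ⟨h1, by rwa [hI] at h2⟩

end OL

end Pool.Agent.Lib.MP_361a6f_ag.FL
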