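import Pool.Agent.Lib.MP_361a6f_ag.FL.O.StatT
import Pool.Agent.Lib.MP_361a6f_ag.FL.P.MainP

/-!
# The 51 per cent law for Tate and Hodge classes: transport to tensors
-/

open CategoryTheory AlgebraicGeometry MonoidalCategory CartesianMonoidalCategory

universe u v w

set_option autoImplicit false
set_option linter.unusedSectionVars false

namespace Pool.Agent.Lib.MP_361a6f_ag.FL

open Pool.Agent.Lib.MP_361a6f_ag.H3 Pool.Agent.Lib.MP_361a6f_ag.SQ
  Pool.Agent.Lib.MP_361a6f_ag.PP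

namespace T40

open OL PRK PMain PGC

/-- Row T3: a space of tensors that contains `CA At n` and all contractions of `f` with the members
of `CA At (r + n)` has dimension at least `(2 - ε)` times the rank. -/
def T3U : Prop :=
  ∀ (d r : ℕ) (ε : ℝ) (_ : 0 < ε), ∃ n₀ : ℕ,
    ∀ {I Λ : Type} [Fintype I] [DecidableEq I] [DecidableEq Λ] {D : Dat I Λ}
      {At : (L : ℕ) → Ten I L → Prop} (_ : Fintype.card I = d) (_ : ASys D At)
      (_ : ∃ u ∈ RA At 1, ∃ w ∈ RA At 1, psiT D u w ≠ 0)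
      (_ : ∀ z ∈ numA D At r, z = 0) (f : Ten I r) (_ : f ∉ CA At r)
      (n : ℕ) (_ : n₀ ≤ n) (M : Submodule ℂ (Ten I n)) (_ : CA At n ≤ M)
      (_ : ∀ y ∈ CA At (r + n), cont D f y ∈ M),
      (2 - ε) * rkA D At n ≤ Module.finrank ℂ M

section fam

variable {k : Type u} [Field k] {W : CohomologyData.{u, 0, w} k ℂ} {𝒱 : VarietyClass k}

/-- T3 for a host -/
theorem t3_host {d r : ℕ} {ε : ℝ} {n₀ : ℕ}
    (h3 : ∀ {I Λ : Type} [Fintype I] [DecidableEq I] [DecidableEq Λ] {D : Dat I Λ}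
      {At : (L : ℕ) → Ten I L → Prop} (_ : Fintype.card I = d) (_ : ASys D At)
      (_ : ∃ u ∈ RA At 1, ∃ w ∈ RA At 1, psiT D u w ≠ 0)
      (_ : ∀ z ∈ numA D At r, z = 0) (f : Ten I r) (_ : f ∉ CA At r)
      (n : ℕ) (_ : n₀ ≤ n) (M : Submodule ℂ (Ten I n)) (_ : CA At n ≤ M)
      (_ : ∀ y ∈ CA At (r + n), cont D f y ∈ M),
      (2 - ε) * rkA D At n ≤ Module.finrank ℂ M)
    (H : PHost W 𝒱 1) (hd : Module.finrank ℂ (W.coh (H.X 0)) = d)
    {p : W.coh (H.X 0)} (hp : p ∈ tot W (H.X 0)) (hp0 : W.tr (H.X 0) p ≠ 0)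
    {T : ∀ P : Prd 1, Submodule ℂ (W.coh (P.obj H.X))} (hT : ClosedFamily W H.X T)
    (R : Prd 1) (hR : R.size = r) (hnum : numC W (R.obj H.X) = ⊥)
    {t : W.coh (R.obj H.X)} (ht : t ∈ T R) (hta : t ∉ algC W (R.obj H.X))
    (P : Prd 1) (hP : n₀ ≤ P.size) :
    (2 - ε) * rankN W (P.obj H.X) ≤ Module.finrank ℂ (T P) := by
  have ge := pge H
  have gr := pgr pge H
  have hsl := psl pge H
  subst hR
  -- no numerically trivial tensors
  have h1 : ∀ z ∈ numA H.D (AtP H) R.size, z = 0 := by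
    intro z hz
    rw [numA_eq] at hz
    have h2 := ORk.radR_le hz
    have h3 := map_numC H hsl gr ge R
    rw [hnum, Submodule.map_bot] at h3
    rw [← h3] at h2
    exact (Submodule.mem_bot ℂ).1 h2
  -- the tensor
  have h2 : sm H (H.tc R t) ∉ CA (AtP H) R.size := by
    intro h
    have h3 := sm_CA H hsl h
    rw [sm_sm, ← map_CA H gr ge R] at h3
    obtain ⟨x, hx, hxt⟩ := h3
    exact hta ((ge.inj R hxt) ▸ hx)
  have h4 := h3 ((card_I H ge).trans hd) (pasys H) (exists_one H hsl ge hp hp0) h1 _ h2 P.size hP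
    ((T P).map (H.tc P)) (by
      rw [← map_CA H gr ge P]
      exact Submodule.map_mono (hT.alg P)) (by
      intro y hy
      have hy' : y ∈ (algC W ((R.prod P).obj H.X)).map (H.tc (R.prod P)) := by
        rw [map_CA H gr ge (R.prod P)]
        exact hy
      obtain ⟨a, ha, rfl⟩ := hy'
      rw [cont_tc H ge R P t a]
      exact ⟨_, hT.corr R P a ha t ht, rfl⟩)
  rwa [rkA_eq H hsl gr ge, (Submodule.equivMapOfInjective (H.tc P) (ge.inj P) _).finrank_eq.symm]
    at h4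

end fam

section geo

variable {k : Type u} [Field k] {W : CohomologyData.{u, 0, w} k ℂ} {𝒱 : VarietyClass k}

/-- **T3.** If `T(X^r)` contains a class that is not in the complex span of the algebraic classes,
and there are no numerically trivial algebraic classes on `X^r`, then in every large degree `n` the
dimension of `T(X^n)` is at least `(2 - ε)` times the rank. -/
theorem t3 (hT3 : T3U) (d r : ℕ) {ε : ℝ} (hε : 0 < ε) : ∃ n₀ : ℕ,
    ∀ {k : Type u} [Field k] {W : CohomologyData.{u, 0, w} k ℂ} {𝒱 : VarietyClass k}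
      (_ : IsWeilCohomology W 𝒱) {X : Sch k} {e : ℕ} (_ : 𝒱.mem X e) (_ : EvenProjector W X e)
      (_ : Module.finrank ℂ (W.coh X) = d)
      {T : ∀ P : Prd 1, Submodule ℂ (W.coh (P.obj fun _ => X))} (_ : ClosedFamily W (fun _ => X) T)
      (R : Prd 1) (_ : R.size = r) (_ : numC W (R.obj fun _ => X) = ⊥)
      {t : W.coh (R.obj fun _ => X)} (_ : t ∈ T R) (_ : t ∉ algC W (R.obj fun _ => X))
      (P : Prd 1) (_ : n₀ ≤ P.size),
      (2 - ε) * rankN W (P.obj fun _ => X) ≤ Module.finrank ℂ (T P) := by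
  obtain ⟨n₀, h3⟩ := hT3 d r ε hε
  refine ⟨n₀, ?_⟩
  intro k _ W 𝒱 hW X e hX hE hd T hT R hR hnum t ht hta P hP
  have hz0 : t ≠ 0 := fun h => hta (h ▸ zero_mem _)
  obtain ⟨p, hp, q, hq, hpt⟩ := SPT.spt hW hX hE (one_ne R hz0)
  have hp0 : W.tr X p ≠ 0 := by
    have h1 : W.tr X p = (q : ℂ) := hpt
    rw [h1]
    exact_mod_cast hq.ne'
  have hp' : p ∈ tot W X := alg_le_tot hW X e hp
  obtain ⟨H, hHX, hHn⟩ := pgb hW (X := fun _ : Fin 1 => X) (n := fun _ => e) (fun _ => hX)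
    (fun _ => algPar hW hX hE)
  have key : ∀ (Y : Fin 1 → Sch k) (_ : H.X = Y) (_ : Module.finrank ℂ (W.coh (Y 0)) = d)
      {p : W.coh (Y 0)} (_ : p ∈ tot W (Y 0)) (_ : W.tr (Y 0) p ≠ 0)
      {T : ∀ P : Prd 1, Submodule ℂ (W.coh (P.obj Y))} (_ : ClosedFamily W Y T)
      (_ : numC W (R.obj Y) = ⊥) {t : W.coh (R.obj Y)} (_ : t ∈ T R) (_ : t ∉ algC W (R.obj Y)),
      (2 - ε) * rankN W (P.obj Y) ≤ Module.finrank ℂ (T P) := by
    intro Y hY hd p hp hp0 T hT hnum t ht hta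
    subst hY
    exact t3_host h3 H hd hp hp0 hT R hR hnum ht hta P hP
  exact key (fun _ => X) hHX hd hp' hp0 hT hnum ht hta

end geo

end T40

end Pool.Agent.Lib.MP_361a6f_ag.FL
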